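import Mathlib

/-!
# Ordered chains in posets, reduced homology, simple connectivity

All posets live in `Type`.  For a set `S` in a poset `X`, a `k`-chain list is a strictly increasing
list of length `k` of elements of `S` (so it is a simplex of dimension `k - 1`; the empty list is
the augmentation).  `CC S k` is the group of integral chains on these lists.
-/

set_option autoImplicit false

namespace Pool.Agent.Helper59.PD

noncomputable section

/-- formal integral sums of lists -/
abbrev Ch (X : Type) : Type := List X →₀ ℤ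

/-- put `a` in front of every list -/
def consL {X : Type} (a : X) : Ch X →ₗ[ℤ] Ch X := Finsupp.lmapDomain ℤ ℤ (List.cons a)

/-- boundary of a list -/
def dl {X : Type} : List X → Ch X
  | [] => 0
  | a :: l => Finsupp.single l 1 - consL a (dl l)

/-- the (augmented) boundary operator -/
def d {X : Type} : Ch X →ₗ[ℤ] Ch X := Finsupp.linearCombination ℤ dl

section posets

variable {X : Type} [PartialOrder X]

/-- strictly increasing lists of length `k` in `S` -/
def cs (S : Set X) (k : ℕ) : Set (List X) :=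
  {l | l.Pairwise (· < ·) ∧ (∀ x ∈ l, x ∈ S) ∧ l.length = k}

/-- integral chains of length `k` in `S` -/
def CC (S : Set X) (k : ℕ) : Submodule ℤ (Ch X) := Finsupp.supported ℤ ℤ (cs S k)

/-- reduced homology of `S` vanishes at length `k` (in dimension `k - 1`) -/
def Hvan (S : Set X) (k : ℕ) : Prop :=
  ∀ c ∈ CC S k, d c = 0 → ∃ e ∈ CC S (k + 1), d e = c

/-- reduced homology of `S` vanishes -/
def Acyc (S : Set X) : Prop := ∀ k, Hvan S k

/-- `S` has the reduced homology of a sphere of dimension `m - 1` -/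
def Sph (S : Set X) (m : ℕ) : Prop :=
  ∃ z ∈ CC S m, d z = 0 ∧ (∀ (a : ℤ), ∀ e ∈ CC S (m + 1), d e = a • z → a = 0) ∧
    ∀ k, ∀ c ∈ CC S k, d c = 0 →
      ∃ e ∈ CC S (k + 1), ∃ a : ℤ, (k ≠ m → a = 0) ∧ c = d e + a • z

/-- `S` is nonempty and connected -/
def Conn (S : Set X) : Prop :=
  S.Nonempty ∧ ∀ f : X → Prop, (∀ x ∈ S, ∀ y ∈ S, x < y → (f x ↔ f y)) →
    ∀ x ∈ S, ∀ y ∈ S, (f x ↔ f y)

/-- `f` is a cocycle on the comparable pairs of `S` -/
def Cocyc {Γ : Type} [Group Γ] (S : Set X) (f : X → X → Γ) : Prop :=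
  ∀ x ∈ S, ∀ y ∈ S, ∀ z ∈ S, x < y → y < z → f x z = f x y * f y z

/-- `S` is connected and simply connected -/
def SC (S : Set X) : Prop :=
  Conn S ∧ ∀ (Γ : Type) [Group Γ] (f : X → X → Γ), Cocyc S f →
    ∃ g : X → Γ, ∀ x ∈ S, ∀ y ∈ S, x < y → g y = g x * f x y

/-- acyclic and simply connected -/
def WC (S : Set X) : Prop := Acyc S ∧ SC S

/-- the elements of `S` comparable to, and different from, `x` -/
def Lk (S : Set X) (x : X) : Set X := {y ∈ S | y < x ∨ x < y}

/-- bounded strictly monotone rank function on the whole poset -/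
def FinHt (X : Type) [PartialOrder X] : Prop :=
  ∃ (N : ℕ) (ρ : X → ℕ), (∀ x y, x < y → ρ x < ρ y) ∧ ∀ x, ρ x ≤ N

/-- bounded strictly monotone rank function on `S` -/
def FinHtOn (S : Set X) : Prop :=
  ∃ (N : ℕ) (ρ : X → ℕ), (∀ x ∈ S, ∀ y ∈ S, x < y → ρ x < ρ y) ∧ ∀ x ∈ S, ρ x ≤ N

end posets

/-- `S` and `T` have the same homology and the same simple connectivity -/
structure HEq' {X Y : Type} [PartialOrder X] [PartialOrder Y] (S : Set X) (T : Set Y) : Prop where
  sph : ∀ m, Sph S m ↔ Sph T m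
  van : ∀ k, Hvan S k ↔ Hvan T k
  sc : SC S ↔ SC T

end

end Pool.Agent.Helper59.PD
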