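import Pool.Agent.Helper59.PD.Lib

/-! Bier spheres. -/

set_option autoImplicit false

open scoped Classical

namespace Pool.Agent.Helper59.PD

namespace BierAux

/-- a nonempty finite chain has a maximum -/
lemma chain_max {X : Type} [PartialOrder X] {y : Finset X} (hne : y.Nonempty)
    (hch : IsChain (· ≤ ·) (y : Set X)) : ∃ m ∈ y, ∀ z ∈ y, z ≤ m :=
  Sd.exists_max (S := Set.univ) ⟨hne, hch, fun _ _ => trivial⟩

/-- a nonempty finite chain has a minimum -/
lemma chain_min {X : Type} [PartialOrder X] {y : Finset X} (hne : y.Nonempty)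
    (hch : IsChain (· ≤ ·) (y : Set X)) : ∃ m ∈ y, ∀ z ∈ y, m ≤ z := by
  obtain ⟨m, hm, hmin⟩ := y.exists_minimal hne
  refine ⟨m, hm, fun z hz => ?_⟩
  rcases eq_or_ne m z with e | hne
  · exact e.le
  · rcases hch (Finset.mem_coe.mpr hm) (Finset.mem_coe.mpr hz) hne with h | h
    · exact h
    · exact hmin hz h

/-- the union of the members in `Δ` -/
noncomputable def fa {α : Type} (Δ : Set (Finset α)) (C : Finset (Finset α)) : Finset α :=
  (C.filter (fun x => x ∈ Δ)).sup id

/-- the union of the complements of the members not in `Δ` -/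
noncomputable def fb {α : Type} (R : Finset α) (Δ : Set (Finset α)) (C : Finset (Finset α)) :
    Finset α :=
  (C.filter (fun x => x ∉ Δ)).sup (fun x => R \ x)

variable {α : Type} {R : Finset α} {Δ : Set (Finset α)}

lemma fa_le {C : Finset (Finset α)} {a : Finset α} :
    fa Δ C ≤ a ↔ ∀ x ∈ C, x ∈ Δ → x ⊆ a := by
  simp only [fa, Finset.sup_le_iff, Finset.mem_filter, id, and_imp]

lemma fb_le {C : Finset (Finset α)} {b : Finset α} :
    fb R Δ C ≤ b ↔ ∀ x ∈ C, x ∉ Δ → R \ x ⊆ b := by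
  simp only [fb, Finset.sup_le_iff, Finset.mem_filter, and_imp]

lemma fa_mem (h0 : ∅ ∈ Δ) {C : Finset (Finset α)}
    (hC : IsChain (· ≤ ·) (C : Set (Finset α))) : fa Δ C ∈ Δ := by
  rcases (C.filter (fun x => x ∈ Δ)).eq_empty_or_nonempty with h | h
  · have : fa Δ C = ∅ := by rw [fa, h]; rfl
    rw [this]
    exact h0
  · have hch : IsChain (· ≤ ·) ((C.filter (fun x => x ∈ Δ) : Finset (Finset α)) :
        Set (Finset α)) :=
      hC.mono (fun x hx => Finset.mem_coe.mpr (Finset.mem_filter.mp (Finset.mem_coe.mp hx)).1)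
    obtain ⟨m, hm, hmax⟩ := chain_max h hch
    have : fa Δ C = m := by
      refine le_antisymm (Finset.sup_le hmax) (Finset.le_sup (f := id) hm)
    rw [this]
    exact (Finset.mem_filter.mp hm).2

lemma fb_mem (hR : R ∉ Δ) {C : Finset (Finset α)} (hsub : ∀ x ∈ C, x ⊆ R)
    (hC : IsChain (· ≤ ·) (C : Set (Finset α))) : R \ fb R Δ C ∉ Δ := by
  rcases (C.filter (fun x => x ∉ Δ)).eq_empty_or_nonempty with h | h
  · have : fb R Δ C = ∅ := by rw [fb, h]; rfl
    rw [this, Finset.sdiff_empty]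
    exact hR
  · have hch : IsChain (· ≤ ·) ((C.filter (fun x => x ∉ Δ) : Finset (Finset α)) :
        Set (Finset α)) :=
      hC.mono (fun x hx => Finset.mem_coe.mpr (Finset.mem_filter.mp (Finset.mem_coe.mp hx)).1)
    obtain ⟨m, hm, hmin⟩ := chain_min h hch
    have : fb R Δ C = R \ m := by
      refine le_antisymm (Finset.sup_le fun x hx => ?_)
        (Finset.le_sup (f := fun x => R \ x) hm)
      exact Finset.sdiff_subset_sdiff (le_refl R) (hmin x hx)
    rw [this, Finset.sdiff_sdiff_eq_self (hsub m (Finset.mem_filter.mp hm).1)]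
    exact (Finset.mem_filter.mp hm).2

lemma fab_disj (hdown : ∀ a ∈ Δ, ∀ b, b ⊆ a → b ∈ Δ) {C : Finset (Finset α)}
    (hC : IsChain (· ≤ ·) (C : Set (Finset α))) : Disjoint (fa Δ C) (fb R Δ C) := by
  rw [fa, fb, Finset.disjoint_sup_left]
  intro x hx
  rw [Finset.disjoint_sup_right]
  intro y hy
  rw [Finset.mem_filter] at hx hy
  have hxy : x ≠ y := by
    rintro rfl
    exact hy.2 hx.2
  have hle : x ⊆ y := by
    rcases hC (Finset.mem_coe.mpr hx.1) (Finset.mem_coe.mpr hy.1) hxy with h | h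
    · exact h
    · exact (hy.2 (hdown x hx.2 y h)).elim
  exact Finset.disjoint_of_subset_left hle Finset.disjoint_sdiff

/-- the fibre is contractible -/
lemma fibre {S : Set (Finset α)} (hS : FinHtOn S) (P : Finset α → Prop) (v : Finset α) (hv : v ∈ S)
    (hPv : P v) (h : ∀ x ∈ S, P x → x ≤ v ∨ v ≤ x) :
    WC {C ∈ Sd S | ∀ x ∈ C, P x} := by
  have hmem : ∀ C ∈ {C ∈ Sd S | ∀ x ∈ C, P x}, insert v C ∈ {C ∈ Sd S | ∀ x ∈ C, P x} := by
    rintro C ⟨⟨hne, hch, hsub⟩, hP⟩
    refine ⟨⟨Finset.insert_nonempty _ _, ?_, ?_⟩, ?_⟩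
    · rw [Finset.coe_insert]
      refine hch.insert ?_
      intro x hx _
      exact (h x (hsub hx) (hP x (Finset.mem_coe.mp hx))).symm
    · rw [Finset.coe_insert]
      exact Set.insert_subset hv hsub
    · intro x hx
      rcases Finset.mem_insert.mp hx with rfl | hx
      · exact hPv
      · exact hP x hx
  have hfin : FinHtOn {C ∈ Sd S | ∀ x ∈ C, P x} := by
    obtain ⟨N, ρ, h1, h2⟩ := hS.sd
    exact ⟨N, ρ, fun x hx y hy => h1 x hx.1 y hy.1, fun x hx => h2 x hx.1⟩
  refine WC.of_up hfin (fun C => insert v C) hmem ?_ ?_ ?_ {v} ?_ ?_ ?_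
  · intro C _
    exact Finset.insert_idem v C
  · intro C _ C' _ hCC
    exact Finset.insert_subset_insert v hCC
  · intro C _
    exact Finset.subset_insert v C
  · refine ⟨⟨Finset.singleton_nonempty v, ?_, ?_⟩, ?_⟩
    · rw [Finset.coe_singleton]
      exact IsChain.singleton
    · rw [Finset.coe_singleton]
      exact Set.singleton_subset_iff.mpr hv
    · intro x hx
      rw [Finset.mem_singleton.mp hx]
      exact hPv
  · exact Finset.insert_eq_of_mem (Finset.mem_singleton_self v)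
  · intro C _
    exact Finset.singleton_subset_iff.mpr (Finset.mem_insert_self v C)

end BierAux

open BierAux in
/-- Bier's theorem: for a simplicial complex `Δ` on the vertex set `R` (containing the empty
simplex, not the full one) the poset of pairs of disjoint sets `(a, b)`, `a ∈ Δ`, `R \ b ∉ Δ`,
different from `(∅, ∅)`, is a sphere of dimension `|R| - 2`. -/
theorem sph_bier {α : Type} (R : Finset α) (Δ : Set (Finset α))
    (hdown : ∀ a ∈ Δ, ∀ b, b ⊆ a → b ∈ Δ) (h0 : ∅ ∈ Δ) (hR : R ∉ Δ) :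
    Sph {p : Finset α × Finset α | p.1 ∈ Δ ∧ p.1 ⊆ R ∧ p.2 ⊆ R ∧ R \ p.2 ∉ Δ ∧ Disjoint p.1 p.2 ∧
      p ≠ (∅, ∅)} (R.card - 1) := by
  have hRne : R.Nonempty := by
    rw [Finset.nonempty_iff_ne_empty]
    rintro rfl
    exact hR h0
  have hS : FinHtOn {t : Finset α | t.Nonempty ∧ t ⊂ R} :=
    finHtOn_finset R fun t ht => ht.2.subset
  have hT : FinHtOn {p : Finset α × Finset α | p.1 ∈ Δ ∧ p.1 ⊆ R ∧ p.2 ⊆ R ∧ R \ p.2 ∉ Δ ∧
      Disjoint p.1 p.2 ∧ p ≠ (∅, ∅)} := by
    refine ⟨R.card + R.card, fun p => p.1.card + p.2.card, ?_, ?_⟩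
    · intro p _ q _ hpq
      rcases Prod.lt_iff.mp hpq with ⟨h1, h2⟩ | ⟨h1, h2⟩
      · exact Nat.add_lt_add_of_lt_of_le (Finset.card_lt_card h1) (Finset.card_le_card h2)
      · exact Nat.add_lt_add_of_le_of_lt (Finset.card_le_card h1) (Finset.card_lt_card h2)
    · rintro p ⟨_, h1, h2, _⟩
      exact Nat.add_le_add (Finset.card_le_card h1) (Finset.card_le_card h2)
  have key : HEq' (Sd {t : Finset α | t.Nonempty ∧ t ⊂ R})
      {p : Finset α × Finset α | p.1 ∈ Δ ∧ p.1 ⊆ R ∧ p.2 ⊆ R ∧ R \ p.2 ∉ Δ ∧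
        Disjoint p.1 p.2 ∧ p ≠ (∅, ∅)} := by
    refine HEq'.quillen_le hS.sd hT (fun C => (fa Δ C, fb R Δ C)) ?_ ?_ ?_
    · rintro C ⟨hne, hch, hsub⟩
      refine ⟨fa_mem h0 hch, ?_, ?_, fb_mem hR (fun x hx => (hsub hx).2.subset) hch,
        fab_disj hdown hch, ?_⟩
      · exact fa_le.mpr fun x hx _ => (hsub hx).2.subset
      · exact fb_le.mpr fun x hx _ => Finset.sdiff_subset
      · intro he
        have e1 : fa Δ C = ∅ := (Prod.ext_iff.mp he).1
        have e2 : fb R Δ C = ∅ := (Prod.ext_iff.mp he).2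
        obtain ⟨x, hx⟩ := hne
        have hx' := hsub hx
        by_cases hxD : x ∈ Δ
        · have := fa_le.mp e1.le x hx hxD
          exact hx'.1.ne_empty (Finset.subset_empty.mp this)
        · have := fb_le.mp e2.le x hx hxD
          have h3 : R ⊆ x := Finset.sdiff_eq_empty_iff_subset.mp (Finset.subset_empty.mp this)
          exact hx'.2.2 h3
    · intro C _ C' _ hCC
      refine ⟨fa_le.mpr fun x hx hxD => ?_, fb_le.mpr fun x hx hxD => ?_⟩
      · exact fa_le.mp le_rfl x (hCC hx) hxD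
      · exact fb_le.mp le_rfl x (hCC hx) hxD
    · rintro ⟨a, b⟩ ⟨ha, haR, hbR, hb, hab, hne⟩
      have hset : {C ∈ Sd {t : Finset α | t.Nonempty ∧ t ⊂ R} | (fa Δ C, fb R Δ C) ≤ (a, b)} =
          {C ∈ Sd {t : Finset α | t.Nonempty ∧ t ⊂ R} |
            ∀ x ∈ C, (x ∈ Δ → x ⊆ a) ∧ (x ∉ Δ → R \ x ⊆ b)} := by
        ext C
        simp only [Set.mem_ofPred_eq, Prod.mk_le_mk, fa_le, fb_le]
        refine and_congr_right fun _ => ?_
        constructor
        · rintro ⟨h1, h2⟩ x hx
          exact ⟨h1 x hx, h2 x hx⟩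
        · intro h
          exact ⟨fun x hx => (h x hx).1, fun x hx => (h x hx).2⟩
      rw [hset]
      have hab' : a ⊆ R \ b := by
        intro i hi
        exact Finset.mem_sdiff.mpr ⟨haR hi, Finset.disjoint_left.mp hab hi⟩
      have hcomp : ∀ x : Finset α, R \ x ⊆ b → R \ b ⊆ x := by
        intro x hx i hi
        rw [Finset.mem_sdiff] at hi
        by_contra hix
        exact hi.2 (hx (Finset.mem_sdiff.mpr ⟨hi.1, hix⟩))
      rcases a.eq_empty_or_nonempty with rfl | hane
      · have hbne : b.Nonempty := by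
          rw [Finset.nonempty_iff_ne_empty]
          rintro rfl
          exact hne rfl
        refine fibre hS _ (R \ b) ⟨?_, ?_⟩ ⟨fun h => (hb h).elim, fun _ => ?_⟩ ?_
        · rw [Finset.nonempty_iff_ne_empty]
          intro h
          rw [h] at hb
          exact hb h0
        · exact Finset.sdiff_ssubset hbR hbne
        · rw [Finset.sdiff_sdiff_eq_self hbR]
        · rintro x hx ⟨h1, h2⟩
          by_cases hxD : x ∈ Δ
          · exact Or.inl ((h1 hxD).trans (Finset.empty_subset _))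
          · exact Or.inr (hcomp x (h2 hxD))
      · refine fibre hS _ a ⟨hane, ?_⟩ ⟨fun _ => Finset.Subset.refl a, fun h => (h ha).elim⟩ ?_
        · rw [Finset.ssubset_iff_subset_ne]
          refine ⟨haR, ?_⟩
          rintro rfl
          exact hR ha
        · rintro x hx ⟨h1, h2⟩
          by_cases hxD : x ∈ Δ
          · exact Or.inl (h1 hxD)
          · exact Or.inr (hab'.trans (hcomp x (h2 hxD)))
  exact ((key.symm.trans (HEq'.sd hS)).sph _).2 (sph_simplex R hRne)

end Pool.Agent.Helper59.PD
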