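import Pool.Agent.Helper59.PD.Base

/-! The reflection group construction: definitions. -/

set_option autoImplicit false

namespace Pool.Agent.Helper59.PD

noncomputable section

/-- The input of the reflection construction: a graded poset `R` with a set `Sp` of special minimal
elements; all links except those of the special elements are homology spheres. -/
structure Orbi (n : ℕ) (G R : Type) [Group G] [PartialOrder R] [MulAction G R] (Sp : Set R) where
  /-- rank function -/
  r : R → ℕ
  smul_lt : ∀ (g : G) (x y : R), x < y → g • x < g • y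
  r_lt : ∀ x y, x < y → r x < r y
  r_le : ∀ x, r x ≤ n
  r_smul : ∀ (g : G) (x : R), r (g • x) = r x
  Sp_min : ∀ k ∈ Sp, ∀ x, ¬ x < k
  Sp_smul : ∀ (g : G), ∀ k ∈ Sp, g • k ∈ Sp
  down : ∀ x, Sph (Set.Iio x) (r x)
  up : ∀ x, x ∉ Sp → Sph (Set.Ioi x) (n - r x)
  btw : ∀ x y, x < y → Sph (Set.Ioo x y) (r y - r x - 1)
  free : ∀ (g : G) (x : R), x ∉ Sp → g • x = x → g = 1
  /-- finitely many orbits of nonspecial elements -/
  cofin : ∃ T : Set R, T.Finite ∧ ∀ x, x ∉ Sp → ∃ g : G, g • x ∈ T
  /-- local finiteness -/
  locfin : ∀ x, x ∉ Sp → {y : R | y ≤ x ∨ x ≤ y}.Finite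
  sc : SC (Spᶜ : Set R)
  van : ∀ k, k < n → Hvan (Spᶜ : Set R) k

section defs

variable {R : Type} [PartialOrder R] (Sp : Set R)

/-- cells of the chamber: nonempty finite chains of `R`, except the singletons of special
elements -/
def Cell : Type :=
  {y : Finset R // y.Nonempty ∧ IsChain (· ≤ ·) (y : Set R) ∧ ∀ k ∈ Sp, y ≠ {k}}

instance : PartialOrder (Cell Sp) := inferInstanceAs (PartialOrder {_y : Finset R // _})

/-- generators of the reflection group: pairs `k < z` with `k` special -/
def Gen : Type := {s : R × R // s.1 ∈ Sp ∧ s.1 < s.2}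

/-- two generators commute -/
def Adj (s t : Gen Sp) : Prop := s.1.1 = t.1.1 ∧ (s.1.2 < t.1.2 ∨ t.1.2 < s.1.2)

theorem Adj.symm' {s t : Gen Sp} (h : Adj Sp s t) : Adj Sp t s := ⟨h.1.symm, h.2.symm⟩

end defs

/-- the Coxeter matrix of a right-angled Coxeter group -/
def racm {S : Type} (adj : S → S → Prop) (hs : ∀ s t, adj s t → adj t s) : CoxeterMatrix S := by
  classical
  exact
  { M := fun s t => if s = t then 1 else if adj s t then 2 else 0
    isSymm := by
      ext s t
      simp only [Matrix.transpose_apply]
      by_cases h : s = t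
      · simp [h]
      · have h' : ¬ t = s := fun e => h e.symm
        have e : adj s t ↔ adj t s := ⟨hs s t, hs t s⟩
        simp [h, h', e]
    diagonal := by simp
    off_diagonal := by
      intro s t h
      simp only [h, if_false]
      split_ifs <;> norm_num }

section defs

variable {R : Type} [PartialOrder R] (Sp : Set R)

/-- the Coxeter matrix of the reflection group -/
def cM : CoxeterMatrix (Gen Sp) := racm (Adj Sp) fun _ _ h => h.symm' Sp

/-- the reflection group -/
abbrev WG : Type := (cM Sp).Group

/-- the generators of the reflection group -/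
def rf (s : Gen Sp) : WG Sp := (cM Sp).toCoxeterSystem.simple s

/-- the mirrors of a cell -/
def mir (y : Cell Sp) : Set (Gen Sp) := {s | s.1.1 ∈ y.1 ∧ s.1.2 ∈ y.1}

/-- the group generated by the mirrors of a cell -/
def WP (y : Cell Sp) : Subgroup (WG Sp) := Subgroup.closure (rf Sp '' mir Sp y)

/-- the complex: cosets `w W_y` of cells `y` -/
structure Big : Type where
  /-- the cell -/
  cell : Cell Sp
  /-- the coset -/
  cos : WG Sp ⧸ WP Sp cell

variable {Sp}

/-- the translate of the cell `y` in the chamber `w` -/
def Big.mk' (w : WG Sp) (y : Cell Sp) : Big Sp := ⟨y, QuotientGroup.mk w⟩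

end defs

end

end Pool.Agent.Helper59.PD
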