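import Pool.Agent.Helper59.PD.Big

set_option autoImplicit false

open scoped Classical

namespace Pool.Agent.Helper59.PD

noncomputable section

section order

variable {R : Type} [PartialOrder R] {Sp : Set R}

theorem mir_mono {y y' : Cell Sp} (h : y ≤ y') : mir Sp y ⊆ mir Sp y' := fun _ hs =>
  ⟨h hs.1, h hs.2⟩

theorem WP_mono {y y' : Cell Sp} (h : y ≤ y') : WP Sp y ≤ WP Sp y' :=
  Subgroup.closure_mono (Set.image_mono (mir_mono h))

@[simp] theorem Big.mk'_cell (w : WG Sp) (y : Cell Sp) : (Big.mk' w y).cell = y := rfl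

theorem Big.mk'_eq {w w' : WG Sp} {y : Cell Sp} :
    Big.mk' w y = Big.mk' w' y ↔ w⁻¹ * w' ∈ WP Sp y := by
  unfold Big.mk'
  rw [Big.mk.injEq]
  simp only [heq_eq_eq, true_and]
  exact QuotientGroup.eq

theorem Big.mk'_fst {w w' : WG Sp} {y y' : Cell Sp} (h : Big.mk' w y = Big.mk' w' y') : y = y' :=
  congrArg Big.cell h

theorem Big.exists_mk (a : Big Sp) : ∃ w, a = Big.mk' w a.cell := by
  obtain ⟨y, a⟩ := a
  obtain ⟨w, rfl⟩ := QuotientGroup.mk_surjective a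
  exact ⟨w, rfl⟩

instance : PartialOrder (Big Sp) where
  le a b := a.cell ≤ b.cell ∧ ∃ w : WG Sp, a = Big.mk' w a.cell ∧ b = Big.mk' w b.cell
  le_refl a := by
    obtain ⟨w, hw⟩ := a.exists_mk
    exact ⟨le_rfl, w, hw, hw⟩
  le_trans := by
    rintro a b c ⟨h1, w, ha, hb⟩ ⟨h2, w', hb', hc⟩
    refine ⟨le_trans h1 h2, w, ha, ?_⟩
    have h3 := hb.symm.trans hb'
    rw [Big.mk'_eq] at h3
    rw [hc, Big.mk'_cell, Big.mk'_eq]
    have := (WP Sp c.cell).inv_mem (WP_mono h2 h3)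
    simpa using this
  le_antisymm := by
    rintro a b ⟨h1, w, ha, hb⟩ ⟨h2, _⟩
    rw [ha, hb, le_antisymm h1 h2]

theorem Big.le_def {a b : Big Sp} : a ≤ b ↔ a.cell ≤ b.cell ∧
    ∃ w : WG Sp, a = Big.mk' w a.cell ∧ b = Big.mk' w b.cell := Iff.rfl

theorem Big.mk'_le {w w' : WG Sp} {y y' : Cell Sp} :
    Big.mk' w y ≤ Big.mk' w' y' ↔ y ≤ y' ∧ w⁻¹ * w' ∈ WP Sp y' := by
  rw [Big.le_def]
  simp only [Big.mk'_cell]
  refine and_congr_right fun h => ?_
  constructor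
  · rintro ⟨u, h1, h2⟩
    rw [Big.mk'_eq] at h1 h2
    have := mul_mem (WP_mono h h1) ((WP Sp y').inv_mem h2)
    simpa [mul_assoc] using this
  · intro h1
    refine ⟨w, rfl, ?_⟩
    rw [Big.mk'_eq]
    simpa using (WP Sp y').inv_mem h1

theorem Big.mk'_mono (w : WG Sp) {y y' : Cell Sp} : Big.mk' w y ≤ Big.mk' w y' ↔ y ≤ y' := by
  rw [Big.mk'_le]
  simp [one_mem]

theorem Big.mk'_lt (w : WG Sp) {y y' : Cell Sp} : Big.mk' w y < Big.mk' w y' ↔ y < y' := by
  rw [lt_iff_le_not_ge, lt_iff_le_not_ge, Big.mk'_mono, Big.mk'_mono]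

theorem Big.exists_of_le {a b : Big Sp} (h : a ≤ b) : ∃ w y y', y ≤ y' ∧ a = Big.mk' w y ∧
    b = Big.mk' w y' := by
  obtain ⟨h1, w, h2, h3⟩ := h
  exact ⟨w, _, _, h1, h2, h3⟩

theorem Big.eq_of_ge {w : WG Sp} {y : Cell Sp} {b : Big Sp} (h : Big.mk' w y ≤ b) :
    b = Big.mk' w b.cell ∧ y ≤ b.cell := by
  obtain ⟨w', hw'⟩ := b.exists_mk
  rw [hw', Big.mk'_le] at h
  refine ⟨?_, h.1⟩
  conv_lhs => rw [hw']
  rw [Big.mk'_eq]
  simpa using (WP Sp b.cell).inv_mem h.2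

/-- the chamber `w` -/
def Chm (w : WG Sp) : Set (Big Sp) := Set.range (Big.mk' w)

theorem Chm_up {w : WG Sp} {a b : Big Sp} (ha : a ∈ Chm w) (h : a ≤ b) : b ∈ Chm w := by
  obtain ⟨y, rfl⟩ := ha
  exact ⟨_, (Big.eq_of_ge h).1.symm⟩

theorem mk'_mem_Chm {w w' : WG Sp} {y : Cell Sp} : Big.mk' w y ∈ Chm w' ↔ w⁻¹ * w' ∈ WP Sp y := by
  constructor
  · rintro ⟨y', h⟩
    obtain rfl := Big.mk'_fst h
    rw [← Big.mk'_eq, h]
  · intro h
    exact ⟨y, (Big.mk'_eq.2 h).symm⟩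

end order

section action

variable {G R : Type} [Group G] [PartialOrder R] [MulAction G R] {Sp : Set R}

/-- `G` acts on `R` by order automorphisms preserving `Sp` -/
structure Act (G : Type) {R : Type} [Group G] [PartialOrder R] [MulAction G R] (Sp : Set R) :
    Prop where
  lt : ∀ (g : G) (x y : R), x < y → g • x < g • y
  sp : ∀ (g : G), ∀ k ∈ Sp, g • k ∈ Sp

variable (hG : Act G Sp)

include hG

theorem Act.lt_iff (g : G) (x y : R) : g • x < g • y ↔ x < y := by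
  refine ⟨fun h => ?_, hG.lt g x y⟩
  simpa using hG.lt g⁻¹ _ _ h

theorem Act.sp_iff (g : G) (k : R) : g • k ∈ Sp ↔ k ∈ Sp := by
  refine ⟨fun h => ?_, hG.sp g k⟩
  simpa using hG.sp g⁻¹ _ h

theorem Act.le_iff (g : G) (x y : R) : g • x ≤ g • y ↔ x ≤ y := by
  rw [le_iff_lt_or_eq, le_iff_lt_or_eq, hG.lt_iff, smul_left_cancel_iff]

/-- action on generators -/
def Act.gen (g : G) (s : Gen Sp) : Gen Sp :=
  ⟨(g • s.1.1, g • s.1.2), hG.sp g _ s.2.1, hG.lt g _ _ s.2.2⟩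

theorem Act.gen_adj (g : G) (s t : Gen Sp) : Adj Sp (hG.gen g s) (hG.gen g t) ↔ Adj Sp s t := by
  simp only [Adj, Act.gen, hG.lt_iff, smul_left_cancel_iff]

theorem Act.gen_mul (g h : G) (s : Gen Sp) : hG.gen (g * h) s = hG.gen g (hG.gen h s) := by
  simp [Act.gen, mul_smul]

theorem Act.gen_one (s : Gen Sp) : hG.gen 1 s = s := by
  simp [Act.gen]

theorem Act.gen_inj (g : G) {s t : Gen Sp} : hG.gen g s = hG.gen g t ↔ s = t := by
  constructor
  · intro h
    have := congrArg (hG.gen g⁻¹) h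
    rwa [← hG.gen_mul, ← hG.gen_mul, inv_mul_cancel, hG.gen_one, hG.gen_one] at this
  · rintro rfl; rfl

/-- action on the reflection group -/
def Act.hom (g : G) : WG Sp →* WG Sp :=
  (cM Sp).toCoxeterSystem.lift ⟨fun s => rf Sp (hG.gen g s), by
    intro s t
    have h := (cM Sp).toCoxeterSystem.simple_mul_simple_pow (hG.gen g s) (hG.gen g t)
    have e : (cM Sp) (hG.gen g s) (hG.gen g t) = (cM Sp) s t := by
      simp only [cM, racm]
      simp only [hG.gen_adj, hG.gen_inj]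
    rw [← e]
    exact h⟩

@[simp] theorem Act.hom_rf (g : G) (s : Gen Sp) : hG.hom g (rf Sp s) = rf Sp (hG.gen g s) :=
  (cM Sp).toCoxeterSystem.lift_apply_simple _ s

theorem Act.hom_mul (g h : G) : hG.hom (g * h) = (hG.hom g).comp (hG.hom h) := by
  apply (cM Sp).toCoxeterSystem.ext_simple
  intro s
  change hG.hom (g * h) (rf Sp s) = hG.hom g (hG.hom h (rf Sp s))
  simp [hG.gen_mul]

theorem Act.hom_one : hG.hom 1 = MonoidHom.id _ := by
  apply (cM Sp).toCoxeterSystem.ext_simple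
  intro s
  change hG.hom 1 (rf Sp s) = rf Sp s
  simp [hG.gen_one]

/-- the automorphism of the reflection group -/
def Act.aut : G →* MulAut (WG Sp) where
  toFun g := MonoidHom.toMulEquiv (hG.hom g) (hG.hom g⁻¹)
    (by rw [← hG.hom_mul, inv_mul_cancel, hG.hom_one])
    (by rw [← hG.hom_mul, mul_inv_cancel, hG.hom_one])
  map_one' := by
    ext w
    change hG.hom 1 w = w
    rw [hG.hom_one]; rfl
  map_mul' g h := by
    ext w
    change hG.hom (g * h) w = hG.hom g (hG.hom h w)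
    rw [hG.hom_mul]; rfl

@[simp] theorem Act.aut_apply (g : G) (w : WG Sp) : hG.aut g w = hG.hom g w := rfl

/-- the big group -/
abbrev Act.Pi : Type := WG Sp ⋊[hG.aut] G

/-- action on cells -/
def Act.cell (g : G) (y : Cell Sp) : Cell Sp :=
  ⟨y.1.image (g • ·), y.2.1.image _, by
    intro a ha b hb _
    simp only [Finset.coe_image, Set.mem_image, SetLike.mem_coe] at ha hb
    obtain ⟨a, ha, rfl⟩ := ha
    obtain ⟨b, hb, rfl⟩ := hb
    simp only [hG.le_iff]
    exact y.2.2.1.total ha hb, by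
    intro k hk h
    apply y.2.2.2 (g⁻¹ • k) (hG.sp _ _ hk)
    have h2 := congrArg (Finset.image (g⁻¹ • ·)) h
    rw [Finset.image_image, Finset.image_singleton] at h2
    rw [← h2]
    ext x
    simp [Function.comp_def]⟩

theorem Act.cell_mul (g h : G) (y : Cell Sp) : hG.cell (g * h) y = hG.cell g (hG.cell h y) := by
  apply Subtype.ext
  simp [Act.cell, Finset.image_image, Function.comp_def, mul_smul]

theorem Act.cell_one (y : Cell Sp) : hG.cell 1 y = y := by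
  apply Subtype.ext
  simp [Act.cell]

theorem Act.mem_cell (g : G) (y : Cell Sp) (x : R) : g • x ∈ (hG.cell g y).1 ↔ x ∈ y.1 := by
  simp [Act.cell]

theorem Act.cell_le (g : G) (y y' : Cell Sp) : hG.cell g y ≤ hG.cell g y' ↔ y ≤ y' := by
  constructor
  · intro h x hx
    have := h ((hG.mem_cell g y x).2 hx)
    exact (hG.mem_cell g y' x).1 this
  · intro h x hx
    change x ∈ y.1.image _ at hx
    rw [Finset.mem_image] at hx
    obtain ⟨x, hx, rfl⟩ := hx
    exact (hG.mem_cell g y' x).2 (h hx)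

theorem Act.mir_cell (g : G) (y : Cell Sp) : mir Sp (hG.cell g y) = hG.gen g '' mir Sp y := by
  ext s
  constructor
  · rintro ⟨h1, h2⟩
    refine ⟨hG.gen g⁻¹ s, ⟨?_, ?_⟩, ?_⟩
    · rw [← hG.mem_cell g]; simpa [Act.gen] using h1
    · rw [← hG.mem_cell g]; simpa [Act.gen] using h2
    · rw [← hG.gen_mul, mul_inv_cancel, hG.gen_one]
  · rintro ⟨s, ⟨h1, h2⟩, rfl⟩
    exact ⟨(hG.mem_cell g y _).2 h1, (hG.mem_cell g y _).2 h2⟩

theorem Act.WP_cell (g : G) (y : Cell Sp) : WP Sp (hG.cell g y) = (WP Sp y).map (hG.hom g) := by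
  rw [WP, WP, MonoidHom.map_closure, hG.mir_cell, Set.image_image, Set.image_image]
  simp

theorem Act.hom_mem (g : G) (y : Cell Sp) (w : WG Sp) :
    hG.hom g w ∈ WP Sp (hG.cell g y) ↔ w ∈ WP Sp y := by
  constructor
  · intro h
    have h1 : hG.hom g⁻¹ (hG.hom g w) ∈ WP Sp (hG.cell g⁻¹ (hG.cell g y)) := by
      rw [hG.WP_cell g⁻¹]
      exact Subgroup.mem_map_of_mem _ h
    rwa [← hG.cell_mul, inv_mul_cancel, hG.cell_one, ← MonoidHom.comp_apply, ← hG.hom_mul,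
      inv_mul_cancel, hG.hom_one] at h1
  · intro h
    rw [hG.WP_cell]
    exact Subgroup.mem_map_of_mem _ h

/-- action on the big complex -/
def Act.big (γ : hG.Pi) (a : Big Sp) : Big Sp :=
  ⟨hG.cell γ.right a.cell, Quotient.liftOn' a.cos
    (fun w => QuotientGroup.mk (γ.left * hG.hom γ.right w)) (by
      intro w w' h
      rw [QuotientGroup.leftRel_apply] at h
      rw [QuotientGroup.eq]
      have := (hG.hom_mem γ.right a.cell _).2 h
      simpa [mul_assoc] using this)⟩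

theorem Act.big_mk (γ : hG.Pi) (w : WG Sp) (y : Cell Sp) :
    hG.big γ (Big.mk' w y) = Big.mk' (γ.left * hG.hom γ.right w) (hG.cell γ.right y) := rfl

instance Act.mulAction : MulAction hG.Pi (Big Sp) where
  smul := hG.big
  one_smul a := by
    obtain ⟨w, h⟩ := a.exists_mk
    rw [h]
    change hG.big 1 _ = _
    rw [hG.big_mk]
    simp [hG.cell_one, hG.hom_one]
  mul_smul γ δ a := by
    obtain ⟨w, h⟩ := a.exists_mk
    rw [h]
    change hG.big (γ * δ) _ = hG.big γ (hG.big δ _)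
    rw [hG.big_mk, hG.big_mk, hG.big_mk]
    simp [hG.cell_mul, hG.hom_mul, mul_assoc]

theorem Act.smul_mk (γ : hG.Pi) (w : WG Sp) (y : Cell Sp) :
    γ • (Big.mk' w y) = Big.mk' (γ.left * hG.hom γ.right w) (hG.cell γ.right y) := rfl

theorem Act.smul_le (γ : hG.Pi) (a b : Big Sp) : γ • a ≤ γ • b ↔ a ≤ b := by
  obtain ⟨w, h⟩ := a.exists_mk
  obtain ⟨w', h'⟩ := b.exists_mk
  rw [h, h', hG.smul_mk, hG.smul_mk, Big.mk'_le, Big.mk'_le, hG.cell_le]
  have : (γ.left * hG.hom γ.right w)⁻¹ * (γ.left * hG.hom γ.right w') =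
      hG.hom γ.right (w⁻¹ * w') := by
    simp [mul_assoc]
  rw [this, hG.hom_mem]

end action

end

end Pool.Agent.Helper59.PD
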