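import Pool.Agent.Helper59.PD.Lib

/-! The proper faces of a cube form a homology sphere. -/

set_option autoImplicit false

open scoped Classical

namespace Pool.Agent.Helper59.PD

noncomputable section

/-- a type with the discrete order -/
def Dsc (α : Type) : Type := α

instance (α : Type) : PartialOrder (Dsc α) where
  le a b := a = b
  le_refl _ := rfl
  le_trans _ _ _ h h' := h.trans h'
  le_antisymm _ _ h _ := h

theorem Dsc.le_iff {α : Type} {a b : Dsc α} : a ≤ b ↔ a = b := Iff.rfl

/-- faces of the cube with coordinates in `c`, the value `⊤` marking the free coordinates -/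
def Cub {R α : Type} (c : Finset R) : Set (R → WithTop (Dsc α)) :=
  {v | (∀ z, z ∉ c → v z = ⊤) ∧ ∃ z, v z ≠ ⊤}

theorem cub_le_iff {α : Type} {x y : WithTop (Dsc α)} : x ≤ y ↔ y = ⊤ ∨ x = y := by
  constructor
  · intro h
    induction y using WithTop.recTopCoe with
    | top => exact Or.inl rfl
    | coe y =>
      induction x using WithTop.recTopCoe with
      | top => simp at h
      | coe x =>
        right
        rw [WithTop.coe_le_coe] at h
        exact congrArg _ h
  · rintro (rfl | rfl)
    · exact le_top
    · exact le_rfl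

theorem finHt_cub {R α : Type} (c : Finset R) (S : Set (R → WithTop (Dsc α)))
    (hS : S ⊆ Cub c) : FinHtOn S := by
  refine ⟨c.card, fun v => (c.filter fun z => v z = ⊤).card, ?_, fun v _ =>
    Finset.card_filter_le _ _⟩
  intro x hx y hy hxy
  apply Finset.card_lt_card
  rw [Finset.ssubset_iff_subset_ne]
  constructor
  · intro z hz
    rw [Finset.mem_filter] at hz ⊢
    refine ⟨hz.1, ?_⟩
    have := hxy.le z
    rw [hz.2] at this
    exact top_le_iff.1 this
  · intro h
    apply hxy.ne
    funext z
    rcases cub_le_iff.1 (hxy.le z) with h1 | h1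
    · by_cases hz : z ∈ c
      · have : z ∈ c.filter fun z => x z = ⊤ := by
          rw [h, Finset.mem_filter]; exact ⟨hz, h1⟩
        rw [h1, (Finset.mem_filter.1 this).2]
      · rw [(hS hx).1 z hz, (hS hy).1 z hz]
    · exact h1

theorem wc_cub {R α : Type} (c : Finset R) (j : R) (i : Dsc α) :
    WC {v : R → WithTop (Dsc α) | v ∈ Cub (insert j c) ∧ (v j = ⊤ ∨ v j = i)} := by
  have hr1 : ∀ v ∈ {v : R → WithTop (Dsc α) | v ∈ Cub (insert j c) ∧ (v j = ⊤ ∨ v j = i)},
      Function.update v j (i : WithTop (Dsc α)) ∈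
        {v : R → WithTop (Dsc α) | v ∈ Cub (insert j c) ∧ (v j = ⊤ ∨ v j = i)} := by
    rintro v ⟨⟨h1, _⟩, _⟩
    refine ⟨⟨fun z hz => ?_, j, ?_⟩, Or.inr ?_⟩
    · have : z ≠ j := by rintro rfl; exact hz (Finset.mem_insert_self _ _)
      rw [Function.update_of_ne this]
      exact h1 z hz
    · rw [Function.update_self]; exact WithTop.coe_ne_top
    · rw [Function.update_self]
  refine WC.of_down (finHt_cub (insert j c) _ fun v hv => hv.1)
    (fun v => Function.update v j (i : WithTop (Dsc α))) hr1 ?_ ?_ ?_
    (Function.update ⊤ j (i : WithTop (Dsc α))) ?_ ?_ ?_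
  · intro v _
    simp
  · intro v _ v' _ h z
    by_cases hz : z = j
    · subst hz; simp
    · simp only [Function.update_of_ne hz]; exact h z
  · intro v hv z
    by_cases hz : z = j
    · subst hz
      simp only [Function.update_self]
      rcases hv.2 with h | h
      · rw [h]; exact le_top
      · rw [h]
    · simp only [Function.update_of_ne hz]; exact le_rfl
  · refine ⟨⟨fun z hz => ?_, j, ?_⟩, Or.inr ?_⟩
    · have : z ≠ j := by rintro rfl; exact hz (Finset.mem_insert_self _ _)
      rw [Function.update_of_ne this]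
      rfl
    · rw [Function.update_self]; exact WithTop.coe_ne_top
    · rw [Function.update_self]
  · simp
  · intro v _ z
    by_cases hz : z = j
    · subst hz; simp
    · simp only [Function.update_of_ne hz]; exact le_top

theorem sph_cub {R : Type} {α : Type} (a0 a1 : α) (h01 : a0 ≠ a1) (hα : ∀ a : α, a = a0 ∨ a = a1)
    (c : Finset R) : Sph (Cub (α := α) c) c.card := by
  induction c using Finset.induction_on with
  | empty =>
    have : (Cub (α := α) (∅ : Finset R)) = ∅ := by
      rw [Set.eq_empty_iff_forall_notMem]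
      rintro v ⟨h1, z, hz⟩
      exact hz (h1 z (Finset.notMem_empty z))
    rw [this]
    exact Sph.empty
  | insert j c hj ih =>
    set A : Dsc α → Set (R → WithTop (Dsc α)) := fun i =>
      {v | v ∈ Cub (insert j c) ∧ (v j = ⊤ ∨ v j = i)} with hA
    have h1 : Cub (α := α) (insert j c) = A (a0 : α) ∪ A (a1 : α) := by
      ext v
      simp only [hA, Set.mem_union, Set.mem_setOf_eq]
      constructor
      · intro hv
        rcases h : v j with _ | x
        · exact Or.inl ⟨hv, Or.inl rfl⟩
        · rcases hα x with rfl | rfl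
          · exact Or.inl ⟨hv, Or.inr rfl⟩
          · exact Or.inr ⟨hv, Or.inr rfl⟩
      · rintro (h | h) <;> exact h.1
    have h2 : A (a0 : α) ∩ A (a1 : α) = Cub (α := α) c := by
      ext v
      simp only [hA, Set.mem_inter_iff, Set.mem_setOf_eq, Cub]
      constructor
      · rintro ⟨⟨⟨h2, h3⟩, h4⟩, _, h5⟩
        have h6 : v j = ⊤ := by
          rcases h4 with h4 | h4
          · exact h4
          · rcases h5 with h5 | h5
            · exact h5
            · rw [h4] at h5
              exact absurd (WithTop.coe_injective h5) h01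
        refine ⟨fun z hz => ?_, h3⟩
        by_cases hzj : z = j
        · rw [hzj, h6]
        · exact h2 z (by simp [hzj, hz])
      · rintro ⟨h2, h3⟩
        have h6 : v j = ⊤ := h2 j hj
        have h7 : ∀ z, z ∉ insert j c → v z = ⊤ := fun z hz =>
          h2 z fun h => hz (Finset.mem_insert_of_mem h)
        exact ⟨⟨⟨h7, h3⟩, Or.inl h6⟩, ⟨h7, h3⟩, Or.inl h6⟩
    have hup : ∀ i i' : Dsc α, ∀ x ∈ A i, ∀ y ∈ A i', x < y → y ∈ A i := by
      rintro i i' x ⟨_, hx⟩ y ⟨hy, _⟩ hxy
      refine ⟨hy, ?_⟩
      rcases cub_le_iff.1 (hxy.le j) with h | h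
      · exact Or.inl h
      · rw [← h]; exact hx
    rw [h1, Finset.card_insert_of_notMem hj]
    refine Sph.susp (Cov.up (hup _ _) (hup _ _)) (wc_cub c j _).1 (wc_cub c j _).1 ?_
    rw [h2]
    exact ih

end

end Pool.Agent.Helper59.PD
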