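import Pool.Agent.Helper59.PD.LibE

/-! All library lemmas. -/
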