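import Pool.Agent.Helper59.PD.Big

/-! Right-angled Coxeter groups: descents and cliques. -/

set_option autoImplicit false

namespace Pool.Agent.Helper59.PD

noncomputable section

variable {S : Type} {adj : S → S → Prop} {hs : ∀ s t, adj s t → adj t s}

namespace Racg

lemma racm_adj {s t : S} (h : s ≠ t) (ha : adj s t) : (racm adj hs) s t = 2 := by
  simp only [racm]
  simp [h, ha]

lemma racm_not {s t : S} (h : s ≠ t) (ha : ¬ adj s t) : (racm adj hs) s t = 0 := by
  simp only [racm]
  simp [h, ha]

lemma liftable {G : Type} [Group G] (f : S → G) (h1 : ∀ s, f s * f s = 1)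
    (h2 : ∀ s t, s ≠ t → adj s t → f s * f t = f t * f s) :
    CoxeterMatrix.IsLiftable (racm adj hs) f := by
  intro s t
  by_cases h : s = t
  · subst h
    rw [(racm adj hs).diagonal, pow_one, h1]
  · by_cases ha : adj s t
    · rw [racm_adj h ha, pow_two]
      calc f s * f t * (f s * f t) = f s * (f t * f s) * f t := by group
        _ = (f s * f s) * (f t * f t) := by rw [← h2 s t h ha]; group
        _ = 1 := by rw [h1, h1, one_mul]
    · rw [racm_not h ha, pow_zero]

variable (adj hs) in
/-- the Coxeter system -/
abbrev rcs : CoxeterSystem (racm adj hs) (racm adj hs).Group := (racm adj hs).toCoxeterSystem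

variable (adj hs) in
/-- the generators -/
abbrev sg (s : S) : (racm adj hs).Group := (rcs adj hs).simple s

lemma sg_mul_self (s : S) : sg adj hs s * sg adj hs s = 1 := (rcs adj hs).simple_mul_simple_self s

lemma sg_comm {s t : S} (h : s ≠ t) (ha : adj s t) :
    sg adj hs s * sg adj hs t = sg adj hs t * sg adj hs s := by
  have h1 := (rcs adj hs).simple_mul_simple_pow s t
  rw [racm_adj h ha, pow_two] at h1
  calc sg adj hs s * sg adj hs t =
      sg adj hs s * sg adj hs t * (sg adj hs s * sg adj hs t) *
        (sg adj hs t * sg adj hs s) := by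
        have e : sg adj hs s * sg adj hs t * (sg adj hs s * sg adj hs t) *
          (sg adj hs t * sg adj hs s) = sg adj hs s * sg adj hs t * (sg adj hs s *
            (sg adj hs t * sg adj hs t) * sg adj hs s) := by simp only [mul_assoc]
        rw [e, sg_mul_self, mul_one, sg_mul_self, mul_one]
    _ = _ := by rw [h1, one_mul]

lemma conj_iff (s : S) (x y : (racm adj hs).Group) :
    sg adj hs s * x * sg adj hs s = y ↔ x = sg adj hs s * y * sg adj hs s := by
  constructor
  · rintro rfl
    calc x = (sg adj hs s * sg adj hs s) * x * (sg adj hs s * sg adj hs s) := by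
          rw [sg_mul_self]; simp
      _ = _ := by group
  · rintro rfl
    calc _ = (sg adj hs s * sg adj hs s) * y * (sg adj hs s * sg adj hs s) := by group
      _ = y := by rw [sg_mul_self]; simp

open Classical in
/-- the indicator of a proposition -/
def ind (p : Prop) : ZMod 2 := if p then 1 else 0

lemma ind_congr {p q : Prop} (h : p ↔ q) : ind p = ind q := by rw [propext h]

lemma ind_add (p : Prop) : ind p + ind p = 0 := by
  unfold ind
  split_ifs
  · decide
  · decide

/-- the action of a generator on reflections with sign -/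
def rhoF (s : S) (p : (racm adj hs).Group × ZMod 2) : (racm adj hs).Group × ZMod 2 :=
  (sg adj hs s * p.1 * sg adj hs s, p.2 + ind (p.1 = sg adj hs s))

lemma rhoF_invol (s : S) : Function.Involutive (rhoF (adj := adj) (hs := hs) s) := by
  rintro ⟨x, ε⟩
  refine Prod.ext ?_ ?_
  · change sg adj hs s * (sg adj hs s * x * sg adj hs s) * sg adj hs s = x
    exact ((conj_iff s _ _).2 rfl)
  · change ε + ind (x = sg adj hs s) + ind (sg adj hs s * x * sg adj hs s = sg adj hs s) = ε
    have : (sg adj hs s * x * sg adj hs s = sg adj hs s) ↔ x = sg adj hs s := by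
      rw [conj_iff, sg_mul_self, one_mul]
    rw [ind_congr this, add_assoc, ind_add, add_zero]

/-- the action of a generator on reflections with sign -/
def rho (s : S) : Equiv.Perm ((racm adj hs).Group × ZMod 2) := (rhoF_invol s).toPerm

lemma rho_comm (s t : S) (h : s ≠ t) (ha : adj s t) :
    rho (adj := adj) (hs := hs) s * rho t = rho t * rho s := by
  ext1 ⟨x, ε⟩
  change rhoF s (rhoF t (x, ε)) = rhoF t (rhoF s (x, ε))
  have hc := sg_comm (hs := hs) h ha
  refine Prod.ext ?_ ?_
  · change sg adj hs s * (sg adj hs t * x * sg adj hs t) * sg adj hs s =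
      sg adj hs t * (sg adj hs s * x * sg adj hs s) * sg adj hs t
    calc _ = (sg adj hs s * sg adj hs t) * x * (sg adj hs t * sg adj hs s) := by group
      _ = (sg adj hs t * sg adj hs s) * x * (sg adj hs s * sg adj hs t) := by rw [hc]
      _ = _ := by group
  · change ε + ind (x = sg adj hs t) + ind (sg adj hs t * x * sg adj hs t = sg adj hs s) =
      ε + ind (x = sg adj hs s) + ind (sg adj hs s * x * sg adj hs s = sg adj hs t)
    have e1 : (sg adj hs t * x * sg adj hs t = sg adj hs s) ↔ x = sg adj hs s := by
      rw [conj_iff, ← hc, mul_assoc, sg_mul_self, mul_one]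
    have e2 : (sg adj hs s * x * sg adj hs s = sg adj hs t) ↔ x = sg adj hs t := by
      rw [conj_iff, hc, mul_assoc, sg_mul_self, mul_one]
    rw [ind_congr e1, ind_congr e2]
    ring

variable (adj hs) in
/-- the action on reflections with sign -/
def Rho : (racm adj hs).Group →* Equiv.Perm ((racm adj hs).Group × ZMod 2) :=
  (rcs adj hs).lift ⟨rho, liftable _ (fun s => by
    ext1 p
    exact rhoF_invol s p) rho_comm⟩

lemma Rho_simple (s : S) : Rho adj hs (sg adj hs s) = rho s :=
  (rcs adj hs).lift_apply_simple _ s

open Classical in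
lemma Rho_word (ω : List S) (x : (racm adj hs).Group) (ε : ZMod 2) :
    Rho adj hs ((rcs adj hs).wordProd ω) (x, ε) =
      ((rcs adj hs).wordProd ω * x * ((rcs adj hs).wordProd ω)⁻¹,
        ε + (((rcs adj hs).rightInvSeq ω).count x : ZMod 2)) := by
  induction ω with
  | nil => simp
  | cons s ω ih =>
    rw [CoxeterSystem.wordProd_cons, map_mul, Equiv.Perm.mul_apply, ih, Rho_simple]
    change rhoF s _ = _
    rw [rhoF]
    have h1 : ((rcs adj hs).simple s)⁻¹ = (rcs adj hs).simple s := (rcs adj hs).inv_simple s
    refine Prod.ext ?_ ?_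
    · change sg adj hs s * ((rcs adj hs).wordProd ω * x * ((rcs adj hs).wordProd ω)⁻¹) *
        sg adj hs s = _
      rw [mul_inv_rev, h1]
      group
    · change ε + _ + ind ((rcs adj hs).wordProd ω * x * ((rcs adj hs).wordProd ω)⁻¹ =
        sg adj hs s) = ε + _
      rw [CoxeterSystem.rightInvSeq, List.count_cons, add_assoc]
      push_cast
      congr 2
      have h2 : ((rcs adj hs).wordProd ω * x * ((rcs adj hs).wordProd ω)⁻¹ = sg adj hs s) ↔
          (((rcs adj hs).wordProd ω)⁻¹ * sg adj hs s * (rcs adj hs).wordProd ω = x) := by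
        constructor
        · intro h
          rw [← h]
          group
        · rintro rfl
          group
      rw [ind_congr h2]
      unfold ind
      by_cases h3 : ((rcs adj hs).wordProd ω)⁻¹ * sg adj hs s * (rcs adj hs).wordProd ω = x
      · rw [if_pos h3, if_pos]
        exact beq_iff_eq.2 h3
      · rw [if_neg h3, if_neg]
        exact fun h => h3 (beq_iff_eq.1 h)

/-- the exchange property -/
theorem exchange (ω : List S) (s : S)
    (h : (rcs adj hs).IsRightDescent ((rcs adj hs).wordProd ω) s) :
    ∃ j < ω.length, (rcs adj hs).wordProd ω * sg adj hs s =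
      (rcs adj hs).wordProd (ω.eraseIdx j) := by
  classical
  obtain ⟨ω', h1, h2⟩ := (rcs adj hs).exists_isReduced ((rcs adj hs).wordProd ω * sg adj hs s)
  have h3 : (rcs adj hs).wordProd ω = (rcs adj hs).wordProd (ω'.concat s) := by
    rw [CoxeterSystem.wordProd_concat, ← h2, mul_assoc]
    change _ = _ * (sg adj hs s * sg adj hs s)
    rw [sg_mul_self, mul_one]
  have h4 : (rcs adj hs).IsReduced (ω'.concat s) := by
    rw [CoxeterSystem.IsReduced, ← h3, List.length_concat]
    have h5 := (rcs adj hs).isRightDescent_iff.1 h
    rw [← h5]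
    congr 1
    change (rcs adj hs).length ((rcs adj hs).wordProd ω * sg adj hs s) = _
    rw [h2, h1.eq]
  have h5 : sg adj hs s ∈ (rcs adj hs).rightInvSeq (ω'.concat s) := by
    rw [CoxeterSystem.rightInvSeq_concat, List.concat_eq_append]
    exact List.mem_append_right _ (List.mem_singleton.2 rfl)
  have h6 : ((rcs adj hs).rightInvSeq (ω'.concat s)).count (sg adj hs s) = 1 :=
    List.count_eq_one_of_mem h4.nodup_rightInvSeq h5
  have h7 := Rho_word ω (sg adj hs s) 0
  rw [h3, Rho_word (ω'.concat s), h6] at h7
  have h8 := congrArg Prod.snd h7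
  simp only [zero_add] at h8
  have h9 : sg adj hs s ∈ (rcs adj hs).rightInvSeq ω := by
    rw [← List.count_pos_iff]
    rcases Nat.eq_zero_or_pos (((rcs adj hs).rightInvSeq ω).count (sg adj hs s)) with h0 | h0
    · rw [h0] at h8
      exact absurd h8 (by decide)
    · exact h0
  obtain ⟨j, hj, hj2⟩ := List.getElem_of_mem h9
  have hj' : j < ω.length := by rwa [CoxeterSystem.length_rightInvSeq] at hj
  refine ⟨j, hj', ?_⟩
  rw [← CoxeterSystem.wordProd_mul_getD_rightInvSeq, List.getD_eq_getElem _ _ hj, hj2]

/-! ### The infinite dihedral group -/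

/-- the reflection of `ℤ` in `-1/2` or `1/2` -/
def refl (ε : Bool) : Equiv.Perm ℤ where
  toFun k := (if ε then 1 else -1) - k
  invFun k := (if ε then 1 else -1) - k
  left_inv k := by ring
  right_inv k := by ring

lemma refl_apply (ε : Bool) (k : ℤ) : refl ε k = (if ε then 1 else -1) - k := rfl

lemma refl_mul_self (ε : Bool) : refl ε * refl ε = 1 := by
  ext k
  rw [Equiv.Perm.mul_apply, refl_apply, refl_apply, Equiv.Perm.one_apply]
  ring

open Classical in
/-- the images of the generators in the infinite dihedral group -/
def dihF (s t : S) (x : S) : Equiv.Perm ℤ :=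
  if x = s then refl false else if x = t then refl true else 1

variable (adj hs) in
/-- the retraction to the infinite dihedral group -/
def dih (s t : S) (hn : ¬ adj s t) : (racm adj hs).Group →* Equiv.Perm ℤ :=
  (rcs adj hs).lift ⟨dihF s t, liftable _ (fun x => by
    unfold dihF
    split_ifs
    · exact refl_mul_self _
    · exact refl_mul_self _
    · exact one_mul _) (fun x y hxy ha => by
    unfold dihF
    by_cases h1 : x = s
    · by_cases h2 : y = s
      · exact absurd (h1.trans h2.symm) hxy
      · by_cases h3 : y = t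
        · subst h1 h3
          exact absurd ha hn
        · simp [h2, h3]
    · by_cases h1' : x = t
      · by_cases h2 : y = s
        · subst h1' h2
          exact absurd (hs _ _ ha) hn
        · by_cases h3 : y = t
          · exact absurd (h1'.trans h3.symm) hxy
          · simp [h2, h3]
      · simp [h1, h1'])⟩

lemma dih_simple (s t : S) (hn : ¬ adj s t) (x : S) :
    dih adj hs s t hn (sg adj hs x) = dihF s t x :=
  (rcs adj hs).lift_apply_simple _ x

lemma dihF_isom (s t x : S) (a b : ℤ) : |dihF s t x a - dihF s t x b| = |a - b| := by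
  unfold dihF
  split_ifs
  · rw [refl_apply, refl_apply, abs_sub_comm a b]
    congr 1; ring
  · rw [refl_apply, refl_apply, abs_sub_comm a b]
    congr 1; ring
  · rfl

lemma dihF_zero (s t x : S) : |dihF s t x 0| ≤ 1 := by
  unfold dihF
  split_ifs
  · rw [refl_apply]; simp
  · rw [refl_apply]; simp
  · simp

lemma dih_length (s t : S) (hn : ¬ adj s t) (l : List S) :
    |dih adj hs s t hn ((rcs adj hs).wordProd l) 0| ≤ l.length := by
  induction l with
  | nil => simp
  | cons x l ih =>
    rw [CoxeterSystem.wordProd_cons, map_mul, Equiv.Perm.mul_apply]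
    change |dih adj hs s t hn (sg adj hs x) _| ≤ _
    rw [dih_simple, List.length_cons]
    push_cast
    have h1 := dihF_isom s t x (dih adj hs s t hn ((rcs adj hs).wordProd l) 0) 0
    have h2 := dihF_zero s t x
    rw [sub_zero] at h1
    have h3 := abs_sub_abs_le_abs_sub
      (dihF s t x (dih adj hs s t hn ((rcs adj hs).wordProd l) 0)) (dihF s t x 0)
    linarith

lemma dihF_s (s t : S) : dihF s t s = refl false := by simp [dihF]

lemma dihF_t (s t : S) (h : t ≠ s) : dihF s t t = refl true := by simp [dihF, h]

open CoxeterSystem in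
lemma dih_alt (s t : S) (hst : s ≠ t) (hn : ¬ adj s t) (m : ℕ) :
    dih adj hs s t hn ((rcs adj hs).wordProd (alternatingWord s t m)) 0 =
      (if Even m then -1 else 1) * (m : ℤ) ∧
    dih adj hs s t hn ((rcs adj hs).wordProd (alternatingWord t s m)) 0 =
      (if Even m then 1 else -1) * (m : ℤ) := by
  induction m with
  | zero => simp [alternatingWord]
  | succ m ih =>
    obtain ⟨ih1, ih2⟩ := ih
    rw [alternatingWord_succ', alternatingWord_succ', wordProd_cons, wordProd_cons, map_mul,
      map_mul, Equiv.Perm.mul_apply, Equiv.Perm.mul_apply, ih1, ih2]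
    change dih adj hs s t hn (sg adj hs _) _ = _ ∧ dih adj hs s t hn (sg adj hs _) _ = _
    rw [dih_simple, dih_simple]
    by_cases hm : Even m
    · have hm' : ¬ Even (m + 1) := by simpa [Nat.even_add_one] using hm
      rw [if_pos hm, if_pos hm, if_pos hm, if_pos hm, if_neg hm', if_neg hm', dihF_s,
        dihF_t s t hst.symm, refl_apply, refl_apply]
      push_cast
      constructor <;> simp <;> ring
    · have hm' : Even (m + 1) := by simpa [Nat.even_add_one] using hm
      rw [if_neg hm, if_neg hm, if_neg hm, if_neg hm, if_pos hm', if_pos hm', dihF_s,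
        dihF_t s t hst.symm, refl_apply, refl_apply]
      push_cast
      constructor <;> simp <;> ring

open CoxeterSystem in
lemma dih_alt_abs (s t : S) (hst : s ≠ t) (hn : ¬ adj s t) (m : ℕ) :
    |dih adj hs s t hn ((rcs adj hs).wordProd (alternatingWord s t m)) 0| = m ∧
    |dih adj hs s t hn ((rcs adj hs).wordProd (alternatingWord t s m)) 0| = m := by
  obtain ⟨h1, h2⟩ := dih_alt (hs := hs) s t hst hn m
  rw [h1, h2]
  split_ifs <;> simp

open CoxeterSystem in
lemma alt_step (w : (racm adj hs).Group) (s t : S) (hst : s ≠ t) (hn : ¬ adj s t)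
    (h1 : (rcs adj hs).IsRightDescent w s) (h2 : (rcs adj hs).IsRightDescent w t) (m : ℕ) :
    (∃ ω : List S, ω.length + m = (rcs adj hs).length w ∧
      w = (rcs adj hs).wordProd (ω ++ alternatingWord s t m)) ∧
    (∃ ω : List S, ω.length + m = (rcs adj hs).length w ∧
      w = (rcs adj hs).wordProd (ω ++ alternatingWord t s m)) := by
  -- one step: from words ending in an alternating word ending in `b`, append `a`
  have key : ∀ a b : S, (a = s ∧ b = t) ∨ (a = t ∧ b = s) →
      (rcs adj hs).IsRightDescent w a → ∀ m, (∃ ω : List S,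
        ω.length + m = (rcs adj hs).length w ∧
        w = (rcs adj hs).wordProd (ω ++ alternatingWord a b m)) →
      ∃ ω : List S, ω.length + (m + 1) = (rcs adj hs).length w ∧
        w = (rcs adj hs).wordProd (ω ++ alternatingWord b a (m + 1)) := by
    intro a b hab ha m ⟨ω, hω, hw⟩
    have ha' := ha
    rw [hw] at ha'
    obtain ⟨j, hj, he⟩ := exchange _ _ ha'
    rw [← hw] at he
    have hw2 : w = (rcs adj hs).wordProd ((ω ++ alternatingWord a b m).eraseIdx j) *
        sg adj hs a := by
      rw [← he, mul_assoc, sg_mul_self, mul_one]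
    by_cases hjω : j < ω.length
    · rw [List.eraseIdx_append_of_lt_length hjω] at hw2
      refine ⟨ω.eraseIdx j, ?_, ?_⟩
      · rw [List.length_eraseIdx_of_lt hjω]
        omega
      · rw [alternatingWord_succ, List.concat_eq_append, ← List.append_assoc,
          ← List.concat_eq_append, wordProd_concat, ← hw2]
    · exfalso
      push Not at hjω
      rw [List.eraseIdx_append_of_length_le hjω, wordProd_append, hw, wordProd_append,
        mul_assoc] at he
      have he2 := mul_left_cancel he
      have he3 : (rcs adj hs).wordProd (alternatingWord b a (m + 1)) =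
          (rcs adj hs).wordProd ((alternatingWord a b m).eraseIdx (j - ω.length)) := by
        rw [alternatingWord_succ, wordProd_concat, ← he2]
      have h3 := dih_length (hs := hs) s t hn ((alternatingWord a b m).eraseIdx (j - ω.length))
      rw [← he3] at h3
      have h4 : ((alternatingWord a b m).eraseIdx (j - ω.length)).length ≤ m := by
        refine (List.length_eraseIdx_le _ _).trans ?_
        rw [length_alternatingWord]
      have h5 : |dih adj hs s t hn ((rcs adj hs).wordProd (alternatingWord b a (m + 1))) 0| =
          ((m + 1 : ℕ) : ℤ) := by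
        rcases hab with ⟨rfl, rfl⟩ | ⟨rfl, rfl⟩
        · exact (dih_alt_abs a b hst hn (m + 1)).2
        · exact (dih_alt_abs b a hst hn (m + 1)).1
      rw [h5] at h3
      omega
  induction m with
  | zero =>
    obtain ⟨ω, hω, hw⟩ := (rcs adj hs).exists_isReduced w
    have h3 : ω.length = (rcs adj hs).length w := by rw [hw, hω.eq]
    refine ⟨⟨ω, by simpa using h3, ?_⟩, ⟨ω, by simpa using h3, ?_⟩⟩ <;>
      simpa [alternatingWord] using hw
  | succ m ih =>
    exact ⟨key t s (Or.inr ⟨rfl, rfl⟩) h2 m ih.2, key s t (Or.inl ⟨rfl, rfl⟩) h1 m ih.1⟩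

/-! ### Cliques -/

variable {T : Set S}

lemma comm_of_clique (hT : ∀ s ∈ T, ∀ t ∈ T, s ≠ t → adj s t) {s t : S} (h1 : s ∈ T)
    (h2 : t ∈ T) : Commute (sg adj hs s) (sg adj hs t) := by
  by_cases h : s = t
  · rw [h]
  · exact sg_comm h (hT s h1 t h2 h)

lemma comm_word (hT : ∀ s ∈ T, ∀ t ∈ T, s ≠ t → adj s t) {s : S} (h1 : s ∈ T)
    (l : List S) (hl : ∀ x ∈ l, x ∈ T) : Commute (sg adj hs s) ((rcs adj hs).wordProd l) := by
  induction l with
  | nil => simp
  | cons x l ih =>
    rw [CoxeterSystem.wordProd_cons]
    exact (comm_of_clique hT h1 (hl x (by simp))).mul_right (ih fun y hy => hl y (by simp [hy]))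

lemma clique_mul (hT : ∀ s ∈ T, ∀ t ∈ T, s ≠ t → adj s t) (l : List S) (hl : ∀ x ∈ l, x ∈ T)
    (hn : l.Nodup) (s : S) (h1 : s ∈ T) : ∃ l' : List S, l'.Nodup ∧ (∀ x ∈ l', x ∈ T) ∧
      (rcs adj hs).wordProd l * sg adj hs s = (rcs adj hs).wordProd l' := by
  by_cases h : s ∈ l
  · obtain ⟨l1, l2, rfl⟩ := List.append_of_mem h
    refine ⟨l1 ++ l2, ?_, fun x hx => hl x ?_, ?_⟩
    · exact hn.sublist (List.Sublist.append_left (List.sublist_cons_self s l2) l1)
    · rcases List.mem_append.1 hx with h | h
      · exact List.mem_append_left _ h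
      · exact List.mem_append_right _ (List.mem_cons_of_mem _ h)
    · rw [CoxeterSystem.wordProd_append, CoxeterSystem.wordProd_append,
        CoxeterSystem.wordProd_cons]
      have h3 := comm_word (hs := hs) hT h1 l2 fun x hx =>
        hl x (List.mem_append_right _ (List.mem_cons_of_mem _ hx))
      change _ * (sg adj hs s * _) * sg adj hs s = _
      rw [mul_assoc, mul_assoc, ← h3.eq, ← mul_assoc (sg adj hs s), sg_mul_self, one_mul]
  · refine ⟨l.concat s, ?_, fun x hx => ?_, ?_⟩
    · rw [List.concat_eq_append, List.nodup_append]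
      refine ⟨hn, List.nodup_singleton _, ?_⟩
      intro a ha b hb
      rw [List.mem_singleton] at hb
      rintro rfl
      exact h (hb ▸ ha)
    · rw [List.concat_eq_append, List.mem_append, List.mem_singleton] at hx
      rcases hx with hx | rfl
      · exact hl x hx
      · exact h1
    · rw [CoxeterSystem.wordProd_concat]

end Racg

open Racg

/-- two descents commute -/
theorem racg_descent_adj (hirr : ∀ s, ¬ adj s s) (w : (racm adj hs).Group) (s t : S) (hst : s ≠ t)
    (h1 : (racm adj hs).toCoxeterSystem.IsRightDescent w s)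
    (h2 : (racm adj hs).toCoxeterSystem.IsRightDescent w t) : adj s t := by
  by_contra hn
  obtain ⟨⟨ω, hω, -⟩, -⟩ := alt_step w s t hst hn h1 h2 ((rcs adj hs).length w + 1)
  omega

/-- elements of the group generated by a clique -/
theorem racg_clique_elt (T : Set S) (hT : ∀ s ∈ T, ∀ t ∈ T, s ≠ t → adj s t)
    (v : (racm adj hs).Group)
    (hv : v ∈ Subgroup.closure ((racm adj hs).toCoxeterSystem.simple '' T)) :
    ∃ l : List S, l.Nodup ∧ (∀ s ∈ l, s ∈ T) ∧ v = (racm adj hs).toCoxeterSystem.wordProd l := by
  induction hv using Subgroup.closure_induction_right with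
  | one => exact ⟨[], List.nodup_nil, by simp, by simp⟩
  | mul_right x _ y hy ih =>
    obtain ⟨l, hn, hl, rfl⟩ := ih
    obtain ⟨s, hsT, rfl⟩ := hy
    obtain ⟨l', h1, h2, h3⟩ := clique_mul hT l hl hn s hsT
    exact ⟨l', h1, h2, h3⟩
  | mul_inv_cancel x _ y hy ih =>
    obtain ⟨l, hn, hl, rfl⟩ := ih
    obtain ⟨s, hsT, rfl⟩ := hy
    obtain ⟨l', h1, h2, h3⟩ := clique_mul hT l hl hn s hsT
    refine ⟨l', h1, h2, ?_⟩
    rw [← h3]
    congr 1
    exact (rcs adj hs).inv_simple s

/-- products of generators in a clique commute -/
theorem racg_clique_comm (T : Set S) (hT : ∀ s ∈ T, ∀ t ∈ T, s ≠ t → adj s t)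
    (u v : (racm adj hs).Group)
    (hu : u ∈ Subgroup.closure ((racm adj hs).toCoxeterSystem.simple '' T))
    (hv : v ∈ Subgroup.closure ((racm adj hs).toCoxeterSystem.simple '' T)) :
    u * v = v * u := by
  obtain ⟨l, -, hl, rfl⟩ := racg_clique_elt T hT u hu
  obtain ⟨l', -, hl', rfl⟩ := racg_clique_elt T hT v hv
  have h : ∀ l : List S, (∀ x ∈ l, x ∈ T) →
      Commute ((rcs adj hs).wordProd l) ((rcs adj hs).wordProd l') := by
    intro l hl
    induction l with
    | nil => simp
    | cons x l ih =>
      rw [CoxeterSystem.wordProd_cons]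
      exact (comm_word hT (hl x (by simp)) l' hl').mul_left (ih fun y hy => hl y (by simp [hy]))
  exact h l hl

open Classical in
/-- the homomorphism to `ℤ/2` counting the occurrences of `s` -/
def racgCount (adj : S → S → Prop) (hs : ∀ s t, adj s t → adj t s) (s : S) :
    (racm adj hs).Group →* Multiplicative (ZMod 2) :=
  (racm adj hs).toCoxeterSystem.lift ⟨fun t => if t = s then Multiplicative.ofAdd 1 else 1, by
    intro a b
    by_cases h : a = b
    · subst h
      dsimp only
      split_ifs with h1
      · simp only [CoxeterMatrix.diagonal, pow_one]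
        decide
      · simp
    · by_cases h2 : adj a b
      · have e : (racm adj hs) a b = 2 := by
          simp only [racm]
          simp [h, h2]
        rw [e]
        dsimp only
        split_ifs <;> decide
      · have e : (racm adj hs) a b = 0 := by
          simp only [racm]
          simp [h, h2]
        rw [e, pow_zero]⟩

open Classical in
@[simp] theorem racgCount_simple (s t : S) :
    racgCount adj hs s ((racm adj hs).toCoxeterSystem.simple t) =
      if t = s then Multiplicative.ofAdd 1 else 1 :=
  (racm adj hs).toCoxeterSystem.lift_apply_simple _ t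

lemma racgCount_word (s : S) (l : List S) (h : s ∉ l) :
    racgCount adj hs s ((rcs adj hs).wordProd l) = 1 := by
  induction l with
  | nil => simp
  | cons x l ih =>
    rw [CoxeterSystem.wordProd_cons, map_mul, racgCount_simple, if_neg, ih, one_mul]
    · exact fun h2 => h (List.mem_cons_of_mem _ h2)
    · rintro rfl
      exact h (by simp)

/-- if no element of the clique `T` is a descent of `w`, then `w` is the unique element of minimal
length in `w W_T` -/
theorem racg_min_coset (hirr : ∀ s, ¬ adj s s) (w : (racm adj hs).Group) (T : Set S)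
    (hT : ∀ s ∈ T, ∀ t ∈ T, s ≠ t → adj s t)
    (hw : ∀ s ∈ T, ¬ (racm adj hs).toCoxeterSystem.IsRightDescent w s)
    (v : (racm adj hs).Group)
    (hv : v ∈ Subgroup.closure ((racm adj hs).toCoxeterSystem.simple '' T))
    (hl : (racm adj hs).toCoxeterSystem.length (w * v) ≤ (racm adj hs).toCoxeterSystem.length w) :
    v = 1 := by
  obtain ⟨l, hn, hlT, rfl⟩ := racg_clique_elt T hT v hv
  have key : ∀ l : List S, l.Nodup → (∀ s ∈ l, s ∈ T) →
      (rcs adj hs).length (w * (rcs adj hs).wordProd l) = (rcs adj hs).length w + l.length := by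
    intro l
    induction l using List.reverseRecOn with
    | nil => intro _ _; simp
    | append_singleton l s ih =>
      intro hn hlT
      have hn' : l.Nodup := (List.nodup_append.1 hn).1
      have hsl : s ∉ l := fun h => (List.nodup_append.1 hn).2.2 s h s (by simp) rfl
      have hlT' : ∀ x ∈ l, x ∈ T := fun x hx => hlT x (List.mem_append_left _ hx)
      have hsT : s ∈ T := hlT s (by simp)
      have ih' := ih hn' hlT'
      rw [← List.concat_eq_append, CoxeterSystem.wordProd_concat, List.length_concat,
        ← mul_assoc]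
      have hnd : ¬ (rcs adj hs).IsRightDescent (w * (rcs adj hs).wordProd l) s := by
        intro hd
        obtain ⟨ω, hω, hwω⟩ := (rcs adj hs).exists_isReduced w
        have hd' := hd
        rw [hwω, ← CoxeterSystem.wordProd_append] at hd'
        obtain ⟨j, hj, he⟩ := exchange _ _ hd'
        by_cases hjω : j < ω.length
        · rw [List.eraseIdx_append_of_lt_length hjω, CoxeterSystem.wordProd_append,
            CoxeterSystem.wordProd_append, ← hwω, mul_assoc,
            ← (comm_word hT hsT l hlT').eq, ← mul_assoc] at he
          have he2 := mul_right_cancel he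
          refine hw s hsT ?_
          change (rcs adj hs).length (w * sg adj hs s) < _
          rw [he2]
          refine ((rcs adj hs).length_wordProd_le _).trans_lt ?_
          rw [List.length_eraseIdx_of_lt hjω]
          have h3 : ω.length = (rcs adj hs).length w := by rw [hwω, hω.eq]
          change _ < (rcs adj hs).length w
          omega
        · push Not at hjω
          rw [List.eraseIdx_append_of_length_le hjω, CoxeterSystem.wordProd_append,
            CoxeterSystem.wordProd_append, mul_assoc] at he
          have he2 := mul_left_cancel he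
          have h3 := congrArg (racgCount adj hs s) he2
          rw [map_mul, racgCount_word s l hsl, racgCount_simple, if_pos rfl,
            racgCount_word s _ fun h => hsl (List.mem_of_mem_eraseIdx h)] at h3
          exact absurd h3 (by decide)
      rw [(rcs adj hs).not_isRightDescent_iff.1 hnd, ih']
      omega
  have h1 := key l hn hlT
  have h2 : l.length = 0 := by
    have h3 : (rcs adj hs).length (w * (rcs adj hs).wordProd l) ≤ (rcs adj hs).length w := hl
    omega
  rw [List.length_eq_zero_iff.1 h2, CoxeterSystem.wordProd_nil]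

end

end Pool.Agent.Helper59.PD
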