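import Pool.Agent.Helper59.PD.Big1
import Pool.Agent.Helper59.PD.Lib
import Pool.Agent.Helper59.PD.Racg
import Pool.Agent.Helper59.PD.BigDown_Cube

/-! Lower links in the big complex. -/

set_option autoImplicit false

open scoped Classical

namespace Pool.Agent.Helper59.PD

noncomputable section

variable {R : Type} [PartialOrder R] {Sp : Set R}

/-- signs as values of faces of the cube -/
def cz (x : Multiplicative (ZMod 2)) : WithTop (Dsc (Multiplicative (ZMod 2))) :=
  WithTop.some (show Dsc (Multiplicative (ZMod 2)) from x)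

theorem z2_cases : ∀ x : Multiplicative (ZMod 2), x = 1 ∨ x = Multiplicative.ofAdd 1 := by
  decide

theorem cz_ne_top (x : Multiplicative (ZMod 2)) : cz x ≠ ⊤ := WithTop.coe_ne_top

theorem cz_inj {x y : Multiplicative (ZMod 2)} (h : cz x = cz y) : x = y :=
  WithTop.coe_injective h

/-- the homomorphism counting a generator of the reflection group -/
def chw (s : Gen Sp) : WG Sp →* Multiplicative (ZMod 2) :=
  racgCount (Adj Sp) (fun _ _ h => h.symm' Sp) s

theorem chw_rf (s t : Gen Sp) :
    chw s (rf Sp t) = if t = s then Multiplicative.ofAdd 1 else 1 :=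
  racgCount_simple s t

theorem chw_word (l : List (Gen Sp)) (hl : l.Nodup) (s : Gen Sp) :
    chw s ((cM Sp).toCoxeterSystem.wordProd l) = if s ∈ l then Multiplicative.ofAdd 1 else 1 := by
  induction l with
  | nil => simp
  | cons a l ih =>
    rw [List.nodup_cons] at hl
    rw [CoxeterSystem.wordProd_cons, map_mul, ih hl.2]
    have h1 : chw s ((cM Sp).toCoxeterSystem.simple a) =
        if a = s then Multiplicative.ofAdd 1 else 1 := chw_rf s a
    rw [h1]
    by_cases ha : a = s
    · subst ha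
      simp [hl.1]
    · have ha' : ¬ s = a := fun h => ha h.symm
      simp [ha, ha']

theorem word_mem (l : List (Gen Sp)) (T : Set (Gen Sp)) (h : ∀ s ∈ l, s ∈ T) :
    (cM Sp).toCoxeterSystem.wordProd l ∈ Subgroup.closure (rf Sp '' T) := by
  induction l with
  | nil => simp [one_mem]
  | cons a l ih =>
    rw [CoxeterSystem.wordProd_cons]
    refine mul_mem (Subgroup.subset_closure ⟨a, h a (by simp), rfl⟩) (ih fun s hs => h s ?_)
    exact List.mem_cons_of_mem _ hs

theorem ofAdd_one_ne : (Multiplicative.ofAdd 1 : Multiplicative (ZMod 2)) ≠ 1 := by decide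

theorem sp_unique (hSp : ∀ k ∈ Sp, ∀ x : R, ¬ x < k) (y : Cell Sp) {k k' : R} (hk : k ∈ Sp)
    (hk' : k' ∈ Sp) (hky : k ∈ y.1) (hky' : k' ∈ y.1) : k = k' := by
  by_contra h
  rcases y.2.2.1 hky hky' h with h1 | h1
  · exact hSp k' hk' k (lt_of_le_of_ne h1 h)
  · exact hSp k hk k' (lt_of_le_of_ne h1 (Ne.symm h))

theorem mir_clique (hSp : ∀ k ∈ Sp, ∀ x : R, ¬ x < k) (y : Cell Sp) :
    ∀ s ∈ mir Sp y, ∀ t ∈ mir Sp y, s ≠ t → Adj Sp s t := by
  intro s hs t ht hst
  have h1 : s.1.1 = t.1.1 := sp_unique hSp y s.2.1 t.2.1 hs.1 ht.1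
  have h2 : s.1.2 ≠ t.1.2 := fun h => hst (Subtype.ext (Prod.ext h1 h))
  refine ⟨h1, ?_⟩
  rcases y.2.2.1 hs.2 ht.2 h2 with h | h
  · exact Or.inl (lt_of_le_of_ne h h2)
  · exact Or.inr (lt_of_le_of_ne h (Ne.symm h2))

theorem mem_closure_of_chw (hSp : ∀ k ∈ Sp, ∀ x : R, ¬ x < k) (y : Cell Sp) (g : WG Sp)
    (hg : g ∈ WP Sp y) (T : Set (Gen Sp)) (hT : ∀ s ∈ mir Sp y, chw s g ≠ 1 → s ∈ T) :
    g ∈ Subgroup.closure (rf Sp '' T) := by
  obtain ⟨l, hl, hl2, rfl⟩ := racg_clique_elt (adj := Adj Sp) (hs := fun _ _ h => h.symm' Sp)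
    (mir Sp y) (mir_clique hSp y) g hg
  apply word_mem
  intro s hs
  apply hT s (hl2 s hs)
  have := chw_word l hl s
  rw [if_pos hs] at this
  intro h
  exact ofAdd_one_ne (this.symm.trans h)

theorem chw_of_mem (y : Cell Sp) (g : WG Sp) (hg : g ∈ WP Sp y) (s : Gen Sp)
    (hs : s ∉ mir Sp y) : chw s g = 1 := by
  have : WP Sp y ≤ (chw s).ker := by
    unfold WP
    rw [Subgroup.closure_le]
    rintro _ ⟨t, ht, rfl⟩
    rw [SetLike.mem_coe, MonoidHom.mem_ker, chw_rf, if_neg]
    rintro rfl
    exact hs ht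
  exact this hg

theorem WP_bot {y : Cell Sp} (h : ∀ k ∈ Sp, k ∉ y.1) : WP Sp y = ⊥ := by
  have : mir Sp y = ∅ := by
    rw [Set.eq_empty_iff_forall_notMem]
    intro s hs
    exact h _ s.2.1 hs.1
  unfold WP
  rw [this]
  simp

/-- the part of a chamber over a set of cells -/
theorem HEq'.chm (w : WG Sp) (Y : Set (Cell Sp)) :
    HEq' (Big.mk' w '' Y) ((fun y : Cell Sp => y.1) '' Y) := by
  apply HEq'.of_iso fun b : Big Sp => b.cell.1
  · refine ⟨?_, ?_, ?_⟩
    · rintro _ ⟨y, hy, rfl⟩
      exact ⟨y, hy, rfl⟩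
    · rintro _ ⟨y, _, rfl⟩ _ ⟨y', _, rfl⟩ h
      have : y = y' := Subtype.ext h
      rw [this]
    · rintro _ ⟨y, hy, rfl⟩
      exact ⟨_, ⟨y, hy, rfl⟩, rfl⟩
  · rintro _ ⟨y, _, rfl⟩ _ ⟨y', _, rfl⟩
    rw [Big.mk'_lt]
    rfl

theorem Big.cell_lt {a b : Big Sp} (h : a < b) : a.cell < b.cell := by
  refine lt_of_le_of_ne h.le.1 fun h1 => h.ne ?_
  obtain ⟨h2, w, ha, hb⟩ := h.le
  rw [ha, hb, h1]

theorem finHtOn_Iio (a : Big Sp) (S : Set (Big Sp)) (hS : S ⊆ Set.Iio a) : FinHtOn S := by
  refine ⟨a.cell.1.card, fun b => b.cell.1.card, ?_, ?_⟩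
  · intro x _ y _ h
    exact Finset.card_lt_card (Big.cell_lt h)
  · intro x hx
    exact Finset.card_le_card (Set.mem_Iio.1 (hS hx)).le.1

/-- cells below a cell -/
theorem exists_cell_lt (hSp : ∀ k ∈ Sp, ∀ x : R, ¬ x < k) (y : Cell Sp) (t : Finset R) :
    (∃ y' : Cell Sp, y' < y ∧ y'.1 = t) ↔ t.Nonempty ∧ t ⊂ y.1 ∧ ∀ k ∈ Sp, t ≠ {k} := by
  constructor
  · rintro ⟨y', h, rfl⟩
    exact ⟨y'.2.1, h, y'.2.2.2⟩
  · rintro ⟨h1, h2, h3⟩
    exact ⟨⟨t, h1, y.2.2.1.mono (by exact_mod_cast h2.1), h3⟩, h2, rfl⟩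

theorem image_lt (y : Cell Sp) (hSp : ∀ k ∈ Sp, ∀ x : R, ¬ x < k) :
    ((fun y : Cell Sp => y.1) '' Set.Iio y) =
      {t | t.Nonempty ∧ t ⊂ y.1 ∧ ∀ k ∈ Sp, t ≠ {k}} := by
  ext t
  exact exists_cell_lt hSp y t

theorem wc_chm (hSp : ∀ k ∈ Sp, ∀ x : R, ¬ x < k) (w : WG Sp) (y : Cell Sp) (k : R) (hk : k ∈ Sp)
    (hky : k ∈ y.1) : WC (Big.mk' w '' Set.Iio y) := by
  rw [(HEq'.chm w (Set.Iio y)).wc, image_lt y hSp]
  have hfin : FinHtOn {t : Finset R | t.Nonempty ∧ t ⊂ y.1 ∧ ∀ k ∈ Sp, t ≠ {k}} :=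
    ⟨y.1.card, Finset.card, fun _ _ _ _ h => Finset.card_lt_card h, fun t ht =>
      Finset.card_le_card ht.2.1.1⟩
  have hne : ∀ t : Finset R, t.Nonempty → (∀ k ∈ Sp, t ≠ {k}) → (t.erase k).Nonempty := by
    intro t h1 h2
    rw [Finset.nonempty_iff_ne_empty]
    intro h3
    rw [Finset.erase_eq_empty_iff] at h3
    rcases h3 with h3 | h3
    · rw [h3] at h1; exact Finset.not_nonempty_empty h1
    · exact h2 k hk h3
  have hns : ∀ t : Finset R, t ⊆ y.1 → ∀ k' ∈ Sp, t.erase k ≠ {k'} := by
    intro t h1 k' hk' h2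
    have h3 : k' ∈ t.erase k := by rw [h2]; exact Finset.mem_singleton_self _
    rw [Finset.mem_erase] at h3
    exact h3.1 (sp_unique hSp y hk' hk (h1 h3.2) hky)
  refine WC.of_down hfin (fun t => t.erase k) ?_ ?_ ?_ ?_ (y.1.erase k) ?_ ?_ ?_
  · rintro t ⟨h1, h2, h3⟩
    exact ⟨hne t h1 h3, lt_of_le_of_lt (Finset.erase_subset _ _) h2, hns t h2.1⟩
  · intro t _
    simp
  · intro t _ t' _ h
    exact Finset.erase_subset_erase _ h
  · intro t _
    exact Finset.erase_subset _ _
  · exact ⟨hne y.1 y.2.1 y.2.2.2, Finset.erase_ssubset hky, hns y.1 (Finset.Subset.refl _)⟩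
  · simp
  · intro t ht
    exact Finset.erase_subset_erase _ ht.2.1.1

/-- elements with prescribed signs -/
theorem exists_signs (y : Cell Sp) (F : Finset (Gen Sp)) (hF : ∀ s ∈ F, s ∈ mir Sp y) :
    ∃ u ∈ WP Sp y, ∀ s, chw s u = if s ∈ F then Multiplicative.ofAdd 1 else 1 := by
  induction F using Finset.induction_on with
  | empty => exact ⟨1, one_mem _, fun s => by simp⟩
  | insert a F ha ih =>
    obtain ⟨u, hu, h⟩ := ih fun s hs => hF s (Finset.mem_insert_of_mem hs)
    refine ⟨rf Sp a * u, mul_mem (Subgroup.subset_closure ⟨a, hF a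
      (Finset.mem_insert_self _ _), rfl⟩) hu, fun s => ?_⟩
    rw [map_mul, chw_rf, h s]
    by_cases hs : a = s
    · subst hs
      simp [ha]
    · have hs' : ¬ s = a := fun h => hs h.symm
      simp [hs, hs']

section special

variable (k : R) (hk : k ∈ Sp) (w : WG Sp) (y : Cell Sp)

/-- the sign vector of an element below `mk' w y` -/
def sgn (b : Big Sp) : R → WithTop (Dsc (Multiplicative (ZMod 2))) := fun z =>
  if h : k < z ∧ z ∈ y.1 ∧ ¬ (k ∈ b.cell.1 ∧ z ∈ b.cell.1) then
    cz (chw (⟨(k, z), hk, h.1⟩ : Gen Sp) (w⁻¹ * b.cos.out))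
  else ⊤

theorem sgn_mk (u : WG Sp) (y' : Cell Sp) (z : R) (h1 : k < z) (h2 : z ∈ y.1)
    (h3 : ¬ (k ∈ y'.1 ∧ z ∈ y'.1)) :
    sgn k hk w y (Big.mk' u y') z =
      cz (chw (⟨(k, z), hk, h1⟩ : Gen Sp) (w⁻¹ * u)) := by
  unfold sgn
  rw [dif_pos ⟨h1, h2, h3⟩]
  congr 1
  obtain ⟨h, hh⟩ := QuotientGroup.mk_out_eq_mul (WP Sp y') u
  have e : (Big.mk' u y').cos.out = u * h := hh
  rw [e, ← mul_assoc, map_mul]
  have : chw (⟨(k, z), hk, h1⟩ : Gen Sp) (h : WG Sp) = 1 := by
    apply chw_of_mem y' _ h.2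
    exact h3
  rw [this, mul_one]

theorem sgn_top (b : Big Sp) (z : R) (h : ¬ (k < z ∧ z ∈ y.1 ∧ ¬ (k ∈ b.cell.1 ∧ z ∈ b.cell.1))) :
    sgn k hk w y b z = ⊤ := by
  unfold sgn
  rw [dif_neg h]

end special

theorem big_down (hSp : ∀ k ∈ Sp, ∀ x : R, ¬ x < k) (a : Big Sp) :
    Sph (Set.Iio a) (a.cell.1.card - 1) := by
  obtain ⟨w, hw⟩ := a.exists_mk
  set y := a.cell with hy
  clear_value y
  subst hw
  clear hy
  by_cases hs : ∃ k ∈ Sp, k ∈ y.1
  swap
  · -- no special element
    push Not at hs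
    have h1 : Set.Iio (Big.mk' w y) = Big.mk' w '' Set.Iio y := by
      ext b
      constructor
      · intro hb
        obtain ⟨u, hu⟩ := b.exists_mk
        have h2 := (Set.mem_Iio.1 hb).le
        rw [hu, Big.mk'_le, WP_bot hs, Subgroup.mem_bot, inv_mul_eq_one] at h2
        rw [hu, h2.2] at hb
        refine ⟨b.cell, (Big.mk'_lt w).1 hb, ?_⟩
        rw [← h2.2, ← hu]
      · rintro ⟨y', hy', rfl⟩
        exact (Big.mk'_lt w).2 hy'
    rw [h1, (HEq'.chm w (Set.Iio y)).sph, image_lt y hSp]
    have h2 : {t : Finset R | t.Nonempty ∧ t ⊂ y.1 ∧ ∀ k ∈ Sp, t ≠ {k}} =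
        {t | t.Nonempty ∧ t ⊂ y.1} := by
      ext t
      refine ⟨fun h => ⟨h.1, h.2.1⟩, fun h => ⟨h.1, h.2, ?_⟩⟩
      rintro k hk rfl
      exact hs k hk (h.2.1 (Finset.mem_singleton_self _))
    rw [h2]
    exact sph_simplex y.1 y.2.1
  · obtain ⟨k, hk, hky⟩ := hs
    have hc : ∀ z, z ∈ y.1.erase k ↔ k < z ∧ z ∈ y.1 := by
      intro z
      rw [Finset.mem_erase]
      constructor
      · rintro ⟨h1, h2⟩
        refine ⟨?_, h2⟩
        rcases y.2.2.1 hky h2 (Ne.symm h1) with h | h
        · exact lt_of_le_of_ne h (Ne.symm h1)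
        · exact absurd (lt_of_le_of_ne h h1) (hSp k hk z)
      · rintro ⟨h1, h2⟩
        exact ⟨h1.ne', h2⟩
    have hne : (y.1.erase k).Nonempty := by
      rw [Finset.nonempty_iff_ne_empty]
      intro h3
      rw [Finset.erase_eq_empty_iff] at h3
      rcases h3 with h3 | h3
      · rw [h3] at hky; exact Finset.notMem_empty _ hky
      · exact y.2.2.2 k hk h3
    have hcard : (y.1.erase k).card = y.1.card - 1 := Finset.card_erase_of_mem hky
    have main : HEq' (Set.Iio (Big.mk' w y))
        (Cub (α := Multiplicative (ZMod 2)) (y.1.erase k)) := by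
      refine HEq'.quillen_ge (finHtOn_Iio _ _ subset_rfl) (finHt_cub _ _ subset_rfl)
        (sgn k hk w y) ?_ ?_ ?_
      · intro b hb
        constructor
        · intro z hz
          apply sgn_top
          rintro ⟨h1, h2, _⟩
          exact hz ((hc z).2 ⟨h1, h2⟩)
        · have hlt : b.cell < y := Big.cell_lt hb
          obtain ⟨u, hu⟩ := b.exists_mk
          have : ∃ z, z ∈ y.1.erase k ∧ ¬ (k ∈ b.cell.1 ∧ z ∈ b.cell.1) := by
            by_cases hkb : k ∈ b.cell.1
            · obtain ⟨z, hz1, hz2⟩ := Finset.exists_of_ssubset hlt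
              refine ⟨z, ?_, fun h => hz2 h.2⟩
              rw [Finset.mem_erase]
              refine ⟨?_, hz1⟩
              rintro rfl
              exact hz2 hkb
            · obtain ⟨z, hz⟩ := hne
              exact ⟨z, hz, fun h => hkb h.1⟩
          obtain ⟨z, hz, hz2⟩ := this
          refine ⟨z, ?_⟩
          rw [hu, sgn_mk k hk w y u b.cell z ((hc z).1 hz).1 ((hc z).1 hz).2 hz2]
          exact cz_ne_top _
      · intro b hb b' hb' hbb z
        rw [cub_le_iff]
        by_cases h : k < z ∧ z ∈ y.1 ∧ ¬ (k ∈ b'.cell.1 ∧ z ∈ b'.cell.1)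
        · right
          obtain ⟨h0, u, hu, hu'⟩ := hbb
          rw [hu, hu', sgn_mk k hk w y u b'.cell z h.1 h.2.1 h.2.2,
            sgn_mk k hk w y u b.cell z h.1 h.2.1 fun hh => h.2.2 ⟨h0 hh.1, h0 hh.2⟩]
        · left
          exact sgn_top k hk w y b' z h
      · rintro v ⟨hv1, hv2⟩
        -- an element of `W_y` with the signs of `v`
        obtain ⟨u, hu, hus⟩ : ∃ u ∈ WP Sp y, ∀ z (h : k < z) (_ : z ∈ y.1), v z ≠ ⊤ →
            v z = cz (chw (⟨(k, z), hk, h⟩ : Gen Sp) u) := by
          have hfin : (mir Sp y).Finite := by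
            have : mir Sp y ⊆ (fun s : Gen Sp => s.1) ⁻¹' ((y.1 ×ˢ y.1 : Finset (R × R)) :
                Set (R × R)) := by
              intro s hs
              simp only [Set.mem_preimage, Finset.coe_product, Set.mem_prod]
              exact hs
            exact (Set.Finite.preimage Subtype.val_injective.injOn
              (Finset.finite_toSet _)).subset this
          obtain ⟨u, hu, h⟩ := exists_signs y (hfin.toFinset.filter fun s =>
            v s.1.2 = cz (Multiplicative.ofAdd 1)) (by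
              intro s hs
              rw [Finset.mem_filter, Set.Finite.mem_toFinset] at hs
              exact hs.1)
          refine ⟨u, hu, fun z hz1 hz2 hz3 => ?_⟩
          rw [h]
          have hm : (⟨(k, z), hk, hz1⟩ : Gen Sp) ∈ mir Sp y := ⟨hky, hz2⟩
          split_ifs with h4
          · rw [Finset.mem_filter] at h4
            exact h4.2
          · rcases h5 : v z with _ | x
            · exact absurd h5 hz3
            · have h6 : x = (1 : Multiplicative (ZMod 2)) ∨
                  x = (Multiplicative.ofAdd 1 : Multiplicative (ZMod 2)) := by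
                exact z2_cases x
              rcases h6 with h6 | h6
              · rw [h6]; rfl
              · exfalso
                apply h4
                rw [Finset.mem_filter, Set.Finite.mem_toFinset]
                refine ⟨hm, ?_⟩
                change v z = _
                rw [h5, h6]
                rfl
        -- elements of the fibre
        have hfib : ∀ b ∈ Set.Iio (Big.mk' w y), v ≤ sgn k hk w y b →
            ∃ y', y' < y ∧ b = Big.mk' (w * u) y' := by
          intro b hb hvb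
          have hlt : b.cell < y := Big.cell_lt hb
          refine ⟨b.cell, hlt, ?_⟩
          obtain ⟨u', hu'⟩ := b.exists_mk
          have h1 := (Set.mem_Iio.1 hb).le
          rw [hu', Big.mk'_le] at h1
          conv_lhs => rw [hu']
          rw [Big.mk'_eq]
          have h2 : u'⁻¹ * (w * u) ∈ WP Sp y := by
            rw [← mul_assoc]
            exact mul_mem h1.2 hu
          refine Subgroup.closure_mono (le_refl _) (mem_closure_of_chw hSp y _ h2 _ ?_)
          intro s hs hs2
          have hsk : s.1.1 = k := sp_unique hSp y s.2.1 hk hs.1 hky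
          by_contra hs3
          apply hs2
          have h3 : k < s.1.2 := hsk ▸ s.2.2
          have hse : s = (⟨(k, s.1.2), hk, h3⟩ : Gen Sp) := Subtype.ext (Prod.ext hsk rfl)
          have h4 : ¬ (k ∈ b.cell.1 ∧ s.1.2 ∈ b.cell.1) := by
            rintro ⟨h5, h6⟩
            exact hs3 ⟨hsk ▸ h5, h6⟩
          have h5 := hvb s.1.2
          rw [hu', sgn_mk k hk w y u' b.cell s.1.2 h3 hs.2 h4, cub_le_iff] at h5
          rcases h5 with h5 | h5
          · exact absurd h5 (cz_ne_top _)
          · have h6 := hus s.1.2 h3 hs.2 (by rw [h5]; exact cz_ne_top _)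
            rw [h5] at h6
            have h7 : chw (⟨(k, s.1.2), hk, h3⟩ : Gen Sp) (w⁻¹ * u') =
                chw (⟨(k, s.1.2), hk, h3⟩ : Gen Sp) u := cz_inj h6
            rw [hse]
            have h8 : u'⁻¹ * (w * u) = (w⁻¹ * u')⁻¹ * u := by group
            rw [h8, map_mul, map_inv, h7, inv_mul_cancel]
        have hmem : ∀ y', y' < y → Big.mk' (w * u) y' ∈ Set.Iio (Big.mk' w y) := by
          intro y' hy'
          have : Big.mk' w y = Big.mk' (w * u) y := by
            rw [Big.mk'_eq]; simpa using hu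
          rw [this]
          exact (Big.mk'_lt _).2 hy'
        have hsgn : ∀ y' z (h1 : k < z) (_ : z ∈ y.1), ¬ (k ∈ y'.1 ∧ z ∈ y'.1) →
            sgn k hk w y (Big.mk' (w * u) y') z =
              cz (chw (⟨(k, z), hk, h1⟩ : Gen Sp) u) := by
          intro y' z h1 h2 h3
          rw [sgn_mk k hk w y (w * u) y' z h1 h2 h3]
          congr 2
          group
        by_cases hfull : ∀ z, z ∈ y.1.erase k → v z ≠ ⊤
        · -- a full sign vector
          have : {b ∈ Set.Iio (Big.mk' w y) | v ≤ sgn k hk w y b} =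
              Big.mk' (w * u) '' Set.Iio y := by
            ext b
            constructor
            · rintro ⟨h1, h2⟩
              obtain ⟨y', h3, h4⟩ := hfib b h1 h2
              exact ⟨y', h3, h4.symm⟩
            · rintro ⟨y', h3, rfl⟩
              refine ⟨hmem y' h3, fun z => ?_⟩
              rw [cub_le_iff]
              by_cases h : k < z ∧ z ∈ y.1 ∧ ¬ (k ∈ y'.1 ∧ z ∈ y'.1)
              · right
                rw [hsgn y' z h.1 h.2.1 h.2.2]
                exact hus z h.1 h.2.1 (hfull z ((hc z).2 ⟨h.1, h.2.1⟩))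
              · left
                exact sgn_top k hk w y _ z h
          rw [this]
          exact wc_chm hSp _ y k hk hky
        · -- a sign vector with zeros
          push Not at hfull
          obtain ⟨z0, hz0, hz0'⟩ := hfull
          obtain ⟨zn, hzn⟩ := hv2
          have hznc : zn ∈ y.1.erase k := by
            by_contra h
            exact hzn (hv1 zn h)
          set t : Finset R := insert k ((y.1.erase k).filter fun z => v z = ⊤) with ht
          have hty : t ⊂ y.1 := by
            rw [Finset.ssubset_iff_of_subset]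
            · refine ⟨zn, (Finset.mem_erase.1 hznc).2, ?_⟩
              rw [ht, Finset.mem_insert, Finset.mem_filter]
              rintro (h | h)
              · exact (Finset.mem_erase.1 hznc).1 h
              · exact hzn h.2
            · intro z hz
              rw [ht, Finset.mem_insert, Finset.mem_filter] at hz
              rcases hz with h | h
              · rw [h]; exact hky
              · exact (Finset.mem_erase.1 h.1).2
          have hz0t : z0 ∈ t := by
            rw [ht, Finset.mem_insert, Finset.mem_filter]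
            exact Or.inr ⟨hz0, hz0'⟩
          obtain ⟨y0, hy0, hy0t⟩ := (exists_cell_lt hSp y t).2 ⟨⟨k, by
            rw [ht]; exact Finset.mem_insert_self _ _⟩, hty, by
            intro k' _ h
            have h1 : k ∈ t := by rw [ht]; exact Finset.mem_insert_self _ _
            rw [h, Finset.mem_singleton] at h1 hz0t
            exact (Finset.mem_erase.1 hz0).1 (hz0t.trans h1.symm)⟩
          apply WC.cone (Big.mk' (w * u) y0)
          · refine ⟨hmem y0 hy0, fun z => ?_⟩
            rw [cub_le_iff]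
            by_cases h : k < z ∧ z ∈ y.1 ∧ ¬ (k ∈ y0.1 ∧ z ∈ y0.1)
            · right
              rw [hsgn y0 z h.1 h.2.1 h.2.2]
              apply hus z h.1 h.2.1
              intro h1
              apply h.2.2
              rw [hy0t, ht]
              refine ⟨Finset.mem_insert_self _ _, ?_⟩
              rw [Finset.mem_insert, Finset.mem_filter]
              exact Or.inr ⟨(hc z).2 ⟨h.1, h.2.1⟩, h1⟩
            · left
              exact sgn_top k hk w y _ z h
          · rintro b ⟨h1, h2⟩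
            right
            obtain ⟨y', h3, h4⟩ := hfib b h1 h2
            rw [h4, Big.mk'_mono]
            change y0.1 ⊆ y'.1
            rw [hy0t, ht]
            have hall : ∀ z ∈ y.1.erase k, v z = ⊤ → k ∈ y'.1 ∧ z ∈ y'.1 := by
              intro z hz hvz
              by_contra h
              have h5 := h2 z
              rw [hvz, h4, hsgn y' z ((hc z).1 hz).1 ((hc z).1 hz).2 h, top_le_iff] at h5
              exact cz_ne_top _ h5
            intro z hz
            rw [Finset.mem_insert, Finset.mem_filter] at hz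
            rcases hz with h | h
            · rw [h]; exact (hall z0 hz0 hz0').1
            · exact (hall z h.1 h.2).2
    rw [main.sph]
    have := sph_cub (R := R) (1 : Multiplicative (ZMod 2)) (Multiplicative.ofAdd 1)
      (Ne.symm ofAdd_one_ne) (by decide) (y.1.erase k)
    rwa [hcard] at this

end

end Pool.Agent.Helper59.PD
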