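import Pool.Agent.Helper59.PD.Big1
import Pool.Agent.Helper59.PD.Racg

/-! Finiteness properties of the big complex. -/

set_option autoImplicit false

namespace Pool.Agent.Helper59.PD

noncomputable section

variable {n : ℕ} {G R : Type} [Group G] [PartialOrder R] [MulAction G R] {Sp : Set R}

theorem Orbi.act (O : Orbi n G R Sp) : Act G Sp := ⟨O.smul_lt, O.Sp_smul⟩

namespace BigFin

/-- A cell contains a nonspecial element. -/
lemma exists_nonspecial (O : Orbi n G R Sp) (y : Cell Sp) : ∃ z ∈ y.1, z ∉ Sp := by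
  by_contra hcon
  push Not at hcon
  obtain ⟨k, hk⟩ := y.2.1
  refine y.2.2.2 k (hcon k hk) ?_
  ext x
  rw [Finset.mem_singleton]
  constructor
  · intro hx
    rcases y.2.2.1.total hx hk with h | h
    · rcases h.lt_or_eq with h | h
      · exact absurd h (O.Sp_min k (hcon k hk) x)
      · exact h
    · rcases h.lt_or_eq with h | h
      · exact absurd h (O.Sp_min x (hcon x hx) k)
      · exact h.symm
  · rintro rfl
    exact hk

/-- Finitely many cells contain a given nonspecial element. -/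
lemma finite_cells (O : Orbi n G R Sp) (z : R) (hz : z ∉ Sp) :
    {y : Cell Sp | z ∈ y.1}.Finite := by
  have h1 := O.locfin z hz
  refine Set.Finite.of_finite_image (f := fun y : Cell Sp => y.1) ?_
    (Subtype.val_injective.injOn)
  refine Set.Finite.subset (h1.toFinset.powerset.finite_toSet) ?_
  rintro _ ⟨y, hy, rfl⟩
  rw [Finset.mem_coe, Finset.mem_powerset]
  intro x hx
  rw [Set.Finite.mem_toFinset]
  exact y.2.2.1.total hx hy

lemma finite_ge (O : Orbi n G R Sp) (y : Cell Sp) : {y' : Cell Sp | y ≤ y'}.Finite := by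
  obtain ⟨z, hz, hz'⟩ := exists_nonspecial O y
  exact (finite_cells O z hz').subset fun y' hy => hy hz

lemma finite_le (y : Cell Sp) : {y' : Cell Sp | y' ≤ y}.Finite := by
  refine Set.Finite.of_finite_image (f := fun y : Cell Sp => y.1) ?_
    (Subtype.val_injective.injOn)
  refine Set.Finite.subset (y.1.powerset.finite_toSet) ?_
  rintro _ ⟨y', hy, rfl⟩
  rw [Finset.mem_coe, Finset.mem_powerset]
  exact hy

lemma mir_finite (y : Cell Sp) : (mir Sp y).Finite := by
  refine Set.Finite.of_finite_image (f := fun s : Gen Sp => s.1) ?_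
    (Subtype.val_injective.injOn)
  refine Set.Finite.subset ((y.1 ×ˢ y.1).finite_toSet) ?_
  rintro _ ⟨s, hs, rfl⟩
  rw [Finset.mem_coe, Finset.mem_product]
  exact hs

lemma mir_clique (O : Orbi n G R Sp) (y : Cell Sp) :
    ∀ s ∈ mir Sp y, ∀ t ∈ mir Sp y, s ≠ t → Adj Sp s t := by
  intro s hs t ht hst
  have h1 : s.1.1 = t.1.1 := by
    rcases y.2.2.1.total hs.1 ht.1 with h | h
    · rcases h.lt_or_eq with h | h
      · exact absurd h (O.Sp_min _ t.2.1 _)
      · exact h
    · rcases h.lt_or_eq with h | h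
      · exact absurd h (O.Sp_min _ s.2.1 _)
      · exact h.symm
  refine ⟨h1, ?_⟩
  have h2 : s.1.2 ≠ t.1.2 := fun h => hst (Subtype.ext (Prod.ext h1 h))
  rcases y.2.2.1.total hs.2 ht.2 with h | h
  · exact Or.inl (lt_of_le_of_ne h h2)
  · exact Or.inr (lt_of_le_of_ne h h2.symm)

lemma WP_finite (O : Orbi n G R Sp) (y : Cell Sp) : (WP Sp y : Set (WG Sp)).Finite := by
  have hfin := mir_finite y
  have : Finite (mir Sp y) := hfin
  have h1 : {l : List (mir Sp y) | l.length ≤ Nat.card (mir Sp y)}.Finite :=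
    List.finite_length_le _ _
  refine (h1.image fun l => (cM Sp).toCoxeterSystem.wordProd (l.map Subtype.val)).subset ?_
  intro v hv
  obtain ⟨l, hn, hl, rfl⟩ := racg_clique_elt (hs := fun _ _ h => h.symm' Sp) (mir Sp y)
    (mir_clique O y) v hv
  refine ⟨l.attach.map fun x => ⟨x.1, hl _ x.2⟩, ?_, ?_⟩
  · rw [Set.mem_ofPred_eq, List.length_map]
    have h2 : (l.attach.map fun x => (⟨x.1, hl _ x.2⟩ : mir Sp y)).Nodup := by
      refine List.Nodup.map ?_ (List.nodup_attach.2 hn)
      intro a b hab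
      exact Subtype.ext (congrArg (fun x : mir Sp y => x.1) hab)
    have := Fintype.ofFinite (mir Sp y)
    have h3 := h2.length_le_card
    rw [List.length_map] at h3
    rwa [Nat.card_eq_fintype_card]
  · dsimp only
    congr 1
    rw [List.map_map]
    exact List.attach_map_subtype_val l

end BigFin

open BigFin

theorem Orbi.big_locfin (O : Orbi n G R Sp) (a : Big Sp) :
    {b : Big Sp | b ≤ a ∨ a ≤ b}.Finite := by
  obtain ⟨w, hw⟩ := a.exists_mk
  have h1 : {b : Big Sp | a ≤ b}.Finite := by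
    refine ((finite_ge O a.cell).image (Big.mk' w)).subset ?_
    intro b hb
    rw [Set.mem_ofPred_eq, hw] at hb
    obtain ⟨h2, h3⟩ := Big.eq_of_ge hb
    exact ⟨b.cell, h3, h2.symm⟩
  have h2 : {b : Big Sp | b ≤ a}.Finite := by
    refine (((WP_finite O a.cell).prod (finite_le a.cell)).image
      fun p => Big.mk' (w * p.1) p.2).subset ?_
    intro b hb
    obtain ⟨h2, w', h3, h4⟩ := hb
    refine ⟨(w⁻¹ * w', b.cell), ⟨?_, h2⟩, ?_⟩
    · rw [hw] at h4
      exact Big.mk'_eq.1 h4
    · simpa using h3.symm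
  exact (h2.union h1).subset fun b hb => hb

/-- finitely many orbits of `W ⋊ G` on the elements of the big complex -/
theorem Orbi.big_cofin (O : Orbi n G R Sp) :
    ∃ T : Set (Big Sp), T.Finite ∧ ∀ a : Big Sp, ∃ γ : O.act.Pi, γ • a ∈ T := by
  obtain ⟨T0, hT0, h⟩ := O.cofin
  refine ⟨⋃ z ∈ T0 ∩ Spᶜ, Big.mk' 1 '' {y : Cell Sp | z ∈ y.1}, ?_, ?_⟩
  · exact (hT0.subset Set.inter_subset_left).biUnion fun z hz =>
      (finite_cells O z hz.2).image _
  · intro a
    obtain ⟨w, hw⟩ := a.exists_mk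
    obtain ⟨z, hz, hz'⟩ := exists_nonspecial O a.cell
    obtain ⟨g, hg⟩ := h z hz'
    refine ⟨⟨(O.act.hom g w)⁻¹, g⟩, ?_⟩
    rw [hw, O.act.smul_mk]
    simp only [Set.mem_iUnion]
    refine ⟨g • z, ⟨hg, fun h2 => hz' ((O.act.sp_iff g z).1 h2)⟩, O.act.cell g a.cell, ?_, ?_⟩
    · exact (O.act.mem_cell g a.cell z).2 hz
    · simp

end

end Pool.Agent.Helper59.PD
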