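import Pool.Agent.Helper59.PD.Base

/-! Homology manifold posets and orientations: definitions. -/

set_option autoImplicit false

namespace Pool.Agent.Helper59.PD

noncomputable section

/-- a graded poset all of whose links are homology spheres -/
structure HM (n : ℕ) (X : Type) [PartialOrder X] where
  /-- the rank function -/
  rk : X → ℕ
  rk_lt : ∀ x y, x < y → rk x < rk y
  rk_le : ∀ x, rk x ≤ n
  down : ∀ x, Sph (Set.Iio x) (rk x)
  up : ∀ x, Sph (Set.Ioi x) (n - rk x)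
  btw : ∀ x y, x < y → Sph (Set.Ioo x y) (rk y - rk x - 1)
  locfin : ∀ x, {y : X | y ≤ x ∨ x ≤ y}.Finite

/-- `ξ` is an orientation: a function on the full flags with values `1`, `-1` which, around every
`x`, is the product of a cycle below `x` and a cycle above `x` -/
def IsOri {n : ℕ} {X : Type} [PartialOrder X] (H : HM n X) (ξ : List X → ℤ) : Prop :=
  ∀ x, ∃ ξm ∈ CC (Set.Iio x) (H.rk x), ∃ ξp ∈ CC (Set.Ioi x) (n - H.rk x),
    d ξm = 0 ∧ d ξp = 0 ∧
    (∀ a ∈ cs (Set.Iio x) (H.rk x), ξm a = 1 ∨ ξm a = -1) ∧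
    (∀ b ∈ cs (Set.Ioi x) (n - H.rk x), ξp b = 1 ∨ ξp b = -1) ∧
    ∀ a ∈ cs (Set.Iio x) (H.rk x), ∀ b ∈ cs (Set.Ioi x) (n - H.rk x),
      ξ (a ++ x :: b) = ξm a * ξp b

end

end Pool.Agent.Helper59.PD
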