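import Pool.Agent.Helper59.PD.BigUp
import Pool.Agent.Helper59.PD.BigDown
import Pool.Agent.Helper59.PD.BigFin
import Pool.Agent.Helper59.PD.HM

/-! The big complex is a homology manifold. -/

set_option autoImplicit false

namespace Pool.Agent.Helper59.PD

noncomputable section

variable {n : ℕ} {G R : Type} [Group G] [PartialOrder R] [MulAction G R] {Sp : Set R}

/-- the big complex is a homology manifold -/
def Orbi.hm (O : Orbi n G R Sp) : HM n (Big Sp) where
  rk a := a.cell.1.card - 1
  rk_lt a b h := by
    obtain ⟨w, y, y', h1, rfl, rfl⟩ := Big.exists_of_le h.le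
    have h2 : y.1 ⊂ y'.1 := (Big.mk'_lt w).1 h
    have h3 := Finset.card_lt_card h2
    have h4 : 0 < y.1.card := Finset.card_pos.2 y.2.1
    simp only [Big.mk'_cell]
    omega
  rk_le a := by
    have := O.card_le a.cell
    omega
  down := big_down O.Sp_min
  up := O.big_up
  btw := O.big_btw
  locfin := O.big_locfin

end

end Pool.Agent.Helper59.PD
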