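import Pool.Agent.Helper59.PD.Big1
import Pool.Agent.Helper59.PD.Lib
import Pool.Agent.Helper59.PD.Racg

/-! Connectivity of the big complex. -/

set_option autoImplicit false

open scoped Classical

namespace Pool.Agent.Helper59.PD

noncomputable section

variable {n : ℕ} {G R : Type} [Group G] [PartialOrder R] [MulAction G R] {Sp : Set R}

/-- the Coxeter system of the reflection group -/
abbrev b3_csW (Sp : Set R) := (cM Sp).toCoxeterSystem

theorem Orbi.b3_injOn_r (O : Orbi n G R Sp) {s : Set R} (hs : IsChain (· ≤ ·) s) :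
    Set.InjOn O.r s := by
  intro a ha b hb hab
  by_contra hne
  rcases hs ha hb hne with h | h
  · have := O.r_lt a b (lt_of_le_of_ne h hne)
    omega
  · have := O.r_lt b a (lt_of_le_of_ne h (Ne.symm hne))
    omega

theorem Orbi.b3_card_chain_le (O : Orbi n G R Sp) (y : Finset R) (hy : IsChain (· ≤ ·) (y : Set R)) :
    y.card ≤ n + 1 := by
  have h1 : y.card ≤ (Finset.range (n + 1)).card := by
    apply Finset.card_le_card_of_injOn O.r
    · intro x _
      have := O.r_le x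
      simp only [Finset.coe_range, Set.mem_Iio]
      omega
    · exact O.b3_injOn_r hy
  simpa using h1

theorem Orbi.b3_sp_unique (O : Orbi n G R Sp) {s : Set R} (hs : IsChain (· ≤ ·) s) {k k' : R}
    (hk : k ∈ s) (hk' : k' ∈ s) (h : k ∈ Sp) (h' : k' ∈ Sp) : k = k' := by
  by_contra hne
  rcases hs hk hk' hne with h1 | h1
  · exact O.Sp_min k' h' k (lt_of_le_of_ne h1 hne)
  · exact O.Sp_min k h k' (lt_of_le_of_ne h1 (Ne.symm hne))

theorem Orbi.b3_finHt_cell (O : Orbi n G R Sp) (S : Set (Cell Sp)) : FinHtOn S :=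
  ⟨n + 1, fun y => y.1.card, fun y _ y' _ h => by
    have h2 : y.1 ⊂ y'.1 := h
    exact Finset.card_lt_card h2, fun y _ => O.b3_card_chain_le y.1 y.2.2.1⟩

/-- a translate of a set of cells -/
theorem b3_heq_image (w : WG Sp) (P : Set (Cell Sp)) : HEq' P (Big.mk' w '' P) := by
  apply HEq'.of_iso (Big.mk' w)
  · refine ⟨fun y hy => ⟨y, hy, rfl⟩, ?_, fun a ha => ha⟩
    intro y _ y' _ h
    exact Big.mk'_fst h
  · intro y _ y' _
    exact (Big.mk'_lt w).symm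

/-- the nonspecial part of a cell -/
def b3_nonsp (O : Orbi n G R Sp) (y : Cell Sp) : Cell Sp :=
  ⟨y.1.filter (· ∉ Sp), by
    by_contra hcon
    rw [Finset.not_nonempty_iff_eq_empty, Finset.filter_eq_empty_iff] at hcon
    obtain ⟨k, hk⟩ := y.2.1
    have h1 : k ∈ Sp := not_not.1 (hcon hk)
    apply y.2.2.2 k h1
    rw [Finset.eq_singleton_iff_unique_mem]
    refine ⟨hk, fun k' hk' => ?_⟩
    exact O.b3_sp_unique y.2.2.1 hk' hk (not_not.1 (hcon hk')) h1,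
  y.2.2.1.mono (by
    intro x hx
    simp only [Finset.coe_filter, Set.mem_ofPred_eq] at hx
    exact hx.1),
  fun k hk h => by
    have : k ∈ y.1.filter (· ∉ Sp) := by rw [h]; exact Finset.mem_singleton_self k
    exact (Finset.mem_filter.1 this).2 hk⟩

theorem b3_mem_nonsp (O : Orbi n G R Sp) (y : Cell Sp) (x : R) :
    x ∈ (b3_nonsp O y).1 ↔ x ∈ y.1 ∧ x ∉ Sp := Finset.mem_filter

/-- the chamber is equivalent to the nonspecial part -/
theorem Orbi.b3_chm_heq (O : Orbi n G R Sp) (w : WG Sp) : HEq' (Chm w) (Spᶜ : Set R) := by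
  have h1 : HEq' (Set.univ : Set (Cell Sp)) (Chm w) := by
    have := b3_heq_image w (Set.univ : Set (Cell Sp))
    rwa [Set.image_univ] at this
  have h2 : HEq' (Set.univ : Set (Cell Sp)) {y : Cell Sp | ∀ x ∈ y.1, x ∉ Sp} := by
    apply HEq'.retract_down (O.b3_finHt_cell _) (Set.subset_univ _) (b3_nonsp O)
    · intro y _ x hx
      exact ((b3_mem_nonsp O y x).1 hx).2
    · intro y hy
      apply Subtype.ext
      ext x
      rw [b3_mem_nonsp]
      exact ⟨fun h => h.1, fun h => ⟨h, hy x h⟩⟩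
    · intro y _ y' _ h x hx
      have hx' := (b3_mem_nonsp O y x).1 hx
      exact (b3_mem_nonsp O y' x).2 ⟨h hx'.1, hx'.2⟩
    · intro y _ x hx
      exact ((b3_mem_nonsp O y x).1 hx).1
  have h3 : HEq' {y : Cell Sp | ∀ x ∈ y.1, x ∉ Sp} (Sd (Spᶜ : Set R)) := by
    apply HEq'.of_iso (fun y : Cell Sp => y.1)
    · refine ⟨fun y hy => ⟨y.2.1, y.2.2.1, fun x hx => hy x hx⟩, ?_, ?_⟩
      · intro y _ y' _ h
        exact Subtype.ext h
      · rintro y ⟨h1, h2, h3⟩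
        refine ⟨⟨y, h1, h2, ?_⟩, fun x hx => h3 hx, rfl⟩
        rintro k hk rfl
        exact h3 (by simp) hk
    · intro y _ y' _
      exact Iff.rfl
  have h4 : HEq' (Sd (Spᶜ : Set R)) (Spᶜ : Set R) :=
    HEq'.sd ⟨n, O.r, fun x _ y _ h => O.r_lt x y h, fun x _ => O.r_le x⟩
  exact ((h1.symm.trans h2).trans h3).trans h4

/-- the mirrors of a cell are a clique -/
theorem Orbi.b3_mir_clique (O : Orbi n G R Sp) (y : Cell Sp) :
    ∀ s ∈ mir Sp y, ∀ t ∈ mir Sp y, s ≠ t → Adj Sp s t := by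
  rintro s ⟨hs1, hs2⟩ t ⟨ht1, ht2⟩ hst
  have e : s.1.1 = t.1.1 := O.b3_sp_unique y.2.2.1 hs1 ht1 s.2.1 t.2.1
  refine ⟨e, ?_⟩
  have hne : s.1.2 ≠ t.1.2 := by
    intro h
    exact hst (Subtype.ext (Prod.ext e h))
  rcases y.2.2.1 hs2 ht2 hne with h | h
  · exact Or.inl (lt_of_le_of_ne h hne)
  · exact Or.inr (lt_of_le_of_ne h (Ne.symm hne))

theorem b3_adj_irrefl (s : Gen Sp) : ¬ Adj Sp s s := by
  rintro ⟨-, h | h⟩ <;> exact lt_irrefl _ h

/-- the part of the complex in the chambers of length at most `L` -/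
def B3FL (Sp : Set R) (L : ℕ) : Set (Big Sp) :=
  {a | ∃ (w : WG Sp) (y : Cell Sp), (b3_csW Sp).length w ≤ L ∧ a = Big.mk' w y}

theorem b3_FL_up {L : ℕ} {a b : Big Sp} (ha : a ∈ B3FL Sp L) (h : a ≤ b) : b ∈ B3FL Sp L := by
  obtain ⟨w, y, hw, rfl⟩ := ha
  exact ⟨w, _, hw, (Big.eq_of_ge h).1⟩

theorem b3_FL_zero : B3FL Sp 0 = Chm 1 := by
  ext a
  constructor
  · rintro ⟨w, y, hw, rfl⟩
    have : w = 1 := (b3_csW Sp).length_eq_zero_iff.1 (Nat.le_zero.1 hw)
    rw [this]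
    exact ⟨y, rfl⟩
  · rintro ⟨y, rfl⟩
    exact ⟨1, y, by rw [(b3_csW Sp).length_one], rfl⟩

theorem b3_FL_succ (L : ℕ) : B3FL Sp (L + 1) =
    B3FL Sp L ∪ ⋃ i : {w : WG Sp // (b3_csW Sp).length w = L + 1}, Chm i.1 := by
  ext a
  constructor
  · rintro ⟨w, y, hw, rfl⟩
    rcases Nat.lt_or_ge ((b3_csW Sp).length w) (L + 1) with h | h
    · exact Or.inl ⟨w, y, by omega, rfl⟩
    · exact Or.inr (Set.mem_iUnion.2 ⟨⟨w, by omega⟩, y, rfl⟩)
  · rintro (⟨w, y, hw, rfl⟩ | h)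
    · exact ⟨w, y, by omega, rfl⟩
    · obtain ⟨⟨w, hw⟩, y, rfl⟩ := Set.mem_iUnion.1 h
      exact ⟨w, y, hw.le, rfl⟩

theorem b3_FL_mono : Monotone (B3FL Sp) := by
  rintro L L' h a ⟨w, y, hw, rfl⟩
  exact ⟨w, y, hw.trans h, rfl⟩

theorem b3_FL_union : (⋃ L, B3FL Sp L) = Set.univ := by
  rw [Set.eq_univ_iff_forall]
  intro a
  obtain ⟨w, hw⟩ := a.exists_mk
  exact Set.mem_iUnion.2 ⟨_, w, _, le_rfl, hw⟩

/-- if no mirror is a descent, the chamber is the shortest one of the coset -/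
theorem Orbi.b3_eq_of_no_descent (O : Orbi n G R Sp) {w w' : WG Sp} {y : Cell Sp}
    (hno : ∀ s ∈ mir Sp y, ¬ (b3_csW Sp).IsRightDescent w s)
    (hl : (b3_csW Sp).length w' ≤ (b3_csW Sp).length w) (h : w⁻¹ * w' ∈ WP Sp y) : w = w' := by
  have e : w * (w⁻¹ * w') = w' := mul_inv_cancel_left w w'
  have h2 : (b3_csW Sp).length (w * (w⁻¹ * w')) ≤ (b3_csW Sp).length w := by
    rw [e]
    exact hl
  have h1 : w⁻¹ * w' = 1 :=
    racg_min_coset (adj := Adj Sp) (hs := fun _ _ h => h.symm' Sp) b3_adj_irrefl w (mir Sp y)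
      (O.b3_mir_clique y) hno _ h h2
  rw [inv_mul_eq_one] at h1
  exact h1

theorem b3_mem_FL_of_descent {w : WG Sp} {y : Cell Sp} {L : ℕ} (hw : (b3_csW Sp).length w = L + 1)
    {s : Gen Sp} (hs : s ∈ mir Sp y) (h : (b3_csW Sp).IsRightDescent w s) :
    Big.mk' w y ∈ B3FL Sp L := by
  refine ⟨w * rf Sp s, y, ?_, ?_⟩
  · have h1 : (b3_csW Sp).length (w * rf Sp s) < (b3_csW Sp).length w := h
    omega
  · rw [Big.mk'_eq, inv_mul_cancel_left]
    exact Subgroup.subset_closure ⟨s, hs, rfl⟩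

theorem Orbi.b3_mem_FL_iff (O : Orbi n G R Sp) {w : WG Sp} {y : Cell Sp} {L : ℕ}
    (hw : (b3_csW Sp).length w = L + 1) :
    Big.mk' w y ∈ B3FL Sp L ↔ ∃ s ∈ mir Sp y, (b3_csW Sp).IsRightDescent w s := by
  constructor
  · rintro ⟨w', y', hw', h⟩
    obtain rfl := Big.mk'_fst h
    rw [Big.mk'_eq] at h
    by_contra hcon
    push Not at hcon
    have := O.b3_eq_of_no_descent hcon (by omega) h
    subst this
    omega
  · rintro ⟨s, hs, h⟩
    exact b3_mem_FL_of_descent hw hs h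

/-- the intersection of a new chamber with the old ones -/
theorem Orbi.b3_wc_inter (O : Orbi n G R Sp) {w : WG Sp} {L : ℕ}
    (hw : (b3_csW Sp).length w = L + 1) : WC (Chm w ∩ B3FL Sp L) := by
  -- the descents of `w`
  have hw1 : w ≠ 1 := by
    rintro rfl
    rw [(b3_csW Sp).length_one] at hw
    omega
  obtain ⟨s0, hs0⟩ := (b3_csW Sp).exists_rightDescent_of_ne_one hw1
  have hadj : ∀ s, (b3_csW Sp).IsRightDescent w s → s ≠ s0 → Adj Sp s s0 := fun s hs hne =>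
    racg_descent_adj (adj := Adj Sp) (hs := fun _ _ h => h.symm' Sp) b3_adj_irrefl w s s0 hne hs hs0
  have hk : ∀ s, (b3_csW Sp).IsRightDescent w s → s.1.1 = s0.1.1 := by
    intro s hs
    by_cases h : s = s0
    · rw [h]
    · exact (hadj s hs h).1
  let k : R := s0.1.1
  let t : Set R := {z | ∃ s, (b3_csW Sp).IsRightDescent w s ∧ s.1.2 = z}
  have hkt : ∀ z ∈ t, k < z := by
    rintro z ⟨s, hs, rfl⟩
    have := s.2.2
    rwa [hk s hs] at this
  have htch : IsChain (· ≤ ·) t := by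
    rintro _ ⟨s, hs, rfl⟩ _ ⟨s', hs', rfl⟩ hne
    have hss : s ≠ s' := fun h => hne (by rw [h])
    have h1 := racg_descent_adj (adj := Adj Sp) (hs := fun _ _ h => h.symm' Sp) b3_adj_irrefl w s s'
      hss hs hs'
    rcases h1.2 with h2 | h2
    · exact Or.inl h2.le
    · exact Or.inr h2.le
  have htfin : t.Finite := by
    apply Set.Finite.of_finite_image (f := O.r) _ (O.b3_injOn_r htch)
    apply Set.Finite.subset (Set.finite_Iic n)
    rintro _ ⟨z, -, rfl⟩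
    exact O.r_le z
  have hmem : ∀ y : Cell Sp, Big.mk' w y ∈ B3FL Sp L ↔ k ∈ y.1 ∧ ∃ z ∈ t, z ∈ y.1 := by
    intro y
    rw [O.b3_mem_FL_iff hw]
    constructor
    · rintro ⟨s, ⟨h1, h2⟩, hs⟩
      refine ⟨?_, s.1.2, ⟨s, hs, rfl⟩, h2⟩
      rwa [hk s hs] at h1
    · rintro ⟨h1, _, ⟨s, hs, rfl⟩, h2⟩
      refine ⟨s, ⟨?_, h2⟩, hs⟩
      rw [hk s hs]
      exact h1
  let P : Set (Cell Sp) := {y | k ∈ y.1 ∧ ∃ z ∈ t, z ∈ y.1}
  have hP : Chm w ∩ B3FL Sp L = Big.mk' w '' P := by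
    ext a
    constructor
    · rintro ⟨⟨y, rfl⟩, h⟩
      exact ⟨y, (hmem y).1 h, rfl⟩
    · rintro ⟨y, hy, rfl⟩
      exact ⟨⟨y, rfl⟩, (hmem y).2 hy⟩
  rw [hP, ← (b3_heq_image w P).wc]
  -- the retraction
  have hns : ∀ z ∈ t, z ∉ Sp := fun z hz h => O.Sp_min z h k (hkt z hz)
  let rr : Cell Sp → Cell Sp := fun y => if h : y ∈ P then
    ⟨y.1.filter (fun x => x = k ∨ x ∈ t), ⟨k, Finset.mem_filter.2 ⟨h.1, Or.inl rfl⟩⟩,
      y.2.2.1.mono (fun x hx => (Finset.mem_filter.1 hx).1), by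
        intro k' hk' he
        obtain ⟨z, hz, hzy⟩ := h.2
        have h1 : z ∈ y.1.filter (fun x => x = k ∨ x ∈ t) :=
          Finset.mem_filter.2 ⟨hzy, Or.inr hz⟩
        rw [he, Finset.mem_singleton] at h1
        rw [h1] at hz
        exact hns k' hz hk'⟩
    else y
  have hrr : ∀ y ∈ P, ∀ x, x ∈ (rr y).1 ↔ x ∈ y.1 ∧ (x = k ∨ x ∈ t) := by
    intro y hy x
    have e : (rr y).1 = y.1.filter (fun x => x = k ∨ x ∈ t) := congrArg Subtype.val (dif_pos hy)
    rw [e]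
    exact Finset.mem_filter
  have hrP : ∀ y ∈ P, rr y ∈ P := by
    intro y hy
    refine ⟨(hrr y hy k).2 ⟨hy.1, Or.inl rfl⟩, ?_⟩
    obtain ⟨z, hz, hzy⟩ := hy.2
    exact ⟨z, hz, (hrr y hy z).2 ⟨hzy, Or.inr hz⟩⟩
  -- the maximal element
  let v : Cell Sp := ⟨insert k htfin.toFinset, ⟨k, Finset.mem_insert_self _ _⟩, by
    rw [Finset.coe_insert, Set.Finite.coe_toFinset]
    exact htch.insert fun z hz _ => Or.inl (hkt z hz).le, by
    intro k' hk' he
    have h1 : s0.1.2 ∈ insert k htfin.toFinset :=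
      Finset.mem_insert_of_mem (htfin.mem_toFinset.2 ⟨s0, hs0, rfl⟩)
    rw [he, Finset.mem_singleton] at h1
    exact hns _ ⟨s0, hs0, rfl⟩ (h1 ▸ hk')⟩
  have hv : ∀ x, x ∈ v.1 ↔ x = k ∨ x ∈ t := by
    intro x
    change x ∈ insert k htfin.toFinset ↔ _
    rw [Finset.mem_insert, htfin.mem_toFinset]
  have hvP : v ∈ P := ⟨(hv k).2 (Or.inl rfl), s0.1.2, ⟨s0, hs0, rfl⟩,
    (hv _).2 (Or.inr ⟨s0, hs0, rfl⟩)⟩
  apply WC.of_down (O.b3_finHt_cell P) rr hrP _ _ _ v hvP _ _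
  · intro y hy
    apply Subtype.ext
    ext x
    rw [hrr _ (hrP y hy), hrr y hy]
    tauto
  · intro y hy y' hy' h x hx
    have hx' := (hrr y hy x).1 hx
    exact (hrr y' hy' x).2 ⟨h hx'.1, hx'.2⟩
  · intro y hy x hx
    exact ((hrr y hy x).1 hx).1
  · apply Subtype.ext
    ext x
    rw [hrr v hvP, hv]
    tauto
  · intro y hy x hx
    exact (hv x).2 ((hrr y hy x).1 hx).2

theorem Orbi.b3_inter_subset (O : Orbi n G R Sp) (L : ℕ)
    (i j : {w : WG Sp // (b3_csW Sp).length w = L + 1}) (hij : i ≠ j) :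
    Chm i.1 ∩ Chm j.1 ⊆ B3FL Sp L := by
  rintro _ ⟨⟨y, rfl⟩, h⟩
  rw [mk'_mem_Chm] at h
  rw [O.b3_mem_FL_iff i.2]
  by_contra hcon
  push Not at hcon
  exact hij (Subtype.ext (O.b3_eq_of_no_descent hcon (by rw [i.2, j.2]) h))

theorem Orbi.b3_fl_sc (O : Orbi n G R Sp) (L : ℕ) : SC (B3FL Sp L) := by
  induction L with
  | zero =>
    rw [b3_FL_zero]
    exact (O.b3_chm_heq 1).sc.2 O.sc
  | succ L ih =>
    rw [b3_FL_succ]
    apply SC.amalg (fun i : {w : WG Sp // (b3_csW Sp).length w = L + 1} => Chm i.1)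
    · intro x hx i y _ h
      exact b3_FL_up hx h.le
    · intro i x hx y _ h
      exact Chm_up hx h.le
    · exact O.b3_inter_subset L
    · exact ih
    · intro i
      exact (O.b3_chm_heq i.1).sc.2 O.sc
    · intro i
      exact (O.b3_wc_inter i.2).2.1

theorem Orbi.b3_fl_van (O : Orbi n G R Sp) (k : ℕ) (hk : k + 1 < n) (L : ℕ) :
    Hvan (B3FL Sp L) (k + 1) := by
  induction L with
  | zero =>
    rw [b3_FL_zero]
    exact ((O.b3_chm_heq 1).van _).2 (O.van _ hk)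
  | succ L ih =>
    rw [b3_FL_succ]
    apply Hvan.amalg (fun i : {w : WG Sp // (b3_csW Sp).length w = L + 1} => Chm i.1)
    · intro x hx i y _ h
      exact b3_FL_up hx h.le
    · intro i x hx y _ h
      exact Chm_up hx h.le
    · exact O.b3_inter_subset L
    · exact ih
    · intro i
      exact ((O.b3_chm_heq i.1).van _).2 (O.van _ hk)
    · intro i
      exact (O.b3_wc_inter i.2).1 k

theorem Orbi.big_sc (O : Orbi n G R Sp) : SC (Set.univ : Set (Big Sp)) := by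
  rw [← b3_FL_union]
  exact SC.iUnion b3_FL_mono O.b3_fl_sc

theorem Orbi.big_van (O : Orbi n G R Sp) (k : ℕ) (hk : k < n) :
    Hvan (Set.univ : Set (Big Sp)) k := by
  rcases k with _ | k
  · rw [Hvan.zero_iff]
    exact O.big_sc.1.1
  · rw [← b3_FL_union]
    exact Hvan.iUnion b3_FL_mono _ (O.b3_fl_van k hk)

end

end Pool.Agent.Helper59.PD
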