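import Pool.Agent.Helper59.PD.Big1
import Pool.Agent.Helper59.PD.BigFin
import Pool.Agent.Helper59.PD.Racg

/-! The colouring homomorphism of the big group; freeness of the action of its kernel. -/

set_option autoImplicit false

open scoped Classical

namespace Pool.Agent.Helper59.PD

noncomputable section

variable {n : ℕ} {G R : Type} [Group G] [PartialOrder R] [MulAction G R] {Sp : Set R}

/-- the `i`-th coordinate of the colouring -/
def chi1 (r : R → ℕ) (i : ℕ) (_hr : ∀ x y, x < y → r x < r y) :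
    WG Sp →* Multiplicative (ZMod 2) :=
  (cM Sp).toCoxeterSystem.lift ⟨fun t => if r t.1.2 = i then Multiplicative.ofAdd 1 else 1, by
    intro a b
    by_cases h : a = b
    · subst h
      dsimp only
      split_ifs with h1
      · simp only [CoxeterMatrix.diagonal, pow_one]
        decide
      · simp
    · by_cases h2 : Adj Sp a b
      · have e : (cM Sp) a b = 2 := by
          simp only [cM, racm]
          simp [h, h2]
        rw [e]
        dsimp only
        split_ifs <;> decide
      · have e : (cM Sp) a b = 0 := by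
          simp only [cM, racm]
          simp [h, h2]
        rw [e, pow_zero]⟩

@[simp] theorem chi1_rf (r : R → ℕ) (i : ℕ) (hr : ∀ x y, x < y → r x < r y) (t : Gen Sp) :
    chi1 r i hr (rf Sp t) = if r t.1.2 = i then Multiplicative.ofAdd 1 else 1 :=
  (cM Sp).toCoxeterSystem.lift_apply_simple _ t

/-- the colouring homomorphism -/
def chi (r : R → ℕ) (n : ℕ) (hr : ∀ x y, x < y → r x < r y) :
    WG Sp →* (Fin (n + 1) → Multiplicative (ZMod 2)) :=
  MonoidHom.mk' (fun w i => chi1 r i.1 hr w) (by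
    intro a b
    funext i
    simp)

theorem chi_apply (r : R → ℕ) (n : ℕ) (hr : ∀ x y, x < y → r x < r y) (w : WG Sp)
    (i : Fin (n + 1)) : chi r n hr w i = chi1 r i.1 hr w := rfl

theorem chi_wordProd (r : R → ℕ) (i : ℕ) (hr : ∀ x y, x < y → r x < r y) (l : List (Gen Sp)) :
    chi1 r i hr ((cM Sp).toCoxeterSystem.wordProd l) =
      Multiplicative.ofAdd (((l.filter fun t => r t.1.2 = i).length : ZMod 2)) := by
  induction l with
  | nil => simp [CoxeterSystem.wordProd_nil]
  | cons a l ih =>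
    rw [CoxeterSystem.wordProd_cons, map_mul, ih]
    have e : chi1 r i hr ((cM Sp).toCoxeterSystem.simple a) =
      if r a.1.2 = i then Multiplicative.ofAdd 1 else 1 := chi1_rf r i hr a
    rw [e, List.filter_cons]
    split_ifs with h1 h2 h2
    · rw [← ofAdd_add]
      simp [add_comm]
    · simp [h1] at h2
    · simp [h1] at h2
    · simp

theorem mir_fst_eq (hSp : ∀ k ∈ Sp, ∀ x : R, ¬ x < k) {y : Cell Sp} {s t : Gen Sp}
    (hs : s ∈ mir Sp y) (ht : t ∈ mir Sp y) : s.1.1 = t.1.1 := by
  by_contra hne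
  rcases y.2.2.1 hs.1 ht.1 hne with h | h
  · exact hSp _ t.2.1 _ (lt_of_le_of_ne h hne)
  · exact hSp _ s.2.1 _ (lt_of_le_of_ne h (Ne.symm hne))

theorem cell_eq_of_r (r : R → ℕ) (hr : ∀ x y, x < y → r x < r y) {y : Cell Sp} {a b : R}
    (ha : a ∈ y.1) (hb : b ∈ y.1) (h : r a = r b) : a = b := by
  by_contra hne
  rcases y.2.2.1 ha hb hne with h1 | h1
  · exact absurd (hr _ _ (lt_of_le_of_ne h1 hne)) (by omega)
  · exact absurd (hr _ _ (lt_of_le_of_ne h1 (Ne.symm hne))) (by omega)

theorem chi_inj (r : R → ℕ) (n : ℕ) (hr : ∀ x y, x < y → r x < r y) (hn : ∀ x, r x ≤ n)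
    (hSp : ∀ k ∈ Sp, ∀ x : R, ¬ x < k) (y : Cell Sp) (u : WG Sp) (hu : u ∈ WP Sp y)
    (h : chi r n hr u = 1) : u = 1 := by
  obtain ⟨l, hl, hlT, rfl⟩ := racg_clique_elt (adj := Adj Sp) (hs := fun _ _ h => h.symm' Sp)
    (mir Sp y) (by
      intro s hs t ht hst
      have h1 := mir_fst_eq hSp hs ht
      refine ⟨h1, ?_⟩
      have h2 : s.1.2 ≠ t.1.2 := fun h2 => hst (Subtype.ext (Prod.ext h1 h2))
      rcases y.2.2.1 hs.2 ht.2 h2 with h3 | h3
      · exact Or.inl (lt_of_le_of_ne h3 h2)
      · exact Or.inr (lt_of_le_of_ne h3 (Ne.symm h2))) u hu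
  cases l with
  | nil => exact CoxeterSystem.wordProd_nil _
  | cons a l =>
    exfalso
    have h1 := congrFun h (⟨r a.1.2, Nat.lt_succ_of_le (hn _)⟩ : Fin (n + 1))
    have h2 : chi1 r (r a.1.2) hr ((cM Sp).toCoxeterSystem.wordProd (a :: l)) = 1 := h1
    rw [chi_wordProd] at h2
    have h3 : (List.filter (fun t : Gen Sp => decide (r t.1.2 = r a.1.2)) (a :: l)) = [a] := by
      rw [List.filter_cons]
      simp only [decide_true, if_true]
      congr 1
      rw [List.filter_eq_nil_iff]
      intro t ht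
      simp only [decide_eq_true_eq]
      intro h4
      have hta : t = a := by
        have m1 := hlT t (List.mem_cons_of_mem _ ht)
        have m2 := hlT a List.mem_cons_self
        exact Subtype.ext (Prod.ext (mir_fst_eq hSp m1 m2) (cell_eq_of_r r hr m1.2 m2.2 h4))
      subst hta
      exact (List.nodup_cons.1 hl).1 ht
    rw [h3] at h2
    revert h2
    simp only [List.length_singleton, Nat.cast_one]
    decide

/-- the colouring is invariant under `G` -/
theorem chi_hom (r : R → ℕ) (n : ℕ) (hr : ∀ x y, x < y → r x < r y) (hG : Act G Sp)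
    (hrG : ∀ (g : G) (x : R), r (g • x) = r x) (g : G) (w : WG Sp) :
    chi r n hr (hG.hom g w) = chi r n hr w := by
  have e : (chi r n hr).comp (hG.hom g) = chi r n hr := by
    apply (cM Sp).toCoxeterSystem.ext_simple
    intro s
    change chi r n hr (hG.hom g (rf Sp s)) = chi r n hr (rf Sp s)
    funext i
    rw [hG.hom_rf, chi_apply, chi_apply, chi1_rf, chi1_rf]
    simp only [Act.gen, hrG]
  exact DFunLike.congr_fun e w

/-- the colouring of the big group -/
def chiPi (r : R → ℕ) (n : ℕ) (hr : ∀ x y, x < y → r x < r y) (hG : Act G Sp)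
    (hrG : ∀ (g : G) (x : R), r (g • x) = r x) :
    hG.Pi →* (Fin (n + 1) → Multiplicative (ZMod 2)) :=
  SemidirectProduct.lift (chi r n hr) 1 (by
    intro g
    ext w i
    simp [chi_hom r n hr hG hrG])

theorem chiPi_apply (r : R → ℕ) (n : ℕ) (hr : ∀ x y, x < y → r x < r y) (hG : Act G Sp)
    (hrG : ∀ (g : G) (x : R), r (g • x) = r x) (γ : hG.Pi) :
    chiPi r n hr hG hrG γ = chi r n hr γ.left := by
  simp [chiPi, SemidirectProduct.lift]

/-- a cell contains a nonspecial element -/
theorem Cell.exists_nonspecial (hSp : ∀ k ∈ Sp, ∀ x : R, ¬ x < k) (y : Cell Sp) :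
    ∃ x ∈ y.1, x ∉ Sp := by
  by_contra hcon
  push Not at hcon
  obtain ⟨k, hk⟩ := y.2.1
  refine y.2.2.2 k (hcon k hk) ?_
  ext x
  rw [Finset.mem_singleton]
  constructor
  · intro hx
    by_contra hne
    rcases y.2.2.1 hx hk hne with h | h
    · exact hSp _ (hcon k hk) _ (lt_of_le_of_ne h hne)
    · exact hSp _ (hcon x hx) _ (lt_of_le_of_ne h (Ne.symm hne))
  · rintro rfl
    exact hk

theorem Orbi.free_big (O : Orbi n G R Sp) (γ : O.act.Pi)
    (hγ : chiPi O.r n O.r_lt O.act O.r_smul γ = 1) (a : Big Sp) (ha : γ • a = a) : γ = 1 := by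
  obtain ⟨w, hw⟩ := a.exists_mk
  rw [hw, O.act.smul_mk] at ha
  have hc := Big.mk'_fst ha
  set y := a.cell with hy
  rw [hc] at ha
  have hfix : ∀ x ∈ y.1, γ.right • x = x := by
    intro x hx
    have h1 : γ.right • x ∈ y.1 := by
      rw [← hc]
      exact (O.act.mem_cell _ _ _).2 hx
    exact cell_eq_of_r O.r O.r_lt h1 hx (O.r_smul _ _)
  obtain ⟨x, hx, hxs⟩ := Cell.exists_nonspecial O.Sp_min y
  have hg : γ.right = 1 := O.free _ x hxs (hfix x hx)
  rw [hg, O.act.hom_one, Big.mk'_eq] at ha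
  simp only [MonoidHom.id_apply] at ha
  have h1 : chi O.r n O.r_lt ((γ.left * w)⁻¹ * w) = 1 := by
    rw [chiPi_apply] at hγ
    rw [map_mul, map_inv, map_mul, hγ]
    simp
  have h2 := chi_inj O.r n O.r_lt O.r_le O.Sp_min y _ ha h1
  have h3 : γ.left = 1 := by
    rw [inv_mul_eq_one] at h2
    simpa using h2
  exact SemidirectProduct.ext h3 hg

end

end Pool.Agent.Helper59.PD
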