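import Mathlib

/-!
# Poincare duality complexes given by their universal covers

A finite complex `P` with fundamental group `π` and universal cover the order complex of a poset `X`
is described by the free cocompact action of `π` on `X`.
-/

set_option autoImplicit false

namespace Pool.Agent.Helper59.PDC

open Finsupp

universe u

noncomputable section

variable {X : Type} [PartialOrder X]

/-- the ordered `k`-simplices of the order complex of `X` -/
def IsSimplex (k : ℕ) (l : List X) : Prop := l.Pairwise (· < ·) ∧ l.length = k + 1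

/-- the `k`-chains with coefficients in `B` -/
def IsChainOf {B : Type u} [AddCommGroup B] (k : ℕ) (c : List X →₀ B) : Prop :=
  ∀ l, c l ≠ 0 → IsSimplex k l

/-- the simplicial boundary of a chain -/
def boundary {B : Type u} [AddCommGroup B] (c : List X →₀ B) : List X →₀ B :=
  c.sum fun l b => ∑ i ∈ Finset.range l.length, single (l.eraseIdx i) ((-1 : ℤ) ^ i • b)

/-- the simplicial coboundary of a function on simplices -/
def coboundary {B : Type u} [AddCommGroup B] (f : List X → B) (l : List X) : B :=
  ∑ i ∈ Finset.range l.length, (-1 : ℤ) ^ i • f (l.eraseIdx i)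

variable (π : Type) [Group π] [MulAction π X]

/-- the subgroup of the group of `k`-chains by which one has to divide in order to get the chains
`C_k(X) ⊗_π B`; here `act` is the action of `π` on `B` -/
def relations {B : Type u} [AddCommGroup B] (act : π → B → B) (k : ℕ) :
    AddSubgroup (List X →₀ B) :=
  AddSubgroup.closure {c | ∃ (g : π) (l : List X) (b : B), IsSimplex k l ∧
    c = single (l.map (g • ·)) (act g b) - single l b}

/-- the chain `c` represents a boundary in `C_k(X) ⊗_π B` -/
def IsBoundary {B : Type u} [AddCommGroup B] (act : π → B → B) (k : ℕ) (c : List X →₀ B) : Prop :=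
  ∃ e : List X →₀ B, IsChainOf (k + 1) e ∧ c - boundary e ∈ relations π act k

/-- the chain `c` represents a cycle of `C_*(X) ⊗_π B` -/
def IsCycle {B : Type u} [AddCommGroup B] (act : π → B → B) (k : ℕ) (c : List X →₀ B) : Prop :=
  IsChainOf k c ∧ (k ≠ 0 → boundary c ∈ relations π act (k - 1))

/-- the `k`-cochains of `Hom_π(C_*(X), B)` (only the values on `k`-simplices matter) -/
def IsCochain {B : Type u} [AddCommGroup B] [DistribMulAction π B] (k : ℕ) (f : List X → B) :
    Prop :=
  ∀ (g : π) (l : List X), IsSimplex k l → f (l.map (g • ·)) = g • f l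

/-- the `k`-cocycles -/
def IsCocycle {B : Type u} [AddCommGroup B] [DistribMulAction π B] (k : ℕ) (f : List X → B) :
    Prop :=
  IsCochain π k f ∧ ∀ l, IsSimplex (k + 1) l → coboundary f l = 0

/-- the `k`-coboundaries -/
def IsCoboundary {B : Type u} [AddCommGroup B] [DistribMulAction π B] (k : ℕ) (f : List X → B) :
    Prop :=
  (k = 0 ∧ ∀ l, IsSimplex 0 l → f l = 0) ∨
  ∃ j g, k = j + 1 ∧ IsCochain π j g ∧ ∀ l, IsSimplex k l → f l = coboundary g l

/-- the cap product of the chain `z` with a `k`-cochain: a simplex `[x_0, …, x_n]` is sent to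
`[x_k, …, x_n] ⊗ f [x_0, …, x_k]` -/
def cap {B : Type u} [AddCommGroup B] (z : List X →₀ ℤ) (k : ℕ) (f : List X → B) :
    List X →₀ B :=
  z.sum fun l m => single (l.drop k) (m • f (l.take (k + 1)))

/-- the chain `z` represents a class of `H_n(C_*(X) ⊗_π ℤ)` such that the cap product with it is an
isomorphism `H^k(Hom_π(C_*(X), B)) → H_{n-k}(C_*(X) ⊗_π B)` for every `ℤ[π]`-module `B` and all
`k` -/
def IsFundamental (n : ℕ) (z : List X →₀ ℤ) : Prop :=
  IsCycle π (fun _ b => b) n z ∧
  ∀ (B : Type u) [AddCommGroup B] [DistribMulAction π B] (k : ℕ), k ≤ n →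
    (∀ f : List X → B, IsCocycle π k f →
      (IsBoundary π (fun g b => g • b) (n - k) (cap z k f) ↔ IsCoboundary π k f)) ∧
    (∀ c : List X →₀ B, IsCycle π (fun g b => g • b) (n - k) c →
      ∃ f : List X → B, IsCocycle π k f ∧
        IsBoundary π (fun g b => g • b) (n - k) (c - cap z k f))

end

/-- an edge path: consecutive vertices are comparable -/
def IsPath {X : Type} [PartialOrder X] (l : List X) : Prop :=
  l.IsChain fun x y => x ≤ y ∨ y ≤ x

/-- elementary homotopies of edge paths: a vertex `y` between `x` and `z` may be left out if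
`{x, y, z}` is a chain -/
inductive Move {X : Type} [PartialOrder X] : List X → List X → Prop
  | triangle (u v : List X) (x y z : X) (h : IsChain (· ≤ ·) ({x, y, z} : Set X)) :
      Move (u ++ [x, y, z] ++ v) (u ++ [x, z] ++ v)
  | stay (u v : List X) (x : X) : Move (u ++ [x, x] ++ v) (u ++ [x] ++ v)

/-- the order complex of `X` is connected and its edge path group is trivial -/
def SimplyConnected (X : Type) [PartialOrder X] : Prop :=
  Nonempty X ∧ (∀ x y : X, ∃ l, IsPath (x :: l ++ [y])) ∧
  ∀ (x : X) (l : List X), IsPath (x :: l ++ [x]) → Relation.EqvGen Move (x :: l ++ [x]) [x]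

/-- `P = |X| / π` is a finite, orientable `PD_n`-complex with fundamental group `π`, whose universal
cover `|X|` is `(n-2)`-connected -/
structure IsPDCover (n : ℕ) (π X : Type) [Group π] [PartialOrder X] [MulAction π X] : Prop where
  /-- `π` acts by order automorphisms -/
  mono : ∀ (g : π) (x y : X), x < y → g • x < g • y
  /-- the action is free -/
  free : ∀ (g : π) (x : X), g • x = x → g = 1
  /-- there are finitely many orbits of simplices -/
  cofinite : ∃ T : Set (List X), T.Finite ∧ ∀ k l, IsSimplex k l → ∃ g : π, l.map (g • ·) ∈ T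
  /-- the dimension is at most `n` -/
  dim : ∀ k (l : List X), IsSimplex k l → k ≤ n
  /-- the universal cover is simply connected -/
  sc : SimplyConnected X
  /-- its integral homology vanishes in degrees `1, …, n - 2` -/
  van : ∀ k, 1 ≤ k → k ≤ n - 2 → ∀ c : List X →₀ ℤ, IsChainOf k c → boundary c = 0 →
    ∃ e : List X →₀ ℤ, IsChainOf (k + 1) e ∧ boundary e = c
  /-- Poincare duality -/
  pd : ∃ z : List X →₀ ℤ, IsFundamental.{u} π n z

end Pool.Agent.Helper59.PDC
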