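import Pool.Agent.Helper59.PD.Base
import Pool.Agent.Helper59.PD.Final

/-! Comparison of the internal notions with those of the final statement. -/

set_option autoImplicit false

namespace Pool.Agent.Helper59.PD

open Pool.Agent.Helper59.PDC

theorem boundary_list {X : Type} (l : List X) (b : ℤ) :
    ∑ i ∈ Finset.range l.length, Finsupp.single (l.eraseIdx i) ((-1 : ℤ) ^ i • b) = b • dl l := by
  induction l with
  | nil => simp [dl]
  | cons a l ih =>
    rw [List.length_cons, Finset.sum_range_succ']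
    have h1 : ∑ i ∈ Finset.range l.length,
        Finsupp.single ((a :: l).eraseIdx (i + 1)) ((-1 : ℤ) ^ (i + 1) • b) =
        - consL a (∑ i ∈ Finset.range l.length,
          Finsupp.single (l.eraseIdx i) ((-1 : ℤ) ^ i • b)) := by
      rw [map_sum, ← Finset.sum_neg_distrib]
      apply Finset.sum_congr rfl
      intro i _
      rw [List.eraseIdx_cons_succ, consL, Finsupp.lmapDomain_apply, Finsupp.mapDomain_single,
        ← Finsupp.single_neg, pow_succ]
      congr 1
      simp
    rw [h1, ih, dl, smul_sub, map_smul]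
    simp
    abel

theorem boundary_eq_d {X : Type} (c : Ch X) : boundary c = d c := by
  unfold boundary d
  rw [Finsupp.linearCombination_apply]
  unfold Finsupp.sum
  apply Finset.sum_congr rfl
  intro l _
  exact boundary_list l (c l)

theorem mem_CC_of_isChainOf {X : Type} [PartialOrder X] {k : ℕ} {c : List X →₀ ℤ}
    (hc : IsChainOf k c) : c ∈ CC (Set.univ : Set X) (k + 1) := by
  rw [CC, Finsupp.mem_supported]
  intro l hl
  have := hc l (Finsupp.mem_support_iff.1 hl)
  exact ⟨this.1, fun _ _ => Set.mem_univ _, this.2⟩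

theorem isChainOf_of_mem_CC {X : Type} [PartialOrder X] {k : ℕ} {c : List X →₀ ℤ}
    (hc : c ∈ CC (Set.univ : Set X) (k + 1)) : IsChainOf k c := by
  rw [CC, Finsupp.mem_supported] at hc
  intro l hl
  have := hc (Finsupp.mem_support_iff.2 hl)
  exact ⟨this.1, this.2.2⟩

theorem van_of_hvan {X : Type} [PartialOrder X] (k : ℕ) (h : Hvan (Set.univ : Set X) (k + 1)) :
    ∀ c : List X →₀ ℤ, IsChainOf k c → boundary c = 0 →
    ∃ e : List X →₀ ℤ, IsChainOf (k + 1) e ∧ boundary e = c := by
  intro c hc hb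
  obtain ⟨e, he, hd⟩ := h c (mem_CC_of_isChainOf hc) (by rw [← boundary_eq_d]; exact hb)
  exact ⟨e, isChainOf_of_mem_CC he, by rw [boundary_eq_d]; exact hd⟩

/-! ### the edge path group -/

section paths

variable {X : Type} [PartialOrder X]

/-- homotopy of edge paths -/
def R (p q : List X) : Prop := Relation.EqvGen Move p q

theorem R.refl (p : List X) : R p p := Relation.EqvGen.refl p
theorem R.symm {p q : List X} (h : R p q) : R q p := Relation.EqvGen.symm _ _ h
theorem R.trans {p q r : List X} (h : R p q) (h' : R q r) : R p r :=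
  Relation.EqvGen.trans _ _ _ h h'

theorem move_congr (a b : List X) {p q : List X} (h : Move p q) :
    Move (a ++ p ++ b) (a ++ q ++ b) := by
  cases h with
  | triangle u v x y z h =>
    have := Move.triangle (a ++ u) (v ++ b) x y z h
    simpa [List.append_assoc] using this
  | stay u v x =>
    have := Move.stay (a ++ u) (v ++ b) x
    simpa [List.append_assoc] using this

theorem R.congr (a b : List X) {p q : List X} (h : R p q) : R (a ++ p ++ b) (a ++ q ++ b) := by
  induction h with
  | rel p q h => exact Relation.EqvGen.rel _ _ (move_congr a b h)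
  | refl p => exact R.refl _
  | symm p q _ ih => exact ih.symm
  | trans p q r _ _ ih ih' => exact ih.trans ih'

theorem move_reverse {p q : List X} (h : Move p q) : Move p.reverse q.reverse := by
  cases h with
  | triangle u v x y z h =>
    have h' : IsChain (· ≤ ·) ({z, y, x} : Set X) := by
      have : ({z, y, x} : Set X) = {x, y, z} := by
        ext t
        simp only [Set.mem_insert_iff, Set.mem_singleton_iff]
        tauto
      rw [this]
      exact h
    have := Move.triangle v.reverse u.reverse z y x h'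
    simpa [List.append_assoc] using this
  | stay u v x =>
    have := Move.stay v.reverse u.reverse x
    simpa [List.append_assoc] using this

theorem R.reverse {p q : List X} (h : R p q) : R p.reverse q.reverse := by
  induction h with
  | rel p q h => exact Relation.EqvGen.rel _ _ (move_reverse h)
  | refl p => exact R.refl _
  | symm p q _ ih => exact ih.symm
  | trans p q r _ _ ih ih' => exact ih.trans ih'

theorem R.stay (u v : List X) (x : X) : R (u ++ [x, x] ++ v) (u ++ [x] ++ v) :=
  Relation.EqvGen.rel _ _ (Move.stay u v x)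

theorem R.triangle (u v : List X) (x y z : X) (h : IsChain (· ≤ ·) ({x, y, z} : Set X)) :
    R (u ++ [x, y, z] ++ v) (u ++ [x, z] ++ v) :=
  Relation.EqvGen.rel _ _ (Move.triangle u v x y z h)

theorem chain_aca {a c : X} (h : a ≤ c ∨ c ≤ a) : IsChain (· ≤ ·) ({a, c, a} : Set X) := by
  intro s hs t ht _
  simp only [Set.mem_insert_iff, Set.mem_singleton_iff] at hs ht
  rcases hs with rfl | rfl | rfl <;> rcases ht with rfl | rfl | rfl <;> tauto

theorem isPath_tail {a : X} {l : List X} (h : IsPath (a :: l)) : IsPath l := by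
  unfold IsPath at h ⊢
  exact h.tail

theorem isPath_reverse {l : List X} (h : IsPath l) : IsPath l.reverse := by
  unfold IsPath at h ⊢
  rw [List.isChain_reverse]
  exact h.imp fun x y hxy => hxy.symm

/-- a path followed by its inverse -/
theorem R.back {a : X} {l : List X} (h : IsPath (a :: l)) :
    R ((a :: l) ++ (a :: l).reverse) [a] := by
  induction l generalizing a with
  | nil => simpa using R.stay [] [] a
  | cons c l ih =>
    have h1 := ih (isPath_tail h)
    have h2 := R.congr [a] [a] h1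
    have hac : a ≤ c ∨ c ≤ a := by
      unfold IsPath at h
      simp only [List.isChain_cons_cons] at h
      exact h.1
    have h3 := R.triangle [] [] a c a (chain_aca hac)
    have h4 := R.stay [] [] a
    have h5 : (a :: c :: l) ++ (a :: c :: l).reverse =
        [a] ++ ((c :: l) ++ (c :: l).reverse) ++ [a] := by simp
    rw [h5]
    refine h2.trans ?_
    simpa using h3.trans h4

/-- the path `c, γ⁻¹, x₀, γ, c` is trivial -/
theorem R.around {x₀ c : X} {γ : List X} (h : IsPath (x₀ :: (γ ++ [c]))) :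
    R ([c] ++ γ.reverse ++ [x₀] ++ γ ++ [c]) [c] := by
  have h1 : IsPath (c :: (γ.reverse ++ [x₀])) := by
    have := isPath_reverse h
    simpa using this
  have h2 := R.back h1
  have h3 := R.stay ([c] ++ γ.reverse) (γ ++ [c]) x₀
  have h4 : ([c] ++ γ.reverse) ++ [x₀, x₀] ++ (γ ++ [c]) =
      (c :: (γ.reverse ++ [x₀])) ++ (c :: (γ.reverse ++ [x₀])).reverse := by simp
  have h5 : ([c] ++ γ.reverse) ++ [x₀] ++ (γ ++ [c]) =
      [c] ++ γ.reverse ++ [x₀] ++ γ ++ [c] := by simp
  rw [h4, h5] at h3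
  exact h3.symm.trans h2

/-- closed edge paths at `x₀`, without the end points -/
def Loop (x₀ : X) : Type := {l : List X // IsPath (x₀ :: (l ++ [x₀]))}

/-- homotopy of closed edge paths -/
instance loopSetoid (x₀ : X) : Setoid (Loop x₀) where
  r l m := R (x₀ :: (l.1 ++ [x₀])) (x₀ :: (m.1 ++ [x₀]))
  iseqv := ⟨fun _ => R.refl _, fun h => h.symm, fun h h' => h.trans h'⟩

theorem isPath_join {a b c : X} {l m : List X} (hl : IsPath (a :: (l ++ [b])))
    (hm : IsPath (b :: (m ++ [c]))) : IsPath (a :: ((l ++ [b] ++ m) ++ [c])) := by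
  unfold IsPath at *
  have h1 : a :: ((l ++ [b] ++ m) ++ [c]) = (a :: (l ++ [b])) ++ (m ++ [c]) := by simp
  rw [h1, List.isChain_append]
  refine ⟨hl, hm.tail, ?_⟩
  intro x hx y hy
  have hx' : x = b := by
    have : (a :: (l ++ [b])).getLast? = some b := by
      rw [← List.cons_append, List.getLast?_append]
      simp
    rw [this] at hx
    exact (Option.mem_some_iff.1 hx).symm
  subst hx'
  rw [← List.singleton_append, List.isChain_append] at hm
  exact hm.2.2 x (by simp) y hy

/-- concatenation of closed paths -/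
def loopMul {x₀ : X} (l m : Loop x₀) : Loop x₀ := ⟨l.1 ++ [x₀] ++ m.1, isPath_join l.2 m.2⟩

/-- the inverse path -/
def loopInv {x₀ : X} (l : Loop x₀) : Loop x₀ :=
  ⟨l.1.reverse, by
    have := isPath_reverse l.2
    simpa using this⟩

/-- the trivial path -/
def loopOne (x₀ : X) : Loop x₀ := ⟨[], by simp [IsPath]⟩

/-- the edge path group -/
def Pi1 (x₀ : X) : Type := Quotient (loopSetoid x₀)

instance (x₀ : X) : Group (Pi1 x₀) where
  mul := Quotient.map₂ loopMul (by
    intro l l' h m m' h'
    have h1 := R.congr [] (m.1 ++ [x₀]) (show R (x₀ :: (l.1 ++ [x₀])) (x₀ :: (l'.1 ++ [x₀])) from h)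
    have h2 := R.congr (x₀ :: l'.1) [] (show R (x₀ :: (m.1 ++ [x₀])) (x₀ :: (m'.1 ++ [x₀])) from h')
    show R (x₀ :: ((l.1 ++ [x₀] ++ m.1) ++ [x₀])) (x₀ :: ((l'.1 ++ [x₀] ++ m'.1) ++ [x₀]))
    have h3 := R.trans h1 (by simpa using h2)
    simpa using h3)
  one := Quotient.mk _ (loopOne x₀)
  inv := Quotient.map loopInv (by
    intro l l' h
    show R (x₀ :: (l.1.reverse ++ [x₀])) (x₀ :: (l'.1.reverse ++ [x₀]))
    have := R.reverse (show R (x₀ :: (l.1 ++ [x₀])) (x₀ :: (l'.1 ++ [x₀])) from h)
    simpa using this)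
  mul_assoc := by
    rintro ⟨a⟩ ⟨b⟩ ⟨c⟩
    apply Quotient.sound
    show R _ _
    simp only [loopMul]
    simpa using R.refl _
  one_mul := by
    rintro ⟨a⟩
    apply Quotient.sound
    show R (x₀ :: (([] ++ [x₀] ++ a.1) ++ [x₀])) (x₀ :: (a.1 ++ [x₀]))
    have := R.stay [] (a.1 ++ [x₀]) x₀
    simpa using this
  mul_one := by
    rintro ⟨a⟩
    apply Quotient.sound
    show R (x₀ :: ((a.1 ++ [x₀] ++ []) ++ [x₀])) (x₀ :: (a.1 ++ [x₀]))
    have := R.stay (x₀ :: a.1) [] x₀
    simpa using this
  inv_mul_cancel := by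
    rintro ⟨a⟩
    apply Quotient.sound
    show R (x₀ :: ((a.1.reverse ++ [x₀] ++ a.1) ++ [x₀])) (x₀ :: ([] ++ [x₀]))
    have h1 := R.around a.2
    have h2 := R.stay [] [] x₀
    refine R.trans ?_ (by simpa using h2.symm)
    simpa using h1

/-- the class of a closed path -/
def cls {x₀ : X} (l : Loop x₀) : Pi1 x₀ := Quotient.mk (loopSetoid x₀) l

theorem cls_mul {x₀ : X} (l m : Loop x₀) : cls l * cls m = cls (loopMul l m) := rfl

theorem cls_inv {x₀ : X} (l : Loop x₀) : (cls l)⁻¹ = cls (loopInv l) := rfl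

theorem cls_one {x₀ : X} : (1 : Pi1 x₀) = cls (loopOne x₀) := rfl

theorem cls_eq_iff {x₀ : X} (l m : Loop x₀) :
    cls l = cls m ↔ R (x₀ :: (l.1 ++ [x₀])) (x₀ :: (m.1 ++ [x₀])) :=
  Quotient.eq (r := loopSetoid x₀)

theorem exists_path_of_conn (hc : Conn (Set.univ : Set X)) (x y : X) :
    ∃ l, IsPath (x :: (l ++ [y])) := by
  have h := hc.2 (fun z => ∃ l, IsPath (x :: (l ++ [z]))) (by
    have key : ∀ a b : X, (a ≤ b ∨ b ≤ a) → (∃ l, IsPath (x :: (l ++ [a]))) →
        ∃ l, IsPath (x :: (l ++ [b])) := by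
      rintro a b hab ⟨l, hl⟩
      refine ⟨l ++ [a], ?_⟩
      have h2 : IsPath (a :: ([] ++ [b])) := by simpa [IsPath] using hab
      simpa using isPath_join hl h2
    intro a _ b _ hab
    exact ⟨key a b (Or.inl hab.le), key b a (Or.inr hab.le)⟩) x (Set.mem_univ x) y (Set.mem_univ y)
  exact h.1 ⟨[], by simp [IsPath]⟩

/-- loop obtained from a path between `a` and `b` and chosen paths `γ a`, `γ b` from the base point -/
def lp {x₀ : X} (γ : X → List X) (hγ : ∀ x, IsPath (x₀ :: (γ x ++ [x]))) {a b : X} (l : List X)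
    (h : IsPath (a :: (l ++ [b]))) : Loop x₀ :=
  ⟨γ a ++ [a] ++ (l ++ [b] ++ (γ b).reverse), by
    have h1 : IsPath (b :: ((γ b).reverse ++ [x₀])) := by
      have := isPath_reverse (hγ b)
      simpa using this
    exact isPath_join (hγ a) (isPath_join h h1)⟩

theorem lp_mul {x₀ : X} (γ : X → List X) (hγ : ∀ x, IsPath (x₀ :: (γ x ++ [x]))) {a b c : X}
    (l m : List X) (hl : IsPath (a :: (l ++ [b]))) (hm : IsPath (b :: (m ++ [c]))) :
    cls (lp γ hγ l hl) * cls (lp γ hγ m hm) =
      cls (lp γ hγ (l ++ [b] ++ m) (isPath_join hl hm)) := by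
  rw [cls_mul, cls_eq_iff]
  have h1 := R.congr (x₀ :: (γ a ++ [a] ++ l)) (m ++ [c] ++ (γ c).reverse ++ [x₀])
    (R.around (hγ b))
  simpa [lp, loopMul] using h1

theorem lp_refl {x₀ : X} (γ : X → List X) (hγ : ∀ x, IsPath (x₀ :: (γ x ++ [x]))) (a : X)
    (h : IsPath (a :: ([] ++ [a]))) : cls (lp γ hγ [] h) = 1 := by
  have h1 := lp_mul γ hγ [] [] h h
  have h2 : cls (lp γ hγ ([] ++ [a] ++ []) (isPath_join h h)) = cls (lp γ hγ [] h) := by
    rw [cls_eq_iff]
    have := R.stay (x₀ :: (γ a ++ [a])) ((γ a).reverse ++ [x₀]) a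
    simpa [lp] using this
  rw [h2] at h1
  exact mul_eq_left.1 h1

theorem cmp_of_le {a b : X} (h : a ≤ b) : IsPath (a :: ([] ++ [b])) := by
  simpa [IsPath] using Or.inl h

theorem cmp_of_ge {a b : X} (h : b ≤ a) : IsPath (a :: ([] ++ [b])) := by
  simpa [IsPath] using Or.inr h

theorem lp_triangle {x₀ : X} (γ : X → List X) (hγ : ∀ x, IsPath (x₀ :: (γ x ++ [x]))) {a b c : X}
    (hab : a ≤ b) (hbc : b ≤ c) :
    cls (lp γ hγ [] (cmp_of_le hab)) * cls (lp γ hγ [] (cmp_of_le hbc)) =
      cls (lp γ hγ [] (cmp_of_le (hab.trans hbc))) := by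
  rw [lp_mul, cls_eq_iff]
  have hc : IsChain (· ≤ ·) ({a, b, c} : Set X) := by
    intro s hs t ht _
    have hac := hab.trans hbc
    simp only [Set.mem_insert_iff, Set.mem_singleton_iff] at hs ht
    rcases hs with rfl | rfl | rfl <;> rcases ht with rfl | rfl | rfl <;> tauto
  have := R.triangle (x₀ :: γ a) ((γ c).reverse ++ [x₀]) a b c hc
  simpa [lp] using this

theorem simplyConnected_of_sc (h : SC (Set.univ : Set X)) : SimplyConnected X := by
  classical
  obtain ⟨hc, hsc⟩ := h
  refine ⟨hc.1.nonempty.map id, fun x y => ?_, ?_⟩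
  · obtain ⟨l, hl⟩ := exists_path_of_conn hc x y
    exact ⟨l, by simpa using hl⟩
  intro x₀ l hl
  choose γ hγ using fun y => exists_path_of_conn hc x₀ y
  set f : X → X → Pi1 x₀ := fun a b =>
    if hab : a ≤ b then cls (lp γ hγ [] (cmp_of_le hab)) else 1 with hf
  have hco : Cocyc (Set.univ : Set X) f := by
    intro a _ b _ c _ hab hbc
    simp only [hf, dif_pos hab.le, dif_pos hbc.le, dif_pos (hab.trans hbc).le]
    exact (lp_triangle γ hγ hab.le hbc.le).symm
  obtain ⟨g, hg⟩ := hsc (Pi1 x₀) f hco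
  have hg1 : ∀ a b : X, ∀ hab : a ≤ b, g b = g a * cls (lp γ hγ [] (cmp_of_le hab)) := by
    intro a b hab
    rcases hab.eq_or_lt with hab' | hab'
    · subst hab'
      rw [lp_refl, mul_one]
    · rw [hg a (Set.mem_univ a) b (Set.mem_univ b) hab']
      simp only [hf, dif_pos hab]
  have hg2 : ∀ a b : X, ∀ hab : IsPath (a :: ([] ++ [b])), g b = g a * cls (lp γ hγ [] hab) := by
    intro a b hab
    have hab' : a ≤ b ∨ b ≤ a := by simpa [IsPath] using hab
    rcases hab' with h | h
    · exact hg1 a b h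
    · have h1 := hg1 b a h
      have h2 := lp_mul γ hγ [] [] (cmp_of_le h) hab
      have h3 : cls (lp γ hγ ([] ++ [a] ++ []) (isPath_join (cmp_of_le h) hab)) = 1 := by
        rw [← lp_refl γ hγ b (cmp_of_le le_rfl), cls_eq_iff]
        have := R.triangle (x₀ :: γ b) ((γ b).reverse ++ [x₀]) b a b (chain_aca (Or.inl h))
        simpa [lp] using this
      rw [h1, mul_assoc, h2, h3, mul_one]
  have hg3 : ∀ (l : List X) (a b : X) (h : IsPath (a :: (l ++ [b]))),
      g b = g a * cls (lp γ hγ l h) := by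
    intro l
    induction l with
    | nil => exact hg2
    | cons c l ih =>
      intro a b h
      have hca : IsPath (a :: ([] ++ [c])) := by
        unfold IsPath at h ⊢
        simp only [List.cons_append, List.isChain_cons_cons] at h
        simpa using h.1
      have hcb : IsPath (c :: (l ++ [b])) := isPath_tail h
      rw [ih c b hcb, hg2 a c hca, mul_assoc, lp_mul]
      rfl
  have hl' : IsPath (x₀ :: (l ++ [x₀])) := by simpa using hl
  have h1 := hg3 l x₀ x₀ hl'
  have h2 : cls (lp γ hγ l hl') = 1 := (mul_eq_left.1 h1.symm)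
  rw [cls_one, cls_eq_iff] at h2
  set c := γ x₀ with hcdef
  have h3 : R (x₀ :: (c ++ [x₀] ++ (l ++ [x₀] ++ c.reverse) ++ [x₀])) [x₀] := by
    refine R.trans h2 ?_
    simpa [loopOne] using R.stay [] [] x₀
  -- conjugate by the path `c`
  have h4 := R.congr ([x₀] ++ c.reverse) (c ++ [x₀]) h3
  have h5 : R ([x₀] ++ c.reverse ++ [x₀] ++ (c ++ [x₀])) [x₀] := by
    simpa using R.around (hγ x₀)
  have h6 := R.congr [] (l ++ [x₀] ++ c.reverse ++ [x₀] ++ c ++ [x₀]) (R.around (hγ x₀))
  have h7 := R.congr (x₀ :: l) [] (R.around (hγ x₀))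
  have h8 : R (x₀ :: (l ++ [x₀])) (x₀ :: (l ++ [x₀] ++ c.reverse ++ [x₀] ++ c ++ [x₀])) := by
    refine R.symm ?_
    simpa using h7
  have h9 : R (x₀ :: (l ++ [x₀])) [x₀] := by
    refine h8.trans ?_
    refine R.trans ?_ h5
    refine R.trans ?_ h4
    refine R.symm ?_
    simpa using h6
  exact h9

end paths

end Pool.Agent.Helper59.PD
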