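import Pool.Agent.Helper59.PD.Ori_Alt

/-! Existence and uniqueness of orientations. -/

set_option autoImplicit false

namespace Pool.Agent.Helper59.PD

noncomputable section

variable {n : ℕ} {X : Type} [PartialOrder X]

namespace Ori

/-- full flags of the interval -/
def fl (H : HM n X) (a b : Option X) : Set (List X) := cs (Iv a b) (hr H b - lr H a)

/-- functions on full flags which change sign under flips -/
def Alt (H : HM n X) (a b : Option X) (f : List X → ℤ) : Prop :=
  AltOn (Iv a b) (hr H b - lr H a) f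

theorem fl_univ (H : HM n X) : fl H none none = cs Set.univ (n + 1) := by
  unfold fl
  rw [Iv_none_none]
  rfl

theorem fl_Iio (H : HM n X) (x : X) : fl H none (some x) = cs (Set.Iio x) (H.rk x) := by
  unfold fl
  rw [Iv_none_some]
  rfl

theorem fl_Ioi (H : HM n X) (x : X) : fl H (some x) none = cs (Set.Ioi x) (n - H.rk x) := by
  unfold fl
  rw [Iv_some_none]
  have : hr H none - lr H (some x) = n - H.rk x := by simp [hr, lr]
  rw [this]

theorem fl_join (H : HM n X) {a b : Option X} {y : X} {u w : List X} (hy : y ∈ Iv a b)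
    (hu : u ∈ fl H a (some y)) (hw : w ∈ fl H (some y) b) : (u ++ y :: w) ∈ fl H a b :=
  join_flag H hy hu hw

theorem fl_split (H : HM n X) {a b : Option X} (hc : Cmp a b) {y : X} {u w : List X}
    (h : (u ++ y :: w) ∈ fl H a b) :
    y ∈ Iv a b ∧ u ∈ fl H a (some y) ∧ w ∈ fl H (some y) b := by
  have hle := lr_le H hc
  obtain ⟨h1, h2, h3, -⟩ := split_flag H (by omega) h
  exact ⟨h1, h2, h3⟩

theorem cmp_none_left (b : Option X) : Cmp none b := by intro x hx; simp at hx

theorem cmp_none_right (a : Option X) : Cmp a none := by intro x _ y hy; simp at hy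

theorem cmp_some {x y : X} (h : x < y) : Cmp (some x) (some y) := by
  intro a ha b hb
  simp only [Option.mem_def, Option.some.injEq] at ha hb
  subst ha hb
  exact h

theorem mem_Iv_none (x : X) : x ∈ Iv (none : Option X) none := by simp [Iv]

theorem mem_Iv_none_some {x y : X} (h : x < y) : x ∈ Iv none (some y) := by simpa [Iv] using h

theorem mem_Iv_some_none {x y : X} (h : x < y) : y ∈ Iv (some x) none := by simpa [Iv] using h

theorem fl_nonempty (H : HM n X) {a b : Option X} (hc : Cmp a b) (hne : a ≠ none ∨ b ≠ none) :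
    (fl H a b).Nonempty := by
  obtain ⟨z, _, _, _, h, _⟩ := exists_gen H hc hne
  exact h

theorem slice_left (H : HM n X) {a b : Option X} {f : List X → ℤ} (h : Alt H a b f) {y : X}
    (hy : y ∈ Iv a b) {s : List X} (hs : s ∈ fl H (some y) b) :
    Alt H a (some y) (fun μ => f (μ ++ y :: s)) := by
  intro u w p q hpq hp hq
  have h1 := fl_join H hy hp hs
  have h2 := fl_join H hy hq hs
  simp only [List.append_assoc, List.cons_append] at h1 h2 ⊢
  exact h u (w ++ y :: s) p q hpq h1 h2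

theorem slice_right (H : HM n X) {a b : Option X} {f : List X → ℤ} (h : Alt H a b f) {y : X}
    (hy : y ∈ Iv a b) {r : List X} (hr : r ∈ fl H a (some y)) :
    Alt H (some y) b (fun ν => f (r ++ y :: ν)) := by
  intro u w p q hpq hp hq
  have h1 := fl_join H hy hr hp
  have h2 := fl_join H hy hr hq
  have e : ∀ t, r ++ y :: (u ++ t :: w) = (r ++ y :: u) ++ t :: w := by simp
  simp only [e] at h1 h2 ⊢
  exact h _ w p q hpq h1 h2

theorem alt_const (H : HM n X) {a b : Option X} (hc : Cmp a b) (hne : a ≠ none ∨ b ≠ none)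
    {f g : List X → ℤ} (hf : Alt H a b f) (hg : Alt H a b g)
    {l l' : List X} (hl : l ∈ fl H a b) (hl' : l' ∈ fl H a b) : f l * g l = f l' * g l' := by
  have hle := lr_le H hc
  exact alt_unique H hc hne (by omega) hf hg hl hl'

/-- local orientations -/
def OriAt (H : HM n X) (x : X) (ξ : List X → ℤ) : Prop :=
  (∀ a ∈ fl H none (some x), ∀ b ∈ fl H (some x) none,
    ξ (a ++ x :: b) = 1 ∨ ξ (a ++ x :: b) = -1) ∧
  (∀ b ∈ fl H (some x) none, Alt H none (some x) (fun a => ξ (a ++ x :: b))) ∧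
  (∀ a ∈ fl H none (some x), Alt H (some x) none (fun b => ξ (a ++ x :: b)))

theorem mul_self_of {t : ℤ} (h : t = 1 ∨ t = -1) : t * t = 1 := by
  rcases h with rfl | rfl <;> rfl

theorem mul_of {s t : ℤ} (hs : s = 1 ∨ s = -1) (ht : t = 1 ∨ t = -1) : s * t = 1 ∨ s * t = -1 := by
  rcases hs with rfl | rfl <;> rcases ht with rfl | rfl <;> simp

theorem gen_lower (H : HM n X) (x : X) : ∃ z ∈ CC (Set.Iio x) (H.rk x), d z = 0 ∧
    (∀ l ∈ cs (Set.Iio x) (H.rk x), z l = 1 ∨ z l = -1) ∧ Alt H none (some x) z := by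
  have hc : Cmp none (some x) := cmp_none_left _
  obtain ⟨z, h1, h2, h3, -, -⟩ := exists_gen H hc (Or.inr (by simp))
  have halt : Alt H none (some x) z :=
    alt_of_cycle H hc (Or.inr (by simp)) (by have := lr_le H hc; omega) h1 h2
  have e : cs (Iv none (some x)) (hr H (some x) - lr H none) = cs (Set.Iio x) (H.rk x) :=
    fl_Iio H x
  rw [e] at h3
  have e2 : CC (Iv none (some x)) (hr H (some x) - lr H none) = CC (Set.Iio x) (H.rk x) := by
    unfold CC
    rw [e]
  rw [e2] at h1
  exact ⟨z, h1, h2, h3, halt⟩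

theorem gen_upper (H : HM n X) (x : X) : ∃ z ∈ CC (Set.Ioi x) (n - H.rk x), d z = 0 ∧
    (∀ l ∈ cs (Set.Ioi x) (n - H.rk x), z l = 1 ∨ z l = -1) ∧ Alt H (some x) none z := by
  have hc : Cmp (some x) none := cmp_none_right _
  obtain ⟨z, h1, h2, h3, -, -⟩ := exists_gen H hc (Or.inl (by simp))
  have halt : Alt H (some x) none z :=
    alt_of_cycle H hc (Or.inl (by simp)) (by have := lr_le H hc; omega) h1 h2
  have e : cs (Iv (some x) none) (hr H none - lr H (some x)) = cs (Set.Ioi x) (n - H.rk x) :=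
    fl_Ioi H x
  rw [e] at h3
  have e2 : CC (Iv (some x) none) (hr H none - lr H (some x)) = CC (Set.Ioi x) (n - H.rk x) := by
    unfold CC
    rw [e]
  rw [e2] at h1
  exact ⟨z, h1, h2, h3, halt⟩

/-- local orientations are unique up to sign -/
theorem oriAt_const (H : HM n X) {x : X} {ξ ξ' : List X → ℤ} (h : OriAt H x ξ)
    (h' : OriAt H x ξ') {a a' b b' : List X} (ha : a ∈ fl H none (some x))
    (ha' : a' ∈ fl H none (some x)) (hb : b ∈ fl H (some x) none) (hb' : b' ∈ fl H (some x) none) :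
    ξ (a ++ x :: b) * ξ' (a ++ x :: b) = ξ (a' ++ x :: b') * ξ' (a' ++ x :: b') := by
  rw [alt_const H (cmp_none_left _) (Or.inr (by simp)) (h.2.1 b hb) (h'.2.1 b hb) ha ha']
  exact alt_const H (cmp_none_right _) (Or.inl (by simp)) (h.2.2 a' ha') (h'.2.2 a' ha') hb hb'

theorem isOri_iff (H : HM n X) {ξ : List X → ℤ} : IsOri H ξ ↔ ∀ x, OriAt H x ξ := by
  constructor
  · intro h x
    obtain ⟨ξm, hm, ξp, hp, dm, dp, vm, vp, hξ⟩ := h x
    have hcl : Cmp none (some x) := cmp_none_left _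
    have hcr : Cmp (some x) none := cmp_none_right _
    have e : cs (Iv none (some x)) (hr H (some x) - lr H none) = cs (Set.Iio x) (H.rk x) :=
      fl_Iio H x
    have e' : cs (Iv (some x) none) (hr H none - lr H (some x)) = cs (Set.Ioi x) (n - H.rk x) :=
      fl_Ioi H x
    have am : Alt H none (some x) ξm := by
      refine alt_of_cycle H hcl (Or.inr (by simp)) (by have := lr_le H hcl; omega) ?_ dm
      unfold CC
      rw [e]
      exact hm
    have ap : Alt H (some x) none ξp := by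
      refine alt_of_cycle H hcr (Or.inl (by simp)) (by have := lr_le H hcr; omega) ?_ dp
      unfold CC
      rw [e']
      exact hp
    refine ⟨fun a ha b hb => ?_, fun b hb => ?_, fun a ha => ?_⟩
    · rw [fl_Iio] at ha
      rw [fl_Ioi] at hb
      rw [hξ a ha b hb]
      exact mul_of (vm a ha) (vp b hb)
    · intro u w p q hpq h1 h2
      have h3 := am u w p q hpq h1 h2
      rw [e] at h1 h2
      rw [fl_Ioi] at hb
      simp only
      rw [hξ _ h1 b hb, hξ _ h2 b hb, h3]
      ring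
    · intro u w p q hpq h1 h2
      have h3 := ap u w p q hpq h1 h2
      rw [e'] at h1 h2
      rw [fl_Iio] at ha
      simp only
      rw [hξ a ha _ h1, hξ a ha _ h2, h3]
      ring
  · intro h x
    obtain ⟨zm, hm, dm, vm, am⟩ := gen_lower H x
    obtain ⟨zp, hp, dp, vp, ap⟩ := gen_upper H x
    obtain ⟨a0, ha0⟩ := fl_nonempty H (cmp_none_left (some x)) (Or.inr (by simp))
    obtain ⟨b0, hb0⟩ := fl_nonempty H (cmp_none_right (some x)) (Or.inl (by simp))
    have v0 : (zm a0 * zp b0 * ξ (a0 ++ x :: b0) = 1 ∨ zm a0 * zp b0 * ξ (a0 ++ x :: b0) = -1) := by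
      refine mul_of (mul_of ?_ ?_) ((h x).1 a0 ha0 b0 hb0)
      · rw [fl_Iio] at ha0; exact vm a0 ha0
      · rw [fl_Ioi] at hb0; exact vp b0 hb0
    refine ⟨(zm a0 * zp b0 * ξ (a0 ++ x :: b0)) • zm, Submodule.smul_mem _ _ hm, zp, hp, ?_, dp, ?_,
      vp, ?_⟩
    · rw [map_smul, dm, smul_zero]
    · intro a ha
      rw [Finsupp.smul_apply, smul_eq_mul]
      exact mul_of v0 (vm a ha)
    · intro a ha b hb
      rw [Finsupp.smul_apply, smul_eq_mul]
      have m1 := mul_self_of (vm a ha)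
      have m2 := mul_self_of (vp b hb)
      rw [← fl_Iio] at ha
      rw [← fl_Ioi] at hb
      have h1 := alt_const H (cmp_none_left _) (Or.inr (by simp)) ((h x).2.1 b hb) am ha ha0
      have h2 := alt_const H (cmp_none_right _) (Or.inl (by simp)) ((h x).2.2 a0 ha0) ap hb hb0
      calc ξ (a ++ x :: b) = ξ (a ++ x :: b) * (zm a * zm a) := by rw [m1, mul_one]
        _ = (ξ (a ++ x :: b) * zm a) * zm a := by ring
        _ = (ξ (a0 ++ x :: b) * zm a0) * zm a := by rw [h1]
        _ = (ξ (a0 ++ x :: b) * (zp b * zp b) * zm a0) * zm a := by rw [m2, mul_one]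
        _ = ((ξ (a0 ++ x :: b) * zp b) * zp b * zm a0) * zm a := by ring
        _ = ((ξ (a0 ++ x :: b0) * zp b0) * zp b * zm a0) * zm a := by rw [h2]
        _ = _ := by ring

/-- the chosen local orientation -/
def loc (H : HM n X) (x : X) (l : List X) : ℤ :=
  (gen_lower H x).choose (l.take (H.rk x)) * (gen_upper H x).choose (l.drop (H.rk x + 1))

theorem loc_apply (H : HM n X) {x : X} {a : List X} (b : List X) (ha : a ∈ fl H none (some x)) :
    loc H x (a ++ x :: b) = (gen_lower H x).choose a * (gen_upper H x).choose b := by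
  rw [fl_Iio] at ha
  have h1 : H.rk x = a.length := ha.2.2.symm
  have e1 : (a ++ x :: b).take (H.rk x) = a := by
    rw [h1]; simp
  have e2 : (a ++ x :: b).drop (H.rk x + 1) = b := by
    rw [h1, show a.length + 1 = (a ++ [x]).length by simp,
      show a ++ x :: b = (a ++ [x]) ++ b by simp, List.drop_left]
  unfold loc
  rw [e1, e2]

theorem loc_oriAt (H : HM n X) (x : X) : OriAt H x (loc H x) := by
  obtain ⟨-, -, vm, am⟩ := (gen_lower H x).choose_spec
  obtain ⟨-, -, vp, ap⟩ := (gen_upper H x).choose_spec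
  refine ⟨fun a ha b hb => ?_, fun b hb => ?_, fun a ha => ?_⟩
  · rw [loc_apply H b ha]
    rw [fl_Iio] at ha
    rw [fl_Ioi] at hb
    exact mul_of (vm a ha) (vp b hb)
  · intro u w p q hpq h1 h2
    simp only
    rw [loc_apply H b h1, loc_apply H b h2, am u w p q hpq h1 h2]
    ring
  · intro u w p q hpq h1 h2
    simp only
    rw [loc_apply H _ ha, loc_apply H _ ha, ap u w p q hpq h1 h2]
    ring

/-- two local orientations at comparable elements are comparable -/
theorem two_const (H : HM n X) {x y : X} (hxy : x < y) {ξ ξ' : List X → ℤ} (h : OriAt H x ξ)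
    (h' : OriAt H y ξ') {a a' μ μ' b b' : List X} (ha : a ∈ fl H none (some x))
    (ha' : a' ∈ fl H none (some x)) (hμ : μ ∈ fl H (some x) (some y))
    (hμ' : μ' ∈ fl H (some x) (some y)) (hb : b ∈ fl H (some y) none)
    (hb' : b' ∈ fl H (some y) none) :
    ξ (a ++ x :: (μ ++ y :: b)) * ξ' (a ++ x :: (μ ++ y :: b)) =
      ξ (a' ++ x :: (μ' ++ y :: b')) * ξ' (a' ++ x :: (μ' ++ y :: b')) := by
  have e : ∀ (a μ b : List X), a ++ x :: (μ ++ y :: b) = (a ++ x :: μ) ++ y :: b := by simp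
  have hx : x ∈ Iv none (some y) := mem_Iv_none_some hxy
  have hy : y ∈ Iv (some x) none := mem_Iv_some_none hxy
  -- change a
  have s1 : ξ (a ++ x :: (μ ++ y :: b)) * ξ' (a ++ x :: (μ ++ y :: b)) =
      ξ (a' ++ x :: (μ ++ y :: b)) * ξ' (a' ++ x :: (μ ++ y :: b)) := by
    have f1 := h.2.1 (μ ++ y :: b) (fl_join H hy hμ hb)
    have f2 := slice_left H (h'.2.1 b hb) hx hμ
    simp only [← e] at f2
    exact alt_const H (cmp_none_left _) (Or.inr (by simp)) f1 f2 ha ha'
  have s2 : ξ (a' ++ x :: (μ ++ y :: b)) * ξ' (a' ++ x :: (μ ++ y :: b)) =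
      ξ (a' ++ x :: (μ' ++ y :: b)) * ξ' (a' ++ x :: (μ' ++ y :: b)) := by
    have f1 := slice_left H (h.2.2 a' ha') hy hb
    have f2 := slice_right H (h'.2.1 b hb) hx ha'
    simp only [← e] at f2
    exact alt_const H (cmp_some hxy) (Or.inr (by simp)) f1 f2 hμ hμ'
  have s3 : ξ (a' ++ x :: (μ' ++ y :: b)) * ξ' (a' ++ x :: (μ' ++ y :: b)) =
      ξ (a' ++ x :: (μ' ++ y :: b')) * ξ' (a' ++ x :: (μ' ++ y :: b')) := by
    have f1 := slice_right H (h.2.2 a' ha') hy hμ'
    have f2 := h'.2.2 (a' ++ x :: μ') (fl_join H hx ha' hμ')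
    simp only [← e] at f2
    exact alt_const H (cmp_none_right _) (Or.inl (by simp)) f1 f2 hb hb'
  rw [s1, s2, s3]

/-- a full flag through two comparable elements -/
theorem exists_two (H : HM n X) {x y : X} (hxy : x < y) : ∃ a μ b,
    a ∈ fl H none (some x) ∧ μ ∈ fl H (some x) (some y) ∧ b ∈ fl H (some y) none := by
  obtain ⟨a, ha⟩ := fl_nonempty H (cmp_none_left (some x)) (Or.inr (by simp))
  obtain ⟨μ, hμ⟩ := fl_nonempty H (cmp_some hxy) (Or.inr (by simp))
  obtain ⟨b, hb⟩ := fl_nonempty H (cmp_none_right (some y)) (Or.inl (by simp))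
  exact ⟨a, μ, b, ha, hμ, hb⟩

theorem split_one (H : HM n X) {l : List X} (hl : l ∈ fl H none none) {x : X} (hx : x ∈ l) :
    ∃ a b, l = a ++ x :: b ∧ a ∈ fl H none (some x) ∧ b ∈ fl H (some x) none := by
  obtain ⟨a, b, rfl⟩ := List.append_of_mem hx
  obtain ⟨-, h1, h2⟩ := fl_split H (cmp_none_left _) hl
  exact ⟨a, b, rfl, h1, h2⟩

theorem split_two (H : HM n X) {l : List X} (hl : l ∈ fl H none none) {x y : X} (hxy : x < y)
    (hx : x ∈ l) (hy : y ∈ l) :
    ∃ a μ b, l = a ++ x :: (μ ++ y :: b) ∧ a ∈ fl H none (some x) ∧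
      μ ∈ fl H (some x) (some y) ∧ b ∈ fl H (some y) none := by
  obtain ⟨a, c, rfl, ha, hc⟩ := split_one H hl hx
  have hyc : y ∈ c := by
    rcases List.mem_append.1 hy with h | h
    · have := (ha.2.1 y h).2 x rfl
      exact absurd (this.trans hxy) (lt_irrefl _)
    · rcases List.mem_cons.1 h with rfl | h
      · exact absurd hxy (lt_irrefl _)
      · exact h
  obtain ⟨μ, b, rfl⟩ := List.append_of_mem hyc
  obtain ⟨-, h1, h2⟩ := fl_split H (cmp_none_right _) hc
  exact ⟨a, μ, b, rfl, ha, h1, h2⟩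

/-- values of local orientations on flags -/
theorem oriAt_val (H : HM n X) {x : X} {ξ : List X → ℤ} (h : OriAt H x ξ) {l : List X}
    (hl : l ∈ fl H none none) (hx : x ∈ l) : ξ l = 1 ∨ ξ l = -1 := by
  obtain ⟨a, b, rfl, ha, hb⟩ := split_one H hl hx
  exact h.1 a ha b hb

theorem oriAt_smul (H : HM n X) {x : X} {ξ ξ' : List X → ℤ} (h : OriAt H x ξ) {t : ℤ}
    (ht : t = 1 ∨ t = -1) (hξ : ∀ l ∈ fl H none none, x ∈ l → ξ' l = t * ξ l) :
    OriAt H x ξ' := by
  have key : ∀ a ∈ fl H none (some x), ∀ b ∈ fl H (some x) none,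
      ξ' (a ++ x :: b) = t * ξ (a ++ x :: b) := fun a ha b hb =>
    hξ _ (fl_join H (mem_Iv_none x) ha hb) (by simp)
  refine ⟨fun a ha b hb => ?_, fun b hb => ?_, fun a ha => ?_⟩
  · rw [key a ha b hb]
    exact mul_of ht (h.1 a ha b hb)
  · intro u w p q hpq h1 h2
    simp only
    rw [key _ h1 b hb, key _ h2 b hb]
    have := h.2.1 b hb u w p q hpq h1 h2
    simp only at this
    rw [this]
    ring
  · intro u w p q hpq h1 h2
    simp only
    rw [key a ha _ h1, key a ha _ h2]
    have := h.2.2 a ha u w p q hpq h1 h2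
    simp only at this
    rw [this]
    ring

open scoped Classical in
/-- the transition cocycle -/
def tr (H : HM n X) (x y : X) : ℤˣ :=
  if h : ∃ l ∈ fl H none none, x ∈ l ∧ y ∈ l then
    (if loc H x h.choose * loc H y h.choose = 1 then 1 else -1) else 1

theorem tr_eq (H : HM n X) {x y : X} (hxy : x < y) {l : List X} (hl : l ∈ fl H none none)
    (hx : x ∈ l) (hy : y ∈ l) : ((tr H x y : ℤˣ) : ℤ) = loc H x l * loc H y l := by
  have hex : ∃ l ∈ fl H none none, x ∈ l ∧ y ∈ l := ⟨l, hl, hx, hy⟩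
  unfold tr
  rw [dif_pos hex]
  obtain ⟨g1, g2, g3⟩ := hex.choose_spec
  have hc : loc H x hex.choose * loc H y hex.choose = loc H x l * loc H y l := by
    obtain ⟨a, μ, b, e1, ha, hμ, hb⟩ := split_two H g1 hxy g2 g3
    obtain ⟨a', μ', b', e2, ha', hμ', hb'⟩ := split_two H hl hxy hx hy
    rw [e1, e2]
    exact two_const H hxy (loc_oriAt H x) (loc_oriAt H y) ha ha' hμ hμ' hb hb'
  rw [hc]
  rcases mul_of (oriAt_val H (loc_oriAt H x) hl hx) (oriAt_val H (loc_oriAt H y) hl hy) with h | h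
  · rw [if_pos h, h]; rfl
  · rw [if_neg (by rw [h]; norm_num), h]; rfl

end Ori

open Ori

theorem exists_ori (H : HM n X) (h : SC (Set.univ : Set X)) : ∃ ξ, IsOri H ξ := by
  obtain ⟨g, hg⟩ := h.2 ℤˣ (tr H) (by
    intro x _ y _ z _ hxy hyz
    obtain ⟨a, μ, b, ha, hμ, hb⟩ := exists_two H hxy
    obtain ⟨-, ν, b', -, hν, hb'⟩ := exists_two H hyz
    have hm : (a ++ x :: (μ ++ y :: (ν ++ z :: b'))) ∈ fl H none none :=
      fl_join H (mem_Iv_none x) ha (fl_join H (mem_Iv_some_none hxy) hμ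
        (fl_join H (mem_Iv_some_none hyz) hν hb'))
    have hx : x ∈ (a ++ x :: (μ ++ y :: (ν ++ z :: b'))) := by simp
    have hy : y ∈ (a ++ x :: (μ ++ y :: (ν ++ z :: b'))) := by simp
    have hz : z ∈ (a ++ x :: (μ ++ y :: (ν ++ z :: b'))) := by simp
    apply Units.ext
    rw [Units.val_mul, tr_eq H (hxy.trans hyz) hm hx hz, tr_eq H hxy hm hx hy,
      tr_eq H hyz hm hy hz]
    have := mul_self_of (oriAt_val H (loc_oriAt H y) hm hy)
    calc _ = loc H x _ * 1 * loc H z _ := by rw [mul_one]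
      _ = _ := by rw [← this]; ring)
  refine ⟨fun l => match l with
    | [] => 1
    | x :: l => (g x : ℤ) * loc H x (x :: l), ?_⟩
  rw [isOri_iff]
  intro y
  refine oriAt_smul H (loc_oriAt H y) (t := (g y : ℤ)) ?_ ?_
  · rcases Int.units_eq_one_or (g y) with h | h <;> simp [h]
  · intro l hl hy
    rcases l with _ | ⟨x, l⟩
    · simp at hy
    · simp only
      rcases List.mem_cons.1 hy with rfl | hyl
      · rfl
      · have hxy : x < y := (List.pairwise_cons.1 hl.1).1 y hyl
        have hx : x ∈ (x :: l) := by simp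
        rw [hg x (Set.mem_univ _) y (Set.mem_univ _) hxy, Units.val_mul, tr_eq H hxy hl hx hy]
        have := mul_self_of (oriAt_val H (loc_oriAt H y) hl hy)
        calc _ = (g x : ℤ) * (loc H x (x :: l) * 1) := by rw [mul_one]
          _ = _ := by rw [← this]; ring

/-- a full flag takes the value `1` or `-1` -/
theorem IsOri.abs {H : HM n X} {ξ : List X → ℤ} (hξ : IsOri H ξ) {l : List X}
    (hl : l ∈ cs (Set.univ : Set X) (n + 1)) : ξ l = 1 ∨ ξ l = -1 := by
  rw [← fl_univ H] at hl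
  rcases l with _ | ⟨x, l⟩
  · rw [fl_univ] at hl
    exact absurd hl.2.2 (by simp)
  · exact oriAt_val H ((isOri_iff H).1 hξ x) hl (by simp)

theorem ori_unique (H : HM n X) (h : Conn (Set.univ : Set X)) {ξ ξ' : List X → ℤ}
    (hξ : IsOri H ξ) (hξ' : IsOri H ξ') :
    (∀ l ∈ cs (Set.univ : Set X) (n + 1), ξ' l = ξ l) ∨
    (∀ l ∈ cs (Set.univ : Set X) (n + 1), ξ' l = - ξ l) := by
  have h1 := (isOri_iff H).1 hξ
  have h1' := (isOri_iff H).1 hξ'
  rw [← fl_univ H]
  -- around every element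
  have hloc : ∀ x, (∀ l ∈ fl H none none, x ∈ l → ξ' l = ξ l) ∨
      (∀ l ∈ fl H none none, x ∈ l → ξ' l = - ξ l) := by
    intro x
    obtain ⟨a0, ha0⟩ := fl_nonempty H (cmp_none_left (some x)) (Or.inr (by simp))
    obtain ⟨b0, hb0⟩ := fl_nonempty H (cmp_none_right (some x)) (Or.inl (by simp))
    have key : ∀ l ∈ fl H none none, x ∈ l →
        ξ l * ξ' l = ξ (a0 ++ x :: b0) * ξ' (a0 ++ x :: b0) := by
      intro l hl hx
      obtain ⟨a, b, rfl, ha, hb⟩ := split_one H hl hx
      exact oriAt_const H (h1 x) (h1' x) ha ha0 hb hb0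
    rcases mul_of ((h1 x).1 a0 ha0 b0 hb0) ((h1' x).1 a0 ha0 b0 hb0) with h2 | h2
    · left
      intro l hl hx
      have h3 := key l hl hx
      rw [h2] at h3
      rcases oriAt_val H (h1 x) hl hx with h4 | h4 <;> rw [h4] at h3 ⊢ <;> linarith
    · right
      intro l hl hx
      have h3 := key l hl hx
      rw [h2] at h3
      rcases oriAt_val H (h1 x) hl hx with h4 | h4 <;> rw [h4] at h3 ⊢ <;> linarith
  obtain ⟨⟨x0, -⟩, hconst⟩ := h
  have hP := hconst (fun x => ∀ l ∈ fl H none none, x ∈ l → ξ' l = ξ l) (by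
    intro x _ y _ hxy
    obtain ⟨a, μ, b, ha, hμ, hb⟩ := exists_two H hxy
    have hm : (a ++ x :: (μ ++ y :: b)) ∈ fl H none none :=
      fl_join H (mem_Iv_none x) ha (fl_join H (mem_Iv_some_none hxy) hμ hb)
    have hx : x ∈ (a ++ x :: (μ ++ y :: b)) := by simp
    have hy : y ∈ (a ++ x :: (μ ++ y :: b)) := by simp
    have hv := oriAt_val H (h1 x) hm hx
    constructor
    · intro h2
      rcases hloc y with h3 | h3
      · exact h3
      · exfalso
        have e1 := h2 _ hm hx
        have e2 := h3 _ hm hy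
        rcases hv with h4 | h4 <;> rw [h4] at e1 e2 <;> rw [e1] at e2 <;> norm_num at e2
    · intro h2
      rcases hloc x with h3 | h3
      · exact h3
      · exfalso
        have e1 := h2 _ hm hy
        have e2 := h3 _ hm hx
        rcases hv with h4 | h4 <;> rw [h4] at e1 e2 <;> rw [e1] at e2 <;> norm_num at e2)
  by_cases hx0 : ∀ l ∈ fl H none none, x0 ∈ l → ξ' l = ξ l
  · left
    intro l hl
    rcases l with _ | ⟨y, l⟩
    · rw [fl_univ] at hl
      exact absurd hl.2.2 (by simp)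
    · exact (hP x0 (Set.mem_univ _) y (Set.mem_univ _)).1 hx0 _ hl (by simp)
  · right
    intro l hl
    rcases l with _ | ⟨y, l⟩
    · rw [fl_univ] at hl
      exact absurd hl.2.2 (by simp)
    · rcases hloc y with h3 | h3
      · exact absurd ((hP x0 (Set.mem_univ _) y (Set.mem_univ _)).2 h3) hx0
      · exact h3 _ hl (by simp)

theorem IsOri.comap {H : HM n X} {ξ : List X → ℤ} (hξ : IsOri H ξ) (φ : X → X)
    (hφ : Function.Bijective φ) (hlt : ∀ x y, φ x < φ y ↔ x < y)
    (hrk : ∀ x, H.rk (φ x) = H.rk x) :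
    IsOri H (fun l => ξ (l.map φ)) := by
  rw [isOri_iff] at hξ ⊢
  intro x
  have hm : ∀ a b : Option X, ∀ l ∈ fl H a b, l.map φ ∈ fl H (a.map φ) (b.map φ) := by
    intro a b l hl
    have e1 : lr H (a.map φ) = lr H a := by
      rcases a with _ | a
      · rfl
      · simp [lr, hrk]
    have e2 : hr H (b.map φ) = hr H b := by
      rcases b with _ | b
      · rfl
      · simp [hr, hrk]
    obtain ⟨h1, h2, h3⟩ := hl
    unfold fl
    rw [e1, e2]
    refine ⟨?_, ?_, by simpa using h3⟩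
    · rw [List.pairwise_map]
      exact h1.imp (fun {x y} hxy => (hlt x y).2 hxy)
    · intro t ht
      obtain ⟨s, hs, rfl⟩ := List.mem_map.1 ht
      have h4 := h2 s hs
      refine ⟨?_, ?_⟩
      · intro r hr'
        obtain ⟨r, hr'', rfl⟩ := Option.mem_map.1 hr'
        exact (hlt _ _).2 (h4.1 r hr'')
      · intro r hr'
        obtain ⟨r, hr'', rfl⟩ := Option.mem_map.1 hr'
        exact (hlt _ _).2 (h4.2 r hr'')
  have h := hξ (φ x)
  have hinj := hφ.1
  refine ⟨fun a ha b hb => ?_, fun b hb => ?_, fun a ha => ?_⟩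
  · have h1 := h.1 _ (hm none (some x) a ha) _ (hm (some x) none b hb)
    simpa using h1
  · intro u w p q hpq h1 h2
    have g1 := hm none (some x) _ h1
    have g2 := hm none (some x) _ h2
    simp only [List.map_append, List.map_cons] at g1 g2
    have h3 := h.2.1 _ (hm (some x) none b hb) (u.map φ) (w.map φ) (φ p) (φ q)
      (fun h => hpq (hinj h)) g1 g2
    simpa using h3
  · intro u w p q hpq h1 h2
    have g1 := hm (some x) none _ h1
    have g2 := hm (some x) none _ h2
    simp only [List.map_append, List.map_cons] at g1 g2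
    have h3 := h.2.2 _ (hm none (some x) a ha) (u.map φ) (w.map φ) (φ p) (φ q)
      (fun h => hpq (hinj h)) g1 g2
    simpa using h3

/-- there is a full flag through every element -/
theorem HM.exists_flag (H : HM n X) (x : X) :
    (∃ a, a ∈ cs (Set.Iio x) (H.rk x)) ∧ ∃ b, b ∈ cs (Set.Ioi x) (n - H.rk x) := by
  obtain ⟨a0, ha0⟩ := fl_nonempty H (cmp_none_left (some x)) (Or.inr (by simp))
  obtain ⟨b0, hb0⟩ := fl_nonempty H (cmp_none_right (some x)) (Or.inl (by simp))
  rw [fl_Iio] at ha0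
  rw [fl_Ioi] at hb0
  exact ⟨⟨a0, ha0⟩, b0, hb0⟩

end

end Pool.Agent.Helper59.PD
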