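import Pool.Agent.Helper59.PD.Pdt_F

/-! Poincare duality, part G: `ev` commutes with boundary and cap product. -/

set_option autoImplicit false
set_option linter.unusedSectionVars false

namespace Pool.Agent.Helper59.PD

open Pool.Agent.Helper59.PDC

universe u

noncomputable section

variable {n : ℕ} {X : Type} [PartialOrder X] {B : Type u} [AddCommGroup B]
  {π : Type} [Group π] [MulAction π X] [DistribMulAction π B]

theorem bd_congr_mem (H : HM n X) {F G : List X → B} {x : X} {b : List X}
    (h : ∀ m : List X, x ∈ m → F m = G m) : bd F (x :: b) = bd G (x :: b) := by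
  rw [bd_cons, bd_cons]
  congr 1
  · exact Finset.sum_congr rfl fun y _ => h _ (by simp)
  · exact lbd_congr (H.fin_Ioi x) fun b' _ => h _ (by simp)

theorem bd_sum {ι : Type} (s : Finset ι) (F : ι → List X → B) (l : List X) :
    bd (fun l => ∑ i ∈ s, F i l) l = ∑ i ∈ s, bd (F i) l := by
  cases l with
  | nil => simp [bd]
  | cons x b =>
    simp only [bd_cons, lbd_sum, Finset.sum_sub_distrib]
    rw [Finset.sum_comm]

theorem bd_single (H : HM n X) {x : X} {b m₀ : List X} (w : B)
    (hm : m₀ ∈ cs (Set.univ : Set X) (b.length + 2)) :
    bd (fun l => Finsupp.single m₀ w l) (x :: b) = (dl m₀ (x :: b)) • w := by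
  classical
  cases m₀ with
  | nil => exact absurd (cs_length hm) (by simp)
  | cons y m =>
    have hm' := mem_cs_first.1 hm
    rw [bd_cons, dl_cons_apply_cons, sub_smul]
    congr 1
    · by_cases h : m = x :: b
      · subst h
        have hy : y < x := hm'.2.1 x (by simp)
        rw [if_pos rfl, one_smul, Finset.sum_eq_single y]
        · rw [Finsupp.single_eq_same]
        · intro y' _ hne
          apply Finsupp.single_eq_of_ne
          intro h
          simp only [List.cons.injEq] at h
          exact hne h.1
        · intro h
          exact absurd ((mem_fs (H.fin_Iio x)).2 hy) h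
      · rw [if_neg h, zero_smul]
        refine Finset.sum_eq_zero fun y' _ => ?_
        apply Finsupp.single_eq_of_ne
        intro h'
        simp only [List.cons.injEq] at h'
        exact h h'.2.symm
    · unfold lbd
      by_cases h : y = x
      · subst h
        rw [if_pos rfl, Finset.sum_eq_single m]
        · beta_reduce
          rw [Finsupp.single_eq_same]
        · intro b' _ hne
          beta_reduce
          rw [Finsupp.single_eq_of_ne, smul_zero]
          intro h'
          simp only [List.cons.injEq] at h'
          exact hne h'.2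
        · intro h
          exact absurd ((mem_chn (H.fin_Ioi y)).2 hm') h
      · rw [if_neg h, zero_smul]
        refine Finset.sum_eq_zero fun b' _ => ?_
        beta_reduce
        rw [Finsupp.single_eq_of_ne, smul_zero]
        intro h'
        simp only [List.cons.injEq] at h'
        exact h h'.1.symm

theorem mem_of_dl {m₀ m₁ : List X} (hm : m₀.Pairwise (· < ·)) (h : dl m₀ m₁ ≠ 0) {x : X}
    (hx : x ∈ m₁) : x ∈ m₀ := by
  cases m₀ with
  | nil =>
    rw [dl_nil] at h
    exact absurd rfl h
  | cons y m =>
    have h1 : y :: m ∈ cs {z | z ∈ y :: m} (m.length + 1) := ⟨hm, fun _ hz => hz, rfl⟩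
    have h2 := mem_CC_iff.1 (dl_mem h1) m₁ h
    exact h2.2.1 x hx

section

variable (free : ∀ (g : π) (x : X), g • x = x → g = 1)
  (mono : ∀ (g : π) (x y : X), x < y → g • x < g • y)

theorem finite_hit (free : ∀ (g : π) (x : X), g • x = x → g = 1) (x : X) (l : List X) :
    {g : π | x ∈ tg g l}.Finite := by
  have h1 : {g : π | x ∈ tg g l} ⊆ ⋃ y ∈ {y | y ∈ l}, {g : π | g • y = x} := by
    intro g hg
    obtain ⟨y, hy, hyx⟩ := List.mem_map.1 (show x ∈ l.map (g • ·) from hg)
    simp only [Set.mem_iUnion]
    exact ⟨y, hy, hyx⟩
  refine Set.Finite.subset (Set.Finite.biUnion (List.finite_toSet l) fun y _ => ?_) h1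
  apply Set.Subsingleton.finite
  intro g hg h hh
  have h2 : (h⁻¹ * g) • y = y := by
    rw [mul_smul, show g • y = x from hg, ← (show h • y = x from hh), inv_smul_smul]
  exact (inv_mul_eq_one.1 (free _ _ h2)).symm

include free mono

theorem ev_boundary_single (H : HM n X) {k : ℕ} {l' : List X}
    (hl' : l' ∈ cs (Set.univ : Set X) (k + 2)) (v : B) {l : List X}
    (hl : l ∈ cs (Set.univ : Set X) (k + 1)) :
    ev π (boundary (Finsupp.single l' v)) l = bd (ev π (Finsupp.single l' v)) l := by
  classical
  cases l with
  | nil => exact absurd (cs_length hl) (by simp)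
  | cons x b =>
    have hb : b.length = k := by
      have := cs_length hl
      simpa using this
    have hfin := finite_hit free x l'
    have h1 : ∀ m : List X, x ∈ m → ev π (Finsupp.single l' v) m =
        ∑ g ∈ hfin.toFinset, Finsupp.single (tg g l') (g • v) m := by
      intro m hm
      have hne : m ≠ [] := by
        rintro rfl
        simp at hm
      have h2 : ∀ g : π, g • (Finsupp.single l' v) (tg g⁻¹ m) =
          Finsupp.single (tg g l') (g • v) m := by
        intro g
        rw [Finsupp.single_apply, Finsupp.single_apply]
        have h3 : l' = tg g⁻¹ m ↔ tg g l' = m := by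
          constructor
          · rintro rfl
            simp
          · rintro rfl
            simp
        by_cases h4 : tg g l' = m
        · rw [if_pos h4, if_pos (h3.2 h4)]
        · rw [if_neg h4, if_neg (fun h => h4 (h3.1 h)), smul_zero]
      rw [ev_of_ne _ hne]
      simp only [h2]
      apply finsum_eq_sum_of_support_subset
      intro g hg
      rw [Function.mem_support] at hg
      rw [Set.Finite.coe_toFinset]
      have h5 : tg g l' = m := by
        by_contra h
        exact hg (Finsupp.single_eq_of_ne (Ne.symm h))
      show x ∈ tg g l'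
      rw [h5]
      exact hm
    rw [bd_congr_mem H h1, bd_sum, ev_of_ne _ (by simp)]
    have h6 : ∀ g : π, g • (boundary (Finsupp.single l' v)) (tg g⁻¹ (x :: b)) =
        bd (fun l => Finsupp.single (tg g l') (g • v) l) (x :: b) := by
      intro g
      rw [bd_single H _ (by
        rw [hb]
        exact tg_mem_cs mono (fun _ _ => Set.mem_univ _) hl'), boundary_single_apply, ← zsmul_act,
        dl_tg, tC_apply]
    simp only [h6]
    apply finsum_eq_sum_of_support_subset
    intro g hg
    rw [Function.mem_support, bd_single H _ (by
        rw [hb]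
        exact tg_mem_cs mono (fun _ _ => Set.mem_univ _) hl')] at hg
    rw [Set.Finite.coe_toFinset]
    have h7 : dl (tg g l') (x :: b) ≠ 0 := by
      intro h
      rw [h, zero_smul] at hg
      exact hg rfl
    exact mem_of_dl (tg_mem_cs (T := Set.univ) mono (fun _ _ => Set.mem_univ _) hl').1 h7
      (by simp)

theorem ev_boundary (H : HM n X) {k : ℕ} {c : List X →₀ B}
    (hc : IsChainOf (k + 1) c) {l : List X}
    (hl : l ∈ cs (Set.univ : Set X) (k + 1)) :
    ev π (boundary c) l = bd (ev π c) l := by
  let A₁ : (List X →₀ B) →+ B :=
    { toFun := fun c => ev π (boundary c) l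
      map_zero' := by
        rw [boundary_zero, ← evHom_apply free, map_zero]
      map_add' := fun c₁ c₂ => by
        rw [boundary_add, ← evHom_apply free, map_add]
        rfl }
  let A₂ : (List X →₀ B) →+ B :=
    { toFun := fun c => bd (ev π c) l
      map_zero' := by
        have h1 : ev π (0 : List X →₀ B) = fun _ => 0 := by
          funext l
          rw [← evHom_apply free, map_zero]
        rw [h1]
        cases l with
        | nil => rfl
        | cons x b => simp [bd_cons, lbd]
      map_add' := fun c₁ c₂ => by
        have h1 : ev π (c₁ + c₂) = fun l => ev π c₁ l + ev π c₂ l := by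
          funext l
          rw [← evHom_apply free, map_add]
          rfl
        rw [h1, bd_add] }
  exact hom_congr (A₁ := A₁) (A₂ := A₂) (fun l' hl' v =>
    ev_boundary_single free mono H (isSimplex_iff.1 (hc l' hl')) v hl)

/-- the trivial action on the integers -/
@[reducible] def trivAct (π : Type) [Group π] : DistribMulAction π ℤ where
  smul := fun _ b => b
  one_smul := fun _ => rfl
  mul_smul := fun _ _ _ => rfl
  smul_zero := fun _ => rfl
  smul_add := fun _ _ _ => rfl

/-- the norm of an integral chain, for the trivial action -/
def evZ (π : Type) [Group π] [MulAction π X] (z : List X →₀ ℤ) : List X → ℤ :=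
  letI := trivAct π
  ev π z

omit free mono in
theorem cap_add (z₁ z₂ : List X →₀ ℤ) (k : ℕ) (f : List X → B) :
    cap (z₁ + z₂) k f = cap z₁ k f + cap z₂ k f := by
  unfold cap
  rw [Finsupp.sum_add_index']
  · intro l
    simp
  · intro l m₁ m₂
    rw [add_smul, Finsupp.single_add]

omit free mono in
theorem cap_zero (k : ℕ) (f : List X → B) : cap (0 : List X →₀ ℤ) k f = 0 := by
  simp [cap]

omit free mono in
theorem cap_single (l : List X) (m : ℤ) (k : ℕ) (f : List X → B) :
    cap (Finsupp.single l m) k f = Finsupp.single (l.drop k) (m • f (l.take (k + 1))) := by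
  unfold cap
  rw [Finsupp.sum_single_index]
  simp

theorem ev_cap_single (H : HM n X) {k : ℕ} (hk : k ≤ n) {l' : List X}
    (hl' : l' ∈ cs (Set.univ : Set X) (n + 1)) (m : ℤ) {f : List X → B}
    (hf : Eqv π (k + 1) f) {l : List X} (hl : l ∈ cs (Set.univ : Set X) (n - k + 1)) :
    ev π (cap (Finsupp.single l' m) k f) l =
      capF n (evZ π (Finsupp.single l' m)) f l := by
  classical
  let _ := trivAct π
  have hevZ : ∀ z : List X →₀ ℤ, evZ π z = ev π z := fun _ => rfl
  rw [hevZ]
  cases l with
  | nil => exact absurd (cs_length hl) (by simp)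
  | cons x b =>
    have hb : b.length = n - k := by
      have := cs_length hl
      simpa using this
    have hlen := cs_length hl'
    obtain ⟨a', y, b', rfl, ha'⟩ : ∃ a' y b', l' = a' ++ y :: b' ∧ a'.length = k := by
      refine ⟨l'.take k, l'[k]'(by omega), l'.drop (k + 1), ?_, ?_⟩
      · rw [List.cons_getElem_drop_succ, List.take_append_drop]
      · rw [List.length_take]
        omega
    rw [cap_single]
    have e1 : (a' ++ y :: b').drop k = y :: b' := by
      rw [← ha', List.drop_left]
    have e2 : (a' ++ y :: b').take (k + 1) = a' ++ [y] := by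
      rw [← ha', List.take_append]
      simp
    rw [e1, e2, capF_cons]
    have e3 : n - b.length = k := by omega
    rw [e3]
    have hmid := mem_cs_mid.1 hl'
    have hne : a' ++ y :: b' ≠ [] := by simp
    by_cases hex : ∃ g : π, tg g (y :: b') = x :: b
    · obtain ⟨g, hg⟩ := hex
      have h1 : ev π (Finsupp.single (y :: b') (m • f (a' ++ [y]))) (x :: b) =
          g • m • f (a' ++ [y]) := by
        rw [← hg]
        exact ev_single_tg free (by simp) _ g
      rw [h1]
      have hxy : g • y = x := by
        simp only [tg_cons, List.cons.injEq] at hg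
        exact hg.1
      rw [Finset.sum_eq_single (tg g a')]
      · have h2 : tg g a' ++ x :: b = tg g (a' ++ y :: b') := by
          rw [tg_append, hg]
        have h3 : ev π (Finsupp.single (a' ++ y :: b') m) (tg g a' ++ x :: b) = m := by
          rw [h2, ev_single_tg free hne]
          rfl
        rw [h3]
        have h4 : f (tg g a' ++ [x]) = g • f (a' ++ [y]) := by
          rw [← hf g (a' ++ [y]) (mem_cs_last.2 (by rw [← ha']; exact hmid.1))]
          simp [hxy]
        rw [h4, zsmul_act]
      · intro a ha hane
        rw [mem_chn (H.fin_Iio x)] at ha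
        rw [ev_single_ne, zero_smul]
        intro h hh
        rw [tg_append] at hh
        have h5 : (tg h a').length = a.length := by
          rw [tg_length, ha', cs_length ha]
        obtain ⟨h6, h7⟩ := List.append_inj hh h5
        rw [← hg] at h7
        have h8 := tg_inj free (by simp) h7
        rw [h8] at h6
        exact hane h6.symm
      · intro h
        exfalso
        apply h
        rw [mem_chn (H.fin_Iio x), ← hxy, ← ha']
        exact tg_mem_cs mono (Iio_smul mono g y) hmid.1
    · push Not at hex
      rw [ev_single_ne _ hex]
      symm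
      refine Finset.sum_eq_zero fun a ha => ?_
      rw [mem_chn (H.fin_Iio x)] at ha
      rw [ev_single_ne, zero_smul]
      intro h hh
      rw [tg_append] at hh
      have h5 : (tg h a').length = a.length := by
        rw [tg_length, ha', cs_length ha]
      exact hex h (List.append_inj hh h5).2

theorem capF_add_left (ξ₁ ξ₂ : List X → ℤ) (f : List X → B) (l : List X) :
    capF n (fun l => ξ₁ l + ξ₂ l) f l = capF n ξ₁ f l + capF n ξ₂ f l := by
  cases l with
  | nil => simp [capF]
  | cons x b => simp only [capF_cons, add_smul, Finset.sum_add_distrib]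

theorem ev_cap (H : HM n X) {k : ℕ} (hk : k ≤ n) {z : List X →₀ ℤ}
    (hz : IsChainOf n z) {f : List X → B}
    (hf : Eqv π (k + 1) f) {l : List X} (hl : l ∈ cs (Set.univ : Set X) (n - k + 1)) :
    ev π (cap z k f) l =
      capF n (evZ π z) f l := by
  let _ := trivAct π
  have hevZ : ∀ z : List X →₀ ℤ, evZ π z = ev π z := fun _ => rfl
  rw [hevZ]
  have h1 : ev π (0 : List X →₀ ℤ) = fun _ => 0 := by
    funext l
    rw [← evHom_apply free, map_zero]
  rw [← Finsupp.sum_single z, Finsupp.sum]
  have h2 : ∀ s : Finset (List X), (∀ l' ∈ s, l' ∈ cs (Set.univ : Set X) (n + 1)) →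
      ev π (cap (∑ a ∈ s, Finsupp.single a (z a)) k f) l =
      capF n (ev π (∑ a ∈ s, Finsupp.single a (z a))) f l := by
    classical
    intro s
    induction s using Finset.induction_on with
    | empty =>
      intro _
      rw [Finset.sum_empty, cap_zero, ← evHom_apply free, map_zero, h1]
      cases l with
      | nil => rfl
      | cons x b => simp [capF_cons]
    | insert a s ha ih =>
      intro hs
      have h3 : ev π (Finsupp.single a (z a) + ∑ a ∈ s, Finsupp.single a (z a)) =
          fun l => ev π (Finsupp.single a (z a)) l +
            ev π (∑ a ∈ s, Finsupp.single a (z a)) l := by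
        funext l
        rw [← evHom_apply free, map_add]
        rfl
      rw [Finset.sum_insert ha, cap_add, ← evHom_apply free, map_add, evHom_apply, evHom_apply,
        ih (fun l' hl' => hs l' (Finset.mem_insert_of_mem hl')),
        ev_cap_single free mono H hk (hs a (Finset.mem_insert_self _ _)) (z a) hf hl, h3, hevZ]
      exact (capF_add_left free mono _ _ _ _).symm
  exact h2 z.support (fun l' hl' => isSimplex_iff.1 (hz l' (Finsupp.mem_support_iff.1 hl')))

end

end

end Pool.Agent.Helper59.PD
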