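import Pool.Agent.Helper59.PD.HM
import Pool.Agent.Helper59.PD.Lib
import Pool.Agent.Helper59.PD.Final
import Pool.Agent.Helper59.PD.Pdt_G

/-! Poincare duality for oriented homology manifold posets. -/

set_option autoImplicit false
set_option linter.unusedSectionVars false

namespace Pool.Agent.Helper59.PD

open Pool.Agent.Helper59.PDC

universe u

section aux

variable {n : ℕ} {X : Type} [PartialOrder X] {B : Type u} [AddCommGroup B]

theorem boundary_apply (c : List X →₀ B) (l : List X) :
    boundary c l = ∑ l' ∈ c.support, (dl l' l) • c l' := by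
  let A : (List X →₀ B) →+ B :=
    { toFun := fun c => boundary c l
      map_zero' := by rw [boundary_zero]; rfl
      map_add' := fun c₁ c₂ => by rw [boundary_add]; rfl }
  have h : A c = ∑ l' ∈ c.support, (dl l' l) • c l' := by
    conv_lhs => rw [← Finsupp.sum_single c, Finsupp.sum, map_sum]
    exact Finset.sum_congr rfl fun l' _ => boundary_single_apply _ _ _
  exact h

theorem isChainOf_boundary {k : ℕ} {c : List X →₀ B} (hc : IsChainOf (k + 1) c) :
    IsChainOf k (boundary c) := by
  intro l hl
  rw [boundary_apply] at hl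
  obtain ⟨l', hl', h⟩ := Finset.exists_ne_zero_of_sum_ne_zero hl
  have h1 : dl l' l ≠ 0 := by
    intro h0
    rw [h0, zero_smul] at h
    exact h rfl
  have h2 := isSimplex_iff.1 (hc l' (Finsupp.mem_support_iff.1 hl'))
  exact isSimplex_iff.2 (mem_CC_iff.1 (dl_mem h2) l h1)

theorem isChainOf_cap {k : ℕ} (hk : k ≤ n) {z : List X →₀ ℤ} (hz : IsChainOf n z)
    (f : List X → B) : IsChainOf (n - k) (cap z k f) := by
  intro l hl
  unfold cap at hl
  rw [Finsupp.sum, Finsupp.finsetSum_apply] at hl
  obtain ⟨l', hl', h⟩ := Finset.exists_ne_zero_of_sum_ne_zero hl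
  have h1 : l'.drop k = l := by
    by_contra hne
    exact h (Finsupp.single_eq_of_ne (Ne.symm hne))
  have h2 := hz l' (Finsupp.mem_support_iff.1 hl')
  rw [← h1]
  refine ⟨h2.1.sublist (List.drop_sublist _ _), ?_⟩
  rw [List.length_drop, h2.2]
  omega

theorem isChainOf_sub {k : ℕ} {c c' : List X →₀ B} (hc : IsChainOf k c) (hc' : IsChainOf k c') :
    IsChainOf k (c - c') := by
  intro l hl
  by_contra h
  apply hl
  have h1 : c l = 0 := by
    by_contra h'
    exact h (hc l h')
  have h2 : c' l = 0 := by
    by_contra h'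
    exact h (hc' l h')
  rw [Finsupp.sub_apply, h1, h2, sub_zero]

theorem capF_congr_right (H : HM n X) (ξ : List X → ℤ) {k : ℕ} (hk : k ≤ n) {f f' : List X → B}
    (h : ∀ l ∈ cs (Set.univ : Set X) (k + 1), f l = f' l) {l : List X}
    (hl : l ∈ cs (Set.univ : Set X) (n - k + 1)) : capF n ξ f l = capF n ξ f' l := by
  cases l with
  | nil => rfl
  | cons x b =>
    have hb : b.length = n - k := by
      have := cs_length hl
      simpa using this
    rw [capF_cons, capF_cons]
    refine Finset.sum_congr rfl fun a ha => ?_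
    rw [mem_chn (H.fin_Iio x)] at ha
    have e : n - b.length = k := by omega
    rw [e] at ha
    rw [h _ (mem_cs_last.2 ha)]

theorem capF_congr_left (H : HM n X) {ξ ξ' : List X → ℤ} {k : ℕ} (hk : k ≤ n)
    (h : ∀ l ∈ cs (Set.univ : Set X) (n + 1), ξ l = ξ' l) (f : List X → B) {l : List X}
    (hl : l ∈ cs (Set.univ : Set X) (n - k + 1)) : capF n ξ f l = capF n ξ' f l := by
  cases l with
  | nil => rfl
  | cons x b =>
    have hb : b.length = n - k := by
      have := cs_length hl
      simpa using this
    rw [capF_cons, capF_cons]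
    refine Finset.sum_congr rfl fun a ha => ?_
    rw [mem_chn (H.fin_Iio x)] at ha
    have e : n - b.length = k := by omega
    rw [e] at ha
    rw [h]
    refine mem_cs_mid.2 ⟨cs_self ha, cs_self (mem_cs_first.1 hl), ?_⟩
    rw [cs_length ha]
    omega

end aux

theorem isFundamental_of_ori {n : ℕ} {π X : Type} [Group π] [PartialOrder X] [MulAction π X]
    (H : HM n X) (mono : ∀ (g : π) (x y : X), x < y → g • x < g • y)
    (free : ∀ (g : π) (x : X), g • x = x → g = 1)
    (rk_smul : ∀ (g : π) (x : X), H.rk (g • x) = H.rk x)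
    (cofin : ∃ T : Set (List X), T.Finite ∧ ∀ k l, IsSimplex k l → ∃ g : π, l.map (g • ·) ∈ T)
    (ξ : List X → ℤ) (hξ : IsOri H ξ)
    (hinv : ∀ (g : π), ∀ l ∈ cs (Set.univ : Set X) (n + 1), ξ (l.map (g • ·)) = ξ l) :
    ∃ z : List X →₀ ℤ, IsFundamental.{u} π n z := by
  classical
  have hinv' : ∀ (g : π), ∀ l ∈ cs (Set.univ : Set X) (n + 1), ξ (tg g l) = ξ l := hinv
  obtain ⟨D, hD, hDg⟩ := exists_family mono free rk_smul hξ hinv'
  obtain ⟨z, hz1, hz2⟩ : ∃ z : List X →₀ ℤ, IsChainOf n z ∧
      ∀ l ∈ cs (Set.univ : Set X) (n + 1), evZ π z l = ξ l := by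
    let _ := trivAct π
    exact exists_chain_of_eqv free mono cofin (F := ξ) (fun g l hl => hinv' g l hl)
  refine ⟨z, ⟨hz1, ?_⟩, ?_⟩
  · intro hn
    obtain ⟨k, rfl⟩ : ∃ k, n = k + 1 := ⟨n - 1, by omega⟩
    let _ := trivAct π
    have h1 : boundary z ∈ relations π (fun (g : π) (b : ℤ) => g • b) (k + 1 - 1) := by
      refine mem_relations_of_ev free mono cofin (isChainOf_boundary hz1) fun l hl => ?_
      rw [ev_boundary free mono H hz1 hl]
      show bd (evZ π z) l = 0
      rw [bd_congr H hl (G := ξ) hz2]
      exact bd_ori H hξ hl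
    exact h1
  · intro B _ _ k hk
    have hcapF : ∀ (f : List X → B), Eqv π (k + 1) f → ∀ l ∈ cs (Set.univ : Set X) (n - k + 1),
        ev π (cap z k f) l = capF n ξ f l := by
      intro f hf l hl
      rw [ev_cap free mono H hk hz1 hf hl]
      exact capF_congr_left H hk hz2 f hl
    refine ⟨?_, ?_⟩
    · rintro f ⟨hf1, hf2⟩
      have hfe : Eqv π (k + 1) f := fun g l hl => hf1 g l (isSimplex_iff.2 hl)
      constructor
      · rintro ⟨e, he1, he2⟩
        have h1 : ∀ l ∈ cs (Set.univ : Set X) (n - k + 1), capF n ξ f l = bd (ev π e) l := by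
          intro l hl
          have h2 := ev_relations free he2 l
          rw [← evHom_apply free, map_sub, evHom_apply, evHom_apply, hcapF f hfe l hl,
            ev_boundary free mono H he1 hl, sub_eq_zero] at h2
          exact h2
        have hcone : Cone n ξ k (n - k + 1) f (ev π e) :=
          ⟨fun l hl => by
            rw [← coboundary_eq]
            exact hf2 l (isSimplex_iff.2 hl), fun l hl _ => h1 l hl⟩
        obtain ⟨g, G, hg0, hge, hGe, hfg, -⟩ := cone_acyclic mono rk_smul hinv' hD hDg hξ
          (by omega) hcone hfe (fun g l _ => ev_eqv free e g l)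
        cases k with
        | zero =>
          refine Or.inl ⟨rfl, fun l hl => ?_⟩
          have hl' := isSimplex_iff.1 hl
          rw [hfg l hl']
          obtain ⟨x, rfl⟩ := List.length_eq_one_iff.1 (cs_length hl')
          rw [pr_dl_cons, dl_nil, map_zero, hg0, sub_zero]
        | succ j =>
          refine Or.inr ⟨j, g, rfl, fun h l hl => hge h l (isSimplex_iff.1 hl), fun l hl => ?_⟩
          rw [coboundary_eq]
          exact hfg l (isSimplex_iff.1 hl)
      · rintro (⟨rfl, h0⟩ | ⟨j, g, rfl, hg1, hg2⟩)
        · refine ⟨0, fun l hl => absurd rfl hl, ?_⟩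
          rw [boundary_zero, sub_zero]
          refine mem_relations_of_ev free mono cofin (isChainOf_cap hk hz1 f) fun l hl => ?_
          rw [hcapF f hfe l hl, capF_congr_right H ξ hk (f' := fun _ => 0)
            (fun l hl => h0 l (isSimplex_iff.2 hl)) hl]
          cases l with
          | nil => rfl
          | cons x b => simp [capF_cons]
        · have hge : Eqv π (j + 1) g := fun g l hl => hg1 g l (isSimplex_iff.2 hl)
          obtain ⟨e, he1, he2⟩ := exists_chain_of_eqv free mono cofin (k := n - (j + 1) + 1)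
            (Eqv.zsmul ((-1 : ℤ) ^ (j + 1)) (Eqv.capF (m := n - (j + 1) + 1 + 1)
              mono H hinv' (by omega) hge))
          refine ⟨e, he1, ?_⟩
          refine mem_relations_of_ev free mono cofin
            (isChainOf_sub (isChainOf_cap hk hz1 f) (isChainOf_boundary he1)) fun l hl => ?_
          rw [← evHom_apply free, map_sub, evHom_apply, evHom_apply, hcapF f hfe l hl,
            ev_boundary free mono H he1 hl, bd_congr H hl he2, bd_zsmul,
            bd_capF_eq H hξ g hl (ne_nil_of_mem_cs free hl) (i := j + 1) (by omega)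
            (fun h => absurd h (by omega)), smul_smul, ← mul_pow]
          rw [capF_congr_right H ξ hk (f := f) (f' := fun l => pr g (dl l)) (fun l hl => by
            rw [hg2 l (isSimplex_iff.2 hl), coboundary_eq]) hl]
          simp
    · rintro c ⟨hc1, hc2⟩
      have hcone : Cone n ξ (k + 1) (n - k) (fun _ => (0 : B)) (ev π c) := by
        refine ⟨fun l hl => pr_zero _, fun l hl hne => ?_⟩
        have h1 : capF n ξ (fun _ => (0 : B)) l = 0 := by
          cases l with
          | nil => rfl
          | cons x b => simp [capF_cons]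
        rw [h1]
        obtain ⟨j, hj⟩ : ∃ j, n - k = j + 1 := by
          rcases Nat.eq_zero_or_pos (n - k) with h0 | h0
          · rw [h0, mem_cs_zero] at hl
            exact absurd hl hne
          · exact ⟨n - k - 1, by omega⟩
        have h2 := hc2 (by omega)
        rw [hj] at hl hc1 h2
        rw [← ev_boundary free mono H hc1 hl, ev_relations free h2 l]
      obtain ⟨g, G, hg0, hge, hGe, hfg, hF⟩ := cone_acyclic mono rk_smul hinv' hD hDg hξ
        (by omega) hcone (fun g l _ => by simp) (fun g l _ => ev_eqv free c g l)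
      have hge' : Eqv π (k + 1) (fun l => (-1 : ℤ) ^ (k + 1) • g l) := hge.zsmul _
      obtain ⟨e, he1, he2⟩ := exists_chain_of_eqv free mono cofin hGe
      refine ⟨fun l => (-1 : ℤ) ^ (k + 1) • g l,
        ⟨fun h l hl => hge' h l (isSimplex_iff.1 hl), fun l hl => ?_⟩, e, he1, ?_⟩
      · rw [coboundary_eq, pr_zsmul, ← hfg l (isSimplex_iff.1 hl), smul_zero]
      · refine mem_relations_of_ev free mono cofin
          (isChainOf_sub (isChainOf_sub hc1 (isChainOf_cap hk hz1 _))
            (isChainOf_boundary he1)) fun l hl => ?_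
        rw [← evHom_apply free, map_sub, map_sub, evHom_apply, evHom_apply, evHom_apply,
          hcapF _ hge' l hl, ev_boundary free mono H he1 hl, bd_congr H hl he2, hF l hl,
          capF_zsmul]
        abel

end Pool.Agent.Helper59.PD
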