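import Pool.Agent.Helper59.PD.Big2
import Pool.Agent.Helper59.PD.Big3
import Pool.Agent.Helper59.PD.Ori
import Pool.Agent.Helper59.PD.Pdt
import Pool.Agent.Helper59.PD.Bridge
import Pool.Agent.Helper59.PD.Big4_chi

/-! The output of the reflection construction. -/

set_option autoImplicit false

open scoped Classical

namespace Pool.Agent.Helper59.PD

open Pool.Agent.Helper59.PDC

universe u

variable {n : ℕ} {G R : Type} [Group G] [PartialOrder R] [MulAction G R] {Sp : Set R}

theorem Orbi.big_smul_lt (O : Orbi n G R Sp) (γ : O.act.Pi) (a b : Big Sp) :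
    γ • a < γ • b ↔ a < b := by
  rw [lt_iff_le_not_ge, lt_iff_le_not_ge, O.act.smul_le, O.act.smul_le]

theorem Orbi.big_rk_smul (O : Orbi n G R Sp) (γ : O.act.Pi) (a : Big Sp) :
    O.hm.rk (γ • a) = O.hm.rk a := by
  obtain ⟨w, hw⟩ := a.exists_mk
  rw [hw, O.act.smul_mk]
  change (O.act.cell γ.right a.cell).1.card - 1 = a.cell.1.card - 1
  congr 1
  exact Finset.card_image_of_injective _ (MulAction.injective γ.right)

theorem big_map_cs (O : Orbi n G R Sp) (γ : O.act.Pi) (k : ℕ) {l : List (Big Sp)}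
    (hl : l ∈ cs (Set.univ : Set (Big Sp)) k) :
    l.map (γ • ·) ∈ cs (Set.univ : Set (Big Sp)) k := by
  refine ⟨?_, fun _ _ => Set.mem_univ _, by simpa using hl.2.2⟩
  rw [List.pairwise_map]
  exact hl.1.imp fun h => (O.big_smul_lt γ _ _).2 h

/-- the orientation character -/
theorem Orbi.exists_omega (O : Orbi n G R Sp) : ∃ (ξ : List (Big Sp) → ℤ) (ω : O.act.Pi →* ℤˣ),
    IsOri O.hm ξ ∧ ∀ γ, ω γ = 1 → ∀ l ∈ cs (Set.univ : Set (Big Sp)) (n + 1),
      ξ (l.map (γ • ·)) = ξ l := by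
  obtain ⟨ξ, hξ⟩ := exists_ori O.hm O.big_sc
  obtain ⟨⟨a0⟩⟩ : Nonempty (Set.univ : Set (Big Sp)) := O.big_sc.1.1.to_subtype
  obtain ⟨⟨la, hla⟩, lb, hlb⟩ := O.hm.exists_flag a0
  have hl0 : la ++ a0 :: lb ∈ cs (Set.univ : Set (Big Sp)) (n + 1) := by
    refine ⟨?_, fun _ _ => Set.mem_univ _, ?_⟩
    · rw [List.pairwise_append]
      refine ⟨hla.1, ?_, ?_⟩
      · rw [List.pairwise_cons]
        exact ⟨fun x hx => hlb.2.1 x hx, hlb.1⟩
      · intro x hx y hy
        have h1 : x < a0 := hla.2.1 x hx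
        rw [List.mem_cons] at hy
        rcases hy with rfl | hy
        · exact h1
        · exact h1.trans (hlb.2.1 y hy)
    · have h1 := hla.2.2
      have h2 := hlb.2.2
      have h3 := O.hm.rk_le a0
      simp only [List.length_append, List.length_cons, h1, h2]
      omega
  have key : ∀ γ : O.act.Pi, (∀ l ∈ cs (Set.univ : Set (Big Sp)) (n + 1),
      ξ (l.map (γ • ·)) = ξ l) ∨ (∀ l ∈ cs (Set.univ : Set (Big Sp)) (n + 1),
      ξ (l.map (γ • ·)) = - ξ l) := by
    intro γ
    exact ori_unique O.hm O.big_sc.1 hξ (hξ.comap (γ • ·) (MulAction.bijective γ)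
      (O.big_smul_lt γ) (O.big_rk_smul γ))
  have hne : ξ (la ++ a0 :: lb) ≠ 0 := by
    rcases hξ.abs hl0 with h | h <;> rw [h] <;> norm_num
  have key2 : ∀ γ : O.act.Pi, ∃ e : ℤˣ, ∀ l ∈ cs (Set.univ : Set (Big Sp)) (n + 1),
      ξ (l.map (γ • ·)) = e * ξ l := by
    intro γ
    rcases key γ with h | h
    · exact ⟨1, fun l hl => by rw [h l hl]; simp⟩
    · exact ⟨-1, fun l hl => by rw [h l hl]; simp⟩
  choose e he using key2
  refine ⟨ξ, MonoidHom.mk' e ?_, hξ, ?_⟩
  · intro γ δ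
    have h1 := he (γ * δ) _ hl0
    have h2 := he δ _ hl0
    have h3 := he γ _ (big_map_cs O δ _ hl0)
    rw [List.map_map] at h3
    have h4 : (fun x : Big Sp => γ • x) ∘ (fun x => δ • x) = fun x => (γ * δ) • x := by
      funext x
      simp [mul_smul]
    rw [h4, h1, h2, ← mul_assoc] at h3
    have h5 := mul_right_cancel₀ hne h3
    exact_mod_cast h5
  · intro γ hγ l hl
    have h1 := he γ l hl
    have h2 : e γ = 1 := hγ
    rw [h1, h2]
    simp

/-- the torsionfree-looking subgroup -/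
noncomputable def Orbi.pi (O : Orbi n G R Sp) (ω : O.act.Pi →* ℤˣ) : Subgroup O.act.Pi :=
  (chiPi O.r n O.r_lt O.act O.r_smul).ker ⊓ ω.ker

instance Orbi.pi_finiteIndex (O : Orbi n G R Sp) (ω : O.act.Pi →* ℤˣ) :
    (O.pi ω).FiniteIndex := by
  unfold Orbi.pi
  infer_instance

theorem hm_dim {X : Type} [PartialOrder X] (H : HM n X) (l : List X) (hl : l.Pairwise (· < ·)) :
    l.length ≤ n + 1 := by
  have h1 : (l.map H.rk).Pairwise (· < ·) := by
    rw [List.pairwise_map]
    exact hl.imp fun h => H.rk_lt _ _ h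
  have h2 : (l.map H.rk).Nodup := h1.imp fun h => Nat.ne_of_lt h
  have h3 : (l.map H.rk).toFinset ⊆ Finset.range (n + 1) := by
    intro x hx
    rw [List.mem_toFinset, List.mem_map] at hx
    obtain ⟨a, _, rfl⟩ := hx
    exact Finset.mem_range.2 (Nat.lt_succ_of_le (H.rk_le a))
  have h4 := Finset.card_le_card h3
  rw [List.toFinset_card_of_nodup h2, Finset.card_range, List.length_map] at h4
  exact h4

theorem Orbi.pi_cofin (O : Orbi n G R Sp) (π : Subgroup O.act.Pi) [π.FiniteIndex] :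
    ∃ T : Set (List (Big Sp)), T.Finite ∧ ∀ k l, IsSimplex k l →
      ∃ g : π, l.map (g • ·) ∈ T := by
  obtain ⟨T0, hT0, hcov⟩ := O.big_cofin
  -- finitely many orbits of `π` on the elements
  set T1 : Set (Big Sp) := ⋃ c : O.act.Pi ⧸ π, (fun a => (c.out)⁻¹ • a) '' T0 with hT1
  have hT1f : T1.Finite := Set.finite_iUnion fun c => hT0.image _
  set L : Set (Big Sp) := ⋃ t ∈ T1, {b | b ≤ t ∨ t ≤ b} with hL
  have hLf : L.Finite := hT1f.biUnion fun t _ => O.big_locfin t
  have hcov1 : ∀ a : Big Sp, ∃ g : π, g • a ∈ T1 := by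
    intro a
    obtain ⟨γ, hγ⟩ := hcov a
    set c : O.act.Pi ⧸ π := QuotientGroup.mk γ with hc
    have h1 : (c.out)⁻¹ * γ ∈ π := by
      rw [← QuotientGroup.eq, QuotientGroup.out_eq']
    refine ⟨⟨_, h1⟩, ?_⟩
    rw [hT1, Set.mem_iUnion]
    refine ⟨c, γ • a, hγ, ?_⟩
    change _ = ((c.out)⁻¹ * γ) • a
    rw [mul_smul]
  have : Finite L := hLf
  refine ⟨(fun l : List L => l.map Subtype.val) '' {l | l.length ≤ n + 1},
    (List.finite_length_le L (n + 1)).image _, ?_⟩
  intro k l hl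
  cases l with
  | nil =>
    have := hl.2
    simp at this
  | cons a l =>
    obtain ⟨g, hg⟩ := hcov1 a
    refine ⟨g, ?_⟩
    have hpw : ((a :: l).map (g • ·)).Pairwise (· < ·) := by
      rw [List.pairwise_map]
      exact hl.1.imp fun h => (O.big_smul_lt g.1 _ _).2 h
    have hmem : ∀ x ∈ (a :: l).map (g • ·), x ∈ L := by
      intro x hx
      rw [List.mem_map] at hx
      obtain ⟨b, hb, rfl⟩ := hx
      rw [hL, Set.mem_iUnion₂]
      refine ⟨g • a, hg, Or.inr ?_⟩
      rw [List.mem_cons] at hb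
      rcases hb with rfl | hb
      · exact le_rfl
      · exact ((O.big_smul_lt g.1 _ _).2 ((List.pairwise_cons.1 hl.1).1 b hb)).le
    refine ⟨((a :: l).map (g • ·)).attachWith (· ∈ L) hmem, ?_, ?_⟩
    · rw [Set.mem_ofPred_eq, List.length_attachWith]
      exact hm_dim O.hm _ hpw
    · exact List.attachWith_map_subtype_val _

theorem Orbi.davis (O : Orbi n G R Sp) (s : G) (hs : s ≠ 1) (q : ℕ) (hq : Odd q)
    (hsq : s ^ q = 1) (hG : ∀ N : Subgroup G, N.FiniteIndex → s ∈ N) :
    ∃ (π X : Type) (_ : Group π) (_ : PartialOrder X) (_ : MulAction π X),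
      IsPDCover.{u} n π X ∧
      ∀ N : Subgroup π, N.FiniteIndex → ∃ g ∈ N, g ≠ 1 ∧ IsOfFinOrder g := by
  obtain ⟨ξ, ω, hξ, hω⟩ := O.exists_omega
  have hmono : ∀ (g : O.pi ω) (x y : Big Sp), x < y → g • x < g • y := fun g x y h =>
    (O.big_smul_lt g.1 _ _).2 h
  have hfree : ∀ (g : O.pi ω) (x : Big Sp), g • x = x → g = 1 := by
    intro g x h
    have h1 := O.free_big g.1 g.2.1 x h
    exact Subtype.ext h1
  have hcof := O.pi_cofin (O.pi ω)
  refine ⟨O.pi ω, Big Sp, inferInstance, inferInstance, inferInstance, ?_, ?_⟩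
  · refine ⟨hmono, hfree, hcof, ?_, simplyConnected_of_sc O.big_sc, ?_, ?_⟩
    · intro k l hl
      have h1 := hm_dim O.hm l hl.1
      have h2 := hl.2
      omega
    · intro k hk hk2
      exact van_of_hvan k (O.big_van (k + 1) (by omega))
    · exact isFundamental_of_ori O.hm hmono hfree (fun g x => O.big_rk_smul g.1 x) hcof ξ hξ
        (fun g l hl => hω g.1 g.2.2 l hl)
  · intro N hN
    have h1 : (N.map (O.pi ω).subtype).FiniteIndex := by
      refine ⟨?_⟩
      rw [Subgroup.index_map_subtype]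
      exact mul_ne_zero hN.index_ne_zero (O.pi_finiteIndex ω).index_ne_zero
    have h2 : ((N.map (O.pi ω).subtype).comap
      (SemidirectProduct.inr : G →* O.act.Pi)).FiniteIndex := by
      refine ⟨?_⟩
      rw [Subgroup.index_comap]
      exact (Subgroup.instFiniteIndex_subgroupOf _ _).index_ne_zero
    have h3 := hG _ h2
    rw [Subgroup.mem_comap, Subgroup.mem_map] at h3
    obtain ⟨g, hgN, hg⟩ := h3
    have hg' : (g : O.act.Pi) = SemidirectProduct.inr s := hg
    refine ⟨g, hgN, ?_, ?_⟩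
    · rintro rfl
      apply hs
      have h4 : (1 : O.act.Pi) = SemidirectProduct.inr s := hg'
      have h5 := congrArg SemidirectProduct.right h4
      simpa using h5.symm
    · rw [isOfFinOrder_iff_pow_eq_one]
      refine ⟨q, hq.pos, ?_⟩
      apply Subtype.ext
      rw [Subgroup.coe_pow, hg', ← map_pow, hsq, map_one]
      rfl

end Pool.Agent.Helper59.PD
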