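import Pool.Agent.Helper59.PD.Big1
import Pool.Agent.Helper59.PD.Lib

/-! Upper links and intervals in the big complex. -/

set_option autoImplicit false

namespace Pool.Agent.Helper59.PD

noncomputable section

variable {n : ℕ} {G R : Type} [Group G] [PartialOrder R] [MulAction G R] {Sp : Set R}

theorem Orbi.r_injOn (O : Orbi n G R Sp) {y : Finset R} (hy : IsChain (· ≤ ·) (y : Set R)) :
    Set.InjOn O.r (y : Set R) := by
  intro a ha b hb hab
  by_contra hne
  rcases hy.total ha hb with h | h
  · have := O.r_lt a b (lt_of_le_of_ne h hne)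
    omega
  · have := O.r_lt b a (lt_of_le_of_ne h (Ne.symm hne))
    omega

theorem Orbi.card_le (O : Orbi n G R Sp) (y : Cell Sp) : y.1.card ≤ n + 1 := by
  have h1 : y.1.card ≤ (Finset.range (n + 1)).card :=
    Finset.card_le_card_of_injOn O.r (fun x _ => by
      simp only [Finset.coe_range, Set.mem_Iio]
      have := O.r_le x
      omega) (O.r_injOn y.2.2.1)
  simpa using h1

/-- elements below `z`, outside `y`, comparable to all elements of `y` -/
def LB (y : Finset R) (z : R) : Set R := {x | x < z ∧ x ∉ y ∧ ∀ u ∈ y, x ≤ u ∨ u ≤ x}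

theorem Orbi.card_le_max (O : Orbi n G R Sp) {y : Finset R} (hy : IsChain (· ≤ ·) (y : Set R))
    {z : R} (hz : ∀ u ∈ y, u ≤ z) : y.card ≤ O.r z + 1 := by
  have h1 : y.card ≤ (Finset.range (O.r z + 1)).card :=
    Finset.card_le_card_of_injOn O.r (fun x hx => by
      simp only [Finset.coe_range, Set.mem_Iio]
      rcases eq_or_lt_of_le (hz x hx) with h | h
      · rw [h]; omega
      · have := O.r_lt x z h
        omega) (O.r_injOn hy)
  simpa using h1

theorem Orbi.sph_LB (O : Orbi n G R Sp) : ∀ (m : ℕ) (y : Finset R), y.card = m + 1 →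
    IsChain (· ≤ ·) (y : Set R) → ∀ z ∈ y, (∀ u ∈ y, u ≤ z) → Sph (LB y z) (O.r z + 1 - y.card) := by
  classical
  intro m
  induction m with
  | zero =>
    intro y hc _ z hz _
    obtain ⟨x, rfl⟩ := Finset.card_eq_one.1 hc
    have hzx : z = x := by simpa using hz
    subst hzx
    have e : LB {z} z = Set.Iio z := by
      ext x
      simp only [LB, Finset.mem_singleton, forall_eq, Set.mem_ofPred_eq, Set.mem_Iio]
      constructor
      · rintro ⟨h, _⟩; exact h
      · intro h; exact ⟨h, h.ne, Or.inl h.le⟩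
    rw [e]
    have := O.down z
    simpa using this
  | succ m ih =>
    intro y hc hy z hz hmax
    have hy0c : (y.erase z).card = m + 1 := by
      rw [Finset.card_erase_of_mem hz, hc]; rfl
    have hy0 : IsChain (· ≤ ·) ((y.erase z : Finset R) : Set R) :=
      hy.mono (by simp)
    have hne : (y.erase z).Nonempty := by
      rw [← Finset.card_pos, hy0c]; omega
    -- the maximum of the rest
    obtain ⟨z', hz', hz'm⟩ := Finset.exists_maximal hne
    have hmax' : ∀ u ∈ y.erase z, u ≤ z' := by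
      intro u hu
      rcases hy0.total (Finset.mem_coe.2 hu) (Finset.mem_coe.2 hz') with h | h
      · exact h
      · exact hz'm hu h
    have hz'y : z' ∈ y := Finset.mem_of_mem_erase hz'
    have hz'z : z' < z := lt_of_le_of_ne (hmax z' hz'y) (Finset.ne_of_mem_erase hz')
    have e : LB y z = LB (y.erase z) z' ∪ Set.Ioo z' z := by
      ext x
      simp only [LB, Set.mem_union, Set.mem_ofPred_eq, Set.mem_Ioo]
      constructor
      · rintro ⟨h1, h2, h3⟩
        rcases h3 z' hz'y with h | h
        · left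
          have hx : x ≠ z' := fun e => h2 (e ▸ hz'y)
          refine ⟨lt_of_le_of_ne h hx, fun h4 => h2 (Finset.mem_of_mem_erase h4), ?_⟩
          intro u hu
          exact h3 u (Finset.mem_of_mem_erase hu)
        · right
          have hx : z' ≠ x := fun e => h2 (e ▸ hz'y)
          exact ⟨lt_of_le_of_ne h hx, h1⟩
      · rintro (⟨h1, h2, h3⟩ | ⟨h1, h2⟩)
        · have hxz : x < z := h1.trans hz'z
          refine ⟨hxz, ?_, ?_⟩
          · intro h4
            exact h2 (Finset.mem_erase.2 ⟨hxz.ne, h4⟩)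
          · intro u hu
            by_cases huz : u = z
            · left; rw [huz]; exact hxz.le
            · exact h3 u (Finset.mem_erase.2 ⟨huz, hu⟩)
        · refine ⟨h2, ?_, ?_⟩
          · intro h4
            have := hmax' x (Finset.mem_erase.2 ⟨h2.ne, h4⟩)
            exact absurd (lt_of_lt_of_le h1 this) (lt_irrefl _)
          · intro u hu
            by_cases huz : u = z
            · left; rw [huz]; exact h2.le
            · right
              exact (hmax' u (Finset.mem_erase.2 ⟨huz, hu⟩)).trans h1.le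
    have h1 := ih (y.erase z) hy0c hy0 z' hz' hmax'
    have h2 := O.btw z' z hz'z
    have h3 := O.card_le_max hy0 hmax'
    have h4 := O.r_lt z' z hz'z
    rw [e]
    have h5 : O.r z + 1 - y.card = (O.r z' + 1 - (y.erase z).card) + (O.r z - O.r z' - 1) := by
      rw [hc, hy0c]
      rw [hy0c] at h3
      omega
    rw [h5]
    refine Sph.join ?_ h1 h2
    rintro a ⟨ha, _⟩ b ⟨hb, _⟩
    exact ha.trans hb

/-- elements outside `y` comparable to all elements of `y` -/
def LC (y : Finset R) : Set R := {x | x ∉ y ∧ ∀ u ∈ y, x ≤ u ∨ u ≤ x}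

theorem Orbi.sph_LC (O : Orbi n G R Sp) (y : Cell Sp) :
    Sph (LC y.1) (n - (y.1.card - 1)) := by
  classical
  obtain ⟨y, hne, hy, hsp⟩ := y
  simp only
  obtain ⟨z, hz, hzm⟩ := Finset.exists_maximal hne
  have hmax : ∀ u ∈ y, u ≤ z := by
    intro u hu
    rcases hy.total (Finset.mem_coe.2 hu) (Finset.mem_coe.2 hz) with h | h
    · exact h
    · exact hzm hu h
  have hpos : 0 < y.card := Finset.card_pos.2 hne
  obtain ⟨m, hm⟩ : ∃ m, y.card = m + 1 := ⟨y.card - 1, by omega⟩
  have h1 := O.sph_LB m y hm hy z hz hmax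
  have hzs : z ∉ Sp := by
    intro hk
    apply hsp z hk
    apply Finset.eq_singleton_iff_unique_mem.2
    refine ⟨hz, ?_⟩
    intro x hx
    by_contra hxz
    exact O.Sp_min z hk x (lt_of_le_of_ne (hmax x hx) hxz)
  have h2 := O.up z hzs
  have h3 := O.card_le_max hy hmax
  have h4 := O.r_le z
  have e : LC y = LB y z ∪ Set.Ioi z := by
    ext x
    simp only [LB, LC, Set.mem_union, Set.mem_ofPred_eq, Set.mem_Ioi]
    constructor
    · rintro ⟨h5, h6⟩
      rcases h6 z hz with h | h
      · left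
        exact ⟨lt_of_le_of_ne h (fun e => h5 (e ▸ hz)), h5, h6⟩
      · right
        exact lt_of_le_of_ne h (fun e => h5 (e ▸ hz))
    · rintro (⟨h5, h6, h7⟩ | h5)
      · exact ⟨h6, h7⟩
      · refine ⟨?_, ?_⟩
        · intro h6
          exact absurd (lt_of_lt_of_le h5 (hmax x h6)) (lt_irrefl _)
        · intro u hu
          right
          exact (hmax u hu).trans h5.le
  rw [e]
  have h5 : n - (y.card - 1) = (O.r z + 1 - y.card) + (n - O.r z) := by omega
  rw [h5]
  refine Sph.join ?_ h1 h2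
  rintro a ⟨ha, _⟩ b hb
  exact ha.trans hb

theorem Orbi.finHtOn (O : Orbi n G R Sp) (S : Set R) : FinHtOn S :=
  ⟨n, O.r, fun x _ y _ h => O.r_lt x y h, fun x _ => O.r_le x⟩

theorem Orbi.big_up (O : Orbi n G R Sp) (a : Big Sp) :
    Sph (Set.Ioi a) (n - (a.cell.1.card - 1)) := by
  classical
  obtain ⟨w, hw⟩ := a.exists_mk
  set y := a.cell with hydef
  have h1 := O.sph_LC y
  rw [← (HEq'.sd (O.finHtOn (LC y.1))).sph] at h1
  refine (Sph.of_iso (fun b : Big Sp => b.cell.1 \ y.1) ?_ ?_ _).2 h1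
  · refine ⟨?_, ?_, ?_⟩
    · intro b hb
      have hb' : a < b := hb
      have hb2 := hb'
      rw [hw] at hb'
      obtain ⟨h2, h3⟩ := Big.eq_of_ge hb'.le
      rw [h2, Big.mk'_lt] at hb'
      have h4 : y.1 ⊂ b.cell.1 := hb'
      refine ⟨?_, ?_, ?_⟩
      · rw [Finset.sdiff_nonempty]
        exact h4.2
      · exact b.cell.2.2.1.mono (by simp)
      · intro x hx
        simp only [Finset.coe_sdiff, Set.mem_sdiff, Finset.mem_coe] at hx
        refine ⟨hx.2, ?_⟩
        intro u hu
        exact b.cell.2.2.1.total (Finset.mem_coe.2 hx.1) (Finset.mem_coe.2 (h4.1 hu))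
    · intro b hb c hc hbc
      have hb' : a < b := hb
      have hc' : a < c := hc
      rw [hw] at hb' hc'
      obtain ⟨h2, h3⟩ := Big.eq_of_ge hb'.le
      obtain ⟨h4, h5⟩ := Big.eq_of_ge hc'.le
      have h6 : b.cell = c.cell := by
        apply Subtype.ext
        have h7 : b.cell.1 = (b.cell.1 \ y.1) ∪ y.1 := (Finset.sdiff_union_of_subset h3).symm
        have h8 : c.cell.1 = (c.cell.1 \ y.1) ∪ y.1 := (Finset.sdiff_union_of_subset h5).symm
        simp only at hbc
        rw [h7, h8, hbc]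
      rw [h2, h4, h6]
    · rintro t ⟨ht1, ht2, ht3⟩
      have hsub : ∀ x ∈ t, x ∉ y.1 ∧ ∀ u ∈ y.1, x ≤ u ∨ u ≤ x := fun x hx => ht3 hx
      obtain ⟨x0, hx0⟩ := ht1
      obtain ⟨y0, hy0⟩ := y.2.1
      have hcell : (t ∪ y.1).Nonempty ∧ IsChain (· ≤ ·) ((t ∪ y.1 : Finset R) : Set R) ∧
          ∀ k ∈ Sp, (t ∪ y.1) ≠ {k} := by
        refine ⟨⟨x0, Finset.mem_union_left _ hx0⟩, ?_, ?_⟩
        · intro u hu v hv huv
          simp only [Finset.coe_union, Set.mem_union, Finset.mem_coe] at hu hv
          rcases hu with hu | hu <;> rcases hv with hv | hv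
          · exact ht2 hu hv huv
          · exact (hsub u hu).2 v hv
          · exact ((hsub v hv).2 u hu).symm
          · exact y.2.2.1 hu hv huv
        · intro k _ hk
          have h2 : x0 = k := by
            have := Finset.mem_union_left y.1 hx0
            rw [hk] at this
            simpa using this
          have h3 : y0 = k := by
            have := Finset.mem_union_right t hy0
            rw [hk] at this
            simpa using this
          exact (hsub x0 hx0).1 (by rw [h2, ← h3]; exact hy0)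
      let c : Cell Sp := ⟨t ∪ y.1, hcell⟩
      refine ⟨Big.mk' w c, ?_, ?_⟩
      · change a < _
        rw [hw, Big.mk'_lt]
        refine lt_of_le_of_ne (fun x hx => Finset.mem_union_right _ hx) ?_
        intro he
        have h2 : x0 ∈ y.1 := by
          rw [he]; exact Finset.mem_union_left _ hx0
        exact (hsub x0 hx0).1 h2
      · change (t ∪ y.1) \ y.1 = t
        rw [Finset.union_sdiff_right]
        apply Finset.sdiff_eq_self_of_disjoint
        rw [Finset.disjoint_left]
        intro x hx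
        exact (hsub x hx).1
  · intro b hb c hc
    have hb' : a < b := hb
    have hc' : a < c := hc
    rw [hw] at hb' hc'
    obtain ⟨h2, h3⟩ := Big.eq_of_ge hb'.le
    obtain ⟨h4, h5⟩ := Big.eq_of_ge hc'.le
    have h3' : y.1 ⊆ b.cell.1 := h3
    have h5' : y.1 ⊆ c.cell.1 := h5
    have e1 : b < c ↔ b.cell < c.cell := by
      conv_lhs => rw [h2, h4]
      exact Big.mk'_lt w
    rw [e1]
    change b.cell.1 ⊂ c.cell.1 ↔ b.cell.1 \ y.1 ⊂ c.cell.1 \ y.1
    rw [Finset.ssubset_iff_subset_ne, Finset.ssubset_iff_subset_ne]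
    constructor
    · rintro ⟨h6, h7⟩
      refine ⟨Finset.sdiff_subset_sdiff h6 subset_rfl, fun h8 => h7 ?_⟩
      rw [← Finset.sdiff_union_of_subset h3', ← Finset.sdiff_union_of_subset h5', h8]
    · rintro ⟨h6, h7⟩
      refine ⟨?_, fun h8 => h7 (by rw [h8])⟩
      rw [← Finset.sdiff_union_of_subset h3', ← Finset.sdiff_union_of_subset h5']
      exact Finset.union_subset_union h6 subset_rfl

theorem Orbi.big_btw (O : Orbi n G R Sp) (a b : Big Sp) (h : a < b) :
    Sph (Set.Ioo a b) ((b.cell.1.card - 1) - (a.cell.1.card - 1) - 1) := by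
  classical
  obtain ⟨w, hw⟩ := a.exists_mk
  have h0 := h
  rw [hw] at h0
  obtain ⟨h2, h3⟩ := Big.eq_of_ge h0.le
  rw [h2, Big.mk'_lt] at h0
  have h4 : a.cell.1 ⊂ b.cell.1 := h0
  have h5 := sph_interval a.cell.1 b.cell.1 h4
  have ha := Finset.card_pos.2 a.cell.2.1
  have hb := Finset.card_pos.2 b.cell.2.1
  have h6 : (b.cell.1.card - 1) - (a.cell.1.card - 1) - 1 = b.cell.1.card - a.cell.1.card - 1 := by
    omega
  rw [h6]
  refine (Sph.of_iso (fun c : Big Sp => c.cell.1) ?_ ?_ _).2 h5
  · refine ⟨?_, ?_, ?_⟩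
    · rintro c ⟨hc1, hc2⟩
      have hc1' := hc1
      rw [hw] at hc1'
      obtain ⟨h7, h8⟩ := Big.eq_of_ge hc1'.le
      rw [h7, Big.mk'_lt] at hc1'
      have hc2' := hc2
      rw [h7, h2, Big.mk'_lt] at hc2'
      exact ⟨hc1', hc2'⟩
    · rintro c ⟨hc1, hc2⟩ e ⟨he1, he2⟩ hce
      have hc1' := hc1
      have he1' := he1
      rw [hw] at hc1' he1'
      obtain ⟨h7, h8⟩ := Big.eq_of_ge hc1'.le
      obtain ⟨h9, h10⟩ := Big.eq_of_ge he1'.le
      rw [h7, h9]
      have : c.cell = e.cell := Subtype.ext hce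
      rw [this]
    · rintro t ⟨ht1, ht2⟩
      obtain ⟨y0, hy0⟩ := a.cell.2.1
      obtain ⟨x0, hx0, hx0a⟩ := Finset.exists_of_ssubset ht1
      have hcell : t.Nonempty ∧ IsChain (· ≤ ·) (t : Set R) ∧ ∀ k ∈ Sp, t ≠ {k} := by
        refine ⟨⟨x0, hx0⟩, b.cell.2.2.1.mono (by exact_mod_cast ht2.1), ?_⟩
        intro k _ hk
        have h7 : x0 = k := by
          rw [hk] at hx0; simpa using hx0
        have h8 : y0 = k := by
          have := ht1.1 hy0
          rw [hk] at this; simpa using this
        exact hx0a (by rw [h7, ← h8]; exact hy0)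
      let c : Cell Sp := ⟨t, hcell⟩
      refine ⟨Big.mk' w c, ⟨?_, ?_⟩, rfl⟩
      · rw [hw, Big.mk'_lt]
        exact ht1
      · rw [h2, Big.mk'_lt]
        exact ht2
  · rintro c ⟨hc1, hc2⟩ e ⟨he1, he2⟩
    have hc1' := hc1
    have he1' := he1
    rw [hw] at hc1' he1'
    obtain ⟨h7, h8⟩ := Big.eq_of_ge hc1'.le
    obtain ⟨h9, h10⟩ := Big.eq_of_ge he1'.le
    conv_lhs => rw [h7, h9]
    rw [Big.mk'_lt]
    exact Iff.rfl

end

end Pool.Agent.Helper59.PD
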