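import Pool.Agent.Helper59.PD.YB
import Pool.Agent.Helper59.PD.Lib

/-! Double mapping cylinders over trees. -/

set_option autoImplicit false

open scoped Classical

namespace Pool.Agent.Helper59.PD

noncomputable section

variable {P Q : Type} [PartialOrder P] [PartialOrder Q]

/-- the order on the double mapping cylinder -/
def DM.po {α β : Q → P} (hα : Monotone α) (hβ : Monotone β) : PartialOrder (DM α β) where
  le := DM.Le
  le_refl a := by cases a <;> exact le_refl _
  le_trans a b c h h' := by
    cases a with
    | top x =>
      cases b with
      | top y =>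
        cases c with
        | top z => exact le_trans h h'
        | bot z => exact h'.elim
      | bot y => exact h.elim
    | bot x =>
      cases b with
      | top y =>
        cases c with
        | top z => exact h.imp (fun k => le_trans k h') (fun k => le_trans k h')
        | bot z => exact h'.elim
      | bot y =>
        cases c with
        | top z => exact h'.imp (fun k => le_trans (hα h) k) (fun k => le_trans (hβ h) k)
        | bot z => exact le_trans h h'
  le_antisymm a b h h' := by
    cases a with
    | top x =>
      cases b with
      | top y => exact congrArg _ (le_antisymm h h')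
      | bot y => exact h.elim
    | bot x =>
      cases b with
      | top y => exact h'.elim
      | bot y => exact congrArg _ (le_antisymm h h')

namespace DMc

/-! ### the poset of a tree -/

/-- vertices and edges of a graph -/
inductive Tr {V E : Type} (a b : E → V) : Type
  | vx (v : V) : Tr a b
  | ed (e : E) : Tr a b

variable {V E : Type} {a b : E → V}

/-- an edge is below its two ends -/
def Tr.Le : Tr a b → Tr a b → Prop
  | .vx v, .vx w => v = w
  | .ed e, .ed f => e = f
  | .ed e, .vx v => a e = v ∨ b e = v
  | .vx _, .ed _ => False

instance : PartialOrder (Tr a b) where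
  le := Tr.Le
  le_refl x := by cases x <;> exact rfl
  le_trans x y z h h' := by
    cases x with
    | vx v =>
      cases y with
      | vx w =>
        cases z with
        | vx u => exact Eq.trans h h'
        | ed e => exact h'.elim
      | ed e => exact h.elim
    | ed e =>
      cases y with
      | vx w =>
        cases z with
        | vx u =>
          have h2 : w = u := h'
          rw [← h2]; exact h
        | ed f => exact h'.elim
      | ed f =>
        have h2 : e = f := h
        cases z with
        | vx u => rw [h2]; exact h'
        | ed g => exact Eq.trans h h'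
  le_antisymm x y h h' := by
    cases x with
    | vx v =>
      cases y with
      | vx w => exact congrArg _ h
      | ed e => exact h.elim
    | ed e =>
      cases y with
      | vx w => exact h'.elim
      | ed f => exact congrArg _ h

theorem le_vv {v w : V} : (Tr.vx v : Tr a b) ≤ .vx w ↔ v = w := Iff.rfl
theorem le_ee {e f : E} : (Tr.ed e : Tr a b) ≤ .ed f ↔ e = f := Iff.rfl
theorem le_ev {e : E} {v : V} : (Tr.ed e : Tr a b) ≤ .vx v ↔ a e = v ∨ b e = v := Iff.rfl
theorem le_ve {e : E} {v : V} : ¬ (Tr.vx v : Tr a b) ≤ .ed e := fun h => h
theorem lt_vv {v w : V} : ¬ (Tr.vx v : Tr a b) < .vx w := fun h =>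
  h.ne (congrArg _ (le_vv.1 h.le))
theorem lt_ee {e f : E} : ¬ (Tr.ed e : Tr a b) < .ed f := fun h =>
  h.ne (congrArg _ (le_ee.1 h.le))
theorem lt_ev {e : E} {v : V} : (Tr.ed e : Tr a b) < .vx v ↔ a e = v ∨ b e = v := by
  rw [lt_iff_le_not_ge, le_ev]
  exact and_iff_left le_ve
theorem lt_ve {e : E} {v : V} : ¬ (Tr.vx v : Tr a b) < .ed e := fun h => le_ve h.le

/-- rank -/
def rk : Tr a b → ℕ
  | .vx _ => 1
  | .ed _ => 0

theorem rk_lt {x y : Tr a b} (h : x < y) : rk x < rk y := by
  cases x with
  | vx v =>
    cases y with
    | vx w => exact (lt_vv h).elim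
    | ed e => exact (lt_ve h).elim
  | ed e =>
    cases y with
    | vx w => exact Nat.zero_lt_one
    | ed f => exact (lt_ee h).elim

theorem rk_le (x : Tr a b) : rk x ≤ 1 := by cases x <;> simp [rk]

theorem finHtOn (S : Set (Tr a b)) : FinHtOn S :=
  ⟨1, rk, fun _ _ _ _ h => rk_lt h, fun x _ => rk_le x⟩

/-- the part of depth at most `D` -/
def TT (dep : V → ℕ) (D : ℕ) : Set (Tr a b) := fun x =>
  match x with
  | .vx v => dep v ≤ D
  | .ed e => dep (a e) ≤ D ∧ dep (b e) ≤ D

theorem mem_TT_v {dep : V → ℕ} {D : ℕ} {v : V} :
    (Tr.vx v : Tr a b) ∈ TT dep D ↔ dep v ≤ D := Iff.rfl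
theorem mem_TT_e {dep : V → ℕ} {D : ℕ} {e : E} :
    (Tr.ed e : Tr a b) ∈ TT dep D ↔ dep (a e) ≤ D ∧ dep (b e) ≤ D := Iff.rfl

/-- new edges -/
def NE (dep : V → ℕ) (D : ℕ) : Set (Tr a b) := fun x =>
  match x with
  | .vx _ => False
  | .ed e => (dep (a e) = D + 1 ∧ dep (b e) = D) ∨ (dep (a e) = D ∧ dep (b e) = D + 1)

/-- new vertices -/
def NV (dep : V → ℕ) (D : ℕ) : Set (Tr a b) := fun x =>
  match x with
  | .vx v => dep v = D + 1
  | .ed _ => False

theorem wc_singleton_of {X : Type} [PartialOrder X] {S : Set X} (x : X) (h : ∀ y, y ∈ S ↔ y = x) :
    WC S :=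
  WC.cone x ((h x).2 rfl) fun y hy => Or.inl ((h y).1 hy).le

theorem wc_add {X : Type} [PartialOrder X] {S N : Set X} (hN : ∀ x ∈ N, ∀ y ∈ N, ¬ x < y)
    (hSN : Disjoint S N) (hl : ∀ x ∈ N, WC (Lk S x)) (h : WC S) : WC (S ∪ N) :=
  (HEq'.add_antichain hN hSN hl).wc.1 h

theorem min_root {dep : V → ℕ} {root : V}
    (h3 : ∀ v, v ≠ root → ∃! e, (a e = v ∧ dep (b e) < dep v) ∨ (b e = v ∧ dep (a e) < dep v)) :
    ∀ n, ∀ v, dep v = n → dep v ≤ dep root → v = root := by
  intro n
  induction n using Nat.strong_induction_on with
  | _ n ih =>
    intro v hv hle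
    by_contra hne
    obtain ⟨e, he, -⟩ := h3 v hne
    rcases he with ⟨h1, h2⟩ | ⟨h1, h2⟩
    · have := ih (dep (b e)) (by omega) (b e) rfl (by omega)
      rw [this] at h2; omega
    · have := ih (dep (a e)) (by omega) (a e) rfl (by omega)
      rw [this] at h2; omega

theorem tree_step {dep : V → ℕ} {root : V}
    (h2 : ∀ e, dep (a e) = dep (b e) + 1 ∨ dep (b e) = dep (a e) + 1)
    (h3 : ∀ v, v ≠ root → ∃! e, (a e = v ∧ dep (b e) < dep v) ∨ (b e = v ∧ dep (a e) < dep v))
    (D : ℕ) (hD : dep root ≤ D) (h : WC (TT dep D : Set (Tr a b))) :
    WC (TT dep (D + 1) : Set (Tr a b)) := by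
  -- new edges
  have s1 : WC (TT dep D ∪ NE dep D : Set (Tr a b)) := by
    refine wc_add ?_ ?_ ?_ h
    · intro x hx y hy
      cases x with
      | vx v => exact hx.elim
      | ed e =>
        cases y with
        | vx v => exact hy.elim
        | ed f => exact lt_ee
    · rw [Set.disjoint_left]
      intro x hx hx'
      cases x with
      | vx v => exact hx'
      | ed e =>
        have h4 := mem_TT_e.1 hx
        have h5 : (dep (a e) = D + 1 ∧ dep (b e) = D) ∨ (dep (a e) = D ∧ dep (b e) = D + 1) := hx'
        omega
    · intro x hx
      cases x with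
      | vx v => exact hx.elim
      | ed e =>
        have h5 : (dep (a e) = D + 1 ∧ dep (b e) = D) ∨ (dep (a e) = D ∧ dep (b e) = D + 1) := hx
        rcases h5 with ⟨h6, h7⟩ | ⟨h6, h7⟩
        · refine wc_singleton_of (Tr.vx (b e)) fun y => ?_
          constructor
          · rintro ⟨hy, hy'⟩
            cases y with
            | vx v =>
              have h8 := mem_TT_v.1 hy
              have h9 : a e = v ∨ b e = v := by
                rcases hy' with h | h
                · exact (lt_ve h).elim
                · exact lt_ev.1 h
              rcases h9 with h9 | h9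
              · rw [← h9] at h8; omega
              · rw [h9]
            | ed f =>
              rcases hy' with h | h
              · exact (lt_ee h).elim
              · exact (lt_ee h).elim
          · rintro rfl
            exact ⟨mem_TT_v.2 h7.le, Or.inr (lt_ev.2 (Or.inr rfl))⟩
        · refine wc_singleton_of (Tr.vx (a e)) fun y => ?_
          constructor
          · rintro ⟨hy, hy'⟩
            cases y with
            | vx v =>
              have h8 := mem_TT_v.1 hy
              have h9 : a e = v ∨ b e = v := by
                rcases hy' with h | h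
                · exact (lt_ve h).elim
                · exact lt_ev.1 h
              rcases h9 with h9 | h9
              · rw [h9]
              · rw [← h9] at h8; omega
            | ed f =>
              rcases hy' with h | h
              · exact (lt_ee h).elim
              · exact (lt_ee h).elim
          · rintro rfl
            exact ⟨mem_TT_v.2 h6.le, Or.inr (lt_ev.2 (Or.inl rfl))⟩
  have s2 : WC ((TT dep D ∪ NE dep D) ∪ NV dep D : Set (Tr a b)) := by
    refine wc_add ?_ ?_ ?_ s1
    · intro x hx y hy
      cases x with
      | vx v =>
        cases y with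
        | vx w => exact lt_vv
        | ed f => exact hy.elim
      | ed e => exact hx.elim
    · rw [Set.disjoint_left]
      intro x hx hx'
      cases x with
      | vx v =>
        have h5 : dep v = D + 1 := hx'
        rcases hx with hx | hx
        · have := mem_TT_v.1 hx; omega
        · exact hx
      | ed e => exact hx'
    · intro x hx
      cases x with
      | ed e => exact hx.elim
      | vx v =>
        have h5 : dep v = D + 1 := hx
        have hne : v ≠ root := by rintro rfl; omega
        obtain ⟨e, he, hu⟩ := h3 v hne
        refine wc_singleton_of (Tr.ed e) fun y => ?_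
        constructor
        · rintro ⟨hy, hy'⟩
          cases y with
          | vx w =>
            rcases hy' with h | h
            · exact (lt_vv h).elim
            · exact (lt_vv h).elim
          | ed f =>
            have h9 : a f = v ∨ b f = v := by
              rcases hy' with h | h
              · exact lt_ev.1 h
              · exact (lt_ve h).elim
            have h10 := h2 f
            have h11 : (dep (a f) ≤ D ∧ dep (b f) ≤ D) ∨ ((dep (a f) = D + 1 ∧ dep (b f) = D) ∨
              (dep (a f) = D ∧ dep (b f) = D + 1)) := hy
            have : f = e := by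
              refine hu f ?_
              rcases h9 with h9 | h9
              · left
                refine ⟨h9, ?_⟩
                rw [h9] at h11 h10; omega
              · right
                refine ⟨h9, ?_⟩
                rw [h9] at h11 h10; omega
            rw [this]
        · rintro rfl
          have h10 := h2 e
          refine ⟨Or.inr ?_, Or.inl (lt_ev.2 ?_)⟩
          · rcases he with ⟨h11, h12⟩ | ⟨h11, h12⟩
            · left
              rw [h11] at h10 ⊢
              omega
            · right
              rw [h11] at h10 ⊢
              omega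
          · rcases he with ⟨h11, h12⟩ | ⟨h11, h12⟩
            · exact Or.inl h11
            · exact Or.inr h11
  have : (TT dep (D + 1) : Set (Tr a b)) = (TT dep D ∪ NE dep D) ∪ NV dep D := by
    ext x
    cases x with
    | vx v =>
      constructor
      · intro hx
        have h4 := mem_TT_v.1 hx
        rcases Nat.lt_or_ge (dep v) (D + 1) with h5 | h5
        · exact Or.inl (Or.inl (mem_TT_v.2 (by omega)))
        · exact Or.inr (show dep v = D + 1 by omega)
      · rintro ((hx | hx) | hx)
        · exact mem_TT_v.2 ((mem_TT_v.1 hx).trans (Nat.le_succ D))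
        · exact hx.elim
        · exact mem_TT_v.2 (le_of_eq hx)
    | ed e =>
      have h10 := h2 e
      constructor
      · intro hx
        have h4 := mem_TT_e.1 hx
        by_cases h5 : dep (a e) ≤ D ∧ dep (b e) ≤ D
        · exact Or.inl (Or.inl h5)
        · refine Or.inl (Or.inr ?_)
          show (dep (a e) = D + 1 ∧ dep (b e) = D) ∨ (dep (a e) = D ∧ dep (b e) = D + 1)
          omega
      · rintro ((hx | hx) | hx)
        · have h4 := mem_TT_e.1 hx
          exact mem_TT_e.2 (by omega)
        · have h5 : (dep (a e) = D + 1 ∧ dep (b e) = D) ∨
            (dep (a e) = D ∧ dep (b e) = D + 1) := hx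
          exact mem_TT_e.2 (by omega)
        · exact hx.elim
  rw [this]
  exact s2

theorem tree_wc (hT : IsTree a b) : WC (Set.univ : Set (Tr a b)) := by
  obtain ⟨dep, root, h1, h2, h3⟩ := hT
  have hmin := fun v (hv : dep v ≤ dep root) => min_root h3 (dep v) v rfl hv
  have key : ∀ i, WC (TT dep (dep root + i) : Set (Tr a b)) := by
    intro i
    induction i with
    | zero =>
      refine wc_singleton_of (Tr.vx root) fun y => ?_
      constructor
      · intro hy
        cases y with
        | vx v => rw [hmin v (mem_TT_v.1 hy)]
        | ed e =>
          have h4 := mem_TT_e.1 hy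
          have h5 := hmin _ h4.1
          have h6 := hmin _ h4.2
          have h7 := h2 e
          rw [h5, h6] at h7
          omega
      · rintro rfl
        exact mem_TT_v.2 le_rfl
    | succ i ih => exact tree_step h2 h3 _ (Nat.le_add_right _ _) ih
  have hmono : Monotone fun i => (TT dep (dep root + i) : Set (Tr a b)) := by
    intro i j hij x hx
    cases x with
    | vx v =>
      exact mem_TT_v.2 ((mem_TT_v.1 hx).trans (Nat.add_le_add_left hij _))
    | ed e =>
      exact mem_TT_e.2 ⟨(mem_TT_e.1 hx).1.trans (Nat.add_le_add_left hij _),
        (mem_TT_e.1 hx).2.trans (Nat.add_le_add_left hij _)⟩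
  have hU : (⋃ i, (TT dep (dep root + i) : Set (Tr a b))) = Set.univ := by
    rw [Set.eq_univ_iff_forall]
    intro x
    cases x with
    | vx v => exact Set.mem_iUnion.2 ⟨dep v, mem_TT_v.2 (Nat.le_add_left _ _)⟩
    | ed e =>
      refine Set.mem_iUnion.2 ⟨dep (a e) + dep (b e), mem_TT_e.2 ⟨?_, ?_⟩⟩ <;> omega
  rw [← hU]
  exact ⟨fun k => Hvan.iUnion hmono k fun i => (key i).1 k, SC.iUnion hmono fun i => (key i).2⟩

end DMc

open DMc in
/-- a tree of weakly contractible posets is weakly contractible -/
theorem dm_wc {α β : Q → P} (hα : Monotone α) (hβ : Monotone β) {V E : Type} (a b : E → V)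
    (hT : IsTree a b) (πP : P → V) (πQ : Q → E)
    (hP : ∀ x y, x ≤ y → πP x = πP y) (hQ : ∀ x y, x ≤ y → πQ x = πQ y)
    (ha : ∀ x, πP (α x) = a (πQ x)) (hb : ∀ x, πP (β x) = b (πQ x))
    (hfP : FinHt P) (hfQ : FinHt Q)
    (h1 : ∀ v, WC {x | πP x = v}) (h2 : ∀ e, WC {x | πQ x = e}) :
    @WC (DM α β) (DM.po hα hβ) Set.univ := by
  letI := DM.po hα hβ
  have lett : ∀ x y : P, (DM.top x : DM α β) ≤ .top y ↔ x ≤ y := fun _ _ => Iff.rfl
  have lebb : ∀ x y : Q, (DM.bot x : DM α β) ≤ .bot y ↔ x ≤ y := fun _ _ => Iff.rfl
  have lebt : ∀ (x : Q) (y : P), (DM.bot x : DM α β) ≤ .top y ↔ α x ≤ y ∨ β x ≤ y :=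
    fun _ _ => Iff.rfl
  have letb : ∀ (x : P) (y : Q), ¬ (DM.top x : DM α β) ≤ .bot y := fun _ _ h => h
  obtain ⟨NP, ρP, hρP, hNP⟩ := hfP
  obtain ⟨NQ, ρQ, hρQ, hNQ⟩ := hfQ
  have hab : ∀ e, a e ≠ b e := by
    obtain ⟨dep, root, -, h4, -⟩ := hT
    intro e he
    have := h4 e
    rw [he] at this
    omega
  have hfin : ∀ S : Set (DM α β), FinHtOn S := by
    intro S
    refine ⟨NQ + 1 + NP, fun x => match x with
      | .top x => NQ + 1 + ρP x
      | .bot x => ρQ x, ?_, ?_⟩
    · intro x _ y _ h
      cases x with
      | top x =>
        cases y with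
        | top y =>
          have h5 : x < y := by
            rw [lt_iff_le_not_ge, lett, lett] at h
            exact lt_iff_le_not_ge.2 h
          exact Nat.add_lt_add_left (hρP _ _ h5) _
        | bot y => exact (letb _ _ h.le).elim
      | bot x =>
        cases y with
        | top y =>
          have := hNQ x
          show ρQ x < NQ + 1 + ρP y
          omega
        | bot y =>
          have h5 : x < y := by
            rw [lt_iff_le_not_ge, lebb, lebb] at h
            exact lt_iff_le_not_ge.2 h
          exact hρQ _ _ h5
    · intro x _
      cases x with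
      | top x => exact Nat.add_le_add_left (hNP x) _
      | bot x =>
        have := hNQ x
        show ρQ x ≤ NQ + 1 + NP
        omega
  let f : DM α β → Tr a b := fun x => match x with
    | .top x => .vx (πP x)
    | .bot x => .ed (πQ x)
  have hq : HEq' (Set.univ : Set (DM α β)) (Set.univ : Set (Tr a b)) := by
    refine HEq'.quillen_le (hfin _) (finHtOn _) f (fun _ _ => trivial) ?_ ?_
    · intro x _ y _ h
      cases x with
      | top x =>
        cases y with
        | top y => exact hP _ _ ((lett _ _).1 h)
        | bot y => exact (letb _ _ h).elim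
      | bot x =>
        cases y with
        | top y =>
          rcases (lebt _ _).1 h with h | h
          · exact Or.inl ((ha x).symm.trans (hP _ _ h))
          · exact Or.inr ((hb x).symm.trans (hP _ _ h))
        | bot y => exact hQ _ _ ((lebb _ _).1 h)
    · intro t _
      cases t with
      | vx v =>
        have hr : HEq' {x ∈ (Set.univ : Set (DM α β)) | f x ≤ Tr.vx v}
            {x : DM α β | ∃ y, x = .top y ∧ πP y = v} := by
          refine HEq'.retract_up (hfin _) ?_
            (fun x => match x with
              | .top x => .top x
              | .bot x => if a (πQ x) = v then .top (α x) else .top (β x)) ?_ ?_ ?_ ?_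
          · rintro x ⟨y, rfl, hy⟩
            exact ⟨trivial, hy⟩
          · rintro x ⟨-, hx⟩
            cases x with
            | top x => exact ⟨x, rfl, hx⟩
            | bot x =>
              show ∃ y, (if a (πQ x) = v then DM.top (α x) else DM.top (β x)) = DM.top y ∧ πP y = v
              split_ifs with h5
              · exact ⟨_, rfl, (ha x).trans h5⟩
              · refine ⟨_, rfl, (hb x).trans ?_⟩
                have h6 : a (πQ x) = v ∨ b (πQ x) = v := hx
                exact h6.resolve_left h5
          · rintro x ⟨y, rfl, hy⟩
            rfl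
          · rintro x ⟨-, hx⟩ y ⟨-, hy⟩ h
            cases x with
            | top x =>
              cases y with
              | top y => exact h
              | bot y => exact (letb _ _ h).elim
            | bot x =>
              cases y with
              | top y =>
                show (if a (πQ x) = v then (DM.top (α x) : DM α β) else DM.top (β x)) ≤ DM.top y
                have h6 : a (πQ x) = v ∨ b (πQ x) = v := hx
                have h7 : πP y = v := hy
                split_ifs with h5
                · refine (lett _ _).2 ?_
                  rcases (lebt _ _).1 h with h | h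
                  · exact h
                  · exact (hab _ (h5.trans (h7.symm.trans ((hP _ _ h).symm.trans (hb x))))).elim
                · refine (lett _ _).2 ?_
                  rcases (lebt _ _).1 h with h | h
                  · exact (h5 ((ha x).symm.trans ((hP _ _ h).trans h7))).elim
                  · exact h
              | bot y =>
                show (if a (πQ x) = v then (DM.top (α x) : DM α β) else DM.top (β x)) ≤
                  (if a (πQ y) = v then (DM.top (α y) : DM α β) else DM.top (β y))
                have h5 := (lebb _ _).1 h
                rw [hQ _ _ h5]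
                split_ifs
                · exact (lett _ _).2 (hα h5)
                · exact (lett _ _).2 (hβ h5)
          · rintro x ⟨-, hx⟩
            cases x with
            | top x => exact le_refl _
            | bot x =>
              show (DM.bot x : DM α β) ≤ (if a (πQ x) = v then (DM.top (α x) : DM α β)
                else DM.top (β x))
              split_ifs
              · exact (lebt _ _).2 (Or.inl le_rfl)
              · exact (lebt _ _).2 (Or.inr le_rfl)
        refine hr.wc.2 ((HEq'.of_iso (fun x : P => (DM.top x : DM α β)) ⟨?_, ?_, ?_⟩ ?_).wc.1 (h1 v))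
        · intro x hx
          exact ⟨x, rfl, hx⟩
        · intro x _ y _ h
          exact DM.top.inj h
        · rintro x ⟨y, rfl, hy⟩
          exact ⟨y, hy, rfl⟩
        · intro x _ y _
          rw [lt_iff_le_not_ge, lt_iff_le_not_ge, lett, lett]
      | ed e =>
        refine (HEq'.of_iso (fun x : Q => (DM.bot x : DM α β)) ⟨?_, ?_, ?_⟩ ?_).wc.1 (h2 e)
        · intro x hx
          exact ⟨trivial, hx⟩
        · intro x _ y _ h
          exact DM.bot.inj h
        · rintro x ⟨-, hx⟩
          cases x with
          | top x => exact (le_ve hx).elim
          | bot x => exact ⟨x, hx, rfl⟩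
        · intro x _ y _
          rw [lt_iff_le_not_ge, lt_iff_le_not_ge, lebb, lebb]
  exact hq.wc.2 (tree_wc hT)

end

end Pool.Agent.Helper59.PD
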