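import Mathlib

/-! Group theory of the tower of HNN extensions. -/

set_option autoImplicit false

open scoped Classical

namespace Pool.Agent.Helper59.PD

noncomputable section

namespace GrpAux

open HNNExtension HNNExtension.NormalWord

/-- exponent sum of the stable letter -/
def expo {H : Type} [Group H] (A B : Subgroup H) (φ : A ≃* B) :
    HNNExtension H A B φ →* Multiplicative ℤ :=
  HNNExtension.lift 1 (Multiplicative.ofAdd 1) (by intro a; simp)

theorem expo_t {H : Type} [Group H] (A B : Subgroup H) (φ : A ≃* B) :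
    expo A B φ HNNExtension.t = Multiplicative.ofAdd 1 := by
  unfold expo
  rw [HNNExtension.lift_t]

theorem expo_of {H : Type} [Group H] (A B : Subgroup H) (φ : A ≃* B) (g : H) :
    expo A B φ (HNNExtension.of g) = 1 := by
  unfold expo
  rw [HNNExtension.lift_of]
  rfl

/-- the element of a letter -/
def lt {H : Type} [Group H] {A B : Subgroup H} {φ : A ≃* B} (x : ℤˣ × H) :
    HNNExtension H A B φ := HNNExtension.t ^ (x.1 : ℤ) * HNNExtension.of x.2

/-- powers of strongly reduced words are not trivial -/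
theorem pow_eq_one {H : Type} [Group H] {A B : Subgroup H} {φ : A ≃* B}
    (L : List (ℤˣ × H)) (hne : L ≠ []) (hL : ∀ p ∈ L, p.2 ∉ HNNExtension.toSubgroup A B p.1)
    (n : ℕ) (h : ((L.map (lt (φ := φ))).prod) ^ n = 1) : n = 0 := by
  by_contra hn
  have hmem : ∀ p ∈ (List.replicate n L).flatten, p ∈ L := by
    intro p hp
    rw [List.mem_flatten] at hp
    obtain ⟨l, hl, hpl⟩ := hp
    rw [List.mem_replicate] at hl
    rwa [hl.2] at hpl
  have hprod : ∀ n : ℕ, (((List.replicate n L).flatten).map (lt (φ := φ))).prod =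
      ((L.map (lt (φ := φ))).prod) ^ n := by
    intro n
    induction n with
    | zero => simp
    | succ n ih =>
      rw [List.replicate_succ, List.flatten_cons, List.map_append, List.prod_append, ih,
        pow_succ']
  let w : ReducedWord H A B :=
    { head := 1
      toList := (List.replicate n L).flatten
      chain := by
        apply List.Pairwise.isChain
        apply List.pairwise_of_forall_mem_list
        intro a ha b _ hc
        exact absurd hc (hL a (hmem a ha)) }
  have hw : w.prod φ = 1 := by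
    show HNNExtension.of 1 * (((List.replicate n L).flatten).map (lt (φ := φ))).prod = 1
    rw [hprod, h, map_one, one_mul]
  have h2 := HNNExtension.ReducedWord.toList_eq_nil_of_mem_of_range φ w
    (by rw [hw]; exact one_mem _)
  have h3 : (List.replicate n L).flatten = [] := h2
  rw [List.flatten_eq_nil_iff] at h3
  exact hne (h3 L (by rw [List.mem_replicate]; exact ⟨hn, rfl⟩))

theorem pow_eq_one_int {H : Type} [Group H] {A B : Subgroup H} {φ : A ≃* B}
    (L : List (ℤˣ × H)) (hne : L ≠ []) (hL : ∀ p ∈ L, p.2 ∉ HNNExtension.toSubgroup A B p.1)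
    (n : ℤ) (h : ((L.map (lt (φ := φ))).prod) ^ n = 1) : n = 0 := by
  have h2 : ((L.map (lt (φ := φ))).prod) ^ n.natAbs = 1 := by
    rcases Int.natAbs_eq n with hn | hn
    · rw [hn, zpow_natCast] at h
      exact h
    · rw [hn, zpow_neg, zpow_natCast, inv_eq_one] at h
      exact h
  exact Int.natAbs_eq_zero.1 (pow_eq_one L hne hL _ h2)

theorem pow_not_mem {H : Type} [Group H] {a : H} (ha : ∀ n : ℤ, a ^ n = 1 → n = 0) {k : ℕ}
    (hk : 2 ≤ k) {e : ℤ} (he : e = 1 ∨ e = -1) : a ^ e ∉ Subgroup.zpowers (a ^ k) := by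
  rw [Subgroup.mem_zpowers_iff]
  rintro ⟨m, hm⟩
  have h1 : a ^ ((k : ℤ) * m - e) = 1 := by
    rw [zpow_sub, zpow_mul, zpow_natCast, hm, mul_inv_cancel]
  have h2 := ha _ h1
  have h3 : (k : ℤ) ∣ e := ⟨m, by linarith⟩
  have h4 : (k : ℤ) ∣ 1 := by
    rcases he with rfl | rfl
    · exact h3
    · exact (Int.dvd_neg).1 h3
  have h5 := Int.le_of_dvd one_pos h4
  omega

end GrpAux

/-- the stable letter of an HNN extension has infinite order modulo everything -/
theorem hnn_t_order {H : Type} [Group H] (A B : Subgroup H) (φ : A ≃* B) (k : ℕ) (hk : 1 ≤ k)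
    (n : ℤ) (h : (((HNNExtension.t : HNNExtension H A B φ)⁻¹) ^ k) ^ n = 1) : n = 0 := by
  have h1 := congrArg (fun x => Multiplicative.toAdd (GrpAux.expo A B φ x)) h
  simp only [map_zpow, map_pow, map_inv, GrpAux.expo_t, (GrpAux.expo A B φ).map_one, toAdd_zpow,
    toAdd_pow, toAdd_inv, toAdd_ofAdd, toAdd_one, smul_eq_mul, nsmul_eq_mul] at h1
  have hk' : (k : ℤ) ≠ 0 := by omega
  rcases mul_eq_zero.1 h1 with h3 | h3
  · exact h3
  · exfalso
    rcases mul_eq_zero.1 h3 with h4 | h4
    · exact hk' h4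
    · norm_num at h4

/-- the word `t a t⁻¹ a t a⁻¹ t⁻¹ a⁻¹` -/
def cw {K : Type} [Group K] (t a : K) : K := t * a * t⁻¹ * a * t * a⁻¹ * t⁻¹ * a⁻¹

theorem bs_c_order {H : Type} [Group H] (a : H) (ha : ∀ n : ℤ, a ^ n = 1 → n = 0)
    (φ : Subgroup.zpowers (a ^ 2) ≃* Subgroup.zpowers (a ^ 3))
    (n : ℤ) (h : (cw (HNNExtension.t : HNNExtension H _ _ φ) (HNNExtension.of a)) ^ n = 1) :
    n = 0 := by
  have m1 : a ∉ Subgroup.zpowers (a ^ 2) := by
    have := GrpAux.pow_not_mem ha (k := 2) (by norm_num) (e := 1) (Or.inl rfl)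
    rwa [zpow_one] at this
  have m2 : a ∉ Subgroup.zpowers (a ^ 3) := by
    have := GrpAux.pow_not_mem ha (k := 3) (by norm_num) (e := 1) (Or.inl rfl)
    rwa [zpow_one] at this
  refine GrpAux.pow_eq_one_int (φ := φ) [(1, a), (-1, a), (1, a⁻¹), (-1, a⁻¹)] (by simp) ?_ n ?_
  · intro p hp
    simp only [List.mem_cons, List.not_mem_nil, or_false] at hp
    rcases hp with rfl | rfl | rfl | rfl
    · exact m1
    · exact m2
    · exact fun hh => m1 ((Subgroup.inv_mem_iff _).1 hh)
    · exact fun hh => m2 ((Subgroup.inv_mem_iff _).1 hh)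
  · rw [← h]
    refine congrArg (fun x => x ^ n) ?_
    simp only [List.map_cons, List.map_nil, List.prod_cons, List.prod_nil, GrpAux.lt, cw,
      Units.val_one, Units.val_neg, zpow_one, zpow_neg, mul_one, mul_assoc, map_inv]

theorem bs_cs_order {H : Type} [Group H] (a s : H) (ha : ∀ n : ℤ, a ^ n = 1 → n = 0)
    (hs : ∀ n : ℤ, s * a ≠ a ^ n)
    (φ : Subgroup.zpowers (a ^ 2) ≃* Subgroup.zpowers (a ^ 3))
    (n : ℤ) (h : ((cw (HNNExtension.t : HNNExtension H _ _ φ) (HNNExtension.of a))⁻¹ *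
      HNNExtension.of s) ^ n = 1) : n = 0 := by
  have m1 : a ∉ Subgroup.zpowers (a ^ 2) := by
    have := GrpAux.pow_not_mem ha (k := 2) (by norm_num) (e := 1) (Or.inl rfl)
    rwa [zpow_one] at this
  have m2 : a ∉ Subgroup.zpowers (a ^ 3) := by
    have := GrpAux.pow_not_mem ha (k := 3) (by norm_num) (e := 1) (Or.inl rfl)
    rwa [zpow_one] at this
  have m3 : s * a ∉ Subgroup.zpowers (a ^ 3) := by
    rw [Subgroup.mem_zpowers_iff]
    rintro ⟨m, hm⟩
    apply hs (3 * m)
    rw [← hm, zpow_mul]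
    norm_cast
  refine GrpAux.pow_eq_one_int (φ := φ) [(1, a), (-1, a⁻¹), (1, a⁻¹), (-1, s * a)] (by simp)
    ?_ n ?_
  · intro p hp
    simp only [List.mem_cons, List.not_mem_nil, or_false] at hp
    rcases hp with rfl | rfl | rfl | rfl
    · exact m1
    · exact fun hh => m2 ((Subgroup.inv_mem_iff _).1 hh)
    · exact fun hh => m1 ((Subgroup.inv_mem_iff _).1 hh)
    · exact m3
  · have key : (List.map (GrpAux.lt (φ := φ))
        [(1, a), (-1, a⁻¹), (1, a⁻¹), (-1, s * a)]).prod =
        (HNNExtension.of a)⁻¹ * ((cw (HNNExtension.t : HNNExtension H _ _ φ)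
          (HNNExtension.of a))⁻¹ * HNNExtension.of s) * ((HNNExtension.of a)⁻¹)⁻¹ := by
      simp only [List.map_cons, List.map_nil, List.prod_cons, List.prod_nil, GrpAux.lt, cw,
        Units.val_one, Units.val_neg, zpow_one, zpow_neg, mul_one, map_inv, map_mul]
      group
    rw [key, conj_zpow, h]
    group

/-- in a finite group the relations of the tower kill `s` -/
theorem finite_kill {Q : Type} [Group Q] [Finite Q] (a t u s : Q)
    (h1 : t * a ^ 2 * t⁻¹ = a ^ 3) (h2 : u * cw t a * u⁻¹ = (cw t a)⁻¹ * s) : s = 1 := by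
  have hord : orderOf (a ^ 2) = orderOf (a ^ 3) := by
    rw [← h1]
    have : t * a ^ 2 * t⁻¹ = MulAut.conj t (a ^ 2) := rfl
    rw [this]
    exact (orderOf_injective (MulAut.conj t).toMonoidHom (MulAut.conj t).injective (a ^ 2)).symm
  have hpos : 0 < orderOf a := orderOf_pos a
  have hco : Nat.Coprime (orderOf a) 2 := by
    rw [orderOf_pow, orderOf_pow] at hord
    have d1 : (orderOf a).gcd 2 ∣ orderOf a := Nat.gcd_dvd_left _ _
    have d2 : (orderOf a).gcd 3 ∣ orderOf a := Nat.gcd_dvd_left _ _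
    have p1 : 0 < (orderOf a).gcd 2 := Nat.gcd_pos_of_pos_left _ hpos
    have p2 : 0 < (orderOf a).gcd 3 := Nat.gcd_pos_of_pos_left _ hpos
    have heq : (orderOf a).gcd 2 = (orderOf a).gcd 3 := by
      obtain ⟨x, hx⟩ := d1
      obtain ⟨y, hy⟩ := d2
      have e1 : orderOf a / (orderOf a).gcd 2 = x := by
        conv_lhs => rw [hx]
        rw [← hx]
        exact Nat.div_eq_of_eq_mul_right p1 hx
      have e2 : orderOf a / (orderOf a).gcd 3 = y :=
        Nat.div_eq_of_eq_mul_right p2 hy
      rw [e1, e2] at hord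
      subst hord
      have hx0 : 0 < x := by
        rcases Nat.eq_zero_or_pos x with h0 | h0
        · rw [h0, mul_zero] at hx; omega
        · exact h0
      have : (orderOf a).gcd 2 * x = (orderOf a).gcd 3 * x := by rw [← hx, ← hy]
      exact Nat.eq_of_mul_eq_mul_right hx0 this
    have g2 : (orderOf a).gcd 2 ∣ 2 := Nat.gcd_dvd_right _ _
    have g3 : (orderOf a).gcd 2 ∣ 3 := by rw [heq]; exact Nat.gcd_dvd_right _ _
    have : (orderOf a).gcd 2 ∣ 1 := by
      have := Nat.dvd_sub g3 g2
      simpa using this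
    exact Nat.dvd_one.1 this
  obtain ⟨m, hm⟩ := exists_pow_eq_self_of_coprime hco.symm
  have hcomm : Commute (t * a * t⁻¹) a := by
    have : t * a * t⁻¹ = a ^ (3 * m) := by
      conv_lhs => rw [← hm]
      rw [conj_pow.symm, h1, ← pow_mul]
    rw [this]
    exact (Commute.refl a).pow_left _
  have hc : cw t a = 1 := by
    have e1 : cw t a = (t * a * t⁻¹) * a * (t * a * t⁻¹)⁻¹ * a⁻¹ := by
      unfold cw
      group
    rw [e1, hcomm.eq]
    group
  rw [hc] at h2
  simpa using h2.symm

/-- the image of `s` lies in every subgroup of finite index -/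
theorem mem_of_finiteIndex {K : Type} [Group K] (a t u s : K)
    (h1 : t * a ^ 2 * t⁻¹ = a ^ 3) (h2 : u * cw t a * u⁻¹ = (cw t a)⁻¹ * s)
    (N : Subgroup K) (hN : N.FiniteIndex) : s ∈ N := by
  have : Finite (K ⧸ N.normalCore) := Subgroup.finite_quotient_of_finiteIndex
  let f := QuotientGroup.mk' N.normalCore
  have hcw : f (cw t a) = cw (f t) (f a) := by
    unfold cw
    simp only [map_mul, map_inv]
  have h3 : f s = 1 := by
    apply finite_kill (f a) (f t) (f u) (f s)
    · rw [← map_pow, ← map_mul, ← map_inv, ← map_mul, h1, map_pow]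
    · rw [← hcw, ← map_mul, ← map_inv, ← map_mul, h2, map_mul, map_inv]
  have h4 : s ∈ N.normalCore := (QuotientGroup.eq_one_iff s).1 h3
  exact N.normalCore_le h4

/-- in the free product of a finite group and `ℤ` (an HNN extension over the trivial group) -/
theorem free_letter {H : Type} [Group H] (s : H) (hs : s ≠ 1) (n : ℤ) :
    HNNExtension.of s * (HNNExtension.t : HNNExtension H ⊥ ⊥ (MulEquiv.refl _))⁻¹ ≠
      ((HNNExtension.t : HNNExtension H ⊥ ⊥ (MulEquiv.refl _))⁻¹) ^ n := by
  intro h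
  have h1 := congrArg (GrpAux.expo ⊥ ⊥ (MulEquiv.refl _)) h
  rw [map_mul, map_zpow, map_inv, GrpAux.expo_t, GrpAux.expo_of, one_mul, ← ofAdd_neg,
    ← ofAdd_zsmul] at h1
  have h2 : (-1 : ℤ) = n • (-1 : ℤ) := Multiplicative.ofAdd.injective h1
  have h3 : n = 1 := by
    simp only [smul_eq_mul] at h2
    linarith
  subst h3
  rw [zpow_one] at h
  have h4 : HNNExtension.of s = (1 : HNNExtension H ⊥ ⊥ (MulEquiv.refl _)) :=
    mul_eq_right.1 h
  exact hs (HNNExtension.of_injective _ (by rw [h4, map_one]))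

end

end Pool.Agent.Helper59.PD
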