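import Pool.Agent.Helper59.PD.YB

/-! The base of the tower: a star with `q` rays. -/

set_option autoImplicit false

open scoped Classical

namespace Pool.Agent.Helper59.PD

noncomputable section

namespace HBase

/-- the star with `q` rays: a centre, edges and outer vertices -/
inductive Star (q : ℕ) : Type
  | cen : Star q
  | edg (h : Multiplicative (ZMod q)) : Star q
  | ver (h : Multiplicative (ZMod q)) : Star q

variable {q : ℕ}

/-- order relation -/
def Star.Le : Star q → Star q → Prop
  | .cen, .cen => True
  | .edg _, .cen => True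
  | .edg h, .edg h' => h = h'
  | .edg h, .ver h' => h = h'
  | .ver h, .ver h' => h = h'
  | _, _ => False

instance : PartialOrder (Star q) where
  le := Star.Le
  le_refl a := by cases a <;> simp [Star.Le]
  le_trans a b c h h' := by
    cases a <;> cases b <;> cases c <;> simp_all [Star.Le]
  le_antisymm a b h h' := by
    cases a <;> cases b <;> simp_all [Star.Le]

theorem le_iff (a b : Star q) : a ≤ b ↔ Star.Le a b := Iff.rfl

/-- the type -/
def ty : Star q → ℕ
  | .edg _ => 0
  | _ => 1

theorem ty_lt (x y : Star q) (h : x < y) : ty x < ty y := by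
  rw [lt_iff_le_and_ne, le_iff] at h
  cases x <;> cases y <;> simp_all [Star.Le, ty]

/-- the action -/
def act (g : Multiplicative (ZMod q)) : Star q → Star q
  | .cen => .cen
  | .edg h => .edg (g * h)
  | .ver h => .ver (g * h)

instance : MulAction (Multiplicative (ZMod q)) (Star q) where
  smul := act
  one_smul a := by
    change act 1 a = a
    cases a <;> simp [act]
  mul_smul g g' a := by
    change act (g * g') a = act g (act g' a)
    cases a <;> simp [act, mul_assoc]

theorem smul_def (g : Multiplicative (ZMod q)) (a : Star q) : g • a = act g a := rfl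

theorem act_le (g : Multiplicative (ZMod q)) (x y : Star q) (h : x ≤ y) : g • x ≤ g • y := by
  rw [le_iff] at h ⊢
  rw [smul_def, smul_def]
  cases x <;> cases y <;> simp_all [Star.Le, act]

theorem act_lt (g : Multiplicative (ZMod q)) (x y : Star q) (h : x < y) : g • x < g • y :=
  lt_of_le_of_ne (act_le g x y h.le) fun e => h.ne (smul_left_cancel g e)

theorem edg_lt_cen (h : Multiplicative (ZMod q)) : (Star.edg h : Star q) < .cen := by
  rw [lt_iff_le_and_ne, le_iff]
  simp [Star.Le]

theorem edg_lt_ver (h : Multiplicative (ZMod q)) : (Star.edg h : Star q) < .ver h := by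
  rw [lt_iff_le_and_ne, le_iff]
  simp [Star.Le]

theorem wc_univ : WC (Set.univ : Set (Star q)) := by
  have h1 : WC ({x | ∀ h, x ≠ Star.ver h} : Set (Star q)) := by
    refine WC.cone Star.cen (by simp) ?_
    intro y hy
    left
    rw [le_iff]
    cases y with
    | cen => simp [Star.Le]
    | edg h => simp [Star.Le]
    | ver h => exact absurd rfl (hy h)
  have h2 : HEq' ({x | ∀ h, x ≠ Star.ver h} : Set (Star q))
      ({x | ∀ h, x ≠ Star.ver h} ∪ Set.range Star.ver : Set (Star q)) := by
    refine HEq'.add_antichain ?_ ?_ ?_
    · rintro _ ⟨h, rfl⟩ _ ⟨h', rfl⟩ hlt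
      have := ty_lt _ _ hlt
      simp [ty] at this
    · rw [Set.disjoint_left]
      rintro _ hx ⟨h, rfl⟩
      exact hx h rfl
    · rintro _ ⟨h, rfl⟩
      refine WC.cone (Star.edg h) ⟨by simp, Or.inl (edg_lt_ver h)⟩ ?_
      rintro y ⟨hy, hy'⟩
      left
      cases y with
      | cen =>
        exfalso
        rcases hy' with hy' | hy'
        · have := hy'.le
          rw [le_iff] at this
          simp [Star.Le] at this
        · have := hy'.le
          rw [le_iff] at this
          simp [Star.Le] at this
      | edg h' =>
        rcases hy' with hy' | hy'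
        · have := hy'.le
          rw [le_iff] at this
          simp only [Star.Le] at this
          rw [this]
        · have := hy'.le
          rw [le_iff] at this
          simp [Star.Le] at this
      | ver h' => exact absurd rfl (hy h')
  have h3 : ({x | ∀ h, x ≠ Star.ver h} ∪ Set.range Star.ver : Set (Star q)) = Set.univ := by
    ext x
    simp only [Set.mem_union, Set.mem_ofPred_eq, Set.mem_range, Set.mem_univ, iff_true]
    by_cases hx : ∃ y, Star.ver y = x
    · exact Or.inr hx
    · left
      intro h e
      exact hx ⟨h, e.symm⟩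
  rw [h3] at h2
  exact h2.wc.1 h1

theorem mem_zpowers (g : Multiplicative (ZMod q)) :
    ∃ k : ℤ, (Multiplicative.ofAdd (1 : ZMod q)) ^ k = g := by
  obtain ⟨k, hk⟩ := ZMod.intCast_surjective g.toAdd
  refine ⟨k, ?_⟩
  rw [← ofAdd_zsmul, zsmul_one, hk]
  rfl

end HBase

open HBase in
theorem yd_base (q : ℕ) (hq : 2 ≤ q) :
    Nonempty (YD (Multiplicative (ZMod q)) (Multiplicative.ofAdd (1 : ZMod q)) 3 2) := by
  have nep : ∀ y : Star q, (∀ h : Multiplicative (ZMod q), y ≠ h • Star.cen) → y ≠ Star.cen :=
    fun y hy => hy 1
  have cenfix : ∀ h : Multiplicative (ZMod q), h • (Star.cen : Star q) = Star.cen := fun h => rfl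
  refine ⟨{
    Y := Star q
    lt := act_lt
    typ := ty
    typ_lt := ty_lt
    typ_smul := ?_
    T := 1
    typ_le := ?_
    p := Star.cen
    stab := ?_
    free := ?_
    pmax := ?_
    wc := wc_univ
    orb := ?_
    upf := ?_
    v := Star.ver 1
    e := Star.edg 1
    vreg := ?_
    ep := edg_lt_cen 1
    ev := edg_lt_ver 1
    pdown := ?_ }⟩
  · intro g x
    cases x <;> rfl
  · intro x
    cases x <;> simp [ty]
  · intro g
    refine ⟨fun _ => ?_, fun _ => rfl⟩
    rw [Subgroup.mem_zpowers_iff]
    exact mem_zpowers g
  · intro g y hy hg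
    cases y with
    | cen => exact absurd rfl (nep _ hy)
    | edg h =>
      rw [smul_def, act, Star.edg.injEq] at hg
      simpa using hg
    | ver h =>
      rw [smul_def, act, Star.ver.injEq] at hg
      simpa using hg
  · intro y hy
    have := ty_lt _ _ hy
    have h2 := hy.le
    rw [le_iff] at h2
    cases y <;> simp_all [Star.Le, ty]
  · refine ⟨{Star.cen, Star.edg 1, Star.ver 1}, Finset.card_le_three, ?_⟩
    intro y
    cases y with
    | cen => exact ⟨1, by simp⟩
    | edg h => exact ⟨h⁻¹, by simp [smul_def, act]⟩
    | ver h => exact ⟨h⁻¹, by simp [smul_def, act]⟩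
  · intro y hy
    cases y with
    | cen => exact absurd rfl (nep _ hy)
    | edg h =>
      refine ⟨{Star.edg h, Star.ver h}, Finset.card_le_two, ?_⟩
      intro z hz hz'
      rw [le_iff] at hz
      cases z with
      | cen => exact absurd rfl (nep _ hz')
      | edg h' => simp only [Star.Le] at hz; simp [hz]
      | ver h' => simp only [Star.Le] at hz; simp [hz]
    | ver h =>
      refine ⟨{Star.edg h, Star.ver h}, Finset.card_le_two, ?_⟩
      intro z hz hz'
      rw [le_iff] at hz
      cases z with
      | cen => exact absurd rfl (nep _ hz')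
      | edg h' => simp [Star.Le] at hz
      | ver h' => simp only [Star.Le] at hz; simp [hz]
  · intro h e
    rw [cenfix] at e
    simp at e
  · intro y
    constructor
    · intro hy
      have h2 := hy.le
      rw [le_iff] at h2
      cases y with
      | cen => exact absurd hy (lt_irrefl _)
      | edg h =>
        obtain ⟨k, hk⟩ := mem_zpowers h
        exact ⟨k, by rw [smul_def, act, hk, mul_one]⟩
      | ver h => simp [Star.Le] at h2
    · rintro ⟨k, rfl⟩
      exact edg_lt_cen _

end

end Pool.Agent.Helper59.PD
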