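import Pool.Agent.Helper59.PD.YB

/-! Walks and the zigzag line. -/

set_option autoImplicit false

open scoped Classical

namespace Pool.Agent.Helper59.PD

noncomputable section

section walks

variable {H : Type} [Group H] {s : H} {N M : ℕ} (P : YB H s N M)

theorem YB.smul_le (g : H) {x y : P.Y} (h : x ≤ y) : g • x ≤ g • y := by
  rcases h.eq_or_lt with rfl | h
  · exact le_rfl
  · exact (P.lt g x y h).le

theorem YB.Aw.refl (x : P.Y) (hx : ∀ h : H, ¬ x ≤ h • P.p) (m : ℕ) : P.Aw x x m :=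
  ⟨fun _ => x, rfl, rfl, fun _ _ => ⟨le_rfl, le_rfl⟩, fun _ _ => hx⟩

theorem YB.Aw.trans {x y z : P.Y} {m m' : ℕ} (h : P.Aw x y m) (h' : P.Aw y z m') :
    P.Aw x z (m + m') := by
  obtain ⟨w, h0, h1, h2, h3⟩ := h
  obtain ⟨w', h0', h1', h2', h3'⟩ := h'
  refine ⟨fun i => if i ≤ 2 * m then w i else w' (i - 2 * m), ?_, ?_, ?_, ?_⟩
  · simp only [Nat.zero_le, if_true]
    exact h0
  · by_cases hm : m' = 0
    · subst hm
      simp only [Nat.add_zero, le_refl, if_true]
      rw [h1, ← h0', ← h1']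
    · have : ¬ 2 * (m + m') ≤ 2 * m := by omega
      simp only [this, if_false]
      rw [show 2 * (m + m') - 2 * m = 2 * m' by omega]
      exact h1'
  · intro i hi
    by_cases him : i < m
    · have e1 : 2 * i + 1 ≤ 2 * m := by omega
      have e2 : 2 * i ≤ 2 * m := by omega
      have e3 : 2 * i + 2 ≤ 2 * m := by omega
      simp only [e1, e2, e3, if_true]
      exact h2 i him
    · have e1 : ¬ 2 * i + 1 ≤ 2 * m := by omega
      have e3 : ¬ 2 * i + 2 ≤ 2 * m := by omega
      obtain ⟨a, b⟩ := h2' (i - m) (by omega)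
      have a1 : 2 * i + 1 - 2 * m = 2 * (i - m) + 1 := by omega
      have a3 : 2 * i + 2 - 2 * m = 2 * (i - m) + 2 := by omega
      simp only [e1, e3, if_false]
      rw [a1, a3]
      refine ⟨?_, b⟩
      by_cases e2 : 2 * i ≤ 2 * m
      · have : i = m := by omega
        subst this
        simp only [le_refl, if_true]
        rw [h1, ← h0']
        simpa using a
      · simp only [e2, if_false]
        rw [show 2 * i - 2 * m = 2 * (i - m) by omega]
        exact a
  · intro i hi
    by_cases e : i ≤ 2 * m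
    · simp only [e, if_true]
      exact h3 i e
    · simp only [e, if_false]
      exact h3' _ (by omega)

theorem YB.Aw.symm {x y : P.Y} {m : ℕ} (h : P.Aw x y m) : P.Aw y x m := by
  obtain ⟨w, h0, h1, h2, h3⟩ := h
  refine ⟨fun i => w (2 * m - i), ?_, ?_, ?_, ?_⟩
  · simpa using h1
  · simpa using h0
  · intro i hi
    obtain ⟨a, b⟩ := h2 (m - i - 1) (by omega)
    have e1 : 2 * m - (2 * i + 1) = 2 * (m - i - 1) + 1 := by omega
    have e2 : 2 * m - 2 * i = 2 * (m - i - 1) + 2 := by omega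
    have e3 : 2 * m - (2 * i + 2) = 2 * (m - i - 1) := by omega
    simp only [e1, e2, e3]
    exact ⟨b, a⟩
  · intro i hi
    exact h3 _ (by omega)

theorem YB.Aw.smul {x y : P.Y} {m : ℕ} (h : P.Aw x y m) (g : H) : P.Aw (g • x) (g • y) m := by
  obtain ⟨w, h0, h1, h2, h3⟩ := h
  refine ⟨fun i => g • w i, congrArg (g • ·) h0, congrArg (g • ·) h1, fun i hi => ?_,
    fun i hi k hk => ?_⟩
  · obtain ⟨a, b⟩ := h2 i hi
    exact ⟨P.smul_le g a, P.smul_le g b⟩
  · apply h3 i hi (g⁻¹ * k)
    have := P.smul_le g⁻¹ hk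
    rwa [inv_smul_smul, ← mul_smul] at this

theorem YB.Aw.mul {x : P.Y} {g g' : H} {m m' : ℕ} (h : P.Aw x (g • x) m)
    (h' : P.Aw x (g' • x) m') : P.Aw x ((g * g') • x) (m + m') := by
  rw [mul_smul]
  exact h.trans P (h'.smul P g)

theorem YB.Aw.inv {x : P.Y} {g : H} {m : ℕ} (h : P.Aw x (g • x) m) : P.Aw x (g⁻¹ • x) m := by
  have := (h.smul P g⁻¹).symm P
  rwa [inv_smul_smul] at this

theorem YB.Aw.pad {x y : P.Y} {m m' : ℕ} (h : P.Aw x y m) (hm : m ≤ m') : P.Aw x y m' := by
  obtain ⟨k, rfl⟩ := Nat.exists_eq_add_of_le hm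
  refine h.trans P (YB.Aw.refl P y ?_ k)
  obtain ⟨w, h0, h1, h2, h3⟩ := h
  rw [← h1]
  exact h3 _ le_rfl

end walks

/-! ### the zigzag line -/

/-- the zigzag line: integers, odd numbers are smaller than their neighbours -/
structure ZLine : Type where
  /-- the position -/
  n : ℤ

instance : PartialOrder ZLine where
  le x y := x = y ∨ (Odd x.n ∧ (y.n = x.n + 1 ∨ y.n = x.n - 1))
  le_refl x := Or.inl rfl
  le_trans x y z h h' := by
    rcases h with rfl | ⟨h1, h2⟩
    · exact h'
    · rcases h' with rfl | ⟨h3, _⟩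
      · exact Or.inr ⟨h1, h2⟩
      · exfalso
        rcases h2 with h2 | h2 <;> rw [h2] at h3
        · exact (Int.not_odd_iff_even.2 (h1.add_odd (by decide))) h3
        · exact (Int.not_odd_iff_even.2 (h1.sub_odd (by decide))) h3
  le_antisymm x y h h' := by
    rcases h with rfl | ⟨h1, h2⟩
    · rfl
    · rcases h' with rfl | ⟨h3, _⟩
      · rfl
      · exfalso
        rcases h2 with h2 | h2 <;> rw [h2] at h3
        · exact (Int.not_odd_iff_even.2 (h1.add_odd (by decide))) h3
        · exact (Int.not_odd_iff_even.2 (h1.sub_odd (by decide))) h3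

theorem ZLine.le_iff (x y : ZLine) : x ≤ y ↔ x = y ∨ (Odd x.n ∧ (y.n = x.n + 1 ∨ y.n = x.n - 1)) :=
  Iff.rfl

theorem ZLine.ext_n {x y : ZLine} (h : x.n = y.n) : x = y := by
  cases x; cases y; simp_all

theorem ZLine.lt_iff (x y : ZLine) : x < y ↔ (Odd x.n ∧ (y.n = x.n + 1 ∨ y.n = x.n - 1)) := by
  rw [lt_iff_le_and_ne, ZLine.le_iff]
  constructor
  · rintro ⟨h | h, hne⟩
    · exact absurd h hne
    · exact h
  · intro h
    refine ⟨Or.inr h, ?_⟩
    rintro rfl
    omega

/-- the segment from `-k` to `k` -/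
def zseg (k : ℕ) : Set ZLine := {x | -(k : ℤ) ≤ x.n ∧ x.n ≤ k}

theorem zseg_wc (k : ℕ) : WC (zseg k) := by
  induction k with
  | zero =>
    apply WC.cone ⟨0⟩ (by simp [zseg])
    intro y hy
    left
    rw [ZLine.le_iff]
    left
    apply ZLine.ext_n
    simp only [zseg, Set.mem_ofPred_eq, Nat.cast_zero] at hy
    change y.n = 0
    omega
  | succ k ih =>
    have e : zseg (k + 1) = zseg k ∪ {x | x.n = k + 1 ∨ x.n = -(k + 1 : ℤ)} := by
      ext x
      simp only [zseg, Set.mem_ofPred_eq, Set.mem_union, Nat.cast_add, Nat.cast_one]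
      omega
    have hN : ∀ x ∈ {x : ZLine | x.n = k + 1 ∨ x.n = -(k + 1 : ℤ)},
        ∀ y ∈ {x : ZLine | x.n = k + 1 ∨ x.n = -(k + 1 : ℤ)}, ¬ x < y := by
      intro x hx y hy hxy
      rw [ZLine.lt_iff] at hxy
      simp only [Set.mem_ofPred_eq] at hx hy
      omega
    have hd : Disjoint (zseg k) {x : ZLine | x.n = k + 1 ∨ x.n = -(k + 1 : ℤ)} := by
      rw [Set.disjoint_left]
      intro x hx hx'
      simp only [zseg, Set.mem_ofPred_eq] at hx hx'
      omega
    have hl : ∀ x ∈ {x : ZLine | x.n = k + 1 ∨ x.n = -(k + 1 : ℤ)}, WC (Lk (zseg k) x) := by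
      intro x hx
      simp only [Set.mem_ofPred_eq] at hx
      rcases hx with hx | hx
      · apply WC.cone ⟨k⟩
        · refine ⟨by simp [zseg], ?_⟩
          rw [ZLine.lt_iff, ZLine.lt_iff]
          simp only [hx]
          rcases Int.even_or_odd (k : ℤ) with h | h
          · right
            exact ⟨h.add_one, by right; ring⟩
          · left
            exact ⟨h, by left; trivial⟩
        · rintro y ⟨hy, hy'⟩
          rw [ZLine.lt_iff, ZLine.lt_iff] at hy'
          simp only [zseg, Set.mem_ofPred_eq] at hy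
          left
          have : y = ⟨k⟩ := ZLine.ext_n (by change y.n = k; omega)
          rw [this]
      · apply WC.cone ⟨-k⟩
        · refine ⟨by simp [zseg], ?_⟩
          rw [ZLine.lt_iff, ZLine.lt_iff]
          simp only [hx]
          rcases Int.even_or_odd (k : ℤ) with h | h
          · right
            exact ⟨h.add_one.neg, by left; ring⟩
          · left
            exact ⟨h.neg, by right; ring⟩
        · rintro y ⟨hy, hy'⟩
          rw [ZLine.lt_iff, ZLine.lt_iff] at hy'
          simp only [zseg, Set.mem_ofPred_eq] at hy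
          left
          have : y = ⟨-k⟩ := ZLine.ext_n (by change y.n = -k; omega)
          rw [this]
    rw [e]
    exact ⟨fun j => (Hvan.add_antichain hN hd (fun x hx => (hl x hx).1) j).1 (ih.1 j),
      (SC.add_antichain hN hd (fun x hx => (hl x hx).2)).1 ih.2⟩

theorem zline_wc : WC (Set.univ : Set ZLine) := by
  have hm : Monotone zseg := by
    intro a b hab x hx
    simp only [zseg, Set.mem_ofPred_eq] at hx ⊢
    omega
  have hu : (⋃ k, zseg k) = Set.univ := by
    rw [Set.eq_univ_iff_forall]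
    intro x
    rw [Set.mem_iUnion]
    refine ⟨x.n.natAbs, ?_⟩
    simp only [zseg, Set.mem_ofPred_eq]
    omega
  rw [← hu]
  exact ⟨fun j => Hvan.iUnion hm j (fun k => (zseg_wc k).1 j), SC.iUnion hm (fun k => (zseg_wc k).2)⟩

/-- A zigzag walk from `v` to `a • v` with `2 m` steps extends to an equivariant monotone map of the
line. -/
theorem exists_line {H : Type} [Group H] {Y : Type} [PartialOrder Y] [MulAction H Y]
    (lt : ∀ (g : H) (x y : Y), x < y → g • x < g • y) (v : Y) (a : H) (m : ℕ) (hm : 1 ≤ m)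
    (w : ℕ → Y) (h0 : w 0 = v) (h1 : w (2 * m) = a • v)
    (hw : ∀ i < m, w (2 * i + 1) ≤ w (2 * i) ∧ w (2 * i + 1) ≤ w (2 * i + 2)) :
    ∃ f : ZLine → Y, Monotone f ∧ (∀ i : ℕ, i ≤ 2 * m → f ⟨i⟩ = w i) ∧
      (∀ (n : ℤ), f ⟨n + 2 * m⟩ = a • f ⟨n⟩) ∧
      ∀ n : ℤ, ∃ (k : ℤ) (i : ℕ), i < 2 * m ∧ n = i + 2 * m * k ∧ f ⟨n⟩ = a ^ k • w i := by
  have smul_le : ∀ (g : H) (x y : Y), x ≤ y → g • x ≤ g • y := by
    intro g x y h
    rcases h.eq_or_lt with rfl | h
    · exact le_rfl
    · exact (lt g x y h).le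
  let f : ZLine → Y := fun x => a ^ (x.n / (2 * m)) • w (x.n % (2 * m)).toNat
  have hpos : (0 : ℤ) < 2 * m := by omega
  -- the value in terms of a decomposition
  have hf : ∀ (k : ℤ) (i : ℕ), i < 2 * m → f ⟨i + 2 * m * k⟩ = a ^ k • w i := by
    intro k i hi
    have e1 : ((i : ℤ) + 2 * m * k) / (2 * m) = k := by
      rw [Int.add_mul_ediv_left _ _ hpos.ne', Int.ediv_eq_zero_of_lt (by omega) (by omega),
        zero_add]
    have e2 : ((i : ℤ) + 2 * m * k) % (2 * m) = i := by
      rw [Int.add_mul_emod_self_left, Int.emod_eq_of_lt (by omega) (by omega)]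
    simp only [f]
    rw [e1, e2, Int.toNat_natCast]
  have hf' : ∀ (k : ℤ) (i : ℕ), i ≤ 2 * m → f ⟨i + 2 * m * k⟩ = a ^ k • w i := by
    intro k i hi
    rcases hi.lt_or_eq with hi | rfl
    · exact hf k i hi
    · have e : ((2 * m : ℕ) : ℤ) + 2 * m * k = ((0 : ℕ) : ℤ) + 2 * m * (k + 1) := by
        push_cast
        ring
      rw [e, hf (k + 1) 0 (by omega), h0, h1, zpow_add_one, mul_smul]
  have hex : ∀ n : ℤ, ∃ (k : ℤ) (i : ℕ), i < 2 * m ∧ n = i + 2 * m * k := by
    intro n
    refine ⟨n / (2 * m), (n % (2 * m)).toNat, ?_, ?_⟩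
    · have h1 := Int.emod_nonneg n hpos.ne'
      have h2 := Int.emod_lt_of_pos n hpos
      omega
    · have h1 := Int.emod_nonneg n hpos.ne'
      have h2 := Int.emod_add_mul_ediv n (2 * m)
      rw [Int.toNat_of_nonneg h1]
      exact h2.symm
  refine ⟨f, ?_, ?_, ?_, ?_⟩
  · intro x y hxy
    rcases (ZLine.le_iff x y).1 hxy with rfl | ⟨ho, hy⟩
    · exact le_rfl
    · obtain ⟨k, i, hi, hn⟩ := hex x.n
      have hx' : x = ⟨i + 2 * m * k⟩ := ZLine.ext_n hn
      have hoi : Odd (i : ℤ) := by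
        rw [hn] at ho
        rcases Int.even_or_odd (i : ℤ) with h | h
        · exfalso
          have : Even ((i : ℤ) + 2 * m * k) := by
            apply h.add
            rw [mul_assoc]
            exact even_two_mul _
          exact Int.not_even_iff_odd.2 ho this
        · exact h
      obtain ⟨j, hj⟩ := (by exact_mod_cast hoi : Odd i)
      subst hj
      obtain ⟨ha, hb⟩ := hw j (by omega)
      rcases hy with hy | hy
      · have hy' : y = ⟨(2 * j + 2 : ℕ) + 2 * m * k⟩ := ZLine.ext_n (by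
          rw [hy, hn]
          push_cast
          ring)
        rw [hx', hy', hf' k _ (by omega), hf' k _ (by omega)]
        exact smul_le _ _ _ hb
      · have hy' : y = ⟨(2 * j : ℕ) + 2 * m * k⟩ := ZLine.ext_n (by
          rw [hy, hn]
          push_cast
          ring)
        rw [hx', hy', hf' k _ (by omega), hf' k _ (by omega)]
        exact smul_le _ _ _ ha
  · intro i hi
    have := hf' 0 i hi
    rwa [mul_zero, add_zero, zpow_zero, one_smul] at this
  · intro n
    obtain ⟨k, i, hi, rfl⟩ := hex n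
    have e : (i : ℤ) + 2 * m * k + 2 * m = i + 2 * m * (k + 1) := by ring
    rw [e, hf _ i hi, hf _ i hi, ← mul_smul, ← zpow_one_add, add_comm]
  · intro n
    obtain ⟨k, i, hi, rfl⟩ := hex n
    exact ⟨k, i, hi, rfl, hf k i hi⟩

section cyclic

variable {H : Type} [Group H] (a : H)

/-- the logarithm -/
def zlog (g : Subgroup.zpowers a) : ℤ := Classical.choose (Subgroup.mem_zpowers_iff.1 g.2)

theorem zlog_spec (g : Subgroup.zpowers a) : a ^ zlog a g = g :=
  Classical.choose_spec (Subgroup.mem_zpowers_iff.1 g.2)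

variable {a}

theorem zlog_eq (ha : ∀ n : ℤ, a ^ n = 1 → n = 0) {g : Subgroup.zpowers a} {n : ℤ}
    (h : a ^ n = g) : zlog a g = n := by
  have h1 := zlog_spec a g
  have h2 : a ^ (zlog a g - n) = 1 := by
    rw [zpow_sub, h1, h, mul_inv_cancel]
  have := ha _ h2
  omega

theorem zlog_mul (ha : ∀ n : ℤ, a ^ n = 1 → n = 0) (g h : Subgroup.zpowers a) :
    zlog a (g * h) = zlog a g + zlog a h := by
  apply zlog_eq ha
  rw [zpow_add, zlog_spec, zlog_spec]
  rfl

theorem zlog_one (ha : ∀ n : ℤ, a ^ n = 1 → n = 0) : zlog a 1 = 0 :=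
  zlog_eq ha (zpow_zero a)

end cyclic

/-- an infinite cyclic group acts on the line -/
theorem exists_line_action {H : Type} [Group H] (a : H) (ha : ∀ n : ℤ, a ^ n = 1 → n = 0)
    (m : ℕ) (hm : 1 ≤ m) :
    ∃ act : MulAction (Subgroup.zpowers a) ZLine,
      (∀ (n : ℤ) (x : ZLine), act.smul ⟨a ^ n, ⟨n, rfl⟩⟩ x = ⟨x.n + 2 * m * n⟩) ∧
      (∀ (g : Subgroup.zpowers a) (x y : ZLine), x < y → act.smul g x < act.smul g y) ∧
      (∀ (g : Subgroup.zpowers a) (x : ZLine), act.smul g x = x → g = 1) := by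
  let act : MulAction (Subgroup.zpowers a) ZLine :=
    { smul := fun g x => ⟨x.n + 2 * m * zlog a g⟩
      one_smul := fun x => by
        apply ZLine.ext_n
        change x.n + 2 * m * zlog a 1 = x.n
        rw [zlog_one ha]
        ring
      mul_smul := fun g h x => by
        apply ZLine.ext_n
        change x.n + 2 * m * zlog a (g * h) = x.n + 2 * m * zlog a h + 2 * m * zlog a g
        rw [zlog_mul ha]
        ring }
  refine ⟨act, ?_, ?_, ?_⟩
  · intro n x
    apply ZLine.ext_n
    change x.n + 2 * m * zlog a _ = x.n + 2 * m * n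
    rw [zlog_eq ha (n := n) rfl]
  · intro g x y h
    rw [ZLine.lt_iff] at h ⊢
    obtain ⟨h1, h2⟩ := h
    change Odd (x.n + 2 * m * zlog a g) ∧ (y.n + 2 * m * zlog a g = x.n + 2 * m * zlog a g + 1 ∨
      y.n + 2 * m * zlog a g = x.n + 2 * m * zlog a g - 1)
    refine ⟨?_, by omega⟩
    apply h1.add_even
    rw [mul_assoc]
    exact even_two_mul _
  · intro g x h
    have h1 : x.n + 2 * m * zlog a g = x.n := congrArg ZLine.n h
    have h2 : (2 * m : ℤ) * zlog a g = 0 := by omega
    have h3 : zlog a g = 0 := by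
      rcases mul_eq_zero.1 h2 with h | h
      · omega
      · exact h
    have h4 := zlog_spec a g
    rw [h3, zpow_zero] at h4
    exact Subtype.ext h4.symm

/-- two infinite cyclic groups are isomorphic -/
theorem exists_cyclic_equiv {H : Type} [Group H] (a b : H) (ha : ∀ n : ℤ, a ^ n = 1 → n = 0)
    (hb : ∀ n : ℤ, b ^ n = 1 → n = 0) :
    ∃ φ : Subgroup.zpowers a ≃* Subgroup.zpowers b,
      ∀ n : ℤ, (φ ⟨a ^ n, ⟨n, rfl⟩⟩ : H) = b ^ n := by
  refine ⟨
    { toFun := fun g => ⟨b ^ zlog a g, ⟨_, rfl⟩⟩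
      invFun := fun g => ⟨a ^ zlog b g, ⟨_, rfl⟩⟩
      left_inv := fun g => by
        apply Subtype.ext
        change a ^ zlog b ⟨b ^ zlog a g, _⟩ = _
        rw [zlog_eq hb (n := zlog a g) rfl, zlog_spec]
      right_inv := fun g => by
        apply Subtype.ext
        change b ^ zlog a ⟨a ^ zlog b g, _⟩ = _
        rw [zlog_eq ha (n := zlog b g) rfl, zlog_spec]
      map_mul' := fun g h => by
        apply Subtype.ext
        change b ^ zlog a (g * h) = b ^ zlog a g * b ^ zlog a h
        rw [zlog_mul ha, zpow_add] }, fun n => ?_⟩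
  change b ^ zlog a ⟨a ^ n, _⟩ = b ^ n
  rw [zlog_eq ha (n := n) rfl]

end

end Pool.Agent.Helper59.PD
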