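import Pool.Agent.Helper59.PD.HStep
import Pool.Agent.Helper59.PD.HLine

/-! The last step of the tower. -/

set_option autoImplicit false

open scoped Classical

namespace Pool.Agent.Helper59.PD

noncomputable section

namespace HLast

theorem le_smul' {H : Type} [Group H] {Y : Type} [PartialOrder Y] [MulAction H Y]
    (lt : ∀ (g : H) (x y : Y), x < y → g • x < g • y) (g : H) {x y : Y} (h : x ≤ y) :
    g • x ≤ g • y := by
  rcases h.eq_or_lt with rfl | h
  · exact le_rfl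
  · exact (lt g x y h).le

theorem smul_le_iff' {H : Type} [Group H] {Y : Type} [PartialOrder Y] [MulAction H Y]
    (lt : ∀ (g : H) (x y : Y), x < y → g • x < g • y) (g : H) {x y : Y} :
    g • x ≤ y ↔ x ≤ g⁻¹ • y := by
  constructor
  · intro h
    have := le_smul' lt g⁻¹ h
    rwa [inv_smul_smul] at this
  · intro h
    have := le_smul' lt g h
    rwa [smul_inv_smul] at this

theorem period {H : Type} [Group H] {Y : Type} [MulAction H Y] (f : ZLine → Y) (a : H) (m : ℕ)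
    (h : ∀ n : ℤ, f ⟨n + 2 * m⟩ = a • f ⟨n⟩) (l n : ℤ) : f ⟨n + 2 * m * l⟩ = a ^ l • f ⟨n⟩ := by
  induction l using Int.induction_on with
  | zero => simp
  | succ l ih =>
    have h1 := h (n + 2 * m * l)
    rw [ih] at h1
    have h2 : n + 2 * (m : ℤ) * ((l : ℤ) + 1) = n + 2 * m * l + 2 * m := by ring
    rw [h2, h1, zpow_add, zpow_one, ← mul_smul, ← zpow_one_add, ← zpow_add_one, add_comm]
  | pred l ih =>
    have h1 := h (n + 2 * m * (-(l : ℤ) - 1))
    have h2 : n + 2 * (m : ℤ) * (-(l : ℤ) - 1) + 2 * m = n + 2 * m * (-(l : ℤ)) := by ring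
    rw [h2, ih] at h1
    have h3 : a⁻¹ • a ^ (-(l : ℤ)) • f ⟨n⟩ = f ⟨n + 2 * m * (-(l : ℤ) - 1)⟩ := by
      rw [h1, inv_smul_smul]
    rw [← h3, ← mul_smul]
    congr 1
    rw [sub_eq_add_neg, add_comm, zpow_add, zpow_neg_one]

section orbits

variable {K : Type} [Group K] {s : K} {N M : ℕ}

theorem orb (P : YB K s N M) : ∃ O : Finset (Finset P.Y), O.card ≤ N * 2 ^ M ∧
    ∀ z : Finset P.Y, z.Nonempty → IsChain (· ≤ ·) (z : Set P.Y) →
      (∀ y ∈ z, ∀ h : K, y ≠ h • P.p) → ∃ g : K, z.image (g • ·) ∈ O := by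
  obtain ⟨O, hO, hO'⟩ := P.orb
  have hU : ∀ y : P.Y, ∃ U : Finset P.Y, U.card ≤ M ∧ ((∀ h : K, y ≠ h • P.p) →
      ∀ z : P.Y, y ≤ z → (∀ h : K, z ≠ h • P.p) → z ∈ U) := by
    intro y
    by_cases hy : ∀ h : K, y ≠ h • P.p
    · obtain ⟨U, h1, h2⟩ := P.upf y hy
      exact ⟨U, h1, fun _ => h2⟩
    · exact ⟨∅, by simp, fun h => absurd h hy⟩
  choose U hU1 hU2 using hU
  refine ⟨O.biUnion fun y => (U y).powerset, ?_, ?_⟩
  · refine (Finset.card_biUnion_le_card_mul _ _ (2 ^ M) ?_).trans (Nat.mul_le_mul_right _ hO)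
    intro y _
    rw [Finset.card_powerset]
    exact Nat.pow_le_pow_right (by norm_num) (hU1 y)
  · intro z hz hch hreg
    obtain ⟨y0, hy0, hmin⟩ := z.exists_min_image P.typ hz
    obtain ⟨g, hg⟩ := hO' y0
    have hregs : ∀ y ∈ z, ∀ h : K, g • y ≠ h • P.p := by
      intro y hy h he
      apply hreg y hy (g⁻¹ * h)
      rw [mul_smul, ← he, inv_smul_smul]
    refine ⟨g, ?_⟩
    rw [Finset.mem_biUnion]
    refine ⟨g • y0, hg, ?_⟩
    rw [Finset.mem_powerset]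
    intro y' hy'
    rw [Finset.mem_image] at hy'
    obtain ⟨y, hy, rfl⟩ := hy'
    apply hU2 _ (hregs y0 hy0) _ _ (hregs y hy)
    apply le_smul' P.lt
    by_cases he : y0 = y
    · exact he.le
    · rcases hch hy0 hy he with h | h
      · exact h
      · exfalso
        have := P.typ_lt _ _ (lt_of_le_of_ne h (fun h => he h.symm))
        have := hmin y hy
        omega

end orbits

section lines

variable {q : ℕ} {H : Type} [Group H] {s : H} {N M : ℕ} (P : YD H s N M)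

theorem ereg (h : H) : P.e ≠ h • P.p := by
  intro he
  have h1 := P.typ_lt _ _ P.ep
  have h2 := P.typ_smul h P.p
  rw [← he] at h2
  omega

theorem sp (l : ℤ) : s ^ l • P.p = P.p := (P.stab _).2 ⟨l, rfl⟩

theorem e_of_le {h : H} (hh : h • P.e ≤ P.p) : ∃ l : ℤ, h = s ^ l := by
  have h1 : h • P.e < P.p := by
    refine lt_of_le_of_ne hh fun he => ereg P h⁻¹ ?_
    rw [← he, inv_smul_smul]
  obtain ⟨l, hl⟩ := (P.pdown _).1 h1
  refine ⟨l, ?_⟩
  have h2 : ((s ^ l)⁻¹ * h) • P.e = P.e := by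
    rw [mul_smul, hl, inv_smul_smul]
  have h3 := P.free _ _ (ereg P) h2
  rw [inv_mul_eq_one] at h3
  exact h3.symm

theorem p_of_le {h : H} (hh : h • P.p ≤ P.p) : ∃ l : ℤ, h = s ^ l := by
  have h1 : h • P.p = P.p := by
    by_contra hne
    have h1 := P.typ_lt _ _ (lt_of_le_of_ne hh hne)
    have h2 := P.typ_smul h P.p
    omega
  obtain ⟨l, hl⟩ := (P.stab _).1 h1
  exact ⟨l, hl.symm⟩

/-- the line for `c` avoids the singular points -/
theorem exists_alpha (c : H) (k : ℕ) (h1 : P.Aw P.v (c • P.v) k) :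
    ∃ f : ZLine → P.Y, Monotone f ∧ (∀ n : ℤ, f ⟨n + 2 * (k + 2 : ℕ)⟩ = c • f ⟨n⟩) ∧
      ∀ (n : ZLine) (h : H), ¬ h • f n ≤ P.p := by
  obtain ⟨w, h0, h2, h3, h4⟩ := YB.Aw.pad P.toYB h1 (show k ≤ k + 2 by omega)
  obtain ⟨f, hf, -, hf2, hf3⟩ := exists_line P.lt P.v c (k + 2) (by omega) w h0 h2 h3
  refine ⟨f, hf, hf2, ?_⟩
  rintro ⟨n⟩ h hle
  obtain ⟨l, i, hi, -, hl⟩ := hf3 n
  rw [hl, smul_le_iff' P.lt, smul_le_iff' P.lt, ← mul_smul] at hle
  exact h4 i (by omega) _ hle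

/-- the line for `c⁻¹ s` -/
theorem exists_beta (c : H) (k : ℕ) (h1 : P.Aw P.v (c • P.v) k) :
    ∃ f : ZLine → P.Y, Monotone f ∧ (∀ n : ℤ, f ⟨n + 2 * (k + 2 : ℕ)⟩ = (c⁻¹ * s) • f ⟨n⟩) ∧
      f ⟨2 * k + 1⟩ = c⁻¹ • P.e ∧ f ⟨2 * k + 2⟩ = c⁻¹ • P.p ∧
      f ⟨2 * k + 3⟩ = (c⁻¹ * s) • P.e ∧
      ∀ (n : ℤ) (h : H), h • f ⟨n⟩ ≤ P.p → ∃ l i r : ℤ, 1 ≤ r ∧ r ≤ 3 ∧
        n = 2 * k + r + 2 * (k + 2 : ℕ) * l ∧ h = s ^ i * c * (c⁻¹ * s) ^ (-l) := by
  obtain ⟨u, h0, h2, h3, h4⟩ := YB.Aw.inv P.toYB h1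
  let w : ℕ → P.Y := fun i => if i ≤ 2 * k then u i else if i = 2 * k + 1 then c⁻¹ • P.e else
    if i = 2 * k + 2 then c⁻¹ • P.p else if i = 2 * k + 3 then (c⁻¹ * s) • P.e else
    (c⁻¹ * s) • P.v
  have wu : ∀ i, i ≤ 2 * k → w i = u i := fun i hi => by simp only [w, if_pos hi]
  have w1 : w (2 * k + 1) = c⁻¹ • P.e := by
    simp only [w]
    rw [if_neg (by omega), if_pos trivial]
  have w2 : w (2 * k + 2) = c⁻¹ • P.p := by
    simp only [w]
    rw [if_neg (by omega), if_neg (by omega), if_pos trivial]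
  have w3 : w (2 * k + 3) = (c⁻¹ * s) • P.e := by
    simp only [w]
    rw [if_neg (by omega), if_neg (by omega), if_neg (by omega), if_pos trivial]
  have w4 : w (2 * k + 4) = (c⁻¹ * s) • P.v := by
    simp only [w]
    rw [if_neg (by omega), if_neg (by omega), if_neg (by omega), if_neg (by omega)]
  have hsp : (c⁻¹ * s) • P.p = c⁻¹ • P.p := by
    have := sp P 1
    rw [zpow_one] at this
    rw [mul_smul, this]
  obtain ⟨f, hf, hf1, hf2, hf3⟩ := exists_line P.lt P.v (c⁻¹ * s) (k + 2) (by omega) w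
    (by rw [wu 0 (by omega), h0]) w4 (by
      intro i hi
      rcases Nat.lt_trichotomy i k with h | h | h
      · rw [wu _ (by omega), wu _ (by omega), wu _ (by omega)]
        exact h3 i h
      · subst h
        rw [wu (2 * i) le_rfl, w1, w2, h2]
        exact ⟨le_smul' P.lt _ P.ev.le, le_smul' P.lt _ P.ep.le⟩
      · have h5 : i = k + 1 := by omega
        subst h5
        have e1 : 2 * (k + 1) + 1 = 2 * k + 3 := by ring
        have e2 : 2 * (k + 1) = 2 * k + 2 := by ring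
        have e3 : 2 * (k + 1) + 2 = 2 * k + 4 := by ring
        rw [e1, e3, e2, w2, w3, w4, ← hsp]
        exact ⟨le_smul' P.lt _ P.ep.le, le_smul' P.lt _ P.ev.le⟩)
  have c1 : f ⟨2 * k + 1⟩ = c⁻¹ • P.e := by
    have := hf1 (2 * k + 1) (by omega)
    rw [w1] at this
    rw [← this]
    congr 2
  have c2 : f ⟨2 * k + 2⟩ = c⁻¹ • P.p := by
    have := hf1 (2 * k + 2) (by omega)
    rw [w2] at this
    rw [← this]
    congr 2
  have c3 : f ⟨2 * k + 3⟩ = (c⁻¹ * s) • P.e := by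
    have := hf1 (2 * k + 3) (by omega)
    rw [w3] at this
    rw [← this]
    congr 2
  refine ⟨f, hf, hf2, c1, c2, c3, ?_⟩
  intro n h hle
  obtain ⟨l, i, hi, hn, hl⟩ := hf3 n
  rw [hl] at hle
  by_cases hi1 : i ≤ 2 * k
  · exfalso
    rw [smul_le_iff' P.lt, smul_le_iff' P.lt, ← mul_smul, wu i hi1] at hle
    exact h4 i hi1 _ hle
  by_cases hi2 : i = 2 * k + 1
  · rw [hi2, w1, ← mul_smul, ← mul_smul] at hle
    obtain ⟨l', hl'⟩ := e_of_le P hle
    refine ⟨l, l', 1, le_rfl, by norm_num, ?_, ?_⟩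
    · rw [hn, hi2]; push_cast; ring
    · rw [← hl', zpow_neg]; group
  by_cases hi3 : i = 2 * k + 2
  · rw [hi3, w2, ← mul_smul, ← mul_smul] at hle
    obtain ⟨l', hl'⟩ := p_of_le P hle
    refine ⟨l, l', 2, by norm_num, by norm_num, ?_, ?_⟩
    · rw [hn, hi3]; push_cast; ring
    · rw [← hl', zpow_neg]; group
  have hi4 : i = 2 * k + 3 := by omega
  rw [hi4, w3, ← mul_smul, ← mul_smul] at hle
  obtain ⟨l', hl'⟩ := e_of_le P hle
  refine ⟨l, l' - 1, 3, by norm_num, by norm_num, ?_, ?_⟩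
  · rw [hn, hi4]; push_cast; ring
  · rw [zpow_sub_one, ← hl', zpow_neg]; group

end lines

/-- everything after the construction of the poset -/
theorem core {q : ℕ} (hq : 2 ≤ q) {H : Type} [Group H] {s : H} (hs : orderOf s = q)
    {N M : ℕ} (P : YD H s N M) (c : H)
    (hcs : ∀ n : ℤ, (c⁻¹ * s) ^ n = 1 → n = 0) (k : ℕ) (α β : ZLine → P.Y)
    (hα : ∀ (n : ZLine) (h : H), ¬ h • α n ≤ P.p)
    (hβ1 : β ⟨2 * k + 1⟩ = c⁻¹ • P.e) (hβ2 : β ⟨2 * k + 2⟩ = c⁻¹ • P.p)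
    (hβ3 : β ⟨2 * k + 3⟩ = (c⁻¹ * s) • P.e)
    (hβ : ∀ (n : ℤ) (h : H), h • β ⟨n⟩ ≤ P.p → ∃ l i r : ℤ, 1 ≤ r ∧ r ≤ 3 ∧
      n = 2 * k + r + 2 * (k + 2 : ℕ) * l ∧ h = s ^ i * c * (c⁻¹ * s) ^ (-l))
    {K : Type} [Group K] (o : H →* K) (hinj : Function.Injective o) (t : K)
    (htc : ∀ l : ℤ, o ((c⁻¹ * s) ^ l) * t = t * o (c ^ l)) {N' M' : ℕ} (P' : YB K (o s) N' M')
    (j : P.Y → P'.Y) (kk : ZLine → P'.Y)
    (hjp : j P.p = P'.p)
    (hj : ∀ (h : H) (x : P.Y), j (h • x) = o h • j x)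
    (hkk : ∀ (l n : ℤ), kk ⟨n + 2 * (k + 2 : ℕ) * l⟩ = o (c ^ l) • kk ⟨n⟩)
    (hcov : ∀ y : P'.Y, (∃ (g : K) (x : P.Y), y = g • j x) ∨ ∃ (g : K) (x : ZLine), y = g • kk x)
    (hjj : ∀ (g : K) (x y : P.Y), g • j x ≤ j y ↔ ∃ h : H, g = o h ∧ h • x ≤ y)
    (hkkk : ∀ (g : K) (x y : ZLine), g • kk x ≤ kk y ↔
        ∃ l : ℤ, g = o (c ^ l) ∧ (⟨x.n + 2 * (k + 2 : ℕ) * l⟩ : ZLine) ≤ y)
    (hkj : ∀ (g : K) (x : ZLine) (y : P.Y), g • kk x ≤ j y ↔
        (∃ h : H, g = o h ∧ h • α x ≤ y) ∨ ∃ h : H, g * t⁻¹ = o h ∧ h • β x ≤ y)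
    (hjk : ∀ (g : K) (x : P.Y) (y : ZLine), ¬ g • j x ≤ kk y) :
    Nonempty (YPack q K (o s) (N' * 2 ^ M')) := by
  -- order on the two pieces
  have jle : ∀ x y : P.Y, j x ≤ j y ↔ x ≤ y := by
    intro x y
    have h2 := hjj 1 x y
    rw [one_smul] at h2
    rw [h2]
    constructor
    · rintro ⟨h, h3, h4⟩
      have : h = 1 := hinj (by rw [← h3, map_one])
      rwa [this, one_smul] at h4
    · intro h3
      exact ⟨1, (map_one _).symm, by rwa [one_smul]⟩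
  have kle : ∀ x y : ZLine, x ≤ y → kk x ≤ kk y := by
    intro x y hxy
    have h2 := hkkk 1 x y
    rw [one_smul] at h2
    rw [h2]
    exact ⟨0, by simp, by simpa using hxy⟩
  -- powers of s
  have spow : ∀ l : ℤ, s ^ l = 1 ↔ (q : ℤ) ∣ l := by
    intro l
    rw [← hs, orderOf_dvd_iff_zpow_eq_one]
  have speq : ∀ l l' : ℤ, s ^ l • P.e ≤ s ^ l' • P.e → (q : ℤ) ∣ l - l' := by
    intro l l' hle
    have h2 : s ^ l • P.e = s ^ l' • P.e := by
      by_contra hne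
      have h3 := P.typ_lt _ _ (lt_of_le_of_ne hle hne)
      rw [P.typ_smul, P.typ_smul] at h3
      omega
    have h3 : (s ^ (l - l')) • P.e = P.e := by
      rw [sub_eq_neg_add, zpow_add, mul_smul, h2, zpow_neg, inv_smul_smul]
    rw [← spow]
    exact P.free _ _ (ereg P) h3
  -- the two kinds of elements
  let E : ℤ → P'.Y := fun l => j (s ^ l • P.e)
  let Z : ℤ → ℤ → P'.Y := fun l r => (o (s ^ l * c) * t) • kk ⟨2 * k + r⟩
  have EE : ∀ l l', E l ≤ E l' → (q : ℤ) ∣ l - l' := fun l l' h2 =>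
    speq _ _ ((jle _ _).1 h2)
  have EZ : ∀ l l' r, ¬ E l ≤ Z l' r := by
    intro l l' r h2
    have h3 := le_smul' P'.lt (o (s ^ l' * c) * t)⁻¹ h2
    rw [inv_smul_smul] at h3
    exact hjk _ _ _ h3
  have hZt : ∀ l : ℤ, o (s ^ l * c) * t * t⁻¹ = o (s ^ l * c) := fun l => mul_inv_cancel_right _ _
  have b1 : ∀ l : ℤ, (s ^ l * c) • β ⟨2 * k + 1⟩ = s ^ l • P.e := by
    intro l; rw [hβ1, ← mul_smul, mul_inv_cancel_right]
  have b2 : ∀ l : ℤ, (s ^ l * c) • β ⟨2 * k + 2⟩ = P.p := by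
    intro l; rw [hβ2, ← mul_smul, mul_inv_cancel_right]; exact sp P l
  have b3 : ∀ l : ℤ, (s ^ l * c) • β ⟨2 * k + 3⟩ = s ^ (l + 1) • P.e := by
    intro l; rw [hβ3, ← mul_smul, ← mul_assoc, mul_inv_cancel_right, zpow_add_one]
  have elp : ∀ l : ℤ, s ^ l • P.e < P.p := fun l => (P.pdown _).2 ⟨l, rfl⟩
  have ZE : ∀ l l' r, 1 ≤ r → r ≤ 3 → (Z l r ≤ E l' ↔
      (r = 1 ∧ (q : ℤ) ∣ l - l') ∨ (r = 3 ∧ (q : ℤ) ∣ l + 1 - l')) := by
    intro l l' r hr1 hr3
    have h0 : Z l r ≤ E l' ↔ (s ^ l * c) • β ⟨2 * k + r⟩ ≤ s ^ l' • P.e := by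
      change _ • kk _ ≤ j _ ↔ _
      rw [hkj]
      constructor
      · rintro (⟨h, -, h3⟩ | ⟨h, h2, h3⟩)
        · exact absurd (h3.trans (elp l').le) (hα _ _)
        · rw [hZt] at h2
          rw [hinj h2]
          exact h3
      · intro h2
        exact Or.inr ⟨_, hZt l, h2⟩
    rw [h0]
    have h5 : ∀ l l' : ℤ, (q : ℤ) ∣ l - l' → s ^ l • P.e ≤ s ^ l' • P.e := by
      intro l l' h
      rw [← spow] at h
      have : s ^ l = s ^ l' := by
        rw [zpow_sub, mul_inv_eq_one] at h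
        exact h
      rw [this]
    obtain rfl | rfl | rfl : r = 1 ∨ r = 2 ∨ r = 3 := by omega
    · rw [b1]
      constructor
      · intro h; exact Or.inl ⟨rfl, speq _ _ h⟩
      · rintro (⟨-, h⟩ | ⟨h, -⟩)
        · exact h5 _ _ h
        · omega
    · rw [b2]
      constructor
      · intro h
        exact absurd (h.trans_lt (elp l')) (lt_irrefl _)
      · rintro (⟨h, -⟩ | ⟨h, -⟩) <;> omega
    · rw [b3]
      constructor
      · intro h; exact Or.inr ⟨rfl, speq _ _ h⟩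
      · rintro (⟨h, -⟩ | ⟨-, h⟩)
        · omega
        · exact h5 _ _ h
  have ZZ : ∀ l l' r r', Z l r ≤ Z l' r' →
      (q : ℤ) ∣ l - l' ∧ (⟨2 * k + r⟩ : ZLine) ≤ ⟨2 * k + r'⟩ := by
    intro l l' r r' h2
    have h3 := le_smul' P'.lt (o (s ^ l' * c) * t)⁻¹ h2
    rw [inv_smul_smul] at h3
    change _ • _ • kk _ ≤ kk _ at h3
    rw [← mul_smul, hkkk] at h3
    obtain ⟨n, hn, hle⟩ := h3
    have h4 : o ((c⁻¹ * s) ^ n) = o (c⁻¹ * s ^ (l - l') * c) := by
      have h5 := htc n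
      rw [← hn] at h5
      have h6 : o ((c⁻¹ * s) ^ n) = t * ((o (s ^ l' * c) * t)⁻¹ * (o (s ^ l * c) * t)) * t⁻¹ := by
        rw [← h5, mul_inv_cancel_right]
      rw [h6, sub_eq_neg_add, zpow_add, zpow_neg]
      simp only [map_mul, map_inv]
      group
    have h5 := hinj h4
    have h6 : (c⁻¹ * s) ^ (n * q) = 1 := by
      rw [zpow_mul, h5]
      have h7 : (c⁻¹ * s ^ (l - l') * c) ^ (q : ℤ) = c⁻¹ * (s ^ (l - l')) ^ (q : ℤ) * c := by
        have := conj_zpow (i := (q : ℤ)) (a := c⁻¹) (b := s ^ (l - l'))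
        rwa [inv_inv] at this
      rw [h7, ← zpow_mul, mul_comm, zpow_mul]
      have : s ^ (q : ℤ) = 1 := by rw [spow]
      rw [this, one_zpow]
      simp
    have h7 : n = 0 := by
      have := hcs _ h6
      rcases mul_eq_zero.1 this with h | h
      · exact h
      · omega
    subst h7
    rw [zpow_zero] at h5
    refine ⟨?_, by simpa using hle⟩
    rw [← spow]
    have h8 : s ^ (l - l') = c * (c⁻¹ * s ^ (l - l') * c) * c⁻¹ := by group
    rw [h8, ← h5]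
    simp
  have ZZ1 : ∀ l r r', (⟨2 * k + r⟩ : ZLine) ≤ ⟨2 * k + r'⟩ → Z l r ≤ Z l r' := fun l r r' h =>
    le_smul' P'.lt _ (kle _ _ h)
  have z12 : (⟨2 * k + 1⟩ : ZLine) ≤ ⟨2 * k + 2⟩ :=
    Or.inr ⟨⟨k, rfl⟩, Or.inl (by simp only; ring)⟩
  have z32 : (⟨2 * k + 3⟩ : ZLine) ≤ ⟨2 * k + 2⟩ :=
    Or.inr ⟨⟨k + 1, by simp only; ring⟩, Or.inr (by simp only; ring)⟩
  have Eσ : ∀ l, o s • E l = E (l + 1) := by
    intro l
    change o s • j _ = j _
    rw [← hj, ← mul_smul, ← zpow_one_add, add_comm]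
  have Zσ : ∀ l r, o s • Z l r = Z (l + 1) r := by
    intro l r
    change o s • _ • kk _ = _ • kk _
    rw [← mul_smul, ← mul_assoc, ← map_mul, ← mul_assoc, ← zpow_one_add, add_comm]
  let lk : ℤ → P'.Y := fun i => if i % 4 = 0 then E (i / 4) else Z (i / 4) (i % 4)
  have lk0 : ∀ l, lk (4 * l) = E l := by
    intro l
    simp only [lk]
    rw [if_pos (by omega), show 4 * l / 4 = l by omega]
  have lkr : ∀ l r, 1 ≤ r → r ≤ 3 → lk (4 * l + r) = Z l r := by
    intro l r h2 h3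
    simp only [lk]
    rw [if_neg (by omega), show (4 * l + r) / 4 = l by omega, show (4 * l + r) % 4 = r by omega]
  have cas : ∀ i : ℤ, (∃ l, i = 4 * l) ∨ ∃ l r, 1 ≤ r ∧ r ≤ 3 ∧ i = 4 * l + r := by
    intro i
    by_cases h : i % 4 = 0
    · exact Or.inl ⟨i / 4, by omega⟩
    · exact Or.inr ⟨i / 4, i % 4, by omega, by omega, by omega⟩
  have Epos : ∀ l, E l < P'.p := by
    intro l
    rw [← hjp]
    refine lt_of_le_of_ne ((jle _ _).2 (elp l).le) ?_
    intro h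
    have := (jle _ _).1 h.ge
    exact absurd (this.trans_lt (elp l)) (lt_irrefl _)
  have Zpos : ∀ l r, 1 ≤ r → r ≤ 3 → Z l r < P'.p := by
    intro l r h2 h3
    refine lt_of_le_of_ne ?_ ?_
    · rw [← hjp]
      change _ • kk _ ≤ j _
      rw [hkj]
      right
      refine ⟨_, hZt l, ?_⟩
      obtain rfl | rfl | rfl : r = 1 ∨ r = 2 ∨ r = 3 := by omega
      · rw [b1]; exact (elp l).le
      · rw [b2]
      · rw [b3]; exact (elp _).le
    · intro h
      have h4 := h.ge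
      rw [← hjp] at h4
      have h5 := le_smul' P'.lt (o (s ^ l * c) * t)⁻¹ h4
      rw [inv_smul_smul] at h5
      exact hjk _ _ _ h5
  have below : ∀ y, y < P'.p ↔ ∃ i, y = lk i := by
    intro y
    constructor
    · intro hy
      rcases hcov y with ⟨g, x, rfl⟩ | ⟨g, x, rfl⟩
      · have h2 := hy.le
        rw [← hjp, hjj] at h2
        obtain ⟨h, rfl, h3⟩ := h2
        rw [← hj] at hy ⊢
        have h4 : h • x < P.p := by
          refine lt_of_le_of_ne h3 ?_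
          intro h5
          rw [h5, hjp] at hy
          exact absurd hy (lt_irrefl _)
        obtain ⟨l, hl⟩ := (P.pdown _).1 h4
        exact ⟨4 * l, by rw [lk0, hl]⟩
      · have h2 := hy.le
        rw [← hjp, hkj] at h2
        rcases h2 with ⟨h, -, h3⟩ | ⟨h, h2, h3⟩
        · exact absurd h3 (hα _ _)
        · obtain ⟨n⟩ := x
          obtain ⟨l, i, r, hr1, hr3, hn, hh⟩ := hβ n h h3
          refine ⟨4 * i + r, ?_⟩
          rw [lkr _ _ hr1 hr3, hn]
          have h4 : g = o (s ^ i * c) * t * o (c ^ (-l)) := by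
            rw [mul_assoc, ← htc, ← mul_assoc, ← map_mul, ← hh, ← h2, inv_mul_cancel_right]
          rw [h4, mul_smul, ← hkk]
          change _ • kk _ = _ • kk _
          congr 3
          ring
    · rintro ⟨i, rfl⟩
      rcases cas i with ⟨l, rfl⟩ | ⟨l, r, h2, h3, rfl⟩
      · rw [lk0]; exact Epos l
      · rw [lkr _ _ h2 h3]; exact Zpos l r h2 h3
  have lkle : ∀ i j, lk i ≤ lk j → (4 * q : ℤ) ∣ i - j ∨
      (Odd i ∧ ((4 * q : ℤ) ∣ j - (i + 1) ∨ (4 * q : ℤ) ∣ j - (i - 1))) := by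
    intro i j hij
    rcases cas i with ⟨l, rfl⟩ | ⟨l, r, h2, h3, rfl⟩ <;>
      rcases cas j with ⟨l', rfl⟩ | ⟨l', r', h4, h5, rfl⟩
    · rw [lk0, lk0] at hij
      obtain ⟨a, ha⟩ := EE _ _ hij
      exact Or.inl ⟨a, by linear_combination 4 * ha⟩
    · rw [lk0, lkr _ _ h4 h5] at hij
      exact absurd hij (EZ _ _ _)
    · rw [lk0, lkr _ _ h2 h3, ZE _ _ _ h2 h3] at hij
      rcases hij with ⟨rfl, a, ha⟩ | ⟨rfl, a, ha⟩
      · exact Or.inr ⟨⟨2 * l, by ring⟩, Or.inr ⟨-a, by linear_combination -4 * ha⟩⟩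
      · exact Or.inr ⟨⟨2 * l + 1, by ring⟩, Or.inl ⟨-a, by linear_combination -4 * ha⟩⟩
    · rw [lkr _ _ h2 h3, lkr _ _ h4 h5] at hij
      obtain ⟨⟨a, ha⟩, h6⟩ := ZZ _ _ _ _ hij
      rcases h6 with h6 | ⟨⟨b, hb⟩, h6⟩
      · have h7 : r = r' := by simpa using h6
        subst h7
        exact Or.inl ⟨a, by linear_combination 4 * ha⟩
      · right
        simp only at hb h6
        refine ⟨⟨2 * l + (b - k), by linear_combination hb⟩, ?_⟩
        rcases h6 with h6 | h6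
        · left
          exact ⟨-a, by linear_combination -4 * ha + h6⟩
        · right
          exact ⟨-a, by linear_combination -4 * ha + h6⟩
  have q4 : ∀ ε : ℤ, (ε = 1 ∨ ε = -1) → ¬ (4 * q : ℤ) ∣ ε := by
    rintro ε hε ⟨a, ha⟩
    rw [mul_assoc] at ha
    omega
  have lkinj : ∀ i j, lk i = lk j → (4 * q : ℤ) ∣ i - j := by
    intro i j hij
    rcases lkle i j hij.le with h | ⟨hi, h⟩
    · exact h
    · rcases lkle j i hij.ge with h' | ⟨hj', h'⟩
      · obtain ⟨a, ha⟩ := h'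
        exact ⟨-a, by linear_combination -ha⟩
      · exfalso
        obtain ⟨b, hb⟩ := hi
        obtain ⟨b', hb'⟩ := hj'
        rcases h with ⟨a, ha⟩ | ⟨a, ha⟩
        · rw [mul_assoc] at ha
          omega
        · rw [mul_assoc] at ha
          omega
  obtain ⟨O, hO1, hO2⟩ := orb P'
  have lklt : ∀ i, Odd i → lk i < lk (i + 1) ∧ lk i < lk (i - 1) := by
    intro i hi
    have hne : ∀ ε : ℤ, (ε = 1 ∨ ε = -1) → lk i ≠ lk (i - ε) := by
      intro ε hε he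
      have h2 := lkinj _ _ he
      rw [sub_sub_cancel] at h2
      exact q4 ε hε h2
    have hne1 : lk i ≠ lk (i + 1) := by
      have := hne (-1) (Or.inr rfl)
      rwa [sub_neg_eq_add] at this
    refine ⟨lt_of_le_of_ne ?_ hne1, lt_of_le_of_ne ?_ (hne 1 (Or.inl rfl))⟩
    · rcases cas i with ⟨l, rfl⟩ | ⟨l, r, h2, h3, rfl⟩
      · exfalso
        rw [Int.odd_iff] at hi; omega
      · obtain rfl | rfl : r = 1 ∨ r = 3 := by
          rw [Int.odd_iff] at hi; omega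
        · rw [lkr _ _ h2 h3, add_assoc, show (1 : ℤ) + 1 = 2 by norm_num,
            lkr _ _ (by norm_num) (by norm_num)]
          exact ZZ1 _ _ _ z12
        · rw [lkr _ _ h2 h3, show 4 * l + 3 + 1 = 4 * (l + 1) by ring, lk0,
            ZE _ _ _ h2 h3]
          exact Or.inr ⟨rfl, by simp⟩
    · rcases cas i with ⟨l, rfl⟩ | ⟨l, r, h2, h3, rfl⟩
      · exfalso
        rw [Int.odd_iff] at hi; omega
      · obtain rfl | rfl : r = 1 ∨ r = 3 := by
          rw [Int.odd_iff] at hi; omega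
        · rw [lkr _ _ h2 h3, show 4 * l + 1 - 1 = 4 * l by ring, lk0, ZE _ _ _ h2 h3]
          exact Or.inl ⟨rfl, by simp⟩
        · rw [lkr _ _ h2 h3, show 4 * l + 3 - 1 = 4 * l + 2 by ring,
            lkr _ _ (by norm_num) (by norm_num)]
          exact ZZ1 _ _ _ z32
  exact ⟨{
    Y := P'.Y
    lt := P'.lt
    typ := P'.typ
    typ_lt := P'.typ_lt
    typ_smul := P'.typ_smul
    T := P'.T
    typ_le := P'.typ_le
    p := P'.p
    stab := P'.stab
    free := P'.free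
    pmax := P'.pmax
    lk := lk
    lk_below := below
    lk_smul := by
      intro i
      rcases cas i with ⟨l, rfl⟩ | ⟨l, r, h2, h3, rfl⟩
      · rw [show 4 * l + 4 = 4 * (l + 1) by ring, lk0, lk0, Eσ]
      · rw [show 4 * l + r + 4 = 4 * (l + 1) + r by ring, lkr _ _ h2 h3, lkr _ _ h2 h3, Zσ]
    lk_inj := lkinj
    lk_lt := lklt
    lk_of_lt := by
      intro i j' hij
      rcases lkle i j' hij.le with h | h
      · exfalso
        have h2 : lk i = lk j' := by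
          obtain ⟨a, ha⟩ := h
          have h3 : i = j' + 4 * (q * a) := by linear_combination ha
          have h4 : ∀ l : ℤ, s ^ (l + q * a) = s ^ l := by
            intro l
            rw [zpow_add, (spow (q * a)).2 ⟨a, rfl⟩, mul_one]
          rw [h3]
          rcases cas j' with ⟨l, rfl⟩ | ⟨l, r, h5, h6, rfl⟩
          · rw [← mul_add, lk0, lk0]
            change j _ = j _
            rw [h4]
          · rw [add_right_comm, ← mul_add, lkr _ _ h5 h6, lkr _ _ h5 h6]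
            change _ • kk _ = _ • kk _
            rw [h4]
        exact absurd hij (by rw [h2]; exact lt_irrefl _)
      · exact h
    wc := P'.wc
    orb := ⟨O, hO1, hO2⟩ }⟩

end HLast

open HLast in
/-- HNN extension identifying `c` with `c⁻¹ s`; the second line passes through the singular points -/
theorem ypack_of_yd {q : ℕ} (hq : 2 ≤ q) {H : Type} [Group H] {s : H} (hs : orderOf s = q)
    {N M : ℕ} (P : YD H s N M) (c : H)
    (hc : ∀ n : ℤ, c ^ n = 1 → n = 0) (hcs : ∀ n : ℤ, (c⁻¹ * s) ^ n = 1 → n = 0)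
    (φ : Subgroup.zpowers c ≃* Subgroup.zpowers (c⁻¹ * s))
    (hφ : ∀ n : ℤ, (φ ⟨c ^ n, ⟨n, rfl⟩⟩ : H) = (c⁻¹ * s) ^ n) (k : ℕ)
    (h1 : P.Aw P.v (c • P.v) k) :
    Nonempty (YPack q (HNNExtension H (Subgroup.zpowers c) (Subgroup.zpowers (c⁻¹ * s)) φ)
      (HNNExtension.of s) ((N + (2 * k + 4)) * 2 ^ (2 * M + 3))) := by
  obtain ⟨α, hαm, hαp, hα⟩ := exists_alpha P c k h1
  obtain ⟨β, hβm, hβp, hβ1, hβ2, hβ3, hβ⟩ := exists_beta P c k h1
  obtain ⟨act, act1, act2, act3⟩ := exists_line_action c hc (k + 2) (by omega)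
  let _ := act
  have act1' : ∀ (n : ℤ) (x : ZLine), (⟨c ^ n, ⟨n, rfl⟩⟩ : Subgroup.zpowers c) • x =
      ⟨x.n + 2 * (k + 2 : ℕ) * n⟩ := act1
  obtain ⟨P', j, kk, hjp, hj, hkk, hcov, hjj, hkkk, hkj, hjk⟩ := hnn_step P.toYB
    (Subgroup.zpowers c) (Subgroup.zpowers (c⁻¹ * s)) φ ZLine act2
    (fun x => if Odd x.n then 0 else 1) (by
      intro x y hxy
      rcases hxy.le with h | ⟨h2, h3⟩
      · exact absurd h hxy.ne
      · have h4 : ¬ Odd y.n := by
          rcases h3 with h3 | h3 <;> rw [h3] <;> rw [Int.odd_iff] at h2 ⊢ <;> omega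
        simp [h2, h4]) (by
      rintro ⟨g, n, rfl⟩ x
      have h2 := act1' n x
      have h3 : ((⟨c ^ n, ⟨n, rfl⟩⟩ : Subgroup.zpowers c) • x).n = x.n + 2 * (k + 2 : ℕ) * n := by
        rw [h2]
      have h4 : Odd (x.n + 2 * (k + 2 : ℕ) * n) ↔ Odd x.n := by
        rw [mul_assoc]
        rw [Int.odd_iff, Int.odd_iff]; omega
      change (if Odd ((⟨c ^ n, ⟨n, rfl⟩⟩ : Subgroup.zpowers c) • x).n then 0 else 1) = _
      rw [h3]
      simp only [h4]) 1 (by intro x; split_ifs <;> omega) act3 zline_wc (2 * k + 4) 3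
    (by
      refine ⟨(Finset.range (2 * k + 4)).image fun i : ℕ => (⟨(i : ℤ)⟩ : ZLine), ?_, ?_⟩
      · exact Finset.card_image_le.trans (by simp)
      · rintro ⟨n⟩
        refine ⟨⟨c ^ (-(n / (2 * k + 4))), ⟨_, rfl⟩⟩, ?_⟩
        rw [act1', Finset.mem_image]
        have h2 : 0 ≤ n % (2 * k + 4) := Int.emod_nonneg _ (by omega)
        have h3 : n % (2 * k + 4) < 2 * k + 4 := Int.emod_lt_of_pos _ (by omega)
        refine ⟨(n % (2 * k + 4)).toNat, ?_, ?_⟩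
        · rw [Finset.mem_range]; omega
        · congr 1
          rw [Int.toNat_of_nonneg h2]
          have h4 := Int.emod_add_mul_ediv n (2 * k + 4)
          push_cast
          linear_combination h4)
    (by
      intro y
      refine ⟨{y, ⟨y.n + 1⟩, ⟨y.n - 1⟩}, Finset.card_le_three, ?_⟩
      intro z hz
      simp only [Finset.mem_insert, Finset.mem_singleton]
      rcases hz with rfl | ⟨-, h | h⟩
      · exact Or.inl rfl
      · right; left; rw [← h]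
      · right; right; rw [← h])
    α β hαm hβm (by
      rintro ⟨g, n, rfl⟩ x
      have h2 := act1' n x
      change α ((⟨c ^ n, ⟨n, rfl⟩⟩ : Subgroup.zpowers c) • x) = _
      rw [h2]
      exact period α c (k + 2) hαp n x.n) (by
      rintro ⟨g, n, rfl⟩ x
      have h2 := act1' n x
      change β ((⟨c ^ n, ⟨n, rfl⟩⟩ : Subgroup.zpowers c) • x) = _
      rw [h2]
      have h3 := hφ n
      change _ = (φ ⟨c ^ n, ⟨n, rfl⟩⟩ : H) • β x
      rw [h3]
      exact period β (c⁻¹ * s) (k + 2) hβp n x.n)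
  have hinj : Function.Injective (HNNExtension.of : H →* HNNExtension H (Subgroup.zpowers c)
      (Subgroup.zpowers (c⁻¹ * s)) φ) := HNNExtension.of_injective φ
  have htc : ∀ l : ℤ, (HNNExtension.of ((c⁻¹ * s) ^ l) : HNNExtension H (Subgroup.zpowers c)
      (Subgroup.zpowers (c⁻¹ * s)) φ) * HNNExtension.t =
      HNNExtension.t * HNNExtension.of (c ^ l) := by
    intro l
    have h2 := HNNExtension.t_mul_of (φ := φ) ⟨c ^ l, ⟨l, rfl⟩⟩
    rw [hφ] at h2
    exact h2.symm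
  refine core hq hs P c hcs k α β hα hβ1 hβ2 hβ3 hβ HNNExtension.of hinj HNNExtension.t htc P' j kk
    hjp hj ?_ hcov hjj ?_ hkj hjk
  · intro l n
    rw [← hkk ⟨c ^ l, ⟨l, rfl⟩⟩ ⟨n⟩, act1']
  · intro g x y
    rw [hkkk]
    constructor
    · rintro ⟨⟨a, l, rfl⟩, h2, h3⟩
      refine ⟨l, h2, ?_⟩
      have h4 := act1' l x
      rw [← h4]
      exact h3
    · rintro ⟨l, h2, h3⟩
      refine ⟨⟨c ^ l, ⟨l, rfl⟩⟩, h2, ?_⟩
      rw [act1']
      exact h3

end

end Pool.Agent.Helper59.PD
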