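import Pool.Agent.Helper59.PD.HStep
import Pool.Agent.Helper59.PD.HLine

/-! The first two steps of the tower. -/

set_option autoImplicit false

open scoped Classical

namespace Pool.Agent.Helper59.PD

noncomputable section

theorem YB.le_smul_iff {H : Type} [Group H] {s : H} {N M : ℕ} (P : YB H s N M) (g : H)
    {x y : P.Y} : x ≤ g • y ↔ g⁻¹ • x ≤ y := by
  constructor
  · intro h
    have := P.smul_le g⁻¹ h
    rwa [inv_smul_smul] at this
  · intro h
    have := P.smul_le g h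
    rwa [smul_inv_smul] at this

/-- The general step: both lines avoid the singular points. -/
theorem yd_of_step {H : Type} [Group H] {s : H} {N M : ℕ} (P : YD H s N M) (A B : Subgroup H)
    (φ : A ≃* B) (Q : Type) (α β : Q → P.Y) (N' M' : ℕ)
    (hα : ∀ (x : Q) (h : H), ¬ α x ≤ h • P.p) (hβ : ∀ (x : Q) (h : H), ¬ β x ≤ h • P.p)
    (x0 : Q) (hα0 : α x0 = P.v) (hβ0 : β x0 = P.v)
    (P' : YB (HNNExtension H A B φ) (HNNExtension.of s) N' M')
    (j : P.Y → P'.Y) (k : Q → P'.Y) (h1 : j P.p = P'.p)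
    (h2 : ∀ (h : H) (x : P.Y), j (h • x) = (HNNExtension.of h : HNNExtension H A B φ) • j x)
    (h4 : ∀ y : P'.Y, (∃ (g : HNNExtension H A B φ) (x : P.Y), y = g • j x) ∨
        ∃ (g : HNNExtension H A B φ) (x : Q), y = g • k x)
    (h5 : ∀ (g : HNNExtension H A B φ) (x y : P.Y), g • j x ≤ j y ↔
        ∃ h : H, g = HNNExtension.of h ∧ h • x ≤ y)
    (h7 : ∀ (g : HNNExtension H A B φ) (x : Q) (y : P.Y), g • k x ≤ j y ↔
        (∃ h : H, g = HNNExtension.of h ∧ h • α x ≤ y) ∨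
        ∃ h : H, g * (HNNExtension.t)⁻¹ = HNNExtension.of h ∧ h • β x ≤ y) :
    ∃ P'' : YD (HNNExtension H A B φ) (HNNExtension.of s) N' M',
      P''.Aw P''.v ((HNNExtension.t : HNNExtension H A B φ)⁻¹ • P''.v) 1 ∧
      ∀ (h : H) (m : ℕ), P.Aw P.v (h • P.v) m →
        P''.Aw P''.v ((HNNExtension.of h : HNNExtension H A B φ) • P''.v) m := by
  have hofinj : Function.Injective (HNNExtension.of : H →* HNNExtension H A B φ) :=
    HNNExtension.of_injective φ
  have hj : ∀ x y : P.Y, j x ≤ j y ↔ x ≤ y := by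
    intro x y
    have := h5 1 x y
    rw [one_smul] at this
    rw [this]
    constructor
    · rintro ⟨h, hh, hxy⟩
      have : h = 1 := hofinj (by rw [← hh, map_one])
      rwa [this, one_smul] at hxy
    · intro h
      exact ⟨1, (map_one _).symm, by rwa [one_smul]⟩
  have hjlt : ∀ x y : P.Y, x < y → j x < j y := by
    intro x y h
    rw [lt_iff_le_not_ge] at h ⊢
    rwa [hj, hj]
  have havk : ∀ (g : HNNExtension H A B φ) (x : Q), ¬ g • k x ≤ P'.p := by
    intro g x hle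
    rw [← h1, h7] at hle
    rcases hle with ⟨h, -, hh⟩ | ⟨h, -, hh⟩
    · apply hα x h⁻¹
      rw [P.le_smul_iff, inv_inv]
      exact hh
    · apply hβ x h⁻¹
      rw [P.le_smul_iff, inv_inv]
      exact hh
  have havj : ∀ (g : HNNExtension H A B φ) (x : P.Y), (∀ h : H, ¬ x ≤ h • P.p) →
      ¬ g • j x ≤ P'.p := by
    intro g x hx hle
    rw [← h1, h5] at hle
    obtain ⟨h, -, hh⟩ := hle
    apply hx h⁻¹
    rw [P.le_smul_iff, inv_inv]
    exact hh
  have hvp : ∀ h : H, ¬ P.v ≤ h • P.p := by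
    intro h hle
    rcases hle.eq_or_lt with e | hlt
    · exact P.vreg h e
    · have h6 : h⁻¹ • P.v < P.p := by
        have := P.lt h⁻¹ _ _ hlt
        rwa [inv_smul_smul] at this
      obtain ⟨n, hn⟩ := (P.pdown _).1 h6
      have h8 := P.typ_lt _ _ P.ev
      have h9 := congrArg P.typ hn
      rw [P.typ_smul, P.typ_smul] at h9
      omega
  let P'' : YD (HNNExtension H A B φ) (HNNExtension.of s) N' M' :=
    { P' with
      v := j P.v
      e := j P.e
      vreg := fun g hg => by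
        have : g⁻¹ • j P.v ≤ P'.p := by
          change j P.v = g • P'.p at hg
          rw [hg, inv_smul_smul]
        exact havj _ _ hvp this
      ep := by
        change j P.e < P'.p
        rw [← h1]
        exact hjlt _ _ P.ep
      ev := hjlt _ _ P.ev
      pdown := fun y => by
        change y < P'.p ↔ _
        constructor
        · intro hy
          rcases h4 y with ⟨g, x, rfl⟩ | ⟨g, x, rfl⟩
          · have hle := hy.le
            rw [← h1, h5] at hle
            obtain ⟨h, rfl, hh⟩ := hle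
            have hlt : h • x < P.p := by
              refine lt_of_le_of_ne hh ?_
              intro e
              apply hy.ne
              rw [← h2, e, h1]
            obtain ⟨n, hn⟩ := (P.pdown _).1 hlt
            refine ⟨n, ?_⟩
            change _ = (HNNExtension.of s : HNNExtension H A B φ) ^ n • j P.e
            rw [← h2, hn, h2, map_zpow]
          · exact (havk g x hy.le).elim
        · rintro ⟨n, rfl⟩
          change (HNNExtension.of s : HNNExtension H A B φ) ^ n • j P.e < P'.p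
          rw [← map_zpow, ← h2, ← h1]
          exact hjlt _ _ ((P.pdown _).2 ⟨n, rfl⟩) }
  refine ⟨P'', ?_, ?_⟩
  · refine ⟨fun i => if i = 0 then j P.v else if i = 1 then k x0 else
      (HNNExtension.t : HNNExtension H A B φ)⁻¹ • j P.v, rfl, rfl, ?_, ?_⟩
    · intro i hi
      obtain rfl : i = 0 := by omega
      refine ⟨?_, ?_⟩
      · change k x0 ≤ j P.v
        have := (h7 1 x0 P.v).2 (Or.inl ⟨1, (map_one _).symm, by rw [one_smul, hα0]⟩)
        rwa [one_smul] at this
      · change k x0 ≤ (HNNExtension.t : HNNExtension H A B φ)⁻¹ • j P.v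
        rw [P'.le_smul_iff, inv_inv]
        exact (h7 _ x0 P.v).2 (Or.inr ⟨1, by rw [mul_inv_cancel, map_one], by rw [one_smul, hβ0]⟩)
    · intro i hi g
      change ¬ _ ≤ g • P'.p
      have hi' : i = 0 ∨ i = 1 ∨ i = 2 := by omega
      rcases hi' with rfl | rfl | rfl
      · change ¬ j P.v ≤ g • P'.p
        rw [P'.le_smul_iff]
        exact havj _ _ hvp
      · change ¬ k x0 ≤ g • P'.p
        rw [P'.le_smul_iff]
        exact havk _ _
      · change ¬ (HNNExtension.t : HNNExtension H A B φ)⁻¹ • j P.v ≤ g • P'.p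
        rw [P'.le_smul_iff, ← mul_smul]
        exact havj _ _ hvp
  · rintro h m ⟨w, w0, w1, w2, w3⟩
    refine ⟨fun i => j (w i), congrArg j w0, (congrArg j w1).trans (h2 _ _), fun i hi => ?_,
      fun i hi g => ?_⟩
    · obtain ⟨a, b⟩ := w2 i hi
      exact ⟨(hj _ _).2 a, (hj _ _).2 b⟩
    · change ¬ j (w i) ≤ g • P'.p
      rw [P'.le_smul_iff]
      exact havj _ _ (w3 i hi)

/-- HNN extension over the trivial group -/
theorem yd_step0 {H : Type} [Group H] {s : H} {N M : ℕ} (P : YD H s N M) :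
    ∃ P' : YD (HNNExtension H ⊥ ⊥ (MulEquiv.refl _)) (HNNExtension.of s) (N + 1) (2 * M + 1),
      P'.Aw P'.v ((HNNExtension.t : HNNExtension H ⊥ ⊥ (MulEquiv.refl _))⁻¹ • P'.v) 1 ∧
      ∀ (h : H) (m : ℕ), P.Aw P.v (h • P.v) m →
        P'.Aw P'.v ((HNNExtension.of h : HNNExtension H ⊥ ⊥ (MulEquiv.refl _)) • P'.v) m := by
  have hvp : ∀ h : H, ¬ P.v ≤ h • P.p := by
    intro h hle
    rcases hle.eq_or_lt with e | hlt
    · exact P.vreg h e
    · have h6 : h⁻¹ • P.v < P.p := by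
        have := P.lt h⁻¹ _ _ hlt
        rwa [inv_smul_smul] at this
      obtain ⟨n, hn⟩ := (P.pdown _).1 h6
      have h8 := P.typ_lt _ _ P.ev
      have h9 := congrArg P.typ hn
      rw [P.typ_smul, P.typ_smul] at h9
      omega
  have hone : ∀ a : (⊥ : Subgroup H), (a : H) = 1 := fun a => Subgroup.mem_bot.1 a.2
  obtain ⟨P', j, k, h1, h2, -, h4, h5, -, h7, -⟩ := hnn_step P.toYB ⊥ ⊥ (MulEquiv.refl _) PUnit
    (fun a x y h => absurd h (lt_irrefl x)) (fun _ => 0) (fun x y h => absurd h (lt_irrefl x))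
    (fun _ _ => rfl) 0 (fun _ => le_rfl) (fun a x _ => Subsingleton.elim _ _)
    (WC.cone PUnit.unit trivial (fun y _ => Or.inl le_rfl)) 1 1
    ⟨{PUnit.unit}, by simp, fun y => ⟨1, by simp⟩⟩ (fun y => ⟨{PUnit.unit}, by simp, by simp⟩)
    (fun _ => P.v) (fun _ => P.v) (fun _ _ _ => le_rfl) (fun _ _ _ => le_rfl)
    (fun a _ => by rw [hone, one_smul])
    (fun a _ => by rw [MulEquiv.refl_apply, hone, one_smul])
  exact yd_of_step P ⊥ ⊥ (MulEquiv.refl _) PUnit _ _ (N + 1) (2 * M + 1) (fun _ => hvp)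
    (fun _ => hvp) PUnit.unit rfl rfl P' j k h1 h2 h4 h5 h7

/-- HNN extension over infinite cyclic groups, both lines avoid the singular points -/
theorem yd_step1 {H : Type} [Group H] {s : H} {N M : ℕ} (P : YD H s N M) (a b : H)
    (ha : ∀ n : ℤ, a ^ n = 1 → n = 0) (hb : ∀ n : ℤ, b ^ n = 1 → n = 0)
    (φ : Subgroup.zpowers a ≃* Subgroup.zpowers b)
    (hφ : ∀ n : ℤ, (φ ⟨a ^ n, ⟨n, rfl⟩⟩ : H) = b ^ n) (m : ℕ) (hm : 1 ≤ m)
    (h1 : P.Aw P.v (a • P.v) m) (h2 : P.Aw P.v (b • P.v) m) :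
    ∃ P' : YD (HNNExtension H (Subgroup.zpowers a) (Subgroup.zpowers b) φ) (HNNExtension.of s)
        (N + 2 * m) (2 * M + 3),
      P'.Aw P'.v ((HNNExtension.t :
        HNNExtension H (Subgroup.zpowers a) (Subgroup.zpowers b) φ)⁻¹ • P'.v) 1 ∧
      ∀ (h : H) (k : ℕ), P.Aw P.v (h • P.v) k →
        P'.Aw P'.v ((HNNExtension.of h :
          HNNExtension H (Subgroup.zpowers a) (Subgroup.zpowers b) φ) • P'.v) k := by
  obtain ⟨w, w0, w1, w2, w3⟩ := h1
  obtain ⟨u, u0, u1, u2, u3⟩ := h2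
  obtain ⟨α, α1, α2, α3, α4⟩ := exists_line P.lt P.v a m hm w w0 w1 w2
  obtain ⟨β, β1, β2, β3, β4⟩ := exists_line P.lt P.v b m hm u u0 u1 u2
  obtain ⟨act, act1, act2, act3⟩ := exists_line_action a ha m hm
  have per : ∀ (c : H) (f : ZLine → P.Y), (∀ (n : ℤ), f ⟨n + 2 * m⟩ = c • f ⟨n⟩) →
      ∀ (n : ℤ) (x : ℤ), f ⟨x + 2 * m * n⟩ = c ^ n • f ⟨x⟩ := by
    intro c f hf n
    induction n using Int.induction_on with
    | zero => intro x; simp
    | succ i ih =>
      intro x
      have e : x + 2 * m * ((i : ℤ) + 1) = (x + 2 * m * i) + 2 * m := by ring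
      rw [e, hf, ih, ← mul_smul, ← zpow_one_add, add_comm]
    | pred i ih =>
      intro x
      have e : (x + 2 * m * (-(i : ℤ) - 1)) + 2 * m = x + 2 * m * (-i) := by ring
      have h := hf (x + 2 * m * (-(i : ℤ) - 1))
      rw [e, ih] at h
      rw [← inv_smul_smul c (f ⟨x + 2 * m * (-(i : ℤ) - 1)⟩), ← h, ← mul_smul]
      congr 1
      rw [zpow_sub_one]
      exact ((Commute.refl c).zpow_left (-(i : ℤ))).inv_right.eq.symm
  have hαa : ∀ (g : Subgroup.zpowers a) (x : ZLine), α (act.smul g x) = (g : H) • α x := by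
    rintro ⟨g, n, rfl⟩ x
    have e := act1 n x
    change act.smul ⟨a ^ n, _⟩ x = _ at e
    change α (act.smul ⟨a ^ n, _⟩ x) = a ^ n • α x
    rw [e, per a α α3]
  have hβa : ∀ (g : Subgroup.zpowers a) (x : ZLine), β (act.smul g x) = (φ g : H) • β x := by
    rintro ⟨g, n, rfl⟩ x
    have e := act1 n x
    have e2 := hφ n
    change act.smul ⟨a ^ n, _⟩ x = _ at e
    change ((φ ⟨a ^ n, _⟩ : Subgroup.zpowers b) : H) = _ at e2
    change β (act.smul ⟨a ^ n, _⟩ x) = ((φ ⟨a ^ n, _⟩ : Subgroup.zpowers b) : H) • β x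
    rw [e, e2, per b β β3]
  have hsm : ∀ (g : Subgroup.zpowers a) (x : ZLine), ∃ n : ℤ, act.smul g x =
      ⟨x.n + 2 * (m * n)⟩ := by
    rintro ⟨g, n, rfl⟩ x
    have e := act1 n x
    refine ⟨n, ?_⟩
    change act.smul ⟨a ^ n, _⟩ x = _ at e
    change act.smul ⟨a ^ n, _⟩ x = _
    rw [e, mul_assoc]
  have htQ : ∀ (g : Subgroup.zpowers a) (x : ZLine),
      (if Odd (act.smul g x).n then 0 else 1 : ℕ) = if Odd x.n then 0 else 1 := by
    intro g x
    obtain ⟨n, hn⟩ := hsm g x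
    rw [hn]
    simp only
    congr 1
    rw [Int.odd_add]
    simp
  let _ := act
  obtain ⟨P', j, k, q1, q2, -, q4, q5, -, q7, -⟩ := hnn_step P.toYB (Subgroup.zpowers a)
    (Subgroup.zpowers b) φ ZLine act2 (fun x => if Odd x.n then 0 else 1)
    (fun x y h => by
      rw [ZLine.lt_iff] at h
      obtain ⟨ho, hy⟩ := h
      have : ¬ Odd y.n := by
        rw [Int.not_odd_iff_even]
        rcases hy with hy | hy <;> rw [hy]
        · exact ho.add_one
        · exact ho.sub_odd odd_one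
      simp [ho, this])
    htQ 1 (fun x => by split_ifs <;> omega) act3 zline_wc (2 * m) 3
    ⟨(Finset.range (2 * m)).image fun i : ℕ => (⟨i⟩ : ZLine), by
      refine Finset.card_image_le.trans ?_
      rw [Finset.card_range], fun y => by
      obtain ⟨K, i, hi, hn, -⟩ := α4 y.n
      refine ⟨⟨a ^ (-K), ⟨-K, rfl⟩⟩, ?_⟩
      have e := act1 (-K) y
      change act.smul _ y ∈ _
      rw [e, Finset.mem_image]
      refine ⟨i, by simpa using hi, ?_⟩
      congr 1
      rw [hn]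
      ring⟩
    (fun y => ⟨{y, ⟨y.n + 1⟩, ⟨y.n - 1⟩}, Finset.card_le_three, fun z hz => by
      rw [ZLine.le_iff] at hz
      simp only [Finset.mem_insert, Finset.mem_singleton]
      rcases hz with rfl | ⟨-, hz | hz⟩
      · exact Or.inl rfl
      · exact Or.inr (Or.inl (ZLine.ext_n hz))
      · exact Or.inr (Or.inr (ZLine.ext_n hz))⟩)
    α β α1 β1 hαa hβa
  have avoid : ∀ (c : H) (f : ZLine → P.Y) (w : ℕ → P.Y),
      (∀ i, i ≤ 2 * m → ∀ h : H, ¬ w i ≤ h • P.p) →
      (∀ n : ℤ, ∃ (k : ℤ) (i : ℕ), i < 2 * m ∧ n = i + 2 * m * k ∧ f ⟨n⟩ = c ^ k • w i) →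
      ∀ (x : ZLine) (h : H), ¬ f x ≤ h • P.p := by
    intro c f w hw hf x h hle
    obtain ⟨K, i, hi, -, e⟩ := hf x.n
    change f ⟨x.n⟩ ≤ _ at hle
    rw [e] at hle
    apply hw i hi.le ((c ^ K)⁻¹ * h)
    rw [mul_smul]
    have := P.smul_le (c ^ K)⁻¹ hle
    rwa [inv_smul_smul] at this
  exact yd_of_step P _ _ φ ZLine α β (N + 2 * m) (2 * M + 3) (avoid a α w w3 α4)
    (avoid b β u u3 β4) ⟨0⟩ ((α2 0 (by omega)).trans w0) ((β2 0 (by omega)).trans u0) P' j k
    q1 q2 q4 q5 q7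

end

end Pool.Agent.Helper59.PD
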