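import Pool.Agent.Helper59.PD.HBase
import Pool.Agent.Helper59.PD.HSteps
import Pool.Agent.Helper59.PD.HLast
import Pool.Agent.Helper59.PD.Grp

/-! The tower. -/

set_option autoImplicit false

open scoped Classical

namespace Pool.Agent.Helper59.PD

/-- the data after the second step of the tower -/
theorem exists_tower_aux (q : ℕ) (hq : q.Prime) :
    ∃ (K : Type) (_ : Group K) (s a t : K), orderOf s = q ∧
      t * a ^ 2 * t⁻¹ = a ^ 3 ∧
      (∀ n : ℤ, (cw t a) ^ n = 1 → n = 0) ∧ (∀ n : ℤ, ((cw t a)⁻¹ * s) ^ n = 1 → n = 0) ∧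
      ∃ P : YD K s (3 + 1 + 2 * 3) (2 * (2 * 2 + 1) + 3), P.Aw P.v (cw t a • P.v) 8 := by
  have hq2 : 2 ≤ q := hq.two_le
  haveI : Fact q.Prime := ⟨hq⟩
  obtain ⟨P0⟩ := yd_base q hq2
  obtain ⟨P1, w1, w1'⟩ := yd_step0 P0
  set a : HNNExtension (Multiplicative (ZMod q)) ⊥ ⊥ (MulEquiv.refl _) :=
    (HNNExtension.t)⁻¹ with ha
  have ha1 : ∀ n : ℤ, a ^ n = 1 → n = 0 := by
    intro n hn
    refine hnn_t_order (H := Multiplicative (ZMod q)) ⊥ ⊥ (MulEquiv.refl _) 1 le_rfl n ?_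
    rw [pow_one]
    exact hn
  have ha2 : ∀ n : ℤ, (a ^ 2) ^ n = 1 → n = 0 :=
    fun n hn => hnn_t_order (H := Multiplicative (ZMod q)) ⊥ ⊥ (MulEquiv.refl _) 2 (by norm_num) n hn
  have ha3 : ∀ n : ℤ, (a ^ 3) ^ n = 1 → n = 0 :=
    fun n hn => hnn_t_order (H := Multiplicative (ZMod q)) ⊥ ⊥ (MulEquiv.refl _) 3 (by norm_num) n hn
  obtain ⟨φ, hφ⟩ := exists_cyclic_equiv (a ^ 2) (a ^ 3) ha2 ha3
  have v1 : P1.Aw P1.v ((a ^ 2) • P1.v) 2 := by
    rw [pow_two]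
    exact w1.mul P1.toYB w1
  have v2 : P1.Aw P1.v ((a ^ 3) • P1.v) 3 := by
    rw [pow_succ]
    exact v1.mul P1.toYB w1
  obtain ⟨P2, w2, w2'⟩ := yd_step1 P1 (a ^ 2) (a ^ 3) ha2 ha3 φ hφ 3 (by norm_num)
    (v1.pad P1.toYB (by norm_num)) v2
  have wt := w2.inv P2.toYB
  rw [inv_inv] at wt
  have wa := w2' a 1 w1
  have wa' := wa.inv P2.toYB
  have hs0 : (Multiplicative.ofAdd (1 : ZMod q)) ≠ 1 := by
    intro h
    have h1 : (1 : ZMod q) = 0 := h
    exact one_ne_zero h1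
  have hs0' : orderOf (Multiplicative.ofAdd (1 : ZMod q)) = q := by
    rw [orderOf_ofAdd_eq_addOrderOf, ZMod.addOrderOf_one]
  refine ⟨_, inferInstance, HNNExtension.of (HNNExtension.of (Multiplicative.ofAdd (1 : ZMod q))),
    HNNExtension.of a, HNNExtension.t, ?_, ?_, ?_, ?_, P2, ?_⟩
  · rw [orderOf_injective _ (HNNExtension.of_injective _), orderOf_injective _ (HNNExtension.of_injective _)]
    exact hs0'
  · have h1 := HNNExtension.t_mul_of (φ := φ) ⟨a ^ 2, ⟨1, by simp⟩⟩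
    have h2 : (φ ⟨a ^ 2, ⟨1, by simp⟩⟩ : HNNExtension (Multiplicative (ZMod q)) ⊥ ⊥ (MulEquiv.refl _)) =
        a ^ 3 := by
      have := hφ 1
      simp only [zpow_one] at this
      exact this
    rw [h2] at h1
    rw [← map_pow, ← map_pow, mul_inv_eq_iff_eq_mul]
    exact h1
  · exact fun n hn => bs_c_order a ha1 φ n hn
  · exact fun n hn => bs_cs_order a _ ha1 (fun n => free_letter _ hs0 n) φ n hn
  · unfold cw
    have e1 := wt.mul P2.toYB wa
    have e2 := e1.mul P2.toYB w2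
    have e3 := e2.mul P2.toYB wa
    have e4 := e3.mul P2.toYB wt
    have e5 := e4.mul P2.toYB wa'
    have e6 := e5.mul P2.toYB w2
    have e7 := e6.mul P2.toYB wa'
    exact e7

theorem exists_tower : ∃ N : ℕ, ∀ q : ℕ, q.Prime → 5 ≤ q →
    ∃ (G : Type) (_ : Group G) (s : G), s ^ q = 1 ∧ s ≠ 1 ∧
      (∀ N : Subgroup G, N.FiniteIndex → s ∈ N) ∧ Nonempty (YPack q G s N) := by
  refine ⟨((3 + 1 + 2 * 3) + (2 * 8 + 4)) * 2 ^ (2 * (2 * (2 * 2 + 1) + 3) + 3), ?_⟩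
  intro q hq _
  obtain ⟨K, _, s, a, t, hs, h1, hc, hcs, P, hP⟩ := exists_tower_aux q hq
  obtain ⟨φ, hφ⟩ := exists_cyclic_equiv (cw t a) ((cw t a)⁻¹ * s) hc hcs
  obtain ⟨Y⟩ := ypack_of_yd hq.two_le hs P (cw t a) hc hcs φ hφ 8 hP
  have hs' : orderOf (HNNExtension.of s : HNNExtension K (Subgroup.zpowers (cw t a))
      (Subgroup.zpowers ((cw t a)⁻¹ * s)) φ) = q := by
    rw [orderOf_injective _ (HNNExtension.of_injective _)]
    exact hs
  refine ⟨_, inferInstance, HNNExtension.of s, ?_, ?_, ?_, ⟨Y⟩⟩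
  · rw [← hs']
    exact pow_orderOf_eq_one _
  · intro h
    rw [h, orderOf_one] at hs'
    exact hq.one_lt.ne hs'
  · intro N hN
    refine mem_of_finiteIndex (HNNExtension.of a) (HNNExtension.of t) HNNExtension.t
      (HNNExtension.of s) ?_ ?_ N hN
    · rw [← map_pow, ← map_pow, ← map_inv, ← map_mul, ← map_mul, h1]
    · have h2 := HNNExtension.t_mul_of (φ := φ) ⟨cw t a, ⟨1, by simp⟩⟩
      have h3 : (φ ⟨cw t a, ⟨1, by simp⟩⟩ : K) = (cw t a)⁻¹ * s := by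
        have := hφ 1
        simp only [zpow_one] at this
        exact this
      rw [h3] at h2
      have h4 : cw (HNNExtension.of t) (HNNExtension.of a) =
          (HNNExtension.of (cw t a) : HNNExtension K (Subgroup.zpowers (cw t a))
          (Subgroup.zpowers ((cw t a)⁻¹ * s)) φ) := by
        unfold cw
        simp only [← map_mul, ← map_inv]
      rw [h4, mul_inv_eq_iff_eq_mul, ← map_inv, ← map_mul]
      exact h2

end Pool.Agent.Helper59.PD
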