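import Pool.Agent.Helper59.PD.YB

/-! Induced posets. -/

set_option autoImplicit false

open scoped Classical

namespace Pool.Agent.Helper59.PD

noncomputable section

/-- the action is monotone -/
class MonoAct (L X : Type) [Group L] [PartialOrder X] [MulAction L X] : Prop where
  le : ∀ (l : L) (x y : X), x ≤ y → l • x ≤ l • y

section defs

variable {K L : Type} [Group K] [Group L] (ι : L →* K) (X : Type) [MulAction L X]

/-- the relation defining the induced set -/
def indSetoid : Setoid (K × X) where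
  r p q := ∃ l : L, p.1⁻¹ * q.1 = ι l ∧ p.2 = l • q.2
  iseqv := {
    refl := fun p => ⟨1, by simp, by simp⟩
    symm := by
      rintro p q ⟨l, h1, h2⟩
      refine ⟨l⁻¹, ?_, ?_⟩
      · rw [map_inv, ← h1]
        group
      · rw [h2, inv_smul_smul]
    trans := by
      rintro p q r ⟨l, h1, h2⟩ ⟨l', h3, h4⟩
      refine ⟨l * l', ?_, ?_⟩
      · rw [map_mul, ← h1, ← h3]
        group
      · rw [h2, h4, mul_smul] }

/-- the induced set `(K × X) / L` -/
def Ind : Type := Quotient (indSetoid ι X)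

end defs

namespace Ind

variable {K L : Type} [Group K] [Group L] {ι : L →* K} {X : Type} [MulAction L X]

/-- the class of a pair -/
def mk (g : K) (x : X) : Ind ι X := Quotient.mk (indSetoid ι X) (g, x)

lemma mk_eq {g g' : K} {x y : X} : (mk g x : Ind ι X) = mk g' y ↔
    ∃ l : L, g⁻¹ * g' = ι l ∧ x = l • y := by
  constructor
  · intro h
    exact Quotient.exact h
  · intro h
    exact Quotient.sound (s := indSetoid ι X) h

lemma mk_mul (g : K) (l : L) (x : X) : (mk (g * ι l) x : Ind ι X) = mk g (l • x) := by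
  refine (mk_eq.mpr ⟨l, ?_, rfl⟩).symm
  rw [inv_mul_cancel_left]

lemma ind {p : Ind ι X → Prop} (h : ∀ g x, p (mk g x)) (z : Ind ι X) : p z := by
  induction z using Quotient.inductionOn with
  | h a => exact h a.1 a.2

/-- functions out of the induced set -/
def lift {Z : Type} (f : K → X → Z) (hf : ∀ g l x, f (g * ι l) x = f g (l • x)) : Ind ι X → Z :=
  Quotient.lift (fun p : K × X => f p.1 p.2) (by
    rintro ⟨g, x⟩ ⟨g', y⟩ ⟨l, h1, h2⟩
    simp only at h1 h2 ⊢
    have : g' = g * ι l := by rw [← h1, mul_inv_cancel_left]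
    rw [this, hf, h2])

lemma lift_mk {Z : Type} (f : K → X → Z) (hf : ∀ g l x, f (g * ι l) x = f g (l • x)) (g : K)
    (x : X) : lift (ι := ι) f hf (mk g x) = f g x := rfl

instance : MulAction K (Ind ι X) where
  smul g := lift (fun g' x => mk (g * g') x) (by
    intro g' l x
    rw [← mul_assoc, mk_mul])
  one_smul := by
    intro z
    induction z using Ind.ind with
    | h g x =>
      change mk (1 * g) x = mk g x
      rw [one_mul]
  mul_smul := by
    intro a b z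
    induction z using Ind.ind with
    | h g x =>
      change mk (a * b * g) x = mk (a * (b * g)) x
      rw [mul_assoc]

lemma smul_mk (g g' : K) (x : X) : g • (mk g' x : Ind ι X) = mk (g * g') x := rfl

/-- maps between induced sets -/
def map {L' X' : Type} [Group L'] [MulAction L' X'] {ι' : L' →* K} (c : K) (ψ : L → L')
    (f : X → X') (h1 : ∀ l, c⁻¹ * ι l * c = ι' (ψ l)) (h2 : ∀ l x, f (l • x) = ψ l • f x) :
    Ind ι X → Ind ι' X' :=
  lift (fun g x => mk (g * c) (f x)) (by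
    intro g l x
    rw [h2, ← mk_mul, ← h1]
    congr 1
    group)

lemma map_mk {L' X' : Type} [Group L'] [MulAction L' X'] {ι' : L' →* K} (c : K) (ψ : L → L')
    (f : X → X') (h1 : ∀ l, c⁻¹ * ι l * c = ι' (ψ l)) (h2 : ∀ l x, f (l • x) = ψ l • f x)
    (g : K) (x : X) : map (ι := ι) c ψ f h1 h2 (mk g x) = mk (g * c) (f x) := rfl

lemma map_smul {L' X' : Type} [Group L'] [MulAction L' X'] {ι' : L' →* K} (c : K) (ψ : L → L')
    (f : X → X') (h1 : ∀ l, c⁻¹ * ι l * c = ι' (ψ l)) (h2 : ∀ l x, f (l • x) = ψ l • f x)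
    (g : K) (z : Ind ι X) : map (ι := ι) c ψ f h1 h2 (g • z) = g • map c ψ f h1 h2 z := by
  induction z using Ind.ind with
  | h g' x => rw [smul_mk, map_mk, map_mk, smul_mk, mul_assoc]

section order

variable [PartialOrder X] [MonoAct L X] [hι : Fact (Function.Injective ι)]

instance : PartialOrder (Ind ι X) where
  le a b := ∃ g x y, mk g x = a ∧ mk g y = b ∧ x ≤ y
  le_refl := by
    intro z
    induction z using Ind.ind with
    | h g x => exact ⟨g, x, x, rfl, rfl, le_rfl⟩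
  le_trans := by
    rintro a b c ⟨g, x, y, ha, hb, hxy⟩ ⟨g', y', z, hb', hc, hyz⟩
    obtain ⟨l, h1, h2⟩ := mk_eq.mp (hb.trans hb'.symm)
    refine ⟨g, x, l • z, ha, ?_, ?_⟩
    · rw [← mk_mul, ← h1, mul_inv_cancel_left, hc]
    · refine hxy.trans ?_
      rw [h2]
      exact MonoAct.le l _ _ hyz
  le_antisymm := by
    rintro a b ⟨g, x, y, ha, hb, hxy⟩ ⟨g', y', x', hb', ha', hyx⟩
    obtain ⟨l, h1, h2⟩ := mk_eq.mp (ha.trans ha'.symm)
    obtain ⟨l', h3, h4⟩ := mk_eq.mp (hb.trans hb'.symm)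
    have hl : l = l' := hι.out (h1.symm.trans h3)
    subst hl
    have h5 : y ≤ x := by
      rw [h4, h2]
      exact MonoAct.le l _ _ hyx
    rw [← ha, ← hb, le_antisymm hxy h5]

lemma mk_le_mk {g g' : K} {x y : X} : (mk g x : Ind ι X) ≤ mk g' y ↔
    ∃ l : L, g⁻¹ * g' = ι l ∧ x ≤ l • y := by
  constructor
  · rintro ⟨g0, x0, y0, h1, h2, h3⟩
    obtain ⟨l1, h4, h5⟩ := mk_eq.mp h1.symm
    obtain ⟨l2, h6, h7⟩ := mk_eq.mp h2.symm
    refine ⟨l1 * l2⁻¹, ?_, ?_⟩
    · rw [map_mul, map_inv, ← h4, ← h6]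
      group
    · rw [h5, h7, mul_smul, inv_smul_smul]
      exact MonoAct.le l1 _ _ h3
  · rintro ⟨l, h1, h2⟩
    refine ⟨g, x, l • y, rfl, ?_, h2⟩
    rw [← mk_mul, ← h1, mul_inv_cancel_left]

lemma mk_le_mk_same {g : K} {x y : X} : (mk g x : Ind ι X) ≤ mk g y ↔ x ≤ y := by
  rw [mk_le_mk]
  constructor
  · rintro ⟨l, h1, h2⟩
    rw [inv_mul_cancel] at h1
    have : l = 1 := hι.out (by rw [← h1, map_one])
    rw [this, one_smul] at h2
    exact h2
  · intro h
    exact ⟨1, by simp, by simpa using h⟩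

lemma mk_lt_mk_same {g : K} {x y : X} : (mk g x : Ind ι X) < mk g y ↔ x < y := by
  rw [lt_iff_le_not_ge, lt_iff_le_not_ge, mk_le_mk_same, mk_le_mk_same]

lemma mk_le_mk_one {g : K} {x y : X} : (mk g x : Ind ι X) ≤ mk 1 y ↔
    ∃ l : L, g = ι l ∧ l • x ≤ y := by
  rw [mk_le_mk]
  constructor
  · rintro ⟨l, h1, h2⟩
    refine ⟨l⁻¹, ?_, ?_⟩
    · rw [map_inv, ← h1, mul_one, inv_inv]
    · have := MonoAct.le l⁻¹ _ _ h2
      rwa [inv_smul_smul] at this
  · rintro ⟨l, h1, h2⟩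
    refine ⟨l⁻¹, ?_, ?_⟩
    · rw [h1, map_inv, mul_one]
    · have := MonoAct.le l⁻¹ _ _ h2
      rwa [inv_smul_smul] at this

/-- an element above `mk g x` is `mk g y` with `y` above `x` -/
lemma mk_le {g : K} {x : X} {z : Ind ι X} : mk g x ≤ z ↔ ∃ y, z = mk g y ∧ x ≤ y := by
  constructor
  · intro h
    induction z using Ind.ind with
    | h g' y =>
      obtain ⟨l, h1, h2⟩ := mk_le_mk.mp h
      refine ⟨l • y, ?_, h2⟩
      rw [← mk_mul, ← h1, mul_inv_cancel_left]
  · rintro ⟨y, rfl, h⟩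
    exact mk_le_mk_same.mpr h

lemma mk_inj {g : K} {x y : X} : (mk g x : Ind ι X) = mk g y ↔ x = y := by
  constructor
  · intro h
    exact le_antisymm (mk_le_mk_same.mp h.le) (mk_le_mk_same.mp h.ge)
  · rintro rfl
    rfl

lemma smul_le (g : K) {z w : Ind ι X} (h : z ≤ w) : g • z ≤ g • w := by
  obtain ⟨g0, x0, y0, rfl, rfl, h3⟩ := h
  rw [smul_mk, smul_mk]
  exact mk_le_mk_same.mpr h3

lemma map_mono {L' X' : Type} [Group L'] [MulAction L' X'] {ι' : L' →* K} [PartialOrder X']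
    [MonoAct L' X'] [hι' : Fact (Function.Injective ι')] (c : K) (ψ : L → L')
    (f : X → X') (h1 : ∀ l, c⁻¹ * ι l * c = ι' (ψ l)) (h2 : ∀ l x, f (l • x) = ψ l • f x)
    (hf : Monotone f) : Monotone (map (ι := ι) c ψ f h1 h2) := by
  rintro _ _ ⟨g0, x0, y0, rfl, rfl, h3⟩
  rw [map_mk, map_mk]
  exact mk_le_mk_same.mpr (hf h3)

/-- ranks on the induced poset -/
def rank (ρ : X → ℕ) (hρ : ∀ (l : L) x, ρ (l • x) = ρ x) : Ind ι X → ℕ :=
  lift (fun _ x => ρ x) (by
    intro g l x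
    rw [hρ])

omit [PartialOrder X] [MonoAct L X] hι in
lemma rank_mk (ρ : X → ℕ) (hρ : ∀ (l : L) x, ρ (l • x) = ρ x) (g : K) (x : X) :
    rank ρ hρ (mk g x : Ind ι X) = ρ x := rfl

omit [PartialOrder X] [MonoAct L X] hι in
lemma rank_smul (ρ : X → ℕ) (hρ : ∀ (l : L) x, ρ (l • x) = ρ x) (g : K) (z : Ind ι X) :
    rank ρ hρ (g • z) = rank ρ hρ z := by
  induction z using Ind.ind with
  | h g' x => rw [smul_mk, rank_mk, rank_mk]

lemma rank_lt (ρ : X → ℕ) (hρ : ∀ (l : L) x, ρ (l • x) = ρ x)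
    (hlt : ∀ x y, x < y → ρ x < ρ y) (z w : Ind ι X) (h : z < w) :
    rank ρ hρ z < rank ρ hρ w := by
  obtain ⟨g0, x0, y0, rfl, rfl, h3⟩ := h.le
  rw [rank_mk, rank_mk]
  refine hlt _ _ (lt_of_le_of_ne h3 ?_)
  rintro rfl
  exact lt_irrefl _ h

omit [PartialOrder X] [MonoAct L X] hι in
lemma rank_le (ρ : X → ℕ) (hρ : ∀ (l : L) x, ρ (l • x) = ρ x) {N : ℕ}
    (hN : ∀ x, ρ x ≤ N) (z : Ind ι X) : rank ρ hρ z ≤ N := by
  induction z using Ind.ind with
  | h g' x =>
    rw [rank_mk]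
    exact hN x

/-- the projection to the cosets -/
def proj (S : Subgroup K) (hS : ∀ l, ι l ∈ S) : Ind ι X → K ⧸ S :=
  lift (fun g _ => (QuotientGroup.mk g : K ⧸ S)) (by
    intro g l x
    exact (QuotientGroup.eq.mpr (by
      rw [mul_inv_rev, inv_mul_cancel_right]
      exact S.inv_mem (hS l))))

omit [PartialOrder X] [MonoAct L X] hι in
lemma proj_mk (S : Subgroup K) (hS : ∀ l, ι l ∈ S) (g : K) (x : X) :
    proj S hS (mk g x : Ind ι X) = (QuotientGroup.mk g : K ⧸ S) := rfl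

lemma proj_le (S : Subgroup K) (hS : ∀ l, ι l ∈ S) (z w : Ind ι X) (h : z ≤ w) :
    proj S hS z = proj S hS w := by
  obtain ⟨g0, x0, y0, rfl, rfl, h3⟩ := h
  rw [proj_mk, proj_mk]

theorem wc_fibre (S : Subgroup K) (hS : ∀ l, ι l ∈ S) (hS' : ∀ g ∈ S, ∃ l, ι l = g)
    (hX : WC (Set.univ : Set X)) (v : K ⧸ S) : WC {z : Ind ι X | proj S hS z = v} := by
  obtain ⟨g, rfl⟩ := QuotientGroup.mk_surjective v
  refine (HEq'.of_iso (S := (Set.univ : Set X)) (fun x => (mk g x : Ind ι X))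
    ⟨?_, ?_, ?_⟩ ?_).wc.mp hX
  · intro x _
    rfl
  · intro x _ y _ h
    exact mk_inj.mp h
  · intro z hz
    induction z using Ind.ind with
    | h g' x =>
      have h1 : (QuotientGroup.mk g' : K ⧸ S) = QuotientGroup.mk g := hz
      obtain ⟨l, hl⟩ := hS' _ (QuotientGroup.eq.mp h1.symm)
      refine ⟨l • x, trivial, ?_⟩
      change mk g (l • x) = mk g' x
      rw [← mk_mul, hl, mul_inv_cancel_left]
  · intro x _ y _
    exact (mk_lt_mk_same (ι := ι)).symm

end order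

end Ind

end

end Pool.Agent.Helper59.PD
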