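import Pool.Agent.Helper59.PD.YB

/-! The Bass-Serre tree of an HNN extension. -/

set_option autoImplicit false

open scoped Classical

namespace Pool.Agent.Helper59.PD

noncomputable section

variable {H : Type} [Group H] (A B : Subgroup H) (φ : A ≃* B)

/-- the vertex group -/
def VG : Subgroup (HNNExtension H A B φ) := (HNNExtension.of : H →* HNNExtension H A B φ).range

/-- the edge group -/
def EG : Subgroup (HNNExtension H A B φ) :=
  A.map (HNNExtension.of : H →* HNNExtension H A B φ)

/-- first end of an edge: `g A ↦ g H` -/
def endA : HNNExtension H A B φ ⧸ EG A B φ → HNNExtension H A B φ ⧸ VG A B φ :=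
  Quotient.map' id (by
    intro g g' h
    rw [QuotientGroup.leftRel_apply] at h ⊢
    obtain ⟨a, _, ha⟩ := h
    exact ⟨a, ha⟩)

/-- second end of an edge: `g A ↦ g t⁻¹ H` -/
def endB : HNNExtension H A B φ ⧸ EG A B φ → HNNExtension H A B φ ⧸ VG A B φ :=
  Quotient.map' (fun g => g * (HNNExtension.t)⁻¹) (by
    intro g g' h
    rw [QuotientGroup.leftRel_apply] at h ⊢
    obtain ⟨a, ha, h⟩ := h
    refine ⟨φ ⟨a, ha⟩, ?_⟩
    have h1 : (HNNExtension.t : HNNExtension H A B φ) * HNNExtension.of a =
        HNNExtension.of (φ ⟨a, ha⟩ : H) * HNNExtension.t := HNNExtension.t_mul_of ⟨a, ha⟩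
    have h2 : (HNNExtension.of (φ ⟨a, ha⟩ : H) : HNNExtension H A B φ) =
        HNNExtension.t * HNNExtension.of a * (HNNExtension.t)⁻¹ := by
      rw [h1, mul_inv_cancel_right]
    rw [h2, h]
    simp [mul_assoc])

namespace HT

open HNNExtension

variable {A B φ}

/-- the letters `t` and `t⁻¹` -/
def tt (u : ℤˣ) : HNNExtension H A B φ := t ^ (u : ℤ)

lemma tt_neg (u : ℤˣ) : (tt (-u) : HNNExtension H A B φ) = (tt u)⁻¹ := by
  simp [tt]

lemma tt_one : (tt 1 : HNNExtension H A B φ) = t := by simp [tt]

lemma tt_neg_one : (tt (-1) : HNNExtension H A B φ) = t⁻¹ := by simp [tt]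

/-- moving an element of an associated subgroup through a letter -/
lemma tt_conj (u : ℤˣ) {x : H} (hx : x ∈ toSubgroup A B u) :
    ∃ y ∈ toSubgroup A B (-u), (tt u : HNNExtension H A B φ) * of x * (tt u)⁻¹ = of y := by
  rcases Int.units_eq_one_or u with rfl | rfl
  · refine ⟨φ ⟨x, hx⟩, (φ ⟨x, hx⟩).2, ?_⟩
    rw [tt_one, t_mul_of (A := A) (B := B) (φ := φ) ⟨x, hx⟩, mul_inv_cancel_right]
  · refine ⟨φ.symm ⟨x, hx⟩, ?_, ?_⟩
    · rw [neg_neg]
      exact (φ.symm ⟨x, hx⟩).2
    · rw [tt_neg_one, inv_t_mul_of (A := A) (B := B) (φ := φ) ⟨x, hx⟩]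
      simp

/-- the chain condition -/
def RCh (l : List (ℤˣ × H)) : Prop :=
  l.IsChain (fun a b => a.2 ∈ toSubgroup A B a.1 → a.1 = b.1)

/-- the product of a list -/
def pl (h : H) (l : List (ℤˣ × H)) : HNNExtension H A B φ :=
  of h * (l.map (fun x => tt x.1 * of x.2)).prod

lemma pl_nil (h : H) : (pl h [] : HNNExtension H A B φ) = of h := by simp [pl]

lemma pl_concat (h : H) (l : List (ℤˣ × H)) (u : ℤˣ) (x : H) :
    (pl h (l ++ [(u, x)]) : HNNExtension H A B φ) = pl h l * (tt u * of x) := by
  simp [pl, mul_assoc]

variable (A B φ) in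
lemma exists_pl (g : HNNExtension H A B φ) :
    ∃ (h : H) (l : List (ℤˣ × H)), RCh (A := A) (B := B) l ∧ pl h l = g := by
  obtain ⟨d⟩ := NormalWord.TransversalPair.nonempty H A B
  refine ⟨(NormalWord.equiv φ d g).head, (NormalWord.equiv φ d g).toList,
    (NormalWord.equiv φ d g).chain, ?_⟩
  exact (NormalWord.equiv φ d).symm_apply_apply g

lemma len_unique {h h' : H} {l l' : List (ℤˣ × H)} (hl : RCh (A := A) (B := B) l)
    (hl' : RCh (A := A) (B := B) l')
    (e : (pl h l : HNNExtension H A B φ) = pl h' l') : l.length = l'.length := by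
  have h1 := (ReducedWord.map_fst_eq_and_of_prod_eq φ (w₁ := ⟨h, l, hl⟩) (w₂ := ⟨h', l', hl'⟩) e).1
  have h2 := congrArg List.length h1
  simpa using h2

/-- the length of an element -/
def len (g : HNNExtension H A B φ) : ℕ := (exists_pl A B φ g).choose_spec.choose.length

lemma len_pl {h : H} {l : List (ℤˣ × H)} (hl : RCh (A := A) (B := B) l) :
    len (pl h l : HNNExtension H A B φ) = l.length :=
  len_unique (exists_pl A B φ (pl h l)).choose_spec.choose_spec.1 hl
    (exists_pl A B φ (pl h l)).choose_spec.choose_spec.2

lemma ch_concat {l : List (ℤˣ × H)} {u : ℤˣ} {x : H} (y : H)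
    (h : RCh (A := A) (B := B) (l ++ [(u, x)])) : RCh (A := A) (B := B) (l ++ [(u, y)]) := by
  unfold RCh at *
  rw [List.isChain_append] at h ⊢
  refine ⟨h.1, List.IsChain.singleton _, ?_⟩
  intro p hp q hq
  simp only [List.head?_cons, Option.mem_def, Option.some.injEq] at hq
  have := h.2.2 p hp (u, x) (by simp)
  rw [← hq]
  exact this

lemma len_mul_of (g : HNNExtension H A B φ) (x : H) : len (g * of x) = len g := by
  obtain ⟨h, l, hl, rfl⟩ := exists_pl A B φ g
  rw [len_pl hl]
  rcases List.eq_nil_or_concat l with rfl | ⟨l', ⟨u, y⟩, rfl⟩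
  · rw [pl_nil, ← map_mul, ← pl_nil, len_pl (by exact List.isChain_nil)]
  · rw [List.concat_eq_append] at hl ⊢
    rw [pl_concat, mul_assoc, mul_assoc, ← map_mul, ← pl_concat, len_pl (ch_concat _ hl)]
    simp

/-- the length grows by one if the last letter does not cancel -/
lemma len_up {h : H} {l : List (ℤˣ × H)} (hl : RCh (A := A) (B := B) l) (u : ℤˣ)
    (hc : ∀ q ∈ l.getLast?, q.2 ∈ toSubgroup A B q.1 → q.1 = u) :
    len ((pl h l : HNNExtension H A B φ) * tt u) = l.length + 1 := by
  have h1 : RCh (A := A) (B := B) (l ++ [(u, 1)]) := by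
    unfold RCh at *
    rw [List.isChain_append]
    refine ⟨hl, List.IsChain.singleton _, ?_⟩
    intro p hp q hq
    simp only [List.head?_cons, Option.mem_def, Option.some.injEq] at hq
    rw [← hq]
    exact hc p hp
  have h2 : (pl h l : HNNExtension H A B φ) * tt u = pl h (l ++ [(u, 1)]) := by
    rw [pl_concat]; simp
  rw [h2, len_pl h1]
  simp

/-- the length drops by one if the last letter cancels -/
lemma len_down {h : H} {l : List (ℤˣ × H)} {u : ℤˣ} {x : H}
    (hl : RCh (A := A) (B := B) (l ++ [(u, x)])) (hx : x ∈ toSubgroup A B u) :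
    len ((pl h (l ++ [(u, x)]) : HNNExtension H A B φ) * tt (-u)) = l.length := by
  obtain ⟨y, -, hy⟩ := tt_conj (A := A) (B := B) (φ := φ) u hx
  have hl' : RCh (A := A) (B := B) l := (List.isChain_append.1 hl).1
  rw [pl_concat, tt_neg, mul_assoc (pl h l), hy, len_mul_of, len_pl hl']

lemma len_t (g : HNNExtension H A B φ) (u : ℤˣ) :
    len (g * tt u) = len g + 1 ∨ len g = len (g * tt u) + 1 := by
  obtain ⟨h, l, hl, rfl⟩ := exists_pl A B φ g
  by_cases hc : ∀ q ∈ l.getLast?, q.2 ∈ toSubgroup A B q.1 → q.1 = u
  · left
    rw [len_up hl u hc, len_pl hl]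
  · right
    push Not at hc
    obtain ⟨⟨v, x⟩, hq, hx, hv⟩ := hc
    rcases List.eq_nil_or_concat l with rfl | ⟨l', q, rfl⟩
    · simp at hq
    · rw [List.concat_eq_append] at hl hq ⊢
      have hqe : q = (v, x) := by simpa using hq
      subst hqe
      have hu : u = -v := by
        rcases Int.units_eq_one_or u with rfl | rfl <;> rcases Int.units_eq_one_or v with rfl | rfl
        · exact absurd rfl hv
        · simp
        · rfl
        · exact absurd rfl hv
      subst hu
      rw [len_down hl hx, len_pl hl]
      simp

lemma len_eq_zero {g : HNNExtension H A B φ} (hg : len g = 0) : g ∈ VG A B φ := by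
  obtain ⟨h, l, hl, rfl⟩ := exists_pl A B φ g
  rw [len_pl hl] at hg
  rw [List.length_eq_zero_iff.1 hg, pl_nil]
  exact ⟨h, rfl⟩

/-- depth of a vertex -/
def dep : HNNExtension H A B φ ⧸ VG A B φ → ℕ :=
  Quotient.lift len (by
    intro g g' h
    have h' : g⁻¹ * g' ∈ VG A B φ := QuotientGroup.leftRel_apply.1 h
    obtain ⟨x, hx⟩ := h'
    have : g' = g * of x := by rw [hx]; group
    rw [this, len_mul_of])

lemma dep_mk (g : HNNExtension H A B φ) : dep (g : HNNExtension H A B φ ⧸ VG A B φ) = len g := rfl

lemma endA_mk (g : HNNExtension H A B φ) :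
    endA A B φ (g : HNNExtension H A B φ ⧸ EG A B φ) = (g : HNNExtension H A B φ ⧸ VG A B φ) := rfl

lemma endB_mk (g : HNNExtension H A B φ) : endB A B φ (g : HNNExtension H A B φ ⧸ EG A B φ) =
    ((g * t⁻¹ : HNNExtension H A B φ) : HNNExtension H A B φ ⧸ VG A B φ) := rfl

/-- `k` and `g` have the same vertex -/
lemma eq_vertex {k g : HNNExtension H A B φ}
    (h : (k : HNNExtension H A B φ ⧸ VG A B φ) = (g : HNNExtension H A B φ ⧸ VG A B φ)) :
    ∃ x : H, k = g * of x := by
  have h1 := QuotientGroup.eq.1 h.symm
  obtain ⟨x, hx⟩ := h1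
  exact ⟨x, by rw [hx]; group⟩

lemma edge_eq {k g : HNNExtension H A B φ} {a : H} (ha : a ∈ A) (h : k = g * of a) :
    (k : HNNExtension H A B φ ⧸ EG A B φ) = (g : HNNExtension H A B φ ⧸ EG A B φ) := by
  symm
  apply QuotientGroup.eq.2
  exact ⟨a, ha, by rw [h]; group⟩

end HT

open HT HNNExtension in
theorem hnn_isTree : IsTree (endA A B φ) (endB A B φ) := by
  refine ⟨dep, ((1 : HNNExtension H A B φ) : HNNExtension H A B φ ⧸ VG A B φ), ?_, ?_, ?_⟩
  · intro v
    induction v using QuotientGroup.induction_on with
    | H g =>
      intro h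
      rw [dep_mk] at h
      have h1 := len_eq_zero h
      symm
      apply QuotientGroup.eq.2
      simpa using h1
  · intro e
    induction e using QuotientGroup.induction_on with
    | H g =>
      rw [endA_mk, endB_mk, dep_mk, dep_mk]
      have := len_t g (-1)
      rw [tt_neg_one] at this
      tauto
  · intro v
    induction v using QuotientGroup.induction_on with
    | H g =>
      intro hv
      obtain ⟨h, l, hl, hg⟩ := exists_pl A B φ g
      rcases List.eq_nil_or_concat l with rfl | ⟨l', ⟨u, x⟩, rfl⟩
      · exfalso
        apply hv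
        symm
        apply QuotientGroup.eq.2
        rw [pl_nil] at hg
        exact ⟨h, by rw [hg]; group⟩
      · rw [List.concat_eq_append] at hl hg
        -- replace `g` by `g x⁻¹`
        set g' : HNNExtension H A B φ := pl h (l' ++ [(u, 1)]) with hg'
        have hl1 : RCh (A := A) (B := B) (l' ++ [(u, 1)]) := ch_concat 1 hl
        have hgg : (g : HNNExtension H A B φ ⧸ VG A B φ) = (g' : HNNExtension H A B φ ⧸ VG A B φ) := by
          symm
          apply QuotientGroup.eq.2
          refine ⟨x, ?_⟩
          rw [← hg, hg', pl_concat, pl_concat]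
          simp
        rw [hgg]
        have hlen : len g' = l'.length + 1 := by rw [hg', len_pl hl1]; simp
        have hmul : ∀ y : H, g' * of y = pl h (l' ++ [(u, y)]) := by
          intro y
          rw [hg', pl_concat, pl_concat]
          simp [mul_assoc]
        have hsame : ∀ y : H, len (g' * of y * tt u) = l'.length + 2 := by
          intro y
          rw [hmul, len_up (ch_concat y hl) u (by
            intro q hq _
            have : q = (u, y) := by simpa using hq.symm
            rw [this])]
          simp
        have hother : ∀ y : H, y ∉ toSubgroup A B u → len (g' * of y * tt (-u)) = l'.length + 2 := by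
          intro y hy
          rw [hmul, len_up (ch_concat y hl) (-u) (by
            intro q hq h1
            have : q = (u, y) := by simpa using hq.symm
            rw [this] at h1
            exact absurd h1 hy)]
          simp
        have hdrop : len (g' * tt (-u)) = l'.length := by
          rw [hg', len_down hl1 (one_mem _)]
        rcases Int.units_eq_one_or u with rfl | rfl
        · -- the descending edge is `g' A`
          refine ⟨(g' : HNNExtension H A B φ ⧸ EG A B φ), Or.inl ⟨endA_mk g', ?_⟩, ?_⟩
          · rw [endB_mk, dep_mk, dep_mk, hlen]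
            rw [tt_neg_one] at hdrop
            rw [hdrop]
            omega
          · intro e he
            induction e using QuotientGroup.induction_on with
            | H k =>
              rw [endA_mk, endB_mk] at he
              rcases he with ⟨h1, h2⟩ | ⟨h1, h2⟩
              · obtain ⟨y, rfl⟩ := eq_vertex h1
                by_cases hy : y ∈ toSubgroup A B 1
                · exact edge_eq hy rfl
                · exfalso
                  have := hother y hy
                  rw [tt_neg_one] at this
                  rw [dep_mk, dep_mk, this, hlen] at h2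
                  omega
              · obtain ⟨y, hy⟩ := eq_vertex h1
                exfalso
                have hk : k = g' * of y * tt 1 := by
                  rw [tt_one, ← hy]; group
                rw [dep_mk, dep_mk, hk, hsame, hlen] at h2
                omega
        · -- the descending edge is `g' t A`
          rw [neg_neg] at hdrop
          refine ⟨((g' * t : HNNExtension H A B φ) : HNNExtension H A B φ ⧸ EG A B φ),
            Or.inr ⟨?_, ?_⟩, ?_⟩
          · rw [endB_mk]
            congr 1
            group
          · rw [endA_mk, dep_mk, dep_mk, hlen]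
            rw [tt_one] at hdrop
            rw [hdrop]
            omega
          · intro e he
            induction e using QuotientGroup.induction_on with
            | H k =>
              rw [endA_mk, endB_mk] at he
              rcases he with ⟨h1, h2⟩ | ⟨h1, h2⟩
              · obtain ⟨y, rfl⟩ := eq_vertex h1
                exfalso
                have := hsame y
                rw [tt_neg_one] at this
                rw [dep_mk, dep_mk, this, hlen] at h2
                omega
              · obtain ⟨y, hy⟩ := eq_vertex h1
                have hk : k = g' * of y * t := by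
                  rw [← hy]; group
                by_cases hyB : y ∈ toSubgroup A B (-1)
                · have h3 := inv_t_mul_of (A := A) (B := B) (φ := φ) ⟨y, hyB⟩
                  refine edge_eq (φ.symm ⟨y, hyB⟩).2 ?_
                  rw [hk, mul_assoc, mul_assoc]
                  congr 1
                  have h4 : (of y : HNNExtension H A B φ) = t * (t⁻¹ * of y) := by group
                  rw [h4, h3]
                  simp [mul_assoc]
                · exfalso
                  have := hother y hyB
                  rw [neg_neg, tt_one] at this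
                  rw [dep_mk, dep_mk, hk, this, hlen] at h2
                  omega

end

end Pool.Agent.Helper59.PD
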