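import Pool.Agent.Helper59.PD.DMc
import Pool.Agent.Helper59.PD.HTree
import Pool.Agent.Helper59.PD.HStep_Ind

/-! The poset of an HNN extension. -/

set_option autoImplicit false

open scoped Classical

namespace Pool.Agent.Helper59.PD

noncomputable section

namespace HStepAux

/-- diagonal action on a double mapping cylinder -/
instance dmAct {K P Q : Type} [Group K] [MulAction K P] [MulAction K Q] (α β : Q → P) :
    MulAction K (DM α β) where
  smul g z := match z with
    | .top x => .top (g • x)
    | .bot x => .bot (g • x)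
  one_smul z := by
    cases z with
    | top x => exact congrArg DM.top (one_smul K x)
    | bot x => exact congrArg DM.bot (one_smul K x)
  mul_smul a b z := by
    cases z with
    | top x => exact congrArg DM.top (mul_smul a b x)
    | bot x => exact congrArg DM.bot (mul_smul a b x)

lemma smul_top {K P Q : Type} [Group K] [MulAction K P] [MulAction K Q] (α β : Q → P) (g : K)
    (x : P) : g • (DM.top x : DM α β) = DM.top (g • x) := rfl

lemma smul_bot {K P Q : Type} [Group K] [MulAction K P] [MulAction K Q] (α β : Q → P) (g : K)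
    (x : Q) : g • (DM.bot x : DM α β) = DM.bot (g • x) := rfl

lemma dm_smul_le {K P Q : Type} [Group K] [MulAction K P] [MulAction K Q] [PartialOrder P]
    [PartialOrder Q] {α β : Q → P} (hP : ∀ (g : K) (x y : P), x ≤ y → g • x ≤ g • y)
    (hQ : ∀ (g : K) (x y : Q), x ≤ y → g • x ≤ g • y)
    (hα : ∀ (g : K) x, α (g • x) = g • α x) (hβ : ∀ (g : K) x, β (g • x) = g • β x)
    (g : K) (z w : DM α β) (h : DM.Le z w) : DM.Le (g • z) (g • w) := by
  cases z with
  | top x =>
    cases w with
    | top y => exact hP g x y h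
    | bot y => exact h.elim
  | bot x =>
    cases w with
    | top y =>
      rcases h with h | h
      · refine Or.inl ?_
        rw [hα]
        exact hP g _ _ h
      · refine Or.inr ?_
        rw [hβ]
        exact hP g _ _ h
    | bot y => exact hQ g x y h

section hnn

variable {H : Type} [Group H] {A B : Subgroup H} {φ : A ≃* B}

/-- the inclusion of the associated subgroup -/
def iA (φ : A ≃* B) : A →* HNNExtension H A B φ := (HNNExtension.of).comp A.subtype

lemma iA_apply (a : A) : iA φ a = HNNExtension.of (a : H) := rfl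

instance factH : Fact (Function.Injective (HNNExtension.of : H →* HNNExtension H A B φ)) :=
  ⟨HNNExtension.of_injective φ⟩

instance factA : Fact (Function.Injective (iA φ)) :=
  ⟨fun _ _ h => Subtype.ext (HNNExtension.of_injective φ h)⟩

variable {X Q : Type} [MulAction H X] [MulAction A Q]

/-- first map -/
def al (φ : A ≃* B) (α : Q → X) (hα : ∀ (a : A) (x : Q), α (a • x) = (a : H) • α x) :
    Ind (iA φ) Q → Ind (HNNExtension.of : H →* HNNExtension H A B φ) X :=
  Ind.map 1 (fun a => (a : H)) α (fun a => by rw [inv_one, one_mul, mul_one]; rfl) hα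

/-- second map -/
def be (φ : A ≃* B) (β : Q → X) (hβ : ∀ (a : A) (x : Q), β (a • x) = (φ a : H) • β x) :
    Ind (iA φ) Q → Ind (HNNExtension.of : H →* HNNExtension H A B φ) X :=
  Ind.map (HNNExtension.t)⁻¹ (fun a => (φ a : H)) β (fun a => by
    rw [inv_inv, iA_apply, HNNExtension.t_mul_of, mul_inv_cancel_right]) hβ

lemma al_mk (α : Q → X) (hα : ∀ (a : A) (x : Q), α (a • x) = (a : H) • α x)
    (g : HNNExtension H A B φ) (x : Q) : al φ α hα (Ind.mk g x) = Ind.mk g (α x) := by
  rw [al, Ind.map_mk, mul_one]

lemma be_mk (β : Q → X) (hβ : ∀ (a : A) (x : Q), β (a • x) = (φ a : H) • β x)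
    (g : HNNExtension H A B φ) (x : Q) :
    be φ β hβ (Ind.mk g x) = Ind.mk (g * (HNNExtension.t)⁻¹) (β x) := by
  rw [be, Ind.map_mk]

lemma al_smul (α : Q → X) (hα : ∀ (a : A) (x : Q), α (a • x) = (a : H) • α x)
    (g : HNNExtension H A B φ) (z : Ind (iA φ) Q) : al φ α hα (g • z) = g • al φ α hα z :=
  Ind.map_smul _ _ _ _ _ _ _

lemma be_smul (β : Q → X) (hβ : ∀ (a : A) (x : Q), β (a • x) = (φ a : H) • β x)
    (g : HNNExtension H A B φ) (z : Ind (iA φ) Q) : be φ β hβ (g • z) = g • be φ β hβ z :=
  Ind.map_smul _ _ _ _ _ _ _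

lemma iA_mem (a : A) : iA φ a ∈ EG A B φ := ⟨a, a.2, rfl⟩

lemma mem_iA (g : HNNExtension H A B φ) (hg : g ∈ EG A B φ) : ∃ a : A, iA φ a = g := by
  obtain ⟨a, ha, rfl⟩ := hg
  exact ⟨⟨a, ha⟩, rfl⟩

lemma of_mem (h : H) : (HNNExtension.of h : HNNExtension H A B φ) ∈ VG A B φ := ⟨h, rfl⟩

lemma mem_of (g : HNNExtension H A B φ) (hg : g ∈ VG A B φ) : ∃ h : H, HNNExtension.of h = g := hg

variable [PartialOrder X] [PartialOrder Q] [MonoAct H X] [MonoAct A Q]

lemma al_mono {α : Q → X} (hα : ∀ (a : A) (x : Q), α (a • x) = (a : H) • α x)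
    (hm : Monotone α) : Monotone (al φ α hα) := Ind.map_mono _ _ _ _ _ hm

lemma be_mono {β : Q → X} (hβ : ∀ (a : A) (x : Q), β (a • x) = (φ a : H) • β x)
    (hm : Monotone β) : Monotone (be φ β hβ) := Ind.map_mono _ _ _ _ _ hm

/-- the double mapping cylinder of the induced posets is weakly contractible -/
theorem step_wc {α β : Q → X} (hα : Monotone α) (hβ : Monotone β)
    (hαa : ∀ (a : A) (x : Q), α (a • x) = (a : H) • α x)
    (hβa : ∀ (a : A) (x : Q), β (a • x) = (φ a : H) • β x)
    (ρX : X → ℕ) (hρX : ∀ (h : H) x, ρX (h • x) = ρX x) (hρX' : ∀ x y, x < y → ρX x < ρX y)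
    (N : ℕ) (hN : ∀ x, ρX x ≤ N)
    (ρQ : Q → ℕ) (hρQ : ∀ (a : A) x, ρQ (a • x) = ρQ x) (hρQ' : ∀ x y, x < y → ρQ x < ρQ y)
    (N' : ℕ) (hN' : ∀ x, ρQ x ≤ N')
    (hX : WC (Set.univ : Set X)) (hQ : WC (Set.univ : Set Q)) :
    @WC (DM (al φ α hαa) (be φ β hβa)) (DM.po (al_mono hαa hα) (be_mono hβa hβ)) Set.univ := by
  refine dm_wc (al_mono hαa hα) (be_mono hβa hβ) (endA A B φ) (endB A B φ) (hnn_isTree A B φ)
    (Ind.proj (VG A B φ) of_mem) (Ind.proj (EG A B φ) iA_mem)
    (Ind.proj_le _ _) (Ind.proj_le _ _) ?_ ?_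
    ⟨N, Ind.rank ρX hρX, Ind.rank_lt ρX hρX hρX', Ind.rank_le ρX hρX hN⟩
    ⟨N', Ind.rank ρQ hρQ, Ind.rank_lt ρQ hρQ hρQ', Ind.rank_le ρQ hρQ hN'⟩
    (Ind.wc_fibre _ _ mem_of hX) (Ind.wc_fibre _ _ mem_iA hQ)
  · intro z
    induction z using Ind.ind with
    | h g x =>
      rw [al_mk]
      rfl
  · intro z
    induction z using Ind.ind with
    | h g x =>
      rw [be_mk]
      rfl

end hnn

/-- an element of the induced set fixed by `g` -/
lemma smul_mk_fix {K L : Type} [Group K] [Group L] {ι : L →* K} {Y : Type} [MulAction L Y]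
    {g g0 : K} {x : Y} (h : g • (Ind.mk g0 x : Ind ι Y) = Ind.mk g0 x) :
    ∃ l : L, g = g0 * ι l * g0⁻¹ ∧ l • x = x := by
  rw [Ind.smul_mk] at h
  obtain ⟨l, h1, h2⟩ := Ind.mk_eq.mp h.symm
  refine ⟨l, ?_, h2.symm⟩
  rw [← h1]
  group

end HStepAux

open HStepAux in
/-- From a poset for `H` and a poset `Q` for the associated subgroup `A` (free action, weakly
contractible) with two equivariant maps `α, β` to it one gets a poset for the HNN extension: the
double mapping cylinder of the induced posets. `j` and `k` are the inclusions of the two pieces. -/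
theorem hnn_step {H : Type} [Group H] {s : H} {N M : ℕ} (P : YB H s N M) (A B : Subgroup H)
    (φ : A ≃* B) (Q : Type) [PartialOrder Q] [MulAction A Q]
    (Qlt : ∀ (a : A) (x y : Q), x < y → a • x < a • y)
    (tQ : Q → ℕ) (tQ_lt : ∀ x y, x < y → tQ x < tQ y) (tQ_smul : ∀ (a : A) (x : Q),
      tQ (a • x) = tQ x) (TQ : ℕ) (tQ_le : ∀ x, tQ x ≤ TQ)
    (Qfree : ∀ (a : A) (x : Q), a • x = x → a = 1) (Qwc : WC (Set.univ : Set Q))
    (N' M' : ℕ) (Qorb : ∃ O : Finset Q, O.card ≤ N' ∧ ∀ y : Q, ∃ a : A, a • y ∈ O)
    (Qup : ∀ y : Q, ∃ U : Finset Q, U.card ≤ M' ∧ ∀ z : Q, y ≤ z → z ∈ U)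
    (α β : Q → P.Y) (hα : Monotone α) (hβ : Monotone β)
    (hαa : ∀ (a : A) (x : Q), α (a • x) = (a : H) • α x)
    (hβa : ∀ (a : A) (x : Q), β (a • x) = (φ a : H) • β x) :
    ∃ (P' : YB (HNNExtension H A B φ) (HNNExtension.of s) (N + N') (2 * M + M'))
      (j : P.Y → P'.Y) (k : Q → P'.Y),
      j P.p = P'.p ∧
      (∀ (h : H) (x : P.Y), j (h • x) = (HNNExtension.of h : HNNExtension H A B φ) • j x) ∧
      (∀ (a : A) (x : Q), k (a • x) = (HNNExtension.of (a : H) : HNNExtension H A B φ) • k x) ∧
      (∀ y : P'.Y, (∃ (g : HNNExtension H A B φ) (x : P.Y), y = g • j x) ∨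
        ∃ (g : HNNExtension H A B φ) (x : Q), y = g • k x) ∧
      (∀ (g : HNNExtension H A B φ) (x y : P.Y), g • j x ≤ j y ↔
        ∃ h : H, g = HNNExtension.of h ∧ h • x ≤ y) ∧
      (∀ (g : HNNExtension H A B φ) (x y : Q), g • k x ≤ k y ↔
        ∃ a : A, g = HNNExtension.of (a : H) ∧ a • x ≤ y) ∧
      (∀ (g : HNNExtension H A B φ) (x : Q) (y : P.Y), g • k x ≤ j y ↔
        (∃ h : H, g = HNNExtension.of h ∧ h • α x ≤ y) ∨
        ∃ h : H, g * (HNNExtension.t)⁻¹ = HNNExtension.of h ∧ h • β x ≤ y) ∧
      (∀ (g : HNNExtension H A B φ) (x : P.Y) (y : Q), ¬ g • j x ≤ k y) := by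
  have hPm : MonoAct H P.Y := ⟨by
    intro l x y hxy
    rcases hxy.eq_or_lt with rfl | h
    · exact le_rfl
    · exact (P.lt l x y h).le⟩
  have hQm : MonoAct A Q := ⟨by
    intro l x y hxy
    rcases hxy.eq_or_lt with rfl | h
    · exact le_rfl
    · exact (Qlt l x y h).le⟩
  -- facts about the orbit of the singular point
  have hsing : ∀ (g : HNNExtension H A B φ) (x : P.Y),
      (∀ g' : HNNExtension H A B φ, (DM.top (Ind.mk g x) : DM (al φ α hαa) (be φ β hβa)) ≠
        g' • DM.top (Ind.mk 1 P.p)) ↔ ∀ h : H, x ≠ h • P.p := by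
    intro g x
    constructor
    · rintro h1 h rfl
      refine h1 (g * HNNExtension.of h) ?_
      rw [smul_top, Ind.smul_mk, mul_one, Ind.mk_mul]
    · intro h1 g' hg'
      rw [smul_top, Ind.smul_mk, mul_one] at hg'
      obtain ⟨l, _, h3⟩ := Ind.mk_eq.mp (DM.top.inj hg')
      exact h1 l h3
  have hpm : ∀ (h : H) (x : P.Y), h • P.p ≤ x → x = h • P.p := by
    intro h x hx
    by_contra hne
    have h1 : h • P.p < x := lt_of_le_of_ne hx (Ne.symm hne)
    have h2 := P.lt h⁻¹ _ _ h1
    rw [inv_smul_smul] at h2
    exact P.pmax _ h2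
  let P' : YB (HNNExtension H A B φ) (HNNExtension.of s) (N + N') (2 * M + M') :=
    { Y := DM (al φ α hαa) (be φ β hβa)
      po := DM.po (al_mono hαa hα) (be_mono hβa hβ)
      ac := dmAct _ _
      lt := by
        rintro g z w ⟨h1, h2⟩
        have key : ∀ (g : HNNExtension H A B φ) (z w : DM (al φ α hαa) (be φ β hβa)),
            DM.Le z w → DM.Le (g • z) (g • w) :=
          dm_smul_le (fun g _ _ h => Ind.smul_le g h) (fun g _ _ h => Ind.smul_le g h)
            (al_smul α hαa) (be_smul β hβa)
        refine ⟨key g z w h1, fun h3 => h2 ?_⟩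
        have h4 := key g⁻¹ _ _ h3
        rwa [inv_smul_smul, inv_smul_smul] at h4
      typ := fun z => match z with
        | .top x => Ind.rank P.typ P.typ_smul x + TQ + 1
        | .bot x => Ind.rank tQ tQ_smul x
      typ_lt := by
        rintro z w ⟨h1, h2⟩
        cases z with
        | top x =>
          cases w with
          | top y =>
            have := Ind.rank_lt P.typ P.typ_smul P.typ_lt x y ⟨h1, h2⟩
            simp only
            omega
          | bot y => exact h1.elim
        | bot x =>
          cases w with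
          | top y =>
            have := Ind.rank_le tQ tQ_smul tQ_le x
            simp only
            omega
          | bot y => exact Ind.rank_lt tQ tQ_smul tQ_lt x y ⟨h1, h2⟩
      typ_smul := by
        intro g z
        cases z with
        | top x =>
          have := Ind.rank_smul P.typ P.typ_smul g x
          change Ind.rank P.typ P.typ_smul (g • x) + TQ + 1 =
            Ind.rank P.typ P.typ_smul x + TQ + 1
          rw [this]
        | bot x => exact Ind.rank_smul tQ tQ_smul g x
      T := P.T + TQ + 1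
      typ_le := by
        intro z
        cases z with
        | top x =>
          have := Ind.rank_le P.typ P.typ_smul P.typ_le x
          simp only
          omega
        | bot x =>
          have := Ind.rank_le tQ tQ_smul tQ_le x
          simp only
          omega
      p := DM.top (Ind.mk 1 P.p)
      stab := by
        intro g
        rw [smul_top, DM.top.injEq]
        constructor
        · intro h
          obtain ⟨l, h1, h2⟩ := smul_mk_fix h
          rw [h1, inv_one, mul_one, one_mul]
          obtain ⟨n, hn⟩ := (P.stab l).mp h2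
          refine ⟨n, ?_⟩
          simp only at hn ⊢
          rw [← map_zpow, hn]
        · rintro ⟨n, rfl⟩
          simp only
          rw [Ind.smul_mk, mul_one, ← map_zpow]
          have := Ind.mk_mul (ι := (HNNExtension.of : H →* HNNExtension H A B φ)) 1 (s ^ n) P.p
          rw [one_mul] at this
          rw [this, (P.stab (s ^ n)).mpr ⟨n, rfl⟩]
      free := by
        intro g z hz hgz
        cases z with
        | top x =>
          induction x using Ind.ind with
          | h g0 x =>
            have hx := (hsing g0 x).mp hz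
            obtain ⟨l, h1, h2⟩ := smul_mk_fix (DM.top.inj hgz)
            have h3 := P.free l x hx h2
            rw [h1, h3, map_one, mul_one, mul_inv_cancel]
        | bot x =>
          induction x using Ind.ind with
          | h g0 x =>
            obtain ⟨l, h1, h2⟩ := smul_mk_fix (DM.bot.inj hgz)
            have h3 := Qfree l x h2
            rw [h1, h3, map_one, mul_one, mul_inv_cancel]
      pmax := by
        rintro z ⟨h1, h2⟩
        cases z with
        | top x =>
          obtain ⟨y, hy, hpy⟩ := Ind.mk_le.mp h1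
          have h3 := hpm 1 y (by rwa [one_smul])
          rw [one_smul] at h3
          refine h2 ?_
          rw [hy, h3]
          exact le_refl (Ind.mk (1 : HNNExtension H A B φ) P.p : Ind _ _)
        | bot x => exact h1
      wc := step_wc hα hβ hαa hβa P.typ P.typ_smul P.typ_lt P.T P.typ_le tQ tQ_smul tQ_lt TQ
        tQ_le P.wc Qwc
      orb := by
        obtain ⟨O, hO, hO'⟩ := P.orb
        obtain ⟨O2, hO2, hO2'⟩ := Qorb
        refine ⟨O.image (fun x => DM.top (Ind.mk 1 x)) ∪ O2.image (fun x => DM.bot (Ind.mk 1 x)),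
          ?_, ?_⟩
        · refine (Finset.card_union_le _ _).trans ?_
          exact Nat.add_le_add (Finset.card_image_le.trans hO) (Finset.card_image_le.trans hO2)
        · intro z
          cases z with
          | top x =>
            induction x using Ind.ind with
            | h g0 x =>
              obtain ⟨h, hh⟩ := hO' x
              refine ⟨HNNExtension.of h * g0⁻¹, Finset.mem_union_left _ ?_⟩
              refine Finset.mem_image.mpr ⟨h • x, hh, ?_⟩
              rw [smul_top, Ind.smul_mk, inv_mul_cancel_right, ← Ind.mk_mul, one_mul]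
          | bot x =>
            induction x using Ind.ind with
            | h g0 x =>
              obtain ⟨a, hh⟩ := hO2' x
              refine ⟨iA φ a * g0⁻¹, Finset.mem_union_right _ ?_⟩
              refine Finset.mem_image.mpr ⟨a • x, hh, ?_⟩
              rw [smul_bot, Ind.smul_mk, inv_mul_cancel_right, ← Ind.mk_mul, one_mul]
      upf := by
        have hup : ∀ (g : HNNExtension H A B φ) (x : P.Y),
            ∃ U : Finset (DM (al φ α hαa) (be φ β hβa)), U.card ≤ M ∧
              ∀ w : Ind (HNNExtension.of : H →* HNNExtension H A B φ) P.Y, Ind.mk g x ≤ w →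
                (∀ h : HNNExtension H A B φ, (DM.top w : DM (al φ α hαa) (be φ β hβa)) ≠
                  h • DM.top (Ind.mk 1 P.p)) → DM.top w ∈ U := by
          intro g x
          by_cases hx : ∀ h : H, x ≠ h • P.p
          · obtain ⟨U, hU, hU'⟩ := P.upf x hx
            refine ⟨U.image (fun y => DM.top (Ind.mk g y)), Finset.card_image_le.trans hU, ?_⟩
            intro w hw hw'
            obtain ⟨y, rfl, hy⟩ := Ind.mk_le.mp hw
            exact Finset.mem_image.mpr ⟨y, hU' y hy ((hsing g y).mp hw'), rfl⟩
          · push Not at hx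
            obtain ⟨h, rfl⟩ := hx
            refine ⟨∅, Nat.zero_le _, ?_⟩
            intro w hw hw'
            obtain ⟨y, rfl, hy⟩ := Ind.mk_le.mp hw
            exact absurd (hpm h y hy) ((hsing g y).mp hw' h)
        intro z hz
        cases z with
        | top x =>
          induction x using Ind.ind with
          | h g0 x =>
            obtain ⟨U, hU, hU'⟩ := hup g0 x
            refine ⟨U, by omega, ?_⟩
            intro w hw hw'
            cases w with
            | top y => exact hU' y hw hw'
            | bot y => exact hw.elim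
        | bot x =>
          induction x using Ind.ind with
          | h g0 x =>
            obtain ⟨U1, hU1, hU1'⟩ := hup g0 (α x)
            obtain ⟨U2, hU2, hU2'⟩ := hup (g0 * (HNNExtension.t)⁻¹) (β x)
            obtain ⟨U3, hU3, hU3'⟩ := Qup x
            refine ⟨(U1 ∪ U2) ∪ U3.image (fun y => DM.bot (Ind.mk g0 y)), ?_, ?_⟩
            · have h1 := Finset.card_union_le (U1 ∪ U2) (U3.image (fun y =>
                (DM.bot (Ind.mk g0 y) : DM (al φ α hαa) (be φ β hβa))))
              have h2 := Finset.card_union_le U1 U2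
              have h3 : (U3.image (fun y =>
                (DM.bot (Ind.mk g0 y) : DM (al φ α hαa) (be φ β hβa)))).card ≤ U3.card :=
                Finset.card_image_le
              omega
            · intro w hw hw'
              cases w with
              | top y =>
                refine Finset.mem_union_left _ ?_
                rcases hw with hw | hw
                · rw [al_mk] at hw
                  exact Finset.mem_union_left _ (hU1' y hw hw')
                · rw [be_mk] at hw
                  exact Finset.mem_union_right _ (hU2' y hw hw')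
              | bot y =>
                refine Finset.mem_union_right _ ?_
                obtain ⟨y', rfl, hy⟩ := Ind.mk_le.mp hw
                exact Finset.mem_image.mpr ⟨y', hU3' y' hy, rfl⟩ }
  refine ⟨P', fun x => DM.top (Ind.mk 1 x), fun x => DM.bot (Ind.mk 1 x), rfl, ?_, ?_, ?_, ?_, ?_,
    ?_, ?_⟩
  · intro h x
    change DM.top (Ind.mk 1 (h • x)) = (HNNExtension.of h : HNNExtension H A B φ) •
      (DM.top (Ind.mk 1 x) : DM (al φ α hαa) (be φ β hβa))
    rw [smul_top, Ind.smul_mk, mul_one, ← Ind.mk_mul, one_mul]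
  · intro a x
    change DM.bot (Ind.mk 1 (a • x)) = (HNNExtension.of (a : H) : HNNExtension H A B φ) •
      (DM.bot (Ind.mk 1 x) : DM (al φ α hαa) (be φ β hβa))
    rw [smul_bot, Ind.smul_mk, mul_one, ← Ind.mk_mul, one_mul, iA_apply]
  · intro z
    cases z with
    | top x =>
      induction x using Ind.ind with
      | h g0 x =>
        refine Or.inl ⟨g0, x, ?_⟩
        change DM.top (Ind.mk g0 x) = g0 • (DM.top (Ind.mk 1 x) : DM (al φ α hαa) (be φ β hβa))
        rw [smul_top, Ind.smul_mk, mul_one]
    | bot x =>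
      induction x using Ind.ind with
      | h g0 x =>
        refine Or.inr ⟨g0, x, ?_⟩
        change DM.bot (Ind.mk g0 x) = g0 • (DM.bot (Ind.mk 1 x) : DM (al φ α hαa) (be φ β hβa))
        rw [smul_bot, Ind.smul_mk, mul_one]
  · intro g x y
    change (Ind.mk (g * 1) x : Ind (HNNExtension.of : H →* HNNExtension H A B φ) P.Y) ≤
      Ind.mk 1 y ↔ _
    rw [mul_one, Ind.mk_le_mk_one]
  · intro g x y
    change (Ind.mk (g * 1) x : Ind (iA φ) Q) ≤ Ind.mk 1 y ↔ _
    rw [mul_one, Ind.mk_le_mk_one]
    rfl
  · intro g x y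
    change (al φ α hαa (Ind.mk (g * 1) x) ≤ Ind.mk 1 y ∨ be φ β hβa (Ind.mk (g * 1) x) ≤
      Ind.mk 1 y) ↔ _
    rw [mul_one, al_mk, be_mk, Ind.mk_le_mk_one, Ind.mk_le_mk_one]
  · intro g x y h
    exact h

end

end Pool.Agent.Helper59.PD
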