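import Pool.Agent.Helper59.PD.Base

/-! Labelled complexes and the thickening poset: definitions. -/

set_option autoImplicit false

open scoped Classical

namespace Pool.Agent.Helper59.PD

noncomputable section

/-- vertices of the labelled complex: a group element and a label -/
abbrev Vx (q : ℕ) (G : Type) : Type := G × ZMod (q + 2)

section defs

variable {q : ℕ} {G : Type} [Group G]

/-- the next vertex on the cycle -/
def nxt (s : G) (v : Vx q G) : Vx q G := (if v.2 = -1 then v.1 * s else v.1, v.2 + 1)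

/-- translation -/
def trl (g : G) (v : Vx q G) : Vx q G := (g * v.1, v.2)

/-- the value of the label `u` seen from the vertex `v`, in the coset of `v` -/
def ph (s : G) (v : Vx q G) (u : ZMod (q + 2)) : G :=
  v.1 * s ^ ((v.2.val + (u - v.2).val) * ((q + 1) / 2))

end defs

/-- labelled complexes -/
structure LCx (q : ℕ) (G : Type) [Group G] (s : G) where
  hq : q.Prime
  q5 : 5 ≤ q
  hs : s ^ q = 1
  hs1 : s ≠ 1
  /-- the simplices -/
  K : Set (Finset (Vx q G))
  ne : ∀ σ ∈ K, σ.Nonempty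
  down : ∀ σ ∈ K, ∀ τ, τ ⊆ σ → τ.Nonempty → τ ∈ K
  smul : ∀ (g : G), ∀ σ ∈ K, σ.image (trl g) ∈ K
  inj : ∀ σ ∈ K, ∀ v ∈ σ, ∀ w ∈ σ, v.2 = w.2 → v = w
  uniq : ∀ v w w' : Vx q G, ({v, w} : Finset (Vx q G)) ∈ K → ({v, w'} : Finset (Vx q G)) ∈ K →
    w.2 = w'.2 → w = w'
  edge : ∀ v : Vx q G, ({v, nxt s v} : Finset (Vx q G)) ∈ K
  notall : ∀ σ ∈ K, ∃ u : ZMod (q + 2), ∀ v ∈ σ, v.2 ≠ u

/-- candidates for simplices: a finite set of vertices and possibly a cone vertex -/
@[ext] structure Smp (q : ℕ) (G : Type) [Group G] (s : G) where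
  /-- ordinary vertices -/
  σ : Finset (Vx q G)
  /-- cone vertex -/
  t : Option (G ⧸ Subgroup.zpowers s)

instance {q : ℕ} {G : Type} [Group G] {s : G} : PartialOrder (Smp q G s) where
  le a b := a.σ ⊆ b.σ ∧ (a.t = none ∨ a.t = b.t)
  le_refl _ := ⟨subset_rfl, Or.inr rfl⟩
  le_trans a b c h h' := by
    refine ⟨h.1.trans h'.1, ?_⟩
    rcases h.2 with h2 | h2
    · exact Or.inl h2
    · rcases h'.2 with h3 | h3
      · exact Or.inl (h2.trans h3)
      · exact Or.inr (h2.trans h3)
  le_antisymm a b h h' := by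
    have h1 : a.σ = b.σ := h.1.antisymm h'.1
    have h2 : a.t = b.t := by
      rcases h.2 with h2 | h2
      · rcases h'.2 with h3 | h3
        · rw [h2, h3]
        · exact h3.symm
      · exact h2
    exact Smp.ext h1 h2

section lc

variable {q : ℕ} {G : Type} [Group G] {s : G} (L : LCx q G s)

/-- `σ` together with the cone vertex `t` is a simplex -/
def IsA (σ : Finset (Vx q G)) (t : Option (G ⧸ Subgroup.zpowers s)) : Prop :=
  match t with
  | none => σ ∈ L.K
  | some c => σ = ∅ ∨ ∃ v : Vx q G, (QuotientGroup.mk v.1 : G ⧸ Subgroup.zpowers s) = c ∧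
      (σ = {v} ∨ σ = {v, nxt s v})

/-- the face poset of the coned complex -/
def AA : Set (Smp q G s) := {a | IsA L a.σ a.t}

/-- the labels -/
def labs (σ : Finset (Vx q G)) (t : Option (G ⧸ Subgroup.zpowers s)) :
    Finset (Option (ZMod (q + 2))) :=
  σ.image (fun v => some v.2) ∪ (if t = none then ∅ else {none})

/-- the label sets of simplices -/
def AL : Set (Finset (Option (ZMod (q + 2)))) := {ρ | ∃ σ t, IsA L σ t ∧ ρ = labs σ t}

/-- validity of box elements -/
def BoxOK (σ : Finset (Vx q G)) (t : Option (G ⧸ Subgroup.zpowers s))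
    (τ : Finset (Option (ZMod (q + 2)))) : Prop :=
  σ.Nonempty ∧ IsA L σ t ∧ Disjoint (labs σ t) τ ∧ τᶜ ∉ AL L

/-- validity of the elements `ee` -/
def EOK (c : G ⧸ Subgroup.zpowers s) (e : Finset G) : Prop :=
  (∀ x ∈ e, (QuotientGroup.mk x : G ⧸ Subgroup.zpowers s) = c) ∧ e.card < q

variable (s) in
/-- `e` is contained in the image of `τ` under all `ph v`, `v ∈ σ` -/
def Cap (e : Finset G) (σ : Finset (Vx q G)) (τ : Finset (Option (ZMod (q + 2)))) : Prop :=
  ∀ x ∈ e, ∀ v ∈ σ, ∃ u, some u ∈ τ ∧ ph s v u = x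

end lc

/-- elements of the thickening poset -/
inductive RR {q : ℕ} {G : Type} [Group G] {s : G} (L : LCx q G s) : Type
  | kap : RR L
  | box (σ : Finset (Vx q G)) (t : Option (G ⧸ Subgroup.zpowers s))
      (τ : Finset (Option (ZMod (q + 2)))) (h : BoxOK L σ t τ) : RR L
  | ee (c : G ⧸ Subgroup.zpowers s) (e : Finset G) (h : EOK (q := q) c e) : RR L

section poset

variable {q : ℕ} {G : Type} [Group G] {s : G} {L : LCx q G s}

/-- the order relation -/
def RR.Le : RR L → RR L → Prop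
  | .kap, .kap => True
  | .kap, .box _ _ τ _ => τ.Nonempty
  | .kap, .ee _ e _ => e.Nonempty
  | .box σ t τ _, .box σ' t' τ' _ => σ ⊆ σ' ∧ (t = none ∨ t = t') ∧ τ ⊆ τ'
  | .ee c e _, .ee c' e' _ => c = c' ∧ e ⊆ e'
  | .ee c e _, .box σ t τ _ => t = some c ∧ Cap s e σ τ
  | _, _ => False

/-- the rank -/
def RR.rk : RR L → ℕ
  | .kap => 0
  | .box σ t τ _ => σ.card + (if t = none then 0 else 1) + τ.card - 1
  | .ee _ e _ => e.card

end poset

end

end Pool.Agent.Helper59.PD
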