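import Pool.Agent.Helper59.PD.LC

/-! Basic facts on the thickening poset. -/

set_option autoImplicit false
set_option linter.unusedSectionVars false

open scoped Classical

namespace Pool.Agent.Helper59.PD

noncomputable section

theorem zval_sub_one {n : ℕ} [NeZero n] (a : ZMod n) (ha : a ≠ 0) : (a - 1).val = a.val - 1 := by
  have h1 : 0 < a.val := by
    rw [Nat.pos_iff_ne_zero]
    intro h
    exact ha ((ZMod.val_eq_zero a).1 h)
  have h2 : ((a.val - 1 : ℕ) : ZMod n) = a - 1 := by
    rw [Nat.cast_sub h1, ZMod.natCast_val, ZMod.cast_id, Nat.cast_one]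
  rw [← h2, ZMod.val_cast_of_lt]
  have := ZMod.val_lt a
  omega

theorem zval_add_one {n : ℕ} [NeZero n] (a : ZMod n) (ha : a ≠ -1) : (a + 1).val = a.val + 1 := by
  have h0 : a + 1 ≠ 0 := fun h => ha (eq_neg_of_add_eq_zero_left h)
  have h := zval_sub_one (a + 1) h0
  rw [add_sub_cancel_right] at h
  have h1 : 0 < (a + 1).val := by
    rw [Nat.pos_iff_ne_zero]
    intro h
    exact h0 ((ZMod.val_eq_zero _).1 h)
  omega

theorem zval_neg_one (n : ℕ) : (-1 : ZMod (n + 1)).val = n := ZMod.val_neg_one n

section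

variable {q : ℕ} {G : Type} [Group G] {s : G} (L : LCx q G s)

include L

theorem LCx.odd : q % 2 = 1 := by
  rcases L.hq.eq_two_or_odd with h | h
  · have := L.q5; omega
  · exact h

theorem LCx.orderOf : orderOf s = q := orderOf_eq_prime_iff (hp := ⟨L.hq⟩) |>.2 ⟨L.hs, L.hs1⟩

theorem LCx.half : q = 2 * ((q + 1) / 2) - 1 ∧ 3 ≤ (q + 1) / 2 := by
  have := L.odd; have := L.q5; omega

/-- the value of a label does not change along an edge -/
theorem LCx.ph_nxt (v : Vx q G) (u : ZMod (q + 2)) (hu : u ≠ v.2) :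
    ph s (nxt s v) u = ph s v u := by
  have hd : u - v.2 ≠ 0 := sub_ne_zero.2 hu
  have h1 : (u - (v.2 + 1)).val = (u - v.2).val - 1 := by
    rw [← sub_sub]
    exact zval_sub_one _ hd
  have h0 : 0 < (u - v.2).val := by
    rw [Nat.pos_iff_ne_zero]
    intro h
    exact hd ((ZMod.val_eq_zero _).1 h)
  have hh := L.half
  unfold ph nxt
  simp only [h1]
  generalize hD : (u - v.2).val = D at h0 ⊢
  generalize (q + 1) / 2 = k at hh ⊢
  by_cases hv : v.2 = -1
  · rw [if_pos hv, hv]
    have e1 : ((-1 : ZMod (q + 2)) + 1).val = 0 := by simp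
    have e2 : (-1 : ZMod (q + 2)).val = q + 1 := ZMod.val_neg_one (q + 1)
    rw [e1, e2, mul_assoc, ← pow_succ']
    congr 1
    have e3 : (q + 1 + D) * k = q * (k + 1) + ((0 + (D - 1)) * k + 1) := by
      obtain ⟨E, rfl⟩ : ∃ E, D = E + 1 := ⟨D - 1, by omega⟩
      have h2 : q + 1 = 2 * k := by omega
      simp only [Nat.add_sub_cancel]
      have h4 : q * (k + 1) = q * k + q := by ring
      rw [h4]
      have h5 : (q + 1 + (E + 1)) * k = q * k + 2 * k + E * k := by ring
      rw [h5, ← h2]
      ring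
    rw [e3, pow_add s (q * (k + 1)), pow_mul s q, L.hs, one_pow, one_mul]
  · rw [if_neg hv]
    have e1 := zval_add_one v.2 hv
    rw [e1]
    congr 2
    have : v.2.val + 1 + (D - 1) = v.2.val + D := by omega
    rw [this]

omit L in
theorem ph_mk (v : Vx q G) (u : ZMod (q + 2)) :
    (QuotientGroup.mk (ph s v u) : G ⧸ Subgroup.zpowers s) = QuotientGroup.mk v.1 := by
  rw [eq_comm, QuotientGroup.eq]
  unfold ph
  rw [inv_mul_cancel_left]
  exact pow_mem (Subgroup.mem_zpowers s) _

/-- `ph s v` takes the same value only at the two neighbours of `v` -/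
theorem LCx.ph_inj (v : Vx q G) (u u' : ZMod (q + 2)) (hu : u ≠ v.2) (hu' : u' ≠ v.2)
    (h : ph s v u = ph s v u') : u = u' ∨ (u = v.2 + 1 ∧ u' = v.2 - 1) ∨
      (u = v.2 - 1 ∧ u' = v.2 + 1) := by
  unfold ph at h
  have h1 := mul_left_cancel h
  have hh := L.half
  have hodd := L.odd
  rw [pow_eq_pow_iff_modEq, L.orderOf] at h1
  generalize hk : (q + 1) / 2 = k at hh h1
  have hco : Nat.Coprime k q := by
    rw [Nat.coprime_comm, L.hq.coprime_iff_not_dvd]
    intro hd
    have := Nat.le_of_dvd (by omega) hd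
    omega
  have h2 : v.2.val + (u - v.2).val ≡ v.2.val + (u' - v.2).val [MOD q] :=
    Nat.ModEq.cancel_right_of_coprime (by rwa [Nat.coprime_comm] at hco) h1
  have h3 : (u - v.2).val ≡ (u' - v.2).val [MOD q] := Nat.ModEq.add_left_cancel' _ h2
  have key : ∀ a b : ℕ, 0 < a → 0 < b → a < q + 2 → b < q + 2 → a ≡ b [MOD q] →
      a = b ∨ (a = 1 ∧ b = q + 1) ∨ (a = q + 1 ∧ b = 1) := by
    intro a b ha hb ha' hb' hab
    rcases le_total a b with h | h
    · have := (Nat.modEq_iff_dvd' h).1 hab
      obtain ⟨c, hc⟩ := this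
      rcases Nat.lt_or_ge c 2 with hc2 | hc2
      · interval_cases c
        · left; omega
        · right; left; omega
      · exfalso
        have : q * 2 ≤ q * c := Nat.mul_le_mul_left _ hc2
        have := L.q5
        omega
    · have := (Nat.modEq_iff_dvd' h).1 hab.symm
      obtain ⟨c, hc⟩ := this
      rcases Nat.lt_or_ge c 2 with hc2 | hc2
      · interval_cases c
        · left; omega
        · right; right; omega
      · exfalso
        have : q * 2 ≤ q * c := Nat.mul_le_mul_left _ hc2
        have := L.q5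
        omega
  have hpos : ∀ w : ZMod (q + 2), w ≠ v.2 → 0 < (w - v.2).val := by
    intro w hw
    rw [Nat.pos_iff_ne_zero]
    intro h
    exact hw (sub_eq_zero.1 ((ZMod.val_eq_zero _).1 h))
  have h1v : (1 : ZMod (q + 2)).val = 1 := ZMod.val_one'' (by omega)
  have hnv : (-1 : ZMod (q + 2)).val = q + 1 := ZMod.val_neg_one (q + 1)
  rcases key _ _ (hpos u hu) (hpos u' hu') (ZMod.val_lt _) (ZMod.val_lt _) h3 with h | h | h
  · left
    have := ZMod.val_injective _ h
    exact sub_left_inj.1 this
  · right; left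
    have e1 : u - v.2 = 1 := ZMod.val_injective _ (by rw [h.1, h1v])
    have e2 : u' - v.2 = -1 := ZMod.val_injective _ (by rw [h.2, hnv])
    exact ⟨by rw [← e1]; ring, by rw [sub_eq_iff_eq_add] at e2; rw [e2]; ring⟩
  · right; right
    have e1 : u - v.2 = -1 := ZMod.val_injective _ (by rw [h.1, hnv])
    have e2 : u' - v.2 = 1 := ZMod.val_injective _ (by rw [h.2, h1v])
    exact ⟨by rw [sub_eq_iff_eq_add] at e1; rw [e1]; ring, by rw [← e2]; ring⟩

theorem LCx.ph_neighbours (v : Vx q G) : ph s v (v.2 + 1) = ph s v (v.2 - 1) := by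
  unfold ph
  congr 1
  have h1v : (1 : ZMod (q + 2)).val = 1 := ZMod.val_one'' (by omega)
  have hnv : (-1 : ZMod (q + 2)).val = q + 1 := ZMod.val_neg_one (q + 1)
  rw [add_sub_cancel_left, show v.2 - 1 - v.2 = -1 by ring, h1v, hnv]
  have : (v.2.val + (q + 1)) * ((q + 1) / 2) = q * ((q + 1) / 2) + (v.2.val + 1) * ((q + 1) / 2) := by
    ring
  rw [this, pow_add, pow_mul s q, L.hs, one_pow, one_mul]

/-- every element of the coset is a value at a label different from `v.2`, `v.2 - 1` -/
theorem LCx.ph_surj (v : Vx q G) (x : G)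
    (hx : (QuotientGroup.mk x : G ⧸ Subgroup.zpowers s) = QuotientGroup.mk v.1) :
    ∃ u, u ≠ v.2 ∧ u ≠ v.2 - 1 ∧ ph s v u = x := by
  have hq0 : 0 < q := L.hq.pos
  rw [eq_comm, QuotientGroup.eq] at hx
  obtain ⟨m, hm⟩ := hx
  have hs0 : ∃ m : ℕ, s ^ m = v.1⁻¹ * x := by
    refine ⟨(m % q).toNat, ?_⟩
    have h1 : 0 ≤ m % (q : ℤ) := Int.emod_nonneg _ (by omega)
    have h2 : s ^ (((m % (q : ℤ)).toNat : ℕ) : ℤ) = s ^ m := by
      rw [Int.toNat_of_nonneg h1, ← L.orderOf, zpow_mod_orderOf]
    rw [zpow_natCast] at h2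
    rw [h2]
    exact hm
  obtain ⟨m, hm⟩ := hs0
  have hh := L.half
  -- solve (i + d) k = m mod q with 1 ≤ d ≤ q
  have hex : ∃ d : ℕ, 1 ≤ d ∧ d ≤ q ∧ (v.2.val + d) * ((q + 1) / 2) ≡ m [MOD q] := by
    refine ⟨(2 * m + (q * (v.2.val + 1) - v.2.val) - 1) % q + 1, by omega, ?_, ?_⟩
    · have := Nat.mod_lt (2 * m + (q * (v.2.val + 1) - v.2.val) - 1) hq0
      omega
    · generalize hi : v.2.val = i
      have hle : i + 1 ≤ q * (i + 1) := Nat.le_mul_of_pos_left _ hq0
      have h1 : i + ((2 * m + (q * (i + 1) - i) - 1) % q + 1) ≡ 2 * m [MOD q] := by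
        have h2 : (2 * m + (q * (i + 1) - i) - 1) % q ≡ 2 * m + (q * (i + 1) - i) - 1 [MOD q] :=
          Nat.mod_modEq _ _
        have h3 : i + ((2 * m + (q * (i + 1) - i) - 1) % q + 1) ≡
            i + ((2 * m + (q * (i + 1) - i) - 1) + 1) [MOD q] :=
          Nat.ModEq.add_left _ (Nat.ModEq.add_right _ h2)
        have h4 : i + ((2 * m + (q * (i + 1) - i) - 1) + 1) = 2 * m + q * (i + 1) := by omega
        rw [h4] at h3
        refine h3.trans ?_
        simp [Nat.ModEq]
      have h5 := Nat.ModEq.mul_right ((q + 1) / 2) h1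
      refine h5.trans ?_
      have h6 : 2 * m * ((q + 1) / 2) = m * (q + 1) := by
        have : q + 1 = 2 * ((q + 1) / 2) := by omega
        conv_rhs => rw [this]
        ring
      rw [h6, mul_add, mul_one]
      simp [Nat.ModEq]
  obtain ⟨d, hd1, hd2, hd3⟩ := hex
  have hdv : ((d : ℕ) : ZMod (q + 2)).val = d := ZMod.val_cast_of_lt (by omega)
  refine ⟨v.2 + d, ?_, ?_, ?_⟩
  · intro h
    have : (d : ZMod (q + 2)) = 0 := by simpa using h
    rw [this, ZMod.val_zero] at hdv
    omega
  · intro h
    have h1 : (d : ZMod (q + 2)) = -1 := by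
      rw [sub_eq_add_neg] at h
      exact add_left_cancel h
    have h2 : (-1 : ZMod (q + 2)).val = q + 1 := ZMod.val_neg_one (q + 1)
    rw [h1, h2] at hdv
    omega
  · unfold ph
    rw [add_sub_cancel_left, hdv]
    have : s ^ ((v.2.val + d) * ((q + 1) / 2)) = s ^ m := by
      rw [pow_eq_pow_iff_modEq, L.orderOf]
      exact hd3
    rw [this, hm, mul_inv_cancel_left]

theorem LCx.nxt_mk (v : Vx q G) :
    (QuotientGroup.mk (nxt s v).1 : G ⧸ Subgroup.zpowers s) = QuotientGroup.mk v.1 := by
  unfold nxt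
  dsimp only
  split_ifs
  · rw [eq_comm, QuotientGroup.eq, inv_mul_cancel_left]
    exact Subgroup.mem_zpowers s
  · rfl

theorem LCx.nxt_ne (v : Vx q G) : nxt s v ≠ v := by
  intro h
  have h1 := congrArg Prod.snd h
  simp only [nxt] at h1
  have h2 : (1 : ZMod (q + 2)) = 0 := by simpa using h1
  have h1v : (1 : ZMod (q + 2)).val = 1 := ZMod.val_one'' (by omega)
  rw [h2, ZMod.val_zero] at h1v
  omega

theorem LCx.nxt_nxt_ne (v : Vx q G) : nxt s (nxt s v) ≠ v := by
  intro h
  have h1 := congrArg Prod.snd h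
  simp only [nxt] at h1
  rw [add_assoc, add_eq_left] at h1
  have h2 : ((2 : ℕ) : ZMod (q + 2)) = 0 := by rw [← h1]; norm_num
  have h1v : ((2 : ℕ) : ZMod (q + 2)).val = 2 := ZMod.val_cast_of_lt (by have := L.q5; omega)
  rw [h2, ZMod.val_zero] at h1v
  omega

theorem LCx.nxt_inj {v w : Vx q G} (h : nxt s v = nxt s w) : v = w := by
  have h2 : v.2 = w.2 := by
    have := congrArg Prod.snd h
    simpa [nxt] using this
  have h1 := congrArg Prod.fst h
  simp only [nxt, h2] at h1
  refine Prod.ext ?_ h2
  split_ifs at h1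
  · exact mul_right_cancel h1
  · exact h1

theorem LCx.single_mem (v : Vx q G) : ({v} : Finset (Vx q G)) ∈ L.K :=
  L.down _ (L.edge v) _ (by simp) (by simp)

omit L in
theorem trl_nxt (g : G) (v : Vx q G) : trl g (nxt s v) = nxt s (trl g v) := by
  unfold trl nxt
  dsimp only
  split_ifs
  · rw [mul_assoc]
  · rfl

omit L in
theorem trl_mul (g h : G) (v : Vx q G) : trl (g * h) v = trl g (trl h v) := by
  simp [trl, mul_assoc]

omit L in
theorem trl_one (v : Vx q G) : trl (1 : G) v = v := by
  simp [trl]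

omit L in
theorem trl_inj (g : G) : Function.Injective (trl g : Vx q G → Vx q G) := by
  intro v w h
  have := congrArg (trl g⁻¹) h
  rwa [← trl_mul, ← trl_mul, inv_mul_cancel, trl_one, trl_one] at this

omit L in
theorem ph_trl (g : G) (v : Vx q G) (u : ZMod (q + 2)) : ph s (trl g v) u = g * ph s v u := by
  simp [ph, trl, mul_assoc]

omit L in
theorem image_trl_mul (g h : G) (σ : Finset (Vx q G)) :
    σ.image (trl (g * h)) = (σ.image (trl h)).image (trl g) := by
  rw [Finset.image_image]
  congr 1
  funext v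
  exact trl_mul g h v

omit L in
theorem image_trl_one (σ : Finset (Vx q G)) : σ.image (trl (1 : G)) = σ := by
  have : (trl (1 : G) : Vx q G → Vx q G) = id := by funext v; exact trl_one v
  rw [this, Finset.image_id]

end

section

variable {q : ℕ} {G : Type} [Group G] {s : G} {L : LCx q G s}

theorem IsA.down {σ σ' : Finset (Vx q G)} {t t' : Option (G ⧸ Subgroup.zpowers s)}
    (h : IsA L σ t) (hσ : σ' ⊆ σ) (ht : t' = none ∨ t' = t) (hne : t' = none → σ'.Nonempty) :
    IsA L σ' t' := by
  rcases t with _ | c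
  · have ht' : t' = none := by rcases ht with h | h <;> exact h
    subst ht'
    exact L.down _ h _ hσ (hne rfl)
  · have hsub : σ = ∅ ∨ ∃ v : Vx q G, (QuotientGroup.mk v.1 : G ⧸ Subgroup.zpowers s) = c ∧
      σ ⊆ {v, nxt s v} := by
      rcases h with h | ⟨v, hv, h | h⟩
      · exact Or.inl h
      · exact Or.inr ⟨v, hv, by rw [h]; simp⟩
      · exact Or.inr ⟨v, hv, by rw [h]⟩
    rcases hsub with rfl | ⟨v, hv, h2⟩
    · rw [Finset.subset_empty] at hσ
      subst hσ
      rcases t' with _ | c'
      · simp at hne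
      · exact Or.inl rfl
    · have h3 := hσ.trans h2
      rcases t' with _ | c'
      · exact L.down _ (L.edge v) _ h3 (hne rfl)
      · have hc : c' = c := by simpa using ht
        subst hc
        rcases Finset.eq_empty_or_nonempty σ' with h4 | _
        · exact Or.inl h4
        right
        by_cases hv1 : v ∈ σ'
        · refine ⟨v, hv, ?_⟩
          by_cases hv2 : nxt s v ∈ σ'
          · right
            apply Finset.Subset.antisymm h3
            intro w hw
            simp only [Finset.mem_insert, Finset.mem_singleton] at hw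
            rcases hw with rfl | rfl <;> assumption
          · left
            apply Finset.Subset.antisymm
            · intro w hw
              have := h3 hw
              simp only [Finset.mem_insert, Finset.mem_singleton] at this ⊢
              rcases this with rfl | rfl
              · rfl
              · exact absurd hw hv2
            · simpa using hv1
        · refine ⟨nxt s v, by rw [L.nxt_mk, hv], Or.inl ?_⟩
          have hall : ∀ w ∈ σ', w = nxt s v := by
            intro w hw
            have := h3 hw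
            simp only [Finset.mem_insert, Finset.mem_singleton] at this
            rcases this with rfl | rfl
            · exact absurd hw hv1
            · rfl
          exact Finset.eq_singleton_iff_unique_mem.2 ⟨by
            obtain ⟨w, hw⟩ := ‹σ'.Nonempty›
            rw [← hall w hw]; exact hw, hall⟩

theorem IsA.inj {σ : Finset (Vx q G)} {t : Option (G ⧸ Subgroup.zpowers s)}
    (h : IsA L σ t) {v w : Vx q G} (hv : v ∈ σ) (hw : w ∈ σ) (hvw : v.2 = w.2) : v = w := by
  have h1 : IsA L σ none := h.down subset_rfl (Or.inl rfl) (fun _ => ⟨v, hv⟩)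
  exact L.inj _ h1 v hv w hw hvw

/-- two vertices of a cone simplex are equal or adjacent on the cycle -/
theorem IsA.adj {σ : Finset (Vx q G)} {c : G ⧸ Subgroup.zpowers s}
    (h : IsA L σ (some c)) {v w : Vx q G} (hv : v ∈ σ) (hw : w ∈ σ) :
    v = w ∨ w = nxt s v ∨ v = nxt s w := by
  rcases h with rfl | ⟨x, _, rfl | rfl⟩
  · simp at hv
  · simp only [Finset.mem_singleton] at hv hw
    left; rw [hv, hw]
  · simp only [Finset.mem_insert, Finset.mem_singleton] at hv hw
    rcases hv with rfl | rfl <;> rcases hw with rfl | rfl <;> simp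

theorem IsA.mk_eq {σ : Finset (Vx q G)} {c : G ⧸ Subgroup.zpowers s}
    (h : IsA L σ (some c)) {v : Vx q G} (hv : v ∈ σ) :
    (QuotientGroup.mk v.1 : G ⧸ Subgroup.zpowers s) = c := by
  rcases h with rfl | ⟨x, hx, rfl | rfl⟩
  · simp at hv
  · simp only [Finset.mem_singleton] at hv
    rw [hv, hx]
  · simp only [Finset.mem_insert, Finset.mem_singleton] at hv
    rcases hv with rfl | rfl
    · exact hx
    · rw [L.nxt_mk, hx]

theorem some_mem_labs {σ : Finset (Vx q G)} {t : Option (G ⧸ Subgroup.zpowers s)}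
    {u : ZMod (q + 2)} : some u ∈ labs σ t ↔ ∃ v ∈ σ, v.2 = u := by
  unfold labs
  rw [Finset.mem_union]
  constructor
  · rintro (h | h)
    · rw [Finset.mem_image] at h
      obtain ⟨v, hv, h⟩ := h
      exact ⟨v, hv, Option.some.inj h⟩
    · split_ifs at h <;> simp at h
  · rintro ⟨v, hv, rfl⟩
    exact Or.inl (Finset.mem_image_of_mem (fun v : Vx q G => some v.2) hv)

theorem none_mem_labs {σ : Finset (Vx q G)} {t : Option (G ⧸ Subgroup.zpowers s)} :
    none ∈ labs σ t ↔ t ≠ none := by
  unfold labs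
  rw [Finset.mem_union]
  constructor
  · rintro (h | h)
    · simp at h
    · split_ifs at h with ht
      · simp at h
      · exact ht
  · intro ht
    right
    simp [ht]

theorem IsA.ph_eq {σ : Finset (Vx q G)} {c : G ⧸ Subgroup.zpowers s}
    (h : IsA L σ (some c)) {v w : Vx q G} (hv : v ∈ σ) (hw : w ∈ σ) {u : ZMod (q + 2)}
    (hu : some u ∉ labs σ (some c)) : ph s v u = ph s w u := by
  rw [some_mem_labs] at hu
  push Not at hu
  rcases h.adj hv hw with rfl | rfl | rfl
  · rfl
  · exact (L.ph_nxt v u (hu v hv).symm).symm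
  · exact L.ph_nxt w u (hu w hw).symm

theorem BoxOK.not_mem {σ : Finset (Vx q G)} {t : Option (G ⧸ Subgroup.zpowers s)}
    {τ : Finset (Option (ZMod (q + 2)))} (h : BoxOK L σ t τ) {u : Option (ZMod (q + 2))}
    (hu : u ∈ τ) : u ∉ labs σ t := fun h' => Finset.disjoint_left.1 h.2.2.1 h' hu

theorem Cap.trans {σ σ' : Finset (Vx q G)} {c : G ⧸ Subgroup.zpowers s}
    {τ τ' : Finset (Option (ZMod (q + 2)))} {e : Finset G} (hσ : σ.Nonempty)
    (h' : BoxOK L σ' (some c) τ') (hσσ : σ ⊆ σ') (hττ : τ ⊆ τ') (he : Cap s e σ τ) :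
    Cap s e σ' τ' := by
  intro x hx v hv
  obtain ⟨w, hw⟩ := hσ
  obtain ⟨u, hu, hux⟩ := he x hx w hw
  refine ⟨u, hττ hu, ?_⟩
  rw [← hux]
  exact h'.2.1.ph_eq hv (hσσ hw) (h'.not_mem (hττ hu))

instance : PartialOrder (RR L) where
  le := RR.Le
  le_refl a := by
    cases a with
    | kap => trivial
    | box σ t τ h => exact ⟨subset_rfl, Or.inr rfl, subset_rfl⟩
    | ee c e h => exact ⟨rfl, subset_rfl⟩
  le_trans a b c hab hbc := by
    cases a with
    | kap =>
      cases b with
      | kap => exact hbc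
      | box σ t τ h =>
        cases c with
        | kap => exact hbc.elim
        | box σ' t' τ' h' => exact Finset.Nonempty.mono hbc.2.2 hab
        | ee c' e' h' => exact hbc.elim
      | ee c' e h =>
        cases c with
        | kap => exact hbc.elim
        | box σ' t' τ' h' =>
          obtain ⟨x, hx⟩ := hab
          obtain ⟨v, hv⟩ := h'.1
          obtain ⟨u, hu, _⟩ := hbc.2 x hx v hv
          exact ⟨_, hu⟩
        | ee c'' e'' h'' => exact Finset.Nonempty.mono hbc.2 hab
    | box σ t τ h =>
      cases b with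
      | kap => exact hab.elim
      | box σ' t' τ' h' =>
        cases c with
        | kap => exact hbc.elim
        | box σ'' t'' τ'' h'' =>
          refine ⟨hab.1.trans hbc.1, ?_, hab.2.2.trans hbc.2.2⟩
          rcases hab.2.1 with h1 | h1
          · exact Or.inl h1
          · rcases hbc.2.1 with h2 | h2
            · exact Or.inl (h1.trans h2)
            · exact Or.inr (h1.trans h2)
        | ee c' e' h' => exact hbc.elim
      | ee c' e' h' => exact hab.elim
    | ee c1 e h =>
      cases b with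
      | kap => exact hab.elim
      | box σ t τ h' =>
        cases c with
        | kap => exact hbc.elim
        | box σ' t' τ' h'' =>
          have ht : t' = some c1 := by
            rcases hbc.2.1 with h1 | h1
            · have := hab.1; rw [h1] at this; simp at this
            · rw [← h1]; exact hab.1
          subst ht
          exact ⟨rfl, hab.2.trans h'.1 h'' hbc.1 hbc.2.2⟩
        | ee c' e' h' => exact hbc.elim
      | ee c' e' h' =>
        cases c with
        | kap => exact hbc.elim
        | box σ' t' τ' h'' =>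
          exact ⟨by rw [hab.1]; exact hbc.1, fun x hx => hbc.2 x (hab.2 hx)⟩
        | ee c'' e'' h'' => exact ⟨hab.1.trans hbc.1, hab.2.trans hbc.2⟩
  le_antisymm a b hab hba := by
    cases a with
    | kap =>
      cases b with
      | kap => rfl
      | box σ t τ h => exact hba.elim
      | ee c' e h => exact hba.elim
    | box σ t τ h =>
      cases b with
      | kap => exact hab.elim
      | box σ' t' τ' h' =>
        have h1 := hab.1.antisymm hba.1
        have h3 := hab.2.2.antisymm hba.2.2
        have h2 : t = t' := by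
          rcases hab.2.1 with h4 | h4
          · rcases hba.2.1 with h5 | h5
            · rw [h4, h5]
            · exact h5.symm
          · exact h4
        subst h1; subst h2; subst h3
        rfl
      | ee c' e h => exact hab.elim
    | ee c1 e h =>
      cases b with
      | kap => exact hab.elim
      | box σ t τ h' => exact hba.elim
      | ee c' e' h' =>
        have h1 := hab.1
        have h2 := hab.2.antisymm hba.2
        subst h1; subst h2
        rfl

theorem RR.kap_le_box {σ t τ} {h : BoxOK L σ t τ} : RR.kap ≤ RR.box σ t τ h ↔ τ.Nonempty := Iff.rfl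

theorem RR.kap_le_ee {c e} {h : EOK (q := q) (s := s) c e} : (RR.kap : RR L) ≤ RR.ee c e h ↔
    e.Nonempty := Iff.rfl

theorem RR.box_le_box {σ t τ} {h : BoxOK L σ t τ} {σ' t' τ'} {h' : BoxOK L σ' t' τ'} :
    RR.box σ t τ h ≤ RR.box σ' t' τ' h' ↔ σ ⊆ σ' ∧ (t = none ∨ t = t') ∧ τ ⊆ τ' := Iff.rfl

theorem RR.ee_le_ee {c e c' e'} {h : EOK (q := q) (s := s) c e} {h' : EOK (q := q) c' e'} :
    (RR.ee c e h : RR L) ≤ RR.ee c' e' h' ↔ c = c' ∧ e ⊆ e' := Iff.rfl

theorem RR.ee_le_box {c e} {h : EOK (q := q) (s := s) c e} {σ t τ} {h' : BoxOK L σ t τ} :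
    (RR.ee c e h : RR L) ≤ RR.box σ t τ h' ↔ t = some c ∧ Cap s e σ τ := Iff.rfl

theorem RR.not_box_le_ee {c e} {h : EOK (q := q) (s := s) c e} {σ t τ} {h' : BoxOK L σ t τ} :
    ¬ RR.box σ t τ h' ≤ RR.ee c e h := fun h => h

theorem RR.not_box_le_kap {σ t τ} {h' : BoxOK L σ t τ} :
    ¬ RR.box σ t τ h' ≤ RR.kap := fun h => h

theorem RR.not_ee_le_kap {c e} {h : EOK (q := q) (s := s) c e} :
    ¬ (RR.ee c e h : RR L) ≤ RR.kap := fun h => h

theorem IsA.smul {σ : Finset (Vx q G)} {t : Option (G ⧸ Subgroup.zpowers s)}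
    (h : IsA L σ t) (g : G) : IsA L (σ.image (trl g)) (t.map (g • ·)) := by
  rcases t with _ | c
  · exact L.smul g _ h
  · rcases h with rfl | ⟨v, hv, h⟩
    · left; simp
    · right
      refine ⟨trl g v, ?_, ?_⟩
      · change (QuotientGroup.mk (g * v.1) : G ⧸ Subgroup.zpowers s) = g • c
        rw [← hv]; rfl
      · rcases h with rfl | rfl
        · left; simp
        · right
          rw [Finset.image_insert, Finset.image_singleton, trl_nxt]

theorem labs_smul (σ : Finset (Vx q G)) (t : Option (G ⧸ Subgroup.zpowers s)) (g : G) :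
    labs (σ.image (trl g)) (t.map (g • ·)) = labs σ t := by
  unfold labs
  rw [Finset.image_image]
  congr 1
  simp

theorem BoxOK.smul {σ : Finset (Vx q G)} {t : Option (G ⧸ Subgroup.zpowers s)}
    {τ : Finset (Option (ZMod (q + 2)))} (h : BoxOK L σ t τ) (g : G) :
    BoxOK L (σ.image (trl g)) (t.map (g • ·)) τ :=
  ⟨h.1.image _, h.2.1.smul g, by rw [labs_smul]; exact h.2.2.1, h.2.2.2⟩

theorem EOK.smul {c : G ⧸ Subgroup.zpowers s} {e : Finset G} (h : EOK (q := q) c e) (g : G) :
    EOK (q := q) (g • c) (e.image (g * ·)) := by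
  refine ⟨?_, ?_⟩
  · intro x hx
    rw [Finset.mem_image] at hx
    obtain ⟨y, hy, rfl⟩ := hx
    rw [← h.1 y hy]; rfl
  · rw [Finset.card_image_of_injective _ (mul_right_injective g)]
    exact h.2

/-- the action -/
def RR.act (g : G) : RR L → RR L
  | .kap => .kap
  | .box σ t τ h => .box (σ.image (trl g)) (t.map (g • ·)) τ (h.smul g)
  | .ee c e h => .ee (g • c) (e.image (g * ·)) (h.smul g)

instance : MulAction G (RR L) where
  smul := RR.act
  one_smul a := by
    change RR.act 1 a = a
    cases a with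
    | kap => rfl
    | box σ t τ h =>
      simp only [RR.act]
      congr 1
      · exact image_trl_one σ
      · cases t <;> simp
    | ee c e h =>
      simp only [RR.act]
      congr 1
      · exact one_smul _ _
      · simp
  mul_smul g g' a := by
    change RR.act (g * g') a = RR.act g (RR.act g' a)
    cases a with
    | kap => rfl
    | box σ t τ h =>
      simp only [RR.act]
      congr 1
      · exact image_trl_mul g g' σ
      · cases t <;> simp [mul_smul]
    | ee c e h =>
      simp only [RR.act]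
      congr 1
      · exact mul_smul _ _ _
      · rw [Finset.image_image]
        congr 1
        funext x
        simp [mul_assoc]

theorem RR.smul_kap (g : G) : g • (RR.kap : RR L) = RR.kap := rfl

theorem RR.smul_box (g : G) {σ t τ} (h : BoxOK L σ t τ) :
    g • RR.box σ t τ h = RR.box (σ.image (trl g)) (t.map (g • ·)) τ (h.smul g) := rfl

theorem RR.smul_ee (g : G) {c e} (h : EOK (q := q) (s := s) c e) :
    g • (RR.ee c e h : RR L) = RR.ee (g • c) (e.image (g * ·)) (h.smul g) := rfl

theorem RR.smul_le (g : G) (a b : RR L) (h : a ≤ b) : g • a ≤ g • b := by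
  cases a with
  | kap =>
    cases b with
    | kap => exact h
    | box σ t τ h' => exact h
    | ee c e h' =>
      rw [RR.smul_kap, RR.smul_ee, RR.kap_le_ee]
      exact (RR.kap_le_ee.1 h).image _
  | box σ t τ h1 =>
    cases b with
    | kap => exact (RR.not_box_le_kap h).elim
    | box σ' t' τ' h2 =>
      rw [RR.smul_box, RR.smul_box, RR.box_le_box]
      rw [RR.box_le_box] at h
      refine ⟨Finset.image_subset_image h.1, ?_, h.2.2⟩
      rcases h.2.1 with h3 | h3
      · left; rw [h3]; rfl
      · right; rw [h3]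
    | ee c e h2 => exact (RR.not_box_le_ee h).elim
  | ee c e h1 =>
    cases b with
    | kap => exact (RR.not_ee_le_kap h).elim
    | box σ t τ h2 =>
      rw [RR.smul_ee, RR.smul_box, RR.ee_le_box]
      rw [RR.ee_le_box] at h
      refine ⟨by rw [h.1]; rfl, ?_⟩
      intro x hx v hv
      rw [Finset.mem_image] at hx hv
      obtain ⟨x, hx, rfl⟩ := hx
      obtain ⟨v, hv, rfl⟩ := hv
      obtain ⟨u, hu, hux⟩ := h.2 x hx v hv
      exact ⟨u, hu, by rw [ph_trl, hux]⟩
    | ee c' e' h2 =>
      rw [RR.smul_ee, RR.smul_ee, RR.ee_le_ee]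
      rw [RR.ee_le_ee] at h
      exact ⟨by rw [h.1], Finset.image_subset_image h.2⟩

theorem RR.smul_lt (g : G) (a b : RR L) (h : a < b) : g • a < g • b := by
  rw [lt_iff_le_and_ne] at h ⊢
  exact ⟨RR.smul_le g a b h.1, fun h' => h.2 (smul_left_cancel g h')⟩

theorem RR.rk_smul (g : G) (a : RR L) : (g • a).rk = a.rk := by
  cases a with
  | kap => rfl
  | box σ t τ h =>
    rw [RR.smul_box]
    unfold RR.rk
    dsimp only
    rw [Finset.card_image_of_injective _ (trl_inj g)]
    cases t <;> simp
  | ee c e h =>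
    rw [RR.smul_ee]
    unfold RR.rk
    exact Finset.card_image_of_injective _ (mul_right_injective g)

/-- the special elements -/
def SpR (L : LCx q G s) : Set (RR L) :=
  {a | a = RR.kap ∨ ∃ c h, a = RR.ee c ∅ h}

end

end

end Pool.Agent.Helper59.PD
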