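import Pool.Agent.Helper59.PD.LcDown

/-! Intervals of the thickening poset. -/

set_option autoImplicit false

open scoped Classical

namespace Pool.Agent.Helper59.PD

namespace Btw

/-! ### General lemmas on posets -/

theorem wc_max {X : Type} [PartialOrder X] {S : Set X} (m : X) (hm : m ∈ S)
    (h : ∀ x ∈ S, x ≤ m) : WC S := WC.cone m hm (fun y hy => Or.inl (h y hy))

theorem sph_iso_le {X Y : Type} [PartialOrder X] [PartialOrder Y] {S : Set X} {T : Set Y}
    (f : X → Y) (hf : ∀ x ∈ S, f x ∈ T) (hs : ∀ y ∈ T, ∃ x ∈ S, f x = y)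
    (h : ∀ x ∈ S, ∀ y ∈ S, (x ≤ y ↔ f x ≤ f y)) (m : ℕ) : Sph S m ↔ Sph T m := by
  have hinj : Set.InjOn f S := by
    intro x hx y hy hxy
    exact le_antisymm ((h x hx y hy).2 hxy.le) ((h y hy x hx).2 hxy.ge)
  apply Sph.of_iso f ⟨hf, hinj, fun y hy => hs y hy⟩
  intro x hx y hy
  rw [lt_iff_le_not_ge, lt_iff_le_not_ge, h x hx y hy, h y hy x hx]

variable {q : ℕ} {G : Type} [Group G] {s : G} {L : LCx q G s}

/-! ### Label sets -/

theorem al_down {ρ ρ' : Finset (Option (ZMod (q + 2)))} (h : ρ ∈ AL L) (hs : ρ' ⊆ ρ)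
    (hne : ρ'.Nonempty) : ρ' ∈ AL L := by
  obtain ⟨σ, t, hA, rfl⟩ := h
  refine ⟨σ.filter (fun v => some v.2 ∈ ρ'), if none ∈ ρ' then t else none, ?_, ?_⟩
  · apply hA.down (Finset.filter_subset _ _)
    · split_ifs
      · exact Or.inr rfl
      · exact Or.inl rfl
    · intro ht
      obtain ⟨u, hu⟩ := hne
      have hu' := hs hu
      cases u with
      | none =>
        rw [if_pos hu] at ht
        exact absurd ht (none_mem_labs.1 hu')
      | some u =>
        obtain ⟨v, hv, rfl⟩ := some_mem_labs.1 hu'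
        exact ⟨v, Finset.mem_filter.2 ⟨hv, hu⟩⟩
  · ext u
    cases u with
    | none =>
      rw [none_mem_labs]
      constructor
      · intro hu
        rw [if_pos hu]
        exact none_mem_labs.1 (hs hu)
      · intro h
        by_contra hu
        rw [if_neg hu] at h
        exact h rfl
    | some u =>
      rw [some_mem_labs]
      constructor
      · intro hu
        obtain ⟨v, hv, rfl⟩ := some_mem_labs.1 (hs hu)
        exact ⟨v, Finset.mem_filter.2 ⟨hv, hu⟩, rfl⟩
      · rintro ⟨v, hv, rfl⟩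
        exact (Finset.mem_filter.1 hv).2

theorem labs_mono {σ σ' : Finset (Vx q G)} {t t' : Option (G ⧸ Subgroup.zpowers s)}
    (hσ : σ ⊆ σ') (ht : t = none ∨ t = t') : labs σ t ⊆ labs σ' t' := by
  intro u hu
  cases u with
  | none =>
    rw [none_mem_labs] at hu ⊢
    rcases ht with h | h
    · exact absurd h hu
    · rwa [← h]
  | some u =>
    rw [some_mem_labs] at hu ⊢
    obtain ⟨v, hv, rfl⟩ := hu
    exact ⟨v, hσ hv, rfl⟩

theorem boxOK_down {σ σ' : Finset (Vx q G)} {t t' : Option (G ⧸ Subgroup.zpowers s)}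
    {τ τ' : Finset (Option (ZMod (q + 2)))} (h : BoxOK L σ' t' τ') (hσ : σ ⊆ σ')
    (hne : σ.Nonempty) (ht : t = none ∨ t = t') (hτ : τ ⊆ τ') : BoxOK L σ t τ := by
  refine ⟨hne, h.2.1.down hσ ht (fun _ => hne), ?_, ?_⟩
  · exact Finset.disjoint_of_subset_left (labs_mono hσ ht)
      (Finset.disjoint_of_subset_right hτ h.2.2.1)
  · intro hAL
    apply h.2.2.2
    apply al_down hAL (Finset.compl_subset_compl.2 hτ)
    obtain ⟨v, hv⟩ := h.1
    refine ⟨some v.2, ?_⟩
    rw [Finset.mem_compl]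
    exact Finset.disjoint_left.1 h.2.2.1 (some_mem_labs.2 ⟨v, hv, rfl⟩)

theorem exists_prev (v : Vx q G) : ∃ w : Vx q G, nxt s w = v := by
  refine ⟨(if v.2 = 0 then v.1 * s⁻¹ else v.1, v.2 - 1), ?_⟩
  unfold nxt
  refine Prod.ext ?_ ?_
  · dsimp only
    by_cases h : v.2 = 0
    · have h1 : v.2 - 1 = -1 := by rw [h]; ring
      rw [if_pos h1, if_pos h]
      simp
    · have h1 : v.2 - 1 ≠ -1 := by
        intro h1
        exact h (by linear_combination h1)
      rw [if_neg h1, if_neg h]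
  · dsimp only
    ring

/-! ### The value of a label -/

/-- the value of a label -/
noncomputable def val (s : G) (v : Vx q G) : Option (ZMod (q + 2)) → G
  | none => 1
  | some u => ph s v u

theorem cap_iff {σ : Finset (Vx q G)} {c : G ⧸ Subgroup.zpowers s}
    {τ : Finset (Option (ZMod (q + 2)))} (h : BoxOK L σ (some c) τ) {v : Vx q G} (hv : v ∈ σ)
    {e : Finset G} {σ' : Finset (Vx q G)} (hσ : σ' ⊆ σ) (hne : σ'.Nonempty)
    {τ' : Finset (Option (ZMod (q + 2)))} (hτ : τ' ⊆ τ) :
    Cap s e σ' τ' ↔ e ⊆ τ'.image (val s v) := by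
  constructor
  · intro hc x hx
    obtain ⟨w, hw⟩ := hne
    obtain ⟨u, hu, hux⟩ := hc x hx w hw
    rw [Finset.mem_image]
    refine ⟨some u, hu, ?_⟩
    rw [← hux]
    exact h.2.1.ph_eq hv (hσ hw) (h.not_mem (hτ hu))
  · intro hc x hx w hw
    obtain ⟨u, hu, hux⟩ := Finset.mem_image.1 (hc hx)
    cases u with
    | none =>
      exfalso
      have := h.not_mem (hτ hu)
      rw [none_mem_labs] at this
      simp at this
    | some u =>
      refine ⟨u, hu, ?_⟩
      rw [← hux]
      exact h.2.1.ph_eq (hσ hw) hv (h.not_mem (hτ hu))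

/-- two labels in `τ` with the same value -/
theorem val_inj {σ : Finset (Vx q G)} {c : G ⧸ Subgroup.zpowers s}
    {τ : Finset (Option (ZMod (q + 2)))} (h : BoxOK L σ (some c) τ) {v : Vx q G} (hv : v ∈ σ)
    {u u' : Option (ZMod (q + 2))} (hu : u ∈ τ) (hu' : u' ∈ τ) (huu : val s v u = val s v u') :
    u = u' ∨ (u = some (v.2 + 1) ∧ u' = some (v.2 - 1)) ∨
      (u = some (v.2 - 1) ∧ u' = some (v.2 + 1)) := by
  have h1 := h.not_mem hu
  have h2 := h.not_mem hu'
  cases u with
  | none => rw [none_mem_labs] at h1; simp at h1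
  | some u =>
    cases u' with
    | none => rw [none_mem_labs] at h2; simp at h2
    | some u' =>
      rw [some_mem_labs] at h1 h2
      push Not at h1 h2
      have := L.ph_inj v u u' (h1 v hv).symm (h2 v hv).symm huu
      simpa using this

/-- the values do not cover the coset -/
theorem card_val {σ : Finset (Vx q G)} {c : G ⧸ Subgroup.zpowers s}
    {τ : Finset (Option (ZMod (q + 2)))} (h : BoxOK L σ (some c) τ) {v : Vx q G} (hv : v ∈ σ) :
    (τ.image (val s v)).card < q := by
  by_contra hcon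
  push Not at hcon
  have hmk : (QuotientGroup.mk v.1 : G ⧸ Subgroup.zpowers s) = c := h.2.1.mk_eq hv
  have hnone : none ∉ τ := by
    intro hn
    have := h.not_mem hn
    rw [none_mem_labs] at this
    simp at this
  have hsub : τ.image (val s v) ⊆ (Finset.range q).image (fun k => v.1 * s ^ k) := by
    intro x hx
    obtain ⟨u, hu, rfl⟩ := Finset.mem_image.1 hx
    cases u with
    | none => exact absurd hu hnone
    | some u =>
      rw [Finset.mem_image]
      refine ⟨((v.2.val + (u - v.2).val) * ((q + 1) / 2)) % q, ?_, ?_⟩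
      · rw [Finset.mem_range]
        exact Nat.mod_lt _ L.hq.pos
      · change v.1 * s ^ _ = ph s v u
        unfold ph
        congr 1
        rw [pow_eq_pow_iff_modEq, L.orderOf]
        exact Nat.mod_modEq _ _
  have hcard : ((Finset.range q).image (fun k => v.1 * s ^ k)).card ≤ q := by
    refine Finset.card_image_le.trans ?_
    rw [Finset.card_range]
  have heq := Finset.eq_of_subset_of_card_le hsub (hcard.trans hcon)
  have hall : ∀ u : ZMod (q + 2), ∃ u', some u' ∈ τ ∧ ph s v u' = ph s v u := by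
    intro u
    have : ph s v u ∈ (Finset.range q).image (fun k => v.1 * s ^ k) := by
      rw [Finset.mem_image]
      refine ⟨((v.2.val + (u - v.2).val) * ((q + 1) / 2)) % q, ?_, ?_⟩
      · rw [Finset.mem_range]
        exact Nat.mod_lt _ L.hq.pos
      · unfold ph
        congr 1
        rw [pow_eq_pow_iff_modEq, L.orderOf]
        exact Nat.mod_modEq _ _
    rw [← heq, Finset.mem_image] at this
    obtain ⟨u', hu', h2⟩ := this
    cases u' with
    | none => exact absurd hu' hnone
    | some u' => exact ⟨u', hu', h2⟩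
  have hv2 : ∀ u, some u ∈ τ → u ≠ v.2 := by
    intro u hu huv
    have := h.not_mem hu
    rw [some_mem_labs] at this
    exact this ⟨v, hv, huv.symm⟩
  -- all labels but `v.2` and its neighbours are in `τ`
  have hmost : ∀ u : ZMod (q + 2), u ≠ v.2 → u ≠ v.2 + 1 → u ≠ v.2 - 1 → some u ∈ τ := by
    intro u h0 h1 h2
    obtain ⟨u', hu', h3⟩ := hall u
    rcases L.ph_inj v u' u (hv2 u' hu') h0 h3 with h4 | h4 | h4
    · rwa [← h4]
    · exact absurd h4.2 h2
    · exact absurd h4.2 h1
  have hone : some (v.2 + 1) ∈ τ ∨ some (v.2 - 1) ∈ τ := by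
    have hne : v.2 + 1 ≠ v.2 := by
      intro h
      have h1 : (1 : ZMod (q + 2)) = 0 := by linear_combination h
      have h1v : (1 : ZMod (q + 2)).val = 1 := ZMod.val_one'' (by omega)
      rw [h1, ZMod.val_zero] at h1v
      omega
    obtain ⟨u', hu', h3⟩ := hall (v.2 + 1)
    rcases L.ph_inj v u' (v.2 + 1) (hv2 u' hu') hne h3 with h4 | h4 | h4
    · left; rwa [← h4]
    · left; rwa [← h4.1]
    · right; rwa [← h4.1]
  apply h.2.2.2
  have hnec : (τᶜ).Nonempty := ⟨some v.2, by
    rw [Finset.mem_compl]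
    intro h1
    exact hv2 v.2 h1 rfl⟩
  rcases hone with h1 | h1
  · obtain ⟨w, hw⟩ := exists_prev (s := s) v
    have hw2 : w.2 = v.2 - 1 := by
      rw [← hw]; simp [nxt]
    have hwA : labs {w, v} (some c) ∈ AL L := by
      refine ⟨{w, v}, some c, ?_, rfl⟩
      right
      refine ⟨w, ?_, Or.inr (by rw [hw])⟩
      rw [← L.nxt_mk, hw, hmk]
    apply al_down hwA _ hnec
    intro u hu
    rw [Finset.mem_compl] at hu
    cases u with
    | none => rw [none_mem_labs]; simp
    | some u =>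
      rw [some_mem_labs]
      by_cases hu0 : u = v.2
      · exact ⟨v, by simp, hu0.symm⟩
      by_cases hu1 : u = v.2 + 1
      · rw [hu1] at hu; exact absurd h1 hu
      by_cases hu2 : u = v.2 - 1
      · exact ⟨w, by simp, by rw [hw2, hu2]⟩
      · exact absurd (hmost u hu0 hu1 hu2) hu
  · have hwA : labs {v, nxt s v} (some c) ∈ AL L := by
      refine ⟨{v, nxt s v}, some c, ?_, rfl⟩
      right
      exact ⟨v, hmk, Or.inr rfl⟩
    apply al_down hwA _ hnec
    intro u hu
    rw [Finset.mem_compl] at hu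
    cases u with
    | none => rw [none_mem_labs]; simp
    | some u =>
      rw [some_mem_labs]
      by_cases hu0 : u = v.2
      · exact ⟨v, by simp, hu0.symm⟩
      by_cases hu1 : u = v.2 + 1
      · exact ⟨nxt s v, by simp, by rw [hu1]; rfl⟩
      by_cases hu2 : u = v.2 - 1
      · rw [hu2] at hu; exact absurd h1 hu
      · exact absurd (hmost u hu0 hu1 hu2) hu

theorem eok_of {σ : Finset (Vx q G)} {c : G ⧸ Subgroup.zpowers s}
    {τ : Finset (Option (ZMod (q + 2)))} (h : BoxOK L σ (some c) τ) {v : Vx q G} (hv : v ∈ σ)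
    {e : Finset G} (he : e ⊆ τ.image (val s v)) : EOK (q := q) c e := by
  refine ⟨?_, lt_of_le_of_lt (Finset.card_le_card he) (card_val h hv)⟩
  intro x hx
  obtain ⟨u, hu, rfl⟩ := Finset.mem_image.1 (he hx)
  cases u with
  | none =>
    have := h.not_mem hu
    rw [none_mem_labs] at this
    simp at this
  | some u =>
    change (QuotientGroup.mk (ph s v u) : G ⧸ Subgroup.zpowers s) = c
    rw [ph_mk, h.2.1.mk_eq hv]


/-! ### box - box -/

/-- vertices together with the cone vertex -/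
noncomputable def cv (σ : Finset (Vx q G)) (t : Option (G ⧸ Subgroup.zpowers s)) :
    Finset (Option (Vx q G)) :=
  σ.image some ∪ (if t = none then ∅ else {none})

theorem some_mem_cv {σ : Finset (Vx q G)} {t : Option (G ⧸ Subgroup.zpowers s)} {v : Vx q G} :
    some v ∈ cv σ t ↔ v ∈ σ := by
  unfold cv
  rw [Finset.mem_union]
  constructor
  · rintro (h | h)
    · simpa using h
    · split_ifs at h <;> simp at h
  · intro h
    left
    simpa using h

theorem none_mem_cv {σ : Finset (Vx q G)} {t : Option (G ⧸ Subgroup.zpowers s)} :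
    none ∈ cv σ t ↔ t ≠ none := by
  unfold cv
  rw [Finset.mem_union]
  constructor
  · rintro (h | h)
    · simp at h
    · split_ifs at h with h1
      · simp at h
      · exact h1
  · intro h
    right
    rw [if_neg h]
    simp

theorem card_cv {σ : Finset (Vx q G)} {t : Option (G ⧸ Subgroup.zpowers s)} :
    (cv σ t).card = σ.card + (if t = none then 0 else 1) := by
  unfold cv
  rw [Finset.card_union_of_disjoint]
  · rw [Finset.card_image_of_injective _ (Option.some_injective _)]
    split_ifs <;> simp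
  · rw [Finset.disjoint_left]
    intro a ha
    rw [Finset.mem_image] at ha
    obtain ⟨v, _, rfl⟩ := ha
    split_ifs <;> simp

theorem cv_subset {σ σ' : Finset (Vx q G)} {t t' T : Option (G ⧸ Subgroup.zpowers s)}
    (h : t = none ∨ t = T) (h' : t' = none ∨ t' = T) :
    cv σ t ⊆ cv σ' t' ↔ σ ⊆ σ' ∧ (t = none ∨ t = t') := by
  constructor
  · intro hs
    refine ⟨fun v hv => some_mem_cv.1 (hs (some_mem_cv.2 hv)), ?_⟩
    by_cases ht : t = none
    · exact Or.inl ht
    · right
      have := none_mem_cv.1 (hs (none_mem_cv.2 ht))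
      rcases h with h | h
      · exact absurd h ht
      · rcases h' with h' | h'
        · exact absurd h' this
        · rw [h, h']
  · rintro ⟨h1, h2⟩ a ha
    cases a with
    | none =>
      rw [none_mem_cv] at ha ⊢
      rcases h2 with h2 | h2
      · exact absurd h2 ha
      · rwa [← h2]
    | some v => rw [some_mem_cv] at ha ⊢; exact h1 ha

/-- encoding of boxes -/
noncomputable def enc : RR L → Finset (Option (Vx q G) ⊕ Option (ZMod (q + 2)))
  | .kap => ∅
  | .box σ t τ _ => (cv σ t).disjSum τ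
  | .ee _ _ _ => ∅

theorem disjSum_subset_disjSum {α β : Type} {a a' : Finset α} {b b' : Finset β} :
    a.disjSum b ⊆ a'.disjSum b' ↔ a ⊆ a' ∧ b ⊆ b' := by
  constructor
  · intro h
    constructor
    · intro x hx
      simpa using h (Finset.inl_mem_disjSum.2 hx)
    · intro x hx
      simpa using h (Finset.inr_mem_disjSum.2 hx)
  · rintro ⟨h1, h2⟩
    exact Finset.disjSum_mono h1 h2

theorem btw_box_box {σ : Finset (Vx q G)} {t : Option (G ⧸ Subgroup.zpowers s)}
    {τ : Finset (Option (ZMod (q + 2)))} (h : BoxOK L σ t τ)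
    {σ' : Finset (Vx q G)} {t' : Option (G ⧸ Subgroup.zpowers s)}
    {τ' : Finset (Option (ZMod (q + 2)))} (h' : BoxOK L σ' t' τ')
    (hlt : RR.box σ t τ h < RR.box σ' t' τ' h') :
    Sph (Set.Ioo (RR.box σ t τ h) (RR.box σ' t' τ' h'))
      ((RR.box σ' t' τ' h').rk - (RR.box σ t τ h).rk - 1) := by
  have hle := RR.box_le_box.1 hlt.le
  -- the encoding reflects the order below the big box
  have key : ∀ x y : RR L, RR.box σ t τ h ≤ x → x ≤ RR.box σ' t' τ' h' →
      RR.box σ t τ h ≤ y → y ≤ RR.box σ' t' τ' h' → (x ≤ y ↔ enc x ≤ enc y) := by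
    intro x y hx1 hx2 hy1 hy2
    cases x with
    | kap => exact (RR.not_box_le_kap hx1).elim
    | ee c e h1 => exact (RR.not_box_le_ee hx1).elim
    | box σ1 t1 τ1 h1 =>
      cases y with
      | kap => exact (RR.not_box_le_kap hy1).elim
      | ee c e h1 => exact (RR.not_box_le_ee hy1).elim
      | box σ2 t2 τ2 h2 =>
        rw [RR.box_le_box] at hx2 hy2
        change _ ↔ (cv σ1 t1).disjSum τ1 ⊆ (cv σ2 t2).disjSum τ2
        rw [RR.box_le_box, disjSum_subset_disjSum, cv_subset hx2.2.1 hy2.2.1, and_assoc]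
  have hcard : (RR.box σ' t' τ' h').rk - (RR.box σ t τ h).rk - 1 =
      ((cv σ' t').disjSum τ').card - ((cv σ t).disjSum τ).card - 1 := by
    rw [Finset.card_disjSum, Finset.card_disjSum, card_cv, card_cv]
    unfold RR.rk
    dsimp only
    have h1 : 0 < σ.card := h.1.card_pos
    have h2 : 0 < σ'.card := h'.1.card_pos
    omega
  have hsub : (cv σ t).disjSum τ ⊂ (cv σ' t').disjSum τ' := by
    have h1 := (key _ _ le_rfl hlt.le hlt.le le_rfl).1 hlt.le
    have h2 : ¬ enc (RR.box σ' t' τ' h') ≤ enc (RR.box σ t τ h) := fun h2 =>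
      absurd ((key _ _ hlt.le le_rfl le_rfl hlt.le).2 h2) (not_le_of_gt hlt)
    exact ⟨h1, h2⟩
  rw [hcard]
  refine (sph_iso_le enc ?_ ?_ ?_ _).2 (sph_interval _ _ hsub)
  · intro x hx
    have e1 := (key _ _ le_rfl hlt.le hx.1.le hx.2.le).1 hx.1.le
    have e2 := (key _ _ hx.1.le hx.2.le hlt.le le_rfl).1 hx.2.le
    have e3 : ¬ enc x ≤ enc (RR.box σ t τ h) := fun h2 =>
      absurd ((key _ _ hx.1.le hx.2.le le_rfl hlt.le).2 h2) (not_le_of_gt hx.1)
    have e4 : ¬ enc (RR.box σ' t' τ' h') ≤ enc x := fun h2 =>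
      absurd ((key _ _ hlt.le le_rfl hx.1.le hx.2.le).2 h2) (not_le_of_gt hx.2)
    exact ⟨⟨e1, e3⟩, ⟨e2, e4⟩⟩
  · intro y hy
    obtain ⟨hy1, hy2⟩ := hy
    -- decode
    have hyL : y.toLeft ⊆ cv σ' t' := by
      intro a ha
      have := hy2.1 (Finset.mem_toLeft.1 ha)
      simpa using this
    have hyR : y.toRight ⊆ τ' := by
      intro a ha
      have := hy2.1 (Finset.mem_toRight.1 ha)
      simpa using this
    have hyL1 : cv σ t ⊆ y.toLeft := by
      intro a ha
      rw [Finset.mem_toLeft]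
      exact hy1.1 (Finset.inl_mem_disjSum.2 ha)
    have hyR1 : τ ⊆ y.toRight := by
      intro a ha
      rw [Finset.mem_toRight]
      exact hy1.1 (Finset.inr_mem_disjSum.2 ha)
    have hσ2 : σ'.filter (fun v => some v ∈ y.toLeft) ⊆ σ' := Finset.filter_subset _ _
    have ht2 : (if none ∈ y.toLeft then t' else none) = none ∨
        (if none ∈ y.toLeft then t' else none) = t' := by
      split_ifs
      · exact Or.inr rfl
      · exact Or.inl rfl
    have hσ1 : σ ⊆ σ'.filter (fun v => some v ∈ y.toLeft) := by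
      intro v hv
      rw [Finset.mem_filter]
      exact ⟨hle.1 hv, hyL1 (some_mem_cv.2 hv)⟩
    have hne : (σ'.filter (fun v => some v ∈ y.toLeft)).Nonempty := h.1.mono hσ1
    have hOK : BoxOK L (σ'.filter (fun v => some v ∈ y.toLeft))
        (if none ∈ y.toLeft then t' else none) y.toRight :=
      boxOK_down h' hσ2 hne ht2 hyR
    have henc : enc (RR.box _ _ _ hOK) = y := by
      change (cv _ _).disjSum _ = y
      have : cv (σ'.filter (fun v => some v ∈ y.toLeft))
          (if none ∈ y.toLeft then t' else none) = y.toLeft := by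
        ext a
        cases a with
        | none =>
          rw [none_mem_cv]
          constructor
          · intro h1
            by_contra h2
            rw [if_neg h2] at h1
            exact h1 rfl
          · intro h1
            rw [if_pos h1]
            exact none_mem_cv.1 (hyL h1)
        | some v =>
          rw [some_mem_cv, Finset.mem_filter]
          constructor
          · exact fun h1 => h1.2
          · intro h1
            exact ⟨some_mem_cv.1 (hyL h1), h1⟩
      rw [this]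
      exact Finset.toLeft_disjSum_toRight
    have hx2 : RR.box _ _ _ hOK ≤ RR.box σ' t' τ' h' := by
      rw [RR.box_le_box]
      exact ⟨hσ2, ht2, hyR⟩
    have hx1 : RR.box σ t τ h ≤ RR.box _ _ _ hOK := by
      rw [RR.box_le_box]
      refine ⟨hσ1, ?_, hyR1⟩
      by_cases ht : t = none
      · exact Or.inl ht
      · right
        rw [if_pos (hyL1 (none_mem_cv.2 ht))]
        rcases hle.2.1 with h3 | h3
        · exact absurd h3 ht
        · exact h3
    refine ⟨RR.box _ _ _ hOK, ⟨lt_of_le_of_ne hx1 ?_, lt_of_le_of_ne hx2 ?_⟩, henc⟩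
    · intro heq
      rw [← heq] at henc
      have : (cv σ t).disjSum τ = y := henc
      rw [← this] at hy1
      exact hy1.2 subset_rfl
    · intro heq
      rw [heq] at henc
      have : (cv σ' t').disjSum τ' = y := henc
      rw [← this] at hy2
      exact hy2.2 subset_rfl
  · intro x hx y hy
    exact key x y hx.1.le hx.2.le hy.1.le hy.2.le

/-! ### ee - ee -/

/-- the set of an `ee` -/
noncomputable def eset : RR L → Finset G
  | .kap => ∅
  | .box _ _ _ _ => ∅
  | .ee _ e _ => e

theorem btw_ee_ee {c : G ⧸ Subgroup.zpowers s} {e : Finset G} (h : EOK (q := q) c e)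
    {c' : G ⧸ Subgroup.zpowers s} {e' : Finset G} (h' : EOK (q := q) c' e')
    (hlt : (RR.ee c e h : RR L) < RR.ee c' e' h') :
    Sph (Set.Ioo (RR.ee c e h : RR L) (RR.ee c' e' h'))
      ((RR.ee c' e' h' : RR L).rk - (RR.ee c e h : RR L).rk - 1) := by
  have hle := RR.ee_le_ee.1 hlt.le
  obtain ⟨hcc, hee⟩ := hle
  subst hcc
  have hlt' : e ⊂ e' := by
    refine ⟨hee, fun h1 => ?_⟩
    exact absurd (RR.ee_le_ee.2 ⟨rfl, h1⟩ : (RR.ee c e' h' : RR L) ≤ RR.ee c e h)
      (not_le_of_gt hlt)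
  change Sph _ (e'.card - e.card - 1)
  refine (sph_iso_le eset ?_ ?_ ?_ _).2 (sph_interval _ _ hlt')
  · intro x hx
    cases x with
    | kap => exact (RR.not_ee_le_kap hx.1.le).elim
    | box σ t τ h1 => exact (RR.not_box_le_ee hx.2.le).elim
    | ee c1 e1 h1 =>
      have h2 := RR.ee_le_ee.1 hx.1.le
      have h3 := RR.ee_le_ee.1 hx.2.le
      obtain ⟨h2a, h2b⟩ := h2
      subst h2a
      refine ⟨⟨h2b, fun h4 => ?_⟩, ⟨h3.2, fun h4 => ?_⟩⟩
      · exact absurd (RR.ee_le_ee.2 ⟨rfl, h4⟩ : (RR.ee c e1 h1 : RR L) ≤ RR.ee c e h)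
          (not_le_of_gt hx.1)
      · exact absurd (RR.ee_le_ee.2 ⟨rfl, h4⟩ : (RR.ee c e' h' : RR L) ≤ RR.ee c e1 h1)
          (not_le_of_gt hx.2)
  · intro y hy
    have hy' : EOK (q := q) c y := by
      refine ⟨fun x hx => h'.1 x (hy.2.1 hx), ?_⟩
      exact lt_of_le_of_lt (Finset.card_le_card hy.2.1) h'.2
    refine ⟨RR.ee c y hy', ⟨?_, ?_⟩, rfl⟩
    · refine lt_of_le_not_ge (RR.ee_le_ee.2 ⟨rfl, hy.1.1⟩) (fun h1 => ?_)
      exact hy.1.2 (RR.ee_le_ee.1 h1).2
    · refine lt_of_le_not_ge (RR.ee_le_ee.2 ⟨rfl, hy.2.1⟩) (fun h1 => ?_)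
      exact hy.2.2 (RR.ee_le_ee.1 h1).2
  · intro x hx y hy
    cases x with
    | kap => exact (RR.not_ee_le_kap hx.1.le).elim
    | box σ t τ h1 => exact (RR.not_box_le_ee hx.2.le).elim
    | ee c1 e1 h1 =>
      cases y with
      | kap => exact (RR.not_ee_le_kap hy.1.le).elim
      | box σ t τ h1 => exact (RR.not_box_le_ee hy.2.le).elim
      | ee c2 e2 h2 =>
        have h3 := (RR.ee_le_ee.1 hx.1.le).1
        have h4 := (RR.ee_le_ee.1 hy.1.le).1
        rw [RR.ee_le_ee]
        change _ ↔ e1 ⊆ e2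
        rw [← h3, ← h4]
        simp


/-! ### ee - box -/

section eebox

variable {σ : Finset (Vx q G)} {c : G ⧸ Subgroup.zpowers s}
  {τ : Finset (Option (ZMod (q + 2)))}

/-- a box, if valid -/
noncomputable def mkB (L : LCx q G s) (c : G ⧸ Subgroup.zpowers s) (σ : Finset (Vx q G))
    (τ : Finset (Option (ZMod (q + 2)))) : RR L :=
  if h : BoxOK L σ (some c) τ then RR.box σ (some c) τ h else RR.kap

/-- an `ee`, if valid -/
noncomputable def mkE (L : LCx q G s) (c : G ⧸ Subgroup.zpowers s) (e : Finset G) : RR L :=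
  if h : EOK (q := q) c e then RR.ee c e h else RR.kap

/-- the map from the Boolean interval -/
noncomputable def gq (L : LCx q G s) (c : G ⧸ Subgroup.zpowers s) (v : Vx q G)
    (x : Finset (Vx q G ⊕ Option (ZMod (q + 2)))) : RR L :=
  if x.toLeft = ∅ then mkE L c (x.toRight.image (val s v)) else mkB L c x.toLeft x.toRight

/-- the elements between -/
theorem mem_Ioo {e : Finset G} (he : EOK (q := q) c e) (h : BoxOK L σ (some c) τ) {v : Vx q G}
    (hv : v ∈ σ) (x : RR L) :
    (RR.ee c e he : RR L) ≤ x ∧ x ≤ RR.box σ (some c) τ h ↔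
      (∃ e' h', x = RR.ee c e' h' ∧ e ⊆ e' ∧ e' ⊆ τ.image (val s v)) ∨
      (∃ σ' τ' h', x = RR.box σ' (some c) τ' h' ∧ σ' ⊆ σ ∧ τ' ⊆ τ ∧
        e ⊆ τ'.image (val s v)) := by
  constructor
  · rintro ⟨h1, h2⟩
    cases x with
    | kap => exact (RR.not_ee_le_kap h1).elim
    | ee c1 e1 h3 =>
      left
      obtain ⟨h4, h5⟩ := RR.ee_le_ee.1 h1
      subst h4
      exact ⟨e1, h3, rfl, h5, (cap_iff h hv subset_rfl h.1 subset_rfl).1 (RR.ee_le_box.1 h2).2⟩
    | box σ1 t1 τ1 h3 =>
      right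
      obtain ⟨h4, h5⟩ := RR.ee_le_box.1 h1
      subst h4
      obtain ⟨h6, _, h7⟩ := RR.box_le_box.1 h2
      exact ⟨σ1, τ1, h3, rfl, h6, h7, (cap_iff h hv h6 h3.1 h7).1 h5⟩
  · rintro (⟨e', h', rfl, h1, h2⟩ | ⟨σ', τ', h', rfl, h1, h2, h3⟩)
    · refine ⟨RR.ee_le_ee.2 ⟨rfl, h1⟩, ?_⟩
      rw [RR.ee_le_box]
      exact ⟨rfl, (cap_iff h hv subset_rfl h.1 subset_rfl).2 h2⟩
    · refine ⟨?_, RR.box_le_box.2 ⟨h1, Or.inr rfl, h2⟩⟩
      rw [RR.ee_le_box]
      exact ⟨rfl, (cap_iff h hv h1 h'.1 h2).2 h3⟩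

/-- a rank function on the interval -/
noncomputable def rho : RR L → ℕ
  | .kap => 0
  | .box σ _ τ _ => σ.card + τ.card
  | .ee _ e _ => e.card

theorem finHtOn_Ioo {e : Finset G} (he : EOK (q := q) c e) (h : BoxOK L σ (some c) τ) {v : Vx q G}
    (hv : v ∈ σ) : FinHtOn (Set.Ioo (RR.ee c e he : RR L) (RR.box σ (some c) τ h)) := by
  refine ⟨σ.card + τ.card, rho, ?_, ?_⟩
  · intro x hx y hy hxy
    have hx' := (mem_Ioo he h hv x).1 ⟨hx.1.le, hx.2.le⟩
    have hy' := (mem_Ioo he h hv y).1 ⟨hy.1.le, hy.2.le⟩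
    rcases hx' with ⟨e1, h1, rfl, h1a, h1b⟩ | ⟨σ1, τ1, h1, rfl, h1a, h1b, h1c⟩
    · rcases hy' with ⟨e2, h2, rfl, h2a, h2b⟩ | ⟨σ2, τ2, h2, rfl, h2a, h2b, h2c⟩
      · apply Finset.card_lt_card
        refine ⟨(RR.ee_le_ee.1 hxy.le).2, fun h3 => ?_⟩
        exact absurd (RR.ee_le_ee.2 ⟨rfl, h3⟩ : (RR.ee c e2 h2 : RR L) ≤ RR.ee c e1 h1)
          (not_le_of_gt hxy)
      · change e1.card < σ2.card + τ2.card
        have h3 := (cap_iff h hv h2a h2.1 h2b).1 (RR.ee_le_box.1 hxy.le).2
        have h4 := Finset.card_le_card h3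
        have h5 : (τ2.image (val s v)).card ≤ τ2.card := Finset.card_image_le
        have h6 := h2.1.card_pos
        omega
    · rcases hy' with ⟨e2, h2, rfl, h2a, h2b⟩ | ⟨σ2, τ2, h2, rfl, h2a, h2b, h2c⟩
      · exact (RR.not_box_le_ee hxy.le).elim
      · change σ1.card + τ1.card < σ2.card + τ2.card
        obtain ⟨h3, _, h4⟩ := RR.box_le_box.1 hxy.le
        have h5 := Finset.card_le_card h3
        have h6 := Finset.card_le_card h4
        by_contra hcon
        have h7 : σ1 = σ2 := Finset.eq_of_subset_of_card_le h3 (by omega)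
        have h8 : τ1 = τ2 := Finset.eq_of_subset_of_card_le h4 (by omega)
        subst h7; subst h8
        exact lt_irrefl _ hxy
  · intro x hx
    have hx' := (mem_Ioo he h hv x).1 ⟨hx.1.le, hx.2.le⟩
    rcases hx' with ⟨e1, h1, rfl, h1a, h1b⟩ | ⟨σ1, τ1, h1, rfl, h1a, h1b, h1c⟩
    · change e1.card ≤ σ.card + τ.card
      have h4 := Finset.card_le_card h1b
      have h5 : (τ.image (val s v)).card ≤ τ.card := Finset.card_image_le
      omega
    · change σ1.card + τ1.card ≤ σ.card + τ.card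
      have h5 := Finset.card_le_card h1a
      have h6 := Finset.card_le_card h1b
      omega

theorem finHtOn_card {α : Type} (S : Set (Finset α)) (b : Finset α) (hb : ∀ x ∈ S, x ⊆ b) :
    FinHtOn S :=
  ⟨b.card, Finset.card, fun _ _ _ _ h => Finset.card_lt_card h,
    fun x hx => Finset.card_le_card (hb x hx)⟩

/-- case A: the values in `e` are taken only once -/
theorem btw_A {e : Finset G} (he : EOK (q := q) c e) (h : BoxOK L σ (some c) τ) {v : Vx q G}
    (hv : v ∈ σ) (hle : e ⊆ τ.image (val s v))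
    (hA : ∀ u ∈ τ, ∀ u' ∈ τ, val s v u = val s v u' → val s v u ∈ e → u = u') :
    Sph (Set.Ioo (RR.ee c e he : RR L) (RR.box σ (some c) τ h)) (σ.card + τ.card - e.card - 1) := by
  set φ := val s v with hφ
  set τ1 := τ.filter (fun u => φ u ∈ e) with hτ1
  have hτ1τ : τ1 ⊆ τ := Finset.filter_subset _ _
  have himg : τ1.image φ = e := by
    ext g
    rw [Finset.mem_image]
    constructor
    · rintro ⟨u, hu, rfl⟩
      exact (Finset.mem_filter.1 hu).2
    · intro hg
      obtain ⟨u, hu, rfl⟩ := Finset.mem_image.1 (hle hg)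
      exact ⟨u, Finset.mem_filter.2 ⟨hu, hg⟩, rfl⟩
  have hcard : τ1.card = e.card := by
    rw [← himg, Finset.card_image_of_injOn]
    intro u hu u' hu' huu
    rw [hτ1, Finset.coe_filter] at hu hu'
    exact hA u hu.1 u' hu'.1 huu hu.2
  have hlt : (∅ : Finset (Vx q G)).disjSum τ1 ⊂ σ.disjSum τ := by
    apply Finset.disjSum_ssubset_disjSum_of_ssubset_of_subset _ hτ1τ
    exact Finset.empty_ssubset.2 h.1
  have hS := sph_interval _ _ hlt
  rw [Finset.card_disjSum, Finset.card_disjSum, Finset.card_empty, hcard, zero_add] at hS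
  -- valid elements
  have hE : ∀ x : Finset (Vx q G ⊕ Option (ZMod (q + 2))), x ⊆ σ.disjSum τ → x.toLeft = ∅ →
      ∃ h', gq L c v x = RR.ee c (x.toRight.image φ) h' := by
    intro x hx hx0
    have hR : x.toRight ⊆ τ := by
      intro a ha
      simpa using hx (Finset.mem_toRight.1 ha)
    refine ⟨eok_of h hv (Finset.image_subset_image hR), ?_⟩
    unfold gq
    rw [if_pos hx0]
    exact dif_pos _
  have hB : ∀ x : Finset (Vx q G ⊕ Option (ZMod (q + 2))), x ⊆ σ.disjSum τ → x.toLeft ≠ ∅ →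
      ∃ h', gq L c v x = RR.box x.toLeft (some c) x.toRight h' := by
    intro x hx hx0
    have hR : x.toRight ⊆ τ := by
      intro a ha
      simpa using hx (Finset.mem_toRight.1 ha)
    have hL : x.toLeft ⊆ σ := by
      intro a ha
      simpa using hx (Finset.mem_toLeft.1 ha)
    refine ⟨boxOK_down h hL (Finset.nonempty_iff_ne_empty.2 hx0) (Or.inr rfl) hR, ?_⟩
    unfold gq
    rw [if_neg hx0]
    exact dif_pos _
  have hxL : ∀ x : Finset (Vx q G ⊕ Option (ZMod (q + 2))), x ⊆ σ.disjSum τ → x.toLeft ⊆ σ := by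
    intro x hx a ha
    simpa using hx (Finset.mem_toLeft.1 ha)
  have hxR : ∀ x : Finset (Vx q G ⊕ Option (ZMod (q + 2))), x ⊆ σ.disjSum τ → x.toRight ⊆ τ := by
    intro x hx a ha
    simpa using hx (Finset.mem_toRight.1 ha)
  have hxR1 : ∀ x : Finset (Vx q G ⊕ Option (ZMod (q + 2))),
      (∅ : Finset (Vx q G)).disjSum τ1 ⊆ x → τ1 ⊆ x.toRight := by
    intro x hx a ha
    rw [Finset.mem_toRight]
    exact hx (Finset.inr_mem_disjSum.2 ha)
  have hsplit : ∀ (x : Finset (Vx q G ⊕ Option (ZMod (q + 2)))) (a : Finset (Vx q G))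
      (b : Finset (Option (ZMod (q + 2)))), x ⊆ a.disjSum b ↔ x.toLeft ⊆ a ∧ x.toRight ⊆ b := by
    intro x a b
    conv_lhs => rw [← Finset.toLeft_disjSum_toRight (u := x)]
    exact disjSum_subset_disjSum
  have hsplit' : ∀ (x : Finset (Vx q G ⊕ Option (ZMod (q + 2)))) (a : Finset (Vx q G))
      (b : Finset (Option (ZMod (q + 2)))), a.disjSum b ⊆ x ↔ a ⊆ x.toLeft ∧ b ⊆ x.toRight := by
    intro x a b
    conv_lhs => rw [← Finset.toLeft_disjSum_toRight (u := x)]
    exact disjSum_subset_disjSum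
  -- comparison of images with the elements
  have hgE : ∀ x : Finset (Vx q G ⊕ Option (ZMod (q + 2))), x ⊆ σ.disjSum τ → ∀ e' h',
      (gq L c v x ≤ RR.ee c e' h' ↔ x.toLeft = ∅ ∧ x.toRight.image φ ⊆ e') := by
    intro x hx e' h'
    by_cases hx0 : x.toLeft = ∅
    · obtain ⟨h1, h2⟩ := hE x hx hx0
      rw [h2, RR.ee_le_ee]
      simp [hx0]
    · obtain ⟨h1, h2⟩ := hB x hx hx0
      rw [h2]
      constructor
      · intro h3
        exact (RR.not_box_le_ee h3).elim
      · intro h3
        exact absurd h3.1 hx0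
  have hgB : ∀ x : Finset (Vx q G ⊕ Option (ZMod (q + 2))), x ⊆ σ.disjSum τ → ∀ σ' τ' h',
      σ' ⊆ σ → τ' ⊆ τ →
      (gq L c v x ≤ RR.box σ' (some c) τ' h' ↔
        (x.toLeft = ∅ ∧ x.toRight.image φ ⊆ τ'.image φ) ∨
        (x.toLeft ≠ ∅ ∧ x.toLeft ⊆ σ' ∧ x.toRight ⊆ τ')) := by
    intro x hx σ' τ' h' hσ' hτ'
    by_cases hx0 : x.toLeft = ∅
    · obtain ⟨h1, h2⟩ := hE x hx hx0
      rw [h2, RR.ee_le_box, cap_iff h hv hσ' h'.1 hτ']
      simp [hx0, hφ]
    · obtain ⟨h1, h2⟩ := hB x hx hx0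
      rw [h2, RR.box_le_box]
      simp [hx0]
  have hfin1 : FinHtOn {x : Finset (Vx q G ⊕ Option (ZMod (q + 2))) |
      (∅ : Finset (Vx q G)).disjSum τ1 ⊂ x ∧ x ⊂ σ.disjSum τ} :=
    finHtOn_card _ (σ.disjSum τ) (fun x hx => hx.2.1)
  refine ((HEq'.quillen_le hfin1 (finHtOn_Ioo he h hv) (gq L c v) ?_ ?_ ?_).sph _).1 hS
  · -- the map lands in the interval
    intro x hx
    have hxs := hx.2.1
    by_cases hx0 : x.toLeft = ∅
    · obtain ⟨h1, h2⟩ := hE x hxs hx0
      have hR := hxR x hxs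
      have hR1 := hxR1 x hx.1.1
      have hmem : (RR.ee c e he : RR L) ≤ gq L c v x ∧ gq L c v x ≤ RR.box σ (some c) τ h := by
        rw [mem_Ioo he h hv]
        left
        refine ⟨_, h1, h2, ?_, Finset.image_subset_image hR⟩
        rw [← himg]
        exact Finset.image_subset_image hR1
      refine ⟨lt_of_le_of_ne hmem.1 ?_, lt_of_le_of_ne hmem.2 ?_⟩
      · intro heq
        have h3 : gq L c v x ≤ RR.ee c e he := heq.ge
        rw [hgE x hxs] at h3
        apply hx.1.2
        rw [hsplit]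
        refine ⟨by rw [hx0], ?_⟩
        intro u hu
        rw [hτ1, Finset.mem_filter]
        exact ⟨hR hu, h3.2 (Finset.mem_image_of_mem _ hu)⟩
      · intro heq
        have h3 : RR.box σ (some c) τ h ≤ gq L c v x := heq.ge
        rw [h2] at h3
        exact RR.not_box_le_ee h3
    · obtain ⟨h1, h2⟩ := hB x hxs hx0
      have hR := hxR x hxs
      have hL := hxL x hxs
      have hR1 := hxR1 x hx.1.1
      have hmem : (RR.ee c e he : RR L) ≤ gq L c v x ∧ gq L c v x ≤ RR.box σ (some c) τ h := by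
        rw [mem_Ioo he h hv]
        right
        refine ⟨_, _, h1, h2, hL, hR, ?_⟩
        conv_lhs => rw [← himg]
        exact Finset.image_subset_image hR1
      refine ⟨lt_of_le_of_ne hmem.1 ?_, lt_of_le_of_ne hmem.2 ?_⟩
      · intro heq
        have h3 : gq L c v x ≤ RR.ee c e he := heq.ge
        rw [h2] at h3
        exact RR.not_box_le_ee h3
      · intro heq
        have h3 : RR.box σ (some c) τ h ≤ gq L c v x := heq.ge
        rw [h2, RR.box_le_box] at h3
        apply hx.2.2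
        rw [hsplit']
        exact ⟨h3.1, h3.2.2⟩
  · -- monotone
    intro x hx y hy hxy
    have hxs := hx.2.1
    have hys := hy.2.1
    have hLxy : x.toLeft ⊆ y.toLeft := by
      intro a ha
      rw [Finset.mem_toLeft] at ha ⊢
      exact hxy ha
    have hRxy : x.toRight ⊆ y.toRight := by
      intro a ha
      rw [Finset.mem_toRight] at ha ⊢
      exact hxy ha
    by_cases hy0 : y.toLeft = ∅
    · obtain ⟨h1, h2⟩ := hE y hys hy0
      rw [h2, hgE x hxs]
      exact ⟨by rw [hy0, Finset.subset_empty] at hLxy; exact hLxy,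
        Finset.image_subset_image hRxy⟩
    · obtain ⟨h1, h2⟩ := hB y hys hy0
      rw [h2, hgB x hxs _ _ _ (hxL y hys) (hxR y hys)]
      by_cases hx0 : x.toLeft = ∅
      · exact Or.inl ⟨hx0, Finset.image_subset_image hRxy⟩
      · exact Or.inr ⟨hx0, hLxy, hRxy⟩
  · -- fibres
    intro y hy
    have hy' := (mem_Ioo he h hv y).1 ⟨hy.1.le, hy.2.le⟩
    rcases hy' with ⟨e', h', rfl, h1, h2⟩ | ⟨σ', τ', h', rfl, h1, h2, h3⟩
    · -- `ee c e'`
      apply wc_max ((∅ : Finset (Vx q G)).disjSum (τ.filter (fun u => φ u ∈ e')))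
      · refine ⟨⟨⟨?_, ?_⟩, ⟨?_, ?_⟩⟩, ?_⟩
        · rw [disjSum_subset_disjSum]
          refine ⟨subset_rfl, fun u hu => ?_⟩
          rw [hτ1, Finset.mem_filter] at hu
          exact Finset.mem_filter.2 ⟨hu.1, h1 hu.2⟩
        · intro hcon
          rw [disjSum_subset_disjSum] at hcon
          apply (not_le_of_gt hy.1)
          rw [RR.ee_le_ee]
          refine ⟨rfl, fun g hg => ?_⟩
          obtain ⟨u, hu, rfl⟩ := Finset.mem_image.1 (h2 hg)
          exact (Finset.mem_filter.1 (hcon.2 (Finset.mem_filter.2 ⟨hu, hg⟩))).2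
        · rw [disjSum_subset_disjSum]
          exact ⟨Finset.empty_subset _, Finset.filter_subset _ _⟩
        · intro hcon
          rw [disjSum_subset_disjSum, Finset.subset_empty] at hcon
          exact h.1.ne_empty hcon.1
        · rw [hgE]
          · rw [Finset.toLeft_disjSum, Finset.toRight_disjSum]
            refine ⟨rfl, ?_⟩
            intro g hg
            obtain ⟨u, hu, rfl⟩ := Finset.mem_image.1 hg
            exact (Finset.mem_filter.1 hu).2
          · rw [disjSum_subset_disjSum]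
            exact ⟨Finset.empty_subset _, Finset.filter_subset _ _⟩
      · rintro x ⟨hx, hx2⟩
        rw [hgE x hx.2.1] at hx2

        rw [hsplit]
        refine ⟨by rw [hx2.1], fun u hu => ?_⟩
        rw [Finset.mem_filter]
        exact ⟨hxR x hx.2.1 hu, hx2.2 (Finset.mem_image_of_mem _ hu)⟩
    · -- `box σ' (some c) τ'`
      have hτ1' : τ1 ⊆ τ' := by
        intro u hu
        rw [hτ1, Finset.mem_filter] at hu
        obtain ⟨u', hu', huu⟩ := Finset.mem_image.1 (h3 hu.2)
        have := hA u hu.1 u' (h2 hu') huu.symm hu.2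
        rwa [this]
      have hσ' := h'.1
      have hx1S : σ'.disjSum τ' ∈ {x : Finset (Vx q G ⊕ Option (ZMod (q + 2))) |
          (∅ : Finset (Vx q G)).disjSum τ1 ⊂ x ∧ x ⊂ σ.disjSum τ} := by
        refine ⟨⟨?_, ?_⟩, ⟨?_, ?_⟩⟩
        · rw [disjSum_subset_disjSum]
          exact ⟨Finset.empty_subset _, hτ1'⟩
        · rw [disjSum_subset_disjSum, Finset.subset_empty]
          exact fun hcon => hσ'.ne_empty hcon.1
        · rw [disjSum_subset_disjSum]
          exact ⟨h1, h2⟩
        · rw [disjSum_subset_disjSum]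
          intro hcon
          apply (not_le_of_gt hy.2)
          rw [RR.box_le_box]
          exact ⟨hcon.1, Or.inr rfl, hcon.2⟩
      by_cases hτ' : τ' ⊆ τ1
      · -- then everything is below `σ' ⊔ τ'`
        apply wc_max (σ'.disjSum τ')
        · refine ⟨hx1S, ?_⟩
          rw [hgB _ hx1S.2.1 _ _ _ h1 h2, Finset.toLeft_disjSum, Finset.toRight_disjSum]
          exact Or.inr ⟨hσ'.ne_empty, subset_rfl, subset_rfl⟩
        · rintro x ⟨hx, hx2⟩
          rw [hgB x hx.2.1 _ _ _ h1 h2] at hx2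

          rw [hsplit]
          rcases hx2 with ⟨hx0, hx2⟩ | ⟨hx0, hx2, hx3⟩
          · exfalso
            apply hx.1.2
            rw [hsplit]
            refine ⟨by rw [hx0], fun u hu => ?_⟩
            rw [hτ1, Finset.mem_filter]
            refine ⟨hxR x hx.2.1 hu, ?_⟩
            obtain ⟨u', hu', huu⟩ := Finset.mem_image.1 (hx2 (Finset.mem_image_of_mem _ hu))
            rw [← huu]
            exact (Finset.mem_filter.1 (hτ' hu')).2
          · exact ⟨hx2, hx3⟩
      · set τh := τ.filter (fun u => φ u ∈ τ'.image φ) with hτh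
        have hτ'h : τ' ⊆ τh := by
          intro u hu
          rw [hτh, Finset.mem_filter]
          exact ⟨h2 hu, Finset.mem_image_of_mem _ hu⟩
        have hxS : ∀ τ2 : Finset (Option (ZMod (q + 2))), τ' ⊆ τ2 → τ2 ⊆ τ →
            (∅ : Finset (Vx q G)).disjSum τ2 ∈
              {x : Finset (Vx q G ⊕ Option (ZMod (q + 2))) |
                (∅ : Finset (Vx q G)).disjSum τ1 ⊂ x ∧ x ⊂ σ.disjSum τ} := by
          intro τ2 h4 h5
          refine ⟨⟨?_, ?_⟩, ⟨?_, ?_⟩⟩
          · rw [disjSum_subset_disjSum]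
            exact ⟨subset_rfl, hτ1'.trans h4⟩
          · rw [disjSum_subset_disjSum]
            exact fun hcon => hτ' (h4.trans hcon.2)
          · rw [disjSum_subset_disjSum]
            exact ⟨Finset.empty_subset _, h5⟩
          · rw [disjSum_subset_disjSum, Finset.subset_empty]
            exact fun hcon => h.1.ne_empty hcon.1
        have hunion : {x ∈ {x : Finset (Vx q G ⊕ Option (ZMod (q + 2))) |
            (∅ : Finset (Vx q G)).disjSum τ1 ⊂ x ∧ x ⊂ σ.disjSum τ} |
              gq L c v x ≤ RR.box σ' (some c) τ' h'} =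
            {x ∈ {x : Finset (Vx q G ⊕ Option (ZMod (q + 2))) |
            (∅ : Finset (Vx q G)).disjSum τ1 ⊂ x ∧ x ⊂ σ.disjSum τ} | x ⊆ σ'.disjSum τ'} ∪
            {x ∈ {x : Finset (Vx q G ⊕ Option (ZMod (q + 2))) |
            (∅ : Finset (Vx q G)).disjSum τ1 ⊂ x ∧ x ⊂ σ.disjSum τ} |
              x ⊆ (∅ : Finset (Vx q G)).disjSum τh} := by
          ext x
          constructor
          · rintro ⟨hx, hx2⟩
            rw [hgB x hx.2.1 _ _ _ h1 h2] at hx2
            rcases hx2 with ⟨hx0, hx2⟩ | ⟨hx0, hx2, hx3⟩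
            · right
              refine ⟨hx, ?_⟩
              rw [hsplit]
              refine ⟨by rw [hx0], fun u hu => ?_⟩
              rw [hτh, Finset.mem_filter]
              exact ⟨hxR x hx.2.1 hu, hx2 (Finset.mem_image_of_mem _ hu)⟩
            · left
              refine ⟨hx, ?_⟩
              rw [hsplit]
              exact ⟨hx2, hx3⟩
          · rintro (⟨hx, hx2⟩ | ⟨hx, hx2⟩)
            · refine ⟨hx, ?_⟩
              rw [hgB x hx.2.1 _ _ _ h1 h2]
              rw [hsplit] at hx2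
              by_cases hx0 : x.toLeft = ∅
              · exact Or.inl ⟨hx0, Finset.image_subset_image hx2.2⟩
              · exact Or.inr ⟨hx0, hx2⟩
            · refine ⟨hx, ?_⟩
              rw [hgB x hx.2.1 _ _ _ h1 h2]
              rw [hsplit, Finset.subset_empty] at hx2
              refine Or.inl ⟨hx2.1, ?_⟩
              intro g hg
              obtain ⟨u, hu, rfl⟩ := Finset.mem_image.1 hg
              exact (Finset.mem_filter.1 (hx2.2 hu)).2
        rw [hunion]
        apply WC.union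
        · apply Cov.down
          · rintro x ⟨hx, hx2⟩ y ⟨hy1, hy2⟩ hyx
            exact ⟨hy1, hyx.le.trans hx2⟩
          · rintro x ⟨hx, hx2⟩ y ⟨hy1, hy2⟩ hyx
            exact ⟨hy1, hyx.le.trans hx2⟩
        · exact wc_max (σ'.disjSum τ') ⟨hx1S, subset_rfl⟩ (fun x hx => hx.2)
        · exact wc_max _ ⟨hxS τh hτ'h (Finset.filter_subset _ _), subset_rfl⟩ (fun x hx => hx.2)
        · apply wc_max ((∅ : Finset (Vx q G)).disjSum τ')
          · refine ⟨⟨hxS τ' subset_rfl h2, ?_⟩, ⟨hxS τ' subset_rfl h2, ?_⟩⟩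
            · rw [disjSum_subset_disjSum]
              exact ⟨Finset.empty_subset _, subset_rfl⟩
            · rw [disjSum_subset_disjSum]
              exact ⟨subset_rfl, hτ'h⟩
          · rintro x ⟨⟨hx, hx2⟩, ⟨_, hx3⟩⟩
            rw [hsplit] at hx2 hx3

            rw [hsplit]
            exact ⟨hx3.1, hx2.2⟩


/-- the encoding in case B -/
noncomputable def fB (φ : Option (ZMod (q + 2)) → G) (τ τe : Finset (Option (ZMod (q + 2))))
    (e : Finset G) : RR L → Finset (Option (ZMod (q + 2)))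
  | .kap => ∅
  | .box _ _ τ' _ => τ' \ τe
  | .ee _ e' _ => τ.filter (fun u => φ u ∈ e' \ e)

/-- case B: a value in `e` is taken twice -/
theorem btw_B {e : Finset G} (he : EOK (q := q) c e) (h : BoxOK L σ (some c) τ) {v : Vx q G}
    (hv : v ∈ σ) (hle : e ⊆ τ.image (val s v))
    (ha : some (v.2 + 1) ∈ τ) (hb : some (v.2 - 1) ∈ τ)
    (hab : (some (v.2 + 1) : Option (ZMod (q + 2))) ≠ some (v.2 - 1))
    (hval : val s v (some (v.2 + 1)) = val s v (some (v.2 - 1)))
    (hx : val s v (some (v.2 + 1)) ∈ e) :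
    Sph (Set.Ioo (RR.ee c e he : RR L) (RR.box σ (some c) τ h)) (σ.card + τ.card - e.card - 1) := by
  -- `σ = {v}`
  have hσ : σ = {v} := by
    apply Finset.Subset.antisymm _ (Finset.singleton_subset_iff.2 hv)
    intro w hw
    rw [Finset.mem_singleton]
    have h1 := h.not_mem ha
    have h2 := h.not_mem hb
    rw [some_mem_labs] at h1 h2
    rcases h.2.1.adj hv hw with h3 | h3 | h3
    · exact h3.symm
    · exact absurd ⟨w, hw, by rw [h3]; rfl⟩ h1
    · refine absurd ⟨w, hw, ?_⟩ h2
      rw [h3]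
      simp [nxt]
  have hσc : σ.card = 1 := by rw [hσ]; simp
  have hinj := fun (u u' : Option (ZMod (q + 2))) (hu : u ∈ τ) (hu' : u' ∈ τ)
    (huu : val s v u = val s v u') => val_inj h hv hu hu' huu
  generalize hφ : val s v = φ at hle hval hx hinj
  generalize haa : (some (v.2 + 1) : Option (ZMod (q + 2))) = a at ha hab hval hx hinj
  generalize hbb : (some (v.2 - 1) : Option (ZMod (q + 2))) = b at hb hab hval hinj
  set τe := τ.filter (fun u => φ u ∈ e ∧ u ≠ a ∧ u ≠ b) with hτe
  have hτeτ : τe ⊆ τ := Finset.filter_subset _ _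
  have haτe : a ∉ τe := by
    rw [hτe, Finset.mem_filter]
    exact fun h1 => h1.2.2.1 rfl
  have hbτe : b ∉ τe := by
    rw [hτe, Finset.mem_filter]
    exact fun h1 => h1.2.2.2 rfl
  have huniq : ∀ u u', u ∈ τ → u' ∈ τ → φ u = φ u' → φ u ∉ e → u = u' := by
    intro u u' hu hu' huu hue
    rcases hinj u u' hu hu' huu with h1 | ⟨h1, h2⟩ | ⟨h1, h2⟩
    · exact h1
    · rw [h1] at hue; exact absurd hx hue
    · rw [h1, ← hval] at hue; exact absurd hx hue
  have huniq' : ∀ u u', u ∈ τ → u' ∈ τ → φ u = φ u' → u ≠ a → u ≠ b → u = u' := by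
    intro u u' hu hu' huu hua hub
    rcases hinj u u' hu hu' huu with h1 | ⟨h1, h2⟩ | ⟨h1, h2⟩
    · exact h1
    · exact absurd h1 hua
    · exact absurd h1 hub
  have himg : τe.image φ = e.erase (φ a) := by
    ext g
    rw [Finset.mem_image, Finset.mem_erase]
    constructor
    · rintro ⟨u, hu, rfl⟩
      rw [hτe, Finset.mem_filter] at hu
      refine ⟨fun h1 => ?_, hu.2.1⟩
      exact hu.2.2.1 (huniq' u a hu.1 ha h1 hu.2.2.1 hu.2.2.2)
    · rintro ⟨hg1, hg2⟩
      obtain ⟨u, hu, rfl⟩ := Finset.mem_image.1 (hle hg2)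
      refine ⟨u, ?_, rfl⟩
      rw [hτe, Finset.mem_filter]
      refine ⟨hu, hg2, ?_, ?_⟩
      · rintro rfl; exact hg1 rfl
      · rintro rfl; exact hg1 hval.symm
  have hτec : τe.card = e.card - 1 := by
    have h1 : (τe.image φ).card = τe.card := by
      apply Finset.card_image_of_injOn
      intro u hu u' hu' huu
      rw [hτe, Finset.coe_filter] at hu hu'
      exact huniq' u u' hu.1 hu'.1 huu hu.2.2.1 hu.2.2.2
    rw [← h1, himg, Finset.card_erase_of_mem hx]
  have hec : 0 < e.card := Finset.card_pos.2 ⟨_, hx⟩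
  have hne : (τ \ τe).Nonempty := ⟨a, Finset.mem_sdiff.2 ⟨ha, haτe⟩⟩
  have hS := sph_simplex _ hne
  rw [Finset.card_sdiff_of_subset hτeτ, hτec] at hS
  have hcc : σ.card + τ.card - e.card - 1 = τ.card - (e.card - 1) - 1 := by omega
  rw [hcc]
  -- facts on the boxes
  have hsub : ∀ τ' : Finset (Option (ZMod (q + 2))), τ' ⊆ τ → e ⊆ τ'.image φ → τe ⊆ τ' := by
    intro τ' h1 h2 u hu
    rw [hτe, Finset.mem_filter] at hu
    obtain ⟨u', hu', huu⟩ := Finset.mem_image.1 (h2 hu.2.1)
    rw [huniq' u u' hu.1 (h1 hu') huu.symm hu.2.2.1 hu.2.2.2]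
    exact hu'
  have hor : ∀ τ' : Finset (Option (ZMod (q + 2))), τ' ⊆ τ → e ⊆ τ'.image φ →
      a ∈ τ' ∨ b ∈ τ' := by
    intro τ' h1 h2
    obtain ⟨u', hu', huu⟩ := Finset.mem_image.1 (h2 hx)
    rcases hinj u' a (h1 hu') ha huu with h3 | ⟨h3, h4⟩ | ⟨h3, h4⟩
    · left; rwa [← h3]
    · left; rwa [← h3]
    · right; rwa [← h3]
  have hlive : ∀ x : RR L, x ∈ Set.Ioo (RR.ee c e he : RR L) (RR.box σ (some c) τ h) →
      (∃ e' h', x = RR.ee c e' h' ∧ e ⊆ e' ∧ e' ⊆ τ.image φ) ∨
      (∃ τ' h', x = RR.box σ (some c) τ' h' ∧ τ' ⊆ τ ∧ e ⊆ τ'.image φ) := by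
    intro x hx
    rcases (mem_Ioo he h hv x).1 ⟨hx.1.le, hx.2.le⟩ with h1 | ⟨σ', τ', h', h1, h2, h3, h4⟩
    · left
      rw [← hφ]; exact h1
    · right
      have h5 : σ' = σ := by
        rw [hσ] at h2 ⊢
        exact (Finset.Nonempty.subset_singleton_iff h'.1).1 h2
      subst h5
      refine ⟨τ', h', h1, h3, ?_⟩
      rw [← hφ]; exact h4
  have hlow : ∀ e' h', e ⊆ e' → e' ⊆ τ.image φ →
      ((RR.ee c e he : RR L) ≤ RR.ee c e' h' ∧ RR.ee c e' h' ≤ RR.box σ (some c) τ h) := by
    intro e' h' h1 h2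
    rw [mem_Ioo he h hv]
    left
    refine ⟨e', h', rfl, h1, ?_⟩
    rw [hφ]; exact h2
  have hup : ∀ τ' h', τ' ⊆ τ → e ⊆ τ'.image φ →
      ((RR.ee c e he : RR L) ≤ RR.box σ (some c) τ' h' ∧
        RR.box σ (some c) τ' h' ≤ RR.box σ (some c) τ h) := by
    intro τ' h' h1 h2
    rw [mem_Ioo he h hv]
    right
    refine ⟨σ, τ', h', rfl, subset_rfl, h1, ?_⟩
    rw [hφ]; exact h2
  -- comparison
  have key : ∀ x ∈ Set.Ioo (RR.ee c e he : RR L) (RR.box σ (some c) τ h),
      ∀ y ∈ Set.Ioo (RR.ee c e he : RR L) (RR.box σ (some c) τ h),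
      (x ≤ y ↔ fB φ τ τe e x ≤ fB φ τ τe e y) := by
    intro x hx' y hy'
    rcases hlive x hx' with ⟨e1, h1, rfl, h1a, h1b⟩ | ⟨τ1, h1, rfl, h1a, h1b⟩
    · rcases hlive y hy' with ⟨e2, h2, rfl, h2a, h2b⟩ | ⟨τ2, h2, rfl, h2a, h2b⟩
      · rw [RR.ee_le_ee]
        change _ ↔ τ.filter (fun u => φ u ∈ e1 \ e) ⊆ τ.filter (fun u => φ u ∈ e2 \ e)
        constructor
        · intro h3 u hu
          rw [Finset.mem_filter, Finset.mem_sdiff] at hu ⊢
          exact ⟨hu.1, h3.2 hu.2.1, hu.2.2⟩
        · intro h3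
          refine ⟨rfl, fun g hg => ?_⟩
          by_cases hge : g ∈ e
          · exact h2a hge
          · obtain ⟨u, hu, rfl⟩ := Finset.mem_image.1 (h1b hg)
            have := h3 (Finset.mem_filter.2 ⟨hu, Finset.mem_sdiff.2 ⟨hg, hge⟩⟩)
            rw [Finset.mem_filter, Finset.mem_sdiff] at this
            exact this.2.1
      · rw [RR.ee_le_box]
        have h3 : Cap s e1 σ τ2 ↔ e1 ⊆ τ2.image φ := by
          rw [cap_iff h hv subset_rfl h.1 h2a, hφ]
        rw [h3]
        change _ ↔ τ.filter (fun u => φ u ∈ e1 \ e) ⊆ τ2 \ τe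
        constructor
        · rintro ⟨_, h4⟩ u hu
          rw [Finset.mem_filter, Finset.mem_sdiff] at hu
          obtain ⟨u', hu', huu⟩ := Finset.mem_image.1 (h4 hu.2.1)
          rw [Finset.mem_sdiff]
          refine ⟨?_, ?_⟩
          · rw [huniq u u' hu.1 (h2a hu') huu.symm hu.2.2]
            exact hu'
          · rw [hτe, Finset.mem_filter]
            exact fun h5 => hu.2.2 h5.2.1
        · intro h4
          refine ⟨rfl, fun g hg => ?_⟩
          by_cases hge : g ∈ e
          · exact h2b hge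
          · obtain ⟨u, hu, rfl⟩ := Finset.mem_image.1 (h1b hg)
            have := h4 (Finset.mem_filter.2 ⟨hu, Finset.mem_sdiff.2 ⟨hg, hge⟩⟩)
            rw [Finset.mem_sdiff] at this
            exact Finset.mem_image_of_mem _ this.1
    · rcases hlive y hy' with ⟨e2, h2, rfl, h2a, h2b⟩ | ⟨τ2, h2, rfl, h2a, h2b⟩
      · constructor
        · exact fun h3 => (RR.not_box_le_ee h3).elim
        · intro h3
          exfalso
          have h4 : τ1 \ τe ⊆ τ.filter (fun u => φ u ∈ e2 \ e) := h3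
          rcases hor τ1 h1a h1b with h5 | h5
          · have := h4 (Finset.mem_sdiff.2 ⟨h5, haτe⟩)
            rw [Finset.mem_filter, Finset.mem_sdiff] at this
            exact this.2.2 hx
          · have := h4 (Finset.mem_sdiff.2 ⟨h5, hbτe⟩)
            rw [Finset.mem_filter, Finset.mem_sdiff, ← hval] at this
            exact this.2.2 hx
      · rw [RR.box_le_box]
        change _ ↔ τ1 \ τe ⊆ τ2 \ τe
        constructor
        · intro h3
          exact Finset.sdiff_subset_sdiff h3.2.2 subset_rfl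
        · intro h3
          refine ⟨subset_rfl, Or.inr rfl, fun u hu => ?_⟩
          by_cases hue : u ∈ τe
          · exact hsub τ2 h2a h2b hue
          · exact (Finset.mem_sdiff.1 (h3 (Finset.mem_sdiff.2 ⟨hu, hue⟩))).1
  refine (sph_iso_le (fB φ τ τe e) ?_ ?_ key _).2 hS
  · -- maps to
    intro x hx'
    rcases hlive x hx' with ⟨e1, h1, rfl, h1a, h1b⟩ | ⟨τ1, h1, rfl, h1a, h1b⟩
    · change (τ.filter (fun u => φ u ∈ e1 \ e)).Nonempty ∧
        τ.filter (fun u => φ u ∈ e1 \ e) ⊂ τ \ τe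
      refine ⟨?_, ?_⟩
      · by_contra hcon
        rw [Finset.not_nonempty_iff_eq_empty] at hcon
        apply not_le_of_gt hx'.1
        rw [RR.ee_le_ee]
        refine ⟨rfl, fun g hg => ?_⟩
        by_contra hge
        obtain ⟨u, hu, rfl⟩ := Finset.mem_image.1 (h1b hg)
        have : u ∈ τ.filter (fun u => φ u ∈ e1 \ e) :=
          Finset.mem_filter.2 ⟨hu, Finset.mem_sdiff.2 ⟨hg, hge⟩⟩
        rw [hcon] at this
        simp at this
      · refine ⟨fun u hu => ?_, fun hcon => ?_⟩
        · rw [Finset.mem_filter, Finset.mem_sdiff] at hu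
          rw [Finset.mem_sdiff]
          refine ⟨hu.1, ?_⟩
          rw [hτe, Finset.mem_filter]
          exact fun h5 => hu.2.2 h5.2.1
        · have := hcon (Finset.mem_sdiff.2 ⟨ha, haτe⟩)
          rw [Finset.mem_filter, Finset.mem_sdiff] at this
          exact this.2.2 hx
    · change (τ1 \ τe).Nonempty ∧ τ1 \ τe ⊂ τ \ τe
      refine ⟨?_, ?_⟩
      · rcases hor τ1 h1a h1b with h5 | h5
        · exact ⟨a, Finset.mem_sdiff.2 ⟨h5, haτe⟩⟩
        · exact ⟨b, Finset.mem_sdiff.2 ⟨h5, hbτe⟩⟩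
      · refine ⟨Finset.sdiff_subset_sdiff h1a subset_rfl, fun hcon => ?_⟩
        apply not_le_of_gt hx'.2
        rw [RR.box_le_box]
        refine ⟨subset_rfl, Or.inr rfl, fun u hu => ?_⟩
        by_cases hue : u ∈ τe
        · exact hsub τ1 h1a h1b hue
        · exact (Finset.mem_sdiff.1 (hcon (Finset.mem_sdiff.2 ⟨hu, hue⟩))).1
  · -- surjective
    rintro t ⟨⟨u0, hu0⟩, ht⟩
    have htτ : t ⊆ τ := ht.1.trans Finset.sdiff_subset
    have htd : ∀ u ∈ t, u ∉ τe := fun u hu => (Finset.mem_sdiff.1 (ht.1 hu)).2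
    by_cases hab' : a ∈ t ∨ b ∈ t
    · have hsub1 : t ∪ τe ⊆ τ := Finset.union_subset htτ hτeτ
      have hOK : BoxOK L σ (some c) (t ∪ τe) := boxOK_down h subset_rfl h.1 (Or.inr rfl) hsub1
      have he1 : e ⊆ (t ∪ τe).image φ := by
        intro g hg
        obtain ⟨u, hu, rfl⟩ := Finset.mem_image.1 (hle hg)
        have hcase : φ u = φ a ∨ (u ≠ a ∧ u ≠ b) := by
          by_cases h1 : u = a
          · left; rw [h1]
          · by_cases h2 : u = b
            · left; rw [h2, hval]
            · right; exact ⟨h1, h2⟩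
        rcases hcase with h1 | h1
        · rw [h1]
          rcases hab' with h2 | h2
          · exact Finset.mem_image_of_mem _ (Finset.mem_union_left _ h2)
          · rw [hval]
            exact Finset.mem_image_of_mem _ (Finset.mem_union_left _ h2)
        · exact Finset.mem_image_of_mem _ (Finset.mem_union_right _
            (Finset.mem_filter.2 ⟨hu, hg, h1⟩))
      have henc : (t ∪ τe) \ τe = t := by
        rw [Finset.union_sdiff_right]
        exact Finset.sdiff_eq_self_of_disjoint (Finset.disjoint_left.2 htd)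
      have hlu := hup (t ∪ τe) hOK hsub1 he1
      refine ⟨RR.box σ (some c) (t ∪ τe) hOK, ⟨lt_of_le_not_ge hlu.1 ?_,
        lt_of_le_not_ge hlu.2 ?_⟩, henc⟩
      · exact fun h1 => RR.not_box_le_ee h1
      · intro h1
        rw [RR.box_le_box] at h1
        apply ht.2
        intro u hu
        rw [Finset.mem_sdiff] at hu
        rcases Finset.mem_union.1 (h1.2.2 hu.1) with h2 | h2
        · exact h2
        · exact absurd h2 hu.2
    · push Not at hab'
      have hte : ∀ u ∈ t, φ u ∉ e := by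
        intro u hu hue
        apply htd u hu
        rw [hτe, Finset.mem_filter]
        refine ⟨htτ hu, hue, ?_, ?_⟩
        · rintro rfl; exact hab'.1 hu
        · rintro rfl; exact hab'.2 hu
      have hsub1 : e ∪ t.image φ ⊆ τ.image φ :=
        Finset.union_subset hle (Finset.image_subset_image htτ)
      have hOK : EOK (q := q) c (e ∪ t.image φ) := by
        apply eok_of h hv
        rw [hφ]; exact hsub1
      have henc : τ.filter (fun u => φ u ∈ (e ∪ t.image φ) \ e) = t := by
        ext u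
        rw [Finset.mem_filter, Finset.mem_sdiff, Finset.mem_union]
        constructor
        · rintro ⟨h1, h2 | h2, h3⟩
          · exact absurd h2 h3
          · obtain ⟨u', hu', huu⟩ := Finset.mem_image.1 h2
            rw [huniq u u' h1 (htτ hu') huu.symm h3]
            exact hu'
        · intro hu
          exact ⟨htτ hu, Or.inr (Finset.mem_image_of_mem _ hu), hte u hu⟩
      have hlu := hlow (e ∪ t.image φ) hOK Finset.subset_union_left hsub1
      refine ⟨RR.ee c (e ∪ t.image φ) hOK, ⟨lt_of_le_not_ge hlu.1 ?_,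
        lt_of_le_not_ge hlu.2 ?_⟩, henc⟩
      · intro h1
        rw [RR.ee_le_ee] at h1
        exact hte u0 hu0 (h1.2 (Finset.mem_union_right _ (Finset.mem_image_of_mem _ hu0)))
      · exact fun h1 => RR.not_box_le_ee h1

theorem btw_ee_box {e : Finset G} (he : EOK (q := q) c e) {t : Option (G ⧸ Subgroup.zpowers s)}
    (h : BoxOK L σ t τ) (hlt : (RR.ee c e he : RR L) < RR.box σ t τ h) :
    Sph (Set.Ioo (RR.ee c e he : RR L) (RR.box σ t τ h))
      ((RR.box σ t τ h).rk - (RR.ee c e he : RR L).rk - 1) := by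
  obtain ⟨ht, hcap⟩ := RR.ee_le_box.1 hlt.le
  subst ht
  obtain ⟨v, hv⟩ := h.1
  have hle := (cap_iff h hv subset_rfl h.1 subset_rfl).1 hcap
  have hrk : (RR.box σ (some c) τ h).rk - (RR.ee c e he : RR L).rk - 1 =
      σ.card + τ.card - e.card - 1 := by
    unfold RR.rk
    simp
  rw [hrk]
  by_cases hA : ∀ u ∈ τ, ∀ u' ∈ τ, val s v u = val s v u' → val s v u ∈ e → u = u'
  · exact btw_A he h hv hle hA
  · push Not at hA
    obtain ⟨u, hu, u', hu', huu, hue, hne⟩ := hA
    rcases val_inj h hv hu hu' huu with h1 | ⟨h1, h2⟩ | ⟨h1, h2⟩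
    · exact absurd h1 hne
    · subst h1; subst h2
      exact btw_B he h hv hle hu hu' hne huu hue
    · subst h1; subst h2
      rw [huu] at hue
      exact btw_B he h hv hle hu' hu hne.symm huu.symm hue

end eebox

end Btw

variable {q : ℕ} {G : Type} [Group G] {s : G} {L : LCx q G s}

theorem RR.btw (z z' : RR L) (h : z < z') : Sph (Set.Ioo z z') (z'.rk - z.rk - 1) := by
  cases z with
  | kap => exact RR.jdown z' h
  | box σ t τ h1 =>
    cases z' with
    | kap => exact (RR.not_box_le_kap h.le).elim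
    | box σ' t' τ' h2 => exact Btw.btw_box_box h1 h2 h
    | ee c e h2 => exact (RR.not_box_le_ee h.le).elim
  | ee c e h1 =>
    cases z' with
    | kap => exact (RR.not_ee_le_kap h.le).elim
    | box σ t τ h2 => exact Btw.btw_ee_box h1 h2 h
    | ee c' e' h2 => exact Btw.btw_ee_ee h1 h2 h

end Pool.Agent.Helper59.PD
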