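import Pool.Agent.Helper59.PD.LCf

/-! Rank and finiteness properties of the thickening poset. -/

set_option autoImplicit false

open scoped Classical

namespace Pool.Agent.Helper59.PD

variable {q : ℕ} {G : Type} [Group G] {s : G} {L : LCx q G s}

namespace LcFinAux

theorem card_labs {σ : Finset (Vx q G)} {t : Option (G ⧸ Subgroup.zpowers s)}
    (h : IsA L σ t) : (labs σ t).card = σ.card + (if t = none then 0 else 1) := by
  unfold labs
  rw [Finset.card_union_of_disjoint, Finset.card_image_of_injOn]
  · congr 1
    split_ifs <;> simp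
  · intro v hv w hw hvw
    exact h.inj hv hw (Option.some.inj hvw)
  · rw [Finset.disjoint_left]
    intro x hx hx'
    rw [Finset.mem_image] at hx
    obtain ⟨v, _, rfl⟩ := hx
    split_ifs at hx' <;> simp at hx'

theorem card_cap {e : Finset G} {σ : Finset (Vx q G)} {τ : Finset (Option (ZMod (q + 2)))}
    (hσ : σ.Nonempty) (h : Cap s e σ τ) : e.card ≤ τ.card := by
  obtain ⟨v, hv⟩ := hσ
  have h1 : e ⊆ τ.image (fun o => match o with
    | none => 1
    | some u => ph s v u) := by
    intro x hx
    obtain ⟨u, hu, hux⟩ := h x hx v hv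
    rw [Finset.mem_image]
    exact ⟨some u, hu, hux⟩
  exact (Finset.card_le_card h1).trans Finset.card_image_le

end LcFinAux

open LcFinAux

theorem RR.rk_lt (a b : RR L) (h : a < b) : a.rk < b.rk := by
  have hle := h.le
  have hne := h.ne
  cases a with
  | kap =>
    cases b with
    | kap => exact absurd rfl hne
    | box σ t τ h' =>
      have h1 : 0 < τ.card := Finset.card_pos.2 hle
      have h2 : 0 < σ.card := Finset.card_pos.2 h'.1
      simp only [RR.rk]
      omega
    | ee c e h' => exact Finset.card_pos.2 hle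
  | box σ t τ h1 =>
    cases b with
    | kap => exact (RR.not_box_le_kap hle).elim
    | box σ' t' τ' h2 =>
      rw [RR.box_le_box] at hle
      have c1 := Finset.card_le_card hle.1
      have c2 := Finset.card_le_card hle.2.2
      have c3 : 0 < σ.card := Finset.card_pos.2 h1.1
      have c4 : (if t = none then 0 else 1) ≤ (if t' = none then 0 else 1) := by
        rcases hle.2.1 with h3 | h3
        · rw [if_pos h3]; exact Nat.zero_le _
        · rw [h3]
      simp only [RR.rk]
      by_contra hcon
      apply hne
      have d1 : σ = σ' := Finset.eq_of_subset_of_card_le hle.1 (by omega)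
      have d2 : τ = τ' := Finset.eq_of_subset_of_card_le hle.2.2 (by omega)
      have d3 : t = t' := by
        rcases hle.2.1 with h3 | h3
        · by_contra h4
          rw [if_pos h3, if_neg (fun h5 => h4 (h3.trans h5.symm))] at hcon
          omega
        · exact h3
      subst d1; subst d2; subst d3
      rfl
    | ee c e h2 => exact (RR.not_box_le_ee hle).elim
  | ee c e h1 =>
    cases b with
    | kap => exact (RR.not_ee_le_kap hle).elim
    | box σ t τ h2 =>
      rw [RR.ee_le_box] at hle
      have c1 := card_cap h2.1 hle.2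
      have c2 : 0 < σ.card := Finset.card_pos.2 h2.1
      have c3 : t ≠ none := by rw [hle.1]; simp
      simp only [RR.rk]
      rw [if_neg c3]
      omega
    | ee c' e' h2 =>
      rw [RR.ee_le_ee] at hle
      simp only [RR.rk]
      apply Finset.card_lt_card
      refine lt_of_le_of_ne hle.2 ?_
      intro h3
      apply hne
      obtain ⟨h4, _⟩ := hle
      subst h4; subst h3
      rfl

theorem RR.rk_le (a : RR L) : a.rk ≤ q + 1 := by
  cases a with
  | kap => exact Nat.zero_le _
  | box σ t τ h =>
    have h1 := card_labs h.2.1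
    have h2 : (labs σ t ∪ τ).card = (labs σ t).card + τ.card :=
      Finset.card_union_of_disjoint h.2.2.1
    have h3 : labs σ t ∪ τ ≠ Finset.univ := by
      intro h4
      apply h.2.2.2
      refine ⟨σ, t, h.2.1, ?_⟩
      apply Finset.Subset.antisymm
      · intro x hx
        have : x ∈ labs σ t ∪ τ := by rw [h4]; exact Finset.mem_univ x
        rw [Finset.mem_union] at this
        exact this.resolve_right (Finset.mem_compl.1 hx)
      · intro x hx
        rw [Finset.mem_compl]
        exact fun h5 => Finset.disjoint_left.1 h.2.2.1 hx h5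
    have h4 : (labs σ t ∪ τ).card < Fintype.card (Option (ZMod (q + 2))) :=
      (Finset.card_lt_iff_ne_univ _).2 h3
    rw [Fintype.card_option, ZMod.card] at h4
    simp only [RR.rk]
    omega
  | ee c e h =>
    have := h.2
    simp only [RR.rk]
    omega

theorem RR.Sp_min (k : RR L) (hk : k ∈ SpR L) (x : RR L) : ¬ x < k := by
  intro h
  have hle := h.le
  have hne := h.ne
  rcases hk with rfl | ⟨c, h1, rfl⟩
  · cases x with
    | kap => exact hne rfl
    | box σ t τ h' => exact RR.not_box_le_kap hle
    | ee c e h' => exact RR.not_ee_le_kap hle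
  · cases x with
    | kap =>
      rw [RR.kap_le_ee] at hle
      simp at hle
    | box σ t τ h' => exact RR.not_box_le_ee hle
    | ee c' e h' =>
      rw [RR.ee_le_ee] at hle
      obtain ⟨h2, h3⟩ := hle
      rw [Finset.subset_empty] at h3
      subst h2; subst h3
      exact hne rfl

theorem RR.Sp_smul (g : G) (k : RR L) (hk : k ∈ SpR L) : g • k ∈ SpR L := by
  rcases hk with rfl | ⟨c, h1, rfl⟩
  · exact Or.inl (RR.smul_kap g)
  · right
    have h2 : EOK (q := q) (s := s) (g • c) ∅ := by
      have := h1.smul g
      rwa [Finset.image_empty] at this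
    refine ⟨g • c, h2, ?_⟩
    rw [RR.smul_ee]
    congr 1

theorem RR.free (g : G) (x : RR L) (hx : x ∉ SpR L) (h : g • x = x) : g = 1 := by
  cases x with
  | kap => exact absurd (Or.inl rfl) hx
  | box σ t τ h' =>
    rw [RR.smul_box] at h
    have h1 : σ.image (trl g) = σ := by
      injection h
    obtain ⟨v, hv⟩ := h'.1
    have h2 : trl g v ∈ σ := by
      rw [← h1]
      exact Finset.mem_image_of_mem _ hv
    have h3 := h'.2.1.inj h2 hv rfl
    have h4 : g * v.1 = v.1 := congrArg Prod.fst h3
    exact mul_eq_right.1 h4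
  | ee c e h' =>
    rw [RR.smul_ee] at h
    have h1 : e.image (g * ·) = e := by
      injection h
    by_contra hg
    have hen : e.Nonempty := by
      rw [Finset.nonempty_iff_ne_empty]
      intro h2
      apply hx
      right
      subst h2
      exact ⟨c, h', rfl⟩
    obtain ⟨y, hy⟩ := hen
    have hmem : ∀ k : ℕ, g ^ k * y ∈ e := by
      intro k
      induction k with
      | zero => simpa using hy
      | succ k ih =>
        rw [← h1, Finset.mem_image]
        exact ⟨_, ih, by rw [pow_succ', mul_assoc]⟩
    have h2 : (QuotientGroup.mk (g * y) : G ⧸ Subgroup.zpowers s) = QuotientGroup.mk y := by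
      rw [h'.1 y hy]
      have := hmem 1
      rw [pow_one] at this
      exact h'.1 _ this
    rw [QuotientGroup.eq] at h2
    have hgq : g ^ q = 1 := by
      have h3 : ((g * y)⁻¹ * y) ^ q = 1 := by
        obtain ⟨m, hm⟩ := h2
        rw [← hm]
        simp only
        rw [← zpow_natCast, ← zpow_mul, mul_comm, zpow_mul, zpow_natCast, L.hs, one_zpow]
      have h4 : (g * y)⁻¹ * y = y⁻¹ * g⁻¹ * y := by group
      rw [h4] at h3
      have h5 : (y⁻¹ * g⁻¹ * y) ^ q = y⁻¹ * (g⁻¹) ^ q * y := by
        have := conj_pow (i := q) (a := y⁻¹) (b := g⁻¹)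
        rwa [inv_inv] at this
      rw [h5] at h3
      have h6 : (g⁻¹) ^ q = 1 := by
        have h7 : (g⁻¹) ^ q = y * (y⁻¹ * (g⁻¹) ^ q * y) * y⁻¹ := by group
        rw [h7, h3]; group
      rw [inv_pow, inv_eq_one] at h6
      exact h6
    have hord : orderOf g = q := orderOf_eq_prime_iff (hp := ⟨L.hq⟩) |>.2 ⟨hgq, hg⟩
    have hcard : q ≤ e.card := by
      have := Finset.card_le_card_of_injOn (s := Finset.range q) (t := e) (fun k => g ^ k * y)
        (fun k _ => hmem k) (by
          intro a ha b hb hab
          have hab' := mul_right_cancel hab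
          rw [Finset.coe_range] at ha hb
          rw [← hord] at ha hb
          exact pow_injOn_Iio_orderOf ha hb hab')
      rwa [Finset.card_range] at this
    have := h'.2
    omega

namespace LcFinAux

/-- code of an element -/
def code : RR L → Option ((Finset (Vx q G) × Option (G ⧸ Subgroup.zpowers s) ×
    Finset (Option (ZMod (q + 2)))) ⊕ ((G ⧸ Subgroup.zpowers s) × Finset G))
  | .kap => none
  | .box σ t τ _ => some (Sum.inl (σ, t, τ))
  | .ee c e _ => some (Sum.inr (c, e))

theorem code_inj : Function.Injective (code : RR L → _) := by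
  intro a b h
  cases a <;> cases b <;> simp_all [code]

theorem finite_sub {α : Type} {A : Set α} (hA : A.Finite) :
    {σ : Finset α | (σ : Set α) ⊆ A}.Finite := by
  apply Set.Finite.subset (hA.toFinset.powerset).finite_toSet
  intro σ hσ
  rw [Finset.mem_coe, Finset.mem_powerset]
  intro x hx
  rw [Set.Finite.mem_toFinset]
  exact hσ hx

/-- elements with bounded data -/
def Bd (L : LCx q G s) (A : Set (Vx q G)) (B : Set (Option (G ⧸ Subgroup.zpowers s)))
    (E : Set G) : Set (RR L) :=
  {y | (∀ σ t τ h, y = .box σ t τ h → (σ : Set (Vx q G)) ⊆ A ∧ t ∈ B) ∧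
    ∀ c e h, y = .ee c e h → (e : Set G) ⊆ E ∧ some c ∈ B}

theorem finite_Bd {A : Set (Vx q G)} {B : Set (Option (G ⧸ Subgroup.zpowers s))}
    {E : Set G} (hA : A.Finite) (hB : B.Finite) (hE : E.Finite) : (Bd L A B E).Finite := by
  have hW : ({none} ∪ (some ∘ Sum.inl) '' ({σ : Finset (Vx q G) | (σ : Set (Vx q G)) ⊆ A} ×ˢ
      (B ×ˢ (Set.univ : Set (Finset (Option (ZMod (q + 2))))))) ∪
      (some ∘ Sum.inr) '' ({c : G ⧸ Subgroup.zpowers s | some c ∈ B} ×ˢ
        {e : Finset G | (e : Set G) ⊆ E}) : Set (Option ((Finset (Vx q G) ×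
        Option (G ⧸ Subgroup.zpowers s) ×
    Finset (Option (ZMod (q + 2)))) ⊕ ((G ⧸ Subgroup.zpowers s) × Finset G)))).Finite := by
    refine ((Set.finite_singleton _).union ?_).union ?_
    · exact ((finite_sub hA).prod (hB.prod Set.finite_univ)).image _
    · refine (Set.Finite.prod ?_ (finite_sub hE)).image _
      exact hB.preimage (fun a _ b _ h => Option.some.inj h)
  refine (hW.preimage (code_inj (L := L)).injOn).subset ?_
  intro y hy
  rw [Set.mem_preimage]
  cases y with
  | kap => exact Or.inl (Or.inl rfl)
  | box σ t τ h =>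
    left; right
    have := hy.1 σ t τ h rfl
    exact ⟨(σ, t, τ), ⟨this.1, this.2, trivial⟩, rfl⟩
  | ee c e h =>
    right
    have := hy.2 c e h rfl
    exact ⟨(c, e), ⟨this.2, this.1⟩, rfl⟩

theorem finite_star (v : Vx q G) : {w : Vx q G | ({v, w} : Finset (Vx q G)) ∈ L.K}.Finite := by
  apply Set.Finite.of_finite_image (f := fun w : Vx q G => w.2) (Set.toFinite _)
  intro w hw w' hw' h
  exact L.uniq v w w' hw hw' h

theorem finite_coset (L : LCx q G s) (c : G ⧸ Subgroup.zpowers s) :
    {x : G | (QuotientGroup.mk x : G ⧸ Subgroup.zpowers s) = c}.Finite := by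
  obtain ⟨x0, rfl⟩ := QuotientGroup.mk_surjective c
  have hfin : (Subgroup.zpowers s : Set G).Finite := by
    have : IsOfFinOrder s := by
      rw [← orderOf_pos_iff, L.orderOf]
      exact L.hq.pos
    exact this.finite_zpowers
  refine (hfin.image (x0 * ·)).subset ?_
  intro x hx
  have h2 : x0⁻¹ * x ∈ Subgroup.zpowers s := by
    rw [← QuotientGroup.eq]; exact hx.symm
  exact ⟨x0⁻¹ * x, h2, by simp⟩

theorem box_star {σ : Finset (Vx q G)} {t : Option (G ⧸ Subgroup.zpowers s)}
    (h : IsA L σ t) {v : Vx q G} (hv : v ∈ σ) :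
    (σ : Set (Vx q G)) ⊆ {w : Vx q G | ({v, w} : Finset (Vx q G)) ∈ L.K} ∧
      t ∈ ({none, some (QuotientGroup.mk v.1)} : Set (Option (G ⧸ Subgroup.zpowers s))) := by
  constructor
  · intro w hw
    have h1 : IsA L ({v, w} : Finset (Vx q G)) none := by
      apply h.down _ (Or.inl rfl) (fun _ => by simp)
      intro x hx
      rw [Finset.mem_insert, Finset.mem_singleton] at hx
      rcases hx with rfl | rfl
      · exact hv
      · exact hw
    exact h1
  · rcases t with _ | c
    · left; rfl
    · right
      rw [Set.mem_singleton_iff, h.mk_eq hv]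

end LcFinAux

theorem RR.cofin (L : LCx q G s) :
    ∃ T : Set (RR L), T.Finite ∧ ∀ x, x ∉ SpR L → ∃ g : G, g • x ∈ T := by
  refine ⟨Bd L (⋃ i : ZMod (q + 2), {w : Vx q G | ({((1 : G), i), w} : Finset (Vx q G)) ∈ L.K})
    {none, some (QuotientGroup.mk 1)} {x | (QuotientGroup.mk x : G ⧸ Subgroup.zpowers s) =
      QuotientGroup.mk 1}, ?_, ?_⟩
  · apply finite_Bd
    · exact Set.finite_iUnion fun i => finite_star _
    · exact Set.toFinite _
    · exact finite_coset L _
  · intro x hx
    cases x with
    | kap => exact absurd (Or.inl rfl) hx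
    | box σ t τ h =>
      obtain ⟨v, hv⟩ := h.1
      refine ⟨v.1⁻¹, ?_⟩
      rw [RR.smul_box]
      have hv' : ((1 : G), v.2) ∈ σ.image (trl v.1⁻¹) := by
        rw [Finset.mem_image]
        exact ⟨v, hv, by simp [trl]⟩
      constructor
      · intro σ' t' τ' h' heq
        injection heq with e1 e2 e3
        have h2 := box_star (h.smul v.1⁻¹).2.1 hv'
        rw [e1, e2] at h2
        refine ⟨fun w hw => Set.mem_iUnion.2 ⟨v.2, h2.1 hw⟩, h2.2⟩
      · intro c e h' heq
        exact absurd heq (by simp)
    | ee c e h =>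
      have hen : e.Nonempty := by
        rw [Finset.nonempty_iff_ne_empty]
        intro h2
        apply hx
        right
        subst h2
        exact ⟨c, h, rfl⟩
      obtain ⟨y, hy⟩ := hen
      refine ⟨y⁻¹, ?_⟩
      rw [RR.smul_ee]
      have hc : y⁻¹ • c = (QuotientGroup.mk 1 : G ⧸ Subgroup.zpowers s) := by
        rw [← h.1 y hy]
        change (QuotientGroup.mk (y⁻¹ * y) : G ⧸ Subgroup.zpowers s) = _
        rw [inv_mul_cancel]
      constructor
      · intro σ' t' τ' h' heq
        exact absurd heq (by simp)
      · intro c' e' h' heq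
        injection heq with e1 e2
        refine ⟨?_, ?_⟩
        · intro z hz
          have := h'.1 z hz
          rw [← e1, hc] at this
          exact this
        · rw [← e1, hc]
          right; rfl

theorem RR.locfin (x : RR L) (hx : x ∉ SpR L) : {y : RR L | y ≤ x ∨ x ≤ y}.Finite := by
  cases x with
  | kap => exact absurd (Or.inl rfl) hx
  | box σ t τ h =>
    obtain ⟨v, hv⟩ := h.1
    apply (finite_Bd (L := L) (A := (σ : Set (Vx q G)) ∪ {w : Vx q G | ({v, w} :
      Finset (Vx q G)) ∈ L.K}) (B := {none, t, some (QuotientGroup.mk v.1)})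
      (E := {x | (QuotientGroup.mk x : G ⧸ Subgroup.zpowers s) = QuotientGroup.mk v.1})
      (σ.finite_toSet.union (finite_star v)) (Set.toFinite _) (finite_coset L _)).subset
    rintro y (hy | hy)
    · constructor
      · rintro σ' t' τ' h' rfl
        rw [RR.box_le_box] at hy
        refine ⟨fun w hw => Or.inl (hy.1 hw), ?_⟩
        rcases hy.2.1 with h2 | h2
        · left; exact h2
        · right; left; exact h2
      · rintro c e h' rfl
        rw [RR.ee_le_box] at hy
        have hc : c = QuotientGroup.mk v.1 := by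
          have h3 := h.2.1
          rw [hy.1] at h3
          exact (h3.mk_eq hv).symm
        refine ⟨?_, ?_⟩
        · intro z hz
          rw [Set.mem_ofPred_eq, ← hc]
          exact h'.1 z hz
        · right; left; exact hy.1.symm
    · constructor
      · rintro σ' t' τ' h' rfl
        rw [RR.box_le_box] at hy
        have h2 := box_star h'.2.1 (hy.1 hv)
        refine ⟨fun w hw => Or.inr (h2.1 hw), ?_⟩
        rcases h2.2 with h3 | h3
        · left; exact h3
        · right; right; exact h3
      · rintro c e h' rfl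
        exact (RR.not_box_le_ee hy).elim
  | ee c e h =>
    have hen : e.Nonempty := by
      rw [Finset.nonempty_iff_ne_empty]
      intro h2
      apply hx
      right
      subst h2
      exact ⟨c, h, rfl⟩
    have hA : {v : Vx q G | (QuotientGroup.mk v.1 : G ⧸ Subgroup.zpowers s) = c}.Finite := by
      refine ((finite_coset L c).prod (Set.finite_univ (α := ZMod (q + 2)))).subset ?_
      intro v hv
      exact ⟨hv, trivial⟩
    apply (finite_Bd (L := L) (A := {v : Vx q G | (QuotientGroup.mk v.1 :
      G ⧸ Subgroup.zpowers s) = c}) (B := {some c})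
      (E := {x | (QuotientGroup.mk x : G ⧸ Subgroup.zpowers s) = c})
      hA (Set.toFinite _) (finite_coset L _)).subset
    rintro y (hy | hy)
    · constructor
      · rintro σ' t' τ' h' rfl
        exact (RR.not_box_le_ee hy).elim
      · rintro c' e' h' rfl
        rw [RR.ee_le_ee] at hy
        refine ⟨?_, ?_⟩
        · intro z hz
          rw [Set.mem_ofPred_eq, ← hy.1]
          exact h'.1 z hz
        · rw [hy.1]; rfl
    · constructor
      · rintro σ' t' τ' h' rfl
        rw [RR.ee_le_box] at hy
        refine ⟨?_, ?_⟩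
        · intro w hw
          have h3 := h'.2.1
          rw [hy.1] at h3
          exact h3.mk_eq hw
        · rw [hy.1]; rfl
      · rintro c' e' h' rfl
        rw [RR.ee_le_ee] at hy
        refine ⟨?_, ?_⟩
        · intro z hz
          rw [Set.mem_ofPred_eq, hy.1]
          exact h'.1 z hz
        · rw [← hy.1]; rfl

end Pool.Agent.Helper59.PD
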