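import Pool.Agent.Helper59.PD.LcE
import Pool.Agent.Helper59.PD.LcFin

/-! Connectivity of the thickening poset minus the special elements. -/

set_option autoImplicit false

open scoped Classical

namespace Pool.Agent.Helper59.PD

variable {q : ℕ} {G : Type} [Group G] {s : G} {L : LCx q G s}

namespace LcConn

/-- the set of all labels is not the label set of a simplex -/
theorem univ_not_AL (L : LCx q G s) : (∅ : Finset (Option (ZMod (q + 2))))ᶜ ∉ AL L := by
  rintro ⟨σ, t, h, h2⟩
  rw [Finset.compl_empty] at h2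
  have hne : σ.Nonempty := by
    have h3 : some (0 : ZMod (q + 2)) ∈ labs σ t := by
      rw [← h2]; exact Finset.mem_univ _
    obtain ⟨v, hv, _⟩ := some_mem_labs.1 h3
    exact ⟨v, hv⟩
  have h1 : IsA L σ none := h.down subset_rfl (Or.inl rfl) (fun _ => hne)
  obtain ⟨u, hu⟩ := L.notall σ h1
  have h3 : some u ∈ labs σ t := by
    rw [← h2]; exact Finset.mem_univ _
  obtain ⟨v, hv, hvu⟩ := some_mem_labs.1 h3
  exact hu v hv hvu

theorem box_ok {σ : Finset (Vx q G)} {t : Option (G ⧸ Subgroup.zpowers s)}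
    (h : IsA L σ t) (hne : σ.Nonempty) : BoxOK L σ t ∅ :=
  ⟨hne, h, Finset.disjoint_empty_right _, univ_not_AL L⟩

theorem ee_ok (L : LCx q G s) (c : G ⧸ Subgroup.zpowers s) : EOK (q := q) c ∅ :=
  ⟨fun x hx => absurd hx (Finset.notMem_empty x), by
    rw [Finset.card_empty]; exact L.hq.pos⟩

/-- the retraction -/
def rr : RR L → RR L
  | .kap => .kap
  | .box σ t _ h => .box σ t ∅ (box_ok h.2.1 h.1)
  | .ee c _ _ => .ee c ∅ (ee_ok L c)

/-- everything but `kap` -/
def TT (L : LCx q G s) : Set (RR L) := {x | x ≠ .kap}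

/-- elements with empty second part -/
def TR (L : LCx q G s) : Set (RR L) :=
  {x | x ≠ .kap ∧ rr x = x}

theorem rr_le (x : RR L) : rr x ≤ x := by
  cases x with
  | kap => exact le_refl _
  | box σ t τ h => exact RR.box_le_box.2 ⟨subset_rfl, Or.inr rfl, Finset.empty_subset _⟩
  | ee c e h => exact RR.ee_le_ee.2 ⟨rfl, Finset.empty_subset _⟩

theorem rr_mono (x y : RR L) (hx : x ≠ .kap) (h : x ≤ y) : rr x ≤ rr y := by
  cases x with
  | kap => exact absurd rfl hx
  | box σ t τ h1 =>
    cases y with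
    | kap => exact (RR.not_box_le_kap h).elim
    | box σ' t' τ' h' =>
      have h2 := RR.box_le_box.1 h
      exact RR.box_le_box.2 ⟨h2.1, h2.2.1, subset_rfl⟩
    | ee c e h' => exact (RR.not_box_le_ee h).elim
  | ee c e h1 =>
    cases y with
    | kap => exact (RR.not_ee_le_kap h).elim
    | box σ t τ h' =>
      have h2 := RR.ee_le_box.1 h
      exact RR.ee_le_box.2 ⟨h2.1, fun x hx => absurd hx (Finset.notMem_empty x)⟩
    | ee c' e' h' =>
      have h2 := RR.ee_le_ee.1 h
      exact RR.ee_le_ee.2 ⟨h2.1, subset_rfl⟩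

theorem rr_ne (x : RR L) (hx : x ≠ .kap) : rr x ≠ .kap := by
  cases x with
  | kap => exact absurd rfl hx
  | box σ t τ h => intro h2; simp [rr] at h2
  | ee c e h => intro h2; simp [rr] at h2

theorem rr_rr (x : RR L) : rr (rr x) = rr x := by
  cases x with
  | kap => rfl
  | box σ t τ h => rfl
  | ee c e h => rfl

theorem finHt (L : LCx q G s) (S : Set (RR L)) : FinHtOn S :=
  ⟨q + 1, RR.rk, fun x _ y _ h => RR.rk_lt x y h, fun x _ => RR.rk_le x⟩

/-- the map to the face poset -/
def toS : RR L → Smp q G s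
  | .kap => ⟨∅, none⟩
  | .box σ t _ _ => ⟨σ, t⟩
  | .ee c _ _ => ⟨∅, some c⟩

theorem smp_le (a b : Smp q G s) : a ≤ b ↔ a.σ ⊆ b.σ ∧ (a.t = none ∨ a.t = b.t) := Iff.rfl

theorem toS_le (x y : RR L) (hx : x ∈ TR L) (hy : y ∈ TR L) : x ≤ y ↔ toS x ≤ toS y := by
  obtain ⟨hx1, hx2⟩ := hx
  obtain ⟨hy1, hy2⟩ := hy
  cases x with
  | kap => exact absurd rfl hx1
  | box σ t τ h =>
    cases y with
    | kap => exact absurd rfl hy1
    | box σ' t' τ' h' =>
      have e1 : ∅ = τ := by
        simp only [rr] at hx2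
        exact (RR.box.inj hx2).2.2
      have e2 : ∅ = τ' := by
        simp only [rr] at hy2
        exact (RR.box.inj hy2).2.2
      subst e1; subst e2
      rw [RR.box_le_box, smp_le]
      simp [toS]
    | ee c' e' h' =>
      constructor
      · intro h2
        exact (RR.not_box_le_ee h2).elim
      · intro h2
        rw [smp_le] at h2
        simp only [toS] at h2
        have := Finset.subset_empty.1 h2.1
        exact absurd h.1 (by rw [this]; simp)
  | ee c e h =>
    have e1 : ∅ = e := by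
      simp only [rr] at hx2
      exact (RR.ee.inj hx2).2
    subst e1
    cases y with
    | kap => exact absurd rfl hy1
    | box σ' t' τ' h' =>
      rw [RR.ee_le_box, smp_le]
      simp only [toS, Finset.empty_subset, true_and]
      constructor
      · intro h2
        exact Or.inr h2.1.symm
      · rintro (h2 | h2)
        · simp at h2
        · exact ⟨h2.symm, fun x hx => absurd hx (Finset.notMem_empty x)⟩
    | ee c' e' h' =>
      have e2 : ∅ = e' := by
        simp only [rr] at hy2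
        exact (RR.ee.inj hy2).2
      subst e2
      rw [RR.ee_le_ee, smp_le]
      simp [toS]

theorem toS_bij (L : LCx q G s) : Set.BijOn (toS : RR L → Smp q G s) (TR L) (AA L) := by
  refine ⟨?_, ?_, ?_⟩
  · rintro x ⟨hx1, hx2⟩
    cases x with
    | kap => exact absurd rfl hx1
    | box σ t τ h => exact h.2.1
    | ee c e h => exact Or.inl rfl
  · intro x hx y hy hxy
    exact le_antisymm ((toS_le x y hx hy).2 hxy.le) ((toS_le y x hy hx).2 hxy.ge)
  · rintro ⟨σ, t⟩ (h : IsA L σ t)
    rcases Finset.eq_empty_or_nonempty σ with h1 | h1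
    · subst h1
      cases t with
      | none => exact absurd (L.ne _ h) (by simp)
      | some c =>
        exact ⟨RR.ee c ∅ (ee_ok L c), ⟨by intro h2; simp at h2, rfl⟩, rfl⟩
    · exact ⟨RR.box σ t ∅ (box_ok h h1), ⟨by intro h2; simp at h2, rfl⟩, rfl⟩

theorem heq (L : LCx q G s) : HEq' (TT L) (AA L) := by
  have h1 : HEq' (TT L) (TR L) := by
    refine HEq'.retract_down (finHt L _) (fun x hx => hx.1) rr ?_ (fun x hx => hx.2) ?_ ?_
    · intro x hx
      exact ⟨rr_ne x hx, rr_rr x⟩
    · intro x hx y hy hxy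
      exact rr_mono x y hx hxy
    · intro x _
      exact rr_le x
  refine h1.trans (HEq'.of_iso toS (toS_bij L) ?_)
  intro x hx y hy
  rw [lt_iff_le_not_ge, lt_iff_le_not_ge, toS_le x y hx hy, toS_le y x hy hx]

/-- the special elements different from `kap` -/
def NN (L : LCx q G s) : Set (RR L) := {a | ∃ c h, a = RR.ee c ∅ h}

theorem union_eq (L : LCx q G s) : ((SpR L)ᶜ : Set (RR L)) ∪ NN L = TT L := by
  ext x
  constructor
  · rintro (hx | ⟨c, h, rfl⟩)
    · intro h
      exact hx (Or.inl h)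
    · intro h2
      simp at h2
  · intro hx
    by_cases h : x ∈ NN L
    · exact Or.inr h
    · left
      rintro (h2 | h2)
      · exact hx h2
      · exact h h2

theorem NN_anti (L : LCx q G s) : ∀ x ∈ NN L, ∀ y ∈ NN L, ¬ x < y := by
  rintro x ⟨c, h, rfl⟩ y ⟨c', h', rfl⟩ hlt
  have h1 := RR.ee_le_ee.1 hlt.le
  have h2 := h1.1
  subst h2
  exact lt_irrefl _ hlt

theorem disj (L : LCx q G s) : Disjoint ((SpR L)ᶜ : Set (RR L)) (NN L) := by
  rw [Set.disjoint_left]
  intro x hx hx2
  exact hx (Or.inr hx2)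

theorem lk_eq {c : G ⧸ Subgroup.zpowers s} (h : EOK (q := q) c ∅) :
    Lk ((SpR L)ᶜ : Set (RR L)) (RR.ee c ∅ h) = Set.Ioi (RR.ee c ∅ h : RR L) := by
  ext y
  constructor
  · rintro ⟨hy, h1 | h1⟩
    · exact absurd h1 (RR.Sp_min _ (Or.inr ⟨c, h, rfl⟩) y)
    · exact h1
  · intro h1
    refine ⟨?_, Or.inr h1⟩
    intro hy
    exact RR.Sp_min y hy _ h1

end LcConn

open LcConn in
theorem RR.conn_sc (h : WC (AA L)) : SC ((SpR L)ᶜ : Set (RR L)) := by
  have h1 : WC (TT L) := (heq L).wc.2 h
  refine SC.remove (NN_anti L) (disj L) ?_ ?_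
  · rw [union_eq]
    exact h1.2
  · rintro x ⟨c, hc, rfl⟩
    rw [lk_eq]
    exact RR.sc_up_ee hc

open LcConn in
theorem RR.conn_van (h : WC (AA L)) (k : ℕ) (hk : k < q + 1) :
    Hvan ((SpR L)ᶜ : Set (RR L)) k := by
  have h1 : WC (TT L) := (heq L).wc.2 h
  refine Hvan.remove (NN_anti L) (disj L) k ?_ ?_
  · rw [union_eq]
    exact h1.1 k
  · rintro x ⟨c, hc, rfl⟩
    rw [lk_eq]
    refine (RR.up_ee hc).hvan ?_
    rw [Finset.card_empty]
    omega

end Pool.Agent.Helper59.PD
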