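import Pool.Agent.Helper59.PD.LCf
import Pool.Agent.Helper59.PD.Lib

/-! Lower links of the thickening poset. -/

set_option autoImplicit false
set_option linter.unusedSectionVars false

open scoped Classical

namespace Pool.Agent.Helper59.PD

variable {q : ℕ} {G : Type} [Group G] {s : G} {L : LCx q G s}

noncomputable section

namespace LcD

/-! ### label sets -/

theorem al_down {ρ ρ' : Finset (Option (ZMod (q + 2)))} (h : ρ ∈ AL L) (hs : ρ' ⊆ ρ)
    (hne : ρ'.Nonempty) : ρ' ∈ AL L := by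
  obtain ⟨σ, t, hA, rfl⟩ := h
  refine ⟨σ.filter (fun v => some v.2 ∈ ρ'), if none ∈ ρ' then t else none, ?_, ?_⟩
  · apply hA.down (Finset.filter_subset _ _)
    · by_cases h : none ∈ ρ'
      · right; rw [if_pos h]
      · left; rw [if_neg h]
    · intro ht
      obtain ⟨a, ha⟩ := hne
      have hmem := hs ha
      rcases a with _ | u
      · exfalso
        rw [if_pos ha] at ht
        rw [none_mem_labs] at hmem
        exact hmem ht
      · rw [some_mem_labs] at hmem
        obtain ⟨v, hv, rfl⟩ := hmem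
        exact ⟨v, Finset.mem_filter.2 ⟨hv, ha⟩⟩
  · ext a
    rcases a with _ | u
    · rw [none_mem_labs]
      constructor
      · intro ha
        rw [if_pos ha]
        exact none_mem_labs.1 (hs ha)
      · intro ha
        by_contra hn
        rw [if_neg hn] at ha
        exact ha rfl
    · rw [some_mem_labs]
      constructor
      · intro ha
        obtain ⟨v, hv, rfl⟩ := some_mem_labs.1 (hs ha)
        exact ⟨v, Finset.mem_filter.2 ⟨hv, ha⟩, rfl⟩
      · rintro ⟨v, hv, rfl⟩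
        exact (Finset.mem_filter.1 hv).2

theorem labs_mono {σ σ' : Finset (Vx q G)} {t t' : Option (G ⧸ Subgroup.zpowers s)}
    (hσ : σ' ⊆ σ) (ht : t' = none ∨ t' = t) : labs σ' t' ⊆ labs σ t := by
  intro a ha
  rcases a with _ | u
  · rw [none_mem_labs] at ha ⊢
    rcases ht with h | h
    · exact absurd h ha
    · rwa [← h]
  · rw [some_mem_labs] at ha ⊢
    obtain ⟨v, hv, h⟩ := ha
    exact ⟨v, hσ hv, h⟩

theorem ok_sub {σ σ' : Finset (Vx q G)} {t t' : Option (G ⧸ Subgroup.zpowers s)}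
    {τ τ' : Finset (Option (ZMod (q + 2)))} (h : BoxOK L σ t τ) (hσ : σ' ⊆ σ)
    (hne : σ'.Nonempty) (ht : t' = none ∨ t' = t) (hτ : τ' ⊆ τ) : BoxOK L σ' t' τ' := by
  refine ⟨hne, h.2.1.down hσ ht fun _ => hne, ?_, ?_⟩
  · exact Finset.disjoint_of_subset_left (labs_mono hσ ht)
      (Finset.disjoint_of_subset_right hτ h.2.2.1)
  · intro hal
    apply h.2.2.2
    apply al_down hal (Finset.compl_subset_compl.2 hτ)
    obtain ⟨v, hv⟩ := h.1
    refine ⟨some v.2, ?_⟩
    rw [Finset.mem_compl]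
    intro hm
    exact h.not_mem hm (some_mem_labs.2 ⟨v, hv, rfl⟩)

/-! ### the values -/

/-- the values of the labels in `τ` seen from `σ` -/
def phs (s : G) (σ : Finset (Vx q G)) (τ : Finset (Option (ZMod (q + 2)))) : Finset G :=
  σ.biUnion fun v => (Finset.univ.filter fun u : ZMod (q + 2) => some u ∈ τ).image (ph s v)

theorem mem_phs {σ : Finset (Vx q G)} {τ : Finset (Option (ZMod (q + 2)))} {x : G} :
    x ∈ phs s σ τ ↔ ∃ v ∈ σ, ∃ u, some u ∈ τ ∧ ph s v u = x := by
  unfold phs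
  simp

theorem phs_mono {σ σ' : Finset (Vx q G)} {τ τ' : Finset (Option (ZMod (q + 2)))}
    (hσ : σ ⊆ σ') (hτ : τ ⊆ τ') : phs s σ τ ⊆ phs s σ' τ' := by
  intro x hx
  rw [mem_phs] at hx ⊢
  obtain ⟨v, hv, u, hu, h⟩ := hx
  exact ⟨v, hσ hv, u, hτ hu, h⟩

theorem cap_iff {σ : Finset (Vx q G)} {c : G ⧸ Subgroup.zpowers s}
    {τ : Finset (Option (ZMod (q + 2)))} (h : BoxOK L σ (some c) τ) {e : Finset G} :
    Cap s e σ τ ↔ e ⊆ phs s σ τ := by
  constructor
  · intro hc x hx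
    obtain ⟨v, hv⟩ := h.1
    obtain ⟨u, hu, hux⟩ := hc x hx v hv
    exact mem_phs.2 ⟨v, hv, u, hu, hux⟩
  · intro hc x hx v hv
    obtain ⟨w, hw, u, hu, hux⟩ := mem_phs.1 (hc hx)
    refine ⟨u, hu, ?_⟩
    rw [← hux]
    exact h.2.1.ph_eq hv hw (h.not_mem hu)

theorem phs_ne {σ : Finset (Vx q G)} {c : G ⧸ Subgroup.zpowers s}
    {τ : Finset (Option (ZMod (q + 2)))} (h : BoxOK L σ (some c) τ) (hτ : τ.Nonempty) :
    (phs s σ τ).Nonempty := by
  obtain ⟨a, ha⟩ := hτ
  obtain ⟨v, hv⟩ := h.1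
  rcases a with _ | u
  · exact absurd (none_mem_labs.2 (by simp)) (h.not_mem ha)
  · exact ⟨_, mem_phs.2 ⟨v, hv, u, ha, rfl⟩⟩

/-- the coset of `v` -/
def cst (s : G) (q : ℕ) (g : G) : Finset G := (Finset.range q).image fun i => g * s ^ i

theorem cst_card (L : LCx q G s) (g : G) : (cst s q g).card ≤ q := by
  have := Finset.card_image_le (s := Finset.range q) (f := fun i => g * s ^ i)
  rwa [Finset.card_range] at this

theorem mem_cst (L : LCx q G s) (g x : G)
    (h : (QuotientGroup.mk x : G ⧸ Subgroup.zpowers s) = QuotientGroup.mk g) :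
    x ∈ cst s q g := by
  rw [eq_comm, QuotientGroup.eq] at h
  obtain ⟨m, hm⟩ := h
  have hq0 : 0 < q := L.hq.pos
  refine Finset.mem_image.2 ⟨(m % q).toNat, ?_, ?_⟩
  · rw [Finset.mem_range]
    have h1 : 0 ≤ m % (q : ℤ) := Int.emod_nonneg _ (by omega)
    have h2 : m % (q : ℤ) < q := Int.emod_lt_of_pos _ (by omega)
    omega
  · have h1 : 0 ≤ m % (q : ℤ) := Int.emod_nonneg _ (by omega)
    have h2 : s ^ (((m % (q : ℤ)).toNat : ℕ) : ℤ) = s ^ m := by
      rw [Int.toNat_of_nonneg h1, ← L.orderOf, zpow_mod_orderOf]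
    rw [zpow_natCast] at h2
    change g * s ^ (m % (q : ℤ)).toNat = x
    rw [h2]
    change s ^ m = _ at hm
    rw [hm, mul_inv_cancel_left]

theorem phs_mk {σ : Finset (Vx q G)} {c : G ⧸ Subgroup.zpowers s}
    {τ : Finset (Option (ZMod (q + 2)))} (h : BoxOK L σ (some c) τ) {x : G}
    (hx : x ∈ phs s σ τ) : (QuotientGroup.mk x : G ⧸ Subgroup.zpowers s) = c := by
  obtain ⟨v, hv, u, _, rfl⟩ := mem_phs.1 hx
  rw [ph_mk, h.2.1.mk_eq hv]

theorem phs_card {σ : Finset (Vx q G)} {c : G ⧸ Subgroup.zpowers s}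
    {τ : Finset (Option (ZMod (q + 2)))} (h : BoxOK L σ (some c) τ) :
    (phs s σ τ).card < q := by
  by_contra hlt
  push Not at hlt
  obtain ⟨v, hv⟩ := h.1
  have hvc : (QuotientGroup.mk v.1 : G ⧸ Subgroup.zpowers s) = c := h.2.1.mk_eq hv
  have hsub : phs s σ τ ⊆ cst s q v.1 := fun x hx => mem_cst L _ _ (by rw [phs_mk h hx, hvc])
  have heq : phs s σ τ = cst s q v.1 :=
    Finset.eq_of_subset_of_card_le hsub ((cst_card L _).trans hlt)
  have hall : ∀ x : G, (QuotientGroup.mk x : G ⧸ Subgroup.zpowers s) = QuotientGroup.mk v.1 →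
      ∃ u, some u ∈ τ ∧ ph s v u = x := by
    intro x hx
    have : x ∈ phs s σ τ := by rw [heq]; exact mem_cst L _ _ hx
    obtain ⟨w, hw, u, hu, hux⟩ := mem_phs.1 this
    refine ⟨u, hu, ?_⟩
    rw [← hux]
    exact h.2.1.ph_eq hv hw (h.not_mem hu)
  have hne : ∀ u, some u ∈ τ → u ≠ v.2 := by
    rintro u hu rfl
    exact h.not_mem hu (some_mem_labs.2 ⟨v, hv, rfl⟩)
  have hnone : none ∉ τ := fun hn => h.not_mem hn (none_mem_labs.2 (by simp))
  have hvn : some v.2 ∉ τ := fun hn => hne _ hn rfl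
  have hmost : ∀ u, u ≠ v.2 → u ≠ v.2 + 1 → u ≠ v.2 - 1 → some u ∈ τ := by
    intro u h0 h1 h2
    obtain ⟨u', hu', hp⟩ := hall (ph s v u) (ph_mk v u)
    rcases L.ph_inj v u' u (hne _ hu') h0 hp with h3 | h3 | h3
    · rwa [← h3]
    · exact absurd h3.2 h2
    · exact absurd h3.2 h1
  have hnb : some (v.2 + 1) ∈ τ ∨ some (v.2 - 1) ∈ τ := by
    obtain ⟨u', hu', hp⟩ := hall (ph s v (v.2 + 1)) (ph_mk v _)
    have h1 : v.2 + 1 ≠ v.2 := by
      intro h
      exact L.nxt_ne v (by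
        have h2 := L.nxt_ne v
        exfalso
        have h3 : (1 : ZMod (q + 2)) = 0 := by simpa using h
        have h1v : (1 : ZMod (q + 2)).val = 1 := ZMod.val_one'' (by omega)
        rw [h3, ZMod.val_zero] at h1v
        omega)
    rcases L.ph_inj v u' _ (hne _ hu') h1 hp with h3 | h3 | h3
    · left; rwa [← h3]
    · left; rw [← h3.1]; exact hu'
    · right; rw [← h3.1]; exact hu'
  apply h.2.2.2
  have key : ∀ w : Vx q G, (w = v ∨ nxt s w = v) →
      (w = v → some (v.2 + 1) ∉ τ ∧ some (v.2 - 1) ∈ τ) →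
      (nxt s w = v → some (v.2 - 1) ∉ τ ∧ some (v.2 + 1) ∈ τ) → τᶜ ∈ AL L := by
    intro w hw h1 h2
    refine ⟨{w, nxt s w}, some c, Or.inr ⟨w, ?_, Or.inr rfl⟩, ?_⟩
    · rcases hw with hw | hw
      · rw [hw, hvc]
      · rw [← L.nxt_mk w, hw, hvc]
    · ext a
      rw [Finset.mem_compl]
      rcases a with _ | u
      · rw [none_mem_labs]
        simp [hnone]
      · rw [some_mem_labs]
        simp only [Finset.mem_insert, Finset.mem_singleton, exists_eq_or_imp, exists_eq_left]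
        rcases hw with hw | hw
        · subst hw
          obtain ⟨h3, h4⟩ := h1 rfl
          constructor
          · intro hu
            by_contra hcon
            push Not at hcon
            apply hu
            by_cases h5 : u = w.2 - 1
            · rw [h5]; exact h4
            · exact hmost u (Ne.symm hcon.1) (Ne.symm hcon.2) h5
          · rintro (rfl | rfl)
            · exact hvn
            · exact h3
        · obtain ⟨h3, h4⟩ := h2 hw
          have hw2 : w.2 + 1 = v.2 := congrArg Prod.snd hw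
          have hw3 : w.2 = v.2 - 1 := by rw [← hw2]; ring
          rw [hw3, hw]
          constructor
          · intro hu
            by_contra hcon
            push Not at hcon
            apply hu
            by_cases h5 : u = v.2 + 1
            · rw [h5]; exact h4
            · exact hmost u (Ne.symm hcon.2) h5 (Ne.symm hcon.1)
          · rintro (rfl | rfl)
            · exact h3
            · exact hvn
  by_cases hp : some (v.2 + 1) ∈ τ
  · by_cases hm : some (v.2 - 1) ∈ τ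
    · refine ⟨{v}, some c, Or.inr ⟨v, hvc, Or.inl rfl⟩, ?_⟩
      ext a
      rw [Finset.mem_compl]
      rcases a with _ | u
      · rw [none_mem_labs]
        simp [hnone]
      · rw [some_mem_labs]
        simp only [Finset.mem_singleton, exists_eq_left]
        constructor
        · intro hu
          by_contra hcon
          apply hu
          by_cases h5 : u = v.2 + 1
          · rw [h5]; exact hp
          by_cases h6 : u = v.2 - 1
          · rw [h6]; exact hm
          exact hmost u (Ne.symm hcon) h5 h6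
        · rintro rfl
          exact hvn
    · -- the previous vertex
      have hprev : ∃ w : Vx q G, nxt s w = v := by
        by_cases hz : v.2 = 0
        · refine ⟨(v.1 * s⁻¹, -1), ?_⟩
          unfold nxt
          refine Prod.ext ?_ ?_
          · simp
          · simp [hz]
        · refine ⟨(v.1, v.2 - 1), ?_⟩
          unfold nxt
          have : v.2 - 1 ≠ -1 := by
            intro h'
            apply hz
            have := congrArg (· + 1) h'
            simpa using this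
          refine Prod.ext ?_ ?_
          · simp [this]
          · simp
      obtain ⟨w, hw⟩ := hprev
      refine key w (Or.inr hw) ?_ fun _ => ⟨hm, hp⟩
      intro hwv
      rw [hwv] at hw
      exact absurd hw (L.nxt_ne v)
  · refine key v (Or.inl rfl) (fun _ => ⟨hp, hnb.resolve_left hp⟩) ?_
    intro hwv
    exact absurd hwv (L.nxt_ne v)

theorem phs_eok {σ : Finset (Vx q G)} {c : G ⧸ Subgroup.zpowers s}
    {τ : Finset (Option (ZMod (q + 2)))} (h : BoxOK L σ (some c) τ) :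
    EOK (q := q) c (phs s σ τ) :=
  ⟨fun _ hx => phs_mk h hx, phs_card h⟩

/-! ### ranks -/

theorem box_lt {σ t τ} {h : BoxOK L σ t τ} {σ' t' τ'} {h' : BoxOK L σ' t' τ'} :
    RR.box σ t τ h < RR.box σ' t' τ' h' ↔ (σ ⊆ σ' ∧ (t = none ∨ t = t') ∧ τ ⊆ τ') ∧
      ¬ (σ = σ' ∧ t = t' ∧ τ = τ') := by
  rw [lt_iff_le_and_ne, RR.box_le_box]
  apply and_congr_right
  intro _
  simp

theorem ee_lt {c e c' e'} {h : EOK (q := q) (s := s) c e} {h' : EOK (q := q) c' e'} :
    (RR.ee c e h : RR L) < RR.ee c' e' h' ↔ c = c' ∧ e ⊂ e' := by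
  rw [lt_iff_le_and_ne, RR.ee_le_ee, Finset.ssubset_iff_subset_ne]
  constructor
  · rintro ⟨⟨rfl, h2⟩, h3⟩
    refine ⟨rfl, h2, ?_⟩
    rintro rfl
    exact h3 rfl
  · rintro ⟨rfl, h2, h3⟩
    refine ⟨⟨rfl, h2⟩, ?_⟩
    intro h4
    rw [RR.ee.injEq] at h4
    exact h3 h4.2

theorem ee_lt_box {c e} {h : EOK (q := q) (s := s) c e} {σ t τ} {h' : BoxOK L σ t τ} :
    (RR.ee c e h : RR L) < RR.box σ t τ h' ↔ t = some c ∧ Cap s e σ τ := by
  rw [lt_iff_le_and_ne, RR.ee_le_box]
  simp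

theorem kap_lt_box {σ t τ} {h' : BoxOK L σ t τ} :
    (RR.kap : RR L) < RR.box σ t τ h' ↔ τ.Nonempty := by
  rw [lt_iff_le_and_ne, RR.kap_le_box]
  simp

theorem kap_lt_ee {c e} {h : EOK (q := q) (s := s) c e} :
    (RR.kap : RR L) < RR.ee c e h ↔ e.Nonempty := by
  rw [lt_iff_le_and_ne, RR.kap_le_ee]
  simp

theorem not_lt_kap (x : RR L) : ¬ x < RR.kap := by
  intro h
  cases x with
  | kap => exact lt_irrefl _ h
  | box σ t τ h' => exact RR.not_box_le_kap h.le
  | ee c e h' => exact RR.not_ee_le_kap h.le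

theorem not_box_lt_ee {c e} {h : EOK (q := q) c e} {σ t τ} {h' : BoxOK L σ t τ} :
    ¬ RR.box σ t τ h' < RR.ee c e h := fun h => RR.not_box_le_ee h.le

theorem phs_card_le {σ : Finset (Vx q G)} {c : G ⧸ Subgroup.zpowers s}
    {τ : Finset (Option (ZMod (q + 2)))} (h : BoxOK L σ (some c) τ) :
    (phs s σ τ).card ≤ τ.card := by
  obtain ⟨v, hv⟩ := h.1
  have h1 : phs s σ τ ⊆ (Finset.univ.filter fun u : ZMod (q + 2) => some u ∈ τ).image (ph s v) := by
    intro x hx
    obtain ⟨w, hw, u, hu, hux⟩ := mem_phs.1 hx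
    refine Finset.mem_image.2 ⟨u, Finset.mem_filter.2 ⟨Finset.mem_univ _, hu⟩, ?_⟩
    rw [← hux]
    exact h.2.1.ph_eq hv hw (h.not_mem hu)
  refine (Finset.card_le_card h1).trans (Finset.card_image_le.trans ?_)
  rw [← Finset.card_image_of_injective _ (Option.some_injective (ZMod (q + 2)))]
  apply Finset.card_le_card
  intro a ha
  obtain ⟨u, hu, rfl⟩ := Finset.mem_image.1 ha
  exact (Finset.mem_filter.1 hu).2

theorem rk_lt {x y : RR L} (hxy : x < y) : x.rk < y.rk := by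
  cases x with
  | kap =>
    cases y with
    | kap => exact absurd hxy (lt_irrefl _)
    | box σ t τ h =>
      have h1 := (kap_lt_box.1 hxy).card_pos
      have h2 := h.1.card_pos
      simp only [RR.rk]
      omega
    | ee c e h => exact (kap_lt_ee.1 hxy).card_pos
  | box σ t τ h =>
    cases y with
    | kap => exact absurd hxy (not_lt_kap _)
    | ee c e h' => exact absurd hxy not_box_lt_ee
    | box σ' t' τ' h' =>
      obtain ⟨⟨h1, h2, h3⟩, h4⟩ := box_lt.1 hxy
      have c1 := Finset.card_le_card h1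
      have c3 := Finset.card_le_card h3
      have c0 := h.1.card_pos
      have c2 : (if t = none then 0 else 1) ≤ (if t' = none then 0 else 1) := by
        rcases h2 with h2 | h2
        · rw [if_pos h2]; exact Nat.zero_le _
        · rw [h2]
      simp only [RR.rk]
      by_contra hcon
      apply h4
      have e1 : σ.card = σ'.card := by omega
      have e3 : τ.card = τ'.card := by omega
      refine ⟨Finset.eq_of_subset_of_card_le h1 e1.ge, ?_, Finset.eq_of_subset_of_card_le h3 e3.ge⟩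
      rcases h2 with h2 | h2
      · by_contra h5
        have h6 : t' ≠ none := fun h6 => h5 (by rw [h2, h6])
        rw [if_pos h2, if_neg h6] at c2 hcon
        omega
      · exact h2
  | ee c e h =>
    cases y with
    | kap => exact absurd hxy (not_lt_kap _)
    | ee c' e' h' =>
      obtain ⟨_, h2⟩ := ee_lt.1 hxy
      exact Finset.card_lt_card h2
    | box σ t τ h' =>
      obtain ⟨rfl, h2⟩ := ee_lt_box.1 hxy
      rw [cap_iff h'] at h2
      have h3 := Finset.card_le_card h2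
      have h4 := phs_card_le h'
      have h5 := h'.1.card_pos
      simp only [RR.rk]
      rw [if_neg (by simp)]
      omega

theorem fin_lt (z : RR L) {S : Set (RR L)} (hS : S ⊆ Set.Iio z) : FinHtOn S :=
  ⟨z.rk, RR.rk, fun _ _ _ _ h => rk_lt h, fun _ hx => (rk_lt (hS hx)).le⟩

/-! ### boxes with a fixed cone vertex -/

/-- projection of boxes -/
def prj : RR L → Finset (Vx q G) × Finset (Option (ZMod (q + 2)))
  | .box σ _ τ _ => (σ, τ)
  | _ => (∅, ∅)

/-- the boxes below `(σ, t, τ)` with the cone vertex `t` -/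
def Bx (L : LCx q G s) (b : Prop) (σ : Finset (Vx q G)) (t : Option (G ⧸ Subgroup.zpowers s))
    (τ : Finset (Option (ZMod (q + 2)))) : Set (RR L) :=
  {x | ∃ σ' τ' h', x = RR.box σ' t τ' h' ∧ σ' ⊆ σ ∧ τ' ⊆ τ ∧ ¬ (σ' = σ ∧ τ' = τ) ∧
    (b → τ'.Nonempty)}

theorem Bx_lt {b : Prop} {σ t τ} (h : BoxOK L σ t τ) {x : RR L} (hx : x ∈ Bx L b σ t τ) :
    x < RR.box σ t τ h := by
  obtain ⟨σ', τ', h', rfl, h1, h2, h3, _⟩ := hx
  rw [box_lt]
  exact ⟨⟨h1, Or.inr rfl, h2⟩, fun h4 => h3 ⟨h4.1, h4.2.2⟩⟩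

theorem sph_Bx {σ t τ} (h : BoxOK L σ t τ) (hτ : τ.Nonempty) :
    Sph (Bx L True σ t τ) (σ.card + τ.card - 2) := by
  refine (Sph.of_iso prj ⟨?_, ?_, ?_⟩ ?_ _).2 (sph_prod σ τ h.1 hτ)
  · rintro _ ⟨σ', τ', h', rfl, h1, h2, h3, h4⟩
    refine ⟨h'.1, h4 trivial, lt_of_le_of_ne ⟨h1, h2⟩ ?_⟩
    intro h5
    simp only [prj, Prod.mk.injEq] at h5
    exact h3 h5
  · rintro _ ⟨σ', τ', h', rfl, _⟩ _ ⟨σ'', τ'', h'', rfl, _⟩ h5
    simp only [prj, Prod.mk.injEq] at h5
    obtain ⟨rfl, rfl⟩ := h5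
    rfl
  · rintro ⟨σ', τ'⟩ ⟨h1, h2, h3⟩
    refine ⟨RR.box σ' t τ' (ok_sub h h3.le.1 h1 (Or.inr rfl) h3.le.2), ?_, rfl⟩
    refine ⟨σ', τ', _, rfl, h3.le.1, h3.le.2, ?_, fun _ => h2⟩
    rintro ⟨rfl, rfl⟩
    exact lt_irrefl _ h3
  · rintro _ ⟨σ', τ', h', rfl, _⟩ _ ⟨σ'', τ'', h'', rfl, _⟩
    rw [box_lt, lt_iff_le_and_ne]
    simp only [prj, Prod.mk_le_mk, ne_eq, Prod.mk.injEq]
    tauto

/-- forget the third component -/
def r3 : RR L → RR L
  | .box σ t τ h => .box σ t ∅ (ok_sub h subset_rfl h.1 (Or.inr rfl) (Finset.empty_subset _))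
  | x => x

theorem wc_Bx {σ t τ} (h : BoxOK L σ t τ) (hτ : τ.Nonempty) : WC (Bx L False σ t τ) := by
  have h0 := ok_sub h subset_rfl h.1 (Or.inr rfl) (Finset.empty_subset τ)
  refine WC.of_down (fin_lt (RR.box σ t τ h) fun x hx => Bx_lt h hx) r3 ?_ ?_ ?_ ?_
    (RR.box σ t ∅ h0) ?_ rfl ?_
  · rintro _ ⟨σ', τ', h', rfl, h1, h2, _⟩
    refine ⟨σ', ∅, _, rfl, h1, Finset.empty_subset _, ?_, fun hf => hf.elim⟩
    rintro ⟨_, rfl⟩
    simp at hτ
  · rintro _ ⟨σ', τ', h', rfl, _⟩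
    rfl
  · rintro _ ⟨σ', τ', h', rfl, _⟩ _ ⟨σ'', τ'', h'', rfl, _⟩ hle
    rw [RR.box_le_box] at hle
    simp only [r3]
    rw [RR.box_le_box]
    exact ⟨hle.1, hle.2.1, subset_rfl⟩
  · rintro _ ⟨σ', τ', h', rfl, _⟩
    simp only [r3]
    rw [RR.box_le_box]
    exact ⟨subset_rfl, Or.inr rfl, Finset.empty_subset _⟩
  · refine ⟨σ, ∅, _, rfl, subset_rfl, Finset.empty_subset _, ?_, fun hf => hf.elim⟩
    rintro ⟨_, rfl⟩
    simp at hτ
  · rintro _ ⟨σ', τ', h', rfl, h1, _⟩
    simp only [r3]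
    rw [RR.box_le_box]
    exact ⟨h1, Or.inr rfl, subset_rfl⟩

/-! ### the elements below a box -/

/-- the elements different from `kap` below `z` -/
def Lo (b : Prop) (z : RR L) : Set (RR L) := {x | x < z ∧ x ≠ RR.kap ∧ (b → RR.kap < x)}

/-- boxes -/
def A1 (b : Prop) (z : RR L) : Set (RR L) := {x | x ∈ Lo b z ∧ ∃ σ t τ h, x = RR.box σ t τ h}

/-- elements with the cone vertex `c` -/
def A2 (b : Prop) (c : G ⧸ Subgroup.zpowers s) (z : RR L) : Set (RR L) :=
  {x | x ∈ Lo b z ∧ ((∃ e h, x = RR.ee c e h) ∨ ∃ σ τ h, x = RR.box σ (some c) τ h)}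

/-- forget the cone vertex -/
def r1 : RR L → RR L
  | .box σ _ τ h => .box σ none τ (ok_sub h subset_rfl h.1 (Or.inl rfl) subset_rfl)
  | x => x

/-- the value set of a box -/
def r2 : RR L → RR L
  | .box σ (some c) τ h => .ee c (phs s σ τ) (phs_eok h)
  | x => x

theorem wc_A1 (b : Prop) {σ c τ} (h : BoxOK L σ (some c) τ) (hτ : τ.Nonempty) :
    WC (A1 b (RR.box σ (some c) τ h)) := by
  have h0 : BoxOK L σ none τ := ok_sub h subset_rfl h.1 (Or.inl rfl) subset_rfl
  have key : ∀ {σ' t' τ'} {h' : BoxOK L σ' t' τ'}, RR.box σ' t' τ' h' ≤ RR.box σ (some c) τ h →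
      (b → τ'.Nonempty) → ∀ h'' : BoxOK L σ' none τ',
      RR.box σ' none τ' h'' ∈ A1 b (RR.box σ (some c) τ h) := by
    intro σ' t' τ' h' h1 h2 h''
    rw [RR.box_le_box] at h1
    refine ⟨⟨?_, by simp, fun hb => kap_lt_box.2 (h2 hb)⟩, _, _, _, _, rfl⟩
    rw [box_lt]
    exact ⟨⟨h1.1, Or.inl rfl, h1.2.2⟩, fun h3 => by simp at h3⟩
  refine WC.of_down (fin_lt (RR.box σ (some c) τ h) fun x hx => hx.1.1) r1 ?_ ?_ ?_ ?_
    (RR.box σ none τ h0) ?_ rfl ?_
  · rintro _ ⟨⟨h1, _, h2⟩, σ', t', τ', h', rfl⟩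
    exact key h1.le (fun hb => kap_lt_box.1 (h2 hb)) _
  · rintro _ ⟨_, σ', t', τ', h', rfl⟩
    rfl
  · rintro _ ⟨_, σ', t', τ', h', rfl⟩ _ ⟨_, σ'', t'', τ'', h'', rfl⟩ hle
    rw [RR.box_le_box] at hle
    simp only [r1]
    rw [RR.box_le_box]
    exact ⟨hle.1, Or.inl rfl, hle.2.2⟩
  · rintro _ ⟨_, σ', t', τ', h', rfl⟩
    simp only [r1]
    rw [RR.box_le_box]
    exact ⟨subset_rfl, Or.inl rfl, subset_rfl⟩
  · exact key le_rfl (fun _ => hτ) _
  · rintro _ ⟨⟨h1, _, _⟩, σ', t', τ', h', rfl⟩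
    have h2 := RR.box_le_box.1 h1.le
    simp only [r1]
    rw [RR.box_le_box]
    exact ⟨h2.1, Or.inl rfl, h2.2.2⟩

theorem wc_A2 (b : Prop) {σ c τ} (h : BoxOK L σ (some c) τ) (hτ : τ.Nonempty) :
    WC (A2 b c (RR.box σ (some c) τ h)) := by
  have key : ∀ {σ' τ'} {h' : BoxOK L σ' (some c) τ'},
      RR.box σ' (some c) τ' h' ≤ RR.box σ (some c) τ h →
      (b → τ'.Nonempty) → ∀ h'' : EOK (q := q) c (phs s σ' τ'),
      RR.ee c (phs s σ' τ') h'' ∈ A2 b c (RR.box σ (some c) τ h) := by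
    intro σ' τ' h' h1 h2 h''
    rw [RR.box_le_box] at h1
    refine ⟨⟨?_, by simp, fun hb => kap_lt_ee.2 (phs_ne h' (h2 hb))⟩, Or.inl ⟨_, _, rfl⟩⟩
    rw [ee_lt_box]
    exact ⟨rfl, (cap_iff h).2 (phs_mono h1.1 h1.2.2)⟩
  refine WC.of_down (fin_lt (RR.box σ (some c) τ h) fun x hx => hx.1.1) r2 ?_ ?_ ?_ ?_
    (RR.ee c (phs s σ τ) (phs_eok h)) ?_ rfl ?_
  · rintro _ ⟨⟨h1, h3, h2⟩, ⟨e, h', rfl⟩ | ⟨σ', τ', h', rfl⟩⟩
    · exact ⟨⟨h1, h3, h2⟩, Or.inl ⟨e, h', rfl⟩⟩
    · exact key h1.le (fun hb => kap_lt_box.1 (h2 hb)) _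
  · rintro _ ⟨_, ⟨e, h', rfl⟩ | ⟨σ', τ', h', rfl⟩⟩
    · rfl
    · rfl
  · rintro _ ⟨_, ⟨e, h', rfl⟩ | ⟨σ', τ', h', rfl⟩⟩ _ ⟨_, ⟨e', h'', rfl⟩ | ⟨σ'', τ'', h'', rfl⟩⟩ hle
    · exact hle
    · rw [RR.ee_le_box] at hle
      simp only [r2]
      rw [RR.ee_le_ee]
      exact ⟨rfl, (cap_iff h'').1 hle.2⟩
    · exact (RR.not_box_le_ee hle).elim
    · rw [RR.box_le_box] at hle
      simp only [r2]
      rw [RR.ee_le_ee]
      exact ⟨rfl, phs_mono hle.1 hle.2.2⟩
  · rintro _ ⟨_, ⟨e, h', rfl⟩ | ⟨σ', τ', h', rfl⟩⟩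
    · exact le_rfl
    · simp only [r2]
      rw [RR.ee_le_box]
      exact ⟨rfl, (cap_iff h').2 subset_rfl⟩
  · exact key le_rfl (fun _ => hτ) _
  · rintro _ ⟨⟨h1, _, _⟩, ⟨e, h', rfl⟩ | ⟨σ', τ', h', rfl⟩⟩
    · have h2 := RR.ee_le_box.1 h1.le
      simp only [r2]
      rw [RR.ee_le_ee]
      exact ⟨rfl, (cap_iff h).1 h2.2⟩
    · have h2 := RR.box_le_box.1 h1.le
      simp only [r2]
      rw [RR.ee_le_ee]
      exact ⟨rfl, phs_mono h2.1 h2.2.2⟩

theorem A_union (b : Prop) {σ c τ} (h : BoxOK L σ (some c) τ) :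
    A1 b (RR.box σ (some c) τ h) ∪ A2 b c (RR.box σ (some c) τ h) =
      Lo b (RR.box σ (some c) τ h) := by
  ext x
  constructor
  · rintro (hx | hx)
    · exact hx.1
    · exact hx.1
  · intro hx
    cases x with
    | kap => exact absurd rfl hx.2.1
    | box σ' t' τ' h' => exact Or.inl ⟨hx, _, _, _, _, rfl⟩
    | ee c' e' h' =>
      right
      refine ⟨hx, Or.inl ?_⟩
      have h1 := (ee_lt_box.1 hx.1).1
      rw [Option.some.injEq] at h1
      subst h1
      exact ⟨_, _, rfl⟩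

theorem A_inter (b : Prop) {σ c τ} (h : BoxOK L σ (some c) τ) :
    A1 b (RR.box σ (some c) τ h) ∩ A2 b c (RR.box σ (some c) τ h) = Bx L b σ (some c) τ := by
  ext x
  constructor
  · rintro ⟨⟨⟨h1, _, h2⟩, h3⟩, ⟨_, ⟨e, h', rfl⟩ | ⟨σ', τ', h', rfl⟩⟩⟩
    · obtain ⟨_, _, _, _, h4⟩ := h3
      simp at h4
    · rw [box_lt] at h1
      exact ⟨σ', τ', h', rfl, h1.1.1, h1.1.2.2, fun h3 => h1.2 ⟨h3.1, rfl, h3.2⟩,
        fun hb => kap_lt_box.1 (h2 hb)⟩
  · intro hx
    have h5 := Bx_lt h hx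
    obtain ⟨σ', τ', h', rfl, h1, h2, h3, h4⟩ := hx
    have h6 : RR.box σ' (some c) τ' h' ∈ Lo b (RR.box σ (some c) τ h) :=
      ⟨h5, by simp, fun hb => kap_lt_box.2 (h4 hb)⟩
    exact ⟨⟨h6, _, _, _, _, rfl⟩, ⟨h6, Or.inr ⟨_, _, _, rfl⟩⟩⟩

theorem A_cov (b : Prop) {σ c τ} (h : BoxOK L σ (some c) τ) :
    Cov (A1 b (RR.box σ (some c) τ h)) (A2 b c (RR.box σ (some c) τ h)) := by
  apply Cov.up
  · rintro _ ⟨_, σ', t', τ', h', rfl⟩ y hy hxy
    refine ⟨hy.1, ?_⟩
    rcases hy.2 with ⟨e, h'', rfl⟩ | ⟨σ'', τ'', h'', rfl⟩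
    · exact absurd hxy not_box_lt_ee
    · exact ⟨_, _, _, _, rfl⟩
  · rintro x ⟨_, hx⟩ _ ⟨hy, σ', t', τ', h', rfl⟩ hxy
    refine ⟨hy, Or.inr ?_⟩
    have : t' = some c := by
      rcases hx with ⟨e, h'', rfl⟩ | ⟨σ'', τ'', h'', rfl⟩
      · exact (ee_lt_box.1 hxy).1
      · rcases (box_lt.1 hxy).1.2.1 with h1 | h1
        · simp at h1
        · exact h1.symm
    subst this
    exact ⟨_, _, _, rfl⟩

theorem Lo_none (b : Prop) {σ τ} (h : BoxOK L σ none τ) :
    Lo b (RR.box σ none τ h) = Bx L b σ none τ := by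
  ext x
  constructor
  · rintro ⟨h1, h2, h3⟩
    cases x with
    | kap => exact absurd rfl h2
    | box σ' t' τ' h' =>
      rw [box_lt] at h1
      have ht : t' = none := by
        rcases h1.1.2.1 with h4 | h4 <;> exact h4
      subst ht
      exact ⟨σ', τ', h', rfl, h1.1.1, h1.1.2.2, fun h3 => h1.2 ⟨h3.1, rfl, h3.2⟩,
        fun hb => kap_lt_box.1 (h3 hb)⟩
    | ee c' e' h' =>
      have h4 := (ee_lt_box.1 h1).1
      simp at h4
  · intro hx
    have h5 := Bx_lt h hx
    obtain ⟨σ', τ', h', rfl, h1, h2, h3, h4⟩ := hx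
    exact ⟨h5, by simp, fun hb => kap_lt_box.2 (h4 hb)⟩

theorem Lo_true (z : RR L) : Lo True z = Set.Ioo RR.kap z := by
  ext x
  constructor
  · rintro ⟨h1, _, h2⟩
    exact ⟨h2 trivial, h1⟩
  · rintro ⟨h1, h2⟩
    exact ⟨h2, h1.ne', fun _ => h1⟩

theorem wc_Lo_box {σ t τ} (h : BoxOK L σ t τ) (hτ : τ.Nonempty) :
    WC (Lo False (RR.box σ t τ h)) := by
  rcases t with _ | c
  · rw [Lo_none]
    exact wc_Bx h hτ
  · rw [← A_union]
    apply WC.union (A_cov _ h) (wc_A1 _ h hτ) (wc_A2 _ h hτ)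
    rw [A_inter]
    exact wc_Bx h hτ

theorem wc_Lo_ee {c e} (h : EOK (q := q) (s := s) c e) (he : e.Nonempty) :
    WC (Lo False (RR.ee c e h : RR L)) := by
  have h0 : EOK (q := q) (s := s) c ∅ := ⟨by simp, by simpa using L.hq.pos⟩
  apply WC.cone (RR.ee c ∅ h0)
  · refine ⟨?_, by simp, fun hf => hf.elim⟩
    rw [ee_lt]
    exact ⟨rfl, Finset.empty_ssubset.2 he⟩
  · rintro x ⟨h1, h2, _⟩
    right
    cases x with
    | kap => exact absurd rfl h2
    | box σ' t' τ' h' => exact absurd h1 not_box_lt_ee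
    | ee c' e' h' =>
      rw [ee_lt] at h1
      rw [RR.ee_le_ee]
      exact ⟨h1.1.symm, Finset.empty_subset _⟩

theorem Iio_kap : Set.Iio (RR.kap : RR L) = ∅ := by
  ext x
  simp only [Set.mem_Iio, Set.mem_empty_iff_false, iff_false]
  exact not_lt_kap x

/-- the projection to value sets -/
def pre : RR L → Finset G
  | .ee _ e _ => e
  | _ => ∅

theorem sph_ee {c e} (h : EOK (q := q) (s := s) c e) (he : e.Nonempty) :
    Sph (Set.Ioo RR.kap (RR.ee c e h : RR L)) (e.card - 1) := by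
  refine (Sph.of_iso pre ⟨?_, ?_, ?_⟩ ?_ _).2 (sph_simplex e he)
  · rintro x ⟨h1, h2⟩
    cases x with
    | kap => exact absurd h1 (lt_irrefl _)
    | box σ' t' τ' h' => exact absurd h2 not_box_lt_ee
    | ee c' e' h' => exact ⟨kap_lt_ee.1 h1, (ee_lt.1 h2).2⟩
  · rintro x ⟨h1, h2⟩ y ⟨h3, h4⟩ hxy
    cases x with
    | kap => exact absurd h1 (lt_irrefl _)
    | box σ' t' τ' h' => exact absurd h2 not_box_lt_ee
    | ee c' e' h' =>
      cases y with
      | kap => exact absurd h3 (lt_irrefl _)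
      | box σ' t' τ' h' => exact absurd h4 not_box_lt_ee
      | ee c'' e'' h'' =>
        have h5 := (ee_lt.1 h2).1
        have h6 := (ee_lt.1 h4).1
        subst h5
        subst h6
        simp only [pre] at hxy
        subst hxy
        rfl
  · rintro e' ⟨h1, h2⟩
    have h3 : EOK (q := q) (s := s) c e' :=
      ⟨fun x hx => h.1 x (h2.1 hx), (Finset.card_le_card h2.1).trans_lt h.2⟩
    exact ⟨RR.ee c e' h3, ⟨kap_lt_ee.2 h1, ee_lt.2 ⟨rfl, h2⟩⟩, rfl⟩
  · rintro x ⟨h1, h2⟩ y ⟨h3, h4⟩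
    cases x with
    | kap => exact absurd h1 (lt_irrefl _)
    | box σ' t' τ' h' => exact absurd h2 not_box_lt_ee
    | ee c' e' h' =>
      cases y with
      | kap => exact absurd h3 (lt_irrefl _)
      | box σ' t' τ' h' => exact absurd h4 not_box_lt_ee
      | ee c'' e'' h'' =>
        have h5 := (ee_lt.1 h2).1
        have h6 := (ee_lt.1 h4).1
        subst h5
        subst h6
        rw [ee_lt]
        simp only [pre]
        exact ⟨fun h => h.2, fun h => ⟨trivial, h⟩⟩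

/-! ### the boundary of a simplex -/

/-- the labels of an element -/
def prl : RR L → Finset (Option (ZMod (q + 2)))
  | .box σ t _ _ => labs σ t
  | .ee _ _ _ => {none}
  | .kap => ∅

theorem labs_reflect {σ t} (h : IsA L σ t) {σ' σ'' t' t''} (h1 : σ' ⊆ σ) (h2 : σ'' ⊆ σ)
    (h3 : t' = none ∨ t' = t) (h4 : t'' = none ∨ t'' = t) :
    (σ' ⊆ σ'' ∧ (t' = none ∨ t' = t'')) ↔ labs σ' t' ⊆ labs σ'' t'' := by
  constructor
  · rintro ⟨h5, h6⟩
    exact labs_mono h5 h6
  · intro h5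
    constructor
    · intro v hv
      have h6 := h5 (some_mem_labs.2 ⟨v, hv, rfl⟩)
      obtain ⟨w, hw, hwv⟩ := some_mem_labs.1 h6
      rwa [← h.inj (h2 hw) (h1 hv) hwv]
    · by_cases h6 : t' = none
      · exact Or.inl h6
      · right
        have h7 := none_mem_labs.1 (h5 (none_mem_labs.2 h6))
        rcases h3 with h3 | h3
        · exact absurd h3 h6
        · rcases h4 with h4 | h4
          · exact absurd h4 h7
          · rw [h3, h4]

theorem below_flat {σ t} {h : BoxOK L σ t ∅} {x : RR L} (hx : x < RR.box σ t ∅ h) :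
    (∃ σ' t' h', x = RR.box σ' t' ∅ h' ∧ σ' ⊆ σ ∧ (t' = none ∨ t' = t) ∧
      ¬ (σ' = σ ∧ t' = t)) ∨ ∃ c h', x = RR.ee c ∅ h' ∧ t = some c := by
  cases x with
  | kap => exact absurd (kap_lt_box.1 hx) (by simp)
  | box σ' t' τ' h' =>
    left
    rw [box_lt] at hx
    have h1 : τ' = ∅ := Finset.subset_empty.1 hx.1.2.2
    subst h1
    exact ⟨σ', t', h', rfl, hx.1.1, hx.1.2.1, fun h2 => hx.2 ⟨h2.1, h2.2, rfl⟩⟩
  | ee c e h' =>
    right
    rw [ee_lt_box] at hx
    have h1 : e = ∅ := by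
      rw [Finset.eq_empty_iff_forall_notMem]
      intro x hx'
      obtain ⟨v, hv⟩ := h.1
      obtain ⟨u, hu, _⟩ := hx.2 x hx' v hv
      simp at hu
    subst h1
    exact ⟨c, h', rfl, hx.1⟩

theorem prl_le {σ t} (h : BoxOK L σ t ∅) {x y : RR L} (hx : x < RR.box σ t ∅ h)
    (hy : y < RR.box σ t ∅ h) : x ≤ y ↔ prl x ⊆ prl y := by
  rcases below_flat hx with ⟨σ', t', h', rfl, h1, h2, _⟩ | ⟨c, h', rfl, h1⟩
  · rcases below_flat hy with ⟨σ'', t'', h'', rfl, h3, h4, _⟩ | ⟨c, h'', rfl, h3⟩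
    · rw [RR.box_le_box]
      simp only [prl]
      rw [← labs_reflect h.2.1 h1 h3 h2 h4]
      simp
    · constructor
      · intro h5
        exact (RR.not_box_le_ee h5).elim
      · intro h5
        exfalso
        obtain ⟨v, hv⟩ := h'.1
        have := h5 (some_mem_labs.2 ⟨v, hv, rfl⟩)
        simp [prl] at this
  · rcases below_flat hy with ⟨σ'', t'', h'', rfl, h3, h4, _⟩ | ⟨c', h'', rfl, h3⟩
    · rw [RR.ee_le_box]
      simp only [prl]
      rw [Finset.singleton_subset_iff, none_mem_labs]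
      constructor
      · rintro ⟨h5, _⟩
        rw [h5]
        simp
      · intro h5
        refine ⟨?_, by intro x hx; simp at hx⟩
        rcases h4 with h4 | h4
        · exact absurd h4 h5
        · rw [h4, h1]
    · rw [h1, Option.some.injEq] at h3
      subst h3
      exact ⟨fun _ => subset_rfl, fun _ => le_rfl⟩

theorem sph_flat {σ t} (h : BoxOK L σ t ∅) :
    Sph (Set.Iio (RR.box σ t ∅ h)) ((labs σ t).card - 1) := by
  have hne : (labs σ t).Nonempty := by
    obtain ⟨v, hv⟩ := h.1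
    exact ⟨_, some_mem_labs.2 ⟨v, hv, rfl⟩⟩
  refine (Sph.of_iso prl ⟨?_, ?_, ?_⟩ ?_ _).2 (sph_simplex (labs σ t) hne)
  · intro x hx
    rcases below_flat hx with ⟨σ', t', h', rfl, h1, h2, h3⟩ | ⟨c, h', rfl, rfl⟩
    · constructor
      · obtain ⟨v, hv⟩ := h'.1
        exact ⟨_, some_mem_labs.2 ⟨v, hv, rfl⟩⟩
      · refine ⟨labs_mono h1 h2, ?_⟩
        intro h4
        have h5 := (labs_reflect h.2.1 subset_rfl h1 (Or.inr rfl) h2).2 h4
        apply h3
        refine ⟨h1.antisymm h5.1, ?_⟩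
        rcases h5.2 with h6 | h6
        · rcases h2 with h7 | h7
          · rw [h6, h7]
          · exact h7
        · exact h6.symm
    · constructor
      · exact Finset.singleton_nonempty _
      · simp only [prl]
        refine ⟨?_, ?_⟩
        · intro a ha
          rw [Finset.mem_singleton] at ha
          rw [ha, none_mem_labs]
          simp
        · intro h4
          obtain ⟨v, hv⟩ := h.1
          have := h4 (some_mem_labs.2 ⟨v, hv, rfl⟩)
          simp at this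
  · intro x hx y hy hxy
    exact le_antisymm ((prl_le h hx hy).2 hxy.subset) ((prl_le h hy hx).2 hxy.symm.subset)
  · rintro ρ ⟨h1, h2⟩
    by_cases hσ : (σ.filter (fun v => some v.2 ∈ ρ)).Nonempty
    · have ht : (if none ∈ ρ then t else none) = none ∨ (if none ∈ ρ then t else none) = t := by
        by_cases h3 : none ∈ ρ
        · right; rw [if_pos h3]
        · left; rw [if_neg h3]
      have h3 := ok_sub h (Finset.filter_subset (fun v => some v.2 ∈ ρ) σ) hσ ht
        (Finset.empty_subset _)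
      have h4 : labs (σ.filter (fun v => some v.2 ∈ ρ)) (if none ∈ ρ then t else none) = ρ := by
        ext a
        rcases a with _ | u
        · rw [none_mem_labs]
          constructor
          · intro h5
            by_contra h6
            rw [if_neg h6] at h5
            exact h5 rfl
          · intro h5
            rw [if_pos h5]
            exact none_mem_labs.1 (h2.1 h5)
        · rw [some_mem_labs]
          constructor
          · rintro ⟨v, hv, rfl⟩
            exact (Finset.mem_filter.1 hv).2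
          · intro h5
            obtain ⟨v, hv, rfl⟩ := some_mem_labs.1 (h2.1 h5)
            exact ⟨v, Finset.mem_filter.2 ⟨hv, h5⟩, rfl⟩
      refine ⟨RR.box _ _ ∅ h3, ?_, h4⟩
      rw [Set.mem_Iio, box_lt]
      refine ⟨⟨Finset.filter_subset _ _, ht, subset_rfl⟩, ?_⟩
      rintro ⟨h5, h6, _⟩
      apply h2.ne
      rw [← h4, h5, h6]
    · have h3 : ∀ u, some u ∉ ρ := by
        intro u hu
        obtain ⟨v, hv, rfl⟩ := some_mem_labs.1 (h2.1 hu)
        exact hσ ⟨v, Finset.mem_filter.2 ⟨hv, hu⟩⟩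
      have h4 : ρ = {none} := by
        rw [Finset.eq_singleton_iff_nonempty_unique_mem]
        refine ⟨h1, ?_⟩
        intro a ha
        rcases a with _ | u
        · rfl
        · exact absurd ha (h3 u)
      have h5 : none ∈ labs σ t := h2.1 (by rw [h4]; simp)
      rw [none_mem_labs] at h5
      obtain ⟨c, rfl⟩ := Option.ne_none_iff_exists'.1 h5
      have h6 : EOK (q := q) (s := s) c ∅ := ⟨by simp, by simpa using L.hq.pos⟩
      refine ⟨RR.ee c ∅ h6, ?_, h4.symm⟩
      rw [Set.mem_Iio, ee_lt_box]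
      exact ⟨rfl, by intro x hx; simp at hx⟩
  · intro x hx y hy
    rw [lt_iff_le_not_ge, prl_le h hx hy, prl_le h hy hx]
    exact Iff.rfl

theorem labs_card {σ : Finset (Vx q G)} {t : Option (G ⧸ Subgroup.zpowers s)} (h : IsA L σ t) :
    (labs σ t).card = σ.card + (if t = none then 0 else 1) := by
  unfold labs
  rw [Finset.card_union_of_disjoint]
  · congr 1
    · apply Finset.card_image_of_injOn
      intro v hv w hw hvw
      exact h.inj hv hw (Option.some.inj hvw)
    · split_ifs <;> simp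
  · rw [Finset.disjoint_left]
    intro a ha hb
    obtain ⟨v, _, rfl⟩ := Finset.mem_image.1 ha
    split_ifs at hb <;> simp at hb

/-! ### the cone with apex `kap` -/

theorem down_kap {z : RR L} (hz : RR.kap < z) {m : ℕ} (h1 : Sph (Set.Ioo RR.kap z) m)
    (h2 : WC (Lo False z)) : Sph (Set.Iio z) (m + 1) := by
  have e1 : Set.Iio z = Set.Ico RR.kap z ∪ Lo False z := by
    ext x
    constructor
    · intro hx
      by_cases h : x = RR.kap
      · left
        rw [h]
        exact ⟨le_rfl, hz⟩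
      · right
        exact ⟨hx, h, fun hf => hf.elim⟩
    · rintro (hx | hx)
      · exact hx.2
      · exact hx.1
  have e2 : Set.Ico RR.kap z ∩ Lo False z = Set.Ioo RR.kap z := by
    ext x
    constructor
    · rintro ⟨⟨h3, h4⟩, ⟨_, h5, _⟩⟩
      exact ⟨lt_of_le_of_ne h3 (Ne.symm h5), h4⟩
    · rintro ⟨h3, h4⟩
      exact ⟨⟨h3.le, h4⟩, ⟨h4, h3.ne', fun hf => hf.elim⟩⟩
  rw [e1]
  apply Sph.susp
  · apply Cov.up
    · rintro x ⟨h3, h4⟩ y ⟨h5, h6, _⟩ hxy
      exact ⟨h3.trans hxy.le, h5⟩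
    · rintro x ⟨h3, h4, _⟩ y ⟨h5, h6⟩ hxy
      refine ⟨h6, ?_, fun hf => hf.elim⟩
      rintro rfl
      exact not_lt_kap _ hxy
  · exact Acyc.cone RR.kap ⟨le_rfl, hz⟩ fun y hy => Or.inr hy.1
  · exact h2.1
  · rw [e2]
    exact h1

end LcD

open LcD

theorem RR.jdown (z : RR L) (h : RR.kap < z) : Sph (Set.Ioo RR.kap z) (z.rk - 1) := by
  cases z with
  | kap => exact absurd h (lt_irrefl _)
  | ee c e h' => exact sph_ee h' (kap_lt_ee.1 h)
  | box σ t τ h' =>
    have hτ := kap_lt_box.1 h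
    have c1 := h'.1.card_pos
    have c2 := hτ.card_pos
    rcases t with _ | c
    · have h1 := sph_Bx h' hτ
      rw [← Lo_none, Lo_true] at h1
      have e : (RR.box σ none τ h').rk - 1 = σ.card + τ.card - 2 := by
        simp only [RR.rk]
        rw [if_pos trivial]
        omega
      rw [e]
      exact h1
    · have h1 := sph_Bx h' hτ
      rw [← A_inter True h'] at h1
      have h2 := Sph.susp (A_cov _ h') (wc_A1 _ h' hτ).1 (wc_A2 _ h' hτ).1 h1
      rw [A_union, Lo_true] at h2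
      have e : (RR.box σ (some c) τ h').rk - 1 = σ.card + τ.card - 2 + 1 := by
        simp only [RR.rk]
        rw [if_neg (by simp)]
        omega
      rw [e]
      exact h2

theorem RR.down (z : RR L) : Sph (Set.Iio z) z.rk := by
  cases z with
  | kap =>
    rw [Iio_kap]
    exact Sph.empty
  | ee c e h' =>
    rcases Finset.eq_empty_or_nonempty e with rfl | he
    · have h1 : Set.Iio (RR.ee c ∅ h' : RR L) = ∅ := by
        ext x
        simp only [Set.mem_Iio, Set.mem_empty_iff_false, iff_false]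
        intro hx
        cases x with
        | kap => exact absurd (kap_lt_ee.1 hx) (by simp)
        | box σ t τ h => exact not_box_lt_ee hx
        | ee c' e' h => exact absurd (ee_lt.1 hx).2 (Finset.not_ssubset_empty _)
      rw [h1]
      exact Sph.empty
    · have h0 : (RR.kap : RR L) < RR.ee c e h' := kap_lt_ee.2 he
      have h1 := down_kap h0 (RR.jdown _ h0) (wc_Lo_ee h' he)
      have e : (RR.ee c e h' : RR L).rk - 1 + 1 = (RR.ee c e h' : RR L).rk := by
        have := he.card_pos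
        simp only [RR.rk]
        omega
      rwa [e] at h1
  | box σ t τ h' =>
    rcases Finset.eq_empty_or_nonempty τ with rfl | hτ
    · have h1 := sph_flat h'
      rw [labs_card h'.2.1] at h1
      exact h1
    · have h1 := down_kap (kap_lt_box.2 hτ) (RR.jdown _ (kap_lt_box.2 hτ)) (wc_Lo_box h' hτ)
      have e : (RR.box σ t τ h').rk - 1 + 1 = (RR.box σ t τ h').rk := by
        have := h'.1.card_pos
        have := hτ.card_pos
        simp only [RR.rk]
        omega
      rwa [e] at h1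

end

end Pool.Agent.Helper59.PD
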