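import Pool.Agent.Helper59.PD.LCf
import Pool.Agent.Helper59.PD.Lib

/-! Upper links of the elements `ee`. -/

set_option autoImplicit false
set_option linter.unusedSectionVars false

open scoped Classical

namespace Pool.Agent.Helper59.PD

namespace LcE

noncomputable section

variable {q : ℕ} {G : Type} [Group G] {s : G} {L : LCx q G s}

/-! ### the cycle of a coset -/

/-- the vertices of the cycle -/
def F (s h : G) (n : ℕ) : Vx q G := (h * s ^ (n / (q + 2)), (n : ZMod (q + 2)))

theorem nxt_F (s h : G) (n : ℕ) : nxt s (F (q := q) s h n) = F s h (n + 1) := by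
  have hiff : (n : ZMod (q + 2)) = -1 ↔ (q + 2) ∣ n + 1 := by
    rw [← ZMod.natCast_eq_zero_iff, Nat.cast_add, Nat.cast_one]
    exact eq_neg_iff_add_eq_zero
  unfold nxt F
  dsimp only
  rw [Nat.succ_div]
  refine Prod.ext ?_ ?_
  · dsimp only
    by_cases hd : (q + 2) ∣ n + 1
    · rw [if_pos (hiff.2 hd), if_pos hd, pow_succ, mul_assoc]
    · rw [if_neg (fun h => hd (hiff.1 h)), if_neg hd, add_zero]
  · push_cast; rfl

/-- the vertices of the cycle, periodic -/
def f (s h : G) (k : ZMod (q * (q + 2))) : Vx q G := F s h k.val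

theorem F_mod (L : LCx q G s) (h : G) (n : ℕ) : F (q := q) s h n = f s h (n : ZMod (q * (q + 2))) := by
  unfold f
  rw [ZMod.val_natCast]
  conv_lhs => rw [← Nat.mod_add_div n (q * (q + 2))]
  generalize n % (q * (q + 2)) = a
  generalize n / (q * (q + 2)) = b
  unfold F
  refine Prod.ext ?_ ?_
  · dsimp only
    have h1 : (a + q * (q + 2) * b) / (q + 2) = a / (q + 2) + q * b := by
      rw [show a + q * (q + 2) * b = a + (q + 2) * (q * b) by ring,
        Nat.add_mul_div_left _ _ (by omega)]
    rw [h1, pow_add, pow_mul s q, L.hs, one_pow, mul_one]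
  · dsimp only
    rw [show a + q * (q + 2) * b = a + (q + 2) * (q * b) by ring, Nat.cast_add, Nat.cast_mul]
    rw [ZMod.natCast_self, zero_mul, add_zero]

theorem f_nxt (L : LCx q G s) (h : G) (k : ZMod (q * (q + 2))) :
    nxt s (f s h k) = f s h (k + 1) := by
  have : NeZero (q * (q + 2)) := ⟨by
    have := L.hq.pos
    positivity⟩
  have h1 : nxt s (f s h k) = F s h (k.val + 1) := nxt_F s h k.val
  rw [h1, F_mod L]
  congr 1
  push_cast
  rw [ZMod.natCast_zmod_val]

theorem f_inj (L : LCx q G s) (h : G) : Function.Injective (f (q := q) s h) := by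
  have hq := L.hq.pos
  have : NeZero (q * (q + 2)) := ⟨by positivity⟩
  intro k k' hk
  unfold f F at hk
  have h1 := congrArg Prod.fst hk
  have h2 := congrArg Prod.snd hk
  dsimp only at h1 h2
  have h3 := mul_left_cancel h1
  have hlt : ∀ k : ZMod (q * (q + 2)), k.val / (q + 2) < q := by
    intro k
    rw [Nat.div_lt_iff_lt_mul (by omega)]
    exact ZMod.val_lt k
  rw [pow_eq_pow_iff_modEq, L.orderOf] at h3
  have h4 : k.val / (q + 2) = k'.val / (q + 2) := by
    have := h3
    unfold Nat.ModEq at this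
    rwa [Nat.mod_eq_of_lt (hlt k), Nat.mod_eq_of_lt (hlt k')] at this
  rw [ZMod.natCast_eq_natCast_iff'] at h2
  apply ZMod.val_injective
  rw [← Nat.div_add_mod k.val (q + 2), ← Nat.div_add_mod k'.val (q + 2), h4, h2]

theorem f_mk (s h : G) (k : ZMod (q * (q + 2))) :
    (QuotientGroup.mk (f (q := q) s h k).1 : G ⧸ Subgroup.zpowers s) = QuotientGroup.mk h := by
  rw [eq_comm, QuotientGroup.eq]
  unfold f F
  rw [inv_mul_cancel_left]
  exact pow_mem (Subgroup.mem_zpowers s) _

theorem exists_pow (L : LCx q G s) {h x : G}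
    (hx : (QuotientGroup.mk x : G ⧸ Subgroup.zpowers s) = QuotientGroup.mk h) :
    ∃ m, m < q ∧ x = h * s ^ m := by
  have hq := L.hq.pos
  rw [eq_comm, QuotientGroup.eq] at hx
  obtain ⟨m, hm⟩ := hx
  have h1 : 0 ≤ m % (q : ℤ) := Int.emod_nonneg _ (by omega)
  have h3 : m % (q : ℤ) < q := Int.emod_lt_of_pos _ (by omega)
  refine ⟨(m % q).toNat, by omega, ?_⟩
  have h2 : s ^ (((m % (q : ℤ)).toNat : ℕ) : ℤ) = s ^ m := by
    rw [Int.toNat_of_nonneg h1, ← L.orderOf, zpow_mod_orderOf]
  rw [zpow_natCast] at h2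
  rw [h2]
  have : s ^ m = h⁻¹ * x := hm
  rw [this, mul_inv_cancel_left]

theorem f_surj (L : LCx q G s) {h : G} {v : Vx q G}
    (hv : (QuotientGroup.mk v.1 : G ⧸ Subgroup.zpowers s) = QuotientGroup.mk h) :
    ∃ k, f s h k = v := by
  obtain ⟨m, -, hm⟩ := exists_pow L hv
  refine ⟨((m * (q + 2) + v.2.val : ℕ) : ZMod (q * (q + 2))), ?_⟩
  rw [← F_mod L]
  unfold F
  refine Prod.ext ?_ ?_
  · dsimp only
    have : (m * (q + 2) + v.2.val) / (q + 2) = m := by
      rw [mul_comm, Nat.mul_add_div (by omega), Nat.div_eq_of_lt (ZMod.val_lt v.2), add_zero]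
    rw [this, hm]
  · dsimp only
    rw [Nat.cast_add, Nat.cast_mul, ZMod.natCast_self, mul_zero, zero_add, ZMod.natCast_zmod_val]

/-- the face poset of the cycle -/
def cyc (L : LCx q G s) (c : G ⧸ Subgroup.zpowers s) : Set (Finset (Vx q G)) :=
  {σ | σ.Nonempty ∧ IsA L σ (some c)}

theorem sph_cyc (L : LCx q G s) (c : G ⧸ Subgroup.zpowers s) : Sph (cyc L c) 2 := by
  obtain ⟨h, rfl⟩ := QuotientGroup.mk_surjective c
  have hN : 3 ≤ q * (q + 2) := by
    have := L.q5
    nlinarith
  have h1 := sph_cycle (q * (q + 2)) hN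
  refine (Sph.of_iso (Finset.image (f s h)) ?_ ?_ 2).1 h1
  · refine ⟨?_, ?_, ?_⟩
    · rintro t ⟨i, rfl | rfl⟩
      · refine ⟨by simp, Or.inr ⟨f s h i, f_mk s h i, Or.inl (by simp)⟩⟩
      · refine ⟨by simp, Or.inr ⟨f s h i, f_mk s h i, Or.inr ?_⟩⟩
        rw [Finset.image_insert, Finset.image_singleton, f_nxt L]
    · exact (Finset.image_injective (f_inj L h)).injOn
    · rintro σ ⟨hne, hσ⟩
      rcases hσ with rfl | ⟨v, hv, rfl | rfl⟩
      · simp at hne
      · obtain ⟨k, rfl⟩ := f_surj L hv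
        exact ⟨{k}, ⟨k, Or.inl rfl⟩, by simp⟩
      · obtain ⟨k, rfl⟩ := f_surj L hv
        refine ⟨{k, k + 1}, ⟨k, Or.inr rfl⟩, ?_⟩
        rw [Finset.image_insert, Finset.image_singleton, f_nxt L]
  · intro x _ y _
    have h2 : ∀ a b : Finset (ZMod (q * (q + 2))), a ≤ b ↔ a.image (f s h) ≤ b.image (f s h) := by
      intro a b
      exact (Finset.image_subset_image_iff (f_inj L h)).symm
    rw [lt_iff_le_not_ge, lt_iff_le_not_ge, h2, h2]

/-! ### the coset as a finite set -/

/-- the elements of a coset -/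
def CF (q : ℕ) (s h : G) : Finset G := (Finset.range q).image fun m => h * s ^ m

theorem mem_CF (L : LCx q G s) {h x : G} :
    x ∈ CF q s h ↔ (QuotientGroup.mk x : G ⧸ Subgroup.zpowers s) = QuotientGroup.mk h := by
  unfold CF
  rw [Finset.mem_image]
  constructor
  · rintro ⟨m, -, rfl⟩
    rw [eq_comm, QuotientGroup.eq, inv_mul_cancel_left]
    exact pow_mem (Subgroup.mem_zpowers s) _
  · intro hx
    obtain ⟨m, hm, rfl⟩ := exists_pow L hx
    exact ⟨m, Finset.mem_range.2 hm, rfl⟩

theorem card_CF (L : LCx q G s) (h : G) : (CF q s h).card = q := by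
  unfold CF
  rw [Finset.card_image_of_injOn, Finset.card_range]
  intro a ha b hb hab
  dsimp only at hab
  have h1 := mul_left_cancel hab
  rw [pow_eq_pow_iff_modEq, L.orderOf] at h1
  simp only [Finset.coe_range, Set.mem_Iio] at ha hb
  unfold Nat.ModEq at h1
  rwa [Nat.mod_eq_of_lt ha, Nat.mod_eq_of_lt hb] at h1

/-! ### images and preimages under the values -/

/-- the values of the labels in `τ` -/
def img (s : G) (v : Vx q G) (τ : Finset (Option (ZMod (q + 2)))) : Finset G :=
  (Finset.univ.filter fun u => some u ∈ τ).image (ph s v)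

/-- the labels with value in `E` -/
def pre (s : G) (σ : Finset (Vx q G)) (v : Vx q G) (E : Finset G) :
    Finset (Option (ZMod (q + 2))) :=
  (Finset.univ.filter fun u => (∀ w ∈ σ, w.2 ≠ u) ∧ ph s v u ∈ E).image some

theorem mem_img {v : Vx q G} {τ : Finset (Option (ZMod (q + 2)))} {x : G} :
    x ∈ img s v τ ↔ ∃ u, some u ∈ τ ∧ ph s v u = x := by
  simp [img]

theorem some_mem_pre {σ : Finset (Vx q G)} {v : Vx q G} {E : Finset G} {u : ZMod (q + 2)} :
    some u ∈ pre s σ v E ↔ (∀ w ∈ σ, w.2 ≠ u) ∧ ph s v u ∈ E := by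
  simp [pre]

theorem none_mem_pre {σ : Finset (Vx q G)} {v : Vx q G} {E : Finset G} :
    none ∉ pre s σ v E := by
  simp [pre]

theorem img_eq {σ : Finset (Vx q G)} {c : G ⧸ Subgroup.zpowers s}
    {τ : Finset (Option (ZMod (q + 2)))} (h : BoxOK L σ (some c) τ) {v w : Vx q G}
    (hv : v ∈ σ) (hw : w ∈ σ) : img s v τ = img s w τ := by
  ext x
  rw [mem_img, mem_img]
  constructor
  · rintro ⟨u, hu, hx⟩
    exact ⟨u, hu, by rw [← hx]; exact h.2.1.ph_eq hw hv (h.not_mem hu)⟩
  · rintro ⟨u, hu, hx⟩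
    exact ⟨u, hu, by rw [← hx]; exact h.2.1.ph_eq hv hw (h.not_mem hu)⟩

theorem two_ne (L : LCx q G s) : (2 : ZMod (q + 2)) ≠ 0 := by
  intro h
  have h1v : ((2 : ℕ) : ZMod (q + 2)).val = 2 := ZMod.val_cast_of_lt (by have := L.q5; omega)
  rw [Nat.cast_ofNat, h, ZMod.val_zero] at h1v
  omega

theorem three_ne (L : LCx q G s) : (3 : ZMod (q + 2)) ≠ 0 := by
  intro h
  have h1v : ((3 : ℕ) : ZMod (q + 2)).val = 3 := ZMod.val_cast_of_lt (by have := L.q5; omega)
  rw [Nat.cast_ofNat, h, ZMod.val_zero] at h1v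
  omega

theorem one_ne (L : LCx q G s) : (1 : ZMod (q + 2)) ≠ 0 := by
  intro h
  have h1v : ((1 : ℕ) : ZMod (q + 2)).val = 1 := ZMod.val_cast_of_lt (by have := L.q5; omega)
  rw [Nat.cast_one, h, ZMod.val_zero] at h1v
  omega

/-- a cone simplex does not contain both neighbouring labels of one of its labels -/
theorem not_both {σ : Finset (Vx q G)} {c : G ⧸ Subgroup.zpowers s} (h : IsA L σ (some c))
    {w w' : Vx q G} (hw : w ∈ σ) (hw' : w' ∈ σ) {a : ZMod (q + 2)} (h1 : w.2 = a + 1)
    (h2 : w'.2 = a - 1) : False := by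
  rcases h.adj hw hw' with h3 | h3 | h3
  · rw [← h3, h1] at h2
    apply two_ne L
    linear_combination h2
  · have : w'.2 = w.2 + 1 := by rw [h3]; rfl
    rw [h1, h2] at this
    apply three_ne L
    linear_combination - this
  · have : w.2 = w'.2 + 1 := by rw [h3]; rfl
    rw [h1, h2] at this
    apply one_ne L
    linear_combination this

/-- the previous vertex -/
theorem exists_prev (s : G) (v : Vx q G) : ∃ v' : Vx q G, nxt s v' = v := by
  refine ⟨(if v.2 = 0 then v.1 * s⁻¹ else v.1, v.2 - 1), ?_⟩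
  unfold nxt
  dsimp only
  by_cases h : v.2 = 0
  · rw [if_pos h, h]
    refine Prod.ext ?_ ?_
    · simp
    · simp [h]
  · rw [if_neg h, if_neg (fun h' => h (by linear_combination h'))]
    refine Prod.ext rfl ?_
    simp

/-- the values of the labels of a box do not exhaust the coset -/
theorem img_ne {σ : Finset (Vx q G)} {c : G ⧸ Subgroup.zpowers s}
    {τ : Finset (Option (ZMod (q + 2)))} (h : BoxOK L σ (some c) τ) {v : Vx q G}
    (hv : v ∈ σ) : ∃ x : G, (QuotientGroup.mk x : G ⧸ Subgroup.zpowers s) = c ∧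
      x ∉ img s v τ := by
  by_contra hcon
  push Not at hcon
  apply h.2.2.2
  have hvc := h.2.1.mk_eq hv
  have hnone : none ∉ τ := fun h' => h.not_mem h' (by rw [none_mem_labs]; simp)
  have hvn : some v.2 ∉ τ := fun h' => h.not_mem h' (by rw [some_mem_labs]; exact ⟨v, hv, rfl⟩)
  have hne : ∀ u, some u ∈ τ → u ≠ v.2 := fun u hu h' => hvn (h' ▸ hu)
  have hu : ∀ u, u ≠ v.2 → u ≠ v.2 + 1 → u ≠ v.2 - 1 → some u ∈ τ := by
    intro u h1 h2 h3
    have := hcon (ph s v u) (by rw [ph_mk, hvc])
    rw [mem_img] at this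
    obtain ⟨u', hu', he⟩ := this
    rcases L.ph_inj v u' u (hne u' hu') h1 he with h4 | h4 | h4
    · rwa [← h4]
    · exact absurd h4.2 h3
    · exact absurd h4.2 h2
  have hor : some (v.2 + 1) ∈ τ ∨ some (v.2 - 1) ∈ τ := by
    have := hcon (ph s v (v.2 + 1)) (by rw [ph_mk, hvc])
    rw [mem_img] at this
    obtain ⟨u', hu', he⟩ := this
    rcases L.ph_inj v u' _ (hne u' hu') (fun h => one_ne L (by linear_combination h)) he with
      h4 | h4 | h4
    · left; rwa [← h4]
    · exfalso
      have := h4.2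
      apply two_ne L
      linear_combination this
    · right; rw [← h4.1]; exact hu'
  by_cases h1 : some (v.2 + 1) ∈ τ
  · by_cases h2 : some (v.2 - 1) ∈ τ
    · refine ⟨{v}, some c, Or.inr ⟨v, hvc, Or.inl rfl⟩, ?_⟩
      ext p
      rw [Finset.mem_compl]
      rcases p with _ | u
      · rw [none_mem_labs]; simp [hnone]
      · rw [some_mem_labs]
        simp only [Finset.mem_singleton, exists_eq_left]
        constructor
        · intro h3
          by_contra h4
          apply h3
          by_cases h5 : u = v.2 + 1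
          · rwa [h5]
          by_cases h6 : u = v.2 - 1
          · rwa [h6]
          exact hu u (fun h => h4 h.symm) h5 h6
        · rintro rfl; exact hvn
    · obtain ⟨v', hv'⟩ := exists_prev s v
      have h2' : v'.2 = v.2 - 1 := by
        have : v.2 = v'.2 + 1 := by rw [← hv']; rfl
        rw [this]; ring
      refine ⟨{v', nxt s v'}, some c, Or.inr ⟨v', ?_, Or.inr rfl⟩, ?_⟩
      · rw [← hvc, ← hv', L.nxt_mk]
      ext p
      rw [Finset.mem_compl]
      rcases p with _ | u
      · rw [none_mem_labs]; simp [hnone]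
      · rw [some_mem_labs, hv']
        simp only [Finset.mem_insert, Finset.mem_singleton, exists_eq_or_imp, exists_eq_left]
        constructor
        · intro h3
          by_contra h4
          push Not at h4
          apply h3
          by_cases h5 : u = v.2 + 1
          · rwa [h5]
          exact hu u (fun h => h4.2 h.symm) h5 (fun h => h4.1 (by rw [h2', h]))
        · rintro (rfl | rfl)
          · rw [h2']; exact h2
          · exact hvn
  · have h2 : some (v.2 - 1) ∈ τ := hor.resolve_left h1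
    refine ⟨{v, nxt s v}, some c, Or.inr ⟨v, hvc, Or.inr rfl⟩, ?_⟩
    ext p
    rw [Finset.mem_compl]
    rcases p with _ | u
    · rw [none_mem_labs]; simp [hnone]
    · rw [some_mem_labs]
      simp only [Finset.mem_insert, Finset.mem_singleton, exists_eq_or_imp, exists_eq_left]
      have hn2 : (nxt s v).2 = v.2 + 1 := rfl
      rw [hn2]
      constructor
      · intro h3
        by_contra h4
        push Not at h4
        apply h3
        by_cases h5 : u = v.2 - 1
        · rwa [h5]
        exact hu u (fun h => h4.1 h.symm) (fun h => h4.2 h.symm) h5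
      · rintro (rfl | rfl)
        · exact hvn
        · exact h1

theorem img_sub {c : G ⧸ Subgroup.zpowers s} {v : Vx q G}
    (hvc : (QuotientGroup.mk v.1 : G ⧸ Subgroup.zpowers s) = c)
    {τ : Finset (Option (ZMod (q + 2)))} :
    ∀ x ∈ img s v τ, (QuotientGroup.mk x : G ⧸ Subgroup.zpowers s) = c := by
  intro x hx
  rw [mem_img] at hx
  obtain ⟨u, -, rfl⟩ := hx
  rw [ph_mk, hvc]

theorem BoxOK.shrink {σ σ' : Finset (Vx q G)} {c : G ⧸ Subgroup.zpowers s}
    {τ : Finset (Option (ZMod (q + 2)))} (h : BoxOK L σ (some c) τ) (hσ : σ' ⊆ σ)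
    (hne : σ'.Nonempty) : BoxOK L σ' (some c) τ := by
  refine ⟨hne, h.2.1.down hσ (Or.inr rfl) (by simp), ?_, h.2.2.2⟩
  refine Finset.disjoint_of_subset_left ?_ h.2.2.1
  unfold labs
  exact Finset.union_subset_union (Finset.image_subset_image hσ) subset_rfl

/-- the preimage is a valid box -/
theorem pre_ok {σ : Finset (Vx q G)} {c : G ⧸ Subgroup.zpowers s} (h : IsA L σ (some c))
    {v : Vx q G} (hv : v ∈ σ) {E : Finset G} {x : G}
    (hx : (QuotientGroup.mk x : G ⧸ Subgroup.zpowers s) = c) (hxE : x ∉ E) :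
    BoxOK L σ (some c) (pre s σ v E) := by
  refine ⟨⟨v, hv⟩, h, ?_, ?_⟩
  · rw [Finset.disjoint_left]
    intro p hp hp'
    rcases p with _ | u
    · exact none_mem_pre hp'
    · rw [some_mem_labs] at hp
      rw [some_mem_pre] at hp'
      obtain ⟨w, hw, hwu⟩ := hp
      exact hp'.1 w hw hwu
  · rintro ⟨σ', t', h', hc⟩
    have hmem : ∀ p, p ∉ pre s σ v E ↔ p ∈ labs σ' t' := by
      intro p
      rw [← hc, Finset.mem_compl]
    have ht' : t' ≠ none := none_mem_labs.1 ((hmem none).1 none_mem_pre)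
    obtain ⟨c', rfl⟩ := Option.ne_none_iff_exists'.1 ht'
    obtain ⟨w', hw', hw'2⟩ := some_mem_labs.1 ((hmem (some v.2)).1 (fun h' => by
      rw [some_mem_pre] at h'
      exact h'.1 v hv rfl))
    obtain ⟨u, hu1, hu2, hux⟩ := L.ph_surj v x (by rw [hx, h.mk_eq hv])
    obtain ⟨w, hw, hw2⟩ := some_mem_labs.1 ((hmem (some u)).1 (fun h' => by
      rw [some_mem_pre, hux] at h'
      exact hxE h'.2))
    have hu3 : u = v.2 + 1 := by
      rcases h'.adj hw hw' with h3 | h3 | h3
      · exfalso; apply hu1; rw [← hw2, ← hw'2, h3]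
      · exfalso
        have : w'.2 = w.2 + 1 := by rw [h3]; rfl
        rw [hw2, hw'2] at this
        apply hu2
        rw [this]; ring
      · have : w.2 = w'.2 + 1 := by rw [h3]; rfl
        rw [hw2, hw'2] at this
        exact this
    obtain ⟨w'', hw'', hw''2⟩ := some_mem_labs.1 ((hmem (some (v.2 - 1))).1 (fun h' => by
      rw [some_mem_pre, ← L.ph_neighbours, ← hu3, hux] at h'
      exact hxE h'.2))
    exact not_both h' hw hw'' (by rw [hw2, hu3]) hw''2

theorem img_pre {σ : Finset (Vx q G)} {c : G ⧸ Subgroup.zpowers s} (h : IsA L σ (some c))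
    {v : Vx q G} (hv : v ∈ σ) {E : Finset G}
    (hE : ∀ x ∈ E, (QuotientGroup.mk x : G ⧸ Subgroup.zpowers s) = c) :
    img s v (pre s σ v E) = E := by
  ext x
  rw [mem_img]
  constructor
  · rintro ⟨u, hu, rfl⟩
    exact (some_mem_pre.1 hu).2
  · intro hx
    obtain ⟨u, hu1, hu2, hux⟩ := L.ph_surj v x (by rw [hE x hx, h.mk_eq hv])
    by_cases hall : ∀ w ∈ σ, w.2 ≠ u
    · exact ⟨u, some_mem_pre.2 ⟨hall, by rw [hux]; exact hx⟩, hux⟩
    · push Not at hall
      obtain ⟨w, hw, hw2⟩ := hall
      have hu3 : u = v.2 + 1 := by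
        rcases h.adj hw hv with h3 | h3 | h3
        · exfalso; apply hu1; rw [← hw2, h3]
        · exfalso
          have : v.2 = w.2 + 1 := by rw [h3]; rfl
          rw [hw2] at this
          apply hu2
          rw [this]; ring
        · have : w.2 = v.2 + 1 := by rw [h3]; rfl
          rw [hw2] at this
          exact this
      have hx2 : ph s v (v.2 - 1) = x := by rw [← L.ph_neighbours, ← hu3, hux]
      refine ⟨v.2 - 1, some_mem_pre.2 ⟨?_, by rw [hx2]; exact hx⟩, hx2⟩
      intro w' hw' h4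
      exact not_both h hw hw' (by rw [hw2, hu3]) h4

theorem sub_pre {σ : Finset (Vx q G)} {c : G ⧸ Subgroup.zpowers s}
    {τ : Finset (Option (ZMod (q + 2)))} (h : BoxOK L σ (some c) τ) {v : Vx q G} {E : Finset G}
    (hE : img s v τ ⊆ E) : τ ⊆ pre s σ v E := by
  intro p hp
  rcases p with _ | u
  · exact absurd (by rw [none_mem_labs]; simp) (h.not_mem hp)
  · rw [some_mem_pre]
    refine ⟨?_, hE (mem_img.2 ⟨u, hp, rfl⟩)⟩
    intro w hw h'
    exact h.not_mem hp (some_mem_labs.2 ⟨w, hw, h'⟩)

theorem cap_iff {σ : Finset (Vx q G)} {c : G ⧸ Subgroup.zpowers s}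
    {τ : Finset (Option (ZMod (q + 2)))} (h : BoxOK L σ (some c) τ) {v : Vx q G} (hv : v ∈ σ)
    {E : Finset G} : Cap s E σ τ ↔ E ⊆ img s v τ := by
  constructor
  · intro h' x hx
    exact mem_img.2 (h' x hx v hv)
  · intro h' x hx w hw
    rw [← mem_img, ← img_eq h hv hw]
    exact h' hx

theorem img_mono {v : Vx q G} {τ τ' : Finset (Option (ZMod (q + 2)))} (h : τ ⊆ τ') :
    img s v τ ⊆ img s v τ' := by
  intro x hx
  rw [mem_img] at hx ⊢
  obtain ⟨u, hu, hx⟩ := hx
  exact ⟨u, h hu, hx⟩

/-! ### heights -/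

theorem cyc_card (L : LCx q G s) {c : G ⧸ Subgroup.zpowers s} {σ : Finset (Vx q G)}
    (h : IsA L σ (some c)) : σ.card ≤ 2 := by
  rcases h with rfl | ⟨v, -, rfl | rfl⟩
  · simp
  · simp
  · exact Finset.card_le_two

theorem finHt_card {α : Type} {S : Set (Finset α)} {N : ℕ} (h : ∀ x ∈ S, x.card ≤ N) :
    FinHtOn S :=
  ⟨N, Finset.card, fun _ _ _ _ hxy => Finset.card_lt_card hxy, h⟩

/-- a height function on the combinatorial join -/
theorem finHt_TJ {α β : Type} [PartialOrder α] [PartialOrder β] {A : Set α} {B : Set β}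
    (hA : FinHtOn A) (hB : FinHtOn B) : FinHtOn (TJ A B) := by
  obtain ⟨M, ρ, h1, h2⟩ := hA
  obtain ⟨N, ρ', h1', h2'⟩ := hB
  let r : WithBot α → ℕ := fun a => WithBot.recBotCoe 0 (fun a => ρ a + 1) a
  let r' : WithBot β → ℕ := fun a => WithBot.recBotCoe 0 (fun a => ρ' a + 1) a
  have e1 : ∀ a : α, r a = ρ a + 1 := fun a => rfl
  have e2 : ∀ a : β, r' a = ρ' a + 1 := fun a => rfl
  have e3 : r ⊥ = 0 := rfl
  have e4 : r' ⊥ = 0 := rfl
  have hr : ∀ x y : WithBot α, (∀ a : α, x = a → a ∈ A) → (∀ a : α, y = a → a ∈ A) → x ≤ y →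
      r x ≤ r y ∧ (r x = r y → x = y) := by
    intro x y hx hy hxy
    induction x with
    | bot =>
      induction y with
      | bot => exact ⟨le_rfl, fun _ => rfl⟩
      | coe y => rw [e1, e3]; exact ⟨Nat.zero_le _, fun h => by omega⟩
    | coe x =>
      induction y with
      | bot => simp at hxy
      | coe y =>
        rw [e1, e1]
        rcases (WithBot.coe_le_coe.1 hxy).eq_or_lt with rfl | hlt
        · exact ⟨le_rfl, fun _ => rfl⟩
        · have := h1 x (hx x rfl) y (hy y rfl) hlt
          exact ⟨by omega, fun h => by omega⟩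
  have hr' : ∀ x y : WithBot β, (∀ a : β, x = a → a ∈ B) → (∀ a : β, y = a → a ∈ B) → x ≤ y →
      r' x ≤ r' y ∧ (r' x = r' y → x = y) := by
    intro x y hx hy hxy
    induction x with
    | bot =>
      induction y with
      | bot => exact ⟨le_rfl, fun _ => rfl⟩
      | coe y => rw [e2, e4]; exact ⟨Nat.zero_le _, fun h => by omega⟩
    | coe x =>
      induction y with
      | bot => simp at hxy
      | coe y =>
        rw [e2, e2]
        rcases (WithBot.coe_le_coe.1 hxy).eq_or_lt with rfl | hlt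
        · exact ⟨le_rfl, fun _ => rfl⟩
        · have := h1' x (hx x rfl) y (hy y rfl) hlt
          exact ⟨by omega, fun h => by omega⟩
  refine ⟨M + N + 2, fun p => r p.1 + r' p.2, ?_, ?_⟩
  · intro x hx y hy hxy
    have a1 := hr x.1 y.1 hx.1 hy.1 hxy.le.1
    have a2 := hr' x.2 y.2 hx.2.1 hy.2.1 hxy.le.2
    dsimp only
    by_contra hcon
    exact hxy.ne (Prod.ext (a1.2 (by omega)) (a2.2 (by omega)))
  · intro x hx
    have b1 : r x.1 ≤ M + 1 := by
      obtain ⟨x1, x2⟩ := x
      induction x1 with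
      | bot => exact Nat.zero_le _
      | coe a => have := h2 a (hx.1 a rfl); dsimp only; rw [e1]; omega
    have b2 : r' x.2 ≤ N + 1 := by
      obtain ⟨x1, x2⟩ := x
      induction x2 with
      | bot => exact Nat.zero_le _
      | coe a => have := h2' a (hx.2.1 a rfl); dsimp only; rw [e2]; omega
    dsimp only
    omega

/-! ### the upper link -/

/-- the elements above `ee c e` -/
theorem mem_up {c : G ⧸ Subgroup.zpowers s} {e : Finset G} {h : EOK (q := q) c e} {x : RR L} :
    x ∈ Set.Ioi (RR.ee c e h : RR L) ↔ (∃ e' h', x = RR.ee c e' h' ∧ e ⊂ e') ∨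
      ∃ σ τ hb, x = RR.box σ (some c) τ hb ∧ Cap s e σ τ := by
  rw [Set.mem_Ioi]
  constructor
  · intro hx
    cases x with
    | kap => exact (RR.not_ee_le_kap hx.le).elim
    | box σ t τ hb =>
      right
      have := RR.ee_le_box.1 hx.le
      obtain ⟨rfl, h2⟩ := this
      exact ⟨σ, τ, hb, rfl, h2⟩
    | ee c' e' h' =>
      left
      have := RR.ee_le_ee.1 hx.le
      obtain ⟨rfl, h2⟩ := this
      refine ⟨e', h', rfl, h2, ?_⟩
      intro h3
      exact hx.not_ge (RR.ee_le_ee.2 ⟨rfl, h3⟩)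
  · rintro (⟨e', h', rfl, h2⟩ | ⟨σ, τ, hb, rfl, h2⟩)
    · rw [lt_iff_le_not_ge, RR.ee_le_ee, RR.ee_le_ee]
      exact ⟨⟨rfl, h2.1⟩, fun h3 => h2.2 h3.2⟩
    · rw [lt_iff_le_not_ge, RR.ee_le_box]
      exact ⟨⟨rfl, h2⟩, RR.not_box_le_ee⟩

theorem finHt_up {c : G ⧸ Subgroup.zpowers s} {e : Finset G} (h : EOK (q := q) c e) :
    FinHtOn (Set.Ioi (RR.ee c e h : RR L)) := by
  let ρ : RR L → ℕ := fun x => match x with
    | .kap => 0
    | .box σ _ τ _ => q + σ.card + τ.card
    | .ee _ e _ => e.card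
  refine ⟨q + 2 + (q + 3), ρ, ?_, ?_⟩
  · intro x hx y hy hxy
    rw [mem_up] at hx hy
    rcases hx with ⟨e', h', rfl, h2⟩ | ⟨σ, τ, hb, rfl, h2⟩ <;>
      rcases hy with ⟨e'', h'', rfl, h3⟩ | ⟨σ', τ', hb', rfl, h3⟩
    · have h4 := RR.ee_le_ee.1 hxy.le
      exact Finset.card_lt_card ⟨h4.2, fun h5 => hxy.not_ge (RR.ee_le_ee.2 ⟨rfl, h5⟩)⟩
    · have := h'.2
      change e'.card < q + σ'.card + τ'.card
      omega
    · exact (RR.not_box_le_ee hxy.le).elim
    · have h4 := RR.box_le_box.1 hxy.le
      change q + σ.card + τ.card < q + σ'.card + τ'.card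
      have h5 := Finset.card_le_card h4.1
      have h6 := Finset.card_le_card h4.2.2
      by_contra h7
      have h8 := Finset.eq_of_subset_of_card_le h4.1 (by omega)
      have h9 := Finset.eq_of_subset_of_card_le h4.2.2 (by omega)
      apply hxy.not_ge
      rw [RR.box_le_box, h8, h9]
      exact ⟨subset_rfl, Or.inr rfl, subset_rfl⟩
  · intro x hx
    rw [mem_up] at hx
    rcases hx with ⟨e', h', rfl, h2⟩ | ⟨σ, τ, hb, rfl, h2⟩
    · have := h'.2
      change e'.card ≤ _
      omega
    · change q + σ.card + τ.card ≤ _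
      have h5 := cyc_card L hb.2.1
      have h6 := Finset.card_le_univ τ
      have h7 : Fintype.card (Option (ZMod (q + 2))) = q + 3 := by
        rw [Fintype.card_option, ZMod.card]
      omega

/-- the map to the join -/
def Psi (e : Finset G) : RR L → WithBot (Finset (Vx q G)) × WithBot (Finset G)
  | .kap => (⊥, ⊥)
  | .ee _ e' _ => (⊥, (e' : WithBot (Finset G)))
  | .box σ _ τ hb => ((σ : WithBot (Finset (Vx q G))),
      if img s hb.1.choose τ = e then ⊥ else (img s hb.1.choose τ : WithBot (Finset G)))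

theorem Psi_box {e : Finset G} {σ : Finset (Vx q G)} {c : G ⧸ Subgroup.zpowers s}
    {τ : Finset (Option (ZMod (q + 2)))} (hb : BoxOK L σ (some c) τ) {v : Vx q G} (hv : v ∈ σ) :
    Psi e (RR.box σ (some c) τ hb) = ((σ : WithBot (Finset (Vx q G))),
      if img s v τ = e then ⊥ else (img s v τ : WithBot (Finset G))) := by
  have h1 : img s hb.1.choose τ = img s v τ := img_eq hb hb.1.choose_spec hv
  simp only [Psi, h1]

/-- the target poset -/
def TT (L : LCx q G s) (h : G) (e : Finset G) :
    Set (WithBot (Finset (Vx q G)) × WithBot (Finset G)) :=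
  TJ (cyc L (QuotientGroup.mk h)) {t | e ⊂ t ∧ t ⊂ CF q s h}

theorem sub_CF {h : G} (L : LCx q G s) {E : Finset G}
    (hE : ∀ x ∈ E, (QuotientGroup.mk x : G ⧸ Subgroup.zpowers s) = QuotientGroup.mk h) :
    E ⊆ CF q s h := fun x hx => (mem_CF L).2 (hE x hx)

theorem ssub_CF {h : G} (L : LCx q G s) {e : Finset G}
    (he : EOK (q := q) (QuotientGroup.mk h : G ⧸ Subgroup.zpowers s) e) : e ⊂ CF q s h := by
  refine ⟨sub_CF L he.1, fun h' => ?_⟩
  have := Finset.card_le_card h'
  rw [card_CF L] at this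
  have := he.2
  omega

theorem img_ssub_CF {h : G} {σ : Finset (Vx q G)} {τ : Finset (Option (ZMod (q + 2)))}
    (hb : BoxOK L σ (some (QuotientGroup.mk h)) τ) {v : Vx q G} (hv : v ∈ σ) :
    img s v τ ⊂ CF q s h := by
  refine ⟨sub_CF L (img_sub (hb.2.1.mk_eq hv)), fun h' => ?_⟩
  obtain ⟨x, hx, hx'⟩ := img_ne hb hv
  exact hx' (h' ((mem_CF L).2 hx))

theorem EOK_of_ssub {h : G} (L : LCx q G s) {E : Finset G} (hE : E ⊂ CF q s h) :
    EOK (q := q) (QuotientGroup.mk h : G ⧸ Subgroup.zpowers s) E := by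
  refine ⟨fun x hx => (mem_CF L).1 (hE.1 hx), ?_⟩
  have := Finset.card_lt_card hE
  rwa [card_CF L] at this

/-- the boxes over a proper subset of the coset -/
theorem pre_ok' {h : G} {σ : Finset (Vx q G)}
    (hσ : IsA L σ (some (QuotientGroup.mk h : G ⧸ Subgroup.zpowers s)))
    {v : Vx q G} (hv : v ∈ σ) {E : Finset G} (hE : E ⊂ CF q s h) :
    BoxOK L σ (some (QuotientGroup.mk h)) (pre s σ v E) := by
  obtain ⟨x, hx, hxE⟩ := Finset.exists_of_ssubset hE
  exact pre_ok hσ hv ((mem_CF L).1 hx) hxE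

section fibre

variable {h : G} {e : Finset G} (he : EOK (q := q) (QuotientGroup.mk h : G ⧸ Subgroup.zpowers s) e)
  {E : Finset G}

/-- the elements of the upper link below an element -/
def Dn (x : RR L) : Set (RR L) := {y | RR.ee (QuotientGroup.mk h) e he < y ∧ y ≤ x}

theorem Dn_wc {x : RR L} (hx : RR.ee (QuotientGroup.mk h) e he < x) : WC (Dn he x) :=
  WC.cone x ⟨hx, le_rfl⟩ fun _ hy => Or.inl hy.2

theorem lt_pre {σ σ' : Finset (Vx q G)} (hσ : IsA L σ (some (QuotientGroup.mk h)))
    {v : Vx q G} (hv : v ∈ σ) (hE : E ⊂ CF q s h) (heE : e ⊆ E) (hne : σ'.Nonempty)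
    (hσσ : σ' ⊆ σ) :
    RR.ee (QuotientGroup.mk h) e he <
      RR.box σ' (some (QuotientGroup.mk h)) (pre s σ v E)
        (BoxOK.shrink (pre_ok' hσ hv hE) hσσ hne) := by
  rw [← Set.mem_Ioi, mem_up]
  right
  refine ⟨_, _, _, rfl, ?_⟩
  have h1 : Cap s e σ (pre s σ v E) := by
    rw [cap_iff (pre_ok' hσ hv hE) hv, img_pre hσ hv fun x hx => (mem_CF L).1 (hE.1 hx)]
    exact heE
  exact fun x hx w hw => h1 x hx w (hσσ hw)

/-- the part of the fibre of the elements `ee` and of the boxes over `σ'` -/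
theorem le_pre {σ σ' : Finset (Vx q G)} (hσ : IsA L σ (some (QuotientGroup.mk h)))
    {v : Vx q G} (hv : v ∈ σ) (hE : E ⊂ CF q s h) (hne : σ'.Nonempty)
    (hσσ : σ' ⊆ σ) {y : RR L} (hy : RR.ee (QuotientGroup.mk h) e he < y) :
    y ≤ RR.box σ' (some (QuotientGroup.mk h)) (pre s σ v E)
        (BoxOK.shrink (pre_ok' hσ hv hE) hσσ hne) ↔
      (∃ e' h', y = RR.ee (QuotientGroup.mk h) e' h' ∧ e' ⊆ E) ∨
      ∃ ρ τ hb, y = RR.box ρ (some (QuotientGroup.mk h)) τ hb ∧ ρ ⊆ σ' ∧ τ ⊆ pre s σ v E := by
  rw [← Set.mem_Ioi, mem_up] at hy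
  rcases hy with ⟨e', h', rfl, h2⟩ | ⟨ρ, τ, hb, rfl, h2⟩
  · rw [RR.ee_le_box]
    constructor
    · rintro ⟨-, h3⟩
      left
      refine ⟨e', h', rfl, ?_⟩
      obtain ⟨w, hw⟩ := hne
      intro x hx
      obtain ⟨u, hu, hux⟩ := h3 x hx w hw
      have h4 := (some_mem_pre.1 hu).2
      rw [← hux]
      have hu' : some u ∉ labs σ (some (QuotientGroup.mk h : G ⧸ Subgroup.zpowers s)) :=
        (pre_ok' hσ hv hE).not_mem hu
      rw [hσ.ph_eq (hσσ hw) hv hu']
      exact h4
    · rintro (⟨e'', h'', h3, h4⟩ | ⟨ρ, τ, hb, h3, -⟩)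
      · refine ⟨rfl, ?_⟩
        have h5 : e' = e'' := by injection h3
        subst h5
        have h1 : Cap s e' σ (pre s σ v E) := by
          rw [cap_iff (pre_ok' hσ hv hE) hv, img_pre hσ hv fun x hx => (mem_CF L).1 (hE.1 hx)]
          exact h4
        exact fun x hx w hw => h1 x hx w (hσσ hw)
      · exact absurd h3 (by simp)
  · rw [RR.box_le_box]
    constructor
    · rintro ⟨h3, -, h4⟩
      right
      exact ⟨ρ, τ, hb, rfl, h3, h4⟩
    · rintro (⟨e'', h'', h3, h4⟩ | ⟨ρ', τ', hb', h3, h4, h5⟩)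
      · exact absurd h3 (by simp)
      · injection h3 with h6 h7 h8
        subst h6; subst h8
        exact ⟨h4, Or.inr rfl, h5⟩

end fibre

/-- the condition for the fibre -/
theorem Psi_le_iff {h : G} {e : Finset G}
    (he : EOK (q := q) (QuotientGroup.mk h : G ⧸ Subgroup.zpowers s) e) {σ : Finset (Vx q G)}
    {E : Finset G} (heE : e ⊆ E) {b : WithBot (Finset G)}
    (hb : b = if E = e then ⊥ else (E : WithBot (Finset G))) {y : RR L}
    (hy : RR.ee (QuotientGroup.mk h) e he < y) :
    Psi e y ≤ ((σ : WithBot (Finset (Vx q G))), b) ↔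
      (∃ e' h', y = RR.ee (QuotientGroup.mk h) e' h' ∧ e' ⊆ E) ∨
      ∃ ρ τ, ∃ hb : BoxOK L ρ (some (QuotientGroup.mk h)) τ,
        y = RR.box ρ (some (QuotientGroup.mk h)) τ hb ∧ ρ ⊆ σ ∧
        ∀ w ∈ ρ, img s w τ ⊆ E := by
  rw [← Set.mem_Ioi, mem_up] at hy
  rcases hy with ⟨e', h', rfl, h2⟩ | ⟨ρ, τ, hb', rfl, h2⟩
  · have h1 : Psi e (RR.ee (QuotientGroup.mk h) e' h' : RR L) = (⊥, (e' : WithBot (Finset G))) := rfl
    rw [h1, Prod.mk_le_mk, hb]
    constructor
    · rintro ⟨-, h3⟩
      left
      refine ⟨e', h', rfl, ?_⟩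
      split_ifs at h3 with h4
      · simp at h3
      · exact WithBot.coe_le_coe.1 h3
    · rintro (⟨e'', h'', h3, h4⟩ | ⟨ρ, τ, hb, h3, -⟩)
      · have h5 : e' = e'' := by injection h3
        subst h5
        refine ⟨bot_le, ?_⟩
        rw [if_neg]
        · exact WithBot.coe_le_coe.2 h4
        · rintro rfl
          exact h2.2 h4
      · exact absurd h3 (by simp)
  · obtain ⟨v, hv⟩ := hb'.1
    rw [Psi_box hb' hv, Prod.mk_le_mk, hb]
    have h3 : e ⊆ img s v τ := (cap_iff hb' hv).1 h2
    have h4 : (if img s v τ = e then ⊥ else (img s v τ : WithBot (Finset G))) ≤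
        (if E = e then ⊥ else (E : WithBot (Finset G))) ↔ img s v τ ⊆ E := by
      split_ifs with h5 h6 h6
      · simp [h5, h6]
      · simp [h5, heE]
      · constructor
        · intro h7; simp at h7
        · intro h7
          exact absurd (h7.trans h6.subset |>.antisymm h3) h5
      · exact WithBot.coe_le_coe
    rw [h4]
    constructor
    · rintro ⟨h5, h6⟩
      right
      refine ⟨ρ, τ, hb', rfl, WithBot.coe_le_coe.1 h5, ?_⟩
      intro w hw
      rw [img_eq hb' hw hv]
      exact h6
    · rintro (⟨e'', h'', h5, -⟩ | ⟨ρ', τ', hb'', h5, h6, h7⟩)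
      · exact absurd h5 (by simp)
      · injection h5 with h8 h9 h10
        subst h8; subst h10
        exact ⟨WithBot.coe_le_coe.2 h6, h7 v hv⟩

theorem Cov_down' {X : Type} [PartialOrder X] {A B : Set X} (hA : ∀ x ∈ A, ∀ y ∈ B, y < x → y ∈ A)
    (hB : ∀ x ∈ B, ∀ y ∈ A, y < x → y ∈ B) : Cov A B := Cov.down hA hB

/-- the fibres of the map are contractible -/
theorem fibre_wc {h : G} {e : Finset G}
    (he : EOK (q := q) (QuotientGroup.mk h : G ⧸ Subgroup.zpowers s) e)
    {y : WithBot (Finset (Vx q G)) × WithBot (Finset G)} (hy : y ∈ TT L h e) :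
    WC {x ∈ Set.Ioi (RR.ee (QuotientGroup.mk h) e he : RR L) | Psi e x ≤ y} := by
  obtain ⟨a, b⟩ := y
  obtain ⟨h1, h2, h3⟩ := hy
  dsimp only at h1 h2
  obtain ⟨E, hE, heE, hb⟩ : ∃ E : Finset G, E ⊂ CF q s h ∧ e ⊆ E ∧
      b = if E = e then ⊥ else (E : WithBot (Finset G)) := by
    induction b with
    | bot => exact ⟨e, ssub_CF L he, subset_rfl, by simp⟩
    | coe E =>
      have := h2 E rfl
      exact ⟨E, this.2, this.1.1, by rw [if_neg]; rintro rfl; exact this.1.2 subset_rfl⟩
  induction a with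
  | bot =>
    -- the maximum is `ee c E`
    have hne : E ≠ e := by
      rintro rfl
      rw [if_pos rfl] at hb
      exact h3 (by rw [hb])
    have hlt : e ⊂ E := ⟨heE, fun h' => hne (h'.antisymm heE)⟩
    rw [if_neg hne] at hb
    refine WC.cone (RR.ee (QuotientGroup.mk h) E (EOK_of_ssub L hE)) ⟨?_, ?_⟩ ?_
    · rw [mem_up]
      exact Or.inl ⟨E, _, rfl, hlt⟩
    · rw [hb]; exact le_rfl
    · rintro x ⟨hx, hx'⟩
      left
      rw [mem_up] at hx
      rcases hx with ⟨e', h', rfl, h4⟩ | ⟨σ, τ, hb', rfl, h4⟩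
      · rw [RR.ee_le_ee]
        refine ⟨rfl, ?_⟩
        rw [hb] at hx'
        exact WithBot.coe_le_coe.1 hx'.2
      · exfalso
        have := hx'.1
        simp [Psi] at this
  | coe σ =>
    have hσ := h1 σ rfl
    obtain ⟨hσne, hσA⟩ := hσ
    -- description of the fibre
    have hfib : ∀ x, x ∈ {x ∈ Set.Ioi (RR.ee (QuotientGroup.mk h) e he : RR L) |
        Psi e x ≤ ((σ : WithBot (Finset (Vx q G))), b)} ↔
        RR.ee (QuotientGroup.mk h) e he < x ∧
          ((∃ e' h', x = RR.ee (QuotientGroup.mk h) e' h' ∧ e' ⊆ E) ∨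
      ∃ ρ τ, ∃ hb : BoxOK L ρ (some (QuotientGroup.mk h)) τ,
        x = RR.box ρ (some (QuotientGroup.mk h)) τ hb ∧ ρ ⊆ σ ∧
        ∀ w ∈ ρ, img s w τ ⊆ E) := by
      intro x
      constructor
      · rintro ⟨hx, hx'⟩
        exact ⟨hx, (Psi_le_iff he heE hb hx).1 hx'⟩
      · rintro ⟨hx, hx'⟩
        exact ⟨hx, (Psi_le_iff he heE hb hx).2 hx'⟩
    rcases hσA with rfl | ⟨v, hv, hσ | hσ⟩
    · simp at hσne
    · -- a vertex
      have hA : IsA L {v} (some (QuotientGroup.mk h : G ⧸ Subgroup.zpowers s)) :=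
        Or.inr ⟨v, hv, Or.inl rfl⟩
      have hvs : v ∈ ({v} : Finset (Vx q G)) := by simp
      have hne : ({v} : Finset (Vx q G)).Nonempty := by simp
      have : {x ∈ Set.Ioi (RR.ee (QuotientGroup.mk h) e he : RR L) |
          Psi e x ≤ ((σ : WithBot (Finset (Vx q G))), b)} =
          Dn he (RR.box {v} (some (QuotientGroup.mk h)) (pre s {v} v E)
            (BoxOK.shrink (pre_ok' hA hvs hE) subset_rfl hne)) := by
        ext x
        rw [hfib]
        unfold Dn
        rw [Set.mem_ofPred_eq]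
        refine and_congr_right fun hx => ?_
        rw [le_pre he hA hvs hE hne subset_rfl hx, hσ]
        refine or_congr Iff.rfl ⟨?_, ?_⟩
        · rintro ⟨ρ, τ, hb', rfl, h4, h5⟩
          refine ⟨ρ, τ, hb', rfl, h4, ?_⟩
          have hρ : ρ = {v} := by
            rcases Finset.subset_singleton_iff.1 h4 with h6 | h6
            · exact absurd hb'.1 (by simp [h6])
            · exact h6
          subst hρ
          exact sub_pre hb' (h5 v (by simp))
        · rintro ⟨ρ, τ, hb', rfl, h4, h5⟩
          refine ⟨ρ, τ, hb', rfl, h4, ?_⟩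
          intro w hw
          have hwv : w = v := by simpa using h4 hw
          subst hwv
          have := img_mono (s := s) (v := w) h5
          rwa [img_pre hA (by simp) fun x hx => (mem_CF L).1 (hE.1 hx)] at this
      rw [this]
      exact Dn_wc he (lt_pre he hA hvs hE heE hne subset_rfl)
    · -- an edge
      let w := nxt s v
      have hvw : v ≠ w := fun h' => L.nxt_ne v h'.symm
      have hw : (QuotientGroup.mk w.1 : G ⧸ Subgroup.zpowers s) = QuotientGroup.mk h := by
        rw [← hv]; exact L.nxt_mk v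
      have hAv : IsA L {v} (some (QuotientGroup.mk h : G ⧸ Subgroup.zpowers s)) :=
        Or.inr ⟨v, hv, Or.inl rfl⟩
      have hAw : IsA L {w} (some (QuotientGroup.mk h : G ⧸ Subgroup.zpowers s)) :=
        Or.inr ⟨w, hw, Or.inl rfl⟩
      have hA : IsA L {v, w} (some (QuotientGroup.mk h : G ⧸ Subgroup.zpowers s)) :=
        Or.inr ⟨v, hv, Or.inr rfl⟩
      have hEC : ∀ x ∈ E, (QuotientGroup.mk x : G ⧸ Subgroup.zpowers s) = QuotientGroup.mk h :=
        fun x hx => (mem_CF L).1 (hE.1 hx)
      have hvs : v ∈ ({v} : Finset (Vx q G)) := by simp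
      have hws : w ∈ ({w} : Finset (Vx q G)) := by simp
      have hvs2 : v ∈ ({v, w} : Finset (Vx q G)) := by simp
      have hws2 : w ∈ ({v, w} : Finset (Vx q G)) := by simp
      have hnev : ({v} : Finset (Vx q G)).Nonempty := by simp
      have hnew : ({w} : Finset (Vx q G)).Nonempty := by simp
      have hne2 : ({v, w} : Finset (Vx q G)).Nonempty := by simp
      have hsv : ({v} : Finset (Vx q G)) ⊆ {v, w} := by simp
      have hsw : ({w} : Finset (Vx q G)) ⊆ {v, w} := by simp
      let xv : RR L := RR.box {v} (some (QuotientGroup.mk h)) (pre s {v} v E)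
            (BoxOK.shrink (pre_ok' hAv hvs hE) subset_rfl hnev)
      let xw : RR L := RR.box {w} (some (QuotientGroup.mk h)) (pre s {w} w E)
            (BoxOK.shrink (pre_ok' hAw hws hE) subset_rfl hnew)
      let x2 : RR L := RR.box {v, w} (some (QuotientGroup.mk h)) (pre s {v, w} v E)
            (BoxOK.shrink (pre_ok' hA hvs2 hE) subset_rfl hne2)
      let yv : RR L := RR.box {v} (some (QuotientGroup.mk h)) (pre s {v, w} v E)
            (BoxOK.shrink (pre_ok' hA hvs2 hE) hsv hnev)
      let yw : RR L := RR.box {w} (some (QuotientGroup.mk h)) (pre s {v, w} v E)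
            (BoxOK.shrink (pre_ok' hA hvs2 hE) hsw hnew)
      have hxv := lt_pre he hAv hvs hE heE hnev subset_rfl
      have hxw := lt_pre he hAw hws hE heE hnew subset_rfl
      have hx2 := lt_pre he hA hvs2 hE heE hne2 subset_rfl
      have hyv := lt_pre he hA hvs2 hE heE hnev hsv
      have hyw := lt_pre he hA hvs2 hE heE hnew hsw
      -- comparison of the preimages
      have hpv : pre s {v, w} v E ⊆ pre s {v} v E := by
        have : BoxOK L {v} (some (QuotientGroup.mk h)) (pre s {v, w} v E) :=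
          BoxOK.shrink (pre_ok' hA hvs2 hE) hsv hnev
        refine sub_pre this ?_
        rw [img_pre hA hvs2 hEC]
      have himw : img s w (pre s {v, w} v E) = E := by
        rw [← img_eq (pre_ok' hA hvs2 hE) hvs2 hws2, img_pre hA hvs2 hEC]
      have hpw : pre s {v, w} v E ⊆ pre s {w} w E := by
        have : BoxOK L {w} (some (QuotientGroup.mk h)) (pre s {v, w} v E) :=
          BoxOK.shrink (pre_ok' hA hvs2 hE) hsw hnew
        refine sub_pre this ?_
        rw [himw]
      have e1 : Dn he xv ∩ Dn he x2 = Dn he yv := by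
        ext x
        constructor
        · rintro ⟨⟨hx, h4⟩, -, h5⟩
          refine ⟨hx, ?_⟩
          rw [le_pre he hA hvs2 hE hnev hsv hx]
          rw [le_pre he hAv hvs hE hnev subset_rfl hx] at h4
          rw [le_pre he hA hvs2 hE hne2 subset_rfl hx] at h5
          rcases h5 with h5 | ⟨ρ, τ, hb', rfl, h6, h7⟩
          · exact Or.inl h5
          · right
            refine ⟨ρ, τ, hb', rfl, ?_, h7⟩
            rcases h4 with ⟨e'', h'', h8, -⟩ | ⟨ρ', τ', hb'', h8, h9, -⟩
            · exact absurd h8 (by simp)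
            · injection h8 with h10 h11 h12
              rw [h10]; exact h9
        · rintro ⟨hx, h4⟩
          refine ⟨⟨hx, h4.trans ?_⟩, hx, h4.trans ?_⟩
          · exact RR.box_le_box.2 ⟨subset_rfl, Or.inr rfl, hpv⟩
          · exact RR.box_le_box.2 ⟨hsv, Or.inr rfl, subset_rfl⟩
      have e2 : (Dn he xv ∪ Dn he x2) ∩ Dn he xw = Dn he yw := by
        ext x
        constructor
        · rintro ⟨h0, hx, h5⟩
          refine ⟨hx, ?_⟩
          rw [le_pre he hA hvs2 hE hnew hsw hx]
          rw [le_pre he hAw hws hE hnew subset_rfl hx] at h5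
          rcases h5 with h5 | ⟨ρ, τ, hb', rfl, h6, h7⟩
          · exact Or.inl h5
          · right
            refine ⟨ρ, τ, hb', rfl, h6, ?_⟩
            have hρ : ρ = {w} := by
              rcases Finset.subset_singleton_iff.1 h6 with h8 | h8
              · exact absurd hb'.1 (by simp [h8])
              · exact h8
            rcases h0 with ⟨-, h4⟩ | ⟨-, h4⟩
            · rw [le_pre he hAv hvs hE hnev subset_rfl hx] at h4
              exfalso
              rcases h4 with ⟨e'', h'', h8, -⟩ | ⟨ρ', τ', hb'', h8, h9, -⟩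
              · exact absurd h8 (by simp)
              · injection h8 with h10 h11 h12
                rw [← h10, hρ] at h9
                have h13 := h9 (Finset.mem_singleton_self w)
                exact hvw (Finset.mem_singleton.1 h13).symm
            · rw [le_pre he hA hvs2 hE hne2 subset_rfl hx] at h4
              rcases h4 with ⟨e'', h'', h8, -⟩ | ⟨ρ', τ', hb'', h8, -, h9⟩
              · exact absurd h8 (by simp)
              · injection h8 with h10 h11 h12
                rw [h12]; exact h9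
        · rintro ⟨hx, h4⟩
          refine ⟨Or.inr ⟨hx, h4.trans ?_⟩, hx, h4.trans ?_⟩
          · exact RR.box_le_box.2 ⟨hsw, Or.inr rfl, subset_rfl⟩
          · exact RR.box_le_box.2 ⟨subset_rfl, Or.inr rfl, hpw⟩
      have e3 : {x ∈ Set.Ioi (RR.ee (QuotientGroup.mk h) e he : RR L) |
          Psi e x ≤ ((σ : WithBot (Finset (Vx q G))), b)} =
          (Dn he xv ∪ Dn he x2) ∪ Dn he xw := by
        ext x
        rw [hfib]
        constructor
        · rintro ⟨hx, h4⟩
          rcases h4 with h4 | ⟨ρ, τ, hb', rfl, h5, h6⟩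
          · left; left
            exact ⟨hx, (le_pre he hAv hvs hE hnev subset_rfl hx).2 (Or.inl h4)⟩
          · rw [hσ] at h5
            by_cases hvρ : v ∈ ρ
            · by_cases hwρ : w ∈ ρ
              · left; right
                refine ⟨hx, (le_pre he hA hvs2 hE hne2 subset_rfl hx).2
                  (Or.inr ⟨ρ, τ, hb', rfl, h5, ?_⟩)⟩
                have hρ : ρ = {v, w} := by
                  apply Finset.Subset.antisymm h5
                  intro z hz
                  simp only [Finset.mem_insert, Finset.mem_singleton] at hz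
                  rcases hz with rfl | rfl <;> assumption
                subst hρ
                exact sub_pre hb' (h6 v hvρ)
              · left; left
                have hρ : ρ = {v} := by
                  apply Finset.Subset.antisymm
                  · intro z hz
                    have := h5 hz
                    simp only [Finset.mem_insert, Finset.mem_singleton] at this ⊢
                    rcases this with rfl | rfl
                    · rfl
                    · exact absurd hz hwρ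
                  · simpa using hvρ
                subst hρ
                exact ⟨hx, (le_pre he hAv hvs hE hnev subset_rfl hx).2
                  (Or.inr ⟨_, τ, hb', rfl, subset_rfl, sub_pre hb' (h6 v hvρ)⟩)⟩
            · right
              have hρ : ρ = {w} := by
                have h7 : ρ ⊆ {w} := by
                  intro z hz
                  have := h5 hz
                  simp only [Finset.mem_insert, Finset.mem_singleton] at this ⊢
                  rcases this with rfl | rfl
                  · exact absurd hz hvρ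
                  · rfl
                rcases Finset.subset_singleton_iff.1 h7 with h8 | h8
                · exact absurd hb'.1 (by simp [h8])
                · exact h8
              subst hρ
              exact ⟨hx, (le_pre he hAw hws hE hnew subset_rfl hx).2
                (Or.inr ⟨_, τ, hb', rfl, subset_rfl, sub_pre hb' (h6 w (by simp))⟩)⟩
        · rintro ((⟨hx, h4⟩ | ⟨hx, h4⟩) | ⟨hx, h4⟩)
          · refine ⟨hx, ?_⟩
            rw [le_pre he hAv hvs hE hnev subset_rfl hx] at h4
            rcases h4 with h4 | ⟨ρ, τ, hb', rfl, h5, h6⟩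
            · exact Or.inl h4
            · right
              refine ⟨ρ, τ, hb', rfl, by rw [hσ]; exact h5.trans hsv, ?_⟩
              intro z hz
              have hzv : z = v := by simpa using h5 hz
              subst hzv
              have := img_mono (s := s) (v := z) h6
              rwa [img_pre hAv (by simp) hEC] at this
          · refine ⟨hx, ?_⟩
            rw [le_pre he hA hvs2 hE hne2 subset_rfl hx] at h4
            rcases h4 with h4 | ⟨ρ, τ, hb', rfl, h5, h6⟩
            · exact Or.inl h4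
            · right
              refine ⟨ρ, τ, hb', rfl, by rw [hσ]; exact h5, ?_⟩
              intro z hz
              have := img_mono (s := s) (v := z) h6
              have hz2 := h5 hz
              simp only [Finset.mem_insert, Finset.mem_singleton] at hz2
              rcases hz2 with rfl | rfl
              · rwa [img_pre hA hvs2 hEC] at this
              · rwa [himw] at this
          · refine ⟨hx, ?_⟩
            rw [le_pre he hAw hws hE hnew subset_rfl hx] at h4
            rcases h4 with h4 | ⟨ρ, τ, hb', rfl, h5, h6⟩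
            · exact Or.inl h4
            · right
              refine ⟨ρ, τ, hb', rfl, by rw [hσ]; exact h5.trans hsw, ?_⟩
              intro z hz
              have hzv : z = w := by simpa using h5 hz
              subst hzv
              have := img_mono (s := s) (v := w) h6
              rwa [img_pre hAw (by simp) hEC] at this
      rw [e3]
      have hdown : ∀ x : RR L, ∀ a ∈ Dn he x, ∀ b, RR.ee (QuotientGroup.mk h) e he < b → b < a →
          b ∈ Dn he x := fun x a ha b hb' hba => ⟨hb', hba.le.trans ha.2⟩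
      refine WC.union ?_ (WC.union ?_ (Dn_wc he hxv) (Dn_wc he hx2) ?_) (Dn_wc he hxw) ?_
      · refine Cov.down ?_ ?_
        · intro x hx y hy hyx
          rcases hx with hx | hx
          · exact Or.inl (hdown _ x hx y hy.1 hyx)
          · exact Or.inr (hdown _ x hx y hy.1 hyx)
        · intro x hx y hy hyx
          refine hdown _ x hx y ?_ hyx
          rcases hy with hy | hy
          · exact hy.1
          · exact hy.1
      · refine Cov.down ?_ ?_
        · intro x hx y hy hyx
          exact hdown _ x hx y hy.1 hyx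
        · intro x hx y hy hyx
          exact hdown _ x hx y hy.1 hyx
      · rw [e1]; exact Dn_wc he hyv
      · rw [e2]; exact Dn_wc he hyw

theorem heq_up (L : LCx q G s) {h : G} {e : Finset G}
    (he : EOK (q := q) (QuotientGroup.mk h : G ⧸ Subgroup.zpowers s) e) :
    HEq' (Set.Ioi (RR.ee (QuotientGroup.mk h) e he : RR L)) (TT L h e) := by
  refine HEq'.quillen_le (finHt_up he) ?_ (Psi e) ?_ ?_ ?_
  · refine finHt_TJ (finHt_card (N := 2) fun x hx => cyc_card L hx.2)
      (finHt_card (N := q) fun x hx => ?_)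
    have := Finset.card_le_card hx.2.1
    rwa [card_CF L] at this
  · intro x hx
    rw [mem_up] at hx
    rcases hx with ⟨e', h', rfl, h2⟩ | ⟨σ, τ, hb, rfl, h2⟩
    · refine ⟨?_, ?_, ?_⟩
      · intro a ha; simp [Psi] at ha
      · intro b hb
        have : e' = b := WithBot.coe_injective hb
        subst this
        exact ⟨h2, ssub_CF L h'⟩
      · simp [Psi]
    · obtain ⟨v, hv⟩ := hb.1
      rw [Psi_box hb hv]
      refine ⟨?_, ?_, ?_⟩
      · intro a ha
        have : σ = a := WithBot.coe_injective ha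
        subst this
        exact ⟨hb.1, hb.2.1⟩
      · intro b hb'
        dsimp only at hb'
        split_ifs at hb' with h3
        · simp at hb'
        · have : img s v τ = b := WithBot.coe_injective hb'
          subst this
          exact ⟨⟨(cap_iff hb hv).1 h2, fun h4 => h3 (h4.antisymm ((cap_iff hb hv).1 h2))⟩,
            img_ssub_CF hb hv⟩
      · simp
  · intro x hx y hy hxy
    have hx' := mem_up.1 hx
    have hy' := mem_up.1 hy
    rcases hy' with ⟨e'', h'', rfl, h3⟩ | ⟨σ', τ', hb', rfl, h3⟩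
    · rcases hx' with ⟨e', h', rfl, h2⟩ | ⟨σ, τ, hb, rfl, h2⟩
      · exact Prod.mk_le_mk.2 ⟨le_rfl, WithBot.coe_le_coe.2 (RR.ee_le_ee.1 hxy).2⟩
      · exact (RR.not_box_le_ee hxy).elim
    · obtain ⟨v, hv⟩ := hb'.1
      rw [Psi_box hb' hv, Psi_le_iff he ((cap_iff hb' hv).1 h3) rfl hx]
      rcases hx' with ⟨e', h', rfl, h2⟩ | ⟨σ, τ, hb, rfl, h2⟩
      · left
        exact ⟨e', h', rfl, (cap_iff hb' hv).1 (RR.ee_le_box.1 hxy).2⟩
      · right
        have h4 := RR.box_le_box.1 hxy
        refine ⟨σ, τ, hb, rfl, h4.1, ?_⟩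
        intro w hw
        rw [img_eq hb' hv (h4.1 hw)]
        exact img_mono h4.2.2
  · intro y hy
    exact fibre_wc he hy

end

end LcE

variable {q : ℕ} {G : Type} [Group G] {s : G} {L : LCx q G s}

theorem RR.up_ee {c : G ⧸ Subgroup.zpowers s} {e : Finset G} (h : EOK (q := q) c e) :
    Sph (Set.Ioi (RR.ee c e h : RR L)) (q + 1 - e.card) := by
  obtain ⟨g, rfl⟩ := QuotientGroup.mk_surjective c
  rw [(LcE.heq_up L h).sph]
  have h1 := LcE.sph_cyc L (QuotientGroup.mk g)
  have h2 := sph_interval e (LcE.CF q s g) (LcE.ssub_CF L h)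
  have h3 : 2 + ((LcE.CF q s g).card - e.card - 1) = q + 1 - e.card := by
    rw [LcE.card_CF L]
    have := h.2
    omega
  rw [← h3]
  refine sph_TJ (LcE.finHt_card (N := 2) fun x hx => LcE.cyc_card L hx.2)
      (LcE.finHt_card (N := q) fun x hx => ?_) h1 h2
  have := Finset.card_le_card hx.2.1
  rwa [LcE.card_CF L] at this

theorem RR.sc_up_ee {c : G ⧸ Subgroup.zpowers s} (h : EOK (q := q) c ∅) :
    SC (Set.Ioi (RR.ee c ∅ h : RR L)) := by
  obtain ⟨g, rfl⟩ := QuotientGroup.mk_surjective c
  rw [(LcE.heq_up L h).sc]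
  have h1 := (LcE.sph_cyc L (QuotientGroup.mk g)).conn
  refine sc_TJ (LcE.finHt_card (N := 2) fun x hx => LcE.cyc_card L hx.2)
      (LcE.finHt_card (N := q) fun x hx => ?_) h1 ?_
  · have := Finset.card_le_card hx.2.1
    rwa [LcE.card_CF L] at this
  · refine ⟨{g}, ?_, ?_⟩
    · exact Finset.ssubset_iff_subset_ne.2 ⟨by simp, by simp⟩
    · refine LcE.ssub_CF L ⟨by simp, ?_⟩
      have := L.q5
      rw [Finset.card_singleton]
      omega

end Pool.Agent.Helper59.PD
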