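import Pool.Agent.Helper59.PD.LCf
import Pool.Agent.Helper59.PD.Bier

/-! Upper links of box elements. -/

set_option autoImplicit false

open scoped Classical

namespace Pool.Agent.Helper59.PD

variable {q : ℕ} {G : Type} [Group G] {s : G} {L : LCx q G s}

namespace LcUp

theorem labs_nonempty {σ : Finset (Vx q G)} {t : Option (G ⧸ Subgroup.zpowers s)}
    (hσ : σ.Nonempty) : (labs σ t).Nonempty := by
  obtain ⟨v, hv⟩ := hσ
  exact ⟨some v.2, some_mem_labs.2 ⟨v, hv, rfl⟩⟩

theorem labs_mono {σ σ' : Finset (Vx q G)} {t t' : Option (G ⧸ Subgroup.zpowers s)}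
    (h1 : σ ⊆ σ') (h2 : t = none ∨ t = t') : labs σ t ⊆ labs σ' t' := by
  intro u hu
  rcases u with _ | u
  · rw [none_mem_labs] at hu ⊢
    rcases h2 with h2 | h2
    · exact absurd h2 hu
    · rwa [← h2]
  · rw [some_mem_labs] at hu ⊢
    obtain ⟨v, hv, hvu⟩ := hu
    exact ⟨v, h1 hv, hvu⟩

/-- the restriction of a simplex to a set of labels -/
theorem AL_down {ρ ρ' : Finset (Option (ZMod (q + 2)))} (h : ρ ∈ AL L) (hρ : ρ' ⊆ ρ)
    (hne : ρ'.Nonempty) : ρ' ∈ AL L := by
  obtain ⟨σ, t, hA, rfl⟩ := h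
  by_cases hn : none ∈ ρ'
  · refine ⟨σ.filter (fun v => some v.2 ∈ ρ'), t, ?_, ?_⟩
    · refine hA.down (Finset.filter_subset _ _) (Or.inr rfl) ?_
      intro ht
      exact absurd ht (none_mem_labs.1 (hρ hn))
    · ext u
      rcases u with _ | u
      · rw [none_mem_labs]
        exact ⟨fun _ => none_mem_labs.1 (hρ hn), fun _ => hn⟩
      · rw [some_mem_labs]
        constructor
        · intro hu
          obtain ⟨v, hv, rfl⟩ := some_mem_labs.1 (hρ hu)
          exact ⟨v, Finset.mem_filter.2 ⟨hv, hu⟩, rfl⟩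
        · rintro ⟨v, hv, rfl⟩
          exact (Finset.mem_filter.1 hv).2
  · refine ⟨σ.filter (fun v => some v.2 ∈ ρ'), none, ?_, ?_⟩
    · refine hA.down (Finset.filter_subset _ _) (Or.inl rfl) ?_
      intro _
      obtain ⟨u, hu⟩ := hne
      rcases u with _ | u
      · exact absurd hu hn
      · obtain ⟨v, hv, rfl⟩ := some_mem_labs.1 (hρ hu)
        exact ⟨v, Finset.mem_filter.2 ⟨hv, hu⟩⟩
    · ext u
      rcases u with _ | u
      · rw [none_mem_labs]
        exact ⟨fun h => absurd h hn, fun h => absurd rfl h⟩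
      · rw [some_mem_labs]
        constructor
        · intro hu
          obtain ⟨v, hv, rfl⟩ := some_mem_labs.1 (hρ hu)
          exact ⟨v, Finset.mem_filter.2 ⟨hv, hu⟩, rfl⟩
        · rintro ⟨v, hv, rfl⟩
          exact (Finset.mem_filter.1 hv).2

/-- two simplices which contain a common vertex are compared by their labels -/
theorem le_of_labs {v : Vx q G} {σ σ' : Finset (Vx q G)} {t t' : Option (G ⧸ Subgroup.zpowers s)}
    (hA : IsA L σ t) (hA' : IsA L σ' t') (hv : v ∈ σ) (hv' : v ∈ σ')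
    (h : labs σ t ⊆ labs σ' t') : σ ⊆ σ' ∧ (t = none ∨ t = t') := by
  constructor
  · intro w hw
    obtain ⟨w', hw', hww⟩ := some_mem_labs.1 (h (some_mem_labs.2 ⟨w, hw, rfl⟩))
    have h1 : IsA L {v, w} none := hA.down (by
      intro x hx
      simp only [Finset.mem_insert, Finset.mem_singleton] at hx
      rcases hx with rfl | rfl <;> assumption) (Or.inl rfl) (fun _ => ⟨v, by simp⟩)
    have h2 : IsA L {v, w'} none := hA'.down (by
      intro x hx
      simp only [Finset.mem_insert, Finset.mem_singleton] at hx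
      rcases hx with rfl | rfl <;> assumption) (Or.inl rfl) (fun _ => ⟨v, by simp⟩)
    rw [L.uniq v w w' h1 h2 hww.symm]
    exact hw'
  · rcases t with _ | c
    · exact Or.inl rfl
    · right
      have h1 : none ∈ labs σ' t' := h (none_mem_labs.2 (by simp))
      rw [none_mem_labs] at h1
      rcases t' with _ | c'
      · exact absurd rfl h1
      · rw [← hA.mk_eq hv, ← hA'.mk_eq hv']

/-- lifting of label sets -/
theorem exists_lift {σ : Finset (Vx q G)} {t : Option (G ⧸ Subgroup.zpowers s)}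
    (hA : IsA L σ t) (hσ : σ.Nonempty) {ρ : Finset (Option (ZMod (q + 2)))} (hρ : ρ ∈ AL L)
    (h : labs σ t ⊆ ρ) :
    ∃ σ' t', IsA L σ' t' ∧ σ ⊆ σ' ∧ (t = none ∨ t = t') ∧ labs σ' t' = ρ := by
  obtain ⟨σ0, t0, hA0, rfl⟩ := hρ
  obtain ⟨v, hv⟩ := hσ
  obtain ⟨v0, hv0, hvv⟩ := some_mem_labs.1 (h (some_mem_labs.2 ⟨v, hv, rfl⟩))
  have h1 : trl (v.1 * v0.1⁻¹) v0 = v := by
    unfold trl
    rw [inv_mul_cancel_right, hvv]
  have hA' := hA0.smul (v.1 * v0.1⁻¹)
  have hl := labs_smul σ0 t0 (v.1 * v0.1⁻¹)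
  have hv' : v ∈ σ0.image (trl (v.1 * v0.1⁻¹)) := Finset.mem_image.2 ⟨v0, hv0, h1⟩
  have h2 := le_of_labs hA hA' hv hv' (by rw [hl]; exact h)
  exact ⟨_, _, hA', h2.1, h2.2, hl⟩

theorem labs_card {σ : Finset (Vx q G)} {t : Option (G ⧸ Subgroup.zpowers s)}
    (hA : IsA L σ t) : (labs σ t).card = σ.card + (if t = none then 0 else 1) := by
  have hi : (σ.image (fun v => some v.2) : Finset (Option (ZMod (q + 2)))).card = σ.card := by
    apply Finset.card_image_of_injOn
    intro v hv w hw hvw
    exact hA.inj hv hw (Option.some.inj hvw)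
  unfold labs
  split_ifs with ht
  · rw [Finset.union_empty, hi]
    rfl
  · rw [Finset.card_union_of_disjoint, hi, Finset.card_singleton]
    rw [Finset.disjoint_singleton_right]
    simp

/-- the labels which are not used by a box element -/
noncomputable def RS (s : G) (σ : Finset (Vx q G)) (t : Option (G ⧸ Subgroup.zpowers s))
    (τ : Finset (Option (ZMod (q + 2)))) : Finset (Option (ZMod (q + 2))) :=
  (labs σ t ∪ τ)ᶜ

theorem RS_card {σ : Finset (Vx q G)} {t : Option (G ⧸ Subgroup.zpowers s)}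
    {τ : Finset (Option (ZMod (q + 2)))} (h : BoxOK L σ t τ) :
    (RS s σ t τ).card - 1 = q + 1 - (RR.box σ t τ h).rk := by
  unfold RS
  rw [Finset.card_compl, Finset.card_union_of_disjoint h.2.2.1, labs_card h.2.1]
  have h1 : Fintype.card (Option (ZMod (q + 2))) = q + 3 := by
    rw [Fintype.card_option, ZMod.card]
  rw [h1]
  have h2 : (RR.box σ t τ h).rk = σ.card + (if t = none then 0 else 1) + τ.card - 1 := rfl
  rw [h2]
  have h3 := h.1.card_pos
  omega

/-- the map to the Bier poset -/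
noncomputable def fb (σ : Finset (Vx q G)) (t : Option (G ⧸ Subgroup.zpowers s))
    (τ : Finset (Option (ZMod (q + 2)))) :
    RR L → Finset (Option (ZMod (q + 2))) × Finset (Option (ZMod (q + 2)))
  | .box σ' t' τ' _ => (labs σ' t' \ labs σ t, τ' \ τ)
  | _ => (∅, ∅)

theorem fb_box {σ : Finset (Vx q G)} {t : Option (G ⧸ Subgroup.zpowers s)}
    {τ : Finset (Option (ZMod (q + 2)))} {σ' : Finset (Vx q G)}
    {t' : Option (G ⧸ Subgroup.zpowers s)}
    {τ' : Finset (Option (ZMod (q + 2)))} (h' : BoxOK L σ' t' τ') :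
    fb σ t τ (RR.box σ' t' τ' h') = (labs σ' t' \ labs σ t, τ' \ τ) := rfl

theorem mem_Ioi {σ : Finset (Vx q G)} {t : Option (G ⧸ Subgroup.zpowers s)}
    {τ : Finset (Option (ZMod (q + 2)))} (h : BoxOK L σ t τ) (x : RR L)
    (hx : x ∈ Set.Ioi (RR.box σ t τ h)) :
    ∃ σ' t' τ', ∃ h' : BoxOK L σ' t' τ', x = RR.box σ' t' τ' h' ∧ σ ⊆ σ' ∧
      (t = none ∨ t = t') ∧ τ ⊆ τ' := by
  have hle : RR.box σ t τ h ≤ x := le_of_lt hx
  cases x with
  | kap => exact absurd hle RR.not_box_le_kap
  | ee c e h' => exact absurd hle RR.not_box_le_ee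
  | box σ' t' τ' h' =>
    rw [RR.box_le_box] at hle
    exact ⟨σ', t', τ', h', rfl, hle.1, hle.2.1, hle.2.2⟩

theorem fb_le {σ : Finset (Vx q G)} {t : Option (G ⧸ Subgroup.zpowers s)}
    {τ : Finset (Option (ZMod (q + 2)))} (h : BoxOK L σ t τ) (x y : RR L)
    (hx : x ∈ Set.Ioi (RR.box σ t τ h)) (hy : y ∈ Set.Ioi (RR.box σ t τ h)) :
    x ≤ y ↔ (fb σ t τ x).1 ⊆ (fb σ t τ y).1 ∧ (fb σ t τ x).2 ⊆ (fb σ t τ y).2 := by
  obtain ⟨σ1, t1, τ1, h1, rfl, a1, a2, a3⟩ := mem_Ioi h x hx
  obtain ⟨σ2, t2, τ2, h2, rfl, b1, b2, b3⟩ := mem_Ioi h y hy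
  rw [fb_box, fb_box, RR.box_le_box]
  dsimp only
  constructor
  · rintro ⟨c1, c2, c3⟩
    exact ⟨Finset.sdiff_subset_sdiff (labs_mono c1 c2) subset_rfl,
      Finset.sdiff_subset_sdiff c3 subset_rfl⟩
  · rintro ⟨c1, c2⟩
    obtain ⟨v, hv⟩ := h.1
    have e1 : labs σ1 t1 ⊆ labs σ2 t2 := by
      intro u hu
      by_cases hu' : u ∈ labs σ t
      · exact labs_mono b1 b2 hu'
      · exact (Finset.mem_sdiff.1 (c1 (Finset.mem_sdiff.2 ⟨hu, hu'⟩))).1
    have e2 : τ1 ⊆ τ2 := by
      intro u hu
      by_cases hu' : u ∈ τ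
      · exact b3 hu'
      · exact (Finset.mem_sdiff.1 (c2 (Finset.mem_sdiff.2 ⟨hu, hu'⟩))).1
    have e3 := le_of_labs h1.2.1 h2.2.1 (a1 hv) (b1 hv) e1
    exact ⟨e3.1, e3.2, e2⟩

end LcUp

open LcUp in
theorem RR.up_box {σ : Finset (Vx q G)} {t : Option (G ⧸ Subgroup.zpowers s)}
    {τ : Finset (Option (ZMod (q + 2)))} (h : BoxOK L σ t τ) :
    Sph (Set.Ioi (RR.box σ t τ h)) (q + 1 - (RR.box σ t τ h).rk) := by
  have hle := fb_le h
  have hinj : Set.InjOn (fb (L := L) σ t τ) (Set.Ioi (RR.box σ t τ h)) := by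
    intro x hx y hy hxy
    apply le_antisymm
    · rw [hle x y hx hy, hxy]
      exact ⟨subset_rfl, subset_rfl⟩
    · rw [hle y x hy hx, hxy]
      exact ⟨subset_rfl, subset_rfl⟩
  have hlt : ∀ x ∈ Set.Ioi (RR.box σ t τ h), ∀ y ∈ Set.Ioi (RR.box σ t τ h),
      (x < y ↔ fb σ t τ x < fb σ t τ y) := by
    intro x hx y hy
    rw [lt_iff_le_not_ge, lt_iff_le_not_ge, hle x y hx hy, hle y x hy hx]
    rfl
  have hb := sph_bier (RS s σ t τ) {a | a ∪ labs σ t ∈ AL L} ?_ ?_ ?_
  · rw [← RS_card h]
    refine (Sph.of_iso (fb (L := L) σ t τ) ⟨?_, hinj, ?_⟩ hlt _).2 hb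
    · -- maps to
      intro x hx
      obtain ⟨σ1, t1, τ1, h1, rfl, a1, a2, a3⟩ := mem_Ioi h x hx
      have hl : labs σ t ⊆ labs σ1 t1 := labs_mono a1 a2
      have hdis := Finset.disjoint_left.1 h1.2.2.1
      rw [fb_box]
      refine ⟨?_, ?_, ?_, ?_, ?_, ?_⟩
      · change labs σ1 t1 \ labs σ t ∪ labs σ t ∈ AL L
        rw [Finset.sdiff_union_of_subset hl]
        exact ⟨σ1, t1, h1.2.1, rfl⟩
      · intro u hu
        have hu := Finset.mem_sdiff.1 hu
        unfold RS
        rw [Finset.mem_compl, Finset.mem_union]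
        rintro (h2 | h2)
        · exact hu.2 h2
        · exact hdis hu.1 (a3 h2)
      · intro u hu
        have hu := Finset.mem_sdiff.1 hu
        unfold RS
        rw [Finset.mem_compl, Finset.mem_union]
        rintro (h2 | h2)
        · exact hdis (hl h2) hu.1
        · exact hu.2 h2
      · intro hmem
        have this : RS s σ t τ \ (τ1 \ τ) ∪ labs σ t = τ1ᶜ := by
          ext u
          unfold RS
          simp only [Finset.mem_union, Finset.mem_sdiff, Finset.mem_compl]
          constructor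
          · rintro (h2 | h2)
            · intro h3
              exact h2.2 ⟨h3, fun h4 => h2.1 (Or.inr h4)⟩
            · exact hdis (hl h2)
          · intro h2
            by_cases h3 : u ∈ labs σ t
            · exact Or.inr h3
            · left
              refine ⟨?_, fun h4 => h2 h4.1⟩
              rintro (h4 | h4)
              · exact h3 h4
              · exact h2 (a3 h4)
        apply h1.2.2.2
        rw [← this]
        change _ ∪ labs σ t ∈ AL L at hmem
        refine Eq.mp (congrArg (· ∈ AL L) ?_) hmem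
        ext u
        simp only [Finset.mem_union, Finset.mem_sdiff]
      · exact Finset.disjoint_of_subset_left Finset.sdiff_subset
          (Finset.disjoint_of_subset_right Finset.sdiff_subset h1.2.2.1)
      · intro h2
        obtain ⟨h3, h4⟩ := Prod.mk.inj h2
        rw [Finset.sdiff_eq_empty_iff_subset] at h3 h4
        obtain ⟨v, hv⟩ := h.1
        have h5 := le_of_labs h1.2.1 h.2.1 (a1 hv) hv h3
        have : RR.box σ1 t1 τ1 h1 ≤ RR.box σ t τ h := by
          rw [RR.box_le_box]
          exact ⟨h5.1, h5.2, h4⟩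
        exact absurd hx (not_lt_of_ge this)
    · -- surjective
      rintro ⟨a, b⟩ ⟨h1, h2, h3, h4, h5, h6⟩
      dsimp only at h1 h2 h3 h4 h5
      change a ∪ labs σ t ∈ AL L at h1
      obtain ⟨σ', t', c1, c2, c3, c4⟩ := exists_lift h.2.1 h.1 h1 Finset.subset_union_right
      have hR : ∀ u, u ∈ RS s σ t τ ↔ u ∉ labs σ t ∧ u ∉ τ := by
        intro u
        unfold RS
        rw [Finset.mem_compl, Finset.mem_union, not_or]
      have hdab := Finset.disjoint_left.1 h5
      have hbox : BoxOK L σ' t' (τ ∪ b) := by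
        refine ⟨h.1.mono c2, c1, ?_, ?_⟩
        · rw [c4, Finset.disjoint_left]
          intro u hu hu'
          rw [Finset.mem_union] at hu hu'
          rcases hu with hu | hu
          · rcases hu' with hu' | hu'
            · exact ((hR u).1 (h2 hu)).2 hu'
            · exact hdab hu hu'
          · rcases hu' with hu' | hu'
            · exact Finset.disjoint_left.1 h.2.2.1 hu hu'
            · exact ((hR u).1 (h3 hu')).1 hu
        · have : RS s σ t τ \ b ∪ labs σ t = (τ ∪ b)ᶜ := by
            ext u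
            rw [Finset.mem_union, Finset.mem_sdiff, hR, Finset.mem_compl, Finset.mem_union]
            constructor
            · rintro (e1 | e1)
              · rintro (e2 | e2)
                · exact e1.1.2 e2
                · exact e1.2 e2
              · rintro (e2 | e2)
                · exact Finset.disjoint_left.1 h.2.2.1 e1 e2
                · exact ((hR u).1 (h3 e2)).1 e1
            · intro e1
              by_cases e2 : u ∈ labs σ t
              · exact Or.inr e2
              · exact Or.inl ⟨⟨e2, fun e3 => e1 (Or.inl e3)⟩, fun e3 => e1 (Or.inr e3)⟩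
          rw [← this]
          intro hmem
          apply h4
          change _ ∪ labs σ t ∈ AL L
          refine Eq.mp (congrArg (· ∈ AL L) ?_) hmem
          ext u
          simp only [Finset.mem_union, Finset.mem_sdiff]
      have e1 : labs σ' t' \ labs σ t = a := by
        rw [c4, Finset.union_sdiff_right, Finset.sdiff_eq_self_iff_disjoint, Finset.disjoint_left]
        intro u hu
        exact ((hR u).1 (h2 hu)).1
      have e2 : (τ ∪ b) \ τ = b := by
        rw [Finset.union_sdiff_left, Finset.sdiff_eq_self_iff_disjoint, Finset.disjoint_left]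
        intro u hu
        exact ((hR u).1 (h3 hu)).2
      refine ⟨RR.box σ' t' (τ ∪ b) hbox, ?_, ?_⟩
      · rw [Set.mem_Ioi, lt_iff_le_and_ne]
        refine ⟨?_, ?_⟩
        · rw [RR.box_le_box]
          exact ⟨c2, c3, Finset.subset_union_left⟩
        · intro h7
          apply h6
          have h8 := congrArg (fb (L := L) σ t τ) h7
          rw [fb_box, fb_box, e1, e2, Finset.sdiff_self, Finset.sdiff_self] at h8
          exact h8.symm
      · rw [fb_box, e1, e2]
  · intro a ha b hb
    refine AL_down ha (Finset.union_subset_union hb subset_rfl) ?_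
    exact (labs_nonempty h.1).mono Finset.subset_union_right
  · change ∅ ∪ labs σ t ∈ AL L
    rw [Finset.empty_union]
    exact ⟨σ, t, h.2.1, rfl⟩
  · change RS s σ t τ ∪ labs σ t ∉ AL L
    have : RS s σ t τ ∪ labs σ t = τᶜ := by
      ext u
      unfold RS
      rw [Finset.mem_union, Finset.mem_compl, Finset.mem_union, Finset.mem_compl]
      constructor
      · rintro (e1 | e1)
        · exact fun e2 => e1 (Or.inr e2)
        · exact Finset.disjoint_left.1 h.2.2.1 e1
      · intro e1
        by_cases e2 : u ∈ labs σ t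
        · exact Or.inr e2
        · exact Or.inl (by rintro (e3 | e3); exacts [e2 e3, e1 e3])
    rw [this]
    exact h.2.2.2

end Pool.Agent.Helper59.PD
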