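import Pool.Agent.Helper59.PD.Big
import Pool.Agent.Helper59.PD.LcUp
import Pool.Agent.Helper59.PD.LcE
import Pool.Agent.Helper59.PD.LcDown
import Pool.Agent.Helper59.PD.LcBtw
import Pool.Agent.Helper59.PD.LcFin
import Pool.Agent.Helper59.PD.LcConn

/-! The thickening poset is an input for the reflection construction. -/

set_option autoImplicit false

open scoped Classical

namespace Pool.Agent.Helper59.PD

variable {q : ℕ} {G : Type} [Group G] {s : G}

/-- the thickening of a weakly contractible labelled complex -/
def LCx.orbi (L : LCx q G s) (h : WC (AA L)) : Orbi (q + 1) G (RR L) (SpR L) where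
  r := RR.rk
  smul_lt := RR.smul_lt
  r_lt := RR.rk_lt
  r_le := RR.rk_le
  r_smul := RR.rk_smul
  Sp_min := RR.Sp_min
  Sp_smul := RR.Sp_smul
  down := RR.down
  up := by
    intro x hx
    cases x with
    | kap => exact absurd (Or.inl rfl) hx
    | box σ t τ h' => exact RR.up_box h'
    | ee c e h' => exact RR.up_ee h'
  btw := RR.btw
  free := RR.free
  cofin := RR.cofin L
  locfin := RR.locfin
  sc := RR.conn_sc h
  van := RR.conn_van h

end Pool.Agent.Helper59.PD
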