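import Pool.Agent.Helper59.PD.Base

/-! Library, part A: chains and homology. -/

set_option autoImplicit false

namespace Pool.Agent.Helper59.PD

noncomputable section

namespace A

variable {X Y : Type}

theorem consL_single (a : X) (l : List X) (n : ℤ) :
    consL a (Finsupp.single l n) = Finsupp.single (a :: l) n := by
  simp [consL]

theorem d_single (l : List X) (n : ℤ) : d (Finsupp.single l n) = n • dl l := by
  simp [d]

theorem d_single_one (l : List X) : d (Finsupp.single l 1) = dl l := by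
  simp [d]

theorem dl_cons (a : X) (l : List X) : dl (a :: l) = Finsupp.single l 1 - consL a (dl l) := rfl

/-- two linear maps agreeing on the basis elements of `s` agree on the supported chains -/
theorem ext_on {M : Type*} [AddCommGroup M] [Module ℤ M] {s : Set (List X)}
    (f g : Ch X →ₗ[ℤ] M) (h : ∀ l ∈ s, f (Finsupp.single l 1) = g (Finsupp.single l 1))
    {c : Ch X} (hc : c ∈ Finsupp.supported ℤ ℤ s) : f c = g c := by
  rw [Finsupp.supported_eq_span_single] at hc
  refine LinearMap.eqOn_span (s := (fun i => Finsupp.single i (1 : ℤ)) '' s) ?_ hc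
  rintro _ ⟨l, hl, rfl⟩
  exact h l hl

/-- a linear map sending the basis elements of `s` to `T` -/
theorem map_on {M : Type*} [AddCommGroup M] [Module ℤ M] {s : Set (List X)}
    (f : Ch X →ₗ[ℤ] M) (T : Submodule ℤ M) (h : ∀ l ∈ s, f (Finsupp.single l 1) ∈ T)
    {c : Ch X} (hc : c ∈ Finsupp.supported ℤ ℤ s) : f c ∈ T := by
  have h1 : Finsupp.supported ℤ ℤ s ≤ T.comap f := by
    rw [Finsupp.supported_eq_span_single, Submodule.span_le]
    rintro _ ⟨l, hl, rfl⟩
    exact h l hl
  exact h1 hc

theorem single_mem {s : Set (List X)} {l : List X} (hl : l ∈ s) (n : ℤ) :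
    Finsupp.single l n ∈ Finsupp.supported ℤ ℤ s :=
  Finsupp.single_mem_supported ℤ n hl

theorem ext_top {M : Type*} [AddCommGroup M] [Module ℤ M]
    (f g : Ch X →ₗ[ℤ] M) (h : ∀ l, f (Finsupp.single l 1) = g (Finsupp.single l 1))
    (c : Ch X) : f c = g c := by
  refine ext_on (s := Set.univ) f g (fun l _ => h l) ?_
  rw [Finsupp.supported_univ]
  trivial

theorem d_consL (a : X) (c : Ch X) : d (consL a c) = c - consL a (d c) := by
  have := ext_top (d ∘ₗ consL a) (LinearMap.id - consL a ∘ₗ d) (fun l => by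
    simp [consL_single, d_single_one, dl_cons]) c
  simpa using this

theorem d_dl (l : List X) : d (dl l) = 0 := by
  induction l with
  | nil => simp [dl]
  | cons a l ih =>
    rw [dl_cons, map_sub, d_single_one, d_consL, ih]
    simp

theorem d_d' (c : Ch X) : d (d c) = 0 := by
  have := ext_top (d ∘ₗ d) 0 (fun l => by
    simp only [LinearMap.comp_apply, d_single_one, d_dl, LinearMap.zero_apply]) c
  simpa using this

/-- the lists appearing in the boundary of `l` -/
theorem dl_sub (l : List X) :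
    dl l ∈ Finsupp.supported ℤ ℤ {l' : List X | l'.Sublist l ∧ l'.length + 1 = l.length} := by
  induction l with
  | nil => simp [dl]
  | cons a l ih =>
    rw [dl_cons]
    refine Submodule.sub_mem _ ?_ ?_
    · exact single_mem (s := {l' : List X | l'.Sublist (a :: l) ∧ l'.length + 1 = (a :: l).length})
        ⟨List.sublist_cons_self a l, by simp⟩ 1
    · refine map_on (consL a) _ (fun l' hl' => ?_) ih
      rw [consL_single]
      exact single_mem (s := {l' : List X | l'.Sublist (a :: l) ∧ l'.length + 1 = (a :: l).length})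
        ⟨List.Sublist.cons_cons a hl'.1, by simp [hl'.2]⟩ 1

/-- strictly increasing lists -/
def ps [PartialOrder X] (S : Set X) : Set (List X) := {l | l.Pairwise (· < ·) ∧ ∀ x ∈ l, x ∈ S}

variable [PartialOrder X]

theorem cs_ps {S : Set X} {k : ℕ} {l : List X} (h : l ∈ cs S k) : l ∈ ps S := ⟨h.1, h.2.1⟩

theorem CC_ps {S : Set X} {k : ℕ} {c : Ch X} (h : c ∈ CC S k) :
    c ∈ Finsupp.supported ℤ ℤ (ps S) :=
  Finsupp.supported_mono (fun _ hl => cs_ps hl) h

theorem dl_mem_cs {S : Set X} {k : ℕ} {l : List X} (h : l ∈ cs S (k + 1)) : dl l ∈ CC S k := by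
  refine Finsupp.supported_mono ?_ (dl_sub l)
  rintro l' ⟨h1, h2⟩
  refine ⟨h.1.sublist h1, fun x hx => h.2.1 x (h1.subset hx), ?_⟩
  have := h.2.2
  omega

theorem dl_mem_ps {S : Set X} {l : List X} (h : l ∈ ps S) :
    dl l ∈ Finsupp.supported ℤ ℤ (ps S) := by
  refine Finsupp.supported_mono ?_ (dl_sub l)
  rintro l' ⟨h1, h2⟩
  exact ⟨h.1.sublist h1, fun x hx => h.2 x (h1.subset hx)⟩

theorem d_mem_ps {S : Set X} {c : Ch X} (h : c ∈ Finsupp.supported ℤ ℤ (ps S)) :
    d c ∈ Finsupp.supported ℤ ℤ (ps S) :=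
  map_on d _ (fun l hl => by rw [d_single_one]; exact dl_mem_ps hl) h

end A

open A

/-! ### chains -/

theorem d_mem {X : Type} [PartialOrder X] {S : Set X} {k : ℕ} {c : Ch X} (hc : c ∈ CC S (k + 1)) :
    d c ∈ CC S k :=
  map_on d _ (fun l hl => by rw [d_single_one]; exact dl_mem_cs hl) hc

theorem d_zero {X : Type} [PartialOrder X] {S : Set X} {c : Ch X} (hc : c ∈ CC S 0) :
    d c = 0 := by
  refine ext_on (s := cs S 0) d 0 (fun l hl => ?_) hc
  have : l = [] := List.length_eq_zero_iff.mp hl.2.2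
  subst this
  simp [d_single_one, dl]

theorem d_d {X : Type} (c : Ch X) : d (d c) = 0 := d_d' c

theorem CC_mono {X : Type} [PartialOrder X] {S T : Set X} (h : S ⊆ T) (k : ℕ) :
    CC S k ≤ CC T k :=
  Finsupp.supported_mono (fun _ hl => ⟨hl.1, fun x hx => h (hl.2.1 x hx), hl.2.2⟩)

namespace A

variable {X Y : Type} [PartialOrder X] [PartialOrder Y]

theorem nil_mem_cs (S : Set X) : ([] : List X) ∈ cs S 0 := ⟨List.Pairwise.nil, by simp, rfl⟩

theorem eq_nil {S : Set X} {c : Ch X} (hc : c ∈ CC S 0) : c = c [] • Finsupp.single [] 1 := by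
  ext l
  by_cases hl : l = []
  · subst hl
    simp
  · have : l ∉ cs S 0 := fun h => hl (List.length_eq_zero_iff.mp h.2.2)
    have h0 : c l = 0 := by
      by_contra hne
      exact this ((Finsupp.mem_supported ℤ c).mp hc (Finsupp.mem_support_iff.mpr hne))
    rw [h0]
    simp [Ne.symm hl]

theorem eq_zero_of_empty {k : ℕ} {c : Ch X} (hc : c ∈ CC (∅ : Set X) (k + 1)) : c = 0 := by
  refine ext_on (s := cs (∅ : Set X) (k + 1)) LinearMap.id 0 (fun l hl => ?_) hc
  exfalso
  cases l with
  | nil => simpa using hl.2.2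
  | cons a l => exact hl.2.1 a (by simp)

theorem single_mem_one {S : Set X} {x : X} (hx : x ∈ S) (n : ℤ) :
    Finsupp.single [x] n ∈ CC S 1 :=
  single_mem (s := cs S 1) ⟨by simp, by simpa using hx, rfl⟩ n

theorem single_mem_two {S : Set X} {x y : X} (hx : x ∈ S) (hy : y ∈ S) (hxy : x < y) (n : ℤ) :
    Finsupp.single [x, y] n ∈ CC S 2 :=
  single_mem (s := cs S 2) ⟨by simpa using hxy, by simpa using ⟨hx, hy⟩, rfl⟩ n

omit [PartialOrder X] in
theorem dl_one (x : X) : dl [x] = Finsupp.single [] 1 := by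
  simp [dl]

omit [PartialOrder X] in
theorem dl_two (x y : X) : dl [x, y] = Finsupp.single [y] 1 - Finsupp.single [x] 1 := by
  rw [dl_cons, dl_one, consL_single]

end A

namespace A

/-! ### insertion and removal of a point -/

open Classical in
/-- insert `x` in a list, with sign -/
def insl {X : Type} [PartialOrder X] (x : X) : List X → Ch X
  | [] => Finsupp.single [x] 1
  | y :: l => if y < x then - consL y (insl x l) else Finsupp.single (x :: y :: l) 1

def ins {X : Type} [PartialOrder X] (x : X) : Ch X →ₗ[ℤ] Ch X :=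
  Finsupp.linearCombination ℤ (insl x)

open Classical in
/-- remove `x` from a list, with sign -/
def rmvl {X : Type} (x : X) : List X → Ch X
  | [] => 0
  | y :: l => if y = x then Finsupp.single l 1 else - consL y (rmvl x l)

def rmv {X : Type} (x : X) : Ch X →ₗ[ℤ] Ch X :=
  Finsupp.linearCombination ℤ (rmvl x)

variable {X Y : Type} [PartialOrder X] [PartialOrder Y]

theorem ins_single (x : X) (l : List X) : ins x (Finsupp.single l 1) = insl x l := by
  simp [ins]

theorem insl_cons_lt {x y : X} (h : y < x) (l : List X) :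
    insl x (y :: l) = - consL y (insl x l) := by
  rw [insl, if_pos h]

theorem insl_cons_not {x y : X} (h : ¬ y < x) (l : List X) :
    insl x (y :: l) = Finsupp.single (x :: y :: l) 1 := by
  rw [insl, if_neg h]

omit [PartialOrder X] in
theorem rmv_single (x : X) (l : List X) : rmv x (Finsupp.single l 1) = rmvl x l := by
  simp [rmv]

omit [PartialOrder X] in
theorem rmvl_self (x : X) (l : List X) : rmvl x (x :: l) = Finsupp.single l 1 := by
  rw [rmvl, if_pos rfl]

omit [PartialOrder X] in
theorem rmvl_ne {x y : X} (h : y ≠ x) (l : List X) : rmvl x (y :: l) = - consL y (rmvl x l) := by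
  rw [rmvl, if_neg h]

omit [PartialOrder X] in
theorem rmvl_not_mem {x : X} {l : List X} (h : x ∉ l) : rmvl x l = 0 := by
  induction l with
  | nil => rfl
  | cons y l ih =>
    rw [List.mem_cons, not_or] at h
    rw [rmvl_ne (Ne.symm h.1), ih h.2, map_zero, neg_zero]

theorem ins_consL_lt {x y : X} (h : y < x) (c : Ch X) :
    ins x (consL y c) = - consL y (ins x c) := by
  have := ext_top (ins x ∘ₗ consL y) (- (consL y ∘ₗ ins x)) (fun l => by
    simp only [LinearMap.comp_apply, LinearMap.neg_apply, consL_single, ins_single,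
      insl_cons_lt h]) c
  simpa using this

theorem insl_all {x : X} {l : List X} (h : ∀ y ∈ l, ¬ y < x) :
    insl x l = Finsupp.single (x :: l) 1 := by
  cases l with
  | nil => rfl
  | cons y l => rw [insl_cons_not (h y (by simp))]

theorem ins_all {x : X} {s : Set (List X)} (h : ∀ l ∈ s, ∀ y ∈ l, ¬ y < x) {c : Ch X}
    (hc : c ∈ Finsupp.supported ℤ ℤ s) : ins x c = consL x c :=
  ext_on (ins x) (consL x) (fun l hl => by rw [ins_single, consL_single, insl_all (h l hl)]) hc

theorem d_insl {x : X} {l : List X} (hp : l.Pairwise (· < ·)) (h : ∀ y ∈ l, y < x ∨ x < y) :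
    d (insl x l) = Finsupp.single l 1 - ins x (dl l) := by
  induction l with
  | nil => simp [insl, d_single_one, dl]
  | cons y l ih =>
    have hp' := List.pairwise_cons.mp hp
    by_cases hy : y < x
    · rw [insl_cons_lt hy, map_neg, d_consL, ih hp'.2 (fun z hz => h z (by simp [hz])), dl_cons]
      simp only [map_sub, ins_single, ins_consL_lt hy, consL_single]
      abel
    · have hxy : x < y := (h y (by simp)).resolve_left hy
      rw [insl_cons_not hy, d_single_one, dl_cons x (y :: l)]
      congr 1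
      symm
      refine ins_all ?_ (dl_sub (y :: l))
      rintro l' ⟨hl', -⟩ z hz
      have hz' : z ∈ y :: l := hl'.subset hz
      rcases List.mem_cons.mp hz' with rfl | hz'
      · exact hy
      · exact (hxy.trans (hp'.1 z hz')).asymm

theorem d_ins {x : X} {S : Set X} (h : ∀ y ∈ S, y < x ∨ x < y) {c : Ch X}
    (hc : c ∈ Finsupp.supported ℤ ℤ (ps S)) : d (ins x c) = c - ins x (d c) := by
  have := ext_on (d ∘ₗ ins x) (LinearMap.id - ins x ∘ₗ d) (fun l hl => by
    simp only [LinearMap.comp_apply, LinearMap.sub_apply, ins_single, d_single_one,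
      LinearMap.id_apply]
    exact d_insl hl.1 (fun y hy => h y (hl.2 y hy))) hc
  simpa using this

theorem insl_mem {x : X} {S T : Set X} (hx : x ∈ T) (h : ∀ y ∈ S, y < x ∨ x < y) (hST : S ⊆ T)
    {k : ℕ} {l : List X} (hl : l ∈ cs S k) :
    insl x l ∈ CC T (k + 1) := by
  have key : ∀ l : List X, l.Pairwise (· < ·) → (∀ y ∈ l, y ∈ S) →
      insl x l ∈ Finsupp.supported ℤ ℤ {l' : List X | l'.Pairwise (· < ·) ∧
        (∀ y ∈ l', y = x ∨ y ∈ l) ∧ l'.length = l.length + 1} := by
    intro l
    induction l with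
    | nil =>
      intro _ _
      exact single_mem (s := {l' : List X | l'.Pairwise (· < ·) ∧
        (∀ y ∈ l', y = x ∨ y ∈ ([] : List X)) ∧ l'.length = ([] : List X).length + 1})
        ⟨by simp, by simp, by simp⟩ 1
    | cons y l ih =>
      intro hp hS
      have hp' := List.pairwise_cons.mp hp
      by_cases hy : y < x
      · rw [insl_cons_lt hy]
        refine Submodule.neg_mem _ (map_on (consL y) _ (fun l' hl' => ?_)
          (ih hp'.2 (fun z hz => hS z (by simp [hz]))))
        rw [consL_single]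
        refine single_mem (s := {l' : List X | l'.Pairwise (· < ·) ∧
          (∀ z ∈ l', z = x ∨ z ∈ y :: l) ∧ l'.length = (y :: l).length + 1}) ⟨?_, ?_, ?_⟩ 1
        · rw [List.pairwise_cons]
          refine ⟨fun z hz => ?_, hl'.1⟩
          rcases hl'.2.1 z hz with rfl | hz
          · exact hy
          · exact hp'.1 z hz
        · intro z hz
          rcases List.mem_cons.mp hz with rfl | hz
          · right; simp
          · rcases hl'.2.1 z hz with h1 | h1
            · exact Or.inl h1
            · right; simp [h1]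
        · simp [hl'.2.2]
      · have hxy : x < y := (h y (hS y (by simp))).resolve_left hy
        rw [insl_cons_not hy]
        refine single_mem (s := {l' : List X | l'.Pairwise (· < ·) ∧
          (∀ z ∈ l', z = x ∨ z ∈ y :: l) ∧ l'.length = (y :: l).length + 1}) ⟨?_, ?_, ?_⟩ 1
        · rw [List.pairwise_cons]
          refine ⟨fun z hz => ?_, hp⟩
          rcases List.mem_cons.mp hz with rfl | hz
          · exact hxy
          · exact hxy.trans (hp'.1 z hz)
        · intro z hz
          rcases List.mem_cons.mp hz with rfl | hz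
          · exact Or.inl rfl
          · exact Or.inr hz
        · simp
  refine Finsupp.supported_mono ?_ (key l hl.1 hl.2.1)
  rintro l' ⟨h1, h2, h3⟩
  refine ⟨h1, fun y hy => ?_, by rw [h3, hl.2.2]⟩
  rcases h2 y hy with rfl | hy
  · exact hx
  · exact hST (hl.2.1 y hy)

theorem ins_mem {x : X} {S T : Set X} (hx : x ∈ T) (h : ∀ y ∈ S, y < x ∨ x < y) (hST : S ⊆ T)
    {k : ℕ} {c : Ch X} (hc : c ∈ CC S k) : ins x c ∈ CC T (k + 1) :=
  map_on (ins x) _ (fun l hl => by rw [ins_single]; exact insl_mem hx h hST hl) hc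

omit [PartialOrder X] in
/-- the lists appearing in `rmvl x l` -/
theorem rmvl_sub (x : X) (l : List X) :
    rmvl x l ∈ Finsupp.supported ℤ ℤ {l' : List X | l'.Sublist l ∧ l'.length + 1 = l.length ∧
      x ∈ l ∧ (l.Nodup → x ∉ l')} := by
  induction l with
  | nil => simp [rmvl]
  | cons a l ih =>
    by_cases ha : a = x
    · subst ha
      rw [rmvl_self]
      exact single_mem (s := {l' : List X | l'.Sublist (a :: l) ∧ l'.length + 1 = (a :: l).length ∧
        a ∈ a :: l ∧ ((a :: l).Nodup → a ∉ l')})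
        ⟨List.sublist_cons_self a l, by simp, by simp, fun h => (List.nodup_cons.mp h).1⟩ 1
    · rw [rmvl_ne ha]
      refine Submodule.neg_mem _ (map_on (consL a) _ (fun l' hl' => ?_) ih)
      rw [consL_single]
      refine single_mem (s := {l' : List X | l'.Sublist (a :: l) ∧ l'.length + 1 = (a :: l).length ∧
        x ∈ a :: l ∧ ((a :: l).Nodup → x ∉ l')})
        ⟨List.Sublist.cons_cons a hl'.1, by simp [hl'.2.1], by simp [hl'.2.2.1], fun h => ?_⟩ 1
      rw [List.mem_cons, not_or]
      exact ⟨Ne.symm ha, hl'.2.2.2 (List.nodup_cons.mp h).2⟩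

theorem nodup_of {l : List X} (h : l.Pairwise (· < ·)) : l.Nodup :=
  h.imp (fun hab => hab.ne)

theorem rmvl_mem_ps {x : X} {S : Set X} {l : List X} (hl : l ∈ ps S) :
    rmvl x l ∈ Finsupp.supported ℤ ℤ (ps (S \ {x})) := by
  refine Finsupp.supported_mono ?_ (rmvl_sub x l)
  rintro l' ⟨h1, -, -, h4⟩
  refine ⟨hl.1.sublist h1, fun y hy => ⟨hl.2 y (h1.subset hy), ?_⟩⟩
  rintro rfl
  exact h4 (nodup_of hl.1) hy

theorem pair_comp {l : List X} (h : l.Pairwise (· < ·)) {a b : X} (ha : a ∈ l) (hb : b ∈ l)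
    (hab : a ≠ b) : a < b ∨ b < a := by
  induction l with
  | nil => simp at ha
  | cons c l ih =>
    have h' := List.pairwise_cons.mp h
    rcases List.mem_cons.mp ha with ha' | ha'
    · rcases List.mem_cons.mp hb with hb' | hb'
      · exact absurd (ha'.trans hb'.symm) hab
      · exact Or.inl (ha' ▸ h'.1 b hb')
    · rcases List.mem_cons.mp hb with hb' | hb'
      · exact Or.inr (hb' ▸ h'.1 a ha')
      · exact ih h'.2 ha' hb'

/-- removal of `x` lands in the link of `x` -/
theorem rmvl_mem_lk {x : X} {S : Set X} {k : ℕ} {l : List X} (hl : l ∈ cs S (k + 1)) :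
    rmvl x l ∈ CC (Lk S x) k := by
  refine Finsupp.supported_mono ?_ (rmvl_sub x l)
  rintro l' ⟨h1, h2, h3, h4⟩
  refine ⟨hl.1.sublist h1, fun y hy => ⟨hl.2.1 y (h1.subset hy), ?_⟩, ?_⟩
  · have hne : y ≠ x := by
      rintro rfl
      exact h4 (nodup_of hl.1) hy
    exact pair_comp hl.1 (h1.subset hy) h3 hne
  · have := hl.2.2
    omega

theorem rmv_mem_lk {x : X} {S : Set X} {k : ℕ} {c : Ch X} (hc : c ∈ CC S (k + 1)) :
    rmv x c ∈ CC (Lk S x) k :=
  map_on (rmv x) _ (fun l hl => by rw [rmv_single]; exact rmvl_mem_lk hl) hc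

omit [PartialOrder X] in
theorem rmv_consL_ne {x y : X} (h : y ≠ x) (c : Ch X) : rmv x (consL y c) = - consL y (rmv x c) := by
  have := ext_top (rmv x ∘ₗ consL y) (- (consL y ∘ₗ rmv x)) (fun l => by
    simp only [LinearMap.comp_apply, LinearMap.neg_apply, consL_single, rmv_single,
      rmvl_ne h]) c
  simpa using this

omit [PartialOrder X] in
theorem rmv_consL_self (x : X) (c : Ch X) : rmv x (consL x c) = c := by
  have := ext_top (rmv x ∘ₗ consL x) LinearMap.id (fun l => by
    simp only [LinearMap.comp_apply, LinearMap.id_apply, consL_single, rmv_single,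
      rmvl_self]) c
  simpa using this

omit [PartialOrder X] in
theorem rmv_dl {x : X} {l : List X} (h : l.Nodup) : rmv x (dl l) = - d (rmvl x l) := by
  induction l with
  | nil => simp [dl, rmvl]
  | cons y l ih =>
    have h' := List.nodup_cons.mp h
    by_cases hy : y = x
    · subst hy
      rw [rmvl_self, d_single_one, dl_cons, map_sub, rmv_single, rmvl_not_mem h'.1,
        rmv_consL_self, zero_sub]
    · rw [rmvl_ne hy, map_neg, neg_neg, d_consL, dl_cons, map_sub, rmv_single, rmv_consL_ne hy,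
        ih h'.2, map_neg, neg_neg]

theorem rmv_d (x : X) {S : Set X} {c : Ch X} (hc : c ∈ Finsupp.supported ℤ ℤ (ps S)) :
    rmv x (d c) = - d (rmv x c) := by
  have := ext_on (rmv x ∘ₗ d) (- (d ∘ₗ rmv x)) (fun l hl => by
    simp only [LinearMap.comp_apply, LinearMap.neg_apply, rmv_single, d_single_one]
    exact rmv_dl (nodup_of hl.1)) hc
  simpa using this

theorem rmv_eq_zero {x : X} {S : Set X} (hx : x ∉ S) {c : Ch X}
    (hc : c ∈ Finsupp.supported ℤ ℤ (ps S)) : rmv x c = 0 := by
  have := ext_on (rmv x) 0 (fun l hl => by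
    rw [rmv_single, rmvl_not_mem (fun h => hx (hl.2 x h))]; rfl) hc
  simpa using this

theorem ins_rmvl {x : X} {l : List X} (hp : l.Pairwise (· < ·)) (hx : x ∈ l) :
    ins x (rmvl x l) = Finsupp.single l 1 := by
  induction l with
  | nil => simp at hx
  | cons y l ih =>
    have hp' := List.pairwise_cons.mp hp
    by_cases hy : y = x
    · subst hy
      rw [rmvl_self, ins_single, insl_all (fun z hz => (hp'.1 z hz).asymm)]
    · have hx' : x ∈ l := by
        rcases List.mem_cons.mp hx with h | h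
        · exact absurd h.symm hy
        · exact h
      rw [rmvl_ne hy, map_neg, ins_consL_lt (hp'.1 x hx'), neg_neg, ih hp'.2 hx', consL_single]

/-- the part of a chain not containing `x` -/
theorem sub_ins_rmv (x : X) {S : Set X} {k : ℕ} {c : Ch X} (hc : c ∈ CC S k) :
    c - ins x (rmv x c) ∈ CC (S \ {x}) k := by
  have := map_on (LinearMap.id - ins x ∘ₗ rmv x) (CC (S \ {x}) k) (fun l hl => ?_) hc
  · simpa using this
  · simp only [LinearMap.sub_apply, LinearMap.comp_apply, LinearMap.id_apply, rmv_single]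
    by_cases hx : x ∈ l
    · rw [ins_rmvl hl.1 hx, sub_self]
      exact Submodule.zero_mem _
    · rw [rmvl_not_mem hx, map_zero, sub_zero]
      refine single_mem (s := cs (S \ {x}) k) ⟨hl.1, fun y hy => ⟨hl.2.1 y hy, ?_⟩, hl.2.2⟩ 1
      rintro rfl
      exact hx hy

/-! ### relative homology -/

/-- relative cycles of length `k + 1` can be pushed into `S` -/
def Rel (S T : Set X) (k : ℕ) : Prop :=
  ∀ c ∈ CC T (k + 1), d c ∈ CC S k → ∃ e ∈ CC T (k + 2), c - d e ∈ CC S (k + 1)

theorem Rel.pull {S T : Set X} (h : ∀ k, Rel S T k) (k : ℕ) {c : Ch X}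
    (hc : c ∈ CC T k) (hdc : d c = 0) : ∃ e ∈ CC T (k + 1), c - d e ∈ CC S k := by
  cases k with
  | zero =>
    refine ⟨0, Submodule.zero_mem _, ?_⟩
    rw [map_zero, sub_zero, eq_nil hc]
    exact Submodule.smul_mem _ _ (single_mem (nil_mem_cs S) 1)
  | succ k => exact h k c hc (by rw [hdc]; exact Submodule.zero_mem _)

theorem Rel.hvan {S T : Set X} (hST : S ⊆ T) (h : ∀ k, Rel S T k) (k : ℕ) :
    Hvan S k ↔ Hvan T k := by
  constructor
  · intro hS c hc hdc
    obtain ⟨e, he, hce⟩ := Rel.pull h k hc hdc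
    obtain ⟨e', he', hde'⟩ := hS _ hce (by rw [map_sub, hdc, d_d, sub_zero])
    refine ⟨e' + e, Submodule.add_mem _ (CC_mono hST _ he') he, ?_⟩
    rw [map_add, hde']
    abel
  · intro hT c hc hdc
    obtain ⟨e, he, hde⟩ := hT c (CC_mono hST _ hc) hdc
    obtain ⟨e', _, hee'⟩ := h k e he (by rw [hde]; exact hc)
    refine ⟨e - d e', hee', ?_⟩
    rw [map_sub, d_d, sub_zero, hde]

theorem Rel.sph {S T : Set X} (hST : S ⊆ T) (h : ∀ k, Rel S T k) (m : ℕ) :
    Sph S m ↔ Sph T m := by
  constructor
  · rintro ⟨z, hz, hdz, hn, hg⟩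
    refine ⟨z, CC_mono hST _ hz, hdz, ?_, ?_⟩
    · intro a e he hde
      obtain ⟨e', _, hee'⟩ := h m e he (by rw [hde]; exact Submodule.smul_mem _ _ hz)
      exact hn a _ hee' (by rw [map_sub, d_d, sub_zero, hde])
    · intro k c hc hdc
      obtain ⟨e, he, hce⟩ := Rel.pull h k hc hdc
      obtain ⟨e', he', a, ha, hca⟩ := hg k _ hce (by rw [map_sub, hdc, d_d, sub_zero])
      refine ⟨e' + e, Submodule.add_mem _ (CC_mono hST _ he') he, a, ha, ?_⟩
      rw [map_add, ← sub_add_cancel c (d e), hca]
      abel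
  · rintro ⟨z, hz, hdz, hn, hg⟩
    obtain ⟨e0, he0, hze0⟩ := Rel.pull h m hz hdz
    refine ⟨z - d e0, hze0, by rw [map_sub, hdz, d_d, sub_zero], ?_, ?_⟩
    · intro a e he hde
      refine hn a (e + a • e0) (Submodule.add_mem _ (CC_mono hST _ he)
        (Submodule.smul_mem _ _ he0)) ?_
      rw [map_add, map_smul, hde, smul_sub]
      abel
    · intro k c hc hdc
      obtain ⟨e, he, a, ha, hce⟩ := hg k c (CC_mono hST _ hc) hdc
      by_cases hk : k = m
      · subst hk
        have h1 : d (e + a • e0) = c - a • (z - d e0) := by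
          rw [map_add, map_smul, hce, smul_sub]
          abel
        obtain ⟨e', _, hee'⟩ := h k (e + a • e0) (Submodule.add_mem _ he
          (Submodule.smul_mem _ _ he0)) (by
            rw [h1]
            exact Submodule.sub_mem _ hc (Submodule.smul_mem _ _ hze0))
        refine ⟨e + a • e0 - d e', hee', a, ha, ?_⟩
        rw [map_sub, d_d, sub_zero, h1]
        abel
      · have ha0 := ha hk
        subst ha0
        rw [zero_smul, add_zero] at hce
        obtain ⟨e', _, hee'⟩ := h k e he (by rw [← hce]; exact hc)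
        refine ⟨e - d e', hee', 0, fun _ => rfl, ?_⟩
        rw [map_sub, d_d, sub_zero, zero_smul, add_zero, hce]

theorem lk_antichain {S N F : Set X} (hN : ∀ x ∈ N, ∀ y ∈ N, ¬ x < y) (hF : F ⊆ N) {x : X}
    (hx : x ∈ N) : Lk (S ∪ F) x = Lk S x := by
  ext y
  constructor
  · rintro ⟨h1 | h1, h2⟩
    · exact ⟨h1, h2⟩
    · exfalso
      rcases h2 with h2 | h2
      · exact hN y (hF h1) x hx h2
      · exact hN x hx y (hF h1) h2
  · rintro ⟨h1, h2⟩
    exact ⟨Or.inl h1, h2⟩

theorem rel_fin {S N : Set X} (hN : ∀ x ∈ N, ∀ y ∈ N, ¬ x < y) (hSN : Disjoint S N) {k : ℕ}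
    (hl : ∀ x ∈ N, Hvan (Lk S x) k) (F : Finset X) (hF : (F : Set X) ⊆ N) :
    ∀ c ∈ CC (S ∪ (F : Set X)) (k + 1), d c ∈ CC S k →
      ∃ e ∈ CC (S ∪ N) (k + 2), c - d e ∈ CC S (k + 1) := by
  classical
  induction F using Finset.induction_on with
  | empty =>
    intro c hc _
    refine ⟨0, Submodule.zero_mem _, ?_⟩
    rw [map_zero, sub_zero]
    simpa using hc
  | insert x F hxF ih =>
    intro c hc hdc
    have hxN : x ∈ N := hF (by simp)
    have hxS : x ∉ S := fun h => Set.disjoint_left.mp hSN h hxN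
    have hr : rmv x c ∈ CC (Lk S x) k := by
      have := rmv_mem_lk (x := x) hc
      rwa [lk_antichain hN hF hxN] at this
    have hdr : d (rmv x c) = 0 := by
      have h1 := rmv_d x (CC_ps hc)
      rw [rmv_eq_zero hxS (CC_ps hdc)] at h1
      rw [eq_comm, neg_eq_zero] at h1
      exact h1
    obtain ⟨e, he, hde⟩ := hl x hxN _ hr hdr
    have hlk : ∀ y ∈ Lk S x, y < x ∨ x < y := fun y hy => hy.2
    have hsub : Lk S x ⊆ S := fun y hy => hy.1
    have hcd : c + d (ins x e) ∈ CC (S ∪ (F : Set X)) (k + 1) := by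
      rw [d_ins hlk (CC_ps he), hde]
      have h1 := sub_ins_rmv x hc
      have h2 : c + (e - ins x (rmv x c)) = (c - ins x (rmv x c)) + e := by abel
      rw [h2]
      refine Submodule.add_mem _ (CC_mono ?_ _ h1)
        (CC_mono (hsub.trans Set.subset_union_left) _ he)
      rintro y ⟨hy | hy, hyx⟩
      · exact Or.inl hy
      · right
        have : y ∈ insert x F := hy
        rcases Finset.mem_insert.mp this with h3 | h3
        · exact absurd h3 hyx
        · exact h3
    obtain ⟨e', he', hce'⟩ := ih (fun y hy => hF (by simp [Finset.mem_coe.mp hy])) _ hcd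
      (by rw [map_add, d_d, add_zero]; exact hdc)
    refine ⟨e' - ins x e, Submodule.sub_mem _ he'
      (ins_mem (T := S ∪ N) (Or.inr hxN) hlk (hsub.trans Set.subset_union_left) he), ?_⟩
    have h3 : c - d (e' - ins x e) = c + d (ins x e) - d e' := by
      rw [map_sub]; abel
    rw [h3]
    exact hce'

theorem rel_antichain {S N : Set X} (hN : ∀ x ∈ N, ∀ y ∈ N, ¬ x < y) (hSN : Disjoint S N) {k : ℕ}
    (hl : ∀ x ∈ N, Hvan (Lk S x) k) : Rel S (S ∪ N) k := by
  classical
  intro c hc hdc
  let F : Finset X := (c.support.biUnion List.toFinset).filter (· ∈ N)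
  have hF : (F : Set X) ⊆ N := fun y hy => (Finset.mem_filter.mp hy).2
  refine rel_fin hN hSN hl F hF c ?_ hdc
  rw [CC, Finsupp.mem_supported] at hc ⊢
  intro l hl'
  have h1 := hc hl'
  refine ⟨h1.1, fun y hy => ?_, h1.2.2⟩
  rcases h1.2.1 y hy with h2 | h2
  · exact Or.inl h2
  · right
    refine Finset.mem_coe.mpr (Finset.mem_filter.mpr ⟨?_, h2⟩)
    exact Finset.mem_biUnion.mpr ⟨l, hl', List.mem_toFinset.mpr hy⟩

/-! ### isomorphisms of chain complexes -/

/-- `F` is a chain map which induces bijections on the chains of `S` and `T` -/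
structure ChIso (S : Set X) (T : Set Y) (F : Ch X →ₗ[ℤ] Ch Y) : Prop where
  comm : ∀ c, F (d c) = d (F c)
  maps : ∀ k, ∀ c ∈ CC S k, F c ∈ CC T k
  inj : ∀ k, ∀ c ∈ CC S k, F c = 0 → c = 0
  surj : ∀ k, ∀ c ∈ CC T k, ∃ c' ∈ CC S k, F c' = c

theorem ChIso.d_eq_zero {S : Set X} {T : Set Y} {F : Ch X →ₗ[ℤ] Ch Y} (h : ChIso S T F)
    {k : ℕ} {c : Ch X} (hc : c ∈ CC S k) (hdc : d (F c) = 0) : d c = 0 := by
  cases k with
  | zero => exact d_zero hc
  | succ k => exact h.inj k _ (d_mem hc) (by rw [h.comm, hdc])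

theorem ChIso.hvan {S : Set X} {T : Set Y} {F : Ch X →ₗ[ℤ] Ch Y} (h : ChIso S T F) (k : ℕ) :
    Hvan S k ↔ Hvan T k := by
  constructor
  · intro hS c hc hdc
    obtain ⟨c', hc', rfl⟩ := h.surj k c hc
    obtain ⟨e, he, hde⟩ := hS c' hc' (h.d_eq_zero hc' hdc)
    exact ⟨F e, h.maps _ e he, by rw [← h.comm, hde]⟩
  · intro hT c hc hdc
    obtain ⟨e, he, hde⟩ := hT (F c) (h.maps k c hc) (by rw [← h.comm, hdc, map_zero])
    obtain ⟨e', he', rfl⟩ := h.surj _ e he
    refine ⟨e', he', ?_⟩
    rw [← sub_eq_zero]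
    exact h.inj k _ (Submodule.sub_mem _ (d_mem he') hc) (by rw [map_sub, h.comm, hde, sub_self])

theorem ChIso.sph {S : Set X} {T : Set Y} {F : Ch X →ₗ[ℤ] Ch Y} (h : ChIso S T F) (m : ℕ) :
    Sph S m ↔ Sph T m := by
  constructor
  · rintro ⟨z, hz, hdz, hn, hg⟩
    refine ⟨F z, h.maps _ z hz, by rw [← h.comm, hdz, map_zero], ?_, ?_⟩
    · intro a e he hde
      obtain ⟨e', he', rfl⟩ := h.surj _ e he
      refine hn a e' he' ?_
      rw [← sub_eq_zero]
      exact h.inj m _ (Submodule.sub_mem _ (d_mem he') (Submodule.smul_mem _ _ hz))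
        (by rw [map_sub, map_smul, h.comm, hde, sub_self])
    · intro k c hc hdc
      obtain ⟨c', hc', rfl⟩ := h.surj k c hc
      obtain ⟨e, he, a, ha, hce⟩ := hg k c' hc' (h.d_eq_zero hc' hdc)
      exact ⟨F e, h.maps _ e he, a, ha, by rw [hce, map_add, map_smul, h.comm]⟩
  · rintro ⟨z, hz, hdz, hn, hg⟩
    obtain ⟨z', hz', rfl⟩ := h.surj _ z hz
    refine ⟨z', hz', h.d_eq_zero hz' hdz, ?_, ?_⟩
    · intro a e he hde
      exact hn a (F e) (h.maps _ e he) (by rw [← h.comm, hde, map_smul])
    · intro k c hc hdc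
      obtain ⟨e, he, a, ha, hce⟩ := hg k (F c) (h.maps k c hc) (by rw [← h.comm, hdc, map_zero])
      obtain ⟨e', he', rfl⟩ := h.surj _ e he
      refine ⟨e', he', a, ha, ?_⟩
      rw [← sub_eq_zero]
      by_cases hk : k = m
      · subst hk
        exact h.inj k _ (Submodule.sub_mem _ hc (Submodule.add_mem _ (d_mem he')
          (Submodule.smul_mem _ _ hz'))) (by rw [map_sub, map_add, map_smul, h.comm, hce, sub_self])
      · have ha0 := ha hk
        subst ha0
        rw [zero_smul, add_zero] at hce ⊢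
        exact h.inj k _ (Submodule.sub_mem _ hc (d_mem he')) (by
          rw [map_sub, h.comm, hce, sub_self])

/-- push forward -/
def push {X Y : Type} (f : X → Y) : Ch X →ₗ[ℤ] Ch Y := Finsupp.lmapDomain ℤ ℤ (List.map f)

omit [PartialOrder X] [PartialOrder Y] in
theorem push_single (f : X → Y) (l : List X) (n : ℤ) :
    push f (Finsupp.single l n) = Finsupp.single (l.map f) n := by
  simp [push]

omit [PartialOrder X] [PartialOrder Y] in
theorem push_consL (f : X → Y) (a : X) (c : Ch X) :
    push f (consL a c) = consL (f a) (push f c) := by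
  have := ext_top (push f ∘ₗ consL a) (consL (f a) ∘ₗ push f) (fun l => by
    simp only [LinearMap.comp_apply, consL_single, push_single, List.map_cons]) c
  simpa using this

omit [PartialOrder X] [PartialOrder Y] in
theorem push_dl (f : X → Y) (l : List X) : push f (dl l) = dl (l.map f) := by
  induction l with
  | nil => simp [dl]
  | cons a l ih =>
    rw [List.map_cons, dl_cons, dl_cons, map_sub, push_single, push_consL, ih]

omit [PartialOrder X] [PartialOrder Y] in
theorem push_d (f : X → Y) (c : Ch X) : push f (d c) = d (push f c) := by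
  have := ext_top (push f ∘ₗ d) (d ∘ₗ push f) (fun l => by
    simp only [LinearMap.comp_apply, d_single_one, push_single, push_dl]) c
  simpa using this

theorem ChIso.of_iso {S : Set X} {T : Set Y} (f : X → Y) (hf : Set.BijOn f S T)
    (h : ∀ x ∈ S, ∀ y ∈ S, (x < y ↔ f x < f y)) : ChIso S T (push f) := by
  have hmap : ∀ k, ∀ l ∈ cs S k, l.map f ∈ cs T k := by
    intro k l hl
    refine ⟨?_, ?_, by simp [hl.2.2]⟩
    · rw [List.pairwise_map]
      exact hl.1.imp_of_mem (fun {a b} ha hb hab => (h a (hl.2.1 a ha) b (hl.2.1 b hb)).mp hab)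
    · intro y hy
      obtain ⟨x, hx, rfl⟩ := List.mem_map.mp hy
      exact hf.mapsTo (hl.2.1 x hx)
  refine ⟨push_d f, fun k c hc => ?_, fun k c hc h0 => ?_, fun k c hc => ?_⟩
  · exact map_on (push f) _ (fun l hl => by
      rw [push_single]; exact single_mem (hmap k l hl) 1) hc
  · have hinj : Set.InjOn (List.map f) (cs S k) := by
      intro l hl l' hl' hll'
      have key : ∀ l l' : List X, (∀ x ∈ l, x ∈ S) → (∀ x ∈ l', x ∈ S) → l.map f = l'.map f →
          l = l' := by
        intro l
        induction l with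
        | nil =>
          intro l' _ _ h
          cases l' with
          | nil => rfl
          | cons _ _ => simp at h
        | cons a l ih =>
          intro l' h1 h2 h3
          cases l' with
          | nil => simp at h3
          | cons b l' =>
            rw [List.map_cons, List.map_cons, List.cons.injEq] at h3
            rw [hf.injOn (h1 a (by simp)) (h2 b (by simp)) h3.1,
              ih l' (fun x hx => h1 x (by simp [hx])) (fun x hx => h2 x (by simp [hx])) h3.2]
      exact key l l' hl.2.1 hl'.2.1 hll'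
    have h1 := Finsupp.mapDomain_injOn (M := ℤ) (cs S k) hinj
    have h2 : c ∈ {w : List X →₀ ℤ | (w.support : Set (List X)) ⊆ cs S k} :=
      (Finsupp.mem_supported ℤ c).mp hc
    have h3 : (0 : List X →₀ ℤ) ∈ {w : List X →₀ ℤ | (w.support : Set (List X)) ⊆ cs S k} := by
      simp
    refine h1 h2 h3 ?_
    rw [Finsupp.mapDomain_zero]
    exact h0
  · have h1 : CC T k ≤ Submodule.map (push f) (CC S k) := by
      rw [CC, Finsupp.supported_eq_span_single, Submodule.span_le]
      rintro _ ⟨l, hl, rfl⟩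
      have key : ∀ l : List Y, l.Pairwise (· < ·) → (∀ y ∈ l, y ∈ T) →
          ∃ l' : List X, l'.Pairwise (· < ·) ∧ (∀ x ∈ l', x ∈ S) ∧ l'.map f = l := by
        intro l
        induction l with
        | nil => intro _ _; exact ⟨[], by simp, by simp, rfl⟩
        | cons a l ih =>
          intro hp hT
          have hp' := List.pairwise_cons.mp hp
          obtain ⟨l', h1, h2, h3⟩ := ih hp'.2 (fun y hy => hT y (by simp [hy]))
          obtain ⟨x, hx, rfl⟩ := hf.surjOn (hT a (by simp))
          refine ⟨x :: l', ?_, ?_, by rw [List.map_cons, h3]⟩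
          · rw [List.pairwise_cons]
            refine ⟨fun y hy => (h x hx y (h2 y hy)).mpr (hp'.1 _ ?_), h1⟩
            rw [← h3]
            exact List.mem_map_of_mem hy
          · intro y hy
            rcases List.mem_cons.mp hy with rfl | hy
            · exact hx
            · exact h2 y hy
      obtain ⟨l', h1, h2, h3⟩ := key l hl.1 hl.2.1
      refine ⟨Finsupp.single l' 1, single_mem (s := cs S k) ⟨h1, h2, ?_⟩ 1, ?_⟩
      · rw [← hl.2.2, ← h3, List.length_map]
      · rw [push_single, h3]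
    exact h1 hc

end A

section
variable {X Y Z : Type} [PartialOrder X] [PartialOrder Y] [PartialOrder Z]

theorem Hvan.zero_iff {S : Set X} : Hvan S 0 ↔ S.Nonempty := by
  constructor
  · intro h
    obtain ⟨e, he, hde⟩ := h (Finsupp.single [] 1) (single_mem (nil_mem_cs S) 1)
      (by simp [d_single_one, dl])
    by_contra hS
    rw [Set.not_nonempty_iff_eq_empty] at hS
    subst hS
    rw [eq_zero_of_empty he, map_zero] at hde
    have := DFunLike.congr_fun hde []
    simp at this
  · rintro ⟨x, hx⟩ c hc _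
    refine ⟨c [] • Finsupp.single [x] 1, Submodule.smul_mem _ _ (single_mem_one hx 1), ?_⟩
    rw [map_smul, d_single_one, dl_one]
    exact (eq_nil hc).symm

theorem conn_iff {S : Set X} : Conn S ↔ Hvan S 0 ∧ Hvan S 1 := by
  rw [Hvan.zero_iff]
  constructor
  · rintro ⟨⟨x0, hx0⟩, h⟩
    refine ⟨⟨x0, hx0⟩, ?_⟩
    have h1 : ∀ x ∈ S, ∃ e ∈ CC S 2, d e = Finsupp.single [x] 1 - Finsupp.single [x0] 1 := by
      intro x hx
      have := h (fun x => ∃ e ∈ CC S 2, d e = Finsupp.single [x] 1 - Finsupp.single [x0] 1)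
        (fun x hx y hy hxy => by
          constructor
          · rintro ⟨e, he, hde⟩
            refine ⟨e + Finsupp.single [x, y] 1,
              Submodule.add_mem _ he (single_mem_two hx hy hxy 1), ?_⟩
            rw [map_add, hde, d_single_one, dl_two]
            abel
          · rintro ⟨e, he, hde⟩
            refine ⟨e - Finsupp.single [x, y] 1,
              Submodule.sub_mem _ he (single_mem_two hx hy hxy 1), ?_⟩
            rw [map_sub, hde, d_single_one, dl_two]
            abel) x hx x0 hx0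
      exact this.mpr ⟨0, Submodule.zero_mem _, by simp⟩
    intro c hc hdc
    have h2 : c ∈ Submodule.map d (CC S 2) ⊔ Submodule.span ℤ {Finsupp.single [x0] 1} := by
      refine map_on LinearMap.id _ (fun l hl => ?_) hc
      obtain ⟨x, rfl⟩ := List.length_eq_one_iff.mp hl.2.2
      obtain ⟨e, he, hde⟩ := h1 x (hl.2.1 x (by simp))
      have : (LinearMap.id : Ch X →ₗ[ℤ] Ch X) (Finsupp.single [x] 1) = d e + Finsupp.single [x0] 1 := by
        rw [hde]; simp
      rw [this]
      exact Submodule.add_mem_sup ⟨e, he, rfl⟩ (Submodule.mem_span_singleton_self _)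
    obtain ⟨_, ⟨e, he, rfl⟩, z, hz, hc2⟩ := Submodule.mem_sup.mp h2
    obtain ⟨n, rfl⟩ := Submodule.mem_span_singleton.mp hz
    rw [← hc2, map_add, map_smul, d_d, d_single_one, dl_one, zero_add] at hdc
    have hn : n = 0 := by
      have := DFunLike.congr_fun hdc []
      simpa using this
    refine ⟨e, he, ?_⟩
    rw [← hc2, hn]
    simp
  · rintro ⟨hne, h⟩
    refine ⟨hne, fun f hf x hx y hy => ?_⟩
    classical
    let χ : Ch X →ₗ[ℤ] ℤ := Finsupp.linearCombination ℤ (fun l => match l with
      | [x] => if f x then 1 else 0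
      | _ => 0)
    have hχ : ∀ x, χ (Finsupp.single [x] 1) = if f x then 1 else 0 := by
      intro x
      simp [χ]
    have hd : ∀ e ∈ CC S 2, χ (d e) = 0 := by
      intro e he
      refine ext_on (s := cs S 2) (χ ∘ₗ d) 0 (fun l hl => ?_) he
      obtain ⟨a, b, rfl⟩ := List.length_eq_two.mp hl.2.2
      have hab : a < b := by simpa using hl.1
      have := hf a (hl.2.1 a (by simp)) b (hl.2.1 b (by simp)) hab
      rw [LinearMap.comp_apply, d_single_one, dl_two, map_sub, hχ, hχ]
      by_cases ha : f a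
      · have hb : f b := this.mp ha
        simp [ha, hb]
      · have hb : ¬ f b := fun hb => ha (this.mpr hb)
        simp [ha, hb]
    obtain ⟨e, he, hde⟩ := h (Finsupp.single [x] 1 - Finsupp.single [y] 1)
      (Submodule.sub_mem _ (single_mem_one hx 1) (single_mem_one hy 1))
      (by rw [map_sub, d_single_one, d_single_one, dl_one, dl_one, sub_self])
    have := hd e he
    rw [hde, map_sub, hχ, hχ] at this
    by_cases h1 : f x <;> by_cases h2 : f y <;> simp_all

theorem Sph.hvan {S : Set X} {m k : ℕ} (h : Sph S m) (hk : k ≠ m) : Hvan S k := by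
  obtain ⟨z, _, _, _, hg⟩ := h
  intro c hc hdc
  obtain ⟨e, he, a, ha, hce⟩ := hg k c hc hdc
  refine ⟨e, he, ?_⟩
  rw [hce, ha hk]
  simp

theorem Sph.conn {S : Set X} {m : ℕ} (h : Sph S (m + 2)) : Conn S :=
  conn_iff.mpr ⟨h.hvan (by omega), h.hvan (by omega)⟩

theorem Sph.empty : Sph (∅ : Set X) 0 := by
  refine ⟨Finsupp.single [] 1, single_mem (nil_mem_cs _) 1, by simp [d_single_one, dl], ?_, ?_⟩
  · intro a e he hde
    rw [eq_zero_of_empty he, map_zero] at hde
    have := DFunLike.congr_fun hde []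
    simpa using this.symm
  · intro k c hc hdc
    cases k with
    | zero =>
      refine ⟨0, Submodule.zero_mem _, c [], by simp, ?_⟩
      rw [map_zero, zero_add]
      exact eq_nil hc
    | succ k =>
      refine ⟨0, Submodule.zero_mem _, 0, by simp, ?_⟩
      rw [eq_zero_of_empty hc]
      simp

/-- a bijection which preserves and reflects the strict order on `S` preserves homology -/
theorem Hvan.of_iso {S : Set X} {T : Set Y} (f : X → Y) (hf : Set.BijOn f S T)
    (h : ∀ x ∈ S, ∀ y ∈ S, (x < y ↔ f x < f y)) (k : ℕ) : Hvan S k ↔ Hvan T k :=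
  (ChIso.of_iso f hf h).hvan k

theorem Sph.of_iso {S : Set X} {T : Set Y} (f : X → Y) (hf : Set.BijOn f S T)
    (h : ∀ x ∈ S, ∀ y ∈ S, (x < y ↔ f x < f y)) (m : ℕ) : Sph S m ↔ Sph T m :=
  (ChIso.of_iso f hf h).sph m

theorem Acyc.cone {S : Set X} (x : X) (hx : x ∈ S) (h : ∀ y ∈ S, y ≤ x ∨ x ≤ y) : Acyc S := by
  intro k c hc hdc
  have hc1 : d (rmv x c) = 0 := by
    have := rmv_d x (CC_ps hc)
    rw [hdc, map_zero] at this
    rw [eq_neg_iff_add_eq_zero, zero_add] at this
    exact this
  have hsub : ∀ y ∈ S \ {x}, y < x ∨ x < y := by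
    intro y hy
    rcases h y hy.1 with h1 | h1
    · exact Or.inl (lt_of_le_of_ne h1 hy.2)
    · exact Or.inr (lt_of_le_of_ne h1 (Ne.symm hy.2))
  have hr : rmv x c ∈ Finsupp.supported ℤ ℤ (ps (S \ {x})) := by
    refine map_on (rmv x) _ (fun l hl => ?_) (CC_ps hc)
    rw [rmv_single]
    exact rmvl_mem_ps hl
  have hc0 : c - ins x (rmv x c) ∈ CC (S \ {x}) k := by
    have := sub_ins_rmv x hc
    exact this
  refine ⟨ins x (c - ins x (rmv x c)), ?_, ?_⟩
  · exact ins_mem hx hsub (Set.sdiff_subset) hc0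
  · rw [d_ins hsub (CC_ps hc0), map_sub, hdc, zero_sub, d_ins hsub hr, hc1, map_zero, sub_zero,
      map_neg]
    abel

/-- adding an antichain with acyclic links -/
theorem Hvan.add_antichain {S N : Set X} (hN : ∀ x ∈ N, ∀ y ∈ N, ¬ x < y) (hSN : Disjoint S N)
    (hl : ∀ x ∈ N, Acyc (Lk S x)) (k : ℕ) : Hvan S k ↔ Hvan (S ∪ N) k :=
  Rel.hvan Set.subset_union_left (fun k => rel_antichain hN hSN fun x hx => hl x hx k) k

theorem Sph.add_antichain {S N : Set X} (hN : ∀ x ∈ N, ∀ y ∈ N, ¬ x < y) (hSN : Disjoint S N)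
    (hl : ∀ x ∈ N, Acyc (Lk S x)) (m : ℕ) : Sph S m ↔ Sph (S ∪ N) m :=
  Rel.sph Set.subset_union_left (fun k => rel_antichain hN hSN fun x hx => hl x hx k) m

/-- removing an antichain -/
theorem Hvan.remove {S N : Set X} (hN : ∀ x ∈ N, ∀ y ∈ N, ¬ x < y) (hSN : Disjoint S N) (k : ℕ)
    (h : Hvan (S ∪ N) k) (hl : ∀ x ∈ N, Hvan (Lk S x) k) : Hvan S k := by
  intro c hc hdc
  obtain ⟨e, he, hde⟩ := h c (CC_mono Set.subset_union_left k hc) hdc
  obtain ⟨e', _, hee'⟩ := rel_antichain hN hSN hl e he (by rw [hde]; exact hc)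
  refine ⟨e - d e', hee', ?_⟩
  rw [map_sub, d_d, sub_zero, hde]

end

end

end Pool.Agent.Helper59.PD
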