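import Pool.Agent.Helper59.PD.LibU

/-! Library, part B: simple connectivity. -/

set_option autoImplicit false

namespace Pool.Agent.Helper59.PD

noncomputable section

variable {X Y Z : Type} [PartialOrder X] [PartialOrder Y] [PartialOrder Z]

theorem SC.transport {S : Set X} {T : Set Y} (f : X → Y) (g : Y → X)
    (hf : ∀ x ∈ S, f x ∈ T) (hg : ∀ y ∈ T, g y ∈ S) (hfg : ∀ y ∈ T, f (g y) = y)
    (h : ∀ x ∈ S, ∀ y ∈ S, x < y → f x < f y) (h' : ∀ x ∈ T, ∀ y ∈ T, x < y → g x < g y)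
    (hS : SC S) : SC T := by
  obtain ⟨⟨⟨x0, hx0⟩, hc⟩, hs⟩ := hS
  refine ⟨⟨⟨f x0, hf x0 hx0⟩, ?_⟩, ?_⟩
  · intro p hp x hx y hy
    have h1 := hc (fun x => p (f x)) (fun a ha b hb hab =>
      hp (f a) (hf a ha) (f b) (hf b hb) (h a ha b hb hab)) (g x) (hg x hx) (g y) (hg y hy)
    simpa only [hfg x hx, hfg y hy] using h1
  · intro Γ _ φ hφ
    obtain ⟨G, hG⟩ := hs Γ (fun a b => φ (f a) (f b)) (by
      intro a ha b hb c hc hab hbc
      exact hφ _ (hf a ha) _ (hf b hb) _ (hf c hc) (h a ha b hb hab) (h b hb c hc hbc))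
    refine ⟨fun y => G (g y), fun x hx y hy hxy => ?_⟩
    have h1 := hG (g x) (hg x hx) (g y) (hg y hy) (h' x hx y hy hxy)
    simpa only [hfg x hx, hfg y hy] using h1

theorem SC.of_iso {S : Set X} {T : Set Y} (f : X → Y) (hf : Set.BijOn f S T)
    (h : ∀ x ∈ S, ∀ y ∈ S, (x < y ↔ f x < f y)) : SC S ↔ SC T := by
  classical
  rcases S.eq_empty_or_nonempty with rfl | ⟨x0, hx0⟩
  · have hT : T = ∅ := by
      rw [← hf.image_eq, Set.image_empty]
    subst hT
    constructor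
    · rintro ⟨⟨⟨x, hx⟩, -⟩, -⟩
      exact absurd hx (Set.notMem_empty x)
    · rintro ⟨⟨⟨x, hx⟩, -⟩, -⟩
      exact absurd hx (Set.notMem_empty x)
  · have : Nonempty X := ⟨x0⟩
    have hg : ∀ y ∈ T, Function.invFunOn f S y ∈ S := fun y hy =>
      Function.invFunOn_mem (hf.surjOn hy)
    have hfg : ∀ y ∈ T, f (Function.invFunOn f S y) = y := fun y hy =>
      Function.invFunOn_eq (hf.surjOn hy)
    have hgf : ∀ x ∈ S, Function.invFunOn f S (f x) = x := fun x hx =>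
      hf.injOn (hg _ (hf.mapsTo hx)) hx (hfg _ (hf.mapsTo hx))
    have h' : ∀ x ∈ T, ∀ y ∈ T, x < y → Function.invFunOn f S x < Function.invFunOn f S y := by
      intro x hx y hy hxy
      rw [h _ (hg x hx) _ (hg y hy), hfg x hx, hfg y hy]
      exact hxy
    constructor
    · exact SC.transport f (Function.invFunOn f S) (fun x hx => hf.mapsTo hx) hg hfg
        (fun x hx y hy hxy => (h x hx y hy).1 hxy) h'
    · exact SC.transport (Function.invFunOn f S) f hg (fun x hx => hf.mapsTo hx) hgf h'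
        (fun x hx y hy hxy => (h x hx y hy).1 hxy)

theorem SC.cone {S : Set X} (x : X) (hx : x ∈ S) (h : ∀ y ∈ S, y ≤ x ∨ x ≤ y) : SC S := by
  classical
  refine ⟨⟨⟨x, hx⟩, ?_⟩, ?_⟩
  · intro p hp
    have key : ∀ y ∈ S, (p y ↔ p x) := by
      intro y hy
      rcases eq_or_ne y x with rfl | hne
      · exact Iff.rfl
      · rcases h y hy with h1 | h1
        · exact hp y hy x hx (lt_of_le_of_ne h1 hne)
        · exact (hp x hx y hy (lt_of_le_of_ne h1 hne.symm)).symm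
    intro y hy z hz
    exact (key y hy).trans (key z hz).symm
  · intro Γ _ f hf
    refine ⟨fun y => if y = x then 1 else if x < y then f x y else (f y x)⁻¹, ?_⟩
    intro y hy z hz hyz
    by_cases hyx : y = x
    · subst hyx
      have h1 : z ≠ y := hyz.ne'
      simp only [if_true, if_neg h1, if_pos hyz, one_mul]
    · by_cases hzx : z = x
      · subst hzx
        have h1 : ¬ z < y := hyz.not_gt
        simp only [if_true, if_neg hyx, if_neg h1, inv_mul_cancel]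
      · simp only [if_neg hyx, if_neg hzx]
        by_cases h1 : x < y
        · rw [if_pos h1, if_pos (h1.trans hyz)]
          exact hf x hx y hy z hz h1 hyz
        · have h2 : y < x := by
            rcases h y hy with h3 | h3
            · exact lt_of_le_of_ne h3 hyx
            · exact absurd (lt_of_le_of_ne h3 (Ne.symm hyx)) h1
          rw [if_neg h1]
          by_cases h3 : x < z
          · rw [if_pos h3, hf y hy x hx z hz h2 h3, inv_mul_cancel_left]
          · have h4 : z < x := by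
              rcases h z hz with h5 | h5
              · exact lt_of_le_of_ne h5 hzx
              · exact absurd (lt_of_le_of_ne h5 (Ne.symm hzx)) h3
            rw [if_neg h3, hf y hy z hz x hx hyz h4, mul_inv_rev, inv_mul_cancel_right]

/-- a locally constant function on a connected set is constant -/
theorem Conn.const {S : Set X} (hS : Conn S) {α : Type} (f : X → α)
    (hf : ∀ x ∈ S, ∀ y ∈ S, x < y → f x = f y) : ∀ x ∈ S, ∀ y ∈ S, f x = f y := by
  intro x hx y hy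
  have h1 := hS.2 (fun z => f z = f x) (fun a ha b hb hab => by
    rw [hf a ha b hb hab]) y hy x hx
  exact (h1.2 rfl).symm

theorem SC.remove {S N : Set X} (hN : ∀ x ∈ N, ∀ y ∈ N, ¬ x < y) (hSN : Disjoint S N)
    (h : SC (S ∪ N)) (hl : ∀ x ∈ N, SC (Lk S x)) : SC S := by
  classical
  have hnot : ∀ x ∈ S, x ∉ N := fun x hx hx' => Set.disjoint_left.1 hSN hx hx'
  obtain ⟨⟨hne, hc⟩, hs⟩ := h
  refine ⟨⟨?_, ?_⟩, ?_⟩
  · obtain ⟨x, hx | hx⟩ := hne
    · exact ⟨x, hx⟩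
    · obtain ⟨y, hy, -⟩ := (hl x hx).1.1
      exact ⟨y, hy⟩
  · intro p hp x hx y hy
    let q : X → Prop := fun z => if z ∈ N then ∃ w ∈ Lk S z, p w else p z
    have hqS : ∀ z ∈ S, (q z ↔ p z) := by
      intro z hz
      simp only [q, if_neg (hnot z hz)]
    have hqN : ∀ z ∈ N, ∀ w ∈ Lk S z, (q z ↔ p w) := by
      intro z hz w hw
      simp only [q, if_pos hz]
      constructor
      · rintro ⟨w', hw', hpw'⟩
        exact ((hl z hz).1.2 p (fun a ha b hb hab => hp a ha.1 b hb.1 hab) w' hw' w hw).1 hpw'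
      · intro hpw
        exact ⟨w, hw, hpw⟩
    have key := hc q (by
      rintro a (ha | ha) b (hb | hb) hab
      · rw [hqS a ha, hqS b hb]
        exact hp a ha b hb hab
      · rw [hqS a ha, hqN b hb a ⟨ha, Or.inl hab⟩]
      · rw [hqN a ha b ⟨hb, Or.inr hab⟩, hqS b hb]
      · exact absurd hab (hN a ha b hb)) x (Or.inl hx) y (Or.inl hy)
    rwa [hqS x hx, hqS y hy] at key
  · intro Γ _ f hf
    have hg : ∀ x ∈ N, ∃ g : X → Γ, ∀ y ∈ Lk S x, ∀ z ∈ Lk S x, y < z → g z = g y * f y z := by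
      intro x hx
      exact (hl x hx).2 Γ f (fun a ha b hb c hc => hf a ha.1 b hb.1 c hc.1)
    choose! g hg using hg
    let f' : X → X → Γ := fun y z => if y ∈ N then g y z else if z ∈ N then (g z y)⁻¹ else f y z
    have hSS : ∀ y ∈ S, ∀ z ∈ S, f' y z = f y z := by
      intro y hy z hz
      simp only [f', if_neg (hnot y hy), if_neg (hnot z hz)]
    have hSN' : ∀ y ∈ S, ∀ z ∈ N, f' y z = (g z y)⁻¹ := by
      intro y hy z hz
      simp only [f', if_neg (hnot y hy), if_pos hz]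
    have hNS : ∀ y ∈ N, ∀ z, f' y z = g y z := by
      intro y hy z
      simp only [f', if_pos hy]
    obtain ⟨G, hG⟩ := hs Γ f' (by
      rintro x (hx | hx) y (hy | hy) z (hz | hz) hxy hyz
      · rw [hSS x hx z hz, hSS x hx y hy, hSS y hy z hz]
        exact hf x hx y hy z hz hxy hyz
      · rw [hSN' x hx z hz, hSS x hx y hy, hSN' y hy z hz,
          hg z hz x ⟨hx, Or.inl (hxy.trans hyz)⟩ y ⟨hy, Or.inl hyz⟩ hxy, mul_inv_rev,
          mul_inv_cancel_left]
      · rw [hSS x hx z hz, hSN' x hx y hy, hNS y hy z,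
          hg y hy x ⟨hx, Or.inl hxy⟩ z ⟨hz, Or.inr hyz⟩ (hxy.trans hyz), inv_mul_cancel_left]
      · exact absurd hyz (hN y hy z hz)
      · rw [hNS x hx z, hNS x hx y, hSS y hy z hz]
        exact hg x hx y ⟨hy, Or.inr hxy⟩ z ⟨hz, Or.inr (hxy.trans hyz)⟩ hyz
      · exact absurd (hxy.trans hyz) (hN x hx z hz)
      · exact absurd hxy (hN x hx y hy)
      · exact absurd hxy (hN x hx y hy))
    refine ⟨G, fun x hx y hy hxy => ?_⟩
    rw [hG x (Or.inl hx) y (Or.inl hy) hxy, hSS x hx y hy]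

theorem SC.add_antichain {S N : Set X} (hN : ∀ x ∈ N, ∀ y ∈ N, ¬ x < y) (hSN : Disjoint S N)
    (hl : ∀ x ∈ N, SC (Lk S x)) : SC S ↔ SC (S ∪ N) := by
  classical
  refine ⟨?_, fun h => SC.remove hN hSN h hl⟩
  have hnot : ∀ x ∈ S, x ∉ N := fun x hx hx' => Set.disjoint_left.1 hSN hx hx'
  rintro ⟨⟨hne, hc⟩, hs⟩
  refine ⟨⟨hne.mono Set.subset_union_left, ?_⟩, ?_⟩
  · intro p hp
    have h1 : ∀ x ∈ S ∪ N, ∃ y ∈ S, (p x ↔ p y) := by
      rintro x (hx | hx)
      · exact ⟨x, hx, Iff.rfl⟩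
      · obtain ⟨y, hy, hxy | hxy⟩ := (hl x hx).1.1
        · exact ⟨y, hy, (hp y (Or.inl hy) x (Or.inr hx) hxy).symm⟩
        · exact ⟨y, hy, hp x (Or.inr hx) y (Or.inl hy) hxy⟩
    intro x hx y hy
    obtain ⟨x', hx', hpx⟩ := h1 x hx
    obtain ⟨y', hy', hpy⟩ := h1 y hy
    exact hpx.trans ((hc p (fun a ha b hb => hp a (Or.inl ha) b (Or.inl hb)) x' hx' y' hy').trans
      hpy.symm)
  · intro Γ _ f hf
    obtain ⟨G, hG⟩ := hs Γ f (fun a ha b hb c hc =>
      hf a (Or.inl ha) b (Or.inl hb) c (Or.inl hc))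
    let H : X → X → Γ := fun x y => if y < x then G y * f y x else G y * (f x y)⁻¹
    have hH : ∀ x ∈ N, ∀ y ∈ Lk S x, ∀ z ∈ Lk S x, H x y = H x z := by
      intro x hx
      refine Conn.const (hl x hx).1 (H x) ?_
      rintro y ⟨hy, hyx⟩ z ⟨hz, hzx⟩ hyz
      simp only [H]
      rcases hyx with hyx | hxy
      · rcases hzx with hzx | hxz
        · rw [if_pos hyx, if_pos hzx, hG y hy z hz hyz, mul_assoc,
            ← hf y (Or.inl hy) z (Or.inl hz) x (Or.inr hx) hyz hzx]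
        · rw [if_pos hyx, if_neg hxz.not_gt, hG y hy z hz hyz,
            hf y (Or.inl hy) x (Or.inr hx) z (Or.inl hz) hyx hxz]
          group
      · rcases hzx with hzx | hxz
        · exact absurd (hxy.trans (hyz.trans hzx)) (lt_irrefl x)
        · rw [if_neg hxy.not_gt, if_neg hxz.not_gt, hG y hy z hz hyz,
            hf x (Or.inr hx) y (Or.inl hy) z (Or.inl hz) hxy hyz]
          group
    have hex : ∀ x ∈ N, ∃ y, y ∈ Lk S x := fun x hx => (hl x hx).1.1
    choose! w hw using hex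
    refine ⟨fun x => if x ∈ N then H x (w x) else G x, ?_⟩
    rintro x (hx | hx) y (hy | hy) hxy
    · simp only [if_neg (hnot x hx), if_neg (hnot y hy)]
      exact hG x hx y hy hxy
    · simp only [if_neg (hnot x hx), if_pos hy]
      rw [hH y hy (w y) (hw y hy) x ⟨hx, Or.inl hxy⟩]
      simp only [H, if_pos hxy]
    · simp only [if_pos hx, if_neg (hnot y hy)]
      rw [hH x hx (w x) (hw x hx) y ⟨hy, Or.inr hxy⟩]
      simp only [H, if_neg hxy.not_gt, inv_mul_cancel_right]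
    · exact absurd hxy (hN x hx y hy)

theorem Conn.union {A B : Set X} (hA : Conn A) (hB : Conn B) (hAB : (A ∩ B).Nonempty) :
    Conn (A ∪ B) := by
  obtain ⟨w, hwA, hwB⟩ := hAB
  refine ⟨⟨w, Or.inl hwA⟩, fun p hp => ?_⟩
  have key : ∀ x ∈ A ∪ B, (p x ↔ p w) := by
    rintro x (hx | hx)
    · exact hA.2 p (fun a ha b hb => hp a (Or.inl ha) b (Or.inl hb)) x hx w hwA
    · exact hB.2 p (fun a ha b hb => hp a (Or.inr ha) b (Or.inr hb)) x hx w hwB
  intro x hx y hy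
  exact (key x hx).trans (key y hy).symm

/-- two trivialisations on a connected set differ by a constant -/
theorem Conn.ratio {Γ : Type} [Group Γ] {S : Set X} (hS : Conn S) {f : X → X → Γ} {g g' : X → Γ}
    (hg : ∀ x ∈ S, ∀ y ∈ S, x < y → g y = g x * f x y)
    (hg' : ∀ x ∈ S, ∀ y ∈ S, x < y → g' y = g' x * f x y) :
    ∃ κ : Γ, ∀ x ∈ S, g x = κ * g' x := by
  obtain ⟨w, hw⟩ := hS.1
  refine ⟨g w * (g' w)⁻¹, fun x hx => ?_⟩
  have h1 := hS.const (fun x => g x * (g' x)⁻¹) (fun a ha b hb hab => by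
    rw [hg a ha b hb hab, hg' a ha b hb hab]
    group) x hx w hw
  rw [← h1, inv_mul_cancel_right]

theorem SC.union {A B : Set X} (hc : Cov A B) (hA : SC A) (hB : SC B) (hAB : Conn (A ∩ B)) :
    SC (A ∪ B) := by
  classical
  refine ⟨hA.1.union hB.1 hAB.1, fun Γ _ f hf => ?_⟩
  obtain ⟨g, hg⟩ := hA.2 Γ f (fun a ha b hb c hc => hf a (Or.inl ha) b (Or.inl hb) c (Or.inl hc))
  obtain ⟨g', hg'⟩ := hB.2 Γ f
    (fun a ha b hb c hc => hf a (Or.inr ha) b (Or.inr hb) c (Or.inr hc))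
  obtain ⟨κ, hκ⟩ := hAB.ratio (fun x hx y hy => hg x hx.1 y hy.1)
    (fun x hx y hy => hg' x hx.2 y hy.2)
  let G : X → Γ := fun x => if x ∈ A then g x else κ * g' x
  have hGA : ∀ x ∈ A, G x = g x := fun x hx => if_pos hx
  have hGB : ∀ x ∈ B, G x = κ * g' x := by
    intro x hx
    by_cases hxA : x ∈ A
    · rw [hGA x hxA, hκ x ⟨hxA, hx⟩]
    · exact if_neg hxA
  refine ⟨G, fun x hx y hy hxy => ?_⟩
  have hp : [x, y].Pairwise (· < ·) := by
    simp [hxy]
  rcases hc [x, y] hp (by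
    intro z hz
    simp only [List.mem_cons, List.not_mem_nil, or_false] at hz
    rcases hz with rfl | rfl
    · exact hx
    · exact hy) with h1 | h1
  · have hxA := h1 x (by simp)
    have hyA := h1 y (by simp)
    rw [hGA x hxA, hGA y hyA]
    exact hg x hxA y hyA hxy
  · have hxB := h1 x (by simp)
    have hyB := h1 y (by simp)
    rw [hGB x hxB, hGB y hyB, hg' x hxB y hyB hxy, mul_assoc]

theorem WC.cone {S : Set X} (x : X) (hx : x ∈ S) (h : ∀ y ∈ S, y ≤ x ∨ x ≤ y) : WC S :=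
  ⟨Acyc.cone x hx h, SC.cone x hx h⟩

theorem WC.union {A B : Set X} (hc : Cov A B) (hA : WC A) (hB : WC B) (hAB : WC (A ∩ B)) :
    WC (A ∪ B) := by
  refine ⟨fun k => ?_, SC.union hc hA.2 hB.2 hAB.2.1⟩
  rcases k with _ | k
  · rw [Hvan.zero_iff]
    exact hA.2.1.1.mono Set.subset_union_left
  · exact Hvan.union hc k (hA.1 (k + 1)) (hB.1 (k + 1)) (hAB.1 k)

theorem SC.amalg {ι : Type} {S : Set X} (A : ι → Set X)
    (hup : ∀ x ∈ S, ∀ i, ∀ y ∈ A i, x < y → y ∈ S)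
    (hA : ∀ i, ∀ x ∈ A i, ∀ y ∈ S ∪ ⋃ j, A j, x < y → y ∈ A i)
    (hd : ∀ i j, i ≠ j → A i ∩ A j ⊆ S)
    (hS : SC S) (h1 : ∀ i, SC (A i)) (h2 : ∀ i, Conn (A i ∩ S)) :
    SC (S ∪ ⋃ i, A i) := by
  classical
  have hsub : ∀ i, A i ⊆ S ∪ ⋃ j, A j := fun i x hx => Or.inr (Set.mem_iUnion.2 ⟨i, hx⟩)
  refine ⟨⟨hS.1.1.mono Set.subset_union_left, ?_⟩, ?_⟩
  · intro p hp
    obtain ⟨w, hw⟩ := hS.1.1
    have key : ∀ x ∈ S ∪ ⋃ j, A j, (p x ↔ p w) := by
      rintro x (hx | hx)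
      · exact hS.1.2 p (fun a ha b hb => hp a (Or.inl ha) b (Or.inl hb)) x hx w hw
      · obtain ⟨i, hi⟩ := Set.mem_iUnion.1 hx
        obtain ⟨u, huA, huS⟩ := (h2 i).1
        exact ((h1 i).1.2 p (fun a ha b hb => hp a (hsub i ha) b (hsub i hb)) x hi u huA).trans
          (hS.1.2 p (fun a ha b hb => hp a (Or.inl ha) b (Or.inl hb)) u huS w hw)
    intro x hx y hy
    exact (key x hx).trans (key y hy).symm
  · intro Γ _ f hf
    obtain ⟨G, hG⟩ := hS.2 Γ f (fun a ha b hb c hc =>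
      hf a (Or.inl ha) b (Or.inl hb) c (Or.inl hc))
    have hg : ∀ i, ∃ g : X → Γ, ∀ x ∈ A i, ∀ y ∈ A i, x < y → g y = g x * f x y := fun i =>
      (h1 i).2 Γ f (fun a ha b hb c hc => hf a (hsub i ha) b (hsub i hb) c (hsub i hc))
    choose g hg using hg
    have hκ : ∀ i, ∃ κ : Γ, ∀ x ∈ A i ∩ S, G x = κ * g i x := fun i =>
      (h2 i).ratio (fun x hx y hy => hG x hx.2 y hy.2) (fun x hx y hy => hg i x hx.1 y hy.1)
    choose κ hκ using hκ
    let G' : X → Γ := fun x =>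
      if x ∈ S then G x else if h : ∃ i, x ∈ A i then κ h.choose * g h.choose x else 1
    have hGS : ∀ x ∈ S, G' x = G x := fun x hx => if_pos hx
    have hGA : ∀ i, ∀ x ∈ A i, G' x = κ i * g i x := by
      intro i x hx
      by_cases hxS : x ∈ S
      · rw [hGS x hxS, hκ i x ⟨hx, hxS⟩]
      · have hex : ∃ i, x ∈ A i := ⟨i, hx⟩
        have heq : hex.choose = i := by
          by_contra hne
          exact hxS (hd _ _ hne ⟨hex.choose_spec, hx⟩)
        simp only [G', if_neg hxS, dif_pos hex, heq]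
    refine ⟨G', ?_⟩
    rintro x (hx | hx) y hy hxy
    · have hyS : y ∈ S := by
        rcases hy with hy | hy
        · exact hy
        · obtain ⟨i, hi⟩ := Set.mem_iUnion.1 hy
          exact hup x hx i y hi hxy
      rw [hGS x hx, hGS y hyS]
      exact hG x hx y hyS hxy
    · obtain ⟨i, hi⟩ := Set.mem_iUnion.1 hx
      have hyA := hA i x hi y hy hxy
      rw [hGA i x hi, hGA i y hyA, hg i x hi y hyA hxy, mul_assoc]

theorem SC.iUnion {A : ℕ → Set X} (hm : Monotone A) (h : ∀ i, SC (A i)) :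
    SC (⋃ i, A i) := by
  classical
  obtain ⟨x0, hx0⟩ := (h 0).1.1
  have hx0' : ∀ i, x0 ∈ A i := fun i => hm (Nat.zero_le i) hx0
  have hsub : ∀ i, A i ⊆ ⋃ j, A j := fun i x hx => Set.mem_iUnion.2 ⟨i, hx⟩
  refine ⟨⟨⟨x0, hsub 0 hx0⟩, ?_⟩, ?_⟩
  · intro p hp
    have key : ∀ x ∈ ⋃ j, A j, (p x ↔ p x0) := by
      intro x hx
      obtain ⟨i, hi⟩ := Set.mem_iUnion.1 hx
      exact (h i).1.2 p (fun a ha b hb => hp a (hsub i ha) b (hsub i hb)) x hi x0 (hx0' i)
    intro x hx y hy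
    exact (key x hx).trans (key y hy).symm
  · intro Γ _ f hf
    have hg : ∀ i, ∃ g : X → Γ, g x0 = 1 ∧ ∀ x ∈ A i, ∀ y ∈ A i, x < y → g y = g x * f x y := by
      intro i
      obtain ⟨g, hg⟩ := (h i).2 Γ f (fun a ha b hb c hc =>
        hf a (hsub i ha) b (hsub i hb) c (hsub i hc))
      refine ⟨fun x => (g x0)⁻¹ * g x, inv_mul_cancel _, fun x hx y hy hxy => ?_⟩
      simp only
      rw [hg x hx y hy hxy, mul_assoc]
    choose g hg1 hg using hg
    have hu : ∀ i j, i ≤ j → ∀ x ∈ A i, g i x = g j x := by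
      intro i j hij x hx
      obtain ⟨κ, hκ⟩ := (h i).1.ratio (hg i)
        (fun x hx y hy => hg j x (hm hij hx) y (hm hij hy))
      have h1 := hκ x0 (hx0' i)
      rw [hg1 i, hg1 j, mul_one] at h1
      rw [hκ x hx, ← h1, one_mul]
    let G : X → Γ := fun x => if h : ∃ i, x ∈ A i then g h.choose x else 1
    have hG : ∀ i, ∀ x ∈ A i, G x = g i x := by
      intro i x hx
      have hex : ∃ i, x ∈ A i := ⟨i, hx⟩
      simp only [G, dif_pos hex]
      rcases le_total hex.choose i with hle | hle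
      · exact hu _ _ hle x hex.choose_spec
      · exact (hu _ _ hle x hx).symm
    refine ⟨G, fun x hx y hy hxy => ?_⟩
    obtain ⟨i, hi⟩ := Set.mem_iUnion.1 hx
    obtain ⟨j, hj⟩ := Set.mem_iUnion.1 hy
    have hxm := hm (le_max_left i j) hi
    have hym := hm (le_max_right i j) hj
    rw [hG _ x hxm, hG _ y hym]
    exact hg _ x hxm y hym hxy

theorem Conn.join {A B : Set X} (h : ∀ a ∈ A, ∀ b ∈ B, a < b) (hA : A.Nonempty)
    (hB : B.Nonempty) : Conn (A ∪ B) := by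
  obtain ⟨a, ha⟩ := hA
  obtain ⟨b, hb⟩ := hB
  refine ⟨⟨a, Or.inl ha⟩, fun p hp => ?_⟩
  have hab := hp a (Or.inl ha) b (Or.inr hb) (h a ha b hb)
  have key : ∀ x ∈ A ∪ B, (p x ↔ p b) := by
    rintro x (hx | hx)
    · exact hp x (Or.inl hx) b (Or.inr hb) (h x hx b hb)
    · exact (hp a (Or.inl ha) x (Or.inr hx) (h a ha x hx)).symm.trans hab
  intro x hx y hy
  exact (key x hx).trans (key y hy).symm

theorem SC.join_left {A B : Set X} (h : ∀ a ∈ A, ∀ b ∈ B, a < b) (hA : Conn A)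
    (hB : B.Nonempty) : SC (A ∪ B) := by
  classical
  refine ⟨Conn.join h hA.1 hB, fun Γ _ f hf => ?_⟩
  obtain ⟨b0, hb0⟩ := hB
  obtain ⟨a0, ha0⟩ := hA.1
  have hdis : ∀ b ∈ B, b ∉ A := fun b hb hb' => lt_irrefl b (h b hb' b hb)
  have key : ∀ b ∈ B, ∀ a ∈ A, (f a b0)⁻¹ * f a b = (f a0 b0)⁻¹ * f a0 b := by
    intro b hb a ha
    refine hA.const (fun a => (f a b0)⁻¹ * f a b) ?_ a ha a0 ha0
    intro x hx y hy hxy
    rw [hf x (Or.inl hx) y (Or.inl hy) b0 (Or.inr hb0) hxy (h y hy b0 hb0),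
      hf x (Or.inl hx) y (Or.inl hy) b (Or.inr hb) hxy (h y hy b hb)]
    group
  refine ⟨fun x => if x ∈ A then (f x b0)⁻¹ else (f a0 b0)⁻¹ * f a0 x, ?_⟩
  rintro x (hx | hx) y (hy | hy) hxy
  · simp only [if_pos hx, if_pos hy]
    rw [hf x (Or.inl hx) y (Or.inl hy) b0 (Or.inr hb0) hxy (h y hy b0 hb0)]
    group
  · simp only [if_pos hx, if_neg (hdis y hy)]
    exact (key y hy x hx).symm
  · exact absurd (hxy.trans (h y hy x hx)) (lt_irrefl x)
  · simp only [if_neg (hdis x hx), if_neg (hdis y hy)]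
    rw [hf a0 (Or.inl ha0) x (Or.inr hx) y (Or.inr hy) (h a0 ha0 x hx) hxy, mul_assoc]

theorem SC.join_right {A B : Set X} (h : ∀ a ∈ A, ∀ b ∈ B, a < b) (hA : A.Nonempty)
    (hB : Conn B) : SC (A ∪ B) := by
  classical
  refine ⟨Conn.join h hA hB.1, fun Γ _ f hf => ?_⟩
  obtain ⟨a0, ha0⟩ := hA
  obtain ⟨b0, hb0⟩ := hB.1
  have hdis : ∀ b ∈ B, b ∉ A := fun b hb hb' => lt_irrefl b (h b hb' b hb)
  have key : ∀ a ∈ A, ∀ b ∈ B, f a0 b * (f a b)⁻¹ = f a0 b0 * (f a b0)⁻¹ := by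
    intro a ha b hb
    refine hB.const (fun b => f a0 b * (f a b)⁻¹) ?_ b hb b0 hb0
    intro x hx y hy hxy
    rw [hf a0 (Or.inl ha0) x (Or.inr hx) y (Or.inr hy) (h a0 ha0 x hx) hxy,
      hf a (Or.inl ha) x (Or.inr hx) y (Or.inr hy) (h a ha x hx) hxy]
    group
  refine ⟨fun x => if x ∈ A then f a0 b0 * (f x b0)⁻¹ else f a0 x, ?_⟩
  rintro x (hx | hx) y (hy | hy) hxy
  · simp only [if_pos hx, if_pos hy]
    rw [hf x (Or.inl hx) y (Or.inl hy) b0 (Or.inr hb0) hxy (h y hy b0 hb0)]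
    group
  · simp only [if_pos hx, if_neg (hdis y hy)]
    rw [← key x hx y hy, inv_mul_cancel_right]
  · exact absurd (hxy.trans (h y hy x hx)) (lt_irrefl x)
  · simp only [if_neg (hdis x hx), if_neg (hdis y hy)]
    exact hf a0 (Or.inl ha0) x (Or.inr hx) y (Or.inr hy) (h a0 ha0 x hx) hxy

end

end Pool.Agent.Helper59.PD
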