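import Pool.Agent.Helper59.PD.LibD

/-! Library, part C: equivalences, retractions, Quillen's theorem A (skeleton). -/

set_option autoImplicit false

namespace Pool.Agent.Helper59.PD

noncomputable section

variable {X Y Z : Type} [PartialOrder X] [PartialOrder Y] [PartialOrder Z]

theorem HEq'.refl (S : Set X) : HEq' S S := ⟨fun _ => Iff.rfl, fun _ => Iff.rfl, Iff.rfl⟩

theorem HEq'.symm {S : Set X} {T : Set Y} (h : HEq' S T) : HEq' T S :=
  ⟨fun m => (h.sph m).symm, fun k => (h.van k).symm, h.sc.symm⟩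

theorem HEq'.trans {S : Set X} {T : Set Y} {U : Set Z} (h : HEq' S T) (h' : HEq' T U) : HEq' S U :=
  ⟨fun m => (h.sph m).trans (h'.sph m), fun k => (h.van k).trans (h'.van k),
    h.sc.trans h'.sc⟩

theorem HEq'.of_eq {S T : Set X} (h : S = T) : HEq' S T := h ▸ HEq'.refl S

theorem HEq'.conn {S : Set X} {T : Set Y} (h : HEq' S T) : Conn S ↔ Conn T := by
  rw [conn_iff, conn_iff, h.van, h.van]

theorem HEq'.acyc {S : Set X} {T : Set Y} (h : HEq' S T) : Acyc S ↔ Acyc T :=
  forall_congr' fun k => h.van k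

theorem HEq'.wc {S : Set X} {T : Set Y} (h : HEq' S T) : WC S ↔ WC T :=
  and_congr h.acyc h.sc

/-- order isomorphic sets are equivalent -/
theorem HEq'.of_iso {S : Set X} {T : Set Y} (f : X → Y) (hf : Set.BijOn f S T)
    (h : ∀ x ∈ S, ∀ y ∈ S, (x < y ↔ f x < f y)) : HEq' S T :=
  ⟨Sph.of_iso f hf h, Hvan.of_iso f hf h, SC.of_iso f hf h⟩

theorem HEq'.add_antichain {S N : Set X} (hN : ∀ x ∈ N, ∀ y ∈ N, ¬ x < y) (hSN : Disjoint S N)
    (hl : ∀ x ∈ N, WC (Lk S x)) : HEq' S (S ∪ N) :=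
  ⟨Sph.add_antichain hN hSN fun x hx => (hl x hx).1,
    Hvan.add_antichain hN hSN fun x hx => (hl x hx).1,
    SC.add_antichain hN hSN fun x hx => (hl x hx).2⟩

/-- adding the elements of `T \ S` in increasing order -/
theorem HEq'.add_incr {S T : Set X} (hST : S ⊆ T) (ρ : X → ℕ) (N : ℕ)
    (hρ : ∀ x ∈ T, ∀ y ∈ T, x < y → ρ x < ρ y) (hN : ∀ x ∈ T, ρ x ≤ N)
    (h : ∀ x ∈ T, x ∉ S → WC (Lk (S ∪ {y ∈ T | ρ y < ρ x}) x)) : HEq' S T := by
  have key : ∀ r : ℕ, HEq' S (S ∪ {y ∈ T | ρ y < r}) := by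
    intro r
    induction r with
    | zero =>
      apply HEq'.of_eq
      ext x
      simp
    | succ r ih =>
      refine ih.trans ?_
      have e : S ∪ {y ∈ T | ρ y < r + 1} =
          (S ∪ {y ∈ T | ρ y < r}) ∪ {y ∈ T | y ∉ S ∧ ρ y = r} := by
        ext x
        simp only [Set.mem_union, Set.mem_ofPred_eq]
        constructor
        · rintro (hx | ⟨hx, hr⟩)
          · exact Or.inl (Or.inl hx)
          · by_cases hxS : x ∈ S
            · exact Or.inl (Or.inl hxS)
            · rcases Nat.lt_succ_iff_lt_or_eq.mp hr with h1 | h1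
              · exact Or.inl (Or.inr ⟨hx, h1⟩)
              · exact Or.inr ⟨hx, hxS, h1⟩
        · rintro ((hx | ⟨hx, hr⟩) | ⟨hx, -, hr⟩)
          · exact Or.inl hx
          · exact Or.inr ⟨hx, Nat.lt_succ_of_lt hr⟩
          · exact Or.inr ⟨hx, by omega⟩
      rw [e]
      apply HEq'.add_antichain
      · rintro x ⟨hx, -, hxr⟩ y ⟨hy, -, hyr⟩ hxy
        have := hρ x hx y hy hxy
        omega
      · rw [Set.disjoint_left]
        rintro x (hx | ⟨-, hx⟩) ⟨-, hxS, hxr⟩
        · exact hxS hx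
        · omega
      · rintro x ⟨hx, hxS, hxr⟩
        have := h x hx hxS
        rwa [hxr] at this
  refine (key (N + 1)).trans (HEq'.of_eq ?_)
  ext x
  simp only [Set.mem_union, Set.mem_ofPred_eq]
  constructor
  · rintro (hx | ⟨hx, -⟩)
    · exact hST hx
    · exact hx
  · intro hx
    exact Or.inr ⟨hx, Nat.lt_succ_of_le (hN x hx)⟩

/-- adding the elements of `T \ S` in decreasing order -/
theorem HEq'.add_decr {S T : Set X} (hST : S ⊆ T) (ρ : X → ℕ) (N : ℕ)
    (hρ : ∀ x ∈ T, ∀ y ∈ T, x < y → ρ x < ρ y) (hN : ∀ x ∈ T, ρ x ≤ N)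
    (h : ∀ x ∈ T, x ∉ S → WC (Lk (S ∪ {y ∈ T | ρ x < ρ y}) x)) : HEq' S T := by
  have key : ∀ r : ℕ, HEq' S (S ∪ {y ∈ T | N < ρ y + r}) := by
    intro r
    induction r with
    | zero =>
      apply HEq'.of_eq
      ext x
      simp only [add_zero, Set.mem_union, Set.mem_ofPred_eq]
      constructor
      · exact Or.inl
      · rintro (hx | ⟨hx, hr⟩)
        · exact hx
        · exact absurd (hN x hx) (by omega)
    | succ r ih =>
      refine ih.trans ?_
      have e : S ∪ {y ∈ T | N < ρ y + (r + 1)} =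
          (S ∪ {y ∈ T | N < ρ y + r}) ∪ {y ∈ T | y ∉ S ∧ ρ y + r = N} := by
        ext x
        simp only [Set.mem_union, Set.mem_ofPred_eq]
        constructor
        · rintro (hx | ⟨hx, hr⟩)
          · exact Or.inl (Or.inl hx)
          · by_cases hxS : x ∈ S
            · exact Or.inl (Or.inl hxS)
            · by_cases h1 : N < ρ x + r
              · exact Or.inl (Or.inr ⟨hx, h1⟩)
              · exact Or.inr ⟨hx, hxS, by omega⟩
        · rintro ((hx | ⟨hx, hr⟩) | ⟨hx, -, hr⟩)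
          · exact Or.inl hx
          · exact Or.inr ⟨hx, by omega⟩
          · exact Or.inr ⟨hx, by omega⟩
      rw [e]
      apply HEq'.add_antichain
      · rintro x ⟨hx, -, hxr⟩ y ⟨hy, -, hyr⟩ hxy
        have := hρ x hx y hy hxy
        omega
      · rw [Set.disjoint_left]
        rintro x (hx | ⟨-, hx⟩) ⟨-, hxS, hxr⟩
        · exact hxS hx
        · omega
      · rintro x ⟨hx, hxS, hxr⟩
        have h1 := h x hx hxS
        have e2 : {y ∈ T | N < ρ y + r} = {y ∈ T | ρ x < ρ y} := by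
          ext y
          simp only [Set.mem_ofPred_eq]
          constructor
          · rintro ⟨hy, h3⟩
            exact ⟨hy, by omega⟩
          · rintro ⟨hy, h3⟩
            exact ⟨hy, by omega⟩
        rw [e2]
        exact h1
  refine (key (N + 1)).trans (HEq'.of_eq ?_)
  ext x
  simp only [Set.mem_union, Set.mem_ofPred_eq]
  constructor
  · rintro (hx | ⟨hx, -⟩)
    · exact hST hx
    · exact hx
  · intro hx
    exact Or.inr ⟨hx, by omega⟩

/-! ### retractions -/

theorem HEq'.retract_up {S T : Set X} (hfin : FinHtOn S) (hTS : T ⊆ S) (r : X → X)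
    (hr : ∀ x ∈ S, r x ∈ T) (hT : ∀ x ∈ T, r x = x)
    (hmono : ∀ x ∈ S, ∀ y ∈ S, x ≤ y → r x ≤ r y) (hle : ∀ x ∈ S, x ≤ r x) : HEq' S T := by
  obtain ⟨N, ρ, hρ, hN⟩ := hfin
  refine (HEq'.add_incr hTS ρ N hρ hN ?_).symm
  intro x hx hxT
  have hne : x ≠ r x := fun e => hxT (e ▸ hr x hx)
  have hlt : x < r x := lt_of_le_of_ne (hle x hx) hne
  refine WC.cone (r x) ⟨Or.inl (hr x hx), Or.inr hlt⟩ ?_
  rintro y ⟨hy | ⟨hy, hyr⟩, hxy | hxy⟩
  · exact Or.inl (hxy.trans hlt).le
  · refine Or.inr ?_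
    have := hmono x hx y (hTS hy) hxy.le
    rwa [hT y hy] at this
  · exact Or.inl (hxy.trans hlt).le
  · exact absurd (hρ x hx y hy hxy) (by omega)

theorem HEq'.retract_down {S T : Set X} (hfin : FinHtOn S) (hTS : T ⊆ S) (r : X → X)
    (hr : ∀ x ∈ S, r x ∈ T) (hT : ∀ x ∈ T, r x = x)
    (hmono : ∀ x ∈ S, ∀ y ∈ S, x ≤ y → r x ≤ r y) (hle : ∀ x ∈ S, r x ≤ x) : HEq' S T := by
  obtain ⟨N, ρ, hρ, hN⟩ := hfin
  refine (HEq'.add_decr hTS ρ N hρ hN ?_).symm
  intro x hx hxT
  have hne : r x ≠ x := fun e => hxT (e ▸ hr x hx)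
  have hlt : r x < x := lt_of_le_of_ne (hle x hx) hne
  refine WC.cone (r x) ⟨Or.inl (hr x hx), Or.inl hlt⟩ ?_
  rintro y ⟨hy | ⟨hy, hyr⟩, hxy | hxy⟩
  · refine Or.inl ?_
    have := hmono y (hTS hy) x hx hxy.le
    rwa [hT y hy] at this
  · exact Or.inr (hlt.trans hxy).le
  · exact absurd (hρ y hy x hx hxy) (by omega)
  · exact Or.inr (hlt.trans hxy).le

/-- `x ≤ r x ≥ v` implies contractible -/
theorem WC.of_up {S : Set X} (hfin : FinHtOn S) (r : X → X) (hr : ∀ x ∈ S, r x ∈ S)
    (hrr : ∀ x ∈ S, r (r x) = r x) (hmono : ∀ x ∈ S, ∀ y ∈ S, x ≤ y → r x ≤ r y)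
    (hle : ∀ x ∈ S, x ≤ r x) (v : X) (hv : v ∈ S) (hrv : r v = v) (h : ∀ x ∈ S, v ≤ r x) :
    WC S := by
  have h1 : HEq' S {x ∈ S | r x = x} :=
    HEq'.retract_up hfin (fun x hx => hx.1) r (fun x hx => ⟨hr x hx, hrr x hx⟩)
      (fun x hx => hx.2) hmono hle
  rw [h1.wc]
  refine WC.cone v ⟨hv, hrv⟩ ?_
  rintro y ⟨hy, hyr⟩
  refine Or.inr ?_
  have := h y hy
  rwa [hyr] at this

/-- `x ≥ r x ≤ v` implies contractible -/
theorem WC.of_down {S : Set X} (hfin : FinHtOn S) (r : X → X) (hr : ∀ x ∈ S, r x ∈ S)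
    (hrr : ∀ x ∈ S, r (r x) = r x) (hmono : ∀ x ∈ S, ∀ y ∈ S, x ≤ y → r x ≤ r y)
    (hle : ∀ x ∈ S, r x ≤ x) (v : X) (hv : v ∈ S) (hrv : r v = v) (h : ∀ x ∈ S, r x ≤ v) :
    WC S := by
  have h1 : HEq' S {x ∈ S | r x = x} :=
    HEq'.retract_down hfin (fun x hx => hx.1) r (fun x hx => ⟨hr x hx, hrr x hx⟩)
      (fun x hx => hx.2) hmono hle
  rw [h1.wc]
  refine WC.cone v ⟨hv, hrv⟩ ?_
  rintro y ⟨hy, hyr⟩
  refine Or.inl ?_
  have := h y hy
  rwa [hyr] at this

/-! ### Quillen's theorem A -/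

/-- the mapping cylinder, with the source below the target -/
inductive CylUp {P Q : Type} [PartialOrder P] [PartialOrder Q] (f : P →o Q) : Type
  | src : P → CylUp f
  | tgt : Q → CylUp f

/-- the order of the mapping cylinder -/
def CylUp.Le {P Q : Type} [PartialOrder P] [PartialOrder Q] {f : P →o Q} :
    CylUp f → CylUp f → Prop
  | .src p, .src p' => p ≤ p'
  | .src p, .tgt q => f p ≤ q
  | .tgt _, .src _ => False
  | .tgt q, .tgt q' => q ≤ q'

instance {P Q : Type} [PartialOrder P] [PartialOrder Q] (f : P →o Q) :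
    PartialOrder (CylUp f) where
  le := CylUp.Le
  le_refl a := by
    cases a <;> exact le_rfl
  le_trans a b c hab hbc := by
    cases a <;> cases b <;> cases c <;> simp only [CylUp.Le] at hab hbc ⊢
    · exact hab.trans hbc
    · exact (f.monotone hab).trans hbc
    · exact hab.trans hbc
    · exact hab.trans hbc
  le_antisymm a b hab hba := by
    cases a <;> cases b <;> simp only [CylUp.Le] at hab hba
    · rw [le_antisymm hab hba]
    · rw [le_antisymm hab hba]

section
variable {P Q : Type} [PartialOrder P] [PartialOrder Q] {f : P →o Q}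

theorem CylUp.src_le_src {p p' : P} : (CylUp.src p : CylUp f) ≤ CylUp.src p' ↔ p ≤ p' := Iff.rfl

theorem CylUp.src_le_tgt {p : P} {q : Q} : (CylUp.src p : CylUp f) ≤ CylUp.tgt q ↔ f p ≤ q :=
  Iff.rfl

theorem CylUp.tgt_le_tgt {q q' : Q} : (CylUp.tgt q : CylUp f) ≤ CylUp.tgt q' ↔ q ≤ q' := Iff.rfl

theorem CylUp.not_tgt_le_src {p : P} {q : Q} : ¬ (CylUp.tgt q : CylUp f) ≤ CylUp.src p :=
  fun h => h

theorem CylUp.src_lt_src {p p' : P} : (CylUp.src p : CylUp f) < CylUp.src p' ↔ p < p' := by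
  rw [lt_iff_le_not_ge, lt_iff_le_not_ge, CylUp.src_le_src, CylUp.src_le_src]

theorem CylUp.src_lt_tgt {p : P} {q : Q} : (CylUp.src p : CylUp f) < CylUp.tgt q ↔ f p ≤ q := by
  rw [lt_iff_le_not_ge, CylUp.src_le_tgt]
  exact and_iff_left CylUp.not_tgt_le_src

theorem CylUp.tgt_lt_tgt {q q' : Q} : (CylUp.tgt q : CylUp f) < CylUp.tgt q' ↔ q < q' := by
  rw [lt_iff_le_not_ge, lt_iff_le_not_ge, CylUp.tgt_le_tgt, CylUp.tgt_le_tgt]

theorem CylUp.not_tgt_lt_src {p : P} {q : Q} : ¬ (CylUp.tgt q : CylUp f) < CylUp.src p :=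
  fun h => CylUp.not_tgt_le_src h.le

end

theorem FinHtOn.bound_univ {P : Type} [PartialOrder P] (h : FinHtOn (Set.univ : Set P)) :
    ∃ (N : ℕ) (ρ : P → ℕ), (∀ x y, x < y → ρ x < ρ y) ∧ ∀ x, ρ x ≤ N := by
  obtain ⟨N, ρ, h1, h2⟩ := h
  exact ⟨N, ρ, fun x y => h1 x trivial y trivial, fun x => h2 x trivial⟩

theorem quillen_le_univ {P Q : Type} [PartialOrder P] [PartialOrder Q] (f : P →o Q)
    (hP : FinHtOn (Set.univ : Set P)) (hQ : FinHtOn (Set.univ : Set Q))
    (h : ∀ q, WC {p | f p ≤ q}) : HEq' (Set.univ : Set P) (Set.univ : Set Q) := by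
  obtain ⟨N, ρ, hρ, hN⟩ := hP.bound_univ
  obtain ⟨M, σ, hσ, hM⟩ := hQ.bound_univ
  let τ : CylUp f → ℕ := fun a => match a with
    | .src p => ρ p
    | .tgt q => N + 1 + σ q
  have hτs : ∀ p, τ (CylUp.src p) = ρ p := fun _ => rfl
  have hτt : ∀ q, τ (CylUp.tgt q) = N + 1 + σ q := fun _ => rfl
  have hτ : ∀ a b, a < b → τ a < τ b := by
    intro a b hab
    cases a with
    | src p =>
      cases b with
      | src p' =>
        rw [CylUp.src_lt_src] at hab
        rw [hτs, hτs]
        exact hρ _ _ hab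
      | tgt q =>
        rw [hτs, hτt]
        have := hN p
        omega
    | tgt q =>
      cases b with
      | src p' => exact absurd hab CylUp.not_tgt_lt_src
      | tgt q' =>
        rw [CylUp.tgt_lt_tgt] at hab
        rw [hτt, hτt]
        have := hσ _ _ hab
        omega
  have hτb : ∀ a, τ a ≤ N + 1 + M := by
    intro a
    cases a with
    | src p =>
      rw [hτs]
      have := hN p
      omega
    | tgt q =>
      rw [hτt]
      have := hM q
      omega
  -- the target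
  have h1 : HEq' (Set.univ : Set (CylUp f)) (Set.range (CylUp.tgt : Q → CylUp f)) := by
    refine HEq'.retract_up ⟨N + 1 + M, τ, fun x _ y _ => hτ x y, fun x _ => hτb x⟩
      (Set.subset_univ _)
      (fun a => match a with
        | .src p => CylUp.tgt (f p)
        | .tgt q => CylUp.tgt q) ?_ ?_ ?_ ?_
    · intro x _
      cases x with
      | src p => exact ⟨f p, rfl⟩
      | tgt q => exact ⟨q, rfl⟩
    · rintro _ ⟨q, rfl⟩
      rfl
    · intro x _ y _ hxy
      cases x with
      | src p =>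
        cases y with
        | src p' => exact f.monotone (CylUp.src_le_src.mp hxy)
        | tgt q => exact hxy
      | tgt q =>
        cases y with
        | src p' => exact absurd hxy CylUp.not_tgt_le_src
        | tgt q' => exact hxy
    · intro x _
      cases x with
      | src p => exact le_refl (f p)
      | tgt q => exact le_refl q
  have h2 : HEq' (Set.univ : Set Q) (Set.range (CylUp.tgt : Q → CylUp f)) := by
    refine HEq'.of_iso CylUp.tgt ⟨fun x _ => ⟨x, rfl⟩, ?_, ?_⟩ ?_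
    · intro a _ b _ hab
      exact CylUp.tgt.inj hab
    · rintro _ ⟨q, rfl⟩
      exact ⟨q, trivial, rfl⟩
    · intro x _ y _
      exact CylUp.tgt_lt_tgt.symm
  have h3 : HEq' (Set.univ : Set P) (Set.range (CylUp.src : P → CylUp f)) := by
    refine HEq'.of_iso CylUp.src ⟨fun x _ => ⟨x, rfl⟩, ?_, ?_⟩ ?_
    · intro a _ b _ hab
      exact CylUp.src.inj hab
    · rintro _ ⟨q, rfl⟩
      exact ⟨q, trivial, rfl⟩
    · intro x _ y _
      exact CylUp.src_lt_src.symm
  have h4 : HEq' (Set.range (CylUp.src : P → CylUp f)) (Set.univ : Set (CylUp f)) := by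
    refine HEq'.add_decr (Set.subset_univ _) τ (N + 1 + M) (fun x _ y _ => hτ x y)
      (fun x _ => hτb x) ?_
    intro x _ hx
    cases x with
    | src p => exact absurd ⟨p, rfl⟩ hx
    | tgt q =>
      have e : Lk (Set.range (CylUp.src : P → CylUp f) ∪
          {y ∈ (Set.univ : Set (CylUp f)) | τ (CylUp.tgt q) < τ y}) (CylUp.tgt q) =
          (CylUp.src '' {p | f p ≤ q}) ∪ (CylUp.tgt '' {q' | q < q'}) := by
        ext y
        cases y with
        | src p =>
          constructor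
          · rintro ⟨-, hy | hy⟩
            · exact Or.inl ⟨p, CylUp.src_lt_tgt.mp hy, rfl⟩
            · exact absurd hy CylUp.not_tgt_lt_src
          · rintro (⟨p', hp', hpp⟩ | ⟨q', hq', hpp⟩)
            · have := CylUp.src.inj hpp
              subst this
              exact ⟨Or.inl ⟨p', rfl⟩, Or.inl (CylUp.src_lt_tgt.mpr hp')⟩
            · cases hpp
        | tgt q' =>
          constructor
          · rintro ⟨hy1, hy | hy⟩
            · rcases hy1 with ⟨p, hp⟩ | ⟨-, hy1⟩
              · cases hp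
              · have := hτ _ _ hy
                omega
            · exact Or.inr ⟨q', CylUp.tgt_lt_tgt.mp hy, rfl⟩
          · rintro (⟨p', hp', hpp⟩ | ⟨q'', hq', hpp⟩)
            · cases hpp
            · have := CylUp.tgt.inj hpp
              subst this
              have h5 : (CylUp.tgt q : CylUp f) < CylUp.tgt q'' := CylUp.tgt_lt_tgt.mpr hq'
              exact ⟨Or.inr ⟨trivial, hτ _ _ h5⟩, Or.inr h5⟩
      rw [e]
      apply WC.join_left
      · rintro _ ⟨p, hp, rfl⟩ _ ⟨q', hq', rfl⟩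
        exact CylUp.src_lt_tgt.mpr (le_trans hp (le_of_lt hq'))
      · have h6 : HEq' {p | f p ≤ q} ((CylUp.src : P → CylUp f) '' {p | f p ≤ q}) := by
          refine HEq'.of_iso CylUp.src ⟨fun x hx => ⟨x, hx, rfl⟩, ?_, fun x hx => hx⟩ ?_
          · intro a _ b _ hab
            exact CylUp.src.inj hab
          · intro x _ y _
            exact CylUp.src_lt_src.symm
        exact h6.wc.mp (h q)
  exact h3.trans (h4.trans (h1.trans h2.symm))

/-- the mapping cylinder, with the target below the source -/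
inductive CylDn {P Q : Type} [PartialOrder P] [PartialOrder Q] (f : P →o Q) : Type
  | src : P → CylDn f
  | tgt : Q → CylDn f

/-- the order of the mapping cylinder -/
def CylDn.Le {P Q : Type} [PartialOrder P] [PartialOrder Q] {f : P →o Q} :
    CylDn f → CylDn f → Prop
  | .src p, .src p' => p ≤ p'
  | .tgt q, .src p => q ≤ f p
  | .src _, .tgt _ => False
  | .tgt q, .tgt q' => q ≤ q'

instance {P Q : Type} [PartialOrder P] [PartialOrder Q] (f : P →o Q) :
    PartialOrder (CylDn f) where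
  le := CylDn.Le
  le_refl a := by
    cases a <;> exact le_rfl
  le_trans a b c hab hbc := by
    cases a <;> cases b <;> cases c <;> simp only [CylDn.Le] at hab hbc ⊢
    · exact hab.trans hbc
    · exact hab.trans (f.monotone hbc)
    · exact hab.trans hbc
    · exact hab.trans hbc
  le_antisymm a b hab hba := by
    cases a <;> cases b <;> simp only [CylDn.Le] at hab hba
    · rw [le_antisymm hab hba]
    · rw [le_antisymm hab hba]

section
variable {P Q : Type} [PartialOrder P] [PartialOrder Q] {f : P →o Q}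

theorem CylDn.src_le_src {p p' : P} : (CylDn.src p : CylDn f) ≤ CylDn.src p' ↔ p ≤ p' := Iff.rfl

theorem CylDn.tgt_le_src {p : P} {q : Q} : (CylDn.tgt q : CylDn f) ≤ CylDn.src p ↔ q ≤ f p :=
  Iff.rfl

theorem CylDn.tgt_le_tgt {q q' : Q} : (CylDn.tgt q : CylDn f) ≤ CylDn.tgt q' ↔ q ≤ q' := Iff.rfl

theorem CylDn.not_src_le_tgt {p : P} {q : Q} : ¬ (CylDn.src p : CylDn f) ≤ CylDn.tgt q :=
  fun h => h

theorem CylDn.src_lt_src {p p' : P} : (CylDn.src p : CylDn f) < CylDn.src p' ↔ p < p' := by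
  rw [lt_iff_le_not_ge, lt_iff_le_not_ge, CylDn.src_le_src, CylDn.src_le_src]

theorem CylDn.tgt_lt_src {p : P} {q : Q} : (CylDn.tgt q : CylDn f) < CylDn.src p ↔ q ≤ f p := by
  rw [lt_iff_le_not_ge, CylDn.tgt_le_src]
  exact and_iff_left CylDn.not_src_le_tgt

theorem CylDn.tgt_lt_tgt {q q' : Q} : (CylDn.tgt q : CylDn f) < CylDn.tgt q' ↔ q < q' := by
  rw [lt_iff_le_not_ge, lt_iff_le_not_ge, CylDn.tgt_le_tgt, CylDn.tgt_le_tgt]

theorem CylDn.not_src_lt_tgt {p : P} {q : Q} : ¬ (CylDn.src p : CylDn f) < CylDn.tgt q :=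
  fun h => CylDn.not_src_le_tgt h.le

end

theorem quillen_ge_univ {P Q : Type} [PartialOrder P] [PartialOrder Q] (f : P →o Q)
    (hP : FinHtOn (Set.univ : Set P)) (hQ : FinHtOn (Set.univ : Set Q))
    (h : ∀ q, WC {p | q ≤ f p}) : HEq' (Set.univ : Set P) (Set.univ : Set Q) := by
  obtain ⟨N, ρ, hρ, hN⟩ := hP.bound_univ
  obtain ⟨M, σ, hσ, hM⟩ := hQ.bound_univ
  let τ : CylDn f → ℕ := fun a => match a with
    | .src p => M + 1 + ρ p
    | .tgt q => σ q
  have hτs : ∀ p, τ (CylDn.src p) = M + 1 + ρ p := fun _ => rfl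
  have hτt : ∀ q, τ (CylDn.tgt q) = σ q := fun _ => rfl
  have hτ : ∀ a b, a < b → τ a < τ b := by
    intro a b hab
    cases a with
    | src p =>
      cases b with
      | src p' =>
        rw [CylDn.src_lt_src] at hab
        rw [hτs, hτs]
        have := hρ _ _ hab
        omega
      | tgt q => exact absurd hab CylDn.not_src_lt_tgt
    | tgt q =>
      cases b with
      | src p' =>
        rw [hτs, hτt]
        have := hM q
        omega
      | tgt q' =>
        rw [CylDn.tgt_lt_tgt] at hab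
        rw [hτt, hτt]
        exact hσ _ _ hab
  have hτb : ∀ a, τ a ≤ M + 1 + N := by
    intro a
    cases a with
    | src p =>
      rw [hτs]
      have := hN p
      omega
    | tgt q =>
      rw [hτt]
      have := hM q
      omega
  -- the target
  have h1 : HEq' (Set.univ : Set (CylDn f)) (Set.range (CylDn.tgt : Q → CylDn f)) := by
    refine HEq'.retract_down ⟨M + 1 + N, τ, fun x _ y _ => hτ x y, fun x _ => hτb x⟩
      (Set.subset_univ _)
      (fun a => match a with
        | .src p => CylDn.tgt (f p)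
        | .tgt q => CylDn.tgt q) ?_ ?_ ?_ ?_
    · intro x _
      cases x with
      | src p => exact ⟨f p, rfl⟩
      | tgt q => exact ⟨q, rfl⟩
    · rintro _ ⟨q, rfl⟩
      rfl
    · intro x _ y _ hxy
      cases x with
      | src p =>
        cases y with
        | src p' => exact f.monotone (CylDn.src_le_src.mp hxy)
        | tgt q => exact absurd hxy CylDn.not_src_le_tgt
      | tgt q =>
        cases y with
        | src p' => exact hxy
        | tgt q' => exact hxy
    · intro x _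
      cases x with
      | src p => exact le_refl (f p)
      | tgt q => exact le_refl q
  have h2 : HEq' (Set.univ : Set Q) (Set.range (CylDn.tgt : Q → CylDn f)) := by
    refine HEq'.of_iso CylDn.tgt ⟨fun x _ => ⟨x, rfl⟩, ?_, ?_⟩ ?_
    · intro a _ b _ hab
      exact CylDn.tgt.inj hab
    · rintro _ ⟨q, rfl⟩
      exact ⟨q, trivial, rfl⟩
    · intro x _ y _
      exact CylDn.tgt_lt_tgt.symm
  have h3 : HEq' (Set.univ : Set P) (Set.range (CylDn.src : P → CylDn f)) := by
    refine HEq'.of_iso CylDn.src ⟨fun x _ => ⟨x, rfl⟩, ?_, ?_⟩ ?_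
    · intro a _ b _ hab
      exact CylDn.src.inj hab
    · rintro _ ⟨q, rfl⟩
      exact ⟨q, trivial, rfl⟩
    · intro x _ y _
      exact CylDn.src_lt_src.symm
  have h4 : HEq' (Set.range (CylDn.src : P → CylDn f)) (Set.univ : Set (CylDn f)) := by
    refine HEq'.add_incr (Set.subset_univ _) τ (M + 1 + N) (fun x _ y _ => hτ x y)
      (fun x _ => hτb x) ?_
    intro x _ hx
    cases x with
    | src p => exact absurd ⟨p, rfl⟩ hx
    | tgt q =>
      have e : Lk (Set.range (CylDn.src : P → CylDn f) ∪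
          {y ∈ (Set.univ : Set (CylDn f)) | τ y < τ (CylDn.tgt q)}) (CylDn.tgt q) =
          (CylDn.tgt '' {q' | q' < q}) ∪ (CylDn.src '' {p | q ≤ f p}) := by
        ext y
        cases y with
        | src p =>
          constructor
          · rintro ⟨-, hy | hy⟩
            · exact absurd hy CylDn.not_src_lt_tgt
            · exact Or.inr ⟨p, CylDn.tgt_lt_src.mp hy, rfl⟩
          · rintro (⟨q', hq', hpp⟩ | ⟨p', hp', hpp⟩)
            · cases hpp
            · have := CylDn.src.inj hpp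
              subst this
              exact ⟨Or.inl ⟨p', rfl⟩, Or.inr (CylDn.tgt_lt_src.mpr hp')⟩
        | tgt q' =>
          constructor
          · rintro ⟨hy1, hy | hy⟩
            · exact Or.inl ⟨q', CylDn.tgt_lt_tgt.mp hy, rfl⟩
            · rcases hy1 with ⟨p, hp⟩ | ⟨-, hy1⟩
              · cases hp
              · have := hτ _ _ hy
                omega
          · rintro (⟨q'', hq', hpp⟩ | ⟨p', hp', hpp⟩)
            · have := CylDn.tgt.inj hpp
              subst this
              have h5 : (CylDn.tgt q'' : CylDn f) < CylDn.tgt q := CylDn.tgt_lt_tgt.mpr hq'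
              exact ⟨Or.inr ⟨trivial, hτ _ _ h5⟩, Or.inl h5⟩
            · cases hpp
      rw [e]
      apply WC.join_right
      · rintro _ ⟨q', hq', rfl⟩ _ ⟨p, hp, rfl⟩
        exact CylDn.tgt_lt_src.mpr (le_trans (le_of_lt hq') hp)
      · have h6 : HEq' {p | q ≤ f p} ((CylDn.src : P → CylDn f) '' {p | q ≤ f p}) := by
          refine HEq'.of_iso CylDn.src ⟨fun x hx => ⟨x, hx, rfl⟩, ?_, fun x hx => hx⟩ ?_
          · intro a _ b _ hab
            exact CylDn.src.inj hab
          · intro x _ y _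
            exact CylDn.src_lt_src.symm
        exact h6.wc.mp (h q)
  exact h3.trans (h4.trans (h1.trans h2.symm))

theorem FinHtOn.univ_sub {S : Set X} (hS : FinHtOn S) : FinHtOn (Set.univ : Set ↥S) := by
  obtain ⟨N, ρ, h1, h2⟩ := hS
  exact ⟨N, fun x => ρ x, fun x _ y _ hxy => h1 x x.2 y y.2 hxy, fun x _ => h2 x x.2⟩

theorem HEq'.univ_sub (S : Set X) : HEq' (Set.univ : Set ↥S) S := by
  refine HEq'.of_iso Subtype.val ⟨fun x _ => x.2, Subtype.val_injective.injOn, ?_⟩ ?_
  · intro x hx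
    exact ⟨⟨x, hx⟩, trivial, rfl⟩
  · intro x _ y _
    exact Iff.rfl

theorem HEq'.quillen_le {S : Set X} {T : Set Y} (hS : FinHtOn S) (hT : FinHtOn T) (f : X → Y)
    (hf : ∀ x ∈ S, f x ∈ T) (hmono : ∀ x ∈ S, ∀ y ∈ S, x ≤ y → f x ≤ f y)
    (h : ∀ y ∈ T, WC {x ∈ S | f x ≤ y}) : HEq' S T := by
  let F : ↥S →o ↥T := ⟨fun x => ⟨f x, hf x x.2⟩, fun x y hxy => hmono x x.2 y y.2 hxy⟩
  refine (HEq'.univ_sub S).symm.trans ((quillen_le_univ F hS.univ_sub hT.univ_sub ?_).trans
    (HEq'.univ_sub T))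
  intro q
  have h1 : HEq' {p : ↥S | F p ≤ q} {x ∈ S | f x ≤ q} := by
    refine HEq'.of_iso Subtype.val ⟨fun x hx => ⟨x.2, hx⟩, Subtype.val_injective.injOn, ?_⟩ ?_
    · rintro x ⟨hx, hx2⟩
      exact ⟨⟨x, hx⟩, hx2, rfl⟩
    · intro x _ y _
      exact Iff.rfl
  exact h1.wc.mpr (h q q.2)

theorem HEq'.quillen_ge {S : Set X} {T : Set Y} (hS : FinHtOn S) (hT : FinHtOn T) (f : X → Y)
    (hf : ∀ x ∈ S, f x ∈ T) (hmono : ∀ x ∈ S, ∀ y ∈ S, x ≤ y → f x ≤ f y)
    (h : ∀ y ∈ T, WC {x ∈ S | y ≤ f x}) : HEq' S T := by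
  let F : ↥S →o ↥T := ⟨fun x => ⟨f x, hf x x.2⟩, fun x y hxy => hmono x x.2 y y.2 hxy⟩
  refine (HEq'.univ_sub S).symm.trans ((quillen_ge_univ F hS.univ_sub hT.univ_sub ?_).trans
    (HEq'.univ_sub T))
  intro q
  have h1 : HEq' {p : ↥S | q ≤ F p} {x ∈ S | q ≤ f x} := by
    refine HEq'.of_iso Subtype.val ⟨fun x hx => ⟨x.2, hx⟩, Subtype.val_injective.injOn, ?_⟩ ?_
    · rintro x ⟨hx, hx2⟩
      exact ⟨⟨x, hx⟩, hx2, rfl⟩
    · intro x _ y _
      exact Iff.rfl
  exact h1.wc.mpr (h q q.2)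

/-- nonempty finite chains in `S`, ordered by inclusion -/
def Sd (S : Set X) : Set (Finset X) := {y | y.Nonempty ∧ IsChain (· ≤ ·) (y : Set X) ∧ ↑y ⊆ S}

theorem Sd.exists_max {S : Set X} {y : Finset X} (hy : y ∈ Sd S) :
    ∃ m ∈ y, ∀ z ∈ y, z ≤ m := by
  obtain ⟨hne, hch, hsub⟩ := hy
  obtain ⟨m, hm, hmax⟩ := y.exists_maximal hne
  refine ⟨m, hm, fun z hz => ?_⟩
  rcases eq_or_ne z m with e | hne
  · exact e.le
  · rcases hch (Finset.mem_coe.mpr hz) (Finset.mem_coe.mpr hm) hne with h | h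
    · exact h
    · exact hmax hz h

theorem FinHtOn.sd {S : Set X} (hS : FinHtOn S) : FinHtOn (Sd S) := by
  obtain ⟨N, ρ, h1, h2⟩ := hS
  refine ⟨N + 1, Finset.card, fun x _ y _ hxy => Finset.card_lt_card hxy, ?_⟩
  rintro y ⟨-, hch, hsub⟩
  have hle : y.card ≤ (Finset.range (N + 1)).card := by
    apply Finset.card_le_card_of_injOn ρ
    · intro z hz
      exact Finset.mem_coe.mpr (Finset.mem_range.mpr (Nat.lt_succ_of_le (h2 z (hsub hz))))
    · intro a ha b hb hab
      by_contra hne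
      rcases hch ha hb hne with h | h
      · have := h1 a (hsub ha) b (hsub hb) (lt_of_le_of_ne h hne)
        omega
      · have := h1 b (hsub hb) a (hsub ha) (lt_of_le_of_ne h (Ne.symm hne))
        omega
  simpa using hle

theorem HEq'.sd {S : Set X} (hS : FinHtOn S) : HEq' (Sd S) S := by
  classical
  rcases isEmpty_or_nonempty X with hX | hX
  · refine (HEq'.of_iso (fun x => ({x} : Finset X)) ⟨?_, ?_, ?_⟩ ?_).symm
    · intro x _
      exact (hX.false x).elim
    · intro x _
      exact (hX.false x).elim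
    · rintro y ⟨⟨x, hx⟩, -⟩
      exact (hX.false x).elim
    · intro x _
      exact (hX.false x).elim
  · have hmax : ∀ y : Finset X, ∃ m : X, y ∈ Sd S → m ∈ y ∧ ∀ z ∈ y, z ≤ m := by
      intro y
      by_cases hy : y ∈ Sd S
      · obtain ⟨m, hm, hm2⟩ := Sd.exists_max hy
        exact ⟨m, fun _ => ⟨hm, hm2⟩⟩
      · exact ⟨Classical.arbitrary X, fun h => absurd h hy⟩
    choose f hf using hmax
    refine HEq'.quillen_le hS.sd hS f (fun y hy => hy.2.2 (hf y hy).1) ?_ ?_
    · intro y hy z hz hyz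
      exact (hf z hz).2 _ (hyz (hf y hy).1)
    · intro x hx
      have hfin : FinHtOn {y ∈ Sd S | f y ≤ x} := by
        obtain ⟨N, ρ, h1, h2⟩ := hS.sd
        exact ⟨N, ρ, fun a ha b hb => h1 a ha.1 b hb.1, fun a ha => h2 a ha.1⟩
      have hins : ∀ y ∈ Sd S, f y ≤ x → insert x y ∈ Sd S := by
        intro y hy hyx
        refine ⟨⟨x, Finset.mem_insert_self x y⟩, ?_, ?_⟩
        · rw [Finset.coe_insert]
          apply hy.2.1.insert
          intro b hb _
          exact Or.inr (((hf y hy).2 b hb).trans hyx)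
        · rw [Finset.coe_insert]
          exact Set.insert_subset hx hy.2.2
      have hsing : ({x} : Finset X) ∈ Sd S := by
        refine ⟨⟨x, Finset.mem_singleton_self x⟩, ?_, ?_⟩
        · rw [Finset.coe_singleton]
          exact IsChain.singleton
        · rw [Finset.coe_singleton]
          exact Set.singleton_subset_iff.mpr hx
      refine WC.of_up hfin (fun y => insert x y) ?_ ?_ ?_ ?_ {x} ?_ ?_ ?_
      · rintro y ⟨hy, hyx⟩
        refine ⟨hins y hy hyx, ?_⟩
        have := (hf _ (hins y hy hyx)).1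
        rcases Finset.mem_insert.mp this with h | h
        · exact h.le
        · exact ((hf y hy).2 _ h).trans hyx
      · intro y _
        exact Finset.insert_idem x y
      · intro y _ z _ hyz
        exact Finset.insert_subset_insert x hyz
      · intro y _
        exact Finset.subset_insert x y
      · refine ⟨hsing, ?_⟩
        have := (hf _ hsing).1
        exact (Finset.mem_singleton.mp this).le
      · exact Finset.insert_eq_of_mem (Finset.mem_singleton_self x)
      · intro y _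
        exact Finset.singleton_subset_iff.mpr (Finset.mem_insert_self x y)

end

end Pool.Agent.Helper59.PD
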