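import Pool.Agent.Helper59.PD.LibB

/-! Library, part D: contractions and joins. -/

set_option autoImplicit false

namespace Pool.Agent.Helper59.PD

noncomputable section

/-- linear extension of a function on lists -/
def lin {X Y : Type} (h : List X → Ch Y) : Ch X →ₗ[ℤ] Ch Y := Finsupp.linearCombination ℤ h

/-- linear extension of an integer-valued function on lists -/
def linZ {X : Type} (f : List X → ℤ) : Ch X →ₗ[ℤ] ℤ := Finsupp.linearCombination ℤ f

namespace DAux

@[simp] lemma lin_single {X Y : Type} (h : List X → Ch Y) (l : List X) :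
    lin h (Finsupp.single l 1) = h l := by
  simp [lin]

@[simp] lemma linZ_single {X : Type} (h : List X → ℤ) (l : List X) :
    linZ h (Finsupp.single l 1) = h l := by
  simp [linZ]

@[simp] lemma d_single {X : Type} (l : List X) : d (Finsupp.single l 1) = dl l := by
  simp [d]

@[simp] lemma consL_single {X : Type} (x : X) (l : List X) :
    consL x (Finsupp.single l 1) = Finsupp.single (x :: l) 1 := by
  simp [consL]

section
variable {X : Type} [PartialOrder X]

lemma CC_eq_span (S : Set X) (k : ℕ) :
    CC S k = Submodule.span ℤ ((fun l => (Finsupp.single l 1 : Ch X)) '' cs S k) :=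
  Finsupp.supported_eq_span_single ℤ (cs S k)

lemma single_mem {S : Set X} {k : ℕ} {l : List X} (hl : l ∈ cs S k) :
    (Finsupp.single l 1 : Ch X) ∈ CC S k :=
  Finsupp.single_mem_supported ℤ 1 hl

lemma ext_CC {M : Type} [AddCommGroup M] [Module ℤ M] {S : Set X} {k : ℕ} (f g : Ch X →ₗ[ℤ] M)
    (h : ∀ l ∈ cs S k, f (Finsupp.single l 1) = g (Finsupp.single l 1)) {x : Ch X}
    (hx : x ∈ CC S k) : f x = g x := by
  rw [CC_eq_span] at hx
  have : Set.EqOn f g (Submodule.span ℤ ((fun l => (Finsupp.single l 1 : Ch X)) '' cs S k)) := by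
    apply LinearMap.eqOn_span
    rintro _ ⟨l, hl, rfl⟩
    exact h l hl
  exact this hx

lemma map_CC {M : Type} [AddCommGroup M] [Module ℤ M] {S : Set X} {k : ℕ} (f : Ch X →ₗ[ℤ] M)
    (T : Submodule ℤ M) (h : ∀ l ∈ cs S k, f (Finsupp.single l 1) ∈ T) {x : Ch X}
    (hx : x ∈ CC S k) : f x ∈ T := by
  rw [CC_eq_span] at hx
  have : Submodule.span ℤ ((fun l => (Finsupp.single l 1 : Ch X)) '' cs S k) ≤ T.comap f := by
    rw [Submodule.span_le]
    rintro _ ⟨l, hl, rfl⟩
    exact h l hl
  exact this hx

lemma dl_mem {S : Set X} {k : ℕ} {l : List X} (hl : l ∈ cs S (k + 1)) : dl l ∈ CC S k := by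
  rw [← d_single]
  exact d_mem (single_mem hl)

lemma dl_zero {S : Set X} {l : List X} (hl : l ∈ cs S 0) : dl l = 0 := by
  rw [← d_single]
  exact d_zero (single_mem hl)

lemma lin_mem {S : Set X} {k : ℕ} {H : List X → Ch X} {j : ℕ}
    (hH : ∀ l ∈ cs S k, H l ∈ CC S j) {x : Ch X} (hx : x ∈ CC S k) : lin H x ∈ CC S j :=
  map_CC (lin H) _ (fun l hl => by rw [lin_single]; exact hH l hl) hx

/-- the general contraction lemma -/
theorem contr {S : Set X} {m : ℕ} (z : Ch X)
    (hnd : ∀ a : ℤ, ∀ e ∈ CC S (m + 1), d e = a • z → a • z = 0)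
    (h : ∀ k, ∀ c ∈ CC S k, d c = 0 →
      ∃ e ∈ CC S (k + 1), ∃ a : ℤ, (k ≠ m → a = 0) ∧ c = d e + a • z) :
    ∃ (H : List X → Ch X) (c : List X → ℤ), (∀ k, ∀ l ∈ cs S k, H l ∈ CC S (k + 1)) ∧
      (∀ k, k ≠ m → ∀ l ∈ cs S k, c l = 0) ∧
      ∀ k, ∀ l ∈ cs S k, d (H l) + lin H (dl l) = Finsupp.single l 1 - c l • z := by
  classical
  have hp : ∀ (k : ℕ) (x : Ch X), ∃ p : Ch X × ℤ, x ∈ CC S k → d x = 0 →
      p.1 ∈ CC S (k + 1) ∧ (k ≠ m → p.2 = 0) ∧ x = d p.1 + p.2 • z := by
    intro k x
    by_cases hx : x ∈ CC S k ∧ d x = 0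
    · obtain ⟨e, he, a, ha, hxe⟩ := h k x hx.1 hx.2
      exact ⟨(e, a), fun _ _ => ⟨he, ha, hxe⟩⟩
    · exact ⟨0, fun h1 h2 => absurd ⟨h1, h2⟩ hx⟩
  choose P hP using hp
  -- the recursive construction
  let F : ℕ → List X → Ch X × ℤ := fun n => Nat.rec
    (fun l => P 0 (Finsupp.single l 1))
    (fun n Fn l => P (n + 1) (Finsupp.single l 1 - lin (fun l' => (Fn l').1) (dl l))) n
  let H : List X → Ch X := fun l => (F l.length l).1
  let c : List X → ℤ := fun l => (F l.length l).2
  have key : ∀ k, ∀ l ∈ cs S k, (Finsupp.single l 1 - lin H (dl l)) ∈ CC S k ∧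
      d (Finsupp.single l 1 - lin H (dl l)) = 0 ∧ H l ∈ CC S (k + 1) ∧ (k ≠ m → c l = 0) ∧
      Finsupp.single l 1 - lin H (dl l) = d (H l) + c l • z := by
    intro k
    induction k with
    | zero =>
      intro l hl
      have h0 : dl l = 0 := dl_zero hl
      have hlen : l.length = 0 := hl.2.2
      have e1 : H l = (P 0 (Finsupp.single l 1)).1 := by simp only [H, F, hlen]; rfl
      have e2 : c l = (P 0 (Finsupp.single l 1)).2 := by simp only [c, F, hlen]; rfl
      have hm : (Finsupp.single l 1 : Ch X) ∈ CC S 0 := single_mem hl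
      have hd : d (Finsupp.single l 1 : Ch X) = 0 := by rw [d_single, h0]
      obtain ⟨q1, q2, q3⟩ := hP 0 (Finsupp.single l 1) hm hd
      rw [h0, map_zero, sub_zero, e1, e2]
      exact ⟨hm, hd, q1, q2, q3⟩
    | succ k ih =>
      intro l hl
      have hlen : l.length = k + 1 := hl.2.2
      have hdl : dl l ∈ CC S k := dl_mem hl
      -- replace `F k` by `H`
      have hFH : lin (fun l' => (F k l').1) (dl l) = lin H (dl l) := by
        apply ext_CC _ _ _ hdl
        intro l' hl'
        rw [lin_single, lin_single]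
        have : l'.length = k := hl'.2.2
        simp only [H, this]
      have hx : F (k + 1) l = P (k + 1) (Finsupp.single l 1 - lin H (dl l)) := by
        rw [← hFH]
      have hHk : lin H (dl l) ∈ CC S (k + 1) := lin_mem (fun l' hl' => (ih l' hl').2.2.1) hdl
      have hmem : (Finsupp.single l 1 - lin H (dl l) : Ch X) ∈ CC S (k + 1) :=
        Submodule.sub_mem _ (single_mem hl) hHk
      -- the homotopy identity in length `k`
      have hid : d (lin H (dl l)) + lin H (d (dl l)) = dl l - linZ c (dl l) • z := by
        have := ext_CC (S := S) (k := k) (d.comp (lin H) + (lin H).comp d)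
          (LinearMap.id - (LinearMap.toSpanSingleton ℤ _ z).comp (linZ c)) (by
            intro l' hl'
            obtain ⟨_, _, _, _, q⟩ := ih l' hl'
            simp only [LinearMap.add_apply, LinearMap.comp_apply, lin_single, d_single,
              LinearMap.sub_apply, LinearMap.id_apply, linZ_single,
              LinearMap.toSpanSingleton_apply]
            rw [sub_eq_iff_eq_add] at q
            rw [q]
            abel) hdl
        simpa only [LinearMap.add_apply, LinearMap.comp_apply, LinearMap.sub_apply,
          LinearMap.id_apply, LinearMap.toSpanSingleton_apply] using this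
      have hdd : d (dl l) = 0 := by rw [← d_single, d_d]
      have hdx : d (Finsupp.single l 1 - lin H (dl l)) = linZ c (dl l) • z := by
        rw [map_sub, d_single]
        rw [hdd, map_zero, add_zero] at hid
        rw [hid]
        abel
      have hdx0 : d (Finsupp.single l 1 - lin H (dl l)) = 0 := by
        rw [hdx]
        by_cases hkm : k = m
        · subst hkm
          exact hnd _ _ hmem hdx
        · have : linZ c (dl l) = 0 := by
            have := ext_CC (S := S) (k := k) (linZ c) 0 (by
              intro l' hl'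
              rw [linZ_single, LinearMap.zero_apply]
              exact (ih l' hl').2.2.2.1 hkm) hdl
            simpa using this
          rw [this, zero_smul]
      obtain ⟨q1, q2, q3⟩ := hP (k + 1) _ hmem hdx0
      have e1 : H l = (P (k + 1) (Finsupp.single l 1 - lin H (dl l))).1 := by
        rw [← hx]; simp only [H, hlen]
      have e2 : c l = (P (k + 1) (Finsupp.single l 1 - lin H (dl l))).2 := by
        rw [← hx]; simp only [c, hlen]
      rw [e1, e2]
      exact ⟨hmem, hdx0, q1, q2, q3⟩
  refine ⟨H, c, fun k l hl => (key k l hl).2.2.1, fun k hk l hl => (key k l hl).2.2.2.1 hk, ?_⟩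
  intro k l hl
  have q := (key k l hl).2.2.2.2
  rw [sub_eq_iff_eq_add] at q
  rw [q]
  abel

/-- linear extension of the homotopy identity -/
theorem contr_lin {S : Set X} {z : Ch X} {H : List X → Ch X} {c : List X → ℤ}
    (h : ∀ k, ∀ l ∈ cs S k, d (H l) + lin H (dl l) = Finsupp.single l 1 - c l • z) {k : ℕ}
    {x : Ch X} (hx : x ∈ CC S k) : d (lin H x) + lin H (d x) = x - linZ c x • z := by
  have := ext_CC (S := S) (k := k) (d.comp (lin H) + (lin H).comp d)
    (LinearMap.id - (LinearMap.toSpanSingleton ℤ _ z).comp (linZ c)) (by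
      intro l' hl'
      simp only [LinearMap.add_apply, LinearMap.comp_apply, lin_single, d_single,
        LinearMap.sub_apply, LinearMap.id_apply, linZ_single,
        LinearMap.toSpanSingleton_apply]
      exact h k l' hl') hx
  simpa only [LinearMap.add_apply, LinearMap.comp_apply, LinearMap.sub_apply,
    LinearMap.id_apply, LinearMap.toSpanSingleton_apply] using this

end

/-! ### concatenation -/

/-- concatenation of chains -/
def cat {X : Type} : Ch X →ₗ[ℤ] Ch X →ₗ[ℤ] Ch X :=
  Finsupp.linearCombination ℤ (fun a : List X => Finsupp.lmapDomain ℤ ℤ (fun b : List X => a ++ b))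

@[simp] lemma cat_single {X : Type} (a b : List X) :
    cat (Finsupp.single a 1) (Finsupp.single b 1) = Finsupp.single (a ++ b) 1 := by
  simp [cat]

lemma cat_nil {X : Type} (v : Ch X) : cat (Finsupp.single [] 1) v = v := by
  have : (cat (Finsupp.single ([] : List X) 1) : Ch X →ₗ[ℤ] Ch X) = LinearMap.id := by
    apply Finsupp.lhom_ext'
    intro b
    apply LinearMap.ext_ring
    simp only [LinearMap.comp_apply, Finsupp.lsingle_apply, LinearMap.id_apply]
    rw [cat_single, List.nil_append]
  rw [this, LinearMap.id_apply]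

lemma cat_consL {X : Type} (x : X) (u v : Ch X) : cat (consL x u) v = consL x (cat u v) := by
  have : (cat.comp (consL x) : Ch X →ₗ[ℤ] Ch X →ₗ[ℤ] Ch X) =
      (LinearMap.llcomp ℤ (Ch X) (Ch X) (Ch X) (consL x)).comp cat := by
    apply Finsupp.lhom_ext'
    intro a
    apply LinearMap.ext_ring
    apply Finsupp.lhom_ext'
    intro b
    apply LinearMap.ext_ring
    simp only [LinearMap.comp_apply, Finsupp.lsingle_apply, LinearMap.llcomp_apply]
    rw [consL_single, cat_single, cat_single, consL_single, List.cons_append]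
  have h := LinearMap.congr_fun (LinearMap.congr_fun this u) v
  simpa only [LinearMap.comp_apply, LinearMap.llcomp_apply] using h

lemma d_consL {X : Type} (x : X) (u : Ch X) : d (consL x u) = u - consL x (d u) := by
  have : (d.comp (consL x) : Ch X →ₗ[ℤ] Ch X) = LinearMap.id - (consL x).comp d := by
    apply Finsupp.lhom_ext'
    intro a
    apply LinearMap.ext_ring
    simp only [LinearMap.comp_apply, Finsupp.lsingle_apply, LinearMap.sub_apply,
      LinearMap.id_apply]
    rw [consL_single, d_single, d_single]
    rfl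
  have h := LinearMap.congr_fun this u
  simpa only [LinearMap.comp_apply, LinearMap.sub_apply, LinearMap.id_apply] using h

lemma d_cat_single {X : Type} (a : List X) (v : Ch X) :
    d (cat (Finsupp.single a 1) v) =
      cat (dl a) v + (-1 : ℤ) ^ a.length • cat (Finsupp.single a 1) (d v) := by
  induction a with
  | nil =>
    rw [cat_nil, cat_nil]
    simp [dl]
  | cons x a ih =>
    rw [← consL_single, cat_consL, d_consL, ih, cat_consL]
    simp only [dl, map_add, map_smul, map_sub, LinearMap.sub_apply, List.length_cons, pow_succ]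
    rw [cat_consL]
    simp only [mul_neg, mul_one, neg_smul]
    abel

section
variable {X : Type} [PartialOrder X]

lemma d_cat {S : Set X} {i : ℕ} {u : Ch X} (hu : u ∈ CC S i) (v : Ch X) :
    d (cat u v) = cat (d u) v + (-1 : ℤ) ^ i • cat u (d v) := by
  have := ext_CC (S := S) (k := i) (d.comp (cat.flip v))
    ((cat.flip v).comp d + (-1 : ℤ) ^ i • cat.flip (d v)) (by
      intro a ha
      simp only [LinearMap.comp_apply, LinearMap.flip_apply, LinearMap.add_apply,
        LinearMap.smul_apply, d_single]
      rw [d_cat_single, ha.2.2]) hu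
  simpa only [LinearMap.comp_apply, LinearMap.flip_apply, LinearMap.add_apply,
    LinearMap.smul_apply] using this

variable {A B : Set X}

lemma append_mem (h : ∀ a ∈ A, ∀ b ∈ B, a < b) {i j : ℕ} {a b : List X} (ha : a ∈ cs A i)
    (hb : b ∈ cs B j) : a ++ b ∈ cs (A ∪ B) (i + j) := by
  refine ⟨?_, ?_, ?_⟩
  · rw [List.pairwise_append]
    exact ⟨ha.1, hb.1, fun x hx y hy => h x (ha.2.1 x hx) y (hb.2.1 y hy)⟩
  · intro x hx
    rcases List.mem_append.1 hx with hx | hx
    · exact Or.inl (ha.2.1 x hx)
    · exact Or.inr (hb.2.1 x hx)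
  · rw [List.length_append, ha.2.2, hb.2.2]

lemma cat_mem (h : ∀ a ∈ A, ∀ b ∈ B, a < b) {i j : ℕ} {u v : Ch X} (hu : u ∈ CC A i)
    (hv : v ∈ CC B j) : cat u v ∈ CC (A ∪ B) (i + j) := by
  have h1 : ∀ a ∈ cs A i, cat (Finsupp.single a 1) v ∈ CC (A ∪ B) (i + j) := by
    intro a ha
    apply map_CC (cat (Finsupp.single a 1)) _ _ hv
    intro b hb
    rw [cat_single]
    exact single_mem (append_mem h ha hb)
  have := map_CC (S := A) (k := i) (cat.flip v) (CC (A ∪ B) (i + j)) (fun a ha => by
    rw [LinearMap.flip_apply]; exact h1 a ha) hu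
  simpa only [LinearMap.flip_apply] using this

open Classical in
/-- the part of a list in `A` -/
def sa (A : Set X) (l : List X) : List X := l.takeWhile (fun x => decide (x ∈ A))

open Classical in
/-- the rest of the list -/
def sb (A : Set X) (l : List X) : List X := l.dropWhile (fun x => decide (x ∈ A))

omit [PartialOrder X] in
lemma sa_sb (A : Set X) (l : List X) : sa A l ++ sb A l = l := List.takeWhile_append_dropWhile

lemma split (h : ∀ a ∈ A, ∀ b ∈ B, a < b) {k : ℕ} {l : List X} (hl : l ∈ cs (A ∪ B) k) :
    ∃ i j, i + j = k ∧ sa A l ∈ cs A i ∧ sb A l ∈ cs B j := by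
  classical
  have hpw : (sa A l ++ sb A l).Pairwise (· < ·) := by rw [sa_sb]; exact hl.1
  rw [List.pairwise_append] at hpw
  have hB : ∀ x ∈ sb A l, x ∈ B := by
    intro x hx
    have hne : sb A l ≠ [] := List.ne_nil_of_mem hx
    have hmem : ∀ y ∈ sb A l, y ∈ A ∪ B := by
      intro y hy
      apply hl.2.1
      rw [← sa_sb A l]
      exact List.mem_append_right _ hy
    obtain ⟨y, t, hyt⟩ := List.exists_cons_of_ne_nil hne
    have hyA : y ∉ A := by
      have := List.head_dropWhile_not (fun x => decide (x ∈ A)) (l := l)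
        (by exact hne)
      have e : (List.dropWhile (fun x => decide (x ∈ A)) l).head hne = y := by
        have : List.dropWhile (fun x => decide (x ∈ A)) l = y :: t := hyt
        simp [this]
      rw [e] at this
      simpa using this
    have hyB : y ∈ B := by
      rcases hmem y (by rw [hyt]; exact List.mem_cons_self) with h' | h'
      · exact absurd h' hyA
      · exact h'
    rw [hyt] at hx
    rcases List.mem_cons.1 hx with rfl | hxt
    · exact hyB
    · rcases hmem x (by rw [hyt]; exact List.mem_cons_of_mem _ hxt) with h' | h'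
      · exfalso
        have h1 : x < y := h x h' y hyB
        have h2 : y < x := by
          have := hpw.2.1
          rw [hyt, List.pairwise_cons] at this
          exact this.1 x hxt
        exact lt_asymm h1 h2
      · exact h'
  refine ⟨(sa A l).length, (sb A l).length, ?_, ⟨hpw.1, ?_, rfl⟩, ⟨hpw.2.1, hB, rfl⟩⟩
  · rw [← List.length_append, sa_sb]
    exact hl.2.2
  · intro x hx
    have := List.mem_takeWhile_imp hx
    simpa using this

lemma sa_append (h : ∀ a ∈ A, ∀ b ∈ B, a < b) {a b : List X} (ha : ∀ x ∈ a, x ∈ A)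
    (hb : ∀ x ∈ b, x ∈ B) : sa A (a ++ b) = a ∧ sb A (a ++ b) = b := by
  classical
  have hdisj : ∀ x ∈ B, x ∉ A := fun x hx hxA => lt_irrefl x (h x hxA x hx)
  have h1 : sa A (a ++ b) = a := by
    unfold sa
    rw [List.takeWhile_append_of_pos (fun x hx => by simpa using ha x hx)]
    have : List.takeWhile (fun x => decide (x ∈ A)) b = [] := by
      cases b with
      | nil => rfl
      | cons y t =>
        rw [List.takeWhile_cons_of_neg]
        simpa using hdisj y (hb y List.mem_cons_self)
    rw [this, List.append_nil]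
  refine ⟨h1, ?_⟩
  have h2 := sa_sb A (a ++ b)
  rw [h1] at h2
  exact List.append_cancel_left h2

/-- the contraction of a join, from a contraction of the first factor -/
def HJ (A : Set X) (H : List X → Ch X) : List X → Ch X := fun l =>
  cat (H (sa A l)) (Finsupp.single (sb A l) 1)

/-- the projection to the second factor -/
def PJ (A : Set X) (c : List X → ℤ) : List X → Ch X := fun l =>
  c (sa A l) • Finsupp.single (sb A l) 1

lemma lin_HJ (h : ∀ a ∈ A, ∀ b ∈ B, a < b) (H : List X → Ch X) {i j : ℕ} {u v : Ch X}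
    (hu : u ∈ CC A i) (hv : v ∈ CC B j) : lin (HJ A H) (cat u v) = cat (lin H u) v := by
  have h1 : ∀ a ∈ cs A i, lin (HJ A H) (cat (Finsupp.single a 1) v) = cat (H a) v := by
    intro a ha
    have := ext_CC (S := B) (k := j) ((lin (HJ A H)).comp (cat (Finsupp.single a 1)))
      (cat (H a)) (by
        intro b hb
        rw [LinearMap.comp_apply, cat_single, lin_single]
        obtain ⟨e1, e2⟩ := sa_append h ha.2.1 hb.2.1
        simp only [HJ, e1, e2]) hv
    simpa only [LinearMap.comp_apply] using this
  have := ext_CC (S := A) (k := i) ((lin (HJ A H)).comp (cat.flip v))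
    ((cat.flip v).comp (lin H)) (by
      intro a ha
      simp only [LinearMap.comp_apply, LinearMap.flip_apply, lin_single]
      exact h1 a ha) hu
  simpa only [LinearMap.comp_apply, LinearMap.flip_apply] using this

lemma lin_PJ (h : ∀ a ∈ A, ∀ b ∈ B, a < b) (c : List X → ℤ) {i j : ℕ} {u v : Ch X}
    (hu : u ∈ CC A i) (hv : v ∈ CC B j) : lin (PJ A c) (cat u v) = linZ c u • v := by
  have h1 : ∀ a ∈ cs A i, lin (PJ A c) (cat (Finsupp.single a 1) v) = c a • v := by
    intro a ha
    have := ext_CC (S := B) (k := j) ((lin (PJ A c)).comp (cat (Finsupp.single a 1)))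
      (c a • LinearMap.id) (by
        intro b hb
        rw [LinearMap.comp_apply, cat_single, lin_single]
        obtain ⟨e1, e2⟩ := sa_append h ha.2.1 hb.2.1
        simp only [PJ, e1, e2, LinearMap.smul_apply, LinearMap.id_apply]) hv
    simpa only [LinearMap.comp_apply, LinearMap.smul_apply, LinearMap.id_apply] using this
  have := ext_CC (S := A) (k := i) ((lin (PJ A c)).comp (cat.flip v))
    ((LinearMap.toSpanSingleton ℤ _ v).comp (linZ c)) (by
      intro a ha
      simp only [LinearMap.comp_apply, LinearMap.flip_apply, linZ_single,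
        LinearMap.toSpanSingleton_apply]
      exact h1 a ha) hu
  simpa only [LinearMap.comp_apply, LinearMap.flip_apply,
    LinearMap.toSpanSingleton_apply] using this

/-- the homotopy identity on a join -/
theorem join_id (h : ∀ a ∈ A, ∀ b ∈ B, a < b) {z : Ch X} {H : List X → Ch X} {c : List X → ℤ}
    (hH : ∀ k, ∀ l ∈ cs A k, H l ∈ CC A (k + 1))
    (hid : ∀ k, ∀ l ∈ cs A k, d (H l) + lin H (dl l) = Finsupp.single l 1 - c l • z) {k : ℕ}
    {y : Ch X} (hy : y ∈ CC (A ∪ B) k) :
    d (lin (HJ A H) y) + lin (HJ A H) (d y) = y - cat z (lin (PJ A c) y) := by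
  have := ext_CC (S := A ∪ B) (k := k) (d.comp (lin (HJ A H)) + (lin (HJ A H)).comp d)
    (LinearMap.id - (cat z).comp (lin (PJ A c))) (by
      intro l hl
      obtain ⟨i, j, hij, ha, hb⟩ := split h hl
      simp only [LinearMap.add_apply, LinearMap.comp_apply, LinearMap.sub_apply,
        LinearMap.id_apply, lin_single, d_single]
      have hl' : (Finsupp.single l 1 : Ch X) =
          cat (Finsupp.single (sa A l) 1) (Finsupp.single (sb A l) 1) := by
        rw [cat_single, sa_sb]
      have hdl : dl l = cat (dl (sa A l)) (Finsupp.single (sb A l) 1) +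
          (-1 : ℤ) ^ i • cat (Finsupp.single (sa A l) 1) (dl (sb A l)) := by
        rw [← d_single l, hl', d_cat_single, ha.2.2, d_single]
      have e1 : d (HJ A H l) = cat (d (H (sa A l))) (Finsupp.single (sb A l) 1) +
          (-1 : ℤ) ^ (i + 1) • cat (H (sa A l)) (dl (sb A l)) := by
        simp only [HJ]
        rw [d_cat (hH i _ ha), d_single]
      have e2 : lin (HJ A H) (dl l) = cat (lin H (dl (sa A l))) (Finsupp.single (sb A l) 1) +
          (-1 : ℤ) ^ i • cat (H (sa A l)) (dl (sb A l)) := by
        rw [hdl, map_add, map_smul]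
        congr 1
        · rcases Nat.eq_zero_or_pos i with hi | hi
          · subst hi
            rw [dl_zero ha]
            simp
          · obtain ⟨i', rfl⟩ : ∃ i', i = i' + 1 := ⟨i - 1, by omega⟩
            exact lin_HJ h H (dl_mem ha) (single_mem hb)
        · congr 1
          rcases Nat.eq_zero_or_pos j with hj | hj
          · subst hj
            rw [dl_zero hb]
            simp
          · obtain ⟨j', rfl⟩ : ∃ j', j = j' + 1 := ⟨j - 1, by omega⟩
            rw [lin_HJ h H (single_mem ha) (dl_mem hb), lin_single]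
      have e3 : d (H (sa A l)) = Finsupp.single (sa A l) 1 - c (sa A l) • z -
          lin H (dl (sa A l)) := by
        rw [← hid i _ ha]; abel
      rw [e1, e2, e3, hl']
      simp only [PJ, map_sub, LinearMap.sub_apply, map_smul, LinearMap.smul_apply, pow_succ,
        mul_neg, mul_one, neg_smul, cat_single, sa_sb]
      abel) hy
  simpa only [LinearMap.add_apply, LinearMap.comp_apply, LinearMap.sub_apply,
    LinearMap.id_apply] using this

end

end DAux

open DAux

variable {X Y Z : Type} [PartialOrder X] [PartialOrder Y] [PartialOrder Z]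

/-- an acyclic poset has a contraction -/
theorem Acyc.contraction {S : Set X} (h : Acyc S) :
    ∃ H : List X → Ch X, (∀ k, ∀ l ∈ cs S k, H l ∈ CC S (k + 1)) ∧
      ∀ k, ∀ l ∈ cs S k, d (H l) + lin H (dl l) = Finsupp.single l 1 := by
  obtain ⟨H, c, h1, _, h3⟩ := contr (S := S) (m := 0) 0 (fun a e _ _ => smul_zero a) (by
    intro k x hx hdx
    obtain ⟨e, he, hde⟩ := h k x hx hdx
    exact ⟨e, he, 0, fun _ => rfl, by rw [hde]; simp⟩)
  refine ⟨H, h1, fun k l hl => ?_⟩
  rw [h3 k l hl, smul_zero, sub_zero]

/-- a homology sphere has a contraction onto its fundamental cycle -/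
theorem Sph.contraction {S : Set X} {m : ℕ} (h : Sph S m) :
    ∃ (z : Ch X) (H : List X → Ch X) (c : List X → ℤ), z ∈ CC S m ∧ d z = 0 ∧ linZ c z = 1 ∧
      (∀ k, ∀ l ∈ cs S k, H l ∈ CC S (k + 1)) ∧ (∀ k, k ≠ m → ∀ l ∈ cs S k, c l = 0) ∧
      ∀ k, ∀ l ∈ cs S k, d (H l) + lin H (dl l) = Finsupp.single l 1 - c l • z := by
  obtain ⟨z, hz, hdz, hnd, hc⟩ := h
  obtain ⟨H, c, h1, h2, h3⟩ := contr (S := S) (m := m) z
    (fun a e he hde => by rw [hnd a e he hde, zero_smul]) hc
  refine ⟨z, H, c, hz, hdz, ?_, h1, h2, h3⟩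
  have hid := contr_lin h3 hz
  rw [hdz, map_zero, add_zero] at hid
  have h4 := hnd (1 - linZ c z) (lin H z) (lin_mem (h1 m) hz) (by
    rw [hid, sub_smul, one_smul])
  linarith

theorem Sph.join {A B : Set X} (h : ∀ a ∈ A, ∀ b ∈ B, a < b) {m n : ℕ} (hA : Sph A m)
    (hB : Sph B n) : Sph (A ∪ B) (m + n) := by
  obtain ⟨z, H, c, hz, hdz, hcz, hH, hc, hid⟩ := hA.contraction
  obtain ⟨z', hz', hdz', hnd, hcB⟩ := hB
  have hcz' : ∀ v : Ch X, ∀ j, v ∈ CC B j → lin (PJ A c) (cat z v) = v := by
    intro v j hv
    rw [lin_PJ h c hz hv, hcz, one_smul]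
  have hdcat : ∀ v : Ch X, d (cat z v) = (-1 : ℤ) ^ m • cat z (d v) := by
    intro v
    rw [d_cat hz, hdz]
    simp
  -- the projection maps chains of length `m + j` to chains of length `j`
  have hPmem : ∀ j, ∀ y ∈ CC (A ∪ B) (m + j), lin (PJ A c) y ∈ CC B j := by
    intro j y hy
    apply map_CC (lin (PJ A c)) _ _ hy
    intro l hl
    obtain ⟨i, j', hij, ha, hb⟩ := split h hl
    rw [lin_single]
    simp only [PJ]
    by_cases him : i = m
    · have : j' = j := by omega
      subst this
      exact Submodule.smul_mem _ _ (single_mem hb)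
    · rw [hc i him _ ha, zero_smul]
      exact Submodule.zero_mem _
  have hPzero : ∀ k, k < m → ∀ y ∈ CC (A ∪ B) k, lin (PJ A c) y = 0 := by
    intro k hk y hy
    have := ext_CC (lin (PJ A c)) 0 (fun l hl => by
      obtain ⟨i, j', hij, ha, hb⟩ := split h hl
      rw [lin_single, LinearMap.zero_apply]
      simp only [PJ]
      rw [hc i (by omega) _ ha, zero_smul]) hy
    simpa using this
  -- the projection commutes with the boundary up to sign
  have hcomm : ∀ j, ∀ y ∈ CC (A ∪ B) (m + (j + 1)),
      lin (PJ A c) (d y) = (-1 : ℤ) ^ m • d (lin (PJ A c) y) := by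
    intro j y hy
    have hdy : d y ∈ CC (A ∪ B) (m + j) := d_mem hy
    have e1 := join_id h hH hid hy
    have e2 := join_id h hH hid hdy
    rw [d_d, map_zero, add_zero] at e2
    have e3 : d (lin (HJ A H) (d y)) = d y - (-1 : ℤ) ^ m • cat z (d (lin (PJ A c) y)) := by
      have := congrArg (fun w => d w) e1
      simp only [map_add, map_sub, d_d, zero_add] at this
      rw [this, hdcat]
    have e4 : cat z (lin (PJ A c) (d y)) = (-1 : ℤ) ^ m • cat z (d (lin (PJ A c) y)) := by
      have := e2.symm.trans e3
      exact sub_right_injective this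
    have e5 := congrArg (lin (PJ A c)) e4
    rw [hcz' _ j (hPmem j _ hdy), map_smul, hcz' _ j (d_mem (hPmem (j + 1) _ hy))] at e5
    exact e5
  refine ⟨cat z z', cat_mem h hz hz', ?_, ?_, ?_⟩
  · rw [hdcat, hdz', map_zero, smul_zero]
  · intro a e he hde
    have he' : e ∈ CC (A ∪ B) (m + (n + 1)) := he
    have h1 := hcomm n e he'
    rw [hde, map_smul, hcz' _ n hz'] at h1
    apply hnd a ((-1 : ℤ) ^ m • lin (PJ A c) e)
      (Submodule.smul_mem _ _ (hPmem (n + 1) e he'))
    rw [map_smul, ← h1]
  · intro k y hy hdy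
    have hid' := join_id h hH hid hy
    rw [hdy, map_zero, add_zero] at hid'
    have hHy : lin (HJ A H) y ∈ CC (A ∪ B) (k + 1) := by
      apply map_CC (lin (HJ A H)) _ _ hy
      intro l hl
      obtain ⟨i, j', hij, ha, hb⟩ := split h hl
      rw [lin_single]
      simp only [HJ]
      have := cat_mem h (hH i _ ha) (single_mem hb)
      have e : i + 1 + j' = k + 1 := by omega
      rw [e] at this
      exact this
    rcases Nat.lt_or_ge k m with hk | hk
    · rw [hPzero k hk y hy, map_zero, sub_zero] at hid'
      exact ⟨lin (HJ A H) y, hHy, 0, fun _ => rfl, by rw [hid']; simp⟩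
    · obtain ⟨j, rfl⟩ : ∃ j, k = m + j := ⟨k - m, by omega⟩
      have hPy := hPmem j y hy
      have hdP : d (lin (PJ A c) y) = 0 := by
        rcases Nat.eq_zero_or_pos j with hj | hj
        · subst hj
          exact d_zero hPy
        · obtain ⟨j', rfl⟩ : ∃ j', j = j' + 1 := ⟨j - 1, by omega⟩
          have h1 := hcomm j' y hy
          rw [hdy, map_zero] at h1
          have h2 := congrArg (fun w => (-1 : ℤ) ^ m • w) h1
          simp only [smul_zero, smul_smul] at h2
          rw [← mul_pow] at h2
          simpa using h2.symm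
      obtain ⟨e, he, a, ha, hya⟩ := hcB j _ hPy hdP
      refine ⟨lin (HJ A H) y + (-1 : ℤ) ^ m • cat z e, ?_, a, ?_, ?_⟩
      · refine Submodule.add_mem _ hHy (Submodule.smul_mem _ _ ?_)
        have := cat_mem h hz he
        exact this
      · intro hne
        exact ha (fun hjn => hne (by rw [hjn]))
      · rw [map_add, map_smul, hdcat, smul_smul, ← mul_pow]
        have e1 : y = d (lin (HJ A H) y) + cat z (lin (PJ A c) y) := by
          rw [hid']; abel
        have e2 : cat z (lin (PJ A c) y) = cat z (d e) + a • cat z z' := by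
          rw [hya]; simp
        rw [e2] at e1
        conv_lhs => rw [e1]
        simp only [mul_neg, mul_one, neg_neg, one_pow, one_smul]
        abel

theorem WC.join_left {A B : Set X} (h : ∀ a ∈ A, ∀ b ∈ B, a < b) (hA : WC A) : WC (A ∪ B) := by
  refine ⟨?_, ?_⟩
  · obtain ⟨H, hH, hid⟩ := Acyc.contraction hA.1
    intro k y hy hdy
    have hid' := join_id (z := 0) (c := 0) h hH (fun k l hl => by
      rw [hid k l hl]; simp) hy
    rw [hdy, map_zero, add_zero, map_zero, LinearMap.zero_apply, sub_zero] at hid'
    refine ⟨lin (HJ A H) y, ?_, hid'⟩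
    apply map_CC (lin (HJ A H)) _ _ hy
    intro l hl
    obtain ⟨i, j', hij, ha, hb⟩ := split h hl
    rw [lin_single]
    simp only [HJ]
    have := cat_mem h (hH i _ ha) (single_mem hb)
    have e : i + 1 + j' = k + 1 := by omega
    rw [e] at this
    exact this
  · rcases Set.eq_empty_or_nonempty B with hB | hB
    · rw [hB, Set.union_empty]
      exact hA.2
    · exact SC.join_left h hA.2.1 hB

namespace DAux

variable {A B : Set X}

/-- the contraction of a join, from a contraction of the second factor -/
def HR (A : Set X) (H : List X → Ch X) : List X → Ch X := fun l =>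
  (-1 : ℤ) ^ (sa A l).length • cat (Finsupp.single (sa A l) 1) (H (sb A l))

lemma lin_HR (h : ∀ a ∈ A, ∀ b ∈ B, a < b) (H : List X → Ch X) {i j : ℕ} {u v : Ch X}
    (hu : u ∈ CC A i) (hv : v ∈ CC B j) :
    lin (HR A H) (cat u v) = (-1 : ℤ) ^ i • cat u (lin H v) := by
  have h1 : ∀ a ∈ cs A i, lin (HR A H) (cat (Finsupp.single a 1) v) =
      (-1 : ℤ) ^ i • cat (Finsupp.single a 1) (lin H v) := by
    intro a ha
    have := ext_CC (S := B) (k := j) ((lin (HR A H)).comp (cat (Finsupp.single a 1)))
      ((-1 : ℤ) ^ i • (cat (Finsupp.single a 1)).comp (lin H)) (by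
        intro b hb
        rw [LinearMap.comp_apply, cat_single, lin_single]
        obtain ⟨e1, e2⟩ := sa_append h ha.2.1 hb.2.1
        simp only [HR, e1, e2, LinearMap.smul_apply, LinearMap.comp_apply, lin_single, ha.2.2])
      hv
    simpa only [LinearMap.comp_apply, LinearMap.smul_apply] using this
  have := ext_CC (S := A) (k := i) ((lin (HR A H)).comp (cat.flip v))
    ((-1 : ℤ) ^ i • cat.flip (lin H v)) (by
      intro a ha
      simp only [LinearMap.comp_apply, LinearMap.flip_apply, LinearMap.smul_apply]
      exact h1 a ha) hu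
  simpa only [LinearMap.comp_apply, LinearMap.flip_apply, LinearMap.smul_apply] using this

end DAux

theorem WC.join_right {A B : Set X} (h : ∀ a ∈ A, ∀ b ∈ B, a < b) (hB : WC B) : WC (A ∪ B) := by
  refine ⟨?_, ?_⟩
  · obtain ⟨H, hH, hid⟩ := Acyc.contraction hB.1
    have key : ∀ k, ∀ y ∈ CC (A ∪ B) k, d (lin (HR A H) y) + lin (HR A H) (d y) = y := by
      intro k y hy
      have := ext_CC (S := A ∪ B) (k := k) (d.comp (lin (HR A H)) + (lin (HR A H)).comp d)
        LinearMap.id (by
          intro l hl
          obtain ⟨i, j, hij, ha, hb⟩ := split h hl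
          simp only [LinearMap.add_apply, LinearMap.comp_apply, LinearMap.id_apply, lin_single,
            d_single]
          have hl' : (Finsupp.single l 1 : Ch X) =
              cat (Finsupp.single (sa A l) 1) (Finsupp.single (sb A l) 1) := by
            rw [cat_single, sa_sb]
          have hdl : dl l = cat (dl (sa A l)) (Finsupp.single (sb A l) 1) +
              (-1 : ℤ) ^ i • cat (Finsupp.single (sa A l) 1) (dl (sb A l)) := by
            rw [← d_single l, hl', d_cat_single, ha.2.2, d_single]
          have e1 : d (HR A H l) = (-1 : ℤ) ^ i • (cat (dl (sa A l)) (H (sb A l)) +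
              (-1 : ℤ) ^ i • cat (Finsupp.single (sa A l) 1) (d (H (sb A l)))) := by
            simp only [HR]
            rw [map_smul, d_cat_single, ha.2.2]
          have e2 : lin (HR A H) (dl l) = -((-1 : ℤ) ^ i • cat (dl (sa A l)) (H (sb A l))) +
              (-1 : ℤ) ^ i • ((-1 : ℤ) ^ i •
                cat (Finsupp.single (sa A l) 1) (lin H (dl (sb A l)))) := by
            rw [hdl, map_add, map_smul]
            congr 1
            · rcases Nat.eq_zero_or_pos i with hi | hi
              · subst hi
                rw [dl_zero ha]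
                simp
              · obtain ⟨i', rfl⟩ : ∃ i', i = i' + 1 := ⟨i - 1, by omega⟩
                rw [lin_HR h H (dl_mem ha) (single_mem hb), lin_single, pow_succ]
                simp
            · congr 1
              rcases Nat.eq_zero_or_pos j with hj | hj
              · subst hj
                rw [dl_zero hb]
                simp
              · obtain ⟨j', rfl⟩ : ∃ j', j = j' + 1 := ⟨j - 1, by omega⟩
                rw [lin_HR h H (single_mem ha) (dl_mem hb)]
          have e3 : d (H (sb A l)) = Finsupp.single (sb A l) 1 - lin H (dl (sb A l)) := by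
            rw [← hid j _ hb]; abel
          have e4 : ∀ w : Ch X, (-1 : ℤ) ^ i • (-1 : ℤ) ^ i • w = w := by
            intro w
            rw [smul_smul, ← mul_pow]
            simp
          rw [e1, e2, e3, smul_add, e4, e4, map_sub, cat_single, sa_sb]
          abel) hy
      simpa only [LinearMap.add_apply, LinearMap.comp_apply, LinearMap.id_apply] using this
    intro k y hy hdy
    have hk := key k y hy
    rw [hdy, map_zero, add_zero] at hk
    refine ⟨lin (HR A H) y, ?_, hk⟩
    apply map_CC (lin (HR A H)) _ _ hy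
    intro l hl
    obtain ⟨i, j', hij, ha, hb⟩ := split h hl
    rw [lin_single]
    simp only [HR]
    have := cat_mem h (single_mem ha) (hH j' _ hb)
    have e : i + (j' + 1) = k + 1 := by omega
    rw [e] at this
    exact Submodule.smul_mem _ _ this
  · rcases Set.eq_empty_or_nonempty A with hA | hA
    · rw [hA, Set.empty_union]
      exact hB.2
    · exact SC.join_right h hA hB.2.1

end

end Pool.Agent.Helper59.PD
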