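import Pool.Agent.Helper59.PD.LibC

/-! Library, part E: simplices, products and combinatorial joins. -/

set_option autoImplicit false

namespace Pool.Agent.Helper59.PD

noncomputable section

lemma finHtOn_finset {α : Type} {S : Set (Finset α)} (s : Finset α) (h : ∀ t ∈ S, t ⊆ s) :
    FinHtOn S :=
  ⟨s.card, Finset.card, fun _ _ _ _ hxy => Finset.card_lt_card hxy,
    fun x hx => Finset.card_le_card (h x hx)⟩

/-- boundary of a simplex -/
theorem sph_simplex {α : Type} (s : Finset α) (hs : s.Nonempty) :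
    Sph {t : Finset α | t.Nonempty ∧ t ⊂ s} (s.card - 1) := by
  classical
  induction hn : s.card generalizing s with
  | zero => exact absurd hn (Finset.card_pos.2 hs).ne'
  | succ n ih =>
    rcases Nat.eq_zero_or_pos n with rfl | hpos
    · have h0 : {t : Finset α | t.Nonempty ∧ t ⊂ s} = ∅ := by
        ext t
        simp only [Set.mem_ofPred_eq, Set.mem_empty_iff_false, iff_false, not_and]
        intro ht hts
        have h1 := Finset.card_lt_card hts
        have h2 := Finset.card_pos.2 ht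
        omega
      rw [h0]
      exact Sph.empty
    · obtain ⟨v, hv⟩ := hs
      have hc : (s.erase v).card = n := by
        rw [Finset.card_erase_of_mem hv]
        omega
      have hne : (s.erase v).Nonempty := Finset.card_pos.1 (by omega)
      have hsub : s.erase v ⊂ s := Finset.erase_ssubset hv
      set A : Set (Finset α) := {t | t.Nonempty ∧ t ⊆ s.erase v} with hA
      set B : Set (Finset α) := {t | t.Nonempty ∧ t ⊂ s ∧ t ≠ s.erase v} with hB
      have hAB : {t : Finset α | t.Nonempty ∧ t ⊂ s} = A ∪ B := by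
        ext t
        simp only [hA, hB, Set.mem_ofPred_eq, Set.mem_union]
        constructor
        · rintro ⟨h1, h2⟩
          by_cases h3 : t = s.erase v
          · exact Or.inl ⟨h1, h3.subset⟩
          · exact Or.inr ⟨h1, h2, h3⟩
        · rintro (⟨h1, h2⟩ | ⟨h1, h2, -⟩)
          · exact ⟨h1, lt_of_le_of_lt h2 hsub⟩
          · exact ⟨h1, h2⟩
      have hAB2 : A ∩ B = {t : Finset α | t.Nonempty ∧ t ⊂ s.erase v} := by
        ext t
        simp only [hA, hB, Set.mem_ofPred_eq, Set.mem_inter_iff]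
        constructor
        · rintro ⟨⟨h1, h2⟩, -, -, h3⟩
          exact ⟨h1, lt_of_le_of_ne h2 h3⟩
        · rintro ⟨h1, h2⟩
          exact ⟨⟨h1, h2.subset⟩, h1, lt_trans h2 hsub, h2.ne⟩
      have hcov : Cov A B := by
        apply Cov.down
        · rintro x ⟨_, hx⟩ y ⟨hy, _⟩ hyx
          exact ⟨hy, hyx.le.trans hx⟩
        · rintro x ⟨_, hx, _⟩ y ⟨hy, hy'⟩ hyx
          refine ⟨hy, lt_trans hyx hx, ?_⟩
          rintro rfl
          have h1 := Finset.card_lt_card hyx
          have h2 := Finset.card_lt_card hx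
          omega
      have hAa : Acyc A := Acyc.cone (s.erase v) ⟨hne, subset_rfl⟩ fun y hy => Or.inl hy.2
      have hBa : WC B := by
        refine WC.of_up (finHtOn_finset s fun t ht => ht.2.1.subset) (fun t => insert v t)
          ?_ ?_ ?_ ?_ {v} ?_ ?_ ?_
        · rintro t ⟨ht, hts, hte⟩
          refine ⟨Finset.insert_nonempty _ _, ?_, ?_⟩
          · rw [Finset.ssubset_iff_subset_ne]
            refine ⟨Finset.insert_subset hv hts.subset, ?_⟩
            intro h
            apply hte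
            apply Finset.Subset.antisymm
            · intro x hx
              rw [Finset.mem_erase]
              refine ⟨?_, hts.subset hx⟩
              rintro rfl
              rw [Finset.insert_eq_of_mem hx] at h
              exact hts.ne h
            · intro x hx
              rw [Finset.mem_erase] at hx
              have h2 := hx.2
              rw [← h, Finset.mem_insert] at h2
              exact h2.resolve_left hx.1
          · intro h
            have h1 : v ∈ s.erase v := h ▸ Finset.mem_insert_self v t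
            exact Finset.notMem_erase v s h1
        · intro t _
          simp
        · intro x _ y _ hxy
          exact Finset.insert_subset_insert v hxy
        · intro x _
          exact Finset.subset_insert v x
        · refine ⟨Finset.singleton_nonempty v, ?_, ?_⟩
          · rw [Finset.ssubset_iff_subset_ne]
            refine ⟨Finset.singleton_subset_iff.2 hv, ?_⟩
            intro h
            have := congrArg Finset.card h
            rw [Finset.card_singleton] at this
            omega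
          · intro h
            have h1 : v ∈ s.erase v := h ▸ Finset.mem_singleton_self v
            exact Finset.notMem_erase v s h1
        · simp
        · intro x _
          exact Finset.singleton_subset_iff.2 (Finset.mem_insert_self v x)
      rw [hAB]
      have h1 := ih (s.erase v) hne hc
      rw [← hAB2] at h1
      have h2 := Sph.susp hcov hAa hBa.1 h1
      rwa [show n + 1 - 1 = n - 1 + 1 by omega]

/-- open intervals of Boolean lattices -/
theorem sph_interval {α : Type} (a b : Finset α) (hab : a ⊂ b) :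
    Sph {t : Finset α | a ⊂ t ∧ t ⊂ b} (b.card - a.card - 1) := by
  classical
  have hne : (b \ a).Nonempty := by
    rw [Finset.sdiff_nonempty]
    exact hab.2
  have h := sph_simplex (b \ a) hne
  rw [Finset.card_sdiff_of_subset hab.subset] at h
  refine (Sph.of_iso (fun t => t \ a) ?_ ?_ _).2 h
  · refine ⟨?_, ?_, ?_⟩
    · rintro t ⟨h1, h2⟩
      refine ⟨?_, ?_⟩
      · rw [Finset.sdiff_nonempty]
        exact h1.2
      · rw [Finset.ssubset_iff_subset_ne]
        refine ⟨Finset.sdiff_subset_sdiff h2.subset subset_rfl, ?_⟩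
        intro h3
        apply h2.ne
        have h4 := congrArg (fun x => x ∪ a) h3
        simp only [Finset.sdiff_union_of_subset h1.subset,
          Finset.sdiff_union_of_subset hab.subset] at h4
        exact h4
    · rintro t ⟨h1, h2⟩ t' ⟨h1', h2'⟩ h3
      have h4 := congrArg (fun x => x ∪ a) h3
      simp only [Finset.sdiff_union_of_subset h1.subset,
        Finset.sdiff_union_of_subset h1'.subset] at h4
      exact h4
    · rintro t ⟨h1, h2⟩
      have hd : Disjoint t a := Finset.disjoint_of_subset_left h2.subset Finset.sdiff_disjoint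
      refine ⟨t ∪ a, ⟨?_, ?_⟩, ?_⟩
      · rw [Finset.ssubset_iff_subset_ne]
        refine ⟨Finset.subset_union_right, ?_⟩
        intro h3
        obtain ⟨x, hx⟩ := h1
        have h4 : x ∈ a := h3 ▸ Finset.mem_union_left a hx
        exact Finset.disjoint_left.1 hd hx h4
      · rw [Finset.ssubset_iff_subset_ne]
        refine ⟨Finset.union_subset (h2.subset.trans Finset.sdiff_subset) hab.subset, ?_⟩
        intro h3
        apply h2.ne
        rw [← h3, Finset.union_sdiff_right, Finset.sdiff_eq_self_of_disjoint hd]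
      · change (t ∪ a) \ a = t
        rw [Finset.union_sdiff_right, Finset.sdiff_eq_self_of_disjoint hd]
  · rintro x ⟨h1, h2⟩ y ⟨h1', h2'⟩
    have key : x ⊆ y ↔ x \ a ⊆ y \ a := by
      constructor
      · intro h
        exact Finset.sdiff_subset_sdiff h subset_rfl
      · intro h
        have h3 : x \ a ∪ a ⊆ y \ a ∪ a := Finset.union_subset_union h subset_rfl
        rwa [Finset.sdiff_union_of_subset h1.subset, Finset.sdiff_union_of_subset h1'.subset] at h3
    have key' : y ⊆ x ↔ y \ a ⊆ x \ a := by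
      constructor
      · intro h
        exact Finset.sdiff_subset_sdiff h subset_rfl
      · intro h
        have h3 : y \ a ∪ a ⊆ x \ a ∪ a := Finset.union_subset_union h subset_rfl
        rwa [Finset.sdiff_union_of_subset h1.subset, Finset.sdiff_union_of_subset h1'.subset] at h3
    rw [lt_iff_le_not_ge, lt_iff_le_not_ge]
    exact and_congr key (not_congr key')


/-! ### ordinal sums -/

section ordsum

variable {α β : Type} [PartialOrder α] [PartialOrder β]

/-- the ordinal sum of two sets -/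
def OS (A : Set α) (B : Set β) : Set (α ⊕ₗ β) := (Sum.inlₗ '' A) ∪ (Sum.inrₗ '' B)

lemma heq_inl (A : Set α) : HEq' A ((Sum.inlₗ : α → α ⊕ₗ β) '' A) := by
  refine HEq'.of_iso _ (Set.InjOn.bijOn_image ?_) ?_
  · intro x _ y _ h
    exact Sum.inl_injective (toLex.injective h)
  · intro x _ y _
    exact Sum.Lex.inl_lt_inl_iff.symm

lemma heq_inr (B : Set β) : HEq' B ((Sum.inrₗ : β → α ⊕ₗ β) '' B) := by
  refine HEq'.of_iso _ (Set.InjOn.bijOn_image ?_) ?_
  · intro x _ y _ h
    exact Sum.inr_injective (toLex.injective h)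
  · intro x _ y _
    exact Sum.Lex.inr_lt_inr_iff.symm

lemma OS_lt {A : Set α} {B : Set β} : ∀ a ∈ ((Sum.inlₗ : α → α ⊕ₗ β) '' A),
    ∀ b ∈ ((Sum.inrₗ : β → α ⊕ₗ β) '' B), a < b := by
  rintro _ ⟨a, _, rfl⟩ _ ⟨b, _, rfl⟩
  exact Sum.Lex.inl_lt_inr a b

lemma sph_OS {A : Set α} {B : Set β} {m n : ℕ} (hA : Sph A m) (hB : Sph B n) :
    Sph (OS A B) (m + n) :=
  Sph.join OS_lt (((heq_inl A).sph m).1 hA) (((heq_inr B).sph n).1 hB)

lemma sc_OS {A : Set α} {B : Set β} (hA : Conn A) (hB : B.Nonempty) :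
    SC (OS A B) :=
  SC.join_left OS_lt ((heq_inl A).conn.1 hA) (hB.image _)

lemma finHtOn_OS {A : Set α} {B : Set β} (hA : FinHtOn A) (hB : FinHtOn B) :
    FinHtOn (OS A B) := by
  obtain ⟨N, ρ, h1, h2⟩ := hA
  obtain ⟨M, σ, h3, h4⟩ := hB
  refine ⟨N + 1 + M, fun p => Sum.elim ρ (fun b => N + 1 + σ b) (ofLex p), ?_, ?_⟩
  · rintro _ (⟨a, ha, rfl⟩ | ⟨b, hb, rfl⟩) _ (⟨a', ha', rfl⟩ | ⟨b', hb', rfl⟩) hlt
    · exact h1 a ha a' ha' (Sum.Lex.inl_lt_inl_iff.1 hlt)
    · change ρ a < N + 1 + σ b'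
      have := h2 a ha
      omega
    · exact absurd hlt Sum.Lex.not_inr_lt_inl
    · change N + 1 + σ b < N + 1 + σ b'
      have := h3 b hb b' hb' (Sum.Lex.inr_lt_inr_iff.1 hlt)
      omega
  · rintro _ (⟨a, ha, rfl⟩ | ⟨b, hb, rfl⟩)
    · change ρ a ≤ N + 1 + M
      have := h2 a ha
      omega
    · change N + 1 + σ b ≤ N + 1 + M
      have := h4 b hb
      omega

end ordsum

/-- boundary of a product of two simplices -/
theorem sph_prod {α β : Type} (s : Finset α) (t : Finset β) (hs : s.Nonempty) (ht : t.Nonempty) :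
    Sph {p : Finset α × Finset β | p.1.Nonempty ∧ p.2.Nonempty ∧ p < (s, t)}
      (s.card + t.card - 2) := by
  classical
  have hsc : 0 < s.card := Finset.card_pos.2 hs
  have htc : 0 < t.card := Finset.card_pos.2 ht
  set S : Set (Finset α × Finset β) := {p | p.1.Nonempty ∧ p.2.Nonempty ∧ p < (s, t)} with hS
  have hle : ∀ p ∈ S, p.1 ⊆ s ∧ p.2 ⊆ t := fun p hp => hp.2.2.le
  have hfin : FinHtOn S := by
    refine ⟨s.card + t.card, fun p => p.1.card + p.2.card, ?_, ?_⟩
    · intro x _ y _ hxy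
      rcases Prod.lt_iff.1 hxy with ⟨h1, h2⟩ | ⟨h1, h2⟩
      · exact Nat.add_lt_add_of_lt_of_le (Finset.card_lt_card h1) (Finset.card_le_card h2)
      · exact Nat.add_lt_add_of_le_of_lt (Finset.card_le_card h1) (Finset.card_lt_card h2)
    · intro x hx
      exact Nat.add_le_add (Finset.card_le_card (hle x hx).1) (Finset.card_le_card (hle x hx).2)
  have hT := sph_OS (sph_simplex t ht) (sph_simplex s hs)
  have hTf : FinHtOn (OS {τ : Finset β | τ.Nonempty ∧ τ ⊂ t} {σ : Finset α | σ.Nonempty ∧ σ ⊂ s}) :=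
    finHtOn_OS (finHtOn_finset t fun x hx => hx.2.subset) (finHtOn_finset s fun x hx => hx.2.subset)
  rw [show t.card - 1 + (s.card - 1) = s.card + t.card - 2 by omega] at hT
  refine ((HEq'.quillen_ge hfin hTf
    (fun p => if p.2 = t then Sum.inrₗ p.1 else Sum.inlₗ p.2) ?_ ?_ ?_).sph _).2 hT
  · rintro p hp
    by_cases h : p.2 = t
    · rw [if_pos h]
      refine Or.inr ⟨p.1, ⟨hp.1, lt_of_le_of_ne (hle p hp).1 ?_⟩, rfl⟩
      intro h'
      exact hp.2.2.ne (Prod.ext h' h)
    · rw [if_neg h]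
      exact Or.inl ⟨p.2, ⟨hp.2.1, lt_of_le_of_ne (hle p hp).2 h⟩, rfl⟩
  · rintro p hp q hq hpq
    by_cases h : q.2 = t
    · rw [if_pos h]
      by_cases h' : p.2 = t
      · rw [if_pos h']
        exact Sum.Lex.inr_le_inr_iff.2 hpq.1
      · rw [if_neg h']
        exact Sum.Lex.inl_le_inr _ _
    · have h' : p.2 ≠ t := by
        intro h'
        exact h (le_antisymm (hle q hq).2 (h' ▸ hpq.2))
      rw [if_neg h, if_neg h']
      exact Sum.Lex.inl_le_inl_iff.2 hpq.2
  · rintro _ (⟨τ, ⟨hτ1, hτ2⟩, rfl⟩ | ⟨σ, ⟨hσ1, hσ2⟩, rfl⟩)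
    · have hfib : {x ∈ S | (Sum.inlₗ τ : Finset β ⊕ₗ Finset α) ≤
          if x.2 = t then Sum.inrₗ x.1 else Sum.inlₗ x.2} = {x ∈ S | τ ⊆ x.2} := by
        ext x
        refine and_congr_right fun hx => ?_
        by_cases h : x.2 = t
        · rw [if_pos h]
          constructor
          · intro _
            rw [h]
            exact hτ2.subset
          · intro _
            exact Sum.Lex.inl_le_inr _ _
        · rw [if_neg h]
          exact Sum.Lex.inl_le_inl_iff
      rw [hfib]
      refine WC.of_down ?_ (fun p => (p.1, τ)) ?_ ?_ ?_ ?_ (s, τ) ?_ rfl ?_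
      · obtain ⟨N, ρ, h1, h2⟩ := hfin
        exact ⟨N, ρ, fun x hx y hy => h1 x hx.1 y hy.1, fun x hx => h2 x hx.1⟩
      · rintro x ⟨hx, _⟩
        refine ⟨⟨hx.1, hτ1, ?_⟩, subset_rfl⟩
        exact Prod.lt_iff.2 (Or.inr ⟨(hle x hx).1, hτ2⟩)
      · intro x _
        rfl
      · intro x _ y _ hxy
        exact ⟨hxy.1, le_rfl⟩
      · rintro x ⟨_, hx⟩
        exact ⟨le_rfl, hx⟩
      · exact ⟨⟨hs, hτ1, Prod.lt_iff.2 (Or.inr ⟨le_rfl, hτ2⟩)⟩, subset_rfl⟩
      · rintro x ⟨hx, _⟩
        exact ⟨(hle x hx).1, le_rfl⟩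
    · refine WC.cone (σ, t) ?_ ?_
      · refine ⟨⟨hσ1, ht, Prod.lt_iff.2 (Or.inl ⟨hσ2, le_rfl⟩)⟩, ?_⟩
        rw [if_pos rfl]
      · rintro x ⟨hx, hx'⟩
        right
        by_cases h : x.2 = t
        · rw [if_pos h] at hx'
          exact ⟨Sum.Lex.inr_le_inr_iff.1 hx', h.ge⟩
        · rw [if_neg h] at hx'
          exact absurd hx' Sum.Lex.not_inr_le_inl

/-- the combinatorial join `(A ∪ {⊥}) × (B ∪ {⊥}) \ {(⊥, ⊥)}` -/
def TJ {α β : Type} (A : Set α) (B : Set β) : Set (WithBot α × WithBot β) :=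
  {p | (∀ a : α, p.1 = a → a ∈ A) ∧ (∀ b : β, p.2 = b → b ∈ B) ∧ p ≠ (⊥, ⊥)}

section TJ

variable {α β : Type} [PartialOrder α] [PartialOrder β] {A : Set α} {B : Set β}

lemma FinHtOn.mono {X : Type} [PartialOrder X] {S T : Set X} (h : FinHtOn T) (hST : S ⊆ T) :
    FinHtOn S := by
  obtain ⟨N, ρ, h1, h2⟩ := h
  exact ⟨N, ρ, fun x hx y hy => h1 x (hST hx) y (hST hy), fun x hx => h2 x (hST hx)⟩

lemma finHtOn_bot (hA : FinHtOn A) : FinHtOn {x : WithBot α | ∀ a : α, x = a → a ∈ A} := by
  obtain ⟨N, ρ, h1, h2⟩ := hA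
  refine ⟨N + 1, fun x => WithBot.recBotCoe 0 (fun a => ρ a + 1) x, ?_, ?_⟩
  · intro x hx y hy hxy
    induction y using WithBot.recBotCoe with
    | bot => exact absurd hxy (not_lt_bot)
    | coe y =>
      induction x using WithBot.recBotCoe with
      | bot => exact Nat.succ_pos _
      | coe x =>
        have := h1 x (hx x rfl) y (hy y rfl) (WithBot.coe_lt_coe.1 hxy)
        change ρ x + 1 < ρ y + 1
        omega
  · intro x hx
    induction x using WithBot.recBotCoe with
    | bot => exact Nat.zero_le _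
    | coe x =>
      have := h2 x (hx x rfl)
      change ρ x + 1 ≤ N + 1
      omega

lemma finHtOn_TJ (hA : FinHtOn A) (hB : FinHtOn B) : FinHtOn (TJ A B) := by
  obtain ⟨N, ρ, h1, h2⟩ := finHtOn_bot hA
  obtain ⟨M, σ, h3, h4⟩ := finHtOn_bot hB
  have hle : ∀ x ∈ {x : WithBot α | ∀ a : α, x = a → a ∈ A},
      ∀ y ∈ {x : WithBot α | ∀ a : α, x = a → a ∈ A}, x ≤ y → ρ x ≤ ρ y := by
    intro x hx y hy h
    rcases h.eq_or_lt with rfl | h
    · exact le_rfl
    · exact (h1 x hx y hy h).le
  have hle' : ∀ x ∈ {x : WithBot β | ∀ a : β, x = a → a ∈ B},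
      ∀ y ∈ {x : WithBot β | ∀ a : β, x = a → a ∈ B}, x ≤ y → σ x ≤ σ y := by
    intro x hx y hy h
    rcases h.eq_or_lt with rfl | h
    · exact le_rfl
    · exact (h3 x hx y hy h).le
  refine ⟨N + M, fun p => ρ p.1 + σ p.2, ?_, ?_⟩
  · intro x hx y hy hxy
    rcases Prod.lt_iff.1 hxy with ⟨h5, h6⟩ | ⟨h5, h6⟩
    · exact Nat.add_lt_add_of_lt_of_le (h1 _ hx.1 _ hy.1 h5) (hle' _ hx.2.1 _ hy.2.1 h6)
    · exact Nat.add_lt_add_of_le_of_lt (hle _ hx.1 _ hy.1 h5) (h3 _ hx.2.1 _ hy.2.1 h6)
  · intro x hx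
    exact Nat.add_le_add (h2 _ hx.1) (h4 _ hx.2.1)

lemma heq_coe (A : Set α) : HEq' A ((WithBot.some : α → WithBot α) '' A) := by
  refine HEq'.of_iso _ (Set.InjOn.bijOn_image ?_) ?_
  · intro x _ y _ h
    exact WithBot.coe_injective h
  · intro x _ y _
    exact WithBot.coe_lt_coe.symm

omit [PartialOrder α] in
lemma coe_sub (A : Set α) : (WithBot.some : α → WithBot α) '' A ⊆
    {x : WithBot α | ∀ a : α, x = a → a ∈ A} := by
  rintro _ ⟨a, ha, rfl⟩ b hb
  exact WithBot.coe_injective hb ▸ ha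

open Classical in
lemma heq_TJ (hfA : FinHtOn A) (hfB : FinHtOn B) : HEq' (TJ A B)
    (OS ((WithBot.some : α → WithBot α) '' A) ((WithBot.some : β → WithBot β) '' B)) := by
  refine HEq'.quillen_le (finHtOn_TJ hfA hfB)
    (finHtOn_OS ((finHtOn_bot hfA).mono (coe_sub A)) ((finHtOn_bot hfB).mono (coe_sub B)))
    (fun p => if p.2 = ⊥ then Sum.inlₗ p.1 else Sum.inrₗ p.2) ?_ ?_ ?_
  · rintro ⟨a, b⟩ ⟨h1, h2, h3⟩
    induction b using WithBot.recBotCoe with
    | bot =>
      induction a using WithBot.recBotCoe with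
      | bot => exact absurd rfl h3
      | coe a =>
        rw [if_pos rfl]
        exact Or.inl ⟨a, ⟨a, h1 a rfl, rfl⟩, rfl⟩
    | coe b =>
      rw [if_neg (WithBot.coe_ne_bot)]
      exact Or.inr ⟨b, ⟨b, h2 b rfl, rfl⟩, rfl⟩
  · rintro x _ y _ hxy
    by_cases h : y.2 = ⊥
    · have h' : x.2 = ⊥ := le_bot_iff.1 (h ▸ hxy.2)
      rw [if_pos h, if_pos h']
      exact Sum.Lex.inl_le_inl_iff.2 hxy.1
    · rw [if_neg h]
      by_cases h' : x.2 = ⊥
      · rw [if_pos h']
        exact Sum.Lex.inl_le_inr _ _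
      · rw [if_neg h']
        exact Sum.Lex.inr_le_inr_iff.2 hxy.2
  · rintro _ (⟨_, ⟨a, ha, rfl⟩, rfl⟩ | ⟨_, ⟨b, hb, rfl⟩, rfl⟩)
    · refine WC.cone ((a : WithBot α), (⊥ : WithBot β)) ?_ ?_
      · refine ⟨⟨?_, ?_, ?_⟩, ?_⟩
        · intro a' h
          exact WithBot.coe_injective h ▸ ha
        · intro b h
          exact absurd h.symm WithBot.coe_ne_bot
        · intro h
          exact WithBot.coe_ne_bot (congrArg Prod.fst h)
        · rw [if_pos rfl]
      · rintro x ⟨_, hx⟩
        left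
        by_cases h : x.2 = ⊥
        · rw [if_pos h] at hx
          exact ⟨Sum.Lex.inl_le_inl_iff.1 hx, h.le⟩
        · rw [if_neg h] at hx
          exact absurd hx Sum.Lex.not_inr_le_inl
    · have hfib : {x ∈ TJ A B | (if x.2 = ⊥ then Sum.inlₗ x.1 else Sum.inrₗ x.2 :
          WithBot α ⊕ₗ WithBot β) ≤ Sum.inrₗ (b : WithBot β)} =
          {x ∈ TJ A B | x.2 ≤ (b : WithBot β)} := by
        ext x
        refine and_congr_right fun hx => ?_
        by_cases h : x.2 = ⊥
        · rw [if_pos h]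
          constructor
          · intro _
            rw [h]
            exact bot_le
          · intro _
            exact Sum.Lex.inl_le_inr _ _
        · rw [if_neg h]
          exact Sum.Lex.inr_le_inr_iff
      change WC {x ∈ TJ A B | (if x.2 = ⊥ then Sum.inlₗ x.1 else Sum.inrₗ x.2 :
          WithBot α ⊕ₗ WithBot β) ≤ Sum.inrₗ (b : WithBot β)}
      rw [hfib]
      have hmem : ∀ a : WithBot α, (∀ a' : α, a = a' → a' ∈ A) →
          (a, (b : WithBot β)) ∈ {x ∈ TJ A B | x.2 ≤ (b : WithBot β)} := by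
        intro a h
        refine ⟨⟨h, ?_, ?_⟩, le_rfl⟩
        · intro b' h'
          exact WithBot.coe_injective h' ▸ hb
        · intro h'
          exact WithBot.coe_ne_bot (congrArg Prod.snd h')
      refine WC.of_up ((finHtOn_TJ hfA hfB).mono fun x hx => hx.1)
        (fun p => (p.1, (b : WithBot β))) ?_ ?_ ?_ ?_ (⊥, (b : WithBot β)) ?_ rfl ?_
      · rintro x ⟨hx, _⟩
        exact hmem x.1 hx.1
      · intro x _
        rfl
      · intro x _ y _ hxy
        exact ⟨hxy.1, le_rfl⟩
      · rintro x ⟨_, hx⟩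
        exact ⟨le_rfl, hx⟩
      · exact hmem ⊥ fun a' h => absurd h.symm WithBot.coe_ne_bot
      · intro x _
        exact ⟨bot_le, le_rfl⟩

end TJ

theorem sph_TJ {α β : Type} [PartialOrder α] [PartialOrder β] {A : Set α} {B : Set β}
    (hfA : FinHtOn A) (hfB : FinHtOn B) {m n : ℕ} (hA : Sph A m) (hB : Sph B n) :
    Sph (TJ A B) (m + n) :=
  ((heq_TJ hfA hfB).sph _).2 (sph_OS (((heq_coe A).sph m).1 hA) (((heq_coe B).sph n).1 hB))

theorem sc_TJ {α β : Type} [PartialOrder α] [PartialOrder β] {A : Set α} {B : Set β}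
    (hfA : FinHtOn A) (hfB : FinHtOn B) (hA : Conn A) (hB : B.Nonempty) :
    SC (TJ A B) :=
  (heq_TJ hfA hfB).sc.2 (sc_OS ((heq_coe A).conn.1 hA) (hB.image _))

/-! ### cycles -/

section cycle

/-- two incomparable points -/
lemma sph_two {X : Type} [PartialOrder X] {x y : X} (h1 : ¬ x ≤ y) (h2 : ¬ y ≤ x) :
    Sph ({x} ∪ {y} : Set X) 1 := by
  have hcov : Cov ({x} : Set X) {y} := by
    apply Cov.up
    · rintro _ rfl _ rfl h
      exact absurd h.le h1
    · rintro _ rfl _ rfl h
      exact absurd h.le h2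
  have h0 : Sph ({x} ∩ {y} : Set X) 0 := by
    have : ({x} ∩ {y} : Set X) = ∅ := by
      ext z
      simp only [Set.mem_inter_iff, Set.mem_singleton_iff, Set.mem_empty_iff_false, iff_false,
        not_and]
      rintro rfl rfl
      exact h1 le_rfl
    rw [this]
    exact Sph.empty
  have ha : ∀ z : X, Acyc ({z} : Set X) := fun z =>
    Acyc.cone z rfl fun y hy => Or.inl (le_of_eq hy)
  exact Sph.susp hcov (ha x) (ha y) h0

lemma wc_point {X : Type} [PartialOrder X] (z : X) : WC ({z} : Set X) :=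
  WC.cone z rfl fun y hy => Or.inl (le_of_eq hy)

variable (N : ℕ)

/-- vertices of the cycle -/
def cv (i : ℕ) : Finset (ZMod N) := {(i : ZMod N)}

/-- edges of the cycle -/
def ce (i : ℕ) : Finset (ZMod N) := {(i : ZMod N), (i : ZMod N) + 1}

/-- a path in the cycle -/
def cpath (k : ℕ) : Set (Finset (ZMod N)) :=
  {t | (∃ i, 1 ≤ i ∧ i ≤ k ∧ t = cv N i) ∨ (∃ i, 1 ≤ i ∧ i < k ∧ t = ce N i)}

variable {N}

lemma cast_inj {i j : ℕ} (hi : 1 ≤ i) (hi' : i ≤ N) (hj : 1 ≤ j) (hj' : j ≤ N)
    (h : (i : ZMod N) = (j : ZMod N)) : i = j := by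
  rw [ZMod.natCast_eq_natCast_iff] at h
  rcases le_total i j with hij | hij
  · have h1 := (Nat.modEq_iff_dvd' hij).1 h
    have h2 := Nat.eq_zero_of_dvd_of_lt h1 (by omega)
    omega
  · have h1 := (Nat.modEq_iff_dvd' hij).1 h.symm
    have h2 := Nat.eq_zero_of_dvd_of_lt h1 (by omega)
    omega

lemma one_ne (hN : 3 ≤ N) : (1 : ZMod N) ≠ 0 := by
  intro h
  have h1 : ((1 : ℕ) : ZMod N) = ((N : ℕ) : ZMod N) := by
    rw [ZMod.natCast_self]
    exact_mod_cast h
  have := cast_inj le_rfl (by omega) (by omega) le_rfl h1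
  omega

lemma two_ne (hN : 3 ≤ N) : (1 : ZMod N) + 1 ≠ 0 := by
  intro h
  have h1 : ((2 : ℕ) : ZMod N) = ((N : ℕ) : ZMod N) := by
    rw [ZMod.natCast_self]
    push_cast
    rw [← one_add_one_eq_two]
    exact h
  have := cast_inj (by omega) (by omega) (by omega) le_rfl h1
  omega

lemma card_cv (i : ℕ) : (cv N i).card = 1 := Finset.card_singleton _

lemma card_ce (hN : 3 ≤ N) (i : ℕ) : (ce N i).card = 2 := by
  unfold ce
  rw [Finset.card_pair]
  intro h
  exact one_ne hN (left_eq_add.1 h)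

lemma not_cv_lt_cv (i j : ℕ) : ¬ cv N i < cv N j := fun h => by
  have := Finset.card_lt_card h
  rw [card_cv, card_cv] at this
  omega

lemma not_ce_lt_cv (hN : 3 ≤ N) (i j : ℕ) : ¬ ce N i < cv N j := fun h => by
  have := Finset.card_lt_card h
  rw [card_cv, card_ce hN] at this
  omega

lemma not_ce_lt_ce (hN : 3 ≤ N) (i j : ℕ) : ¬ ce N i < ce N j := fun h => by
  have := Finset.card_lt_card h
  rw [card_ce hN, card_ce hN] at this
  omega

lemma cv_ne_ce (hN : 3 ≤ N) (i j : ℕ) : cv N i ≠ ce N j := fun h => by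
  have := congrArg Finset.card h
  rw [card_cv, card_ce hN] at this
  omega

lemma cv_le_ce (i j : ℕ) : cv N i ≤ ce N j ↔ (i : ZMod N) = j ∨ (i : ZMod N) = j + 1 := by
  simp [cv, ce]

lemma cv_lt_ce (hN : 3 ≤ N) (i j : ℕ) : cv N i < ce N j ↔
    (i : ZMod N) = j ∨ (i : ZMod N) = j + 1 := by
  rw [lt_iff_le_and_ne, cv_le_ce]
  exact ⟨fun h => h.1, fun h => ⟨h, cv_ne_ce hN i j⟩⟩

lemma cv_inj {i j : ℕ} (hi : 1 ≤ i) (hi' : i ≤ N) (hj : 1 ≤ j) (hj' : j ≤ N)
    (h : cv N i = cv N j) : i = j :=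
  cast_inj hi hi' hj hj' (Finset.singleton_injective h)

lemma ce_inj (hN : 3 ≤ N) {i j : ℕ} (hi : 1 ≤ i) (hi' : i ≤ N) (hj : 1 ≤ j) (hj' : j ≤ N)
    (h : ce N i = ce N j) : i = j := by
  have h1 : (i : ZMod N) ∈ ce N j := h ▸ Finset.mem_insert_self _ _
  have h2 : (i : ZMod N) + 1 ∈ ce N j := by
    rw [← h]
    simp [ce]
  simp only [ce, Finset.mem_insert, Finset.mem_singleton] at h1 h2
  rcases h1 with h1 | h1
  · exact cast_inj hi hi' hj hj' h1
  · rw [h1] at h2
    rcases h2 with h2 | h2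
    · exfalso
      rw [add_assoc] at h2
      exact two_ne hN (add_eq_left.1 h2)
    · exfalso
      exact one_ne hN (add_eq_left.1 h2)

lemma acyc_path (hN : 3 ≤ N) {k : ℕ} (hk : 1 ≤ k) (hkN : k ≤ N) : Acyc (cpath N k) := by
  induction k, hk using Nat.le_induction with
  | base =>
    have : cpath N 1 = {cv N 1} := by
      ext t
      constructor
      · rintro (⟨i, h1, h2, rfl⟩ | ⟨i, h1, h2, rfl⟩)
        · rw [show i = 1 by omega]
          rfl
        · omega
      · rintro rfl
        exact Or.inl ⟨1, le_rfl, le_rfl, rfl⟩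
    rw [this]
    exact (wc_point _).1
  | succ k hk ih =>
    have ih := ih (by omega)
    have hnot : ce N k ∉ cpath N k := by
      rintro (⟨i, h1, h2, h⟩ | ⟨i, h1, h2, h⟩)
      · exact cv_ne_ce hN _ _ h.symm
      · have := ce_inj hN (by omega) (by omega) (by omega) (by omega) h
        omega
    have hl1 : Lk (cpath N k) (ce N k) = {cv N k} := by
      ext y
      constructor
      · rintro ⟨⟨i, h1, h2, rfl⟩ | ⟨i, h1, h2, rfl⟩, h | h⟩
        · rw [cv_lt_ce hN] at h
          rcases h with h | h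
          · rw [cast_inj h1 (by omega) hk (by omega) h]
            rfl
          · exfalso
            have h3 : (i : ZMod N) = ((k + 1 : ℕ) : ZMod N) := by
              push_cast
              exact h
            have := cast_inj h1 (by omega) (by omega) hkN h3
            omega
        · exact absurd h (not_ce_lt_cv hN _ _)
        · exact absurd h (not_ce_lt_ce hN _ _)
        · exact absurd h (not_ce_lt_ce hN _ _)
      · rintro rfl
        exact ⟨Or.inl ⟨k, hk, le_rfl, rfl⟩, Or.inl ((cv_lt_ce hN _ _).2 (Or.inl rfl))⟩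
    have h1 : Acyc (cpath N k ∪ {ce N k}) := by
      have := HEq'.add_antichain (S := cpath N k) (N := {ce N k}) (by
        rintro _ rfl _ rfl
        exact lt_irrefl _) (Set.disjoint_singleton_right.2 hnot) (by
        rintro _ rfl
        rw [hl1]
        exact wc_point _)
      exact this.acyc.1 ih
    have hnot2 : cv N (k + 1) ∉ cpath N k ∪ {ce N k} := by
      rintro ((⟨i, h1, h2, h⟩ | ⟨i, h1, h2, h⟩) | h)
      · have := cv_inj (by omega) hkN h1 (by omega) h
        omega
      · exact cv_ne_ce hN _ _ h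
      · exact cv_ne_ce hN _ _ h
    have hl2 : Lk (cpath N k ∪ {ce N k}) (cv N (k + 1)) = {ce N k} := by
      ext y
      constructor
      · rintro ⟨(⟨i, h1, h2, rfl⟩ | ⟨i, h1, h2, rfl⟩) | rfl, h⟩
        · rcases h with h | h
          · exact absurd h (not_cv_lt_cv _ _)
          · exact absurd h (not_cv_lt_cv _ _)
        · rcases h with h | h
          · exact absurd h (not_ce_lt_cv hN _ _)
          · exfalso
            rw [cv_lt_ce hN] at h
            rcases h with h | h
            · have := cast_inj (by omega) hkN h1 (by omega) h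
              omega
            · have h3 : ((k : ℕ) : ZMod N) = ((i : ℕ) : ZMod N) := by
                push_cast at h
                exact add_right_cancel h
              have := cast_inj hk (by omega) h1 (by omega) h3
              omega
        · rfl
      · rintro rfl
        refine ⟨Or.inr rfl, Or.inr ((cv_lt_ce hN _ _).2 (Or.inr ?_))⟩
        push_cast
        rfl
    have h2 : Acyc (cpath N k ∪ {ce N k} ∪ {cv N (k + 1)}) := by
      have := HEq'.add_antichain (S := cpath N k ∪ {ce N k}) (N := {cv N (k + 1)}) (by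
        rintro _ rfl _ rfl
        exact lt_irrefl _) (Set.disjoint_singleton_right.2 hnot2) (by
        rintro _ rfl
        rw [hl2]
        exact wc_point _)
      exact this.acyc.1 h1
    have h3 : cpath N k ∪ {ce N k} ∪ {cv N (k + 1)} = cpath N (k + 1) := by
      ext t
      constructor
      · rintro (((⟨i, h1, h2, rfl⟩ | ⟨i, h1, h2, rfl⟩) | rfl) | rfl)
        · exact Or.inl ⟨i, h1, by omega, rfl⟩
        · exact Or.inr ⟨i, h1, by omega, rfl⟩
        · exact Or.inr ⟨k, hk, by omega, rfl⟩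
        · exact Or.inl ⟨k + 1, by omega, le_rfl, rfl⟩
      · rintro (⟨i, h1, h2, rfl⟩ | ⟨i, h1, h2, rfl⟩)
        · rcases Nat.lt_or_ge i (k + 1) with h | h
          · exact Or.inl (Or.inl (Or.inl ⟨i, h1, by omega, rfl⟩))
          · rw [show i = k + 1 by omega]
            exact Or.inr rfl
        · rcases Nat.lt_or_ge i k with h | h
          · exact Or.inl (Or.inl (Or.inr ⟨i, h1, h, rfl⟩))
          · rw [show i = k by omega]
            exact Or.inl (Or.inr rfl)
    rwa [h3] at h2

end cycle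

/-- cyclic graphs: the poset of vertices `{i}` and edges `{i, i + 1}` of the cycle with `N`
vertices -/
theorem sph_cycle (N : ℕ) (hN : 3 ≤ N) :
    Sph {t : Finset (ZMod N) | ∃ i, t = {i} ∨ t = {i, i + 1}} 2 := by
  have hNz : NeZero N := ⟨by omega⟩
  have hrep : ∀ x : ZMod N, ∃ i : ℕ, 1 ≤ i ∧ i ≤ N ∧ (i : ZMod N) = x := by
    intro x
    by_cases hx : x = 0
    · exact ⟨N, by omega, le_rfl, by rw [hx, ZMod.natCast_self]⟩
    · refine ⟨x.val, ?_, (ZMod.val_lt x).le, ZMod.natCast_zmod_val x⟩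
      rw [Nat.one_le_iff_ne_zero]
      intro h
      exact hx ((ZMod.val_eq_zero x).1 h)
  set A : Set (Finset (ZMod N)) := {ce N N, cv N N, cv N 1} with hA
  have hcN : cv N N ≤ ce N N := (cv_le_ce _ _).2 (Or.inl rfl)
  have hc1 : cv N 1 ≤ ce N N := (cv_le_ce _ _).2 (Or.inr (by simp))
  have hall : {t : Finset (ZMod N) | ∃ i, t = {i} ∨ t = {i, i + 1}} = A ∪ cpath N N := by
    ext t
    constructor
    · rintro ⟨x, hx⟩
      obtain ⟨i, h1, h2, rfl⟩ := hrep x
      rcases hx with rfl | rfl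
      · exact Or.inr (Or.inl ⟨i, h1, h2, rfl⟩)
      · rcases h2.lt_or_eq with h | rfl
        · exact Or.inr (Or.inr ⟨i, h1, h, rfl⟩)
        · exact Or.inl (Or.inl rfl)
    · rintro ((rfl | rfl | rfl) | (⟨i, h1, h2, rfl⟩ | ⟨i, h1, h2, rfl⟩))
      · exact ⟨_, Or.inr rfl⟩
      · exact ⟨_, Or.inl rfl⟩
      · exact ⟨_, Or.inl rfl⟩
      · exact ⟨_, Or.inl rfl⟩
      · exact ⟨_, Or.inr rfl⟩
  have hint : A ∩ cpath N N = {cv N N} ∪ {cv N 1} := by
    ext t
    constructor
    · rintro ⟨rfl | rfl | rfl, h⟩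
      · exfalso
        rcases h with ⟨i, h1, h2, h⟩ | ⟨i, h1, h2, h⟩
        · exact cv_ne_ce hN _ _ h.symm
        · have := ce_inj hN (by omega) le_rfl h1 (by omega) h
          omega
      · exact Or.inl rfl
      · exact Or.inr rfl
    · rintro (rfl | rfl)
      · exact ⟨Or.inr (Or.inl rfl), Or.inl ⟨N, by omega, le_rfl, rfl⟩⟩
      · exact ⟨Or.inr (Or.inr rfl), Or.inl ⟨1, le_rfl, by omega, rfl⟩⟩
  have hcov : Cov A (cpath N N) := by
    apply Cov.down
    · rintro x (rfl | rfl | rfl) y (⟨i, h1, h2, rfl⟩ | ⟨i, h1, h2, rfl⟩) h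
      · rw [cv_lt_ce hN] at h
        rcases h with h | h
        · rw [cast_inj h1 h2 (by omega) le_rfl h]
          exact Or.inr (Or.inl rfl)
        · have h3 : (i : ZMod N) = ((1 : ℕ) : ZMod N) := by
            rw [h]
            simp
          rw [cast_inj h1 h2 le_rfl (by omega) h3]
          exact Or.inr (Or.inr rfl)
      · exact absurd h (not_ce_lt_ce hN _ _)
      · exact absurd h (not_cv_lt_cv _ _)
      · exact absurd h (not_ce_lt_cv hN _ _)
      · exact absurd h (not_cv_lt_cv _ _)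
      · exact absurd h (not_ce_lt_cv hN _ _)
    · rintro x hx y (rfl | rfl | rfl) h
      · exfalso
        rcases hx with ⟨i, h1, h2, rfl⟩ | ⟨i, h1, h2, rfl⟩
        · exact absurd h (not_ce_lt_cv hN _ _)
        · exact absurd h (not_ce_lt_ce hN _ _)
      · exact Or.inl ⟨N, by omega, le_rfl, rfl⟩
      · exact Or.inl ⟨1, le_rfl, by omega, rfl⟩
  have hAa : Acyc A := by
    refine Acyc.cone (ce N N) (Or.inl rfl) ?_
    rintro y (rfl | rfl | rfl)
    · exact Or.inl le_rfl
    · exact Or.inl hcN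
    · exact Or.inl hc1
  have hne : cv N N ≠ cv N 1 := by
    intro h
    have := cv_inj (by omega) le_rfl le_rfl (by omega) h
    omega
  have h0 : Sph (A ∩ cpath N N) 1 := by
    rw [hint]
    apply sph_two
    · intro h
      rcases h.eq_or_lt with h | h
      · exact hne h
      · exact not_cv_lt_cv _ _ h
    · intro h
      rcases h.eq_or_lt with h | h
      · exact hne h.symm
      · exact not_cv_lt_cv _ _ h
  rw [hall]
  exact Sph.susp hcov hAa (acyc_path hN (by omega) le_rfl) h0

end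

end Pool.Agent.Helper59.PD
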