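import Pool.Agent.Helper59.PD.LibA

/-! Library, part U: unions. -/

set_option autoImplicit false

namespace Pool.Agent.Helper59.PD

noncomputable section

section
variable {X Y Z : Type} [PartialOrder X] [PartialOrder Y] [PartialOrder Z]

/-! ### unions -/

/-- every chain of `A ∪ B` lies in `A` or in `B` -/
def Cov (A B : Set X) : Prop :=
  ∀ l : List X, l.Pairwise (· < ·) → (∀ x ∈ l, x ∈ A ∪ B) → (∀ x ∈ l, x ∈ A) ∨ (∀ x ∈ l, x ∈ B)

theorem Cov.up {A B : Set X} (hA : ∀ x ∈ A, ∀ y ∈ B, x < y → y ∈ A)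
    (hB : ∀ x ∈ B, ∀ y ∈ A, x < y → y ∈ B) : Cov A B := by
  intro l hl hm
  rcases l with _ | ⟨a, l⟩
  · exact Or.inl fun x hx => absurd hx List.not_mem_nil
  · rw [List.pairwise_cons] at hl
    rcases hm a List.mem_cons_self with ha | ha
    · left
      intro x hx
      rcases List.mem_cons.1 hx with rfl | hx'
      · exact ha
      · rcases hm x hx with h | h
        · exact h
        · exact hA a ha x h (hl.1 x hx')
    · right
      intro x hx
      rcases List.mem_cons.1 hx with rfl | hx'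
      · exact ha
      · rcases hm x hx with h | h
        · exact hB a ha x h (hl.1 x hx')
        · exact h

theorem Cov.down {A B : Set X} (hA : ∀ x ∈ A, ∀ y ∈ B, y < x → y ∈ A)
    (hB : ∀ x ∈ B, ∀ y ∈ A, y < x → y ∈ B) : Cov A B := by
  intro l hl hm
  rcases List.eq_nil_or_concat l with rfl | ⟨l', a, rfl⟩
  · exact Or.inl fun x hx => absurd hx List.not_mem_nil
  · rw [List.concat_eq_append] at hl hm ⊢
    rw [List.pairwise_append] at hl
    have hlt : ∀ x ∈ l', x < a := fun x hx => hl.2.2 x hx a (List.mem_singleton.2 rfl)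
    rcases hm a (List.mem_append_right _ (List.mem_singleton.2 rfl)) with ha | ha
    · left
      intro x hx
      rcases List.mem_append.1 hx with hx' | hx'
      · rcases hm x hx with h | h
        · exact h
        · exact hA a ha x h (hlt x hx')
      · rw [List.mem_singleton.1 hx']
        exact ha
    · right
      intro x hx
      rcases List.mem_append.1 hx with hx' | hx'
      · rcases hm x hx with h | h
        · exact hB a ha x h (hlt x hx')
        · exact h
      · rw [List.mem_singleton.1 hx']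
        exact ha

theorem mem_CC {S : Set X} {k : ℕ} {c : Ch X} : c ∈ CC S k ↔ ∀ l ∈ c.support, l ∈ cs S k :=
  Finsupp.mem_supported ℤ c

theorem CC_inter {A B : Set X} {k : ℕ} {c : Ch X} (hA : c ∈ CC A k) (hB : c ∈ CC B k) :
    c ∈ CC (A ∩ B) k := by
  rw [mem_CC] at hA hB ⊢
  intro l hl
  obtain ⟨h1, h2, h3⟩ := hA l hl
  obtain ⟨-, h2', -⟩ := hB l hl
  exact ⟨h1, fun x hx => ⟨h2 x hx, h2' x hx⟩, h3⟩

/-- chains of length zero do not depend on the set -/
theorem CC_zero {S T : Set X} {c : Ch X} (hc : c ∈ CC S 0) : c ∈ CC T 0 := by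
  rw [mem_CC] at hc ⊢
  intro l hl
  obtain ⟨h1, h2, h3⟩ := hc l hl
  have : l = [] := List.length_eq_zero_iff.1 h3
  subst this
  exact ⟨h1, fun x hx => absurd hx List.not_mem_nil, rfl⟩

open Classical in
/-- splitting a chain along a cover -/
theorem CC_split {A B : Set X} (hc : Cov A B) {k : ℕ} {c : Ch X} (h : c ∈ CC (A ∪ B) k) :
    ∃ a ∈ CC A k, ∃ b ∈ CC B k, c = a + b := by
  rw [mem_CC] at h
  refine ⟨c.filter (fun l => ∀ x ∈ l, x ∈ A), ?_, c.filter (fun l => ¬ ∀ x ∈ l, x ∈ A), ?_,
    (Finsupp.filter_add_filter_not c _).symm⟩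
  · rw [mem_CC]
    intro l hl
    rw [Finsupp.support_filter, Finset.mem_filter] at hl
    obtain ⟨h1, h2, h3⟩ := h l hl.1
    exact ⟨h1, hl.2, h3⟩
  · rw [mem_CC]
    intro l hl
    rw [Finsupp.support_filter, Finset.mem_filter] at hl
    obtain ⟨h1, h2, h3⟩ := h l hl.1
    exact ⟨h1, (hc l h1 h2).resolve_left hl.2, h3⟩

theorem Hvan.union {A B : Set X} (hc : Cov A B) (k : ℕ) (hA : Hvan A (k + 1))
    (hB : Hvan B (k + 1)) (hAB : Hvan (A ∩ B) k) : Hvan (A ∪ B) (k + 1) := by
  intro c hcc hd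
  obtain ⟨a, ha, b, hb, rfl⟩ := CC_split hc hcc
  rw [map_add] at hd
  have h1 : d a = - d b := eq_neg_of_add_eq_zero_left hd
  have h2 : d a ∈ CC (A ∩ B) k := CC_inter (d_mem ha) (by
    rw [h1]
    exact Submodule.neg_mem _ (d_mem hb))
  obtain ⟨e, he, hde⟩ := hAB (d a) h2 (d_d a)
  have heA : e ∈ CC A (k + 1) := CC_mono Set.inter_subset_left _ he
  have heB : e ∈ CC B (k + 1) := CC_mono Set.inter_subset_right _ he
  obtain ⟨f, hf, hdf⟩ := hA (a - e) (Submodule.sub_mem _ ha heA) (by
    rw [map_sub, hde, sub_self])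
  obtain ⟨g, hg, hdg⟩ := hB (b + e) (Submodule.add_mem _ hb heB) (by
    rw [map_add, hde, h1, add_neg_cancel])
  refine ⟨f + g, Submodule.add_mem _ (CC_mono Set.subset_union_left _ hf)
    (CC_mono Set.subset_union_right _ hg), ?_⟩
  rw [map_add, hdf, hdg]
  abel

theorem Sph.susp {A B : Set X} (hc : Cov A B) (hA : Acyc A) (hB : Acyc B) {m : ℕ}
    (hAB : Sph (A ∩ B) m) : Sph (A ∪ B) (m + 1) := by
  obtain ⟨z, hz, hdz, hnd, hgen⟩ := hAB
  obtain ⟨a, ha, hda⟩ := hA m z (CC_mono Set.inter_subset_left _ hz) hdz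
  obtain ⟨b, hb, hdb⟩ := hB m z (CC_mono Set.inter_subset_right _ hz) hdz
  refine ⟨a - b, Submodule.sub_mem _ (CC_mono Set.subset_union_left _ ha)
    (CC_mono Set.subset_union_right _ hb), by rw [map_sub, hda, hdb, sub_self], ?_, ?_⟩
  · intro n e he hde
    obtain ⟨eA, heA, eB, heB, rfl⟩ := CC_split hc he
    rw [map_add] at hde
    have h1 : d eA - n • a = - (d eB + n • b) := by
      rw [smul_sub] at hde
      have : d eA = n • a - n • b - d eB := eq_sub_of_add_eq hde
      rw [this]
      abel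
    have h2 : d eA - n • a ∈ CC (A ∩ B) (m + 1) := CC_inter
      (Submodule.sub_mem _ (d_mem heA) (Submodule.smul_mem _ _ ha)) (by
        rw [h1]
        exact Submodule.neg_mem _ (Submodule.add_mem _ (d_mem heB) (Submodule.smul_mem _ _ hb)))
    have h3 := hnd (-n) _ h2 (by rw [map_sub, map_smul, d_d, hda, neg_smul, zero_sub])
    exact neg_eq_zero.1 h3
  · intro k c hcc hd
    rcases k with _ | k
    · obtain ⟨e, he, hde⟩ := hA 0 c (CC_zero hcc) hd
      refine ⟨e, CC_mono Set.subset_union_left _ he, 0, fun _ => rfl, ?_⟩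
      rw [hde, zero_smul, add_zero]
    · obtain ⟨a', ha', b', hb', rfl⟩ := CC_split hc hcc
      rw [map_add] at hd
      have h1 : d a' = - d b' := eq_neg_of_add_eq_zero_left hd
      have h2 : d a' ∈ CC (A ∩ B) k := CC_inter (d_mem ha') (by
        rw [h1]
        exact Submodule.neg_mem _ (d_mem hb'))
      obtain ⟨e, he, n, hn, hde⟩ := hgen k _ h2 (d_d a')
      have heA : e ∈ CC A (k + 1) := CC_mono Set.inter_subset_left _ he
      have heB : e ∈ CC B (k + 1) := CC_mono Set.inter_subset_right _ he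
      have hna : n • a ∈ CC A (k + 1) := by
        by_cases h : k = m
        · subst h
          exact Submodule.smul_mem _ _ ha
        · rw [hn h, zero_smul]
          exact Submodule.zero_mem _
      have hnb : n • b ∈ CC B (k + 1) := by
        by_cases h : k = m
        · subst h
          exact Submodule.smul_mem _ _ hb
        · rw [hn h, zero_smul]
          exact Submodule.zero_mem _
      obtain ⟨f, hf, hdf⟩ := hA (k + 1) (a' - e - n • a)
        (Submodule.sub_mem _ (Submodule.sub_mem _ ha' heA) hna) (by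
          rw [map_sub, map_sub, map_smul, hda, hde]
          abel)
      obtain ⟨g, hg, hdg⟩ := hB (k + 1) (b' + e + n • b)
        (Submodule.add_mem _ (Submodule.add_mem _ hb' heB) hnb) (by
          have h3 : d b' = - d a' := by rw [h1, neg_neg]
          rw [map_add, map_add, map_smul, hdb, h3, hde]
          abel)
      refine ⟨f + g, Submodule.add_mem _ (CC_mono Set.subset_union_left _ hf)
        (CC_mono Set.subset_union_right _ hg), n, fun h => hn (fun h' => h (by rw [h'])), ?_⟩
      rw [map_add, hdf, hdg, smul_sub]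
      abel

/-- chains in a directed union -/
theorem CC_directed {ι : Type} [Nonempty ι] {A : ι → Set X} (hA : Directed (· ⊆ ·) A) {k : ℕ}
    {c : Ch X} (hc : c ∈ CC (⋃ i, A i) k) : ∃ i, c ∈ CC (A i) k := by
  classical
  rw [mem_CC] at hc
  let E : Finset X := c.support.biUnion fun l => l.toFinset
  have hE : (E : Set X) ⊆ ⋃ i, A i := by
    intro x hx
    rw [Finset.mem_coe, Finset.mem_biUnion] at hx
    obtain ⟨l, hl, hx⟩ := hx
    exact (hc l hl).2.1 x (List.mem_toFinset.1 hx)
  obtain ⟨i, hi⟩ := hA.exists_mem_subset_of_finset_subset_biUnion hE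
  refine ⟨i, ?_⟩
  rw [mem_CC]
  intro l hl
  obtain ⟨h1, h2, h3⟩ := hc l hl
  refine ⟨h1, fun x hx => hi ?_, h3⟩
  rw [Finset.mem_coe, Finset.mem_biUnion]
  exact ⟨l, hl, List.mem_toFinset.2 hx⟩

theorem Hvan.directed {ι : Type} [Nonempty ι] {A : ι → Set X} (hA : Directed (· ⊆ ·) A) {k : ℕ}
    (h : ∀ i, Hvan (A i) k) : Hvan (⋃ i, A i) k := by
  intro c hc hd
  obtain ⟨i, hi⟩ := CC_directed hA hc
  obtain ⟨e, he, hde⟩ := h i c hi hd
  exact ⟨e, CC_mono (Set.subset_iUnion A i) _ he, hde⟩

/-- attaching a family of up-closed pieces -/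
theorem Hvan.amalg {ι : Type} {S : Set X} (A : ι → Set X)
    (hup : ∀ x ∈ S, ∀ i, ∀ y ∈ A i, x < y → y ∈ S)
    (hA : ∀ i, ∀ x ∈ A i, ∀ y ∈ S ∪ ⋃ j, A j, x < y → y ∈ A i)
    (hd : ∀ i j, i ≠ j → A i ∩ A j ⊆ S) (k : ℕ)
    (hS : Hvan S (k + 1)) (h1 : ∀ i, Hvan (A i) (k + 1)) (h2 : ∀ i, Hvan (A i ∩ S) k) :
    Hvan (S ∪ ⋃ i, A i) (k + 1) := by
  classical
  let B : Finset ι → Set X := fun F => S ∪ ⋃ i ∈ F, A i
  have hB : ∀ F, Hvan (B F) (k + 1) := by
    intro F
    induction F using Finset.induction_on with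
    | empty =>
      have : B ∅ = S := by simp [B]
      rw [this]
      exact hS
    | insert j F hj ih =>
      have h3 : B (insert j F) = B F ∪ A j := by
        simp only [B, Finset.set_biUnion_insert]
        ext x
        simp only [Set.mem_union]
        tauto
      have h4 : B F ∩ A j = A j ∩ S := by
        ext x
        constructor
        · rintro ⟨hx | hx, hxj⟩
          · exact ⟨hxj, hx⟩
          · simp only [Set.mem_iUnion] at hx
            obtain ⟨i, hi, hx⟩ := hx
            have hij : i ≠ j := fun h => hj (h ▸ hi)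
            exact ⟨hxj, hd i j hij ⟨hx, hxj⟩⟩
        · rintro ⟨hxj, hx⟩
          exact ⟨Or.inl hx, hxj⟩
      rw [h3]
      refine Hvan.union ?_ k ih (h1 j) (by rw [h4]; exact h2 j)
      apply Cov.up
      · rintro x (hx | hx) y hy hxy
        · exact Or.inl (hup x hx j y hy hxy)
        · simp only [Set.mem_iUnion] at hx
          obtain ⟨i, hi, hx⟩ := hx
          right
          simp only [Set.mem_iUnion]
          exact ⟨i, hi, hA i x hx y (Or.inr (Set.mem_iUnion.2 ⟨j, hy⟩)) hxy⟩
      · rintro x hx y (hy | hy) hxy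
        · exact hA j x hx y (Or.inl hy) hxy
        · simp only [Set.mem_iUnion] at hy
          obtain ⟨i, hi, hy⟩ := hy
          exact hA j x hx y (Or.inr (Set.mem_iUnion.2 ⟨i, hy⟩)) hxy
  have hdir : Directed (· ⊆ ·) B := by
    intro F G
    refine ⟨F ∪ G, ?_, ?_⟩
    · exact Set.union_subset_union_right _
        (Set.biUnion_subset_biUnion_left (fun i hi => Finset.mem_union_left _ hi))
    · exact Set.union_subset_union_right _
        (Set.biUnion_subset_biUnion_left (fun i hi => Finset.mem_union_right _ hi))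
  have hun : S ∪ ⋃ i, A i = ⋃ F, B F := by
    ext x
    simp only [B, Set.mem_union, Set.mem_iUnion]
    constructor
    · rintro (h | ⟨i, h⟩)
      · exact ⟨∅, Or.inl h⟩
      · exact ⟨{i}, Or.inr ⟨i, Finset.mem_singleton.2 rfl, h⟩⟩
    · rintro ⟨F, h | ⟨i, -, h⟩⟩
      · exact Or.inl h
      · exact Or.inr ⟨i, h⟩
  rw [hun]
  exact Hvan.directed hdir hB

/-- increasing unions -/
theorem Hvan.iUnion {A : ℕ → Set X} (hm : Monotone A) (k : ℕ) (h : ∀ i, Hvan (A i) k) :
    Hvan (⋃ i, A i) k :=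
  Hvan.directed (directed_of_isDirected_le hm) h

end

end

end Pool.Agent.Helper59.PD
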