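import Pool.Agent.Helper59.PD.WalkB_aux

/-! Comparison of the coned labelled complex with the chains with cones. -/

set_option autoImplicit false

open scoped Classical

namespace Pool.Agent.Helper59.PD

variable {q : ℕ} {G : Type} [Group G] {s : G} {N : ℕ}

namespace WB

noncomputable section

variable {P : YPack q G s N} {y : ZMod (q + 2) → Finset P.Y}

/-- the comparison map -/
def ff (y : ZMod (q + 2) → Finset P.Y) (a : Smp q G s) : ZT P y :=
  match a.t with
  | none => .bs (UU y a.σ)
  | some c => .cn a.σ c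

theorem ff_none (σ : Finset (Vx q G)) : ff y (⟨σ, none⟩ : Smp q G s) = .bs (UU y σ) := rfl

theorem ff_some (σ : Finset (Vx q G)) (c : G ⧸ Subgroup.zpowers s) :
    ff y (⟨σ, some c⟩ : Smp q G s) = .cn σ c := rfl

theorem none_le {σ σ' : Finset (Vx q G)} {t : Option (G ⧸ Subgroup.zpowers s)} (h : σ ⊆ σ') :
    (⟨σ, none⟩ : Smp q G s) ≤ ⟨σ', t⟩ := ⟨h, Or.inl rfl⟩

theorem AA_none {L : LCx q G s} {σ : Finset (Vx q G)} :
    (⟨σ, none⟩ : Smp q G s) ∈ AA L ↔ σ ∈ L.K := Iff.rfl

theorem AA_some {L : LCx q G s} {σ : Finset (Vx q G)} {c : G ⧸ Subgroup.zpowers s} :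
    (⟨σ, some c⟩ : Smp q G s) ∈ AA L ↔ IsCone σ c := Iff.rfl

theorem KK_UU {σ : Finset (Vx q G)} (hσ : σ ∈ P.KK y) : ∃ v ∈ σ, UU y σ = P.fv y v :=
  exists_UU hσ.1 fun v hv w hw => (hσ.2 v hv w hw).1

theorem AA_finHt (L : LCx q G s) : FinHtOn (AA L) := by
  refine ⟨q + 5, fun a => a.σ.card + (if a.t = none then 0 else 1), ?_, ?_⟩
  · rintro ⟨σ, t⟩ ha ⟨σ', t'⟩ hb hab
    have h1 : σ ⊆ σ' := hab.le.1
    have h2 : t = none ∨ t = t' := hab.le.2
    have h3 := Finset.card_le_card h1
    simp only
    rcases h2 with rfl | rfl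
    · by_cases ht : t' = none
      · subst ht
        have h4 : σ ≠ σ' := fun e => hab.ne (by rw [e])
        have h5 := Finset.card_lt_card (Finset.ssubset_iff_subset_ne.2 ⟨h1, h4⟩)
        simpa using h5
      · simp only [if_true, if_neg ht]
        omega
    · have h4 : σ ≠ σ' := fun e => hab.ne (by rw [e])
      have h5 := Finset.card_lt_card (Finset.ssubset_iff_subset_ne.2 ⟨h1, h4⟩)
      split_ifs <;> omega
  · rintro ⟨σ, t⟩ ha
    simp only
    cases t with
    | none =>
      have h1 : σ ∈ L.K := ha
      have h2 : (σ.image Prod.snd).card = σ.card :=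
        Finset.card_image_of_injOn fun v hv w hw h => L.inj σ h1 v hv w hw h
      have h3 : (σ.image Prod.snd).card ≤ q + 2 := by
        have h4 := Finset.card_le_univ (σ.image Prod.snd)
        rwa [ZMod.card] at h4
      simp only [if_true]
      omega
    | some c =>
      have h1 : IsCone σ c := ha
      have := cone_card h1
      split_ifs <;> omega

/-- the simplices below a position are contractible -/
theorem below_wc (hy : P.IsWalk y) (L : LCx q G s) (hL : L.K = P.KK y) (v0 : Vx q G) :
    WC {a : Smp q G s | a ∈ AA L ∧ a.t = none ∧ UU y a.σ ⊆ P.fv y v0} := by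
  have hins : ∀ σ ∈ P.KK y, UU y σ ⊆ P.fv y v0 → insert v0 σ ∈ P.KK y := by
    intro σ hσ hU
    refine ⟨Finset.insert_nonempty _ _, ?_⟩
    intro v hv w hw
    rw [Finset.mem_insert] at hv hw
    rcases hv with rfl | hv <;> rcases hw with rfl | hw
    · exact ⟨Or.inl subset_rfl, fun _ => rfl⟩
    · exact ⟨Or.inr ((UU_subset.1 hU) w hw), fun h => (fv_inj hy.mem h.symm ((UU_subset.1 hU) w hw)).symm⟩
    · exact ⟨Or.inl ((UU_subset.1 hU) v hv), fun h => fv_inj hy.mem h ((UU_subset.1 hU) v hv)⟩
    · exact hσ.2 v hv w hw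
  have hsing : ({v0} : Finset (Vx q G)) ∈ P.KK y := by
    refine ⟨Finset.singleton_nonempty _, ?_⟩
    intro v hv w hw
    rw [Finset.mem_singleton] at hv hw
    rw [hv, hw]
    exact ⟨Or.inl subset_rfl, fun _ => rfl⟩
  refine WC.of_up (FinHtOn.mono' (AA_finHt L) fun a ha => ha.1)
    (fun a => ⟨insert v0 a.σ, none⟩) ?_ ?_ ?_ ?_ ⟨{v0}, none⟩ ?_ ?_ ?_
  · rintro ⟨σ, t⟩ ⟨h1, h2, h3⟩
    simp only at h2 h3
    subst h2
    rw [AA_none, hL] at h1
    refine ⟨?_, rfl, ?_⟩
    · rw [AA_none, hL]
      exact hins σ h1 h3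
    · rw [UU_subset]
      intro v hv
      rcases Finset.mem_insert.1 hv with rfl | hv
      · exact subset_rfl
      · exact (UU_subset.1 h3) v hv
  · rintro ⟨σ, t⟩ ⟨h1, h2, h3⟩
    simp
  · rintro ⟨σ, t⟩ ⟨h1, h2, h3⟩ ⟨σ', t'⟩ ⟨h1', h2', h3'⟩ h
    exact none_le (Finset.insert_subset_insert _ h.1)
  · rintro ⟨σ, t⟩ ⟨h1, h2, h3⟩
    simp only at h2
    subst h2
    exact none_le (Finset.subset_insert _ _)
  · refine ⟨?_, rfl, ?_⟩
    · rw [AA_none, hL]
      exact hsing
    · rw [UU_single]
  · simp
  · rintro ⟨σ, t⟩ _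
    exact none_le (by simp)

theorem cone_KK (L : LCx q G s) {σ : Finset (Vx q G)} {c : G ⧸ Subgroup.zpowers s}
    (h : IsCone σ c) (hne : σ.Nonempty) : σ ∈ L.K := by
  rcases h with rfl | ⟨v, -, rfl | rfl⟩
  · simp at hne
  · exact L.down _ (L.edge v) _ (by simp) (by simp)
  · exact L.edge v

theorem cone_sub {s : G} {σ σ' : Finset (Vx q G)} {c : G ⧸ Subgroup.zpowers s} (h : IsCone σ c)
    (hs : ∀ v : Vx q G, (QuotientGroup.mk (nxt s v).1 : G ⧸ Subgroup.zpowers s) =
      QuotientGroup.mk v.1) (hσ : σ' ⊆ σ) : IsCone σ' c := by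
  rcases h with rfl | ⟨v, hv, rfl | rfl⟩
  · exact Or.inl (Finset.subset_empty.1 hσ)
  · rcases Finset.subset_singleton_iff.1 hσ with h | h
    · exact Or.inl h
    · exact Or.inr ⟨v, hv, Or.inl h⟩
  · by_cases h1 : v ∈ σ'
    · by_cases h2 : nxt s v ∈ σ'
      · right
        refine ⟨v, hv, Or.inr (hσ.antisymm ?_)⟩
        intro w hw
        simp only [Finset.mem_insert, Finset.mem_singleton] at hw
        rcases hw with rfl | rfl
        · exact h1
        · exact h2
      · right
        refine ⟨v, hv, Or.inl ?_⟩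
        ext w
        rw [Finset.mem_singleton]
        constructor
        · intro hw
          have := hσ hw
          simp only [Finset.mem_insert, Finset.mem_singleton] at this
          rcases this with rfl | rfl
          · rfl
          · exact absurd hw h2
        · rintro rfl; exact h1
    · by_cases h2 : nxt s v ∈ σ'
      · right
        refine ⟨nxt s v, by rw [hs, hv], Or.inl ?_⟩
        ext w
        rw [Finset.mem_singleton]
        constructor
        · intro hw
          have := hσ hw
          simp only [Finset.mem_insert, Finset.mem_singleton] at this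
          rcases this with rfl | rfl
          · exact absurd hw h1
          · rfl
        · rintro rfl; exact h2
      · left
        rw [Finset.eq_empty_iff_forall_notMem]
        intro w hw
        have := hσ hw
        simp only [Finset.mem_insert, Finset.mem_singleton] at this
        rcases this with rfl | rfl
        · exact h1 hw
        · exact h2 hw

theorem mk_nxt (v : Vx q G) : (QuotientGroup.mk (nxt s v).1 : G ⧸ Subgroup.zpowers s) =
      QuotientGroup.mk v.1 := by
  rw [QuotientGroup.eq]
  unfold nxt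
  simp only
  split_ifs
  · rw [mul_inv_rev, inv_mul_cancel_right]
    exact Subgroup.inv_mem _ (Subgroup.mem_zpowers s)
  · rw [inv_mul_cancel]
    exact Subgroup.one_mem _

end

end WB

open WB

theorem YPack.AA_heq (P : YPack q G s N) (y : ZMod (q + 2) → Finset P.Y) (hy : P.IsWalk y)
    (hc : P.Covers y) (L : LCx q G s) (hL : L.K = P.KK y) : HEq' (AA L) (ZS P y) := by
  refine HEq'.quillen_le (AA_finHt L) ZS_finHt (ff y) ?_ ?_ ?_
  · rintro ⟨σ, t⟩ ha
    cases t with
    | none =>
      rw [AA_none, hL] at ha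
      rw [ff_none, bs_mem]
      obtain ⟨v, _, h⟩ := KK_UU ha
      rw [h]
      exact fv_Sd hy.mem v
    | some c =>
      rw [ff_some, cn_mem]
      exact ha
  · rintro ⟨σ, t⟩ ha ⟨σ', t'⟩ hb hab
    have h1 : σ ⊆ σ' := hab.1
    cases t with
    | none =>
      rw [AA_none, hL] at ha
      rw [ff_none]
      cases t' with
      | none =>
        rw [ff_none, ZT.bs_le_bs]
        exact UU_mono h1
      | some c =>
        rw [ff_some, ZT.bs_le_cn]
        obtain ⟨v, hv, h⟩ := KK_UU ha
        exact ⟨v, h1 hv, h.le⟩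
    | some c =>
      cases t' with
      | none => exact absurd hab.2 (by simp)
      | some c' =>
        rw [ff_some, ff_some, ZT.cn_le_cn]
        have h2 : (some c : Option (G ⧸ Subgroup.zpowers s)) = none ∨
          (some c : Option (G ⧸ Subgroup.zpowers s)) = some c' := hab.2
        exact ⟨h1, by simpa using h2⟩
  · intro b hb
    cases b with
    | bs z =>
      rw [bs_mem] at hb
      obtain ⟨v0, hv0⟩ := hc z hb
      have h1 : {x ∈ AA L | ff y x ≤ ZT.bs z} =
          {a : Smp q G s | a ∈ AA L ∧ a.t = none ∧ UU y a.σ ⊆ P.fv y v0} := by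
        ext ⟨σ, t⟩
        cases t with
        | none =>
          simp only [Set.mem_ofPred_eq, ff_none, ZT.bs_le_bs, hv0, true_and]
        | some c =>
          simp only [Set.mem_ofPred_eq, ff_some]
          constructor
          · intro h; exact (ZT.not_cn_le_bs h.2).elim
          · intro h; exact absurd h.2.1 (by simp)
      rw [h1]
      exact below_wc hy L hL v0
    | cn σ c =>
      rw [cn_mem] at hb
      by_cases hσ : σ = ∅
      · subst hσ
        refine WC.cone ⟨∅, some c⟩ ⟨Or.inl rfl, le_refl _⟩ ?_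
        rintro ⟨σ', t'⟩ ⟨h1, h2⟩
        cases t' with
        | none =>
          rw [ff_none, ZT.bs_le_cn] at h2
          obtain ⟨v, hv, -⟩ := h2
          simp at hv
        | some c' =>
          rw [ff_some, ZT.cn_le_cn] at h2
          left
          exact ⟨h2.1, Or.inr (by rw [h2.2])⟩
      · have hne : σ.Nonempty := Finset.nonempty_iff_ne_empty.2 hσ
        obtain ⟨v0, hv0, hmax⟩ := exists_max hne (cone_comp hy.adj hb)
        have hcone := fun σ' (h : σ' ⊆ σ) => cone_sub hb mk_nxt h
        set F : Set (Smp q G s) := {x ∈ AA L | ff y x ≤ ZT.cn σ c} with hF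
        set N : Set (Smp q G s) := {⟨∅, some c⟩} with hN
        set F' : Set (Smp q G s) := F \ N with hF'
        set T : Set (Smp q G s) := {a : Smp q G s | a ∈ AA L ∧ a.t = none ∧ UU y a.σ ⊆ P.fv y v0}
          with hT
        have hNF : N ⊆ F := by
          rintro x rfl
          exact ⟨Or.inl rfl, ZT.cn_le_cn.2 ⟨Finset.empty_subset _, rfl⟩⟩
        have hFN : F' ∪ N = F := Set.sdiff_union_of_subset hNF
        have hmemn : ∀ σ' : Finset (Vx q G), (⟨σ', none⟩ : Smp q G s) ∈ F ↔
            σ' ∈ L.K ∧ UU y σ' ⊆ P.fv y v0 := by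
          intro σ'
          rw [hF, Set.mem_ofPred_eq, AA_none, ff_none, ZT.bs_le_cn]
          refine and_congr_right fun _ => ⟨?_, fun h => ⟨v0, hv0, h⟩⟩
          rintro ⟨v, hv, h⟩
          exact h.trans (hmax v hv)
        have hmems : ∀ (σ' : Finset (Vx q G)) (c' : G ⧸ Subgroup.zpowers s),
            (⟨σ', some c'⟩ : Smp q G s) ∈ F ↔ σ' ⊆ σ ∧ c' = c := by
          intro σ' c'
          rw [hF, Set.mem_ofPred_eq, ff_some, ZT.cn_le_cn]
          constructor
          · exact fun h => h.2
          · rintro ⟨h, rfl⟩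
            exact ⟨hcone σ' h, h, rfl⟩
        have e1 : HEq' F' (F' ∪ N) := by
          refine HEq'.add_antichain ?_ Set.disjoint_sdiff_left ?_
          · rintro x rfl z rfl
            exact lt_irrefl _
          · rintro x rfl
            refine WC.cone ⟨σ, some c⟩ ⟨⟨(hmems _ _).2 ⟨subset_rfl, rfl⟩, ?_⟩, Or.inr ?_⟩ ?_
            · intro h
              have h2 : (⟨σ, some c⟩ : Smp q G s) = ⟨∅, some c⟩ := h
              exact hσ (congrArg Smp.σ h2)
            · refine lt_of_le_of_ne ⟨Finset.empty_subset _, Or.inr rfl⟩ ?_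
              intro h2
              exact hσ (congrArg Smp.σ h2).symm
            · rintro ⟨σ', t'⟩ ⟨⟨h1, h2⟩, h3⟩
              left
              cases t' with
              | none =>
                exfalso
                rcases h3 with h3 | h3
                · have h4 : σ' ⊆ ∅ := h3.le.1
                  have h5 := ((hmemn σ').1 h1).1
                  exact (L.ne σ' h5).ne_empty (Finset.subset_empty.1 h4)
                · exact absurd h3.le.2 (by simp)
              | some c' =>
                obtain ⟨h4, h5⟩ := (hmems _ _).1 h1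
                exact ⟨h4, Or.inr (by rw [h5])⟩
        have e2 : HEq' F' T := by
          refine HEq'.retract_down (FinHtOn.mono' (AA_finHt L) fun a ha => ha.1.1) ?_
            (fun a => ⟨a.σ, none⟩) ?_ ?_ ?_ ?_
          · rintro ⟨σ', t'⟩ ⟨h1, h2, h3⟩
            simp only at h2 h3
            subst h2
            refine ⟨(hmemn σ').2 ⟨h1, h3⟩, ?_⟩
            intro h
            have h4 : (⟨σ', none⟩ : Smp q G s) = ⟨∅, some c⟩ := h
            exact absurd (congrArg Smp.t h4) (by simp)
          · rintro ⟨σ', t'⟩ ⟨h1, h2⟩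
            cases t' with
            | none =>
              obtain ⟨h3, h4⟩ := (hmemn σ').1 h1
              exact ⟨h3, rfl, h4⟩
            | some c' =>
              obtain ⟨h3, rfl⟩ := (hmems _ _).1 h1
              have h4 : σ' ≠ ∅ := by
                rintro rfl
                exact h2 rfl
              refine ⟨cone_KK L (hcone σ' h3) (Finset.nonempty_iff_ne_empty.2 h4), rfl, ?_⟩
              rw [UU_subset]
              intro v hv
              exact hmax v (h3 hv)
          · rintro ⟨σ', t'⟩ ⟨h1, h2, h3⟩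
            simp only at h2
            subst h2
            rfl
          · rintro ⟨σ', t'⟩ _ ⟨σ'', t''⟩ _ h
            exact none_le h.1
          · rintro ⟨σ', t'⟩ _
            exact none_le subset_rfl
        rw [← hFN, ← e1.wc, e2.wc]
        exact below_wc hy L hL v0

end Pool.Agent.Helper59.PD
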