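import Pool.Agent.Helper59.PD.YP

/-! Homotopic walks. -/

set_option autoImplicit false

open scoped Classical

namespace Pool.Agent.Helper59.PD

variable {q : ℕ} {G : Type} [Group G] {s : G} {N : ℕ}

namespace WalkC

/-- values of the walk at arbitrary vertices are chains of regular points -/
theorem fv_mem (P : YPack q G s N) {y : ZMod (q + 2) → Finset P.Y} (hy : P.IsWalk y)
    (v : Vx q G) : P.fv y v ∈ Sd P.Reg := by
  obtain ⟨h1, h2, h3⟩ := hy.mem v.2
  have hle : ∀ a b : P.Y, a ≤ b → v.1 • a ≤ v.1 • b := by
    intro a b hab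
    rcases hab.lt_or_eq with h | h
    · exact (P.lt v.1 a b h).le
    · rw [h]
  refine ⟨h1.image _, ?_, ?_⟩
  · unfold YPack.fv
    rw [Finset.coe_image]
    rintro _ ⟨a, ha, rfl⟩ _ ⟨b, hb, rfl⟩ _
    rcases h2.total ha hb with h | h
    · exact Or.inl (hle a b h)
    · exact Or.inr (hle b a h)
  · unfold YPack.fv
    rw [Finset.coe_image]
    rintro _ ⟨a, ha, rfl⟩ h
    have h4 := h3 ha (v.1⁻¹ * h)
    intro h5
    apply h4
    rw [mul_smul, ← h5, inv_smul_smul]

theorem card_le (P : YPack q G s N) {z : Finset P.Y} (hz : z ∈ Sd P.Reg) : z.card ≤ P.T + 1 := by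
  obtain ⟨-, h2, -⟩ := hz
  have hle : z.card ≤ (Finset.range (P.T + 1)).card := by
    apply Finset.card_le_card_of_injOn P.typ
    · intro a _
      exact Finset.mem_coe.mpr (Finset.mem_range.mpr (Nat.lt_succ_of_le (P.typ_le a)))
    · intro a ha b hb hab
      by_contra hne
      rcases h2 ha hb hne with h | h
      · exact absurd hab (P.typ_lt a b (lt_of_le_of_ne h hne)).ne
      · exact absurd hab.symm (P.typ_lt b a (lt_of_le_of_ne h (Ne.symm hne))).ne
  rwa [Finset.card_range] at hle

theorem cone_card {σ : Finset (Vx q G)} {c : G ⧸ Subgroup.zpowers s} (h : IsCone σ c) :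
    σ.card ≤ 2 := by
  rcases h with h | ⟨v, -, h | h⟩
  · simp [h]
  · simp [h]
  · rw [h]; exact Finset.card_le_two

/-- the rank -/
noncomputable def rk (P : YPack q G s N) (y : ZMod (q + 2) → Finset P.Y) : ZT P y → ℕ
  | .bs z => z.card
  | .cn σ _ => P.T + 2 + σ.card

theorem finHt (P : YPack q G s N) (y : ZMod (q + 2) → Finset P.Y) : FinHtOn (ZS P y) := by
  refine ⟨P.T + 4, rk P y, ?_, ?_⟩
  · intro a ha b hb hab
    obtain ⟨h1, h2⟩ := lt_iff_le_not_ge.1 hab
    cases a with
    | bs z =>
      cases b with
      | bs z' =>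
        exact Finset.card_lt_card (Finset.ssubset_iff_subset_ne.2 ⟨h1, fun h => h2 (h ▸ h1)⟩)
      | cn σ c =>
        have := card_le P (ha.1 z rfl)
        show z.card < P.T + 2 + σ.card
        omega
    | cn σ c =>
      cases b with
      | bs z' => exact h1.elim
      | cn σ' c' =>
        obtain ⟨h3, h4⟩ := ZT.cn_le_cn.1 h1
        have h5 : σ.card < σ'.card := by
          apply Finset.card_lt_card
          refine Finset.ssubset_iff_subset_ne.2 ⟨h3, fun h => h2 ?_⟩
          subst h; subst h4
          exact le_rfl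
        show P.T + 2 + σ.card < P.T + 2 + σ'.card
        omega
  · intro a ha
    cases a with
    | bs z =>
      have := card_le P (ha.1 z rfl)
      show z.card ≤ _
      omega
    | cn σ c =>
      have := cone_card (ha.2 σ c rfl)
      show P.T + 2 + σ.card ≤ _
      omega

/-- subsets of cones are cones -/
theorem cone_sub {σ σ' : Finset (Vx q G)} {c : G ⧸ Subgroup.zpowers s} (h : IsCone σ c)
    (h' : σ' ⊆ σ) : IsCone σ' c := by
  rcases h with h | ⟨v, hv, h | h⟩
  · subst h
    exact Or.inl (Finset.subset_empty.1 h')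
  · subst h
    rcases Finset.subset_singleton_iff.1 h' with h | h
    · exact Or.inl h
    · exact Or.inr ⟨v, hv, Or.inl h⟩
  · have hn : (QuotientGroup.mk (nxt s v).1 : G ⧸ Subgroup.zpowers s) = c := by
      rw [← hv]
      unfold nxt
      dsimp only
      split_ifs
      · rw [eq_comm, QuotientGroup.eq, inv_mul_cancel_left]
        exact Subgroup.mem_zpowers s
      · rfl
    by_cases h1 : v ∈ σ'
    · by_cases h2 : nxt s v ∈ σ'
      · refine Or.inr ⟨v, hv, Or.inr ?_⟩
        apply subset_antisymm
        · rw [← h]; exact h'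
        · intro w hw
          rcases Finset.mem_insert.1 hw with hw | hw
          · rwa [hw]
          · rw [Finset.mem_singleton.1 hw]; exact h2
      · refine Or.inr ⟨v, hv, Or.inl ?_⟩
        ext w
        rw [Finset.mem_singleton]
        constructor
        · intro hw
          have := h' hw
          rw [h, Finset.mem_insert, Finset.mem_singleton] at this
          rcases this with h3 | h3
          · exact h3
          · exact absurd (h3 ▸ hw) h2
        · intro hw; rwa [hw]
    · by_cases h2 : nxt s v ∈ σ'
      · refine Or.inr ⟨nxt s v, hn, Or.inl ?_⟩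
        ext w
        rw [Finset.mem_singleton]
        constructor
        · intro hw
          have := h' hw
          rw [h, Finset.mem_insert, Finset.mem_singleton] at this
          rcases this with h3 | h3
          · exact absurd (h3 ▸ hw) h1
          · exact h3
        · intro hw; rwa [hw]
      · refine Or.inl ?_
        apply Finset.eq_empty_of_forall_notMem
        intro w hw
        have := h' hw
        rw [h, Finset.mem_insert, Finset.mem_singleton] at this
        rcases this with h3 | h3
        · exact h1 (h3 ▸ hw)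
        · exact h2 (h3 ▸ hw)

/-- the union of the values over a nonempty part of a cone is one of the values -/
theorem union_eq (P : YPack q G s N) {y : ZMod (q + 2) → Finset P.Y} (hy : P.IsWalk y)
    {σ : Finset (Vx q G)} {c : G ⧸ Subgroup.zpowers s} (h : IsCone σ c) (hne : σ.Nonempty) :
    ∃ v ∈ σ, σ.biUnion (P.fv y) = P.fv y v := by
  rcases h with h | ⟨v, hv, h | h⟩
  · exact absurd h hne.ne_empty
  · exact ⟨v, by simp [h], by simp [h]⟩
  · rcases hy.adj v with h1 | h1
    · refine ⟨nxt s v, by simp [h], ?_⟩
      rw [h, Finset.biUnion_insert, Finset.singleton_biUnion]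
      exact Finset.union_eq_right.2 h1
    · refine ⟨v, by simp [h], ?_⟩
      rw [h, Finset.biUnion_insert, Finset.singleton_biUnion]
      exact Finset.union_eq_left.2 h1

end WalkC

open WalkC

theorem YPack.ZS_le (P : YPack q G s N) (hs : s ^ q = 1) (y y' : ZMod (q + 2) → Finset P.Y)
    (hy : P.IsWalk y) (hy' : P.IsWalk y') (h : ∀ i, y i ⊆ y' i) : HEq' (ZS P y) (ZS P y') := by
  have hfv : ∀ v : Vx q G, P.fv y v ⊆ P.fv y' v := fun v => Finset.image_subset_image (h v.2)
  let f : ZT P y → ZT P y' := fun a => match a with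
    | .bs z => .bs z
    | .cn σ c => .cn σ c
  have fbs : ∀ z, f (.bs z) = .bs z := fun _ => rfl
  have fcn : ∀ σ c, f (.cn σ c) = .cn σ c := fun _ _ => rfl
  refine HEq'.quillen_le (finHt P y) (finHt P y') f ?_ ?_ ?_
  · intro a ha
    cases a with
    | bs z =>
      refine ⟨fun z' hz' => ?_, fun σ c h => by cases h⟩
      cases hz'
      exact ha.1 z rfl
    | cn σ c =>
      refine ⟨fun z' hz' => (by cases hz'), fun σ' c' h => ?_⟩
      cases h
      exact ha.2 σ c rfl
  · intro a _ b _ hab
    cases a with
    | bs z =>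
      cases b with
      | bs z' => exact hab
      | cn σ c =>
        obtain ⟨v, hv, h1⟩ := ZT.bs_le_cn.1 hab
        exact ZT.bs_le_cn.2 ⟨v, hv, h1.trans (hfv v)⟩
    | cn σ c =>
      cases b with
      | bs z' => exact hab.elim
      | cn σ' c' => exact hab
  · intro b hb
    cases b with
    | bs z' =>
      refine WC.cone (.bs z') ⟨⟨fun z hz => ?_, fun σ c h => by cases h⟩, ?_⟩ ?_
      · cases hz
        exact hb.1 z' rfl
      · exact le_rfl
      · rintro a ⟨-, ha⟩
        cases a with
        | bs z => exact Or.inl ha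
        | cn σ c => exact ha.elim
    | cn σ c =>
      have hσ : IsCone σ c := hb.2 σ c rfl
      rcases σ.eq_empty_or_nonempty with rfl | hne
      · refine WC.cone (.cn ∅ c) ⟨⟨fun z hz => (by cases hz), fun σ' c' h => ?_⟩, ?_⟩ ?_
        · cases h
          exact hσ
        · exact le_rfl
        · rintro a ⟨-, ha⟩
          cases a with
          | bs z =>
            obtain ⟨v, hv, -⟩ := ZT.bs_le_cn.1 ha
            simp at hv
          | cn σ' c' => exact Or.inl ha
      · set A : Set (ZT P y) := {a ∈ ZS P y | f a ≤ .cn σ c} with hA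
        have hcn : ∀ σ', σ' ⊆ σ → (.cn σ' c : ZT P y) ∈ A := by
          intro σ' hσ'
          refine ⟨⟨fun z hz => (by cases hz), fun σ'' c' h => ?_⟩, ?_⟩
          · cases h
            exact cone_sub hσ hσ'
          · rw [fcn]
            exact ZT.cn_le_cn.2 ⟨hσ', rfl⟩
        set B : Set (ZT P y) := A \ {.cn ∅ c} with hB
        have hAB : A = B ∪ {.cn ∅ c} := by
          rw [hB, Set.sdiff_union_self, Set.union_eq_self_of_subset_right]
          exact Set.singleton_subset_iff.2 (hcn ∅ (Finset.empty_subset _))
        have h1 : HEq' B A := by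
          rw [hAB]
          refine HEq'.add_antichain ?_ ?_ ?_
          · rintro a rfl b rfl
            exact lt_irrefl _
          · rw [hB]
            exact Set.disjoint_sdiff_left
          · rintro a rfl
            refine WC.cone (.cn σ c) ⟨⟨hcn σ subset_rfl, ?_⟩, Or.inr ?_⟩ ?_
            · rw [Set.mem_singleton_iff]
              intro h
              have : σ = ∅ := by
                have := h
                injection this
              exact hne.ne_empty this
            · refine lt_iff_le_not_ge.2 ⟨ZT.cn_le_cn.2 ⟨Finset.empty_subset _, rfl⟩, fun h => ?_⟩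
              exact hne.ne_empty (Finset.subset_empty.1 (ZT.cn_le_cn.1 h).1)
            · rintro a ⟨⟨⟨-, ha⟩, ha'⟩, ha2⟩
              cases a with
              | bs z =>
                rcases ha2 with h3 | h3
                · obtain ⟨v, hv, -⟩ := ZT.bs_le_cn.1 h3.le
                  simp at hv
                · exact h3.le.elim
              | cn σ' c' => exact Or.inl ha
        rw [← h1.wc]
        -- the retraction
        let r : ZT P y → ZT P y := fun a => match a with
          | .bs z => .bs z
          | .cn σ' _ => .bs (σ'.biUnion (P.fv y))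
        have rbs : ∀ z, r (.bs z) = .bs z := fun _ => rfl
        have rcn : ∀ σ' c', r (.cn σ' c') = .bs (σ'.biUnion (P.fv y)) := fun _ _ => rfl
        have hBne : ∀ σ' c', (.cn σ' c' : ZT P y) ∈ B → σ' ⊆ σ ∧ c' = c ∧ σ'.Nonempty ∧
            IsCone σ' c := by
          rintro σ' c' ⟨⟨h2, h3⟩, h4⟩
          obtain ⟨h5, h6⟩ := ZT.cn_le_cn.1 h3
          refine ⟨h5, h6, ?_, cone_sub hσ h5⟩
          rw [Finset.nonempty_iff_ne_empty]
          rintro rfl
          subst h6
          exact h4 rfl
        have hfin : FinHtOn B := by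
          obtain ⟨M, ρ, h2, h3⟩ := finHt P y
          exact ⟨M, ρ, fun a ha b hb => h2 a ha.1.1 b hb.1.1, fun a ha => h3 a ha.1.1⟩
        have hbsB : ∀ z ∈ Sd P.Reg, (∃ v ∈ σ, z ⊆ P.fv y' v) → (.bs z : ZT P y) ∈ B := by
          intro z hz hv
          refine ⟨⟨⟨fun z' hz' => (by cases hz'; exact hz), fun σ' c' h => by cases h⟩, ?_⟩, ?_⟩
          · rw [fbs]; exact ZT.bs_le_cn.2 hv
          · intro h
            cases h
        have hrT : ∀ a ∈ B, r a ∈ {b ∈ B | ∃ z, b = .bs z} := by
          intro a ha
          cases a with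
          | bs z => exact ⟨ha, z, rfl⟩
          | cn σ' c' =>
            obtain ⟨h2, h3, h4, h5⟩ := hBne σ' c' ha
            obtain ⟨v, hv, h6⟩ := union_eq P hy h5 h4
            refine ⟨?_, _, rfl⟩
            rw [rcn σ' c', h6]
            exact hbsB _ (fv_mem P hy v) ⟨v, h2 hv, hfv v⟩
        have h2 : HEq' B {b ∈ B | ∃ z, b = .bs z} := by
          refine HEq'.retract_down hfin (fun a ha => ha.1) r hrT ?_ ?_ ?_
          · rintro a ⟨-, z, rfl⟩
            rfl
          · intro a ha b hb hab
            cases a with
            | bs z =>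
              cases b with
              | bs z' => exact hab
              | cn σ' c' =>
                obtain ⟨v, hv, h3⟩ := ZT.bs_le_cn.1 hab
                rw [rbs, rcn σ' c', ZT.bs_le_bs]
                exact h3.trans (Finset.subset_biUnion_of_mem (P.fv y) hv)
            | cn σ' c' =>
              cases b with
              | bs z' => exact hab.elim
              | cn σ'' c'' =>
                rw [rcn σ' c', rcn σ'' c'', ZT.bs_le_bs]
                exact Finset.biUnion_subset_biUnion_of_subset_left _ (ZT.cn_le_cn.1 hab).1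
          · intro a ha
            cases a with
            | bs z => exact le_rfl
            | cn σ' c' =>
              obtain ⟨h2, h3, h4, h5⟩ := hBne σ' c' ha
              obtain ⟨v, hv, h6⟩ := union_eq P hy h5 h4
              rw [rcn σ' c', h6]
              exact (ZT.bs_le_cn (c := c')).2 ⟨v, hv, subset_rfl⟩
        rw [h2.wc]
        obtain ⟨v, hv, h6⟩ := union_eq P hy' hσ hne
        refine WC.cone (.bs (P.fv y' v)) ⟨hbsB _ (fv_mem P hy' v) ⟨v, hv, subset_rfl⟩, _, rfl⟩ ?_
        rintro a ⟨ha, z, rfl⟩
        refine Or.inl ?_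
        rw [ZT.bs_le_bs, ← h6]
        obtain ⟨w, hw, h7⟩ := ZT.bs_le_cn.1 ha.1.2
        exact h7.trans (Finset.subset_biUnion_of_mem (P.fv y') hw)

theorem YPack.ZS_homot (P : YPack q G s N) (hs : s ^ q = 1) {y y' : ZMod (q + 2) → Finset P.Y}
    (h : P.Homot y y') : HEq' (ZS P y) (ZS P y') := by
  induction h with
  | rel x z hxz => exact P.ZS_le hs x z hxz.1 hxz.2.1 hxz.2.2
  | refl x => exact HEq'.refl _
  | symm x z _ ih => exact ih.symm
  | trans x z w _ _ ih1 ih2 => exact ih1.trans ih2

end Pool.Agent.Helper59.PD
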