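import Pool.Agent.Helper59.PD.WalkD_std

/-! The standard walk. -/

set_option autoImplicit false

open scoped Classical

namespace Pool.Agent.Helper59.PD

variable {q : ℕ} {G : Type} [Group G] {s : G} {N : ℕ}

namespace WD

open WB

noncomputable section

variable {P : YPack q G s N}

/-- the singular point of a coset -/
def pc (P : YPack q G s N) (c : G ⧸ Subgroup.zpowers s) : P.Y := c.out • P.p

theorem pc_mk (h : G) : pc P (QuotientGroup.mk h) = h • P.p := by
  have h1 : h⁻¹ * (QuotientGroup.mk h : G ⧸ Subgroup.zpowers s).out ∈ Subgroup.zpowers s := by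
    rw [← QuotientGroup.eq, QuotientGroup.out_eq']
  have h2 := (P.stab _).2 h1
  rw [mul_smul] at h2
  rw [pc]
  have h3 := congrArg (h • ·) h2
  simpa using h3

theorem smax (h : G) (y : P.Y) : ¬ h • P.p < y := by
  intro h1
  have h2 := P.lt h⁻¹ _ _ h1
  rw [inv_smul_smul] at h2
  exact P.pmax _ h2

/-- two singular points of a chain agree -/
theorem sing_eq {z : Finset P.Y} (hz : IsChain (· ≤ ·) (z : Set P.Y)) {h h' : G}
    (h1 : h • P.p ∈ z) (h2 : h' • P.p ∈ z) : h • P.p = h' • P.p := by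
  rcases hz.total h1 h2 with h3 | h3
  · rcases h3.lt_or_eq with h4 | h4
    · exact (smax _ _ h4).elim
    · exact h4
  · rcases h3.lt_or_eq with h4 | h4
    · exact (smax _ _ h4).elim
    · exact h4.symm

theorem pc_mem_iff {z : Finset P.Y} (hz : IsChain (· ≤ ·) (z : Set P.Y)) {h : G}
    (h1 : h • P.p ∈ z) (c : G ⧸ Subgroup.zpowers s) :
    pc P c ∈ z ↔ c = QuotientGroup.mk h := by
  constructor
  · intro h2
    have h3 : c.out • P.p = h • P.p := sing_eq hz h2 h1
    have h4 : (h⁻¹ * c.out) • P.p = P.p := by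
      rw [mul_smul, h3, inv_smul_smul]
    rw [P.stab, ← QuotientGroup.eq, QuotientGroup.out_eq'] at h4
    exact h4.symm
  · rintro rfl
    rw [pc_mk]
    exact h1

theorem fv_lt (h : G) {v : Vx q G}
    (hv : (QuotientGroup.mk v.1 : G ⧸ Subgroup.zpowers s) = QuotientGroup.mk h) {a : P.Y}
    (ha : a ∈ P.fv P.std v) : a < h • P.p := by
  obtain ⟨k, rfl⟩ := VV_surj h v hv
  rw [fv_VV] at ha
  obtain ⟨b, hb, rfl⟩ := Finset.mem_image.1 ha
  apply P.lt
  rw [P.lk_below]
  unfold wf at hb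
  split_ifs at hb
  · rw [Finset.mem_singleton] at hb
    exact ⟨_, hb⟩
  · rw [Finset.mem_insert, Finset.mem_singleton] at hb
    rcases hb with hb | hb
    · exact ⟨_, hb⟩
    · exact ⟨_, hb⟩

theorem cone_coset {σ : Finset (Vx q G)} {c : G ⧸ Subgroup.zpowers s} (h : IsCone σ c) :
    ∀ v ∈ σ, (QuotientGroup.mk v.1 : G ⧸ Subgroup.zpowers s) = c := by
  intro v hv
  rcases h with rfl | ⟨u, hu, rfl | rfl⟩
  · simp at hv
  · rw [Finset.mem_singleton] at hv
    rw [hv, hu]
  · simp only [Finset.mem_insert, Finset.mem_singleton] at hv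
    rcases hv with rfl | rfl
    · exact hu
    · rw [← hu, QuotientGroup.eq]
      unfold nxt
      simp only
      split_ifs
      · rw [mul_inv_rev, inv_mul_cancel_right]
        exact Subgroup.inv_mem _ (Subgroup.mem_zpowers s)
      · rw [inv_mul_cancel]
        exact Subgroup.one_mem _

theorem UU_Sd (q7 : 7 ≤ q) {σ : Finset (Vx q G)} {c : G ⧸ Subgroup.zpowers s} (h : IsCone σ c)
    (hne : σ.Nonempty) : ∃ v ∈ σ, UU P.std σ = P.fv P.std v :=
  exists_UU hne (cone_comp (std_adj q7) h)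

/-- the comparison map -/
def gg (P : YPack q G s N) : ZT P P.std → Finset P.Y
  | .bs z => z
  | .cn σ c => insert (pc P c) (UU P.std σ)

theorem gg_mem (q7 : 7 ≤ q) {a : ZT P P.std} (ha : a ∈ ZS P P.std) :
    gg P a ∈ Sd (Set.univ : Set P.Y) := by
  cases a with
  | bs z =>
    rw [bs_mem] at ha
    exact ⟨ha.1, ha.2.1, Set.subset_univ _⟩
  | cn σ c =>
    rw [cn_mem] at ha
    refine ⟨Finset.insert_nonempty _ _, ?_, Set.subset_univ _⟩
    have h1 : IsChain (· ≤ ·) ((UU P.std σ : Finset P.Y) : Set P.Y) := by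
      rcases σ.eq_empty_or_nonempty with rfl | hne
      · simp [UU]
      · obtain ⟨v, _, hv⟩ := UU_Sd q7 ha hne
        rw [hv]
        exact (fv_Sd std_mem v).2.1
    have h2 : ∀ a ∈ UU P.std σ, a ≤ pc P c := by
      intro a h3
      obtain ⟨v, hv, h4⟩ := Finset.mem_biUnion.1 h3
      have h5 := cone_coset ha v hv
      refine (fv_lt c.out ?_ h4).le
      rw [h5, QuotientGroup.out_eq']
    change IsChain (· ≤ ·) ((insert (pc P c) (UU P.std σ) : Finset P.Y) : Set P.Y)
    rw [Finset.coe_insert]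
    exact h1.insert fun b hb _ => Or.inr (h2 b hb)

theorem gg_mono {a b : ZT P P.std} (h : a ≤ b) : gg P a ≤ gg P b := by
  cases a with
  | bs z =>
    cases b with
    | bs z' => exact ZT.bs_le_bs.1 h
    | cn σ c =>
      obtain ⟨v, hv, h1⟩ := ZT.bs_le_cn.1 h
      exact h1.trans ((fv_subset_UU hv).trans (Finset.subset_insert _ _))
  | cn σ c =>
    cases b with
    | bs z' => exact (ZT.not_cn_le_bs h).elim
    | cn σ' c' =>
      obtain ⟨h1, rfl⟩ := ZT.cn_le_cn.1 h
      exact Finset.insert_subset_insert _ (UU_mono h1)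

/-- chains in the link of a singular point -/
theorem link_chain (hs : s ^ q = 1) {z : Finset P.Y} (hz : IsChain (· ≤ ·) (z : Set P.Y))
    (hne : z.Nonempty) (hlt : ∀ a ∈ z, a < P.p) : ∃ e : ℤ, z = wf P e := by
  have hper : ∀ i j : ℤ, (4 * q : ℤ) ∣ i - j → P.lk i = P.lk j := fun i j h => (lk_eq_iff hs).2 h
  have h3 : ∀ a b c : P.Y, a ∈ z → b ∈ z → c ∈ z → a < b → b < c → False := by
    intro a b c ha hb hc hab hbc
    obtain ⟨i, rfl⟩ := (P.lk_below a).1 (hlt a ha)
    obtain ⟨j, rfl⟩ := (P.lk_below b).1 (hlt b hb)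
    obtain ⟨l, rfl⟩ := (P.lk_below c).1 (hlt c hc)
    obtain ⟨h4, h5⟩ := P.lk_of_lt _ _ hab
    obtain ⟨h6, -⟩ := P.lk_of_lt _ _ hbc
    obtain ⟨a, ha⟩ := h4
    obtain ⟨b, hb⟩ := h6
    rcases h5 with ⟨t, ht⟩ | ⟨t, ht⟩
    · have e1 : (4 * q : ℤ) * t = 2 * (2 * q * t) := by ring
      rw [e1] at ht
      omega
    · have e1 : (4 * q : ℤ) * t = 2 * (2 * q * t) := by ring
      rw [e1] at ht
      omega
  obtain ⟨a, ha, hmin⟩ := Finset.exists_min_image z P.typ hne
  have hmin' : ∀ b ∈ z, b ≠ a → a < b := by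
    intro b hb hba
    rcases hz.total ha hb with h | h
    · exact lt_of_le_of_ne h (Ne.symm hba)
    · have h4 := lt_of_le_of_ne h hba
      have h5 := P.typ_lt _ _ h4
      have h6 := hmin b hb
      omega
  obtain ⟨i, rfl⟩ := (P.lk_below a).1 (hlt a ha)
  by_cases hall : ∀ b ∈ z, b = P.lk i
  · refine ⟨2 * i, ?_⟩
    have h4 : (2 * i) / 2 = i := by omega
    unfold wf
    rw [if_pos (even_two_mul i), h4]
    ext b
    rw [Finset.mem_singleton]
    exact ⟨hall b, fun h => h ▸ ha⟩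
  · push Not at hall
    obtain ⟨b, hb, hba⟩ := hall
    have hab := hmin' b hb hba
    obtain ⟨j, rfl⟩ := (P.lk_below b).1 (hlt b hb)
    have hz2 : z = {P.lk i, P.lk j} := by
      ext c
      rw [Finset.mem_insert, Finset.mem_singleton]
      constructor
      · intro hc
        by_contra hcon
        push Not at hcon
        have h5 := hmin' c hc hcon.1
        rcases hz.total hb hc with h6 | h6
        · exact h3 _ _ _ ha hb hc hab (lt_of_le_of_ne h6 (Ne.symm hcon.2))
        · exact h3 _ _ _ ha hc hb h5 (lt_of_le_of_ne h6 hcon.2)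
      · rintro (rfl | rfl)
        · exact ha
        · exact hb
    obtain ⟨h4, h5⟩ := P.lk_of_lt _ _ hab
    rcases h5 with h5 | h5
    · refine ⟨2 * i + 1, ?_⟩
      have h6 : (2 * i + 1) / 2 = i := by omega
      have h7 : ¬ Even (2 * i + 1) := by rw [Int.not_even_iff_odd]; exact ⟨i, rfl⟩
      unfold wf
      rw [if_neg h7, h6, hz2, hper _ _ h5]
    · refine ⟨2 * (i - 1) + 1, ?_⟩
      have h6 : (2 * (i - 1) + 1) / 2 = i - 1 := by omega
      have h7 : ¬ Even (2 * (i - 1) + 1) := by rw [Int.not_even_iff_odd]; exact ⟨i - 1, rfl⟩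
      unfold wf
      rw [if_neg h7, h6, hz2, hper _ _ h5, sub_add_cancel, Finset.pair_comm]

theorem UK_per' (k j : ℤ) : UK q (k + q * (q + 2) * j) = UK q k + 8 * q * j := by
  have hQ : ((q : ℤ) + 2) ≠ 0 := by positivity
  have h0 : k + q * (q + 2) * j = k + (q * j) * (q + 2) := by ring
  rw [h0]
  unfold UK
  rw [Int.add_mul_ediv_right _ _ hQ, Int.add_mul_emod_self_right]
  ring

theorem image_sub_iff {h : G} {a b : Finset P.Y} :
    a.image (h • ·) ⊆ b.image (h • ·) ↔ a ⊆ b :=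
  Finset.image_subset_image_iff (MulAction.injective h)

/-- membership in the fibres -/
theorem fib_bs {z : Finset P.Y} {h : G} (z' : Finset P.Y) :
    ZT.bs z' ∈ {x ∈ ZS P P.std | gg P x ≤ z} ↔ z' ∈ Sd P.Reg ∧ z' ⊆ z.erase (h • P.p) := by
  rw [Set.mem_ofPred_eq, bs_mem]
  refine and_congr_right fun h2 => ?_
  change z' ⊆ z ↔ _
  constructor
  · intro h3 a ha
    rw [Finset.mem_erase]
    exact ⟨h2.2.2 (Finset.mem_coe.2 ha) h, h3 ha⟩
  · intro h3
    exact h3.trans (Finset.erase_subset _ _)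

theorem UU_reg {σ : Finset (Vx q G)} {a : P.Y} (ha : a ∈ UU P.std σ) (h : G) : a ≠ h • P.p := by
  obtain ⟨v, hv, h4⟩ := Finset.mem_biUnion.1 ha
  exact (fv_Sd std_mem v).2.2 (Finset.mem_coe.2 h4) h

theorem fib_cn {z : Finset P.Y} (hz : IsChain (· ≤ ·) (z : Set P.Y)) {h : G}
    (h1 : h • P.p ∈ z) (σ : Finset (Vx q G)) (c : G ⧸ Subgroup.zpowers s) :
    ZT.cn σ c ∈ {x ∈ ZS P P.std | gg P x ≤ z} ↔
      IsCone σ c ∧ c = QuotientGroup.mk h ∧ UU P.std σ ⊆ z.erase (h • P.p) := by
  rw [Set.mem_ofPred_eq, cn_mem]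
  refine and_congr_right fun h2 => ?_
  change insert (pc P c) (UU P.std σ) ⊆ z ↔ _
  rw [Finset.insert_subset_iff, pc_mem_iff hz h1]
  refine and_congr_right fun h3 => ?_
  constructor
  · intro h4 a ha
    rw [Finset.mem_erase]
    exact ⟨UU_reg ha h, h4 ha⟩
  · intro h4
    exact h4.trans (Finset.erase_subset _ _)

theorem fib_wc (hq : q.Prime) (q7 : 7 ≤ q) (hs : s ^ q = 1) (hs1 : s ≠ 1) {z : Finset P.Y}
    (hz : IsChain (· ≤ ·) (z : Set P.Y)) {h : G} (h1 : h • P.p ∈ z) {e : ℤ}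
    (he : z.erase (h • P.p) = (wf P e).image (h • ·)) :
    WC {x ∈ ZS P P.std | gg P x ≤ z} := by
  have hq7 : (7:ℤ) ≤ q := by exact_mod_cast q7
  obtain ⟨c, hc⟩ : ∃ c : G ⧸ Subgroup.zpowers s, c = QuotientGroup.mk h := ⟨_, rfl⟩
  obtain ⟨e1, he1⟩ : ∃ e1 : ℤ, e1 = if Even e then e else e - 1 := ⟨_, rfl⟩
  obtain ⟨e2, he2⟩ : ∃ e2 : ℤ, e2 = if Even e then e else e + 1 := ⟨_, rfl⟩
  obtain ⟨m, n, hmn, hL, hI⟩ := exists_interval (u := UK q) (fun k => (UK_succ q7 k).1)
    (fun k => (UK_succ q7 k).2) (L := q * (q + 2)) (c := 8 * q) UK_per (e1 := e1) (e2 := e2)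
    (by rw [he1, he2]; split_ifs <;> omega) (by rw [he1, he2]; split_ifs <;> omega)
  obtain ⟨z0, hz0⟩ : ∃ z0 : Finset P.Y, z0 = z.erase (h • P.p) := ⟨_, rfl⟩
  have hz0e : z0 = (wf P e).image (h • ·) := hz0.trans he
  have hz0S : z0 ∈ Sd P.Reg := by rw [hz0e]; exact image_Sd P (wf_mem e)
  -- the positions below `z0`
  have hin : ∀ k, m ≤ k → k ≤ n → P.fv P.std (VV s h k) ⊆ z0 := by
    intro k hk1 hk2
    rw [fv_VV, hz0e, image_sub_iff]
    have h2 := (hI k).2 ⟨hk1, hk2⟩
    rw [he1, he2] at h2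
    exact sub_wf h2.1 h2.2
  have hout : ∀ v : Vx q G, (QuotientGroup.mk v.1 : G ⧸ Subgroup.zpowers s) = c →
      P.fv P.std v ⊆ z0 → ∃ k, m ≤ k ∧ k ≤ n ∧ v = VV s h k := by
    intro v hv hvz
    rw [hc] at hv
    obtain ⟨k, rfl⟩ := VV_surj h v hv
    rw [fv_VV, hz0e, image_sub_iff] at hvz
    obtain ⟨j, h2, h3⟩ := wf_sub hs q7 hvz
    rw [← he1, ← UK_per'] at h2
    rw [← he2, ← UK_per'] at h3
    obtain ⟨h4, h5⟩ := (hI _).1 ⟨h2, h3⟩
    refine ⟨_, h4, h5, ?_⟩
    rw [VV_eq_iff hq hs hs1]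
    exact ⟨-j, by ring⟩
  have hinj : ∀ k l : ℤ, m ≤ k → k ≤ n + 1 → m ≤ l → l ≤ n + 1 →
      (VV s h k : Vx q G) = VV s h l → k = l := by
    intro k l hk1 hk2 hl1 hl2 hkl
    rw [VV_eq_iff hq hs hs1] at hkl
    by_contra hne
    have h2 : k - l ≠ 0 := sub_ne_zero.2 hne
    have h3 := Int.le_of_dvd (abs_pos.2 h2) ((dvd_abs _ _).2 hkl)
    have h4 : |k - l| ≤ n + 1 - m := by
      rw [abs_le]
      constructor <;> omega
    omega
  have hcone : ∀ k, IsCone ({VV s h k} : Finset (Vx q G)) c := fun k =>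
    Or.inr ⟨VV s h k, by rw [hc, mk_VV], Or.inl rfl⟩
  have hcone2 : ∀ k, IsCone ({VV s h k, VV s h (k + 1)} : Finset (Vx q G)) c := fun k =>
    Or.inr ⟨VV s h k, by rw [hc, mk_VV], Or.inr (by rw [VV_succ])⟩
  set F : Set (ZT P P.std) := {x ∈ ZS P P.std | gg P x ≤ z} with hF
  have hbs : ∀ z', ZT.bs z' ∈ F ↔ z' ∈ Sd P.Reg ∧ z' ⊆ z0 := by
    intro z'
    rw [hF, fib_bs, hz0]
  have hcn : ∀ σ c', ZT.cn σ c' ∈ F ↔ IsCone σ c' ∧ c' = c ∧ UU P.std σ ⊆ z0 := by
    intro σ c'
    rw [hF, fib_cn hz h1, hz0, hc]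
  set Ns : Set (ZT P P.std) := {ZT.cn ∅ c} with hNs
  set F' : Set (ZT P P.std) := F \ Ns with hF'
  set T : Set (ZT P P.std) := {x | ∃ z', x = ZT.bs z' ∧ z' ∈ Sd P.Reg ∧ z' ⊆ z0} with hT
  have hNF : Ns ⊆ F := by
    rintro x rfl
    exact (hcn _ _).2 ⟨Or.inl rfl, rfl, by simp [UU]⟩
  have hFN : F' ∪ Ns = F := Set.sdiff_union_of_subset hNF
  have e1 : HEq' F' (F' ∪ Ns) := by
    refine HEq'.add_antichain ?_ Set.disjoint_sdiff_left ?_
    · rintro x rfl y rfl
      exact lt_irrefl _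
    · rintro x rfl
      have hcnF' : ∀ σ c', ZT.cn σ c' ∈ Lk F' (ZT.cn ∅ c) ↔
          σ ≠ ∅ ∧ IsCone σ c ∧ c' = c ∧ UU P.std σ ⊆ z0 := by
        intro σ c'
        constructor
        · rintro ⟨⟨h2, h3⟩, h4⟩
          rw [hcn] at h2
          obtain ⟨h2, rfl, h5⟩ := h2
          refine ⟨?_, h2, rfl, h5⟩
          rintro rfl
          exact h3 rfl
        · rintro ⟨h2, h3, rfl, h4⟩
          refine ⟨⟨(hcn _ _).2 ⟨h3, rfl, h4⟩, ?_⟩, Or.inr ?_⟩
          · intro h5
            have h6 : (ZT.cn σ c' : ZT P P.std) = ZT.cn ∅ c' := h5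
            injection h6 with h7
            exact h2 h7
          · refine lt_of_le_of_ne (ZT.cn_le_cn.2 ⟨Finset.empty_subset _, rfl⟩) ?_
            intro h5
            injection h5 with h7
            exact h2 h7.symm
      have hbsF' : ∀ z', ZT.bs z' ∉ Lk F' (ZT.cn ∅ c) := by
        rintro z' ⟨-, h2 | h2⟩
        · obtain ⟨v, hv, -⟩ := ZT.bs_le_cn.1 h2.le
          simp at hv
        · exact ZT.not_cn_le_bs h2.le
      have himg : ∀ t ∈ Pth m n, ∀ x ∈ t, m ≤ x ∧ x ≤ n := by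
        rintro t ⟨k, h2, h3, rfl | ⟨h4, rfl⟩⟩ x hx
        · rw [Finset.mem_singleton] at hx; omega
        · simp only [Finset.mem_insert, Finset.mem_singleton] at hx
          omega
      have hsub : ∀ t ∈ Pth m n, ∀ t' ∈ Pth m n,
          t.image (VV s h : ℤ → Vx q G) ⊆ t'.image (VV s h) → t ⊆ t' := by
        intro t ht t' ht' h2 x hx
        obtain ⟨y, hy, hyx⟩ := Finset.mem_image.1 (h2 (Finset.mem_image_of_mem _ hx))
        have h3 := himg t ht x hx
        have h4 := himg t' ht' y hy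
        have h5 := hinj y x (by omega) (by omega) (by omega) (by omega) hyx
        rw [← h5]
        exact hy
      have hiso : HEq' (Pth m n) (Lk F' (ZT.cn ∅ c)) := by
        refine HEq'.of_iso (fun t => ZT.cn (t.image (VV s h)) c) ⟨?_, ?_, ?_⟩ ?_
        · rintro t ⟨k, h2, h3, rfl | ⟨h4, rfl⟩⟩
          · simp only [Finset.image_singleton]
            rw [hcnF']
            refine ⟨Finset.singleton_ne_empty _, hcone k, rfl, ?_⟩
            rw [UU_single]
            exact hin k h2 h3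
          · simp only [Finset.image_insert, Finset.image_singleton]
            rw [hcnF']
            refine ⟨Finset.insert_ne_empty _ _, hcone2 k, rfl, ?_⟩
            rw [UU_pair]
            exact Finset.union_subset (hin k h2 h3) (hin (k + 1) (by omega) h4)
        · intro t ht t' ht' h2
          have h3 : (ZT.cn (t.image (VV s h)) c : ZT P P.std) = ZT.cn (t'.image (VV s h)) c := h2
          injection h3 with h4
          exact (hsub t ht t' ht' h4.subset).antisymm (hsub t' ht' t ht h4.symm.subset)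
        · intro x hx
          cases x with
          | bs z' => exact absurd hx (hbsF' z')
          | cn σ c' =>
            rw [hcnF'] at hx
            obtain ⟨h2, h3, rfl, h4⟩ := hx
            rw [UU_subset] at h4
            rcases h3 with h3 | ⟨v, hv, rfl | rfl⟩
            · exact absurd h3 h2
            · obtain ⟨k, hk1, hk2, rfl⟩ := hout v hv (h4 v (by simp))
              refine ⟨{k}, ⟨k, hk1, hk2, Or.inl rfl⟩, ?_⟩
              simp
            · obtain ⟨k, hk1, hk2, rfl⟩ := hout v hv (h4 v (by simp))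
              obtain ⟨l, hl1, hl2, hl⟩ := hout (nxt s (VV s h k)) (by rw [← VV_succ, mk_VV, hc])
                (h4 _ (by simp))
              rw [← VV_succ] at hl
              have h5 := hinj (k + 1) l (by omega) (by omega) (by omega) (by omega) hl
              refine ⟨{k, k + 1}, ⟨k, hk1, hk2, Or.inr ⟨by omega, rfl⟩⟩, ?_⟩
              simp only [Finset.image_insert, Finset.image_singleton]
              rw [VV_succ]
        · intro t ht t' ht'
          constructor
          · intro h2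
            refine lt_of_le_of_ne (ZT.cn_le_cn.2 ⟨Finset.image_subset_image h2.le, rfl⟩) ?_
            intro h3
            have h3' : (ZT.cn (t.image (VV s h)) c : ZT P P.std) = ZT.cn (t'.image (VV s h)) c := h3
            injection h3' with h4
            exact h2.not_ge (hsub t' ht' t ht h4.symm.subset)
          · intro h2
            have h3 := (ZT.cn_le_cn.1 h2.le).1
            refine lt_of_le_of_ne (hsub t ht t' ht' h3) ?_
            rintro rfl
            exact lt_irrefl _ h2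
      exact hiso.wc.1 (path_wc hmn)
  have e2 : HEq' F' T := by
    refine HEq'.retract_down (FinHtOn.mono' ZS_finHt fun a ha => ha.1.1) ?_
      (fun a => match a with
        | .bs z' => .bs z'
        | .cn σ _ => .bs (UU P.std σ)) ?_ ?_ ?_ ?_
    · rintro x ⟨z', rfl, h2, h3⟩
      refine ⟨(hbs _).2 ⟨h2, h3⟩, ?_⟩
      intro h4
      have h5 : (ZT.bs z' : ZT P P.std) = ZT.cn ∅ c := h4
      cases h5
    · rintro x ⟨h2, h3⟩
      cases x with
      | bs z' => exact ⟨z', rfl, (hbs _).1 h2⟩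
      | cn σ c' =>
        obtain ⟨h4, rfl, h5⟩ := (hcn _ _).1 h2
        have hne : σ.Nonempty := by
          rw [Finset.nonempty_iff_ne_empty]
          rintro rfl
          exact h3 rfl
        refine ⟨_, rfl, ?_, h5⟩
        obtain ⟨v, _, hv⟩ := UU_Sd q7 h4 hne
        rw [hv]
        exact fv_Sd std_mem v
    · rintro x ⟨z', rfl, h2, h3⟩
      rfl
    · rintro x ⟨hx, hx'⟩ y ⟨hy, hy'⟩ hxy
      cases x with
      | bs z' =>
        cases y with
        | bs z'' => exact hxy
        | cn σ c' =>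
          obtain ⟨v, hv, h2⟩ := ZT.bs_le_cn.1 hxy
          exact ZT.bs_le_bs.2 (h2.trans (fv_subset_UU hv))
      | cn σ c' =>
        cases y with
        | bs z'' => exact (ZT.not_cn_le_bs hxy).elim
        | cn σ' c'' => exact ZT.bs_le_bs.2 (UU_mono (ZT.cn_le_cn.1 hxy).1)
    · rintro x ⟨h2, h3⟩
      cases x with
      | bs z' => exact le_rfl
      | cn σ c' =>
        obtain ⟨h4, rfl, h5⟩ := (hcn _ _).1 h2
        have hne : σ.Nonempty := by
          rw [Finset.nonempty_iff_ne_empty]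
          rintro rfl
          exact h3 rfl
        obtain ⟨v, hv, hv'⟩ := UU_Sd q7 h4 hne
        exact ZT.bs_le_cn.2 ⟨v, hv, hv'.subset⟩
  rw [← hFN, ← e1.wc, e2.wc]
  refine WC.cone (ZT.bs z0) ⟨z0, rfl, hz0S, subset_rfl⟩ ?_
  rintro x ⟨z', rfl, h2, h3⟩
  exact Or.inl (ZT.bs_le_bs.2 h3)

end

end WD

open WB WD

theorem YPack.ZS_std (P : YPack q G s N) (hq : q.Prime) (q7 : 7 ≤ q) (hs : s ^ q = 1)
    (hs1 : s ≠ 1) : WC (ZS P P.std) := by
  have e0 : HEq' (ZS P P.std) (Sd (Set.univ : Set P.Y)) := by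
    refine HEq'.quillen_le ZS_finHt (Sd_finHt Set.univ) (gg P) (fun a ha => gg_mem q7 ha)
      (fun a _ b _ h => gg_mono h) ?_
    intro z hz
    by_cases hreg : ∀ y ∈ z, y ∈ P.Reg
    · refine WC.cone (ZT.bs z) ⟨bs_mem.2 ⟨hz.1, hz.2.1, fun y hy => hreg y hy⟩, le_refl z⟩ ?_
      rintro x ⟨hx, hxz⟩
      cases x with
      | bs z' => exact Or.inl (ZT.bs_le_bs.2 hxz)
      | cn σ c =>
        exfalso
        have h1 : pc P c ∈ z := hxz (Finset.mem_insert_self _ _)
        exact hreg _ h1 c.out rfl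
    · push Not at hreg
      obtain ⟨y, hy, hyr⟩ := hreg
      obtain ⟨h, rfl⟩ : ∃ h : G, y = h • P.p := by
        by_contra hcon
        push Not at hcon
        exact hyr hcon
      by_cases hne : (z.erase (h • P.p)).Nonempty
      · obtain ⟨e, he⟩ : ∃ e : ℤ, (z.erase (h • P.p)).image (h⁻¹ • ·) = wf P e := by
          refine link_chain hs ?_ (hne.image _) ?_
          · refine chain_image P ?_
            exact hz.2.1.mono (by
              rw [Finset.coe_erase]
              exact Set.sdiff_subset)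
          · intro a ha
            obtain ⟨b, hb, rfl⟩ := Finset.mem_image.1 ha
            rw [Finset.mem_erase] at hb
            have h2 : b < h • P.p := by
              rcases hz.2.1.total (Finset.mem_coe.2 hb.2) (Finset.mem_coe.2 hy) with h3 | h3
              · exact lt_of_le_of_ne h3 hb.1
              · exact (smax h b (lt_of_le_of_ne h3 (Ne.symm hb.1))).elim
            have h3 := P.lt h⁻¹ _ _ h2
            rwa [inv_smul_smul] at h3
        refine fib_wc hq q7 hs hs1 hz.2.1 hy (e := e) ?_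
        rw [← he, Finset.image_image]
        ext a
        simp
      · rw [Finset.not_nonempty_iff_eq_empty] at hne
        refine WC.cone (ZT.cn ∅ (QuotientGroup.mk h)) ((fib_cn hz.2.1 hy _ _).2
          ⟨Or.inl rfl, rfl, by simp [UU]⟩) ?_
        intro x hx
        cases x with
        | bs z' =>
          exfalso
          obtain ⟨h2, h3⟩ := (fib_bs z').1 hx
          rw [hne] at h3
          exact h2.1.ne_empty (Finset.subset_empty.1 h3)
        | cn σ c =>
          obtain ⟨h2, rfl, h3⟩ := (fib_cn hz.2.1 hy σ c).1 hx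
          exact Or.inr (ZT.cn_le_cn.2 ⟨Finset.empty_subset _, rfl⟩)
  have e1 : HEq' (Sd (Set.univ : Set P.Y)) (Set.univ : Set P.Y) := by
    refine HEq'.sd ⟨P.T, P.typ, fun x _ y _ h => P.typ_lt x y h, fun x _ => P.typ_le x⟩
  exact (e0.trans e1).wc.2 P.wc

end Pool.Agent.Helper59.PD
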