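import Pool.Agent.Helper59.PD.YP

/-! A walk which meets all orbits and is homotopic to the standard walk. -/

set_option autoImplicit false
set_option linter.unusedSectionVars false

open scoped Classical

namespace Pool.Agent.Helper59.PD

variable {q : ℕ} {G : Type} [Group G] {s : G} {N : ℕ}

namespace WalkE

variable (P : YPack q G s N)

/-- comparable finite sets -/
def Cm {X : Type} (a b : Finset X) : Prop := a ⊆ b ∨ b ⊆ a

theorem Cm.symm {X : Type} {a b : Finset X} (h : Cm a b) : Cm b a := Or.symm h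

theorem Cm.rfl' {X : Type} (a : Finset X) : Cm a a := Or.inl (subset_refl a)

theorem lt_iff (g : G) (x y : P.Y) : g • x < g • y ↔ x < y := by
  constructor
  · intro h
    have := P.lt g⁻¹ _ _ h
    rwa [inv_smul_smul, inv_smul_smul] at this
  · exact P.lt g x y

theorem le_smul (g : G) (x y : P.Y) (h : x ≤ y) : g • x ≤ g • y := by
  rcases h.eq_or_lt with h | h
  · rw [h]
  · exact (P.lt g _ _ h).le

theorem smul_pmax (g : G) (y : P.Y) : ¬ g • P.p < y := by
  intro h
  have := P.lt g⁻¹ _ _ h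
  rw [inv_smul_smul] at this
  exact P.pmax _ this

theorem lt_smul_p (g : G) (x : P.Y) : x < g • P.p ↔ ∃ i, x = g • P.lk i := by
  constructor
  · intro h
    have := P.lt g⁻¹ _ _ h
    rw [inv_smul_smul] at this
    obtain ⟨i, hi⟩ := (P.lk_below _).1 this
    exact ⟨i, by rw [← hi, smul_inv_smul]⟩
  · rintro ⟨i, rfl⟩
    exact P.lt g _ _ ((P.lk_below _).2 ⟨i, rfl⟩)

theorem reg_of_lt {x y : P.Y} (h : x < y) : x ∈ P.Reg := by
  intro g hg
  rw [hg] at h
  exact smul_pmax P g y h

theorem lk_reg (i : ℤ) : P.lk i ∈ P.Reg :=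
  reg_of_lt P ((P.lk_below _).2 ⟨i, rfl⟩)

theorem smul_reg (g : G) {x : P.Y} (h : x ∈ P.Reg) : g • x ∈ P.Reg := by
  intro k hk
  apply h (g⁻¹ * k)
  rw [mul_smul, ← hk, inv_smul_smul]

theorem lk_cmp (i : ℤ) : P.lk i < P.lk (i + 1) ∨ P.lk (i + 1) < P.lk i := by
  rcases Int.even_or_odd i with h | h
  · right
    have := (P.lk_lt (i + 1) (Even.add_one h)).2
    rwa [add_sub_cancel_right] at this
  · left
    exact (P.lk_lt i h).1

theorem reg_conn : Conn P.Reg := by
  refine ⟨⟨P.lk 0, lk_reg P 0⟩, ?_⟩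
  intro f hf x hx y hy
  have key : ∀ (g : G) (i : ℤ), f (g • P.lk i) ↔ f (g • P.lk (i + 1)) := by
    intro g i
    rcases lk_cmp P i with h | h
    · exact hf _ (smul_reg P g (lk_reg P _)) _ (smul_reg P g (lk_reg P _)) (P.lt g _ _ h)
    · exact (hf _ (smul_reg P g (lk_reg P _)) _ (smul_reg P g (lk_reg P _)) (P.lt g _ _ h)).symm
  have key0 : ∀ (g : G) (i : ℤ), f (g • P.lk i) ↔ f (g • P.lk 0) := by
    intro g i
    induction i using Int.induction_on with
    | zero => rfl
    | succ i ih => exact (key g i).symm.trans ih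
    | pred i ih =>
      have := key g (-(i : ℤ) - 1)
      rw [sub_add_cancel] at this
      exact this.trans ih
  have h := P.wc.2.1.2 (fun y => if y ∈ P.Reg then f y else ∃ x, x < y ∧ f x) (by
    intro x _ y _ hxy
    have hx : x ∈ P.Reg := reg_of_lt P hxy
    rw [if_pos hx]
    by_cases hy : y ∈ P.Reg
    · rw [if_pos hy]
      exact hf x hx y hy hxy
    · rw [if_neg hy]
      constructor
      · intro h
        exact ⟨x, hxy, h⟩
      · rintro ⟨x', hx', hfx'⟩
        have : ∃ g : G, y = g • P.p := by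
          by_contra hcon
          apply hy
          intro g hg
          exact hcon ⟨g, hg⟩
        obtain ⟨g, rfl⟩ := this
        obtain ⟨i, rfl⟩ := (lt_smul_p P g x).1 hxy
        obtain ⟨j, rfl⟩ := (lt_smul_p P g x').1 hx'
        exact (key0 g i).2 ((key0 g j).1 hfx'))
  have h1 := h x (Set.mem_univ _) y (Set.mem_univ _)
  rwa [if_pos hx, if_pos hy] at h1

theorem sd_conn : Conn (Sd P.Reg) :=
  (HEq'.sd ⟨P.T, P.typ, fun x _ y _ h => P.typ_lt x y h, fun x _ => P.typ_le x⟩).conn.2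
    (reg_conn P)

theorem sd_const (F : Finset P.Y → Prop)
    (hF : ∀ a ∈ Sd P.Reg, ∀ b ∈ Sd P.Reg, a ⊆ b → (F a ↔ F b)) :
    ∀ a ∈ Sd P.Reg, ∀ b ∈ Sd P.Reg, (F a ↔ F b) :=
  (sd_conn P).2 F fun a ha b hb hab => hF a ha b hb hab.le

theorem img_img (g h : G) (z : Finset P.Y) :
    (z.image (h • ·)).image (g • ·) = z.image ((g * h) • ·) := by
  rw [Finset.image_image]
  congr 1
  funext x
  exact (mul_smul g h x).symm

theorem img_one (z : Finset P.Y) : z.image ((1 : G) • ·) = z := by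
  have : (fun x : P.Y => (1 : G) • x) = id := by
    funext x
    exact one_smul G x
  rw [this, Finset.image_id]

theorem img_inv (g : G) (z : Finset P.Y) : (z.image (g • ·)).image (g⁻¹ • ·) = z := by
  rw [img_img, inv_mul_cancel, img_one]

theorem img_mem (g : G) {z : Finset P.Y} (h : z ∈ Sd P.Reg) : z.image (g • ·) ∈ Sd P.Reg := by
  obtain ⟨h1, h2, h3⟩ := h
  refine ⟨h1.image _, ?_, ?_⟩
  · intro a ha b hb hab
    rw [Finset.mem_coe, Finset.mem_image] at ha hb
    obtain ⟨a', ha', rfl⟩ := ha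
    obtain ⟨b', hb', rfl⟩ := hb
    have hne : a' ≠ b' := fun h => hab (by rw [h])
    rcases h2 (Finset.mem_coe.2 ha') (Finset.mem_coe.2 hb') hne with h | h
    · left
      exact le_smul P g _ _ h
    · right
      exact le_smul P g _ _ h
  · intro a ha
    rw [Finset.mem_coe, Finset.mem_image] at ha
    obtain ⟨a', ha', rfl⟩ := ha
    exact smul_reg P g (h3 (Finset.mem_coe.2 ha'))

theorem img_mem_iff (g : G) {z : Finset P.Y} : z.image (g • ·) ∈ Sd P.Reg ↔ z ∈ Sd P.Reg := by
  constructor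
  · intro h
    have := img_mem P g⁻¹ h
    rwa [img_inv] at this
  · exact img_mem P g

theorem img_cm (g : G) {a b : Finset P.Y} (h : Cm a b) :
    Cm (a.image (g • ·)) (b.image (g • ·)) := by
  rcases h with h | h
  · left
    exact Finset.image_subset_image h
  · right
    exact Finset.image_subset_image h

theorem one_mem_sd {x : P.Y} (hx : x ∈ P.Reg) : ({x} : Finset P.Y) ∈ Sd P.Reg := by
  refine ⟨Finset.singleton_nonempty x, ?_, ?_⟩
  · rw [Finset.coe_singleton]
    exact IsChain.singleton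
  · rw [Finset.coe_singleton]
    exact Set.singleton_subset_iff.2 hx

theorem two_mem_sd {x y : P.Y} (hx : x ∈ P.Reg) (hy : y ∈ P.Reg) (h : x < y ∨ y < x) :
    ({x, y} : Finset P.Y) ∈ Sd P.Reg := by
  refine ⟨⟨x, by simp⟩, ?_, ?_⟩
  · rw [Finset.coe_pair]
    intro a ha b hb hab
    rcases ha with rfl | ha
    · rcases hb with rfl | hb
      · exact absurd rfl hab
      · rw [Set.mem_singleton_iff.1 hb]
        exact h.imp le_of_lt le_of_lt
    · rw [Set.mem_singleton_iff.1 ha] at hab ⊢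
      rcases hb with rfl | hb
      · exact h.symm.imp le_of_lt le_of_lt
      · exact absurd (Set.mem_singleton_iff.1 hb).symm hab
  · intro a ha
    rw [Finset.coe_pair] at ha
    rcases ha with rfl | ha
    · exact hx
    · rw [Set.mem_singleton_iff.1 ha]
      exact hy

/-- paths from `{lk 0}` -/
def Pa (w : ℕ → Finset P.Y) : Prop :=
  w 0 = {P.lk 0} ∧ (∀ k, w k ∈ Sd P.Reg) ∧ ∀ k, Cm (w k) (w (k + 1))

/-- the chains which have a translate at distance at most `n` -/
def A (n : ℕ) : Set (Finset P.Y) := {z | ∃ w, Pa P w ∧ ∃ g : G, z.image (g • ·) = w n}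

theorem A_sd {n : ℕ} {z : Finset P.Y} (h : z ∈ A P n) : z ∈ Sd P.Reg := by
  obtain ⟨w, hw, g, hg⟩ := h
  rw [← img_mem_iff P g, hg]
  exact hw.2.1 n

theorem A_img {n : ℕ} {z : Finset P.Y} (h : z ∈ A P n) (k : G) : z.image (k • ·) ∈ A P n := by
  obtain ⟨w, hw, g, hg⟩ := h
  refine ⟨w, hw, g * k⁻¹, ?_⟩
  rw [img_img, inv_mul_cancel_right]
  exact hg

theorem A_img_iff {n : ℕ} {z : Finset P.Y} (k : G) : z.image (k • ·) ∈ A P n ↔ z ∈ A P n := by
  constructor
  · intro h
    have := A_img P h k⁻¹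
    rwa [img_inv] at this
  · intro h
    exact A_img P h k

theorem A_step {n : ℕ} {a b : Finset P.Y} (h : a ∈ A P n) (hb : b ∈ Sd P.Reg) (hab : Cm a b) :
    b ∈ A P (n + 1) := by
  obtain ⟨w, hw, g, hg⟩ := h
  refine ⟨fun k => if k ≤ n then w k else b.image (g • ·), ⟨?_, ?_, ?_⟩, g, ?_⟩
  · dsimp only
    rw [if_pos (Nat.zero_le _)]
    exact hw.1
  · intro k
    dsimp only
    split_ifs
    · exact hw.2.1 k
    · exact img_mem P g hb
  · intro k
    dsimp only
    by_cases h1 : k + 1 ≤ n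
    · rw [if_pos (by omega), if_pos h1]
      exact hw.2.2 k
    · rw [if_neg h1]
      by_cases h2 : k ≤ n
      · rw [if_pos h2]
        have : k = n := by omega
        rw [this, ← hg]
        exact img_cm P g hab
      · rw [if_neg h2]
        exact Cm.rfl' _
  · dsimp only
    rw [if_neg (by omega)]

theorem A_mono (n : ℕ) : A P n ⊆ A P (n + 1) := by
  intro z hz
  exact A_step P hz (A_sd P hz) (Cm.rfl' _)

theorem z0_A (n : ℕ) : ({P.lk 0} : Finset P.Y) ∈ A P n :=
  ⟨fun _ => {P.lk 0}, ⟨rfl, fun _ => one_mem_sd P (lk_reg P 0), fun _ => Cm.rfl' _⟩, 1,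
    img_one P _⟩

theorem A_full {n : ℕ} (h : A P (n + 1) ⊆ A P n) : Sd P.Reg ⊆ A P n := by
  have h1 := sd_const P (fun z => z ∈ A P n) (by
    intro a ha b hb hab
    constructor
    · intro h2
      exact h (A_step P h2 hb (Or.inl hab))
    · intro h2
      exact h (A_step P h2 ha (Or.inr hab)))
  intro z hz
  exact (h1 _ (one_mem_sd P (lk_reg P 0)) _ hz).1 (z0_A P n)

theorem A_count (O : Finset (Finset P.Y))
    (hO : ∀ z ∈ Sd P.Reg, ∃ g : G, z.image (g • ·) ∈ O) (n : ℕ) :
    Sd P.Reg ⊆ A P n ∨ n + 1 ≤ (O.filter (· ∈ A P n)).card := by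
  induction n with
  | zero =>
    right
    obtain ⟨g, hg⟩ := hO _ (one_mem_sd P (lk_reg P 0))
    rw [Nat.succ_le_iff, Finset.card_pos]
    exact ⟨_, Finset.mem_filter.2 ⟨hg, A_img P (z0_A P 0) g⟩⟩
  | succ n ih =>
    rcases ih with ih | ih
    · left
      exact ih.trans (A_mono P n)
    · by_cases h : A P (n + 1) ⊆ A P n
      · left
        exact (A_full P h).trans (A_mono P n)
      · right
        rw [Set.not_subset] at h
        obtain ⟨z, hz1, hz2⟩ := h
        obtain ⟨g, hg⟩ := hO z (A_sd P hz1)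
        have : (O.filter (· ∈ A P n)).card < (O.filter (· ∈ A P (n + 1))).card := by
          apply Finset.card_lt_card
          rw [Finset.ssubset_iff_of_subset]
          · refine ⟨z.image (g • ·), Finset.mem_filter.2 ⟨hg, A_img P hz1 g⟩, ?_⟩
            intro h
            exact hz2 ((A_img_iff P g).1 (Finset.mem_filter.1 h).2)
          · intro o ho
            rw [Finset.mem_filter] at ho ⊢
            exact ⟨ho.1, A_mono P n ho.2⟩
        omega

theorem exists_paths : 0 < N ∧ ∃ w : ℕ → ℕ → Finset P.Y, (∀ k, Pa P (w k)) ∧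
    ∀ z ∈ Sd P.Reg, ∃ k, k < N ∧ ∃ g : G, z.image (g • ·) = w k N := by
  obtain ⟨O, hON, hO'⟩ := P.orb
  have hO : ∀ z ∈ Sd P.Reg, ∃ g : G, z.image (g • ·) ∈ O := by
    rintro z ⟨h1, h2, h3⟩
    exact hO' z h1 h2 fun y hy h => h3 (Finset.mem_coe.2 hy) h
  have hN : Sd P.Reg ⊆ A P N := by
    rcases A_count P O hO N with h | h
    · exact h
    · exfalso
      have := Finset.card_filter_le O (· ∈ A P N)
      omega
  have hN0 : 0 < N := by
    obtain ⟨g, hg⟩ := hO _ (one_mem_sd P (lk_reg P 0))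
    have := Finset.card_pos.2 ⟨_, hg⟩
    omega
  refine ⟨hN0, ?_⟩
  have hw : ∀ z : Finset P.Y, ∃ w, Pa P w ∧ (z ∈ Sd P.Reg → ∃ g : G, z.image (g • ·) = w N) := by
    intro z
    by_cases hz : z ∈ Sd P.Reg
    · obtain ⟨w, hw, g, hg⟩ := hN hz
      exact ⟨w, hw, fun _ => ⟨g, hg⟩⟩
    · exact ⟨fun _ => {P.lk 0}, ⟨rfl, fun _ => one_mem_sd P (lk_reg P 0), fun _ => Cm.rfl' _⟩,
        fun h => absurd h hz⟩
  choose w hw1 hw2 using hw
  refine ⟨fun k => w (O.toList.getD k ∅), fun k => hw1 _, ?_⟩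
  intro z hz
  obtain ⟨g, hg⟩ := hO z hz
  have h1 : z.image (g • ·) ∈ O.toList := Finset.mem_toList.2 hg
  obtain ⟨k, hk, hk2⟩ := List.mem_iff_getElem.1 h1
  refine ⟨k, ?_, ?_⟩
  · rw [Finset.length_toList] at hk
    omega
  · have h2 : O.toList.getD k ∅ = z.image (g • ·) := by
      rw [List.getD_eq_getElem _ _ hk, hk2]
    obtain ⟨g', hg'⟩ := hw2 (O.toList.getD k ∅) (by
      rw [h2]
      exact img_mem P g hz)
    refine ⟨g' * g, ?_⟩
    dsimp only
    rw [← hg', ← img_img]
    rw [h2]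

/-! ### walks -/

theorem isWalk_of (W : ℕ → Finset P.Y) (h1 : ∀ n, W n ∈ Sd P.Reg)
    (h2 : ∀ n, n ≤ q → Cm (W n) (W (n + 1))) (h3 : Cm (W (q + 1)) ((W 0).image (s • ·))) :
    P.IsWalk fun i => W i.val := by
  refine ⟨fun i => h1 _, ?_⟩
  rintro ⟨g, i⟩
  change Cm ((W i.val).image (g • ·))
    ((W (i + 1).val).image ((if i = -1 then g * s else g) • ·))
  by_cases hi : i = -1
  · rw [if_pos hi, hi]
    have e1 : ((-1 : ZMod (q + 2)) + 1).val = 0 := by simp
    have e2 : (-1 : ZMod (q + 2)).val = q + 1 := ZMod.val_neg_one (q + 1)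
    rw [e1, e2, ← img_img]
    exact img_cm P g h3
  · rw [if_neg hi, zval_add_one i hi]
    apply img_cm P g
    apply h2
    have h4 := ZMod.val_lt i
    have h5 : i.val ≠ q + 1 := by
      intro h
      apply hi
      have e2 : (-1 : ZMod (q + 2)).val = q + 1 := ZMod.val_neg_one (q + 1)
      rw [← e2] at h
      exact ZMod.val_injective _ h
    omega

theorem W0_nonpos (j : ℤ) (h : j ≤ 0) : P.W0 j = {P.lk 0} := by
  unfold YPack.W0
  rw [if_pos h]

theorem W0_even (j : ℤ) (h : 0 ≤ j) : P.W0 (2 * j) = {P.lk j} := by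
  unfold YPack.W0
  split_ifs with h1 h2
  · have : j = 0 := by omega
    rw [this]
  · have : 2 * j / 2 = j := by omega
    rw [this]
  · exact absurd (even_two_mul j) h2

theorem W0_odd (j : ℤ) (h : 0 ≤ j) : P.W0 (2 * j + 1) = {P.lk j, P.lk (j + 1)} := by
  unfold YPack.W0
  split_ifs with h1 h2
  · omega
  · have : Odd (2 * j + 1) := odd_two_mul_add_one j
    exact absurd h2 (Int.not_even_iff_odd.2 this)
  · have : (2 * j + 1) / 2 = j := by omega
    rw [this]

theorem W0_mem (j : ℤ) : P.W0 j ∈ Sd P.Reg := by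
  rcases le_total j 0 with h | h
  · rw [W0_nonpos P j h]
    exact one_mem_sd P (lk_reg P 0)
  · rcases Int.even_or_odd' j with ⟨k, hk | hk⟩
    · rw [hk, W0_even P k (by omega)]
      exact one_mem_sd P (lk_reg P k)
    · rw [hk, W0_odd P k (by omega)]
      exact two_mem_sd P (lk_reg P _) (lk_reg P _) (lk_cmp P k)

theorem W0_cm (j : ℤ) : Cm (P.W0 j) (P.W0 (j + 1)) := by
  rcases le_or_gt 0 j with h | h
  · rcases Int.even_or_odd' j with ⟨k, hk | hk⟩
    · rw [hk, W0_even P k (by omega), W0_odd P k (by omega)]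
      left
      intro a ha
      simp only [Finset.mem_singleton] at ha
      simp [ha]
    · have e : j + 1 = 2 * (k + 1) := by omega
      rw [e, hk, W0_even P (k + 1) (by omega), W0_odd P k (by omega)]
      right
      intro a ha
      simp only [Finset.mem_singleton] at ha
      simp [ha]
  · rw [W0_nonpos P j h.le, W0_nonpos P (j + 1) (by omega)]
    exact Cm.rfl' _

/-- the walk with heights `H` -/
noncomputable def WH (w : ℕ → ℕ → Finset P.Y) (H : ℕ → ℕ) (n : ℕ) : Finset P.Y :=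
  if (n : ℤ) ≤ (q : ℤ) - 6 then
    w (n / (2 * N)) (min (min (n % (2 * N)) (2 * N - n % (2 * N))) (H (n / (2 * N))))
  else P.W0 ((n : ℤ) - (q - 6 : ℤ))

theorem path_cm {w : ℕ → Finset P.Y} (hw : Pa P w) (a b : ℕ) (h : a ≤ b + 1) (h' : b ≤ a + 1) :
    Cm (w a) (w b) := by
  have h3 : a = b ∨ b = a + 1 ∨ a = b + 1 := by omega
  rcases h3 with h3 | h3 | h3
  · rw [h3]
    exact Cm.rfl' _
  · rw [h3]
    exact hw.2.2 a
  · rw [h3]
    exact (hw.2.2 b).symm

section

variable {w : ℕ → ℕ → Finset P.Y} (hw : ∀ k, Pa P (w k)) (hN : 0 < N)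
  (hq : 2 * N * (N + 1) + 20 ≤ q)

include hw hN hq

theorem WH_mem (H : ℕ → ℕ) (n : ℕ) : WH P w H n ∈ Sd P.Reg := by
  unfold WH
  split_ifs
  · exact (hw _).2.1 _
  · exact W0_mem P _

theorem big_div (n : ℕ) (h : 2 * N * (N + 1) ≤ n) : N + 1 ≤ n / (2 * N) := by
  rw [Nat.le_div_iff_mul_le (by omega), mul_comm]
  exact h

theorem WH_cm (H : ℕ → ℕ) (hH : ∀ k, N ≤ k → H k = 0) (n : ℕ) :
    Cm (WH P w H n) (WH P w H (n + 1)) := by
  unfold WH
  by_cases h1 : ((n + 1 : ℕ) : ℤ) ≤ (q : ℤ) - 6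
  · have h0 : (n : ℤ) ≤ (q : ℤ) - 6 := by push_cast at h1; omega
    rw [if_pos h1, if_pos h0]
    have hd := Nat.div_add_mod n (2 * N)
    have hm : n % (2 * N) < 2 * N := Nat.mod_lt _ (by omega)
    generalize hk : n / (2 * N) = k at *
    generalize ht : n % (2 * N) = t at *
    by_cases h2 : t + 1 < 2 * N
    · have e1 : (n + 1) / (2 * N) = k := by
        rw [← hd, add_assoc, Nat.mul_add_div (by omega), Nat.div_eq_of_lt h2, add_zero]
      have e2 : (n + 1) % (2 * N) = t + 1 := by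
        rw [← hd, add_assoc, Nat.mul_add_mod, Nat.mod_eq_of_lt h2]
      rw [e1, e2]
      apply path_cm P (hw k) <;> omega
    · have h3 : t + 1 = 2 * N := by omega
      have e1 : (n + 1) / (2 * N) = k + 1 := by
        rw [← hd, add_assoc, h3, Nat.mul_add_div (by omega), Nat.div_self (by omega)]
      have e2 : (n + 1) % (2 * N) = 0 := by
        rw [← hd, add_assoc, h3, Nat.mul_add_mod, Nat.mod_self]
      rw [e1, e2]
      have e3 : min (min 0 (2 * N - 0)) (H (k + 1)) = 0 := by omega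
      rw [e3, (hw (k + 1)).1, ← (hw k).1]
      apply path_cm P (hw k) <;> omega
  · rw [if_neg h1]
    by_cases h0 : (n : ℤ) ≤ (q : ℤ) - 6
    · rw [if_pos h0]
      have hn : (n : ℤ) = (q : ℤ) - 6 := by push_cast at h1; omega
      have h4 : N + 1 ≤ n / (2 * N) := big_div P hw hN hq n (by omega)
      have e3 : min (min (n % (2 * N)) (2 * N - n % (2 * N))) (H (n / (2 * N))) = 0 := by
        rw [hH _ (by omega)]
        omega
      rw [e3, (hw _).1]
      have e4 : ((n + 1 : ℕ) : ℤ) - (q - 6 : ℤ) = 0 + 1 := by push_cast; omega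
      rw [e4, ← W0_nonpos P 0 le_rfl]
      exact W0_cm P 0
    · rw [if_neg h0]
      have e4 : ((n + 1 : ℕ) : ℤ) - (q - 6 : ℤ) = (n : ℤ) - (q - 6 : ℤ) + 1 := by push_cast; ring
      rw [e4]
      exact W0_cm P _

theorem WH_zero (H : ℕ → ℕ) : WH P w H 0 = {P.lk 0} := by
  unfold WH
  rw [if_pos (by push_cast; omega)]
  have e3 : min (min (0 % (2 * N)) (2 * N - 0 % (2 * N))) (H (0 / (2 * N))) = 0 := by
    rw [Nat.zero_mod]
    omega
  rw [e3, (hw _).1]

theorem WH_last (H : ℕ → ℕ) : WH P w H (q + 1) = {P.lk 3, P.lk 4} := by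
  unfold WH
  rw [if_neg (by push_cast; omega)]
  have e4 : ((q + 1 : ℕ) : ℤ) - (q - 6 : ℤ) = 2 * 3 + 1 := by push_cast; ring
  rw [e4, W0_odd P 3 (by norm_num)]
  norm_num

theorem WH_walk (H : ℕ → ℕ) (hH : ∀ k, N ≤ k → H k = 0) :
    P.IsWalk fun i => WH P w H i.val := by
  apply isWalk_of P
  · exact WH_mem P hw hN hq H
  · intro n _
    exact WH_cm P hw hN hq H hH n
  · rw [WH_zero P hw hN hq, WH_last P hw hN hq, Finset.image_singleton, ← P.lk_smul 0]
    right
    intro a ha
    simp only [Finset.mem_singleton, zero_add] at ha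
    simp [ha]

theorem WH_std (H : ℕ → ℕ) (hH : ∀ k, H k = 0) : (fun i : ZMod (q + 2) => WH P w H i.val) = P.std := by
  funext i
  unfold WH YPack.std
  split_ifs with h
  · rw [hH, Nat.min_zero, (hw _).1, W0_nonpos P _ (by omega)]
  · rfl

theorem WH_step (H : ℕ → ℕ) (hH : ∀ k, N ≤ k → H k = 0) (j : ℕ) (hj : j < N) :
    P.Homot (fun i => WH P w H i.val) (fun i => WH P w (Function.update H j (H j + 1)) i.val) := by
  have hH' : ∀ k, N ≤ k → Function.update H j (H j + 1) k = 0 := by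
    intro k hk
    rw [Function.update_of_ne (by omega)]
    exact hH k hk
  have key : ∀ n : ℕ, WH P w H n = WH P w (Function.update H j (H j + 1)) n ∨
      (WH P w H n = w j (H j) ∧ WH P w (Function.update H j (H j + 1)) n = w j (H j + 1)) := by
    intro n
    unfold WH
    by_cases h : (n : ℤ) ≤ (q : ℤ) - 6
    · rw [if_pos h, if_pos h]
      by_cases hn : n / (2 * N) = j
      · rw [hn, Function.update_self]
        by_cases h5 : min (n % (2 * N)) (2 * N - n % (2 * N)) ≤ H j
        · left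
          rw [min_eq_left h5, min_eq_left (h5.trans (Nat.le_succ _))]
        · right
          rw [min_eq_right (by omega), min_eq_right (by omega)]
          exact ⟨rfl, rfl⟩
      · left
        rw [Function.update_of_ne hn]
    · left
      rw [if_neg h, if_neg h]
  rcases (hw j).2.2 (H j) with h | h
  · apply Relation.EqvGen.rel
    refine ⟨WH_walk P hw hN hq H hH, WH_walk P hw hN hq _ hH', ?_⟩
    intro i
    rcases key i.val with h1 | ⟨h1, h2⟩
    · exact (le_of_eq h1 :)
    · dsimp only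
      rw [h1, h2]
      exact h
  · apply Relation.EqvGen.symm
    apply Relation.EqvGen.rel
    refine ⟨WH_walk P hw hN hq _ hH', WH_walk P hw hN hq H hH, ?_⟩
    intro i
    rcases key i.val with h1 | ⟨h1, h2⟩
    · exact (le_of_eq h1.symm :)
    · dsimp only
      rw [h1, h2]
      exact h

/-- the heights: `N` before `j`, `r` at `j`, `0` after `j` -/
def Hjr (N j r k : ℕ) : ℕ := if k < j then N else if k = j then r else 0

omit hw hN hq in
theorem Hjr_succ (j r : ℕ) : Function.update (Hjr N j r) j (Hjr N j r j + 1) = Hjr N j (r + 1) := by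
  funext k
  by_cases hk : k = j
  · rw [hk, Function.update_self]
    unfold Hjr
    rw [if_neg (by omega), if_pos rfl, if_neg (by omega), if_pos rfl]
  · rw [Function.update_of_ne hk]
    unfold Hjr
    rw [if_neg hk, if_neg hk]

omit hw hN hq in
theorem Hjr_next (j : ℕ) : Hjr N (j + 1) 0 = Hjr N j N := by
  funext k
  unfold Hjr
  split_ifs <;> omega

omit hw hN hq in
theorem Hjr_big (j r k : ℕ) (h : j < k) : Hjr N j r k = 0 := by
  unfold Hjr
  rw [if_neg (by omega), if_neg (by omega)]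

theorem homot_r (j : ℕ) (hj : j < N) (r : ℕ) :
    P.Homot (fun i => WH P w (Hjr N j 0) i.val) (fun i => WH P w (Hjr N j r) i.val) := by
  induction r with
  | zero => exact Relation.EqvGen.refl _
  | succ r ih =>
    refine Relation.EqvGen.trans _ _ _ ih ?_
    have := WH_step P hw hN hq (Hjr N j r) (fun k hk => Hjr_big j r k (by omega)) j hj
    rwa [Hjr_succ] at this

theorem homot_j (j : ℕ) (hj : j ≤ N) :
    P.Homot (fun i => WH P w (Hjr N 0 0) i.val) (fun i => WH P w (Hjr N j 0) i.val) := by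
  induction j with
  | zero => exact Relation.EqvGen.refl _
  | succ j ih =>
    refine Relation.EqvGen.trans _ _ _ (ih (by omega)) ?_
    rw [Hjr_next]
    exact homot_r P hw hN hq j (by omega) N

end

end WalkE

open WalkE in
theorem YPack.exists_walk (P : YPack q G s N) (hq : 2 * N * (N + 1) + 20 ≤ q) (hs : s ^ q = 1) :
    ∃ y : ZMod (q + 2) → Finset P.Y, P.IsWalk y ∧ P.Covers y ∧ P.Homot y P.std := by
  obtain ⟨hN, w, hw, hcov⟩ := exists_paths P
  refine ⟨fun i => WH P w (Hjr N N 0) i.val, ?_, ?_, ?_⟩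
  · apply WH_walk P hw hN hq
    intro k hk
    unfold Hjr
    split_ifs <;> omega
  · intro z hz
    obtain ⟨k, hk, g, hg⟩ := hcov z hz
    have hb : 2 * N * k + N + 20 ≤ q := by
      have : 2 * N * (k + 1) ≤ 2 * N * (N + 1) := Nat.mul_le_mul_left _ (by omega)
      rw [Nat.mul_add, mul_one] at this
      omega
    refine ⟨(g⁻¹, ((2 * N * k + N : ℕ) : ZMod (q + 2))), ?_⟩
    change ((WH P w (Hjr N N 0) ((2 * N * k + N : ℕ) : ZMod (q + 2)).val).image (g⁻¹ • ·)) = z
    rw [ZMod.val_cast_of_lt (by omega)]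
    have e1 : (2 * N * k + N) / (2 * N) = k := by
      rw [Nat.mul_add_div (by omega), Nat.div_eq_of_lt (by omega), add_zero]
    have e2 : (2 * N * k + N) % (2 * N) = N := by
      rw [Nat.mul_add_mod, Nat.mod_eq_of_lt (by omega)]
    have e3 : WH P w (Hjr N N 0) (2 * N * k + N) = w k N := by
      unfold WH
      rw [if_pos (by omega), e1, e2]
      have : Hjr N N 0 k = N := by
        unfold Hjr
        rw [if_pos hk]
      rw [this]
      congr 1
      omega
    rw [e3, ← hg, img_inv]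
  · apply Relation.EqvGen.symm
    have h1 := homot_j P hw hN hq N le_rfl
    rwa [WH_std P hw hN hq (Hjr N 0 0) (by
      intro k
      unfold Hjr
      split_ifs <;> omega)] at h1

end Pool.Agent.Helper59.PD
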