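import Pool.Agent.Helper59.PD.WalkA
import Pool.Agent.Helper59.PD.WalkB
import Pool.Agent.Helper59.PD.WalkC
import Pool.Agent.Helper59.PD.WalkD
import Pool.Agent.Helper59.PD.WalkE

/-! Labelled complexes from contractible posets. -/

set_option autoImplicit false

open scoped Classical

namespace Pool.Agent.Helper59.PD

variable {q : ℕ} {G : Type} [Group G] {s : G} {N : ℕ}

theorem YPack.exists_wc (P : YPack q G s N) (hq : q.Prime) (hqN : 2 * N * (N + 1) + 20 ≤ q)
    (hs : s ^ q = 1) (hs1 : s ≠ 1) : ∃ L : LCx q G s, WC (AA L) := by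
  obtain ⟨y, hy, hc, hh⟩ := P.exists_walk hqN hs
  obtain ⟨L, hL⟩ := P.exists_LCx hq (by omega) hs hs1 y hy hc
  exact ⟨L, (P.AA_heq y hy hc L hL).wc.2 ((P.ZS_homot hs hh).wc.2
    (P.ZS_std hq (by omega) hs hs1))⟩

end Pool.Agent.Helper59.PD
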