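import Pool.Agent.Helper59.PD.Big4
import Pool.Agent.Helper59.PD.LcOrbi
import Pool.Agent.Helper59.PD.WalkF
import Pool.Agent.Helper59.PD.HFinal

/-! The main theorem. -/

set_option autoImplicit false

namespace Pool.Agent.Helper59.PD

open Pool.Agent.Helper59.PDC

universe u

theorem main : ∃ (n : ℕ) (π X : Type) (_ : Group π) (_ : PartialOrder X) (_ : MulAction π X),
    Even n ∧ 4 ≤ n ∧ IsPDCover.{u} n π X ∧
    ∀ N : Subgroup π, N.FiniteIndex → ∃ g ∈ N, g ≠ 1 ∧ IsOfFinOrder g := by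
  obtain ⟨N, hN⟩ := exists_tower
  obtain ⟨q, hq1, hq⟩ := Nat.exists_infinite_primes (2 * N * (N + 1) + 20)
  obtain ⟨G, _, s, hs, hs1, hG, ⟨P⟩⟩ := hN q hq (by omega)
  obtain ⟨L, hL⟩ := P.exists_wc hq hq1 hs hs1
  have hodd : Odd q := hq.odd_of_ne_two (by omega)
  obtain ⟨π, X, i1, i2, i3, h1, h2⟩ := (L.orbi hL).davis s hs1 q hodd hs hG
  exact ⟨q + 1, π, X, i1, i2, i3, hodd.add_one, by omega, h1, h2⟩

end Pool.Agent.Helper59.PD
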