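import Pool.Agent.Helper59.PD.Ori_Flag

/-! Orientations, part 2: ridges, top-dimensional cycles of intervals. -/

set_option autoImplicit false

namespace Pool.Agent.Helper59.PD

noncomputable section

namespace Ori

open scoped Classical

variable {n : ℕ} {X : Type} [PartialOrder X]

theorem sph_Iv (H : HM n X) {a b : Option X} (hc : Cmp a b) (h : a ≠ none ∨ b ≠ none) :
    Sph (Iv a b) (hr H b - lr H a) := by
  rcases a with _ | x <;> rcases b with _ | y
  · simp at h
  · rw [Iv_none_some]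
    simpa [lr, hr] using H.down y
  · rw [Iv_some_none]
    simpa [lr, hr] using H.up x
  · rw [Iv_some_some]
    have := H.btw x y (hc x rfl y rfl)
    simpa [lr, hr, Nat.sub_add_eq] using this

theorem two_Iv (H : HM n X) {a b : Option X} (hc : Cmp a b) (h : a ≠ none ∨ b ≠ none)
    (hk : lr H a + 1 = hr H b) :
    ∃ p ∈ Iv a b, ∃ q ∈ Iv a b, p ≠ q ∧ ∀ t ∈ Iv a b, t = p ∨ t = q := by
  apply two_of_sph
  · have := sph_Iv H hc h
    rwa [← hk, Nat.add_sub_cancel_left] at this
  · intro x hx y hy hxy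
    have hm : [x, y] ∈ cs (Iv a b) 2 := by
      rw [cons_mem, cons_mem]
      exact ⟨hx, (mem_Iv_right hx).2 ⟨hy, hxy⟩, by simp, by simp, rfl⟩
    have := len_le H hm hc
    omega

/-- every ridge has exactly two completions -/
theorem ridge (H : HM n X) {b : Option X} : ∀ {l : List X} {a : Option X} {k : ℕ},
    l ∈ cs (Iv a b) k → Cmp a b → (a ≠ none ∨ b ≠ none) → lr H a + k + 1 = hr H b →
    ∃ u w p q, l = u ++ w ∧ p ≠ q ∧ (u ++ p :: w) ∈ cs (Iv a b) (k + 1) ∧
      (u ++ q :: w) ∈ cs (Iv a b) (k + 1) ∧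
      ∀ u' z w', l = u' ++ w' → (u' ++ z :: w') ∈ cs (Iv a b) (k + 1) →
        u' = u ∧ w' = w ∧ (z = p ∨ z = q)
  | [], a, k, h, hc, hne, hk => by
    have hk0 : k = 0 := h.2.2.symm
    subst hk0
    obtain ⟨p, hp, q, hq, hpq, hall⟩ := two_Iv H hc hne hk
    refine ⟨[], [], p, q, rfl, hpq, ?_, ?_, ?_⟩
    · exact cons_mem.2 ⟨hp, by simp, by simp, rfl⟩
    · exact cons_mem.2 ⟨hq, by simp, by simp, rfl⟩
    · intro u' z w' h1 h2
      have h3 : u' = [] ∧ w' = [] := by simpa using h1.symm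
      obtain ⟨rfl, rfl⟩ := h3
      exact ⟨rfl, rfl, hall z (cons_mem.1 h2).1⟩
  | y :: l, a, k, h, hc, hne, hk => by
    have hk0 : k = l.length + 1 := h.2.2.symm
    generalize l.length = k' at hk0
    subst hk0
    obtain ⟨hy, hl⟩ := cons_mem.1 h
    have h1 := len_le H hl (Cmp.right hy)
    have h2 := lr_le_rk H hy
    have h3 : lr H (some y) = H.rk y + 1 := rfl
    have h3' : hr H (some y) = H.rk y := rfl
    by_cases h4 : H.rk y = lr H a
    · obtain ⟨u, w, p, q, e1, e2, e3, e4, e5⟩ :=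
        ridge H hl (Cmp.right hy) (Or.inl (by simp)) (by omega)
      refine ⟨y :: u, w, p, q, by rw [e1]; rfl, e2, cons_mem.2 ⟨hy, e3⟩, cons_mem.2 ⟨hy, e4⟩, ?_⟩
      intro u' z w' h5 h6
      rcases u' with _ | ⟨y', u'⟩
      · exfalso
        simp only [List.nil_append] at h5 h6
        subst h5
        obtain ⟨h7, h8⟩ := cons_mem.1 h6
        have h9 : z < y := (cons_mem.1 h8).1.1 z rfl
        have := H.rk_lt _ _ h9
        have := lr_le_rk H h7
        omega
      · simp only [List.cons_append, List.cons.injEq] at h5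
        obtain ⟨rfl, h5⟩ := h5
        obtain ⟨h7, h8⟩ := cons_mem.1 h6
        obtain ⟨f1, f2, f3⟩ := e5 u' z w' h5 h8
        exact ⟨by rw [f1], f2, f3⟩
    · have h5 : H.rk y = lr H a + 1 := by omega
      obtain ⟨p, hp, q, hq, hpq, hall⟩ := two_Iv H (Cmp.left hy) (Or.inr (by simp)) (by omega)
      have key : ∀ t ∈ Iv a (some y), (t :: y :: l) ∈ cs (Iv a b) (k' + 1 + 1) := by
        intro t ht
        obtain ⟨t1, t2⟩ := (mem_Iv_left hy).1 ht
        exact cons_mem.2 ⟨t1, cons_mem.2 ⟨(mem_Iv_right t1).2 ⟨hy, t2⟩, hl⟩⟩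
      refine ⟨[], y :: l, p, q, rfl, hpq, key p hp, key q hq, ?_⟩
      intro u' z w' h6 h7
      rcases u' with _ | ⟨y', u'⟩
      · simp only [List.nil_append] at h6 h7
        subst h6
        obtain ⟨h8, h9⟩ := cons_mem.1 h7
        have h9 : z < y := (cons_mem.1 h9).1.1 z rfl
        exact ⟨rfl, rfl, hall z ((mem_Iv_left hy).2 ⟨h8, h9⟩)⟩
      · exfalso
        simp only [List.cons_append, List.cons.injEq] at h6
        obtain ⟨rfl, h6⟩ := h6
        obtain ⟨h8, h9⟩ := cons_mem.1 h7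
        have := len_le H h9 (Cmp.right hy)
        omega

theorem erase_mem {S : Set X} {u w : List X} {p : X} {k : ℕ}
    (h : (u ++ p :: w) ∈ cs S (k + 1)) : (u ++ w) ∈ cs S k := by
  obtain ⟨h1, h2, h3⟩ := h
  have hs : (u ++ w).Sublist (u ++ p :: w) := by simp
  refine ⟨h1.sublist hs, fun x hx => h2 x (hs.subset hx), ?_⟩
  simp only [List.length_append, List.length_cons] at h3 ⊢
  omega

/-- the boundary at a ridge -/
theorem d_ridge (H : HM n X) {a b : Option X} (hc : Cmp a b) (hne : a ≠ none ∨ b ≠ none)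
    {k : ℕ} (hk : lr H a + k + 1 = hr H b) {c : Ch X} (hcm : c ∈ CC (Iv a b) (k + 1))
    {u w : List X} {p q : X} (hpq : p ≠ q) (hp : (u ++ p :: w) ∈ cs (Iv a b) (k + 1))
    (hq : (u ++ q :: w) ∈ cs (Iv a b) (k + 1)) :
    (d c) (u ++ w) = (-1) ^ u.length * (c (u ++ p :: w) + c (u ++ q :: w)) := by
  obtain ⟨u0, w0, p0, q0, e1, e2, e3, e4, e5⟩ := ridge H (erase_mem hp) hc hne hk
  obtain ⟨f1, f2, f3⟩ := e5 u p w rfl hp
  obtain ⟨-, -, f4⟩ := e5 u q w rfl hq
  subst f1 f2
  rw [d_apply]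
  have hsub : ∀ l ∈ c.support, l ∉ ({u ++ p :: w, u ++ q :: w} : Finset (List X)) →
      c l * (dl l) (u ++ w) = 0 := by
    intro l hl hl2
    by_contra hcon
    have h1 : (dl l) (u ++ w) ≠ 0 := right_ne_zero_of_mul hcon
    obtain ⟨u', z, w', rfl, h2⟩ := dl_apply_ne h1
    have h3 : (u' ++ z :: w') ∈ cs (Iv a b) (k + 1) := (Finsupp.mem_supported _ _).1 hcm hl
    obtain ⟨rfl, rfl, h4⟩ := e5 u' z w' h2 h3
    apply hl2
    rw [Finset.mem_insert, Finset.mem_singleton]
    have : z = p ∨ z = q := by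
      rcases f3 with h6 | h6 <;> rcases f4 with h7 | h7
      · exact absurd (h6.trans h7.symm) hpq
      · rw [h6, h7]; exact h4
      · rw [h6, h7]; exact h4.symm
      · exact absurd (h6.trans h7.symm) hpq
    rcases this with rfl | rfl
    · exact Or.inl rfl
    · exact Or.inr rfl
  have h1 : ∑ l ∈ c.support, c l * (dl l) (u ++ w)
      = ∑ l ∈ c.support ∪ {u ++ p :: w, u ++ q :: w}, c l * (dl l) (u ++ w) := by
    apply Finset.sum_subset Finset.subset_union_left
    intro l _ hl
    rw [Finsupp.notMem_support_iff.1 hl, zero_mul]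
  have h2 : ∑ l ∈ ({u ++ p :: w, u ++ q :: w} : Finset (List X)), c l * (dl l) (u ++ w)
      = ∑ l ∈ c.support ∪ {u ++ p :: w, u ++ q :: w}, c l * (dl l) (u ++ w) := by
    apply Finset.sum_subset Finset.subset_union_right
    intro l hl hl2
    rcases Finset.mem_union.1 hl with hl | hl
    · exact hsub l hl hl2
    · exact absurd hl hl2
  rw [h1, ← h2, Finset.sum_pair]
  · rw [dl_apply_of u p w hp.1, dl_apply_of u q w hq.1]
    ring
  · intro h
    have := List.append_cancel_left h
    exact hpq (List.cons.inj this).1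

/-- a function on full flags which changes sign under flips -/
def AltOn (S : Set X) (K : ℕ) (f : List X → ℤ) : Prop :=
  ∀ u w p q, p ≠ q → (u ++ p :: w) ∈ cs S K → (u ++ q :: w) ∈ cs S K →
    f (u ++ p :: w) = - f (u ++ q :: w)

theorem cycle_of_alt (H : HM n X) {a b : Option X} (hc : Cmp a b) (hne : a ≠ none ∨ b ≠ none)
    {K : ℕ} (hK : lr H a + K = hr H b) {c : Ch X} (hcm : c ∈ CC (Iv a b) K)
    (h : AltOn (Iv a b) K c) : d c = 0 := by
  rcases K with _ | k
  · exact d_zero hcm
  · ext ψ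
    by_cases hψ : ψ ∈ cs (Iv a b) k
    · obtain ⟨u, w, p, q, rfl, hpq, hp, hq, -⟩ := ridge H hψ hc hne (by omega)
      rw [d_ridge H hc hne (by omega) hcm hpq hp hq, h u w p q hpq hp hq]
      simp
    · exact apply_eq_zero (d_mem hcm) hψ

theorem alt_of_cycle (H : HM n X) {a b : Option X} (hc : Cmp a b) (hne : a ≠ none ∨ b ≠ none)
    {K : ℕ} (hK : lr H a + K = hr H b) {c : Ch X} (hcm : c ∈ CC (Iv a b) K)
    (h : d c = 0) : AltOn (Iv a b) K c := by
  intro u w p q hpq hp hq
  rcases K with _ | k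
  · exact absurd hp.2.2 (by simp)
  · have := d_ridge H hc hne (by omega) hcm hpq hp hq
    rw [h, Finsupp.zero_apply] at this
    have h2 : ((-1 : ℤ)) ^ u.length ≠ 0 := pow_ne_zero _ (by norm_num)
    have h3 := (mul_eq_zero.1 this.symm).resolve_left h2
    omega

theorem finite_Iv (H : HM n X) {a b : Option X} (hne : a ≠ none ∨ b ≠ none) : (Iv a b).Finite := by
  rcases a with _ | x
  · rcases b with _ | y
    · simp at hne
    · refine (H.locfin y).subset fun t ht => Or.inl (le_of_lt (ht.2 y rfl))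
  · refine (H.locfin x).subset fun t ht => Or.inr (le_of_lt (ht.1 x rfl))

theorem finite_cs {S : Set X} (hS : S.Finite) (K : ℕ) : (cs S K).Finite := by
  have : Finite S := hS
  have h1 : {l : List S | l.length = K}.Finite := List.finite_length_eq S K
  refine (h1.image (List.map (Subtype.val))).subset ?_
  rintro l ⟨-, h2, h3⟩
  refine ⟨l.attach.map (fun x => ⟨x.1, h2 x.1 x.2⟩), by simpa using h3, ?_⟩
  simp [List.map_map, Function.comp_def]

/-- the chain with prescribed coefficients on the full flags -/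
def toCh {S : Set X} {K : ℕ} (hfin : (cs S K).Finite) (f : List X → ℤ) : Ch X :=
  Finsupp.onFinset hfin.toFinset (fun l => if l ∈ cs S K then f l else 0) (by
    intro l hl
    rw [Set.Finite.mem_toFinset]
    by_contra hcon
    simp [hcon] at hl)

theorem toCh_mem {S : Set X} {K : ℕ} (hfin : (cs S K).Finite) (f : List X → ℤ) :
    toCh hfin f ∈ CC S K := by
  rw [CC, Finsupp.mem_supported]
  intro l hl
  by_contra hcon
  simp [toCh, hcon] at hl

theorem toCh_apply {S : Set X} {K : ℕ} (hfin : (cs S K).Finite) (f : List X → ℤ) {l : List X}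
    (hl : l ∈ cs S K) : toCh hfin f l = f l := by
  simp [toCh, hl]

theorem toCh_alt {S : Set X} {K : ℕ} (hfin : (cs S K).Finite) {f : List X → ℤ}
    (h : AltOn S K f) : AltOn S K (toCh hfin f) := by
  intro u w p q hpq hp hq
  rw [toCh_apply hfin f hp, toCh_apply hfin f hq]
  exact h u w p q hpq hp hq

/-- the generator of the top homology -/
theorem exists_gen (H : HM n X) {a b : Option X} (hc : Cmp a b) (hne : a ≠ none ∨ b ≠ none) :
    ∃ z ∈ CC (Iv a b) (hr H b - lr H a), d z = 0 ∧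
      (∀ l ∈ cs (Iv a b) (hr H b - lr H a), z l = 1 ∨ z l = -1) ∧
      (cs (Iv a b) (hr H b - lr H a)).Nonempty ∧
      ∀ c ∈ CC (Iv a b) (hr H b - lr H a), d c = 0 → ∃ m : ℤ, c = m • z := by
  obtain ⟨K, hK⟩ : ∃ K, K = hr H b - lr H a := ⟨_, rfl⟩
  have hle := lr_le H hc
  have hK' : lr H a + K = hr H b := by omega
  have hsph := sph_Iv H hc hne
  rw [← hK] at hsph ⊢
  obtain ⟨z, hz, hdz, hnd, hsp⟩ := hsph
  have hz0 := sph_ne_zero hnd
  have hemp : ∀ l, l ∉ cs (Iv a b) (K + 1) := by
    intro l hl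
    have := len_le H hl hc
    omega
  have hspan : ∀ c ∈ CC (Iv a b) K, d c = 0 → ∃ m : ℤ, c = m • z := by
    intro c hcm hdc
    obtain ⟨e, he, m, -, hm⟩ := hsp K c hcm hdc
    rw [CC_eq_zero hemp he, map_zero, zero_add] at hm
    exact ⟨m, hm⟩
  obtain ⟨l0, hl0⟩ : ∃ l, z l ≠ 0 := by
    by_contra hcon
    push Not at hcon
    exact hz0 (Finsupp.ext hcon)
  have hl0m : l0 ∈ cs (Iv a b) K := by
    by_contra hcon
    exact hl0 (apply_eq_zero hz hcon)
  have hfin := finite_cs (finite_Iv H hne) K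
  -- all values are nonzero
  have hnz : ∀ l ∈ cs (Iv a b) K, z l ≠ 0 := by
    rcases K with _ | k
    · intro l hl
      have h1 : l = [] := List.length_eq_zero_iff.1 hl.2.2
      have h2 : l0 = [] := List.length_eq_zero_iff.1 hl0m.2.2
      rw [h1, ← h2]
      exact hl0
    · set A := toCh hfin (fun _ => 1) with hA
      have hAm := toCh_mem hfin (fun _ => (1 : ℤ))
      rw [← hA] at hAm
      -- the boundary of `A` is twice a chain
      obtain ⟨c', hc', hc2⟩ : ∃ c' ∈ CC (Iv a b) k, (2 : ℤ) • c' = d A := by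
        have heven : ∀ ψ, ∃ t : ℤ, 2 * t = (d A) ψ := by
          intro ψ
          by_cases hψ : ψ ∈ cs (Iv a b) k
          · obtain ⟨u, w, p, q, rfl, hpq, hp, hq, -⟩ := ridge H hψ hc hne (by omega)
            rw [d_ridge H hc hne (by omega) hAm hpq hp hq, hA, toCh_apply hfin _ hp,
              toCh_apply hfin _ hq]
            exact ⟨(-1) ^ u.length, by ring⟩
          · exact ⟨0, by rw [apply_eq_zero (d_mem hAm) hψ]; rfl⟩
        choose g hg using heven
        refine ⟨Finsupp.mapRange (fun t => t / 2) (by simp) (d A), ?_, ?_⟩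
        · rw [CC, Finsupp.mem_supported]
          intro ψ hψ
          by_contra hcon
          have h0 := apply_eq_zero (d_mem hAm) hcon
          have h1 := Finsupp.mem_support_iff.1 hψ
          rw [Finsupp.mapRange_apply, h0] at h1
          simp at h1
        · ext ψ
          rw [Finsupp.smul_apply, Finsupp.mapRange_apply, ← hg ψ]
          simp
      have hdc' : d c' = 0 := by
        have h1 : (2 : ℤ) • d c' = 0 := by
          rw [← map_smul, hc2, d_d]
        exact (smul_eq_zero.1 h1).resolve_left (by norm_num)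
      obtain ⟨e, he, m, hm, hce⟩ := hsp k c' hc' hdc'
      rw [hm (by omega), zero_smul, add_zero] at hce
      obtain ⟨m', hm'⟩ := hspan (A - (2 : ℤ) • e)
        (Submodule.sub_mem _ hAm (Submodule.smul_mem _ _ he)) (by
          rw [map_sub, map_smul, ← hce, hc2, sub_self])
      intro l hl h0
      have := DFunLike.congr_fun hm' l
      rw [Finsupp.sub_apply, Finsupp.smul_apply, Finsupp.smul_apply, hA, toCh_apply hfin _ hl, h0]
        at this
      simp only [smul_eq_mul, mul_zero] at this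
      omega
  -- all values are `1` or `-1`
  have halt := alt_of_cycle H hc hne hK' hz hdz
  have hsalt : AltOn (Iv a b) K (fun l => (z l).sign) := by
    intro u w p q hpq hp hq
    have := halt u w p q hpq hp hq
    simp only
    rw [this, Int.sign_neg]
  obtain ⟨m, hm⟩ := hspan (toCh hfin (fun l => (z l).sign)) (toCh_mem _ _)
    (cycle_of_alt H hc hne hK' (toCh_mem _ _) (toCh_alt hfin hsalt))
  refine ⟨z, hz, hdz, ?_, ⟨l0, hl0m⟩, hspan⟩
  intro l hl
  have h1 := DFunLike.congr_fun hm l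
  rw [toCh_apply hfin _ hl, Finsupp.smul_apply, smul_eq_mul] at h1
  have h2 := hnz l hl
  have h3 : IsUnit (z l) := by
    rw [Int.isUnit_iff]
    rcases lt_trichotomy (z l) 0 with h | h | h
    · rw [Int.sign_eq_neg_one_of_neg h] at h1
      have : z l ∣ 1 := ⟨-m, by linarith⟩
      exact Int.isUnit_iff.1 (isUnit_of_dvd_one this)
    · exact absurd h h2
    · rw [Int.sign_eq_one_of_pos h] at h1
      have : z l ∣ 1 := ⟨m, by linarith⟩
      exact Int.isUnit_iff.1 (isUnit_of_dvd_one this)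
  exact Int.isUnit_iff.1 h3

/-- uniqueness: two alternating functions, one of which has the values `1`, `-1` -/
theorem alt_unique (H : HM n X) {a b : Option X} (hc : Cmp a b) (hne : a ≠ none ∨ b ≠ none)
    {K : ℕ} (hK : lr H a + K = hr H b) {f g : List X → ℤ}
    (hf : AltOn (Iv a b) K f) (hg : AltOn (Iv a b) K g)
    {l l' : List X} (hl : l ∈ cs (Iv a b) K) (hl' : l' ∈ cs (Iv a b) K) :
    f l * g l = f l' * g l' := by
  have hKe : K = hr H b - lr H a := by omega
  obtain ⟨z, hz, hdz, hval, -, hsp⟩ := exists_gen H hc hne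
  rw [← hKe] at hz hval hsp
  have hfin := finite_cs (finite_Iv H hne) K
  obtain ⟨m, hm⟩ := hsp _ (toCh_mem hfin f)
    (cycle_of_alt H hc hne hK (toCh_mem _ _) (toCh_alt hfin hf))
  obtain ⟨m', hm'⟩ := hsp _ (toCh_mem hfin g)
    (cycle_of_alt H hc hne hK (toCh_mem _ _) (toCh_alt hfin hg))
  have h1 : ∀ t ∈ cs (Iv a b) K, f t * g t = m * m' := by
    intro t ht
    have e1 := DFunLike.congr_fun hm t
    have e2 := DFunLike.congr_fun hm' t
    rw [toCh_apply hfin _ ht, Finsupp.smul_apply, smul_eq_mul] at e1 e2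
    rw [e1, e2]
    rcases hval t ht with h | h <;> rw [h] <;> ring
  rw [h1 l hl, h1 l' hl']

end Ori

end

end Pool.Agent.Helper59.PD
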