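import Pool.Agent.Helper59.PD.HM
import Pool.Agent.Helper59.PD.LibA

/-! Orientations, part 1: flags, intervals with possibly infinite end points, ridges. -/

set_option autoImplicit false

namespace Pool.Agent.Helper59.PD

noncomputable section

namespace Ori

open scoped Classical

variable {n : ℕ} {X : Type} [PartialOrder X]

/-! ### coefficients of the boundary -/

omit [PartialOrder X] in
theorem consL_apply_ne {a : X} {c : Ch X} {l : List X} (h : (consL a c) l ≠ 0) :
    ∃ l', l = a :: l' ∧ (consL a c) l = c l' := by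
  have hinj : Function.Injective (List.cons a) := fun _ _ h => (List.cons.inj h).2
  have : l ∈ (Finsupp.mapDomain (List.cons a) c).support := by
    rw [Finsupp.mem_support_iff]; exact h
  obtain ⟨l', _, rfl⟩ := Finset.mem_image.1 (Finsupp.mapDomain_support this)
  exact ⟨l', rfl, Finsupp.mapDomain_apply hinj c l'⟩

omit [PartialOrder X] in
theorem consL_apply (a : X) (c : Ch X) (l : List X) : (consL a c) (a :: l) = c l :=
  Finsupp.mapDomain_apply (fun _ _ h => (List.cons.inj h).2) c l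

theorem dl_apply_of (u : List X) (z : X) (w : List X) (h : (u ++ z :: w).Pairwise (· < ·)) :
    (dl (u ++ z :: w)) (u ++ w) = (-1) ^ u.length := by
  induction u with
  | nil =>
    simp only [List.nil_append, dl, Finsupp.sub_apply, Finsupp.single_eq_same, List.length_nil,
      pow_zero]
    by_contra hne
    have : (consL z (dl w)) w ≠ 0 := by
      intro h0
      rw [h0] at hne
      exact hne (by ring)
    obtain ⟨l', hl', _⟩ := consL_apply_ne this
    rw [hl'] at h
    simp only [List.nil_append, List.pairwise_cons] at h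
    exact lt_irrefl _ (h.1 z (by simp))
  | cons a u ih =>
    simp only [List.cons_append, dl, Finsupp.sub_apply, List.length_cons, pow_succ]
    rw [consL_apply, ih (by simpa using (List.pairwise_cons.1 h).2)]
    have : (Finsupp.single (u ++ z :: w) (1 : ℤ)) (a :: (u ++ w)) = 0 := by
      rw [Finsupp.single_apply, if_neg]
      intro h0
      have : a ∈ u ++ z :: w := by rw [h0]; simp
      exact lt_irrefl _ ((List.pairwise_cons.1 h).1 a this)
    rw [this]
    ring

omit [PartialOrder X] in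
theorem dl_apply_ne {l ψ : List X} (h : (dl l) ψ ≠ 0) :
    ∃ u z w, l = u ++ z :: w ∧ ψ = u ++ w := by
  induction l generalizing ψ with
  | nil => simp [dl] at h
  | cons a l ih =>
    by_cases h1 : l = ψ
    · exact ⟨[], a, l, by simp, by simp [h1]⟩
    · have h2 : (consL a (dl l)) ψ ≠ 0 := by
        intro h0
        apply h
        simp [dl, Finsupp.sub_apply, Finsupp.single_apply, h1, h0]
      obtain ⟨ψ', rfl, h3⟩ := consL_apply_ne h2
      rw [h3] at h2
      obtain ⟨u, z, w, rfl, rfl⟩ := ih h2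
      exact ⟨a :: u, z, w, by simp, by simp⟩

omit [PartialOrder X] in
theorem d_apply (c : Ch X) (ψ : List X) : (d c) ψ = ∑ l ∈ c.support, c l * (dl l) ψ := by
  unfold d
  rw [Finsupp.linearCombination_apply, Finsupp.sum, Finsupp.finsetSum_apply]
  simp

/-! ### intervals with possibly infinite end points -/

/-- open interval, `none` is an infinite end point -/
def Iv (a b : Option X) : Set X := {y | (∀ x ∈ a, x < y) ∧ ∀ x ∈ b, y < x}

/-- the end points are in the right order -/
def Cmp (a b : Option X) : Prop := ∀ x ∈ a, ∀ y ∈ b, x < y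

/-- first rank above `a` -/
def lr (H : HM n X) (a : Option X) : ℕ := a.elim 0 (fun x => H.rk x + 1)

/-- rank of `b` -/
def hr (H : HM n X) (b : Option X) : ℕ := b.elim (n + 1) H.rk

theorem Iv_none_none : Iv (none : Option X) none = Set.univ := by
  ext; simp [Iv]

theorem Iv_none_some (x : X) : Iv none (some x) = Set.Iio x := by
  ext; simp [Iv]

theorem Iv_some_none (x : X) : Iv (some x) none = Set.Ioi x := by
  ext; simp [Iv]

theorem Iv_some_some (x y : X) : Iv (some x) (some y) = Set.Ioo x y := by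
  ext; simp [Iv]

theorem Cmp.left {a b : Option X} {y : X} (hy : y ∈ Iv a b) : Cmp a (some y) := by
  intro x hx z hz
  simp only [Option.mem_def, Option.some.injEq] at hz
  subst hz
  exact hy.1 x hx

theorem Cmp.right {a b : Option X} {y : X} (hy : y ∈ Iv a b) : Cmp (some y) b := by
  intro x hx z hz
  simp only [Option.mem_def, Option.some.injEq] at hx
  subst hx
  exact hy.2 z hz

theorem lr_le (H : HM n X) {a b : Option X} (h : Cmp a b) : lr H a ≤ hr H b := by
  rcases a with _ | x <;> rcases b with _ | y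
  · simp [lr]
  · simp [lr]
  · simp [lr, hr, H.rk_le]
  · exact H.rk_lt _ _ (h x rfl y rfl)

theorem lr_le_rk (H : HM n X) {a b : Option X} {y : X} (hy : y ∈ Iv a b) : lr H a ≤ H.rk y :=
  lr_le H (Cmp.left hy)

theorem rk_lt_hr (H : HM n X) {a b : Option X} {y : X} (hy : y ∈ Iv a b) : H.rk y < hr H b :=
  lr_le H (Cmp.right hy)

theorem mem_Iv_left {a b : Option X} {y z : X} (hy : y ∈ Iv a b) :
    z ∈ Iv a (some y) ↔ z ∈ Iv a b ∧ z < y := by
  constructor
  · rintro ⟨h1, h2⟩
    have h2' : z < y := h2 y rfl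
    exact ⟨⟨h1, fun x hx => h2'.trans (hy.2 x hx)⟩, h2'⟩
  · rintro ⟨h1, h2⟩
    refine ⟨h1.1, fun x hx => ?_⟩
    simp only [Option.mem_def, Option.some.injEq] at hx
    subst hx
    exact h2

theorem mem_Iv_right {a b : Option X} {y z : X} (hy : y ∈ Iv a b) :
    z ∈ Iv (some y) b ↔ z ∈ Iv a b ∧ y < z := by
  constructor
  · rintro ⟨h1, h2⟩
    have h1' : y < z := h1 y rfl
    exact ⟨⟨fun x hx => (hy.1 x hx).trans h1', h2⟩, h1'⟩
  · rintro ⟨h1, h2⟩
    refine ⟨fun x hx => ?_, h1.2⟩
    simp only [Option.mem_def, Option.some.injEq] at hx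
    subst hx
    exact h2

theorem cons_mem {a b : Option X} {y : X} {l : List X} {k : ℕ} :
    (y :: l) ∈ cs (Iv a b) (k + 1) ↔ y ∈ Iv a b ∧ l ∈ cs (Iv (some y) b) k := by
  constructor
  · rintro ⟨h1, h2, h3⟩
    rw [List.pairwise_cons] at h1
    have hy : y ∈ Iv a b := h2 y (by simp)
    refine ⟨hy, h1.2, fun x hx => ?_, by simpa using h3⟩
    exact (mem_Iv_right hy).2 ⟨h2 x (by simp [hx]), h1.1 x hx⟩
  · rintro ⟨hy, h1, h2, h3⟩
    refine ⟨List.pairwise_cons.2 ⟨fun x hx => ((mem_Iv_right hy).1 (h2 x hx)).2, h1⟩, ?_,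
      by simp [h3]⟩
    intro x hx
    rcases List.mem_cons.1 hx with rfl | hx
    · exact hy
    · exact ((mem_Iv_right hy).1 (h2 x hx)).1

theorem append_mem {a b : Option X} {y : X} {u w : List X} {k : ℕ} :
    (u ++ y :: w) ∈ cs (Iv a b) k ↔ y ∈ Iv a b ∧ u ∈ cs (Iv a (some y)) u.length ∧
      w ∈ cs (Iv (some y) b) w.length ∧ k = u.length + w.length + 1 := by
  constructor
  · rintro ⟨h1, h2, h3⟩
    rw [List.pairwise_append] at h1
    obtain ⟨h1, h4, h5⟩ := h1
    have hy : y ∈ Iv a b := h2 y (by simp)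
    rw [List.pairwise_cons] at h4
    refine ⟨hy, ⟨h1, fun x hx => ?_, rfl⟩, ⟨h4.2, fun x hx => ?_, rfl⟩, ?_⟩
    · exact (mem_Iv_left hy).2 ⟨h2 x (by simp [hx]), h5 x hx y (by simp)⟩
    · exact (mem_Iv_right hy).2 ⟨h2 x (by simp [hx]), h4.1 x hx⟩
    · rw [← h3]; simp; ring
  · rintro ⟨hy, ⟨h1, h2, _⟩, ⟨h3, h4, _⟩, h5⟩
    refine ⟨?_, ?_, ?_⟩
    · rw [List.pairwise_append, List.pairwise_cons]
      refine ⟨h1, ⟨fun x hx => ((mem_Iv_right hy).1 (h4 x hx)).2, h3⟩, ?_⟩
      intro x hx z hz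
      have hxy := ((mem_Iv_left hy).1 (h2 x hx)).2
      rcases List.mem_cons.1 hz with rfl | hz
      · exact hxy
      · exact hxy.trans ((mem_Iv_right hy).1 (h4 z hz)).2
    · intro x hx
      rcases List.mem_append.1 hx with hx | hx
      · exact ((mem_Iv_left hy).1 (h2 x hx)).1
      · rcases List.mem_cons.1 hx with rfl | hx
        · exact hy
        · exact ((mem_Iv_right hy).1 (h4 x hx)).1
    · rw [h5]; simp; ring

theorem len_le (H : HM n X) {b : Option X} : ∀ {l : List X} {a : Option X} {k : ℕ},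
    l ∈ cs (Iv a b) k → Cmp a b → lr H a + k ≤ hr H b
  | [], a, k, h, hc => by
    have : k = 0 := h.2.2.symm
    subst this
    exact lr_le H hc
  | y :: l, a, k, h, hc => by
    have hk : k = l.length + 1 := h.2.2.symm
    subst hk
    obtain ⟨hy, hl⟩ := cons_mem.1 h
    have h1 := len_le H hl (Cmp.right hy)
    have h2 := lr_le_rk H hy
    have h3 : lr H (some y) = H.rk y + 1 := rfl
    omega

/-- splitting a full flag -/
theorem split_flag (H : HM n X) {a b : Option X} {y : X} {u w : List X} {k : ℕ}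
    (hk : lr H a + k = hr H b) (h : (u ++ y :: w) ∈ cs (Iv a b) k) :
    y ∈ Iv a b ∧ u ∈ cs (Iv a (some y)) (H.rk y - lr H a) ∧
      w ∈ cs (Iv (some y) b) (hr H b - (H.rk y + 1)) ∧ lr H a ≤ H.rk y ∧
      H.rk y + 1 ≤ hr H b ∧ u.length = H.rk y - lr H a := by
  obtain ⟨hy, hu, hw, h1⟩ := append_mem.1 h
  have h2 : lr H a + u.length ≤ H.rk y := len_le H hu (Cmp.left hy)
  have h3 : H.rk y + 1 + w.length ≤ hr H b := len_le H hw (Cmp.right hy)
  have h4 : u.length = H.rk y - lr H a := by omega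
  have h5 : w.length = hr H b - (H.rk y + 1) := by omega
  refine ⟨hy, h4 ▸ hu, h5 ▸ hw, by omega, by omega, h4⟩

/-- joining full flags -/
theorem join_flag (H : HM n X) {a b : Option X} {y : X} {u w : List X}
    (hy : y ∈ Iv a b) (hu : u ∈ cs (Iv a (some y)) (H.rk y - lr H a))
    (hw : w ∈ cs (Iv (some y) b) (hr H b - (H.rk y + 1))) :
    (u ++ y :: w) ∈ cs (Iv a b) (hr H b - lr H a) := by
  have h1 := lr_le_rk H hy
  have h2 := rk_lt_hr H hy
  rw [append_mem]
  refine ⟨hy, ?_, ?_, ?_⟩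
  · rw [hu.2.2]; exact hu
  · rw [hw.2.2]; exact hw
  · rw [hu.2.2, hw.2.2]; omega

/-! ### spheres of dimension 0 -/

theorem CC_eq_zero {S : Set X} {k : ℕ} (h : ∀ l, l ∉ cs S k) {c : Ch X} (hc : c ∈ CC S k) :
    c = 0 := by
  ext l
  by_contra hne
  exact h l ((Finsupp.mem_supported _ _).1 hc (Finsupp.mem_support_iff.2 hne))

theorem single_mem {S : Set X} {k : ℕ} {l : List X} (h : l ∈ cs S k) (m : ℤ) :
    Finsupp.single l m ∈ CC S k :=
  Finsupp.single_mem_supported ℤ m h

theorem apply_eq_zero {S : Set X} {k : ℕ} {c : Ch X} (hc : c ∈ CC S k) {l : List X}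
    (h : l ∉ cs S k) : c l = 0 := by
  by_contra hne
  exact h ((Finsupp.mem_supported _ _).1 hc (Finsupp.mem_support_iff.2 hne))

theorem sph_ne_zero {S : Set X} {m : ℕ} {z : Ch X}
    (h : ∀ (a : ℤ), ∀ e ∈ CC S (m + 1), d e = a • z → a = 0) : z ≠ 0 := by
  rintro rfl
  exact one_ne_zero (h 1 0 (Submodule.zero_mem _) (by simp))

theorem two_of_sph {T : Set X} (h : Sph T 1) (hT : ∀ x ∈ T, ∀ y ∈ T, ¬ x < y) :
    ∃ p ∈ T, ∃ q ∈ T, p ≠ q ∧ ∀ t ∈ T, t = p ∨ t = q := by
  obtain ⟨z, hz, hdz, hnd, hsp⟩ := h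
  have hz0 := sph_ne_zero hnd
  have h2 : ∀ l, l ∉ cs T 2 := by
    rintro l ⟨h1, h2, h3⟩
    obtain ⟨x, y, rfl⟩ := List.length_eq_two.1 h3
    exact hT x (h2 x (by simp)) y (h2 y (by simp)) (by simpa using h1)
  have hone : ∀ l ∈ cs T 1, ∃ t ∈ T, l = [t] := by
    rintro l ⟨h1, h2, h3⟩
    obtain ⟨x, rfl⟩ := List.length_eq_one_iff.1 h3
    exact ⟨x, h2 x (by simp), rfl⟩
  have hmem : ∀ t ∈ T, [t] ∈ cs T 1 := fun t ht => ⟨by simp, by simpa using ht, rfl⟩
  obtain ⟨l, hl⟩ : ∃ l, z l ≠ 0 := by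
    by_contra hcon
    push Not at hcon
    exact hz0 (Finsupp.ext hcon)
  obtain ⟨p, hp, rfl⟩ := hone l (by
    by_contra hcon
    exact hl (apply_eq_zero hz hcon))
  have hkey : ∀ t ∈ T, t ≠ p → z [t] ≠ 0 ∧ ∀ s ∈ T, s ≠ t → s ≠ p → z [s] = 0 := by
    intro t ht htp
    have hc : Finsupp.single [t] (1 : ℤ) - Finsupp.single [p] 1 ∈ CC T 1 :=
      Submodule.sub_mem _ (single_mem (hmem t ht) 1) (single_mem (hmem p hp) 1)
    have hdc : d (Finsupp.single [t] (1 : ℤ) - Finsupp.single [p] 1) = 0 := by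
      simp [d, dl]
    obtain ⟨e, he, k, -, hk⟩ := hsp 1 _ hc hdc
    rw [CC_eq_zero h2 he, map_zero, zero_add] at hk
    have e1 := DFunLike.congr_fun hk [t]
    have e0 : ∀ s, s ≠ t → s ≠ p → k * z [s] = 0 := by
      intro s h1 h2
      have e3 := DFunLike.congr_fun hk [s]
      simpa [Finsupp.single_apply, Ne.symm h1, Ne.symm h2] using e3.symm
    have htp' : ¬ p = t := fun h => htp h.symm
    simp [Finsupp.single_apply, htp'] at e1
    have hk0 : k ≠ 0 := by
      rintro rfl
      simp at e1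
    refine ⟨?_, fun s _ h1 h2 => ?_⟩
    · intro h0
      rw [h0] at e1
      simp at e1
    · rcases mul_eq_zero.1 (e0 s h1 h2) with h | h
      · exact absurd h hk0
      · exact h
  by_cases hq : ∃ q ∈ T, q ≠ p
  · obtain ⟨q, hq, hqp⟩ := hq
    refine ⟨p, hp, q, hq, hqp.symm, fun t ht => ?_⟩
    by_contra hcon
    push Not at hcon
    exact (hkey t ht hcon.1).1 ((hkey q hq hqp).2 t ht hcon.2 hcon.1)
  · exfalso
    push Not at hq
    have hz1 : z = Finsupp.single [p] (z [p]) := by
      ext l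
      by_cases hlp : l = [p]
      · subst hlp; simp
      · rw [Finsupp.single_apply, if_neg (Ne.symm hlp)]
        apply apply_eq_zero hz
        intro hcon
        obtain ⟨t, ht, rfl⟩ := hone l hcon
        rw [hq t ht] at hlp
        exact hlp rfl
    rw [hz1] at hdz
    have := DFunLike.congr_fun hdz []
    simp [d, dl] at this
    exact hl this

end Ori

end

end Pool.Agent.Helper59.PD
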