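import Pool.Agent.Helper59.PD.HM
import Pool.Agent.Helper59.PD.LibD
import Pool.Agent.Helper59.PD.Final

/-! Poincare duality, part A: cochains, local boundary operators. -/

set_option autoImplicit false
set_option linter.unusedSectionVars false

namespace Pool.Agent.Helper59.PD

open Pool.Agent.Helper59.PDC

universe u

noncomputable section

section alg

variable {X : Type} {B : Type u} [AddCommGroup B]

/-- evaluation of a cochain on an integral chain -/
def pr (f : List X → B) : Ch X →ₗ[ℤ] B := Finsupp.linearCombination ℤ f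

@[simp] theorem pr_single (f : List X → B) (l : List X) (m : ℤ) :
    pr f (Finsupp.single l m) = m • f l := by
  simp [pr]

theorem consL_single (a : X) (l : List X) (m : ℤ) :
    consL a (Finsupp.single l m) = Finsupp.single (a :: l) m := by
  simp [consL]

theorem pr_consL (f : List X → B) (a : X) (c : Ch X) :
    pr f (consL a c) = pr (fun l => f (a :: l)) c := by
  induction c using Finsupp.induction_linear with
  | zero => simp
  | add c₁ c₂ h₁ h₂ => simp [h₁, h₂]
  | single l m => simp [consL_single]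

theorem d_single (l : List X) (m : ℤ) : d (Finsupp.single l m) = m • dl l := by
  simp [d]

theorem pr_d (f : List X → B) (c : Ch X) :
    pr f (d c) = pr (fun l => pr f (dl l)) c := by
  induction c using Finsupp.induction_linear with
  | zero => simp
  | add c₁ c₂ h₁ h₂ => simp [h₁, h₂]
  | single l m => simp [d_single]

theorem lin_single (h : List X → Ch X) (l : List X) (m : ℤ) :
    lin h (Finsupp.single l m) = m • h l := by
  simp [lin]

theorem pr_lin (f : List X → B) (h : List X → Ch X) (c : Ch X) :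
    pr f (lin h c) = pr (fun l => pr f (h l)) c := by
  induction c using Finsupp.induction_linear with
  | zero => simp
  | add c₁ c₂ h₁ h₂ => simp [h₁, h₂]
  | single l m => simp [lin_single]

theorem pr_add (f g : List X → B) (c : Ch X) :
    pr (fun l => f l + g l) c = pr f c + pr g c := by
  induction c using Finsupp.induction_linear with
  | zero => simp
  | add c₁ c₂ h₁ h₂ => simp only [map_add, h₁, h₂]; abel
  | single l m => simp

theorem pr_sub (f g : List X → B) (c : Ch X) :
    pr (fun l => f l - g l) c = pr f c - pr g c := by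
  induction c using Finsupp.induction_linear with
  | zero => simp
  | add c₁ c₂ h₁ h₂ => simp only [map_add, h₁, h₂]; abel
  | single l m => simp [smul_sub]

theorem pr_zsmul (f : List X → B) (k : ℤ) (c : Ch X) :
    pr (fun l => k • f l) c = k • pr f c := by
  induction c using Finsupp.induction_linear with
  | zero => simp
  | add c₁ c₂ h₁ h₂ => simp only [map_add, h₁, h₂, smul_add]
  | single l m => rw [pr_single, pr_single, smul_comm]

theorem pr_zero (c : Ch X) : pr (fun _ => (0 : B)) c = 0 := by
  induction c using Finsupp.induction_linear with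
  | zero => simp
  | add c₁ c₂ h₁ h₂ => simp [h₁, h₂]
  | single l m => simp

theorem pr_congr' {f g : List X → B} {c : Ch X} (h : ∀ l ∈ c.support, f l = g l) :
    pr f c = pr g c := by
  unfold pr
  rw [Finsupp.linearCombination_apply, Finsupp.linearCombination_apply]
  exact Finsupp.sum_congr fun l hl => by rw [h l hl]

theorem dl_nil : dl ([] : List X) = 0 := rfl

theorem dl_cons (a : X) (l : List X) : dl (a :: l) = Finsupp.single l 1 - consL a (dl l) := rfl

theorem pr_dl_cons (f : List X → B) (a : X) (l : List X) :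
    pr f (dl (a :: l)) = f l - pr (fun l => f (a :: l)) (dl l) := by
  simp [dl_cons, pr_consL]

theorem pr_dl_append (f : List X → B) (a : List X) (x : X) :
    pr f (dl (a ++ [x])) = pr (fun l => f (l ++ [x])) (dl a) + (-1 : ℤ) ^ a.length • f a := by
  induction a generalizing f with
  | nil => simp [pr_dl_cons, dl_nil]
  | cons y a ih =>
    rw [List.cons_append, pr_dl_cons, ih, pr_dl_cons]
    simp only [List.cons_append, List.length_cons, pow_succ]
    simp only [mul_neg, mul_one, neg_smul]
    abel

theorem coboundary_eq (f : List X → B) (l : List X) : coboundary f l = pr f (dl l) := by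
  induction l generalizing f with
  | nil => simp [coboundary, dl_nil]
  | cons a l ih =>
    rw [pr_dl_cons, ← ih]
    unfold coboundary
    rw [List.length_cons, Finset.sum_range_succ']
    simp only [List.eraseIdx_cons_succ, List.eraseIdx_cons_zero, pow_zero, one_smul, pow_succ,
      mul_neg, mul_one, neg_smul, Finset.sum_neg_distrib]
    abel

open Classical in
theorem boundary_single_apply (l l₀ : List X) (v : B) :
    boundary (Finsupp.single l v) l₀ = (dl l l₀) • v := by
  have h1 : boundary (Finsupp.single l v) l₀ =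
      coboundary (fun l' => if l' = l₀ then v else 0) l := by
    unfold boundary coboundary
    rw [Finsupp.sum_single_index (by simp)]
    rw [Finsupp.finsetSum_apply]
    refine Finset.sum_congr rfl fun i _ => ?_
    rw [Finsupp.single_apply]
    by_cases hh : l.eraseIdx i = l₀
    · simp only [if_pos hh]
    · simp only [if_neg hh, smul_zero]
  rw [h1, coboundary_eq]
  unfold pr
  rw [Finsupp.linearCombination_apply, Finsupp.sum]
  simp only [smul_ite, smul_zero]
  rw [Finset.sum_ite_eq' (dl l).support l₀]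
  split_ifs with h
  · rfl
  · rw [Finsupp.notMem_support_iff.1 h, zero_smul]

theorem boundary_add (c₁ c₂ : List X →₀ B) : boundary (c₁ + c₂) = boundary c₁ + boundary c₂ := by
  unfold boundary
  rw [Finsupp.sum_add_index']
  · intro l
    simp
  · intro l b₁ b₂
    simp [smul_add, Finset.sum_add_distrib]

theorem boundary_zero : boundary (0 : List X →₀ B) = 0 := by
  simp [boundary]

end alg

section fin

variable {X : Type} [PartialOrder X]

open Classical in
/-- the elements of a finite set -/
def fs (S : Set X) : Finset X := if h : S.Finite then h.toFinset else ∅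

theorem mem_fs {S : Set X} (h : S.Finite) {x : X} : x ∈ fs S ↔ x ∈ S := by
  simp [fs, h]

theorem cs_finite {S : Set X} (h : S.Finite) (m : ℕ) : (cs S m).Finite := by
  have : Finite S := h
  refine ((List.finite_length_eq S m).image (List.map Subtype.val)).subset ?_
  rintro l ⟨-, h2, h3⟩
  refine ⟨l.attach.map fun x => ⟨x.1, h2 x.1 x.2⟩, ?_, ?_⟩
  · simp [h3]
  · simp [List.map_map, Function.comp_def]

open Classical in
/-- the chains of length `m` of a finite set -/
def chn (S : Set X) (m : ℕ) : Finset (List X) :=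
  if h : (cs S m).Finite then h.toFinset else ∅

theorem mem_chn {S : Set X} (h : S.Finite) {m : ℕ} {l : List X} : l ∈ chn S m ↔ l ∈ cs S m := by
  simp [chn, cs_finite h m]

theorem mem_cs_cons {S : Set X} {x : X} {l : List X} {m : ℕ} :
    x :: l ∈ cs S (m + 1) ↔ x ∈ S ∧ l ∈ cs (S ∩ Set.Ioi x) m := by
  simp only [cs, Set.mem_ofPred_eq, List.pairwise_cons, List.mem_cons, forall_eq_or_imp,
    List.length_cons, Nat.add_right_cancel_iff, Set.mem_inter_iff, Set.mem_Ioi]
  constructor
  · rintro ⟨⟨h1, h2⟩, ⟨h3, h4⟩, h5⟩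
    exact ⟨h3, h2, fun y hy => ⟨h4 y hy, h1 y hy⟩, h5⟩
  · rintro ⟨h3, h2, h4, h5⟩
    exact ⟨⟨fun y hy => (h4 y hy).2, h2⟩, ⟨h3, fun y hy => (h4 y hy).1⟩, h5⟩

theorem mem_cs_append {S : Set X} {x : X} {l : List X} {m : ℕ} :
    l ++ [x] ∈ cs S (m + 1) ↔ x ∈ S ∧ l ∈ cs (S ∩ Set.Iio x) m := by
  simp only [cs, Set.mem_ofPred_eq, List.pairwise_append, List.pairwise_singleton,
    List.mem_append, List.mem_singleton, forall_eq, true_and,
    List.length_append, List.length_singleton, Nat.add_right_cancel_iff, Set.mem_inter_iff,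
    Set.mem_Iio]
  constructor
  · rintro ⟨⟨h1, h2⟩, h4, h5⟩
    exact ⟨h4 x (Or.inr rfl), h1, fun y hy => ⟨h4 y (Or.inl hy), h2 y hy⟩, h5⟩
  · rintro ⟨h3, h2, h4, h5⟩
    refine ⟨⟨h2, fun y hy => (h4 y hy).2⟩, ?_, h5⟩
    rintro y (hy | rfl)
    · exact (h4 y hy).1
    · exact h3

theorem mem_cs_zero {S : Set X} {l : List X} : l ∈ cs S 0 ↔ l = [] := by
  constructor
  · rintro ⟨-, -, h⟩
    exact List.length_eq_zero_iff.1 h
  · rintro rfl
    exact ⟨List.Pairwise.nil, by simp, rfl⟩

theorem cs_length {S : Set X} {l : List X} {m : ℕ} (h : l ∈ cs S m) : l.length = m := h.2.2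

theorem cs_mono {S T : Set X} (h : S ⊆ T) {l : List X} {m : ℕ} (hl : l ∈ cs S m) : l ∈ cs T m :=
  ⟨hl.1, fun x hx => h (hl.2.1 x hx), hl.2.2⟩

theorem mem_CC_iff {S : Set X} {m : ℕ} {c : Ch X} : c ∈ CC S m ↔ ∀ l, c l ≠ 0 → l ∈ cs S m := by
  unfold CC
  rw [Finsupp.mem_supported]
  constructor
  · intro h l hl
    exact h (Finsupp.mem_support_iff.2 hl)
  · intro h l hl
    exact h l (Finsupp.mem_support_iff.1 hl)

theorem single_mem_CC {S : Set X} {m : ℕ} {l : List X} (h : l ∈ cs S m) (a : ℤ) :
    Finsupp.single l a ∈ CC S m := by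
  rw [mem_CC_iff]
  intro l' hl'
  by_cases hh : l = l'
  · exact hh ▸ h
  · rw [Finsupp.single_eq_of_ne (Ne.symm hh)] at hl'
    exact absurd rfl hl'

theorem dl_mem {S : Set X} {m : ℕ} {l : List X} (h : l ∈ cs S (m + 1)) : dl l ∈ CC S m := by
  have := d_mem (single_mem_CC h 1)
  rwa [d_single, one_smul] at this

theorem d_dl (l : List X) : d (dl l) = 0 := by
  have := d_d (Finsupp.single l (1 : ℤ))
  rwa [d_single, one_smul] at this

variable {B : Type u} [AddCommGroup B]

theorem pr_eq_sum {S : Set X} (hS : S.Finite) {m : ℕ} {z : Ch X} (hz : z ∈ CC S m)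
    (f : List X → B) : pr f z = ∑ a ∈ chn S m, z a • f a := by
  unfold pr
  rw [Finsupp.linearCombination_apply]
  refine Finsupp.sum_of_support_subset _ ?_ _ (by simp)
  intro l hl
  rw [mem_chn hS]
  exact mem_CC_iff.1 hz l (Finsupp.mem_support_iff.1 hl)

theorem pr_congr {S : Set X} {m : ℕ} {z : Ch X} (hz : z ∈ CC S m)
    {f g : List X → B} (h : ∀ l ∈ cs S m, f l = g l) : pr f z = pr g z :=
  pr_congr' fun l hl => h l (mem_CC_iff.1 hz l (Finsupp.mem_support_iff.1 hl))

theorem lin_apply_eq_sum {S : Set X} (hS : S.Finite) {m : ℕ} {z : Ch X} (hz : z ∈ CC S m)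
    (h : List X → Ch X) (b : List X) : lin h z b = ∑ a ∈ chn S m, z a * h a b := by
  have h1 : lin h z b = pr (fun l => h l b) z := by
    clear hz
    induction z using Finsupp.induction_linear with
    | zero => simp
    | add c₁ c₂ h₁ h₂ => simp [h₁, h₂]
    | single l m => simp [lin_single]
  rw [h1, pr_eq_sum hS hz]
  simp

theorem d_apply_eq_sum {S : Set X} (hS : S.Finite) {m : ℕ} {z : Ch X} (hz : z ∈ CC S m)
    (b : List X) : d z b = ∑ a ∈ chn S m, z a * dl a b :=
  lin_apply_eq_sum hS hz dl b

theorem linZ_eq_sum {S : Set X} (hS : S.Finite) {m : ℕ} {z : Ch X} (hz : z ∈ CC S m)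
    (c : List X → ℤ) : linZ c z = ∑ a ∈ chn S m, z a * c a := by
  have := pr_eq_sum hS hz c
  simpa [pr, linZ] using this

/-- the local boundary of a function on the chains of a finite set `S` -/
def lbd (S : Set X) (F : List X → B) (b : List X) : B :=
  ∑ b' ∈ chn S (b.length + 1), (dl b' b) • F b'

theorem lbd_congr {S : Set X} (hS : S.Finite) {F G : List X → B} {b : List X}
    (h : ∀ l ∈ cs S (b.length + 1), F l = G l) : lbd S F b = lbd S G b :=
  Finset.sum_congr rfl fun l hl => by rw [h l ((mem_chn hS).1 hl)]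

theorem lbd_lbd {S : Set X} (hS : S.Finite) (F : List X → B) (b : List X) :
    lbd S (fun b' => lbd S F b') b = 0 := by
  unfold lbd
  have h1 : ∀ b' ∈ chn S (b.length + 1),
      (dl b' b) • ∑ b'' ∈ chn S (b'.length + 1), (dl b'' b') • F b'' =
      ∑ b'' ∈ chn S (b.length + 2), ((dl b'' b') * (dl b' b)) • F b'' := by
    intro b' hb'
    rw [cs_length ((mem_chn hS).1 hb'), Finset.smul_sum]
    refine Finset.sum_congr rfl fun b'' _ => ?_
    rw [smul_smul, mul_comm]
  rw [Finset.sum_congr rfl h1, Finset.sum_comm]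
  refine Finset.sum_eq_zero fun b'' hb'' => ?_
  rw [← Finset.sum_smul]
  have h2 := d_apply_eq_sum hS (dl_mem ((mem_chn hS).1 hb'')) b
  rw [← h2, d_dl]
  simp

theorem sum_chn_cons {S : Set X} (hS : S.Finite) (m : ℕ) (F : List X → B) :
    ∑ l ∈ chn S (m + 1), F l = ∑ y ∈ fs S, ∑ b ∈ chn (S ∩ Set.Ioi y) m, F (y :: b) := by
  classical
  rw [Finset.sum_sigma']
  symm
  refine Finset.sum_bij (fun p _ => p.1 :: p.2) ?_ ?_ ?_ ?_
  · rintro ⟨y, b⟩ h
    rw [Finset.mem_sigma, mem_fs hS, mem_chn (hS.subset Set.inter_subset_left)] at h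
    rw [mem_chn hS]
    exact mem_cs_cons.2 h
  · rintro ⟨y, b⟩ _ ⟨y', b'⟩ _ h
    simp only [List.cons.injEq] at h
    obtain ⟨rfl, rfl⟩ := h
    rfl
  · intro l hl
    rw [mem_chn hS] at hl
    cases l with
    | nil => exact absurd (cs_length hl) (by simp)
    | cons y b =>
      refine ⟨⟨y, b⟩, ?_, rfl⟩
      rw [Finset.mem_sigma, mem_fs hS, mem_chn (hS.subset Set.inter_subset_left)]
      exact mem_cs_cons.1 hl
  · intros
    rfl

theorem sum_chn_append {S : Set X} (hS : S.Finite) (m : ℕ) (F : List X → B) :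
    ∑ l ∈ chn S (m + 1), F l = ∑ y ∈ fs S, ∑ a ∈ chn (S ∩ Set.Iio y) m, F (a ++ [y]) := by
  classical
  rw [Finset.sum_sigma']
  symm
  refine Finset.sum_bij (fun p _ => p.2 ++ [p.1]) ?_ ?_ ?_ ?_
  · rintro ⟨y, b⟩ h
    rw [Finset.mem_sigma, mem_fs hS, mem_chn (hS.subset Set.inter_subset_left)] at h
    rw [mem_chn hS]
    exact mem_cs_append.2 h
  · rintro ⟨y, b⟩ _ ⟨y', b'⟩ _ h
    simp only [List.append_singleton_inj] at h
    obtain ⟨rfl, rfl⟩ := h
    rfl
  · intro l hl
    rw [mem_chn hS] at hl
    rcases List.eq_nil_or_concat' l with rfl | ⟨a, y, rfl⟩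
    · exact absurd (cs_length hl) (by simp)
    · refine ⟨⟨y, a⟩, ?_, rfl⟩
      rw [Finset.mem_sigma, mem_fs hS, mem_chn (hS.subset Set.inter_subset_left)]
      exact mem_cs_append.1 hl
  · intros
    rfl

open Classical in
theorem dl_cons_apply_cons (y x : X) (m b : List X) :
    dl (y :: m) (x :: b) = (if m = x :: b then 1 else 0) - (if y = x then dl m b else 0) := by
  rw [dl_cons, Finsupp.sub_apply, Finsupp.single_apply]
  congr 1
  unfold consL
  rw [Finsupp.lmapDomain_apply]
  split_ifs with h
  · subst h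
    exact Finsupp.mapDomain_apply (List.cons_injective) _ _
  · apply Finsupp.mapDomain_of_notMem_range
    rintro ⟨l, hl⟩
    simp only [List.cons.injEq] at hl
    exact h hl.1

theorem lbd_cons {S : Set X} (hS : S.Finite) {x : X} {b : List X}
    (hx : x :: b ∈ cs S (b.length + 1)) (F : List X → B) :
    lbd S F (x :: b) = ∑ w ∈ fs (S ∩ Set.Iio x), F (w :: x :: b) -
      lbd (S ∩ Set.Ioi x) (fun b' => F (x :: b')) b := by
  classical
  have hx' := mem_cs_cons.1 hx
  unfold lbd
  rw [List.length_cons, sum_chn_cons hS]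
  have h1 : ∀ y ∈ fs S, ∑ m ∈ chn (S ∩ Set.Ioi y) (b.length + 1), (dl (y :: m) (x :: b)) •
      F (y :: m) = (if y < x then F (y :: x :: b) else 0) -
        (if y = x then ∑ m ∈ chn (S ∩ Set.Ioi x) (b.length + 1), (dl m b) • F (x :: m)
          else 0) := by
    intro y hy
    rw [mem_fs hS] at hy
    have hfin : (S ∩ Set.Ioi y).Finite := hS.subset Set.inter_subset_left
    simp only [dl_cons_apply_cons, sub_smul, Finset.sum_sub_distrib]
    congr 1
    · simp only [ite_smul, one_smul, zero_smul]
      rw [Finset.sum_ite_eq' (chn (S ∩ Set.Ioi y) (b.length + 1)) (x :: b)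
        (fun m => F (y :: m))]
      refine if_congr ?_ rfl rfl
      rw [mem_chn hfin]
      constructor
      · intro h
        exact (mem_cs_cons.1 h).1.2
      · intro h
        refine mem_cs_cons.2 ⟨⟨hx'.1, h⟩, cs_mono ?_ hx'.2⟩
        rintro w ⟨hw1, hw2⟩
        exact ⟨⟨hw1, lt_trans h hw2⟩, hw2⟩
    · split_ifs with h
      · subst h
        rfl
      · simp
  rw [Finset.sum_congr rfl h1, Finset.sum_sub_distrib]
  congr 1
  · rw [← Finset.sum_filter]
    refine Finset.sum_congr ?_ fun _ _ => rfl
    ext w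
    rw [Finset.mem_filter, mem_fs hS, mem_fs (hS.subset Set.inter_subset_left)]
    rfl
  · rw [Finset.sum_ite_eq' (fs S) x, if_pos ((mem_fs hS).2 hx'.1)]

end fin

end

end Pool.Agent.Helper59.PD
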