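import Pool.Agent.Helper59.PD.Pdt_A

/-! Poincare duality, part B: the boundary of infinite chains, the cap product on functions. -/

set_option autoImplicit false
set_option linter.unusedSectionVars false

namespace Pool.Agent.Helper59.PD

universe u

noncomputable section

variable {n : ℕ} {X : Type} [PartialOrder X] {B : Type u} [AddCommGroup B]

theorem HM.fin_Iio (H : HM n X) (x : X) : (Set.Iio x).Finite :=
  (H.locfin x).subset fun _ hy => Or.inl (le_of_lt hy)

theorem HM.fin_Ioi (H : HM n X) (x : X) : (Set.Ioi x).Finite :=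
  (H.locfin x).subset fun _ hy => Or.inr (le_of_lt hy)

theorem HM.length_le (H : HM n X) (l : List X) (hl : l.Pairwise (· < ·)) :
    ∀ p q : ℕ, (∀ y ∈ l, p ≤ H.rk y ∧ H.rk y < q) → l.length ≤ q - p := by
  induction l with
  | nil => intro p q _; simp
  | cons y l ih =>
    intro p q h
    rw [List.pairwise_cons] at hl
    have h1 := h y (by simp)
    have h2 := ih hl.2 (p + 1) q (fun z hz => by
      have h3 := H.rk_lt y z (hl.1 z hz)
      have h4 := h z (by simp [hz])
      omega)
    simp only [List.length_cons]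
    omega

theorem HM.down_le (H : HM n X) {x : X} {l : List X} {m : ℕ} (hl : l ∈ cs (Set.Iio x) m) :
    m ≤ H.rk x := by
  have h := H.length_le l hl.1 0 (H.rk x) (fun y hy => ⟨Nat.zero_le _, H.rk_lt y x (hl.2.1 y hy)⟩)
  rw [hl.2.2] at h
  omega

theorem HM.up_le (H : HM n X) {x : X} {l : List X} {m : ℕ} (hl : l ∈ cs (Set.Ioi x) m) :
    m ≤ n - H.rk x := by
  have h := H.length_le l hl.1 (H.rk x + 1) (n + 1) (fun y hy =>
    ⟨H.rk_lt x y (hl.2.1 y hy), Nat.lt_succ_of_le (H.rk_le y)⟩)
  rw [hl.2.2] at h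
  omega

theorem mem_cs_mid {x : X} {a b : List X} {m : ℕ} :
    a ++ x :: b ∈ cs (Set.univ : Set X) m ↔
      a ∈ cs (Set.Iio x) a.length ∧ b ∈ cs (Set.Ioi x) b.length ∧ a.length + b.length + 1 = m := by
  simp only [cs, Set.mem_ofPred_eq, List.pairwise_append, List.pairwise_cons, Set.mem_univ,
    implies_true, true_and, List.length_append, List.length_cons, Set.mem_Iio, Set.mem_Ioi,
    and_true]
  constructor
  · rintro ⟨⟨h1, ⟨h2, h3⟩, h4⟩, h5⟩
    exact ⟨⟨h1, fun y hy => h4 y hy x (by simp)⟩, ⟨h3, h2⟩, by omega⟩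
  · rintro ⟨⟨h1, h2⟩, ⟨h3, h4⟩, h5⟩
    refine ⟨⟨h1, ⟨h4, h3⟩, ?_⟩, by omega⟩
    intro y hy z hz
    rcases List.mem_cons.1 hz with rfl | hz
    · exact h2 y hy
    · exact lt_trans (h2 y hy) (h4 z hz)

theorem cs_self {S : Set X} {l : List X} {m : ℕ} (h : l ∈ cs S m) : l ∈ cs S l.length :=
  ⟨h.1, h.2.1, rfl⟩

/-- the boundary of an infinite chain -/
def bd (F : List X → B) : List X → B
  | [] => 0
  | x :: b => ∑ y ∈ fs (Set.Iio x), F (y :: x :: b) - lbd (Set.Ioi x) (fun b' => F (x :: b')) b

/-- the cap product with the orientation -/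
def capF (n : ℕ) (ξ : List X → ℤ) (f : List X → B) : List X → B
  | [] => 0
  | x :: b => ∑ a ∈ chn (Set.Iio x) (n - b.length), ξ (a ++ x :: b) • f (a ++ [x])

theorem bd_cons (F : List X → B) (x : X) (b : List X) :
    bd F (x :: b) = ∑ y ∈ fs (Set.Iio x), F (y :: x :: b) -
      lbd (Set.Ioi x) (fun b' => F (x :: b')) b := rfl

theorem capF_cons (ξ : List X → ℤ) (f : List X → B) (x : X) (b : List X) :
    capF n ξ f (x :: b) =
      ∑ a ∈ chn (Set.Iio x) (n - b.length), ξ (a ++ x :: b) • f (a ++ [x]) := rfl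

theorem lbd_sub (S : Set X) (F G : List X → B) (b : List X) :
    lbd S (fun l => F l - G l) b = lbd S F b - lbd S G b := by
  simp [lbd, smul_sub]

theorem lbd_add (S : Set X) (F G : List X → B) (b : List X) :
    lbd S (fun l => F l + G l) b = lbd S F b + lbd S G b := by
  simp [lbd, smul_add, Finset.sum_add_distrib]

theorem lbd_sum {ι : Type} (s : Finset ι) (S : Set X) (F : ι → List X → B) (b : List X) :
    lbd S (fun l => ∑ i ∈ s, F i l) b = ∑ i ∈ s, lbd S (F i) b := by
  simp only [lbd, Finset.smul_sum]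
  rw [Finset.sum_comm]

theorem lbd_zsmul (S : Set X) (k : ℤ) (F : List X → B) (b : List X) :
    lbd S (fun l => k • F l) b = k • lbd S F b := by
  simp only [lbd, Finset.smul_sum]
  exact Finset.sum_congr rfl fun l _ => smul_comm _ _ _

theorem bd_sub (F G : List X → B) (l : List X) :
    bd (fun l => F l - G l) l = bd F l - bd G l := by
  cases l with
  | nil => simp [bd]
  | cons x b => simp only [bd_cons, lbd_sub, Finset.sum_sub_distrib]; abel

theorem bd_add (F G : List X → B) (l : List X) :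
    bd (fun l => F l + G l) l = bd F l + bd G l := by
  cases l with
  | nil => simp [bd]
  | cons x b => simp only [bd_cons, lbd_add, Finset.sum_add_distrib]; abel

theorem bd_zsmul (k : ℤ) (F : List X → B) (l : List X) :
    bd (fun l => k • F l) l = k • bd F l := by
  cases l with
  | nil => simp [bd]
  | cons x b => simp only [bd_cons, lbd_zsmul, smul_sub, Finset.smul_sum]

theorem capF_sub (ξ : List X → ℤ) (F G : List X → B) (l : List X) :
    capF n ξ (fun l => F l - G l) l = capF n ξ F l - capF n ξ G l := by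
  cases l with
  | nil => simp [capF]
  | cons x b => simp only [capF_cons, smul_sub, Finset.sum_sub_distrib]

theorem capF_add (ξ : List X → ℤ) (F G : List X → B) (l : List X) :
    capF n ξ (fun l => F l + G l) l = capF n ξ F l + capF n ξ G l := by
  cases l with
  | nil => simp [capF]
  | cons x b => simp only [capF_cons, smul_add, Finset.sum_add_distrib]

theorem capF_zsmul (ξ : List X → ℤ) (k : ℤ) (F : List X → B) (l : List X) :
    capF n ξ (fun l => k • F l) l = k • capF n ξ F l := by
  cases l with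
  | nil => simp [capF]
  | cons x b =>
    simp only [capF_cons, Finset.smul_sum]
    exact Finset.sum_congr rfl fun l _ => smul_comm _ _ _

theorem Iio_inter_Iio_of_lt {x y : X} (h : y < x) : Set.Iio x ∩ Set.Iio y = Set.Iio y := by
  ext z
  exact ⟨fun h' => h'.2, fun h' => ⟨lt_trans h' h, h'⟩⟩

theorem Ioi_inter_Ioi_of_lt {x y : X} (h : y < x) : Set.Ioi y ∩ Set.Ioi x = Set.Ioi x := by
  ext z
  exact ⟨fun h' => h'.2, fun h' => ⟨lt_trans h h', h'⟩⟩

theorem bd_congr (H : HM n X) {F G : List X → B} {l : List X} {m : ℕ}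
    (hl : l ∈ cs (Set.univ : Set X) m)
    (h : ∀ l' ∈ cs (Set.univ : Set X) (m + 1), F l' = G l') : bd F l = bd G l := by
  cases l with
  | nil => rfl
  | cons x b =>
    have hm := cs_length hl
    simp only [List.length_cons] at hm
    subst hm
    have hb := (mem_cs_mid (a := []) (x := x) (b := b) (m := b.length + 1)).1 hl
    rw [bd_cons, bd_cons]
    congr 1
    · refine Finset.sum_congr rfl fun y hy => h _ ?_
      rw [mem_fs (H.fin_Iio x)] at hy
      refine (mem_cs_mid (a := [y]) (x := x) (b := b)).2 ⟨⟨List.pairwise_singleton _ _, ?_, rfl⟩,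
        hb.2.1, by simp; omega⟩
      simpa using hy
    · refine lbd_congr (H.fin_Ioi x) fun b' hb' => h _ ?_
      refine (mem_cs_mid (a := []) (x := x) (b := b')).2 ⟨⟨List.Pairwise.nil, by simp, rfl⟩,
        cs_self hb', ?_⟩
      have := cs_length hb'
      simp
      omega

theorem bd_bd (H : HM n X) (G : List X → B) {l : List X} {m : ℕ}
    (hl : l ∈ cs (Set.univ : Set X) m) : bd (bd G) l = 0 := by
  cases l with
  | nil => rfl
  | cons x b =>
    have hb : b ∈ cs (Set.Ioi x) b.length := ((mem_cs_mid (a := []) (x := x) (b := b)).1 hl).2.1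
    rw [bd_cons]
    have h1 : ∀ y ∈ fs (Set.Iio x), bd G (y :: x :: b) =
        ∑ w ∈ fs (Set.Iio y), G (w :: y :: x :: b) -
          ∑ w ∈ fs (Set.Ioi y ∩ Set.Iio x), G (y :: w :: x :: b) +
          lbd (Set.Ioi x) (fun b' => G (y :: x :: b')) b := by
      intro y hy
      rw [mem_fs (H.fin_Iio x)] at hy
      have hy' : y < x := hy
      rw [bd_cons, lbd_cons (H.fin_Ioi y), Ioi_inter_Ioi_of_lt hy']
      · abel
      · refine mem_cs_cons.2 ⟨hy', ?_⟩
        rw [Ioi_inter_Ioi_of_lt hy']
        exact hb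
    rw [Finset.sum_congr rfl h1]
    have h2 : (fun b' => bd G (x :: b')) = fun b' =>
        (∑ y ∈ fs (Set.Iio x), G (y :: x :: b')) -
          lbd (Set.Ioi x) (fun b'' => G (x :: b'')) b' := by
      funext b'
      rw [bd_cons]
    rw [h2, lbd_sub, lbd_sum, lbd_lbd (H.fin_Ioi x)]
    rw [Finset.sum_add_distrib, Finset.sum_sub_distrib]
    have h3 : ∑ y ∈ fs (Set.Iio x), ∑ w ∈ fs (Set.Iio y), G (w :: y :: x :: b) =
        ∑ y ∈ fs (Set.Iio x), ∑ w ∈ fs (Set.Ioi y ∩ Set.Iio x), G (y :: w :: x :: b) := by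
      apply Finset.sum_comm'
      intro y w
      rw [mem_fs (H.fin_Iio x), mem_fs (H.fin_Iio x), mem_fs (H.fin_Iio y),
        mem_fs ((H.fin_Iio x).subset Set.inter_subset_right)]
      constructor
      · rintro ⟨h4, h5⟩
        exact ⟨⟨h5, h4⟩, lt_trans (show w < y from h5) (show y < x from h4)⟩
      · rintro ⟨⟨h4, h5⟩, h6⟩
        exact ⟨h5, h4⟩
    rw [h3]
    abel

theorem sum_capF (H : HM n X) (ξ : List X → ℤ) (g : List X → B) {x : X} {b : List X} {k : ℕ}
    (hk : k + 1 + b.length = n) :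
    ∑ y ∈ fs (Set.Iio x), capF n ξ g (y :: x :: b) =
      ∑ a ∈ chn (Set.Iio x) (k + 1), ξ (a ++ x :: b) • g a := by
  rw [sum_chn_append (H.fin_Iio x)]
  refine Finset.sum_congr rfl fun y hy => ?_
  rw [mem_fs (H.fin_Iio x)] at hy
  rw [Iio_inter_Iio_of_lt (show y < x from hy), capF_cons]
  have h : n - (x :: b).length = k := by
    simp only [List.length_cons]
    omega
  rw [h]
  refine Finset.sum_congr rfl fun a _ => ?_
  simp

theorem lbd_capF (H : HM n X) {ξ : List X → ℤ} (hξ : IsOri H ξ) (g : List X → B) {x : X}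
    {b : List X} {k : ℕ} (hk : k + 1 + b.length = n) :
    lbd (Set.Ioi x) (fun b' => capF n ξ g (x :: b')) b = 0 := by
  unfold lbd
  by_cases hr : H.rk x = k
  · obtain ⟨ξm, hm, ξp, hp, hdm, hdp, -, -, hmp⟩ := hξ x
    have e1 : n - H.rk x = b.length + 1 := by omega
    rw [e1] at hp hmp
    rw [hr] at hmp
    have h1 : ∀ b' ∈ chn (Set.Ioi x) (b.length + 1), (dl b' b) • capF n ξ g (x :: b') =
        ∑ a ∈ chn (Set.Iio x) k, (ξp b' * dl b' b) • (ξm a • g (a ++ [x])) := by
      intro b' hb'
      rw [mem_chn (H.fin_Ioi x)] at hb'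
      rw [capF_cons, Finset.smul_sum]
      have e2 : n - b'.length = k := by
        have := cs_length hb'
        omega
      rw [e2]
      refine Finset.sum_congr rfl fun a ha => ?_
      rw [mem_chn (H.fin_Iio x)] at ha
      rw [hmp a ha b' hb', smul_smul, smul_smul]
      congr 1
      ring
    rw [Finset.sum_congr rfl h1, Finset.sum_comm]
    refine Finset.sum_eq_zero fun a _ => ?_
    rw [← Finset.sum_smul, ← d_apply_eq_sum (H.fin_Ioi x) hp, hdp]
    simp
  · refine Finset.sum_eq_zero fun b' hb' => ?_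
    rw [mem_chn (H.fin_Ioi x)] at hb'
    show (dl b' b) • capF n ξ g (x :: b') = 0
    rw [capF_cons, Finset.sum_eq_zero, smul_zero]
    intro a ha
    exfalso
    rw [mem_chn (H.fin_Iio x)] at ha
    have h1 := H.up_le hb'
    have h2 := H.down_le ha
    have h3 := cs_length hb'
    have h4 := H.rk_le x
    omega

theorem bd_capF (H : HM n X) {ξ : List X → ℤ} (hξ : IsOri H ξ) (g : List X → B) {x : X}
    {b : List X} {i : ℕ} (hb : b ∈ cs (Set.Ioi x) b.length) (hi : i + b.length = n)
    (h0 : i = 0 → g [] = 0) :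
    bd (capF n ξ g) (x :: b) = ∑ a ∈ chn (Set.Iio x) i, ξ (a ++ x :: b) • g a := by
  cases i with
  | zero =>
    have hb2 := H.up_le hb
    have hr := H.rk_le x
    have hrx : H.rk x = 0 := by omega
    have h1 : ∀ y, ¬ y < x := by
      intro y hy
      have := H.rk_lt y x hy
      omega
    rw [bd_cons, Finset.sum_eq_zero, lbd, Finset.sum_eq_zero, Finset.sum_eq_zero, sub_zero]
    · intro a ha
      rw [mem_chn (H.fin_Iio x), mem_cs_zero] at ha
      rw [ha, h0 rfl, smul_zero]
    · intro b' hb'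
      rw [mem_chn (H.fin_Ioi x)] at hb'
      have := H.up_le hb'
      omega
    · intro y hy
      rw [mem_fs (H.fin_Iio x)] at hy
      exact absurd hy (h1 y)
  | succ k =>
    rw [bd_cons, sum_capF H ξ g hi, lbd_capF H hξ g hi, sub_zero]

theorem capF_cob (H : HM n X) {ξ : List X → ℤ} (hξ : IsOri H ξ) (g : List X → B) {x : X}
    {b : List X} {i : ℕ} (hb : b ∈ cs (Set.Ioi x) b.length) (hi : i + b.length = n) :
    capF n ξ (fun l => pr g (dl l)) (x :: b) =
      (-1 : ℤ) ^ i • ∑ a ∈ chn (Set.Iio x) i, ξ (a ++ x :: b) • g a := by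
  rw [capF_cons]
  have e1 : n - b.length = i := by omega
  rw [e1, Finset.smul_sum]
  have h1 : ∀ a ∈ chn (Set.Iio x) i, ξ (a ++ x :: b) • pr g (dl (a ++ [x])) =
      ξ (a ++ x :: b) • pr (fun l => g (l ++ [x])) (dl a) +
        (-1 : ℤ) ^ i • ξ (a ++ x :: b) • g a := by
    intro a ha
    rw [mem_chn (H.fin_Iio x)] at ha
    rw [pr_dl_append, smul_add, cs_length ha]
    congr 1
    exact smul_comm _ _ _
  rw [Finset.sum_congr rfl h1, Finset.sum_add_distrib, add_eq_right]
  by_cases hr : H.rk x = i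
  · obtain ⟨ξm, hm, ξp, hp, hdm, hdp, -, -, hmp⟩ := hξ x
    have e2 : n - H.rk x = b.length := by omega
    rw [e2] at hmp hp
    rw [hr] at hm hmp
    have h2 : ∀ a ∈ chn (Set.Iio x) i, ξ (a ++ x :: b) • pr (fun l => g (l ++ [x])) (dl a) =
        ξp b • ξm a • pr (fun l => g (l ++ [x])) (dl a) := by
      intro a ha
      rw [mem_chn (H.fin_Iio x)] at ha
      rw [hmp a ha b hb, smul_smul, mul_comm]
    rw [Finset.sum_congr rfl h2, ← Finset.smul_sum,
      ← pr_eq_sum (H.fin_Iio x) hm (fun a => pr (fun l => g (l ++ [x])) (dl a)), ← pr_d, hdm]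
    simp
  · refine Finset.sum_eq_zero fun a ha => ?_
    exfalso
    rw [mem_chn (H.fin_Iio x)] at ha
    have h1 := H.up_le hb
    have h2 := H.down_le ha
    have h4 := H.rk_le x
    omega

theorem bd_capF_eq (H : HM n X) {ξ : List X → ℤ} (hξ : IsOri H ξ) (g : List X → B) {l : List X}
    {i j : ℕ} (hl : l ∈ cs (Set.univ : Set X) j) (hj : l ≠ []) (hi : i + j = n + 1)
    (h0 : i = 0 → g [] = 0) :
    bd (capF n ξ g) l = (-1 : ℤ) ^ i • capF n ξ (fun l => pr g (dl l)) l := by
  cases l with
  | nil => exact absurd rfl hj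
  | cons x b =>
    have h1 := (mem_cs_mid (a := []) (x := x) (b := b)).1 hl
    have h2 : i + b.length = n := by
      have := h1.2.2
      simp only [List.length_nil] at this
      omega
    rw [bd_capF H hξ g h1.2.1 h2 h0, capF_cob H hξ g h1.2.1 h2, smul_smul, ← mul_pow]
    simp

theorem bd_ori (H : HM n X) {ξ : List X → ℤ} (hξ : IsOri H ξ) {l : List X}
    (hl : l ∈ cs (Set.univ : Set X) n) : bd ξ l = 0 := by
  cases l with
  | nil => rfl
  | cons x b =>
    have h1 := (mem_cs_mid (a := []) (x := x) (b := b)).1 hl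
    have h2 : b.length + 1 = n := by
      have := h1.2.2
      simp only [List.length_nil] at this
      omega
    have hup := H.up_le h1.2.1
    have hrk := H.rk_le x
    obtain ⟨ξm, hm, ξp, hp, hdm, hdp, -, -, hmp⟩ := hξ x
    rw [bd_cons]
    rcases Nat.eq_zero_or_pos (H.rk x) with hr | hr
    · have h3 : ∑ y ∈ fs (Set.Iio x), ξ (y :: x :: b) = 0 := by
        refine Finset.sum_eq_zero fun y hy => ?_
        rw [mem_fs (H.fin_Iio x)] at hy
        have := H.rk_lt y x hy
        omega
      rw [h3, zero_sub, neg_eq_zero]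
      rw [hr] at hmp hp
      have e : n - 0 = b.length + 1 := by omega
      rw [e] at hmp hp
      have h4 : ∀ b' ∈ chn (Set.Ioi x) (b.length + 1), (dl b' b) • ξ (x :: b') =
          ξm [] * (ξp b' * dl b' b) := by
        intro b' hb'
        rw [mem_chn (H.fin_Ioi x)] at hb'
        have := hmp [] (mem_cs_zero.2 rfl) b' hb'
        simp only [List.nil_append] at this
        rw [this, smul_eq_mul]
        ring
      unfold lbd
      rw [Finset.sum_congr rfl h4, ← Finset.mul_sum, ← d_apply_eq_sum (H.fin_Ioi x) hp, hdp]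
      simp
    · have hr1 : H.rk x = 1 := by omega
      have h3 : lbd (Set.Ioi x) (fun b' => ξ (x :: b')) b = 0 := by
        refine Finset.sum_eq_zero fun b' hb' => ?_
        rw [mem_chn (H.fin_Ioi x)] at hb'
        have := H.up_le hb'
        omega
      rw [h3, sub_zero]
      have e : n - H.rk x = b.length := by omega
      rw [e] at hmp hp
      rw [hr1] at hmp hm
      have h5 : ∀ y ∈ fs (Set.Iio x), ξ (y :: x :: b) =
          (∑ a ∈ chn (Set.Iio x ∩ Set.Iio y) 0, ξm (a ++ [y]) * dl (a ++ [y]) []) * ξp b := by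
        intro y hy
        rw [mem_fs (H.fin_Iio x)] at hy
        have hs : [y] ∈ cs (Set.Iio x) 1 := ⟨List.pairwise_singleton _ _, by simpa using hy, rfl⟩
        have := hmp [y] hs b h1.2.1
        simp only [List.singleton_append] at this
        rw [this]
        have h6 : chn (Set.Iio x ∩ Set.Iio y) 0 = {[]} := by
          ext l
          rw [mem_chn ((H.fin_Iio x).subset Set.inter_subset_left), mem_cs_zero]
          simp
        rw [h6]
        simp [dl_cons, dl_nil]
      rw [Finset.sum_congr rfl h5, ← Finset.sum_mul,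
        ← sum_chn_append (H.fin_Iio x) 0 (fun a => ξm a * dl a []),
        ← d_apply_eq_sum (H.fin_Iio x) hm, hdm]
      simp

end

end Pool.Agent.Helper59.PD
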