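import Pool.Agent.Helper59.PD.Pdt_B

/-! Poincare duality, part C: equivariant choice of local contractions. -/

set_option autoImplicit false
set_option linter.unusedSectionVars false

namespace Pool.Agent.Helper59.PD

universe u

noncomputable section

variable {n : ℕ} {X : Type} [PartialOrder X]

/-- contraction data of a homology sphere -/
structure Ctr (S : Set X) (m : ℕ) (z : Ch X) (h : List X → Ch X) (c : List X → ℤ) : Prop where
  z_mem : z ∈ CC S m
  dz : d z = 0
  cz : linZ c z = 1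
  H_mem : ∀ k, ∀ l ∈ cs S k, h l ∈ CC S (k + 1)
  c_zero : ∀ k, k ≠ m → ∀ l ∈ cs S k, c l = 0
  eq : ∀ k, ∀ l ∈ cs S k, d (h l) + lin h (dl l) = Finsupp.single l 1 - c l • z

theorem lmap_congr {M : Type} [AddCommGroup M] {T₁ T₂ : Ch X →ₗ[ℤ] M} {S : Set X} {k : ℕ}
    {w : Ch X} (hw : w ∈ CC S k)
    (h : ∀ l ∈ cs S k, T₁ (Finsupp.single l 1) = T₂ (Finsupp.single l 1)) : T₁ w = T₂ w := by
  unfold CC at hw
  rw [Finsupp.supported_eq_span_single] at hw
  refine LinearMap.eqOn_span (s := (fun i => Finsupp.single i (1 : ℤ)) '' cs S k) ?_ hw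
  rintro _ ⟨l, hl, rfl⟩
  exact h l hl

theorem lin_mem {S : Set X} {k : ℕ} {w : Ch X} (hw : w ∈ CC S k) {h : List X → Ch X}
    (hh : ∀ l ∈ cs S k, h l ∈ CC S (k + 1)) : lin h w ∈ CC S (k + 1) := by
  unfold lin
  rw [Finsupp.linearCombination_apply]
  refine Submodule.sum_mem _ fun l hl => Submodule.smul_mem _ _ (hh l ?_)
  exact mem_CC_iff.1 hw l (Finsupp.mem_support_iff.1 hl)

theorem exists_mem_cs_of_sph {S : Set X} {m : ℕ} (h : Sph S m) : ∃ l, l ∈ cs S m := by
  obtain ⟨z, hz, -, h2, -⟩ := h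
  by_contra hcon
  push Not at hcon
  have hz0 : z = 0 := by
    ext l
    by_contra hl
    exact hcon l (mem_CC_iff.1 hz l hl)
  have := h2 1 0 (Submodule.zero_mem _) (by rw [hz0]; simp)
  exact one_ne_zero this

theorem exists_ctr {S : Set X} {m : ℕ} (h : Sph S m) (htop : ∀ l, l ∉ cs S (m + 1)) {ζ : Ch X}
    (hζ : ζ ∈ CC S m) (hd : d ζ = 0) (hu : ∀ l ∈ cs S m, ζ l = 1 ∨ ζ l = -1) :
    ∃ hh c, Ctr S m ζ hh c := by
  obtain ⟨z, hh, c, hz, hdz, hcz, hH, hc, heq⟩ := h.contraction
  obtain ⟨l₀, hl₀⟩ := exists_mem_cs_of_sph h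
  have key : d (lin hh ζ) + lin hh (d ζ) = ζ - linZ c ζ • z := by
    have := lmap_congr (T₁ := d ∘ₗ lin hh + lin hh ∘ₗ d)
      (T₂ := LinearMap.id - (linZ c).smulRight z) hζ (by
        intro l hl
        simp only [LinearMap.add_apply, LinearMap.comp_apply, LinearMap.sub_apply,
          LinearMap.id_apply, LinearMap.smulRight_apply, lin_single, d_single, one_smul]
        rw [heq m l hl]
        simp [linZ])
    simpa using this
  have h0 : lin hh ζ = 0 := by
    have h1 := lin_mem hζ (hH m)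
    ext l
    by_contra hl
    exact htop l (mem_CC_iff.1 h1 l hl)
  rw [h0, hd, map_zero, map_zero, add_zero] at key
  set e := linZ c ζ with he
  have hze : ζ = e • z := by
    rw [eq_comm, sub_eq_zero] at key
    exact key
  have hunit : e * e = 1 := by
    have h1 : ζ l₀ = e * z l₀ := by
      conv_lhs => rw [hze]
      simp
    have h2 : IsUnit e := by
      apply isUnit_of_mul_isUnit_left (y := z l₀)
      rw [← h1]
      rcases hu l₀ hl₀ with h3 | h3 <;> rw [h3]
      · exact isUnit_one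
      · exact isUnit_one.neg
    rcases Int.isUnit_iff.1 h2 with h3 | h3 <;> rw [h3] <;> rfl
  have hez : e • ζ = z := by
    conv_lhs => rw [hze]
    rw [smul_smul, hunit, one_smul]
  refine ⟨hh, fun l => e * c l, hζ, hd, ?_, hH, ?_, ?_⟩
  · have h1 : linZ (fun l => e * c l) ζ = e * linZ c ζ := by
      have := pr_zsmul (B := ℤ) c e ζ
      simpa [pr, linZ] using this
    rw [h1, ← he, hunit]
  · intro k hk l hl
    rw [hc k hk l hl, mul_zero]
  · intro k l hl
    rw [heq k l hl, mul_comm, mul_smul, hez]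

/-- local data -/
structure LD (X : Type) where
  xm : Ch X
  xp : Ch X
  Hm : List X → Ch X
  Hp : List X → Ch X
  cm : List X → ℤ
  cp : List X → ℤ

/-- the properties of the local data at `x` -/
structure LDx (H : HM n X) (ξ : List X → ℤ) (x : X) (D : LD X) : Prop where
  ctm : Ctr (Set.Iio x) (H.rk x) D.xm D.Hm D.cm
  ctp : Ctr (Set.Ioi x) (n - H.rk x) D.xp D.Hp D.cp
  mul : ∀ a ∈ cs (Set.Iio x) (H.rk x), ∀ b ∈ cs (Set.Ioi x) (n - H.rk x),
    ξ (a ++ x :: b) = D.xm a * D.xp b
  unitp : ∀ b ∈ cs (Set.Ioi x) (n - H.rk x), D.xp b = 1 ∨ D.xp b = -1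
  exb : ∃ b, b ∈ cs (Set.Ioi x) (n - H.rk x)

theorem exists_ld (H : HM n X) {ξ : List X → ℤ} (hξ : IsOri H ξ) (x : X) :
    ∃ D, LDx H ξ x D := by
  obtain ⟨ξm, hm, ξp, hp, hdm, hdp, hum, hup, hmp⟩ := hξ x
  obtain ⟨h1, c1, hc1⟩ := exists_ctr (H.down x) (fun l hl => by
    have := H.down_le hl
    omega) hm hdm hum
  obtain ⟨h2, c2, hc2⟩ := exists_ctr (H.up x) (fun l hl => by
    have := H.up_le hl
    omega) hp hdp hup
  exact ⟨⟨ξm, ξp, h1, h2, c1, c2⟩, hc1, hc2, hmp, hup, exists_mem_cs_of_sph (H.up x)⟩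

section act

variable {π : Type} [Group π] [MulAction π X]

/-- translation of lists -/
def tg (g : π) (l : List X) : List X := l.map (g • ·)

/-- translation of chains -/
def tC (g : π) : Ch X →ₗ[ℤ] Ch X := Finsupp.lmapDomain ℤ ℤ (tg g)

@[simp] theorem tg_nil (g : π) : tg g ([] : List X) = [] := rfl

@[simp] theorem tg_cons (g : π) (x : X) (l : List X) : tg g (x :: l) = (g • x) :: tg g l := rfl

@[simp] theorem tg_append (g : π) (l l' : List X) : tg g (l ++ l') = tg g l ++ tg g l' := by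
  simp [tg]

@[simp] theorem tg_length (g : π) (l : List X) : (tg g l).length = l.length := by
  simp [tg]

theorem tg_mul (g h : π) (l : List X) : tg (g * h) l = tg g (tg h l) := by
  simp [tg, mul_smul]

@[simp] theorem tg_one (l : List X) : tg (1 : π) l = l := by
  simp [tg]

@[simp] theorem tg_inv_tg (g : π) (l : List X) : tg g⁻¹ (tg g l) = l := by
  rw [← tg_mul, inv_mul_cancel, tg_one]

@[simp] theorem tg_tg_inv (g : π) (l : List X) : tg g (tg g⁻¹ l) = l := by
  rw [← tg_mul, mul_inv_cancel, tg_one]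

theorem tg_injective (g : π) : Function.Injective (tg g : List X → List X) := by
  intro l l' h
  have := congrArg (tg g⁻¹) h
  simpa using this

@[simp] theorem tC_single (g : π) (l : List X) (m : ℤ) :
    tC g (Finsupp.single l m) = Finsupp.single (tg g l) m := by
  simp [tC]

theorem tC_mul (g h : π) (c : Ch X) : tC (g * h) c = tC g (tC h c) := by
  induction c using Finsupp.induction_linear with
  | zero => simp
  | add c₁ c₂ h₁ h₂ => simp [h₁, h₂]
  | single l m => simp [tg_mul]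

theorem tC_apply_tg (g : π) (c : Ch X) (l : List X) : tC g c (tg g l) = c l := by
  unfold tC
  rw [Finsupp.lmapDomain_apply]
  exact Finsupp.mapDomain_apply (tg_injective g) _ _

theorem tC_apply (g : π) (c : Ch X) (l : List X) : tC g c l = c (tg g⁻¹ l) := by
  have := tC_apply_tg g c (tg g⁻¹ l)
  rwa [tg_tg_inv] at this

theorem dl_tg (g : π) (l : List X) : dl (tg g l) = tC g (dl l) := by
  induction l with
  | nil => simp [dl_nil]
  | cons x l ih =>
    rw [tg_cons, dl_cons, dl_cons, map_sub, tC_single, ih]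
    congr 1
    generalize dl l = c
    clear ih
    induction c using Finsupp.induction_linear with
    | zero => simp
    | add c₁ c₂ h₁ h₂ => simp [h₁, h₂]
    | single l m => simp [consL_single]

theorem d_tC (g : π) (c : Ch X) : d (tC g c) = tC g (d c) := by
  induction c using Finsupp.induction_linear with
  | zero => simp
  | add c₁ c₂ h₁ h₂ => simp [h₁, h₂]
  | single l m => simp [d_single, dl_tg]

theorem lin_tC (g : π) (h : List X → Ch X) (c : Ch X) :
    lin (fun l => tC g (h (tg g⁻¹ l))) (tC g c) = tC g (lin h c) := by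
  induction c using Finsupp.induction_linear with
  | zero => simp
  | add c₁ c₂ h₁ h₂ => simp [h₁, h₂]
  | single l m => simp [lin_single]

theorem linZ_tC (g : π) (f : List X → ℤ) (c : Ch X) :
    linZ (fun l => f (tg g⁻¹ l)) (tC g c) = linZ f c := by
  induction c using Finsupp.induction_linear with
  | zero => simp
  | add c₁ c₂ h₁ h₂ => simp [h₁, h₂]
  | single l m => simp [linZ]

theorem pr_tC {B : Type u} [AddCommGroup B] (g : π) (f : List X → B) (c : Ch X) :
    pr f (tC g c) = pr (fun l => f (tg g l)) c := by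
  induction c using Finsupp.induction_linear with
  | zero => simp
  | add c₁ c₂ h₁ h₂ => simp [h₁, h₂]
  | single l m => simp

theorem tg_mem_cs (mono : ∀ (g : π) (x y : X), x < y → g • x < g • y) {S T : Set X} {g : π}
    (h : ∀ y ∈ S, g • y ∈ T) {k : ℕ} {l : List X} (hl : l ∈ cs S k) : tg g l ∈ cs T k := by
  refine ⟨?_, ?_, ?_⟩
  · unfold tg
    rw [List.pairwise_map]
    exact hl.1.imp fun h => mono g _ _ h
  · intro y hy
    obtain ⟨x, hx, rfl⟩ := List.mem_map.1 hy
    exact h x (hl.2.1 x hx)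
  · rw [tg_length]
    exact hl.2.2

theorem tC_mem_CC (mono : ∀ (g : π) (x y : X), x < y → g • x < g • y) {S T : Set X} {g : π}
    (h : ∀ y ∈ S, g • y ∈ T) {k : ℕ} {c : Ch X} (hc : c ∈ CC S k) : tC g c ∈ CC T k := by
  rw [mem_CC_iff]
  intro l hl
  rw [tC_apply] at hl
  have := tg_mem_cs mono h (mem_CC_iff.1 hc _ hl)
  rwa [tg_tg_inv] at this

theorem Ctr.tr (mono : ∀ (g : π) (x y : X), x < y → g • x < g • y) {S T : Set X} {g : π}
    (hS : ∀ y ∈ S, g • y ∈ T) (hT : ∀ y ∈ T, g⁻¹ • y ∈ S) {m : ℕ} {z : Ch X}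
    {h : List X → Ch X} {c : List X → ℤ} (hc : Ctr S m z h c) :
    Ctr T m (tC g z) (fun l => tC g (h (tg g⁻¹ l))) (fun l => c (tg g⁻¹ l)) where
  z_mem := tC_mem_CC mono hS hc.z_mem
  dz := by rw [d_tC, hc.dz, map_zero]
  cz := by rw [linZ_tC, hc.cz]
  H_mem := fun k l hl => tC_mem_CC mono hS (hc.H_mem k _ (tg_mem_cs mono hT hl))
  c_zero := fun k hk l hl => hc.c_zero k hk _ (tg_mem_cs mono hT hl)
  eq := by
    intro k l hl
    have h1 := hc.eq k _ (tg_mem_cs mono hT hl)
    have h2 : dl l = tC g (dl (tg g⁻¹ l)) := by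
      rw [← dl_tg, tg_tg_inv]
    rw [h2, lin_tC, d_tC, ← map_add, h1, map_sub, tC_single, tg_tg_inv, map_smul]

/-- transport of local data -/
def LD.tr (g : π) (D : LD X) : LD X where
  xm := tC g D.xm
  xp := tC g D.xp
  Hm := fun l => tC g (D.Hm (tg g⁻¹ l))
  Hp := fun l => tC g (D.Hp (tg g⁻¹ l))
  cm := fun l => D.cm (tg g⁻¹ l)
  cp := fun l => D.cp (tg g⁻¹ l)

theorem LD.tr_mul (g h : π) (D : LD X) : LD.tr (g * h) D = LD.tr g (LD.tr h D) := by
  simp only [LD.tr, tC_mul, mul_inv_rev, tg_mul]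

theorem LDx.tr (mono : ∀ (g : π) (x y : X), x < y → g • x < g • y) {H : HM n X}
    (rk_smul : ∀ (g : π) (x : X), H.rk (g • x) = H.rk x) {ξ : List X → ℤ}
    (hinv : ∀ (g : π), ∀ l ∈ cs (Set.univ : Set X) (n + 1), ξ (tg g l) = ξ l)
    {x : X} {D : LD X} (hD : LDx H ξ x D) (g : π) : LDx H ξ (g • x) (D.tr g) where
  ctm := by
    rw [rk_smul]
    refine hD.ctm.tr mono (fun y hy => mono g y x hy) fun y hy => ?_
    have := mono g⁻¹ _ _ (show y < g • x from hy)
    rwa [inv_smul_smul] at this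
  ctp := by
    rw [rk_smul]
    refine hD.ctp.tr mono (fun y hy => mono g x y hy) fun y hy => ?_
    have := mono g⁻¹ _ _ (show g • x < y from hy)
    rwa [inv_smul_smul] at this
  mul := by
    intro a ha b hb
    rw [rk_smul] at ha hb
    have ha' : tg g⁻¹ a ∈ cs (Set.Iio x) (H.rk x) := tg_mem_cs mono (fun y hy => by
      have := mono g⁻¹ _ _ (show y < g • x from hy)
      rwa [inv_smul_smul] at this) ha
    have hb' : tg g⁻¹ b ∈ cs (Set.Ioi x) (n - H.rk x) := tg_mem_cs mono (fun y hy => by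
      have := mono g⁻¹ _ _ (show g • x < y from hy)
      rwa [inv_smul_smul] at this) hb
    have h1 := hD.mul _ ha' _ hb'
    show ξ (a ++ (g • x) :: b) = tC g D.xm a * tC g D.xp b
    rw [tC_apply, tC_apply, ← h1, ← hinv g (tg g⁻¹ a ++ x :: tg g⁻¹ b)]
    · simp
    · refine mem_cs_mid.2 ⟨cs_self ha', cs_self hb', ?_⟩
      rw [cs_length ha', cs_length hb']
      have := H.rk_le x
      omega
  unitp := by
    intro b hb
    rw [rk_smul] at hb
    have hb' : tg g⁻¹ b ∈ cs (Set.Ioi x) (n - H.rk x) := tg_mem_cs mono (fun y hy => by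
      have := mono g⁻¹ _ _ (show g • x < y from hy)
      rwa [inv_smul_smul] at this) hb
    show tC g D.xp b = 1 ∨ tC g D.xp b = -1
    rw [tC_apply]
    exact hD.unitp _ hb'
  exb := by
    obtain ⟨b, hb⟩ := hD.exb
    rw [rk_smul]
    exact ⟨tg g b, tg_mem_cs mono (fun y hy => mono g x y hy) hb⟩

theorem exists_family (mono : ∀ (g : π) (x y : X), x < y → g • x < g • y)
    (free : ∀ (g : π) (x : X), g • x = x → g = 1) {H : HM n X}
    (rk_smul : ∀ (g : π) (x : X), H.rk (g • x) = H.rk x) {ξ : List X → ℤ} (hξ : IsOri H ξ)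
    (hinv : ∀ (g : π), ∀ l ∈ cs (Set.univ : Set X) (n + 1), ξ (tg g l) = ξ l) :
    ∃ D : X → LD X, (∀ x, LDx H ξ x (D x)) ∧ ∀ (g : π) (x : X), D (g • x) = (D x).tr g := by
  classical
  let R := MulAction.orbitRel.Quotient π X
  let mk : X → R := Quotient.mk (MulAction.orbitRel π X)
  let out : R → X := Quotient.out
  choose D₀ hD₀ using fun q : R => exists_ld H hξ (out q)
  have hg : ∀ x : X, ∃ g : π, g • out (mk x) = x := by
    intro x
    have h : (MulAction.orbitRel π X) x (out (mk x)) :=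
      (MulAction.orbitRel π X).symm (Quotient.mk_out (s := MulAction.orbitRel π X) x)
    exact MulAction.orbitRel_apply.1 h
  choose γ hγ using hg
  refine ⟨fun x => (D₀ (mk x)).tr (γ x), fun x => ?_, fun g x => ?_⟩
  · have := (hD₀ (mk x)).tr mono rk_smul hinv (γ x)
    rwa [hγ x] at this
  · have h1 : mk (g • x) = mk x :=
      Quotient.sound (s := MulAction.orbitRel π X) (MulAction.orbitRel_apply.2 ⟨g, rfl⟩)
    have h2 : γ (g • x) = g * γ x := by
      have h3 := hγ (g • x)
      rw [h1] at h3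
      have h4 : ((g * γ x)⁻¹ * γ (g • x)) • out (mk x) = out (mk x) := by
        rw [mul_smul, h3, inv_smul_eq_iff, mul_smul, hγ x]
      have h5 := free _ _ h4
      rw [inv_mul_eq_one] at h5
      exact h5.symm
    show (D₀ (mk (g • x))).tr (γ (g • x)) = ((D₀ (mk x)).tr (γ x)).tr g
    rw [h1, h2, LD.tr_mul]

end act

end

end Pool.Agent.Helper59.PD
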