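import Pool.Agent.Helper59.PD.Pdt_C

/-! Poincare duality, part D: the local step. -/

set_option autoImplicit false
set_option linter.unusedSectionVars false

namespace Pool.Agent.Helper59.PD

universe u

noncomputable section

variable {n : ℕ} {X : Type} [PartialOrder X] {B : Type u} [AddCommGroup B]

/-- local filling of cycles -/
theorem Ctr.fill {S : Set X} (hS : S.Finite) {m : ℕ} {z : Ch X} {h : List X → Ch X}
    {c : List X → ℤ} (hc : Ctr S m z h c) {j : ℕ} {F : List X → B}
    (hF : ∀ k, j = k + 1 → ∀ b ∈ cs S k, lbd S F b = 0) {b₀ : List X} (hb₀ : b₀ ∈ cs S j) :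
    F b₀ = lbd S (fun b' => ∑ b ∈ chn S j, (h b b') • F b) b₀ +
      z b₀ • ∑ b ∈ chn S j, c b • F b := by
  classical
  have h1 : F b₀ = ∑ b ∈ chn S j, (Finsupp.single b (1 : ℤ) b₀) • F b := by
    simp only [Finsupp.single_apply, ite_smul, one_smul, zero_smul]
    rw [Finset.sum_ite_eq' (chn S j) b₀, if_pos ((mem_chn hS).2 hb₀)]
  have h2 : ∀ b ∈ chn S j, (Finsupp.single b (1 : ℤ) b₀) • F b =
      (d (h b) b₀) • F b + (lin h (dl b) b₀) • F b + (z b₀ * c b) • F b := by
    intro b hb
    rw [mem_chn hS] at hb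
    have h3 := hc.eq j b hb
    have h4 : Finsupp.single b (1 : ℤ) = d (h b) + lin h (dl b) + c b • z := by
      rw [h3]
      abel
    rw [h4, ← add_smul, ← add_smul]
    congr 1
    simp [mul_comm]
  rw [h1, Finset.sum_congr rfl h2, Finset.sum_add_distrib, Finset.sum_add_distrib]
  have h5 : ∑ b ∈ chn S j, (lin h (dl b) b₀) • F b = 0 := by
    cases j with
    | zero =>
      refine Finset.sum_eq_zero fun b hb => ?_
      rw [mem_chn hS, mem_cs_zero] at hb
      rw [hb, dl_nil]
      simp
    | succ k =>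
      have h6 : ∀ b ∈ chn S (k + 1), (lin h (dl b) b₀) • F b =
          ∑ b' ∈ chn S k, (h b' b₀) • ((dl b b') • F b) := by
        intro b hb
        rw [mem_chn hS] at hb
        rw [lin_apply_eq_sum hS (dl_mem hb), Finset.sum_smul]
        refine Finset.sum_congr rfl fun b' _ => ?_
        rw [smul_smul, mul_comm]
      rw [Finset.sum_congr rfl h6, Finset.sum_comm]
      refine Finset.sum_eq_zero fun b' hb' => ?_
      rw [mem_chn hS] at hb'
      rw [← Finset.smul_sum]
      have h7 := hF k rfl b' hb'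
      unfold lbd at h7
      rw [cs_length hb'] at h7
      rw [h7, smul_zero]
  rw [h5, add_zero]
  congr 1
  · unfold lbd
    rw [cs_length hb₀]
    have h8 : ∀ b ∈ chn S j, (d (h b) b₀) • F b =
        ∑ b' ∈ chn S (j + 1), (dl b' b₀) • ((h b b') • F b) := by
      intro b hb
      rw [mem_chn hS] at hb
      rw [d_apply_eq_sum hS (hc.H_mem j b hb), Finset.sum_smul]
      refine Finset.sum_congr rfl fun b' _ => ?_
      rw [smul_smul, mul_comm]
    rw [Finset.sum_congr rfl h8, Finset.sum_comm]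
    refine Finset.sum_congr rfl fun b' _ => ?_
    rw [Finset.smul_sum]
  · rw [Finset.smul_sum]
    refine Finset.sum_congr rfl fun b _ => ?_
    rw [mul_smul]

/-- local filling of cocycles -/
theorem Ctr.cofill {S : Set X} {m : ℕ} {z : Ch X} {h : List X → Ch X}
    {c : List X → ℤ} (hc : Ctr S m z h c) {i : ℕ} {f : List X → B}
    (hf : ∀ a ∈ cs S (i + 1), pr f (dl a) = 0) {a : List X} (ha : a ∈ cs S i) :
    f a = pr (fun l => pr f (h l)) (dl a) + c a • pr f z := by
  have h1 : f a = pr f (Finsupp.single a 1) := by simp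
  have h2 : Finsupp.single a (1 : ℤ) = d (h a) + lin h (dl a) + c a • z := by
    rw [hc.eq i a ha]
    abel
  rw [h1, h2, map_add, map_add, map_zsmul, pr_lin]
  congr 1
  rw [add_eq_right, pr_d, pr_congr (hc.H_mem i a ha) hf]
  exact pr_zero _

theorem mem_cs_last {x : X} {a : List X} {m : ℕ} :
    a ++ [x] ∈ cs (Set.univ : Set X) (m + 1) ↔ a ∈ cs (Set.Iio x) m := by
  rw [mem_cs_append, Set.univ_inter]
  exact ⟨fun h => h.2, fun h => ⟨Set.mem_univ _, h⟩⟩

theorem mem_cs_first {x : X} {b : List X} {m : ℕ} :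
    x :: b ∈ cs (Set.univ : Set X) (m + 1) ↔ b ∈ cs (Set.Ioi x) m := by
  rw [mem_cs_cons, Set.univ_inter]
  exact ⟨fun h => h.2, fun h => ⟨Set.mem_univ _, h⟩⟩

theorem HM.univ_le (H : HM n X) {l : List X} {m : ℕ} (hl : l ∈ cs (Set.univ : Set X) m) :
    m ≤ n + 1 := by
  have h := H.length_le l hl.1 0 (n + 1) (fun y _ => ⟨Nat.zero_le _, Nat.lt_succ_of_le (H.rk_le y)⟩)
  rw [hl.2.2] at h
  omega

/-- functions given on the lists with last element of rank `p` -/
def dnf (H : HM n X) (p : ℕ) (φ : X → List X → B) (l : List X) : B :=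
  match l.getLast? with
  | none => 0
  | some x => if H.rk x = p then φ x l.dropLast else 0

/-- functions given on the lists with first element of rank `p` -/
def upf (H : HM n X) (p : ℕ) (φ : X → List X → B) (l : List X) : B :=
  match l with
  | [] => 0
  | x :: b => if H.rk x = p then φ x b else 0

@[simp] theorem dnf_nil (H : HM n X) (p : ℕ) (φ : X → List X → B) : dnf H p φ [] = 0 := rfl

@[simp] theorem dnf_append (H : HM n X) (p : ℕ) (φ : X → List X → B) (a : List X) (x : X) :
    dnf H p φ (a ++ [x]) = if H.rk x = p then φ x a else 0 := by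
  simp [dnf]

@[simp] theorem upf_cons (H : HM n X) (p : ℕ) (φ : X → List X → B) (b : List X) (x : X) :
    upf H p φ (x :: b) = if H.rk x = p then φ x b else 0 := rfl

theorem dnf_low (H : HM n X) (p : ℕ) (φ : X → List X → B) {a : List X} {x : X} {m : ℕ}
    (ha : a ∈ cs (Set.Iio x) m) (hx : H.rk x ≤ p) : dnf H p φ a = 0 := by
  rcases List.eq_nil_or_concat' a with rfl | ⟨a', y, rfl⟩
  · rfl
  · have h1 : y < x := ha.2.1 y (by simp)
    have h2 := H.rk_lt y x h1
    rw [dnf_append, if_neg (by omega)]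

theorem pr_dnf (H : HM n X) (p : ℕ) (φ : X → List X → B) {a : List X} {x : X} {m : ℕ}
    (ha : a ∈ cs (Set.Iio x) m) (hx : H.rk x ≤ p) :
    pr (dnf H p φ) (dl (a ++ [x])) = if H.rk x = p then pr (φ x) (dl a) else 0 := by
  rw [pr_dl_append, dnf_low H p φ ha hx, smul_zero, add_zero]
  split_ifs with h
  · congr 2
    funext l
    rw [dnf_append, if_pos h]
  · have h1 : (fun l => dnf H p φ (l ++ [x])) = fun _ => 0 := by
      funext l
      rw [dnf_append, if_neg h]
    rw [h1, pr_zero]

theorem capF_dnf (H : HM n X) (ξ : List X → ℤ) (p : ℕ) (φ : X → List X → B) (x : X)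
    (b : List X) : capF n ξ (dnf H p φ) (x :: b) =
      if H.rk x = p then ∑ a ∈ chn (Set.Iio x) (n - b.length), ξ (a ++ x :: b) • φ x a
      else 0 := by
  rw [capF_cons]
  split_ifs with h
  · refine Finset.sum_congr rfl fun a _ => ?_
    rw [dnf_append, if_pos h]
  · refine Finset.sum_eq_zero fun a _ => ?_
    rw [dnf_append, if_neg h, smul_zero]

theorem bd_upf (H : HM n X) (p : ℕ) (φ : X → List X → B) {x : X} (b : List X)
    (hx : H.rk x ≤ p) : bd (upf H p φ) (x :: b) =
      if H.rk x = p then - lbd (Set.Ioi x) (φ x) b else 0 := by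
  rw [bd_cons]
  have h1 : ∑ y ∈ fs (Set.Iio x), upf H p φ (y :: x :: b) = 0 := by
    refine Finset.sum_eq_zero fun y hy => ?_
    rw [mem_fs (H.fin_Iio x)] at hy
    have := H.rk_lt y x hy
    rw [upf_cons, if_neg (by omega)]
  rw [h1, zero_sub]
  split_ifs with h
  · congr 2
    funext l
    rw [upf_cons, if_pos h]
  · have h2 : (fun b' => upf H p φ (x :: b')) = fun _ => 0 := by
      funext l
      rw [upf_cons, if_neg h]
    rw [h2]
    simp [lbd]

/-- cycles of the mapping cone of the cap product (without equivariance) -/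
structure Cone (n : ℕ) (ξ : List X → ℤ) (i j : ℕ) (f F : List X → B) : Prop where
  c1 : ∀ l ∈ cs (Set.univ : Set X) (i + 2), pr f (dl l) = 0
  c2 : ∀ l ∈ cs (Set.univ : Set X) j, l ≠ [] → capF n ξ f l = bd F l

/-- vanishing below rank `p` -/
def VanD (H : HM n X) (p i : ℕ) (f : List X → B) : Prop :=
  ∀ (a : List X) (x : X), a ∈ cs (Set.Iio x) i → H.rk x < p → f (a ++ [x]) = 0

/-- vanishing below rank `p` -/
def VanU (H : HM n X) (p j : ℕ) (F : List X → B) : Prop :=
  ∀ (x : X) (b : List X), b ∈ cs (Set.Ioi x) j → H.rk x < p → F (x :: b) = 0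

/-- the new cochain component -/
theorem Cone.sub (H : HM n X) {ξ : List X → ℤ} (hξ : IsOri H ξ) {i j : ℕ} (hij : i + j = n + 1)
    {f F : List X → B} (h : Cone n ξ i j f F) {g G : List X → B} (hg : g [] = 0) :
    Cone n ξ i j (fun l => f l - pr g (dl l))
      (fun l => F l - (-1 : ℤ) ^ i • capF n ξ g l - bd G l) where
  c1 := by
    intro l hl
    rw [pr_sub, h.c1 l hl, ← pr_d, d_dl, map_zero, sub_zero]
  c2 := by
    intro l hl hne
    rw [capF_sub, bd_sub, bd_sub, bd_bd H G hl, bd_zsmul,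
      bd_capF_eq H hξ g hl hne hij (fun _ => hg), smul_smul, ← mul_pow, h.c2 l hl hne]
    simp

/-- the cocycle part of the local step -/
theorem Cone.local_f (H : HM n X) {ξ : List X → ℤ} {D : X → LD X}
    (hD : ∀ x, LDx H ξ x (D x)) {i j p : ℕ} (hij : i + j = n + 1)
    {f F : List X → B} (h : Cone n ξ i j f F) (hf : VanD H p i f) (hF : VanU H p j F)
    {x : X} (hx : H.rk x = p) {a : List X} (ha : a ∈ cs (Set.Iio x) i) :
    f (a ++ [x]) =
      pr (fun l => pr (fun l => f (l ++ [x])) ((D x).Hm l)) (dl a) := by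
  have hDx := hD x
  have hco : ∀ a' ∈ cs (Set.Iio x) (i + 1), pr (fun l => f (l ++ [x])) (dl a') = 0 := by
    intro a' ha'
    have h1 := h.c1 (a' ++ [x]) (mem_cs_last.2 ha')
    rw [pr_dl_append] at h1
    have h2 : f a' = 0 := by
      rcases List.eq_nil_or_concat' a' with rfl | ⟨a'', y, rfl⟩
      · exact absurd (cs_length ha') (by simp)
      · have h3 := mem_cs_append.1 ha'
        refine hf a'' y (cs_mono Set.inter_subset_right h3.2) ?_
        rw [← hx]
        exact H.rk_lt y x h3.1
    rwa [h2, smul_zero, add_zero] at h1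
  have h4 := hDx.ctm.cofill hco ha
  have h5 : (D x).cm a • pr (fun l => f (l ++ [x])) (D x).xm = 0 := by
    by_cases hi : i = H.rk x
    · obtain ⟨b, hb⟩ := hDx.exb
      have hrk := H.rk_le x
      have hj : j = n - H.rk x + 1 := by omega
      have h6 := h.c2 (x :: b) (by rw [hj]; exact mem_cs_first.2 hb) (by simp)
      have h7 : bd F (x :: b) = 0 := by
        rw [bd_cons]
        have h8 : ∑ y ∈ fs (Set.Iio x), F (y :: x :: b) = 0 := by
          refine Finset.sum_eq_zero fun y hy => ?_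
          rw [mem_fs (H.fin_Iio x)] at hy
          have hy' : y < x := hy
          refine hF y (x :: b) ?_ ?_
          · rw [hj]
            refine mem_cs_cons.2 ⟨hy', ?_⟩
            rw [Ioi_inter_Ioi_of_lt hy']
            exact hb
          · rw [← hx]
            exact H.rk_lt y x hy'
        have h9 : lbd (Set.Ioi x) (fun b' => F (x :: b')) b = 0 := by
          refine Finset.sum_eq_zero fun b' hb' => ?_
          rw [mem_chn (H.fin_Ioi x)] at hb'
          have := H.up_le hb'
          rw [cs_length hb] at this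
          omega
        rw [h8, h9, sub_zero]
      rw [h7, capF_cons] at h6
      have h10 : n - b.length = H.rk x := by
        rw [cs_length hb]
        omega
      rw [h10] at h6
      have h11 : ∑ a ∈ chn (Set.Iio x) (H.rk x), ξ (a ++ x :: b) • f (a ++ [x]) =
          (D x).xp b • pr (fun l => f (l ++ [x])) (D x).xm := by
        rw [pr_eq_sum (H.fin_Iio x) hDx.ctm.z_mem, Finset.smul_sum]
        refine Finset.sum_congr rfl fun a ha => ?_
        rw [mem_chn (H.fin_Iio x)] at ha
        rw [hDx.mul a ha b hb, smul_smul, mul_comm]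
      rw [h11] at h6
      have h12 : pr (fun l => f (l ++ [x])) (D x).xm = 0 := by
        rcases hDx.unitp b hb with h13 | h13
        · rwa [h13, one_smul] at h6
        · rwa [h13, neg_smul, one_smul, neg_eq_zero] at h6
      rw [h12, smul_zero]
    · rw [hDx.ctm.c_zero i hi a ha, zero_smul]
  rw [h5, add_zero] at h4
  exact h4

/-- the first correction -/
def g0 (H : HM n X) (D : X → LD X) (p : ℕ) (f : List X → B) : List X → B :=
  dnf H p fun x a => pr (fun l => f (l ++ [x])) ((D x).Hm a)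

/-- the corrected chain -/
def F1 (H : HM n X) (ξ : List X → ℤ) (D : X → LD X) (p i : ℕ) (f F : List X → B)
    (l : List X) : B :=
  F l - (-1 : ℤ) ^ i • capF n ξ (g0 H D p f) l

/-- the filling of the corrected chain -/
def G1 (H : HM n X) (ξ : List X → ℤ) (D : X → LD X) (p i j : ℕ) (f F : List X → B) :
    List X → B :=
  upf H p fun x b' => - ∑ b ∈ chn (Set.Ioi x) j, ((D x).Hp b b') • F1 H ξ D p i f F (x :: b)

/-- the top coefficient -/
def beta (H : HM n X) (ξ : List X → ℤ) (D : X → LD X) (p i j : ℕ) (f F : List X → B)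
    (x : X) : B :=
  ∑ b ∈ chn (Set.Ioi x) j, (D x).cp b • F1 H ξ D p i f F (x :: b)

/-- the second correction -/
def g1 (H : HM n X) (ξ : List X → ℤ) (D : X → LD X) (p i j : ℕ) (f F : List X → B) :
    List X → B :=
  dnf H p fun x a => (-1 : ℤ) ^ i • (D x).cm a • beta H ξ D p i j f F x

theorem pr_g0 (H : HM n X) {ξ : List X → ℤ} {D : X → LD X}
    (hD : ∀ x, LDx H ξ x (D x)) {i j p : ℕ} (hij : i + j = n + 1)
    {f F : List X → B} (h : Cone n ξ i j f F) (hf : VanD H p i f) (hF : VanU H p j F)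
    {x : X} (hx : H.rk x ≤ p) {a : List X} (ha : a ∈ cs (Set.Iio x) i) :
    pr (g0 H D p f) (dl (a ++ [x])) = f (a ++ [x]) := by
  unfold g0
  rw [pr_dnf H p _ ha hx]
  split_ifs with h1
  · exact (h.local_f H hD hij hf hF h1 ha).symm
  · exact (hf a x ha (by omega)).symm

theorem lbd_F1 (H : HM n X) {ξ : List X → ℤ} (hξ : IsOri H ξ) {D : X → LD X}
    (hD : ∀ x, LDx H ξ x (D x)) {i j p : ℕ} (hij : i + j = n + 1)
    {f F : List X → B} (h : Cone n ξ i j f F) (hf : VanD H p i f) (hF : VanU H p j F)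
    {x : X} (hx : H.rk x = p) (k : ℕ) (hk : j = k + 1) (b : List X)
    (hb : b ∈ cs (Set.Ioi x) k) :
    lbd (Set.Ioi x) (fun b' => F1 H ξ D p i f F (x :: b')) b = 0 := by
  have h1 := (h.sub H hξ hij (g := g0 H D p f) (G := fun _ => 0) rfl).c2 (x :: b)
    (by rw [hk]; exact mem_cs_first.2 hb) (by simp)
  have h2 : bd (fun _ : List X => (0 : B)) = fun _ => 0 := by
    funext l
    cases l with
    | nil => rfl
    | cons x b => simp [bd_cons, lbd]
  simp only [h2, sub_zero] at h1
  have h3 : capF n ξ (fun l => f l - pr (g0 H D p f) (dl l)) (x :: b) = 0 := by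
    rw [capF_cons]
    refine Finset.sum_eq_zero fun a ha => ?_
    rw [mem_chn (H.fin_Iio x)] at ha
    have e : n - b.length = i := by
      rw [cs_length hb]
      omega
    rw [e] at ha
    rw [pr_g0 H hD hij h hf hF hx.le ha, sub_self, smul_zero]
  rw [h3] at h1
  rw [bd_cons] at h1
  have h4 : ∑ y ∈ fs (Set.Iio x), (F (y :: x :: b) -
      (-1 : ℤ) ^ i • capF n ξ (g0 H D p f) (y :: x :: b)) = 0 := by
    refine Finset.sum_eq_zero fun y hy => ?_
    rw [mem_fs (H.fin_Iio x)] at hy
    have hy' : y < x := hy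
    have hr := H.rk_lt y x hy'
    rw [hF y (x :: b) (by
      rw [hk]
      refine mem_cs_cons.2 ⟨hy', ?_⟩
      rw [Ioi_inter_Ioi_of_lt hy']
      exact hb) (by omega)]
    unfold g0
    rw [capF_dnf, if_neg (by omega), smul_zero, sub_zero]
  rw [h4, zero_sub, eq_comm, neg_eq_zero] at h1
  exact h1

theorem beta_eq_zero (H : HM n X) {ξ : List X → ℤ} {D : X → LD X}
    (hD : ∀ x, LDx H ξ x (D x)) {i j p : ℕ}
    {f F : List X → B} {x : X} (hj : j ≠ n - H.rk x) : beta H ξ D p i j f F x = 0 := by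
  unfold beta
  refine Finset.sum_eq_zero fun b hb => ?_
  rw [mem_chn (H.fin_Ioi x)] at hb
  rw [(hD x).ctp.c_zero j hj b hb, zero_smul]

/-- the local step -/
theorem step_f (H : HM n X) {ξ : List X → ℤ} {D : X → LD X}
    (hD : ∀ x, LDx H ξ x (D x)) {i j p : ℕ} (hij : i + j = n + 1)
    {f F : List X → B} (h : Cone n ξ i j f F) (hf : VanD H p i f) (hF : VanU H p j F) :
    VanD H (p + 1) i (fun l => f l - pr (fun l => g0 H D p f l + g1 H ξ D p i j f F l)
      (dl l)) := by
  intro a x ha hx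
  have hx' : H.rk x ≤ p := by omega
  show f (a ++ [x]) - pr (fun l => g0 H D p f l + g1 H ξ D p i j f F l) (dl (a ++ [x])) = 0
  rw [pr_add, pr_g0 H hD hij h hf hF hx' ha]
  have h1 : pr (g1 H ξ D p i j f F) (dl (a ++ [x])) = 0 := by
    unfold g1
    rw [pr_dnf H p _ ha hx']
    split_ifs with h2
    · have h3 := H.down_le ha
      have h4 := H.rk_le x
      rw [beta_eq_zero H hD (by omega)]
      simp only [smul_zero]
      exact pr_zero _
    · rfl
  rw [h1, add_zero, sub_self]

theorem step_F (H : HM n X) {ξ : List X → ℤ} (hξ : IsOri H ξ) {D : X → LD X}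
    (hD : ∀ x, LDx H ξ x (D x)) {i j p : ℕ} (hij : i + j = n + 1)
    {f F : List X → B} (h : Cone n ξ i j f F) (hf : VanD H p i f) (hF : VanU H p j F) :
    VanU H (p + 1) j (fun l => F l - (-1 : ℤ) ^ i • capF n ξ
      (fun l => g0 H D p f l + g1 H ξ D p i j f F l) l - bd (G1 H ξ D p i j f F) l) := by
  intro x b hb hx
  have hx' : H.rk x ≤ p := by omega
  show F (x :: b) - (-1 : ℤ) ^ i • capF n ξ (fun l => g0 H D p f l + g1 H ξ D p i j f F l)
    (x :: b) - bd (G1 H ξ D p i j f F) (x :: b) = 0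
  rw [capF_add, smul_add]
  have h1 : F (x :: b) - ((-1 : ℤ) ^ i • capF n ξ (g0 H D p f) (x :: b) +
      (-1 : ℤ) ^ i • capF n ξ (g1 H ξ D p i j f F) (x :: b)) =
      F1 H ξ D p i f F (x :: b) - (-1 : ℤ) ^ i • capF n ξ (g1 H ξ D p i j f F) (x :: b) := by
    unfold F1
    abel
  rw [h1]
  unfold G1
  rw [bd_upf H p _ b hx']
  by_cases hxp : H.rk x = p
  · rw [if_pos hxp]
    have h2 := (hD x).ctp.fill (H.fin_Ioi x) (lbd_F1 H hξ hD hij h hf hF hxp) hb
    have h3 : lbd (Set.Ioi x) (fun b' => - ∑ b ∈ chn (Set.Ioi x) j,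
        ((D x).Hp b b') • F1 H ξ D p i f F (x :: b)) b =
        - lbd (Set.Ioi x) (fun b' => ∑ b ∈ chn (Set.Ioi x) j,
          ((D x).Hp b b') • F1 H ξ D p i f F (x :: b)) b := by
      simp [lbd]
    rw [h3, neg_neg]
    have h4 : (-1 : ℤ) ^ i • capF n ξ (g1 H ξ D p i j f F) (x :: b) =
        (D x).xp b • beta H ξ D p i j f F x := by
      unfold g1
      rw [capF_dnf, if_pos hxp]
      by_cases hj : j = n - H.rk x
      · have hrk := H.rk_le x
        have e : n - b.length = H.rk x := by
          rw [cs_length hb]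
          omega
        rw [e]
        have h5 : ∀ a ∈ chn (Set.Iio x) (H.rk x), ξ (a ++ x :: b) •
            ((-1 : ℤ) ^ i • (D x).cm a • beta H ξ D p i j f F x) =
            ((-1 : ℤ) ^ i * (D x).xp b) •
              (((D x).xm a * (D x).cm a) • beta H ξ D p i j f F x) := by
          intro a ha
          rw [mem_chn (H.fin_Iio x)] at ha
          rw [(hD x).mul a ha b (hj ▸ hb), smul_smul, smul_smul, smul_smul]
          congr 1
          ring
        rw [Finset.sum_congr rfl h5, ← Finset.smul_sum, ← Finset.sum_smul,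
          ← linZ_eq_sum (H.fin_Iio x) (hD x).ctm.z_mem, (hD x).ctm.cz, one_smul, smul_smul,
          ← mul_assoc, ← mul_pow]
        simp
      · rw [beta_eq_zero H hD hj]
        simp
    rw [h4]
    have h6 : beta H ξ D p i j f F x =
        ∑ b ∈ chn (Set.Ioi x) j, (D x).cp b • F1 H ξ D p i f F (x :: b) := rfl
    rw [← h6] at h2
    rw [h2]
    abel
  · rw [if_neg hxp]
    unfold F1 g1 g0
    rw [capF_dnf, capF_dnf, if_neg hxp, if_neg hxp, hF x b hb (by omega)]
    simp

end

end Pool.Agent.Helper59.PD
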