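import Pool.Agent.Helper59.PD.Pdt_D

/-! Poincare duality, part E: equivariance and the iteration. -/

set_option autoImplicit false
set_option linter.unusedSectionVars false

namespace Pool.Agent.Helper59.PD

universe u

noncomputable section

variable {n : ℕ} {X : Type} [PartialOrder X] {B : Type u} [AddCommGroup B]
  {π : Type} [Group π] [MulAction π X] [DistribMulAction π B]

/-- equivariance on the chains of length `k` -/
def Eqv (π : Type) [Group π] [MulAction π X] [DistribMulAction π B] (k : ℕ)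
    (f : List X → B) : Prop :=
  ∀ (g : π) (l : List X), l ∈ cs (Set.univ : Set X) k → f (tg g l) = g • f l

theorem zsmul_act (g : π) (m : ℤ) (b : B) : m • g • b = g • m • b :=
  (map_zsmul (DistribSMul.toAddMonoidHom B g) m b).symm

theorem pr_act (g : π) (f : List X → B) (c : Ch X) :
    pr (fun l => g • f l) c = g • pr f c := by
  induction c using Finsupp.induction_linear with
  | zero => simp
  | add c₁ c₂ h₁ h₂ => simp [h₁, h₂]
  | single l m => rw [pr_single, pr_single, zsmul_act]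

theorem sum_chn_tg (mono : ∀ (g : π) (x y : X), x < y → g • x < g • y) {S T : Set X}
    (hSf : S.Finite) (hTf : T.Finite) {g : π}
    (hS : ∀ y ∈ S, g • y ∈ T) (hT : ∀ y ∈ T, g⁻¹ • y ∈ S) (k : ℕ) (F : List X → B) :
    ∑ b ∈ chn T k, F b = ∑ b ∈ chn S k, F (tg g b) := by
  symm
  refine Finset.sum_bij' (fun b _ => tg g b) (fun b _ => tg g⁻¹ b) ?_ ?_ ?_ ?_ ?_
  · intro b hb
    rw [mem_chn hSf] at hb
    rw [mem_chn hTf]
    exact tg_mem_cs mono hS hb
  · intro b hb
    rw [mem_chn hTf] at hb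
    rw [mem_chn hSf]
    exact tg_mem_cs mono hT hb
  · intro b _
    simp
  · intro b _
    simp
  · intro b _
    rfl

theorem sum_fs_smul {S T : Set X}
    (hSf : S.Finite) (hTf : T.Finite) {g : π}
    (hS : ∀ y ∈ S, g • y ∈ T) (hT : ∀ y ∈ T, g⁻¹ • y ∈ S) (F : X → B) :
    ∑ b ∈ fs T, F b = ∑ b ∈ fs S, F (g • b) := by
  symm
  refine Finset.sum_bij' (fun b _ => g • b) (fun b _ => g⁻¹ • b) ?_ ?_ ?_ ?_ ?_
  · intro b hb
    rw [mem_fs hSf] at hb
    rw [mem_fs hTf]
    exact hS b hb
  · intro b hb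
    rw [mem_fs hTf] at hb
    rw [mem_fs hSf]
    exact hT b hb
  · intro b _
    simp
  · intro b _
    simp
  · intro b _
    rfl

section

variable (mono : ∀ (g : π) (x y : X), x < y → g • x < g • y)

include mono

theorem Ioi_smul (g : π) (x : X) : ∀ y ∈ Set.Ioi x, g • y ∈ Set.Ioi (g • x) :=
  fun y hy => mono g x y hy

theorem Ioi_smul' (g : π) (x : X) : ∀ y ∈ Set.Ioi (g • x), g⁻¹ • y ∈ Set.Ioi x := by
  intro y hy
  have := mono g⁻¹ _ _ (show g • x < y from hy)
  rwa [inv_smul_smul] at this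

theorem Iio_smul (g : π) (x : X) : ∀ y ∈ Set.Iio x, g • y ∈ Set.Iio (g • x) :=
  fun y hy => mono g y x hy

theorem Iio_smul' (g : π) (x : X) : ∀ y ∈ Set.Iio (g • x), g⁻¹ • y ∈ Set.Iio x := by
  intro y hy
  have := mono g⁻¹ _ _ (show y < g • x from hy)
  rwa [inv_smul_smul] at this

theorem lbd_tg (H : HM n X) (g : π) (x : X) (F : List X → B) (b : List X) :
    lbd (Set.Ioi (g • x)) F (tg g b) = lbd (Set.Ioi x) (fun b' => F (tg g b')) b := by
  unfold lbd
  rw [tg_length, sum_chn_tg mono (H.fin_Ioi x) (H.fin_Ioi (g • x)) (Ioi_smul mono g x)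
    (Ioi_smul' mono g x)]
  refine Finset.sum_congr rfl fun b' _ => ?_
  rw [dl_tg, tC_apply_tg]

theorem lbd_act (S : Set X) (g : π) (F : List X → B) (b : List X) :
    lbd S (fun b' => g • F b') b = g • lbd S F b := by
  unfold lbd
  rw [Finset.smul_sum]
  exact Finset.sum_congr rfl fun b' _ => zsmul_act _ _ _

theorem bd_tg (H : HM n X) (g : π) (F : List X → B) (l : List X) :
    bd F (tg g l) = bd (fun l => F (tg g l)) l := by
  cases l with
  | nil => rfl
  | cons x b =>
    rw [tg_cons, bd_cons, bd_cons, lbd_tg mono H]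
    rw [sum_fs_smul (H.fin_Iio x) (H.fin_Iio (g • x)) (Iio_smul mono g x)
      (Iio_smul' mono g x)]
    rfl

theorem bd_act (g : π) (F : List X → B) (l : List X) :
    bd (fun l => g • F l) l = g • bd F l := by
  cases l with
  | nil => simp [bd]
  | cons x b =>
    rw [bd_cons, bd_cons, lbd_act mono, smul_sub, Finset.smul_sum]

theorem Eqv.bd (H : HM n X) {k : ℕ} {F : List X → B} (hF : Eqv π (k + 1) F) :
    Eqv π k (bd F) := by
  intro g l hl
  rw [bd_tg mono H, bd_congr H hl (G := fun l => g • F l) (fun l' hl' => hF g l' hl'),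
    bd_act mono]

theorem Eqv.capF (H : HM n X) {ξ : List X → ℤ}
    (hinv : ∀ (g : π), ∀ l ∈ cs (Set.univ : Set X) (n + 1), ξ (tg g l) = ξ l)
    {i m : ℕ} (him : i + m = n + 1) {f : List X → B} (hf : Eqv π (i + 1) f) :
    Eqv π m (capF n ξ f) := by
  intro g l hl
  cases l with
  | nil => simp [PD.capF]
  | cons x b =>
    have h1 := (mem_cs_mid (a := []) (x := x) (b := b)).1 hl
    have h2 : n - b.length = i := by
      have := h1.2.2
      simp only [List.length_nil] at this
      omega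
    have h3 := h1.2.2
    simp only [List.length_nil] at h3
    rw [tg_cons, capF_cons, capF_cons, tg_length, h2,
      sum_chn_tg mono (H.fin_Iio x) (H.fin_Iio (g • x)) (Iio_smul mono g x)
      (Iio_smul' mono g x), Finset.smul_sum]
    refine Finset.sum_congr rfl fun a ha => ?_
    rw [mem_chn (H.fin_Iio x)] at ha
    have h4 : ξ (tg g a ++ (g • x) :: tg g b) = ξ (a ++ x :: b) := by
      rw [← hinv g (a ++ x :: b)]
      · simp
      · refine mem_cs_mid.2 ⟨cs_self ha, h1.2.1, ?_⟩
        rw [cs_length ha]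
        omega
    have h5 : f (tg g a ++ [g • x]) = g • f (a ++ [x]) := by
      rw [← hf g (a ++ [x]) (mem_cs_last.2 ha)]
      simp
    rw [h4, h5, zsmul_act]

theorem Eqv.cob {k : ℕ} {f : List X → B} (hf : Eqv π k f) :
    Eqv π (k + 1) (fun l => pr f (dl l)) := by
  intro g l hl
  beta_reduce
  rw [dl_tg, pr_tC, pr_congr (dl_mem hl) (g := fun l => g • f l) (fun l' hl' => hf g l' hl'),
    pr_act]

omit mono in
theorem Eqv.add {k : ℕ} {f f' : List X → B} (hf : Eqv π k f) (hf' : Eqv π k f') :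
    Eqv π k (fun l => f l + f' l) := by
  intro g l hl
  beta_reduce
  rw [hf g l hl, hf' g l hl, smul_add]

omit mono in
theorem Eqv.sub {k : ℕ} {f f' : List X → B} (hf : Eqv π k f) (hf' : Eqv π k f') :
    Eqv π k (fun l => f l - f' l) := by
  intro g l hl
  beta_reduce
  rw [hf g l hl, hf' g l hl, smul_sub]

omit mono in
theorem Eqv.zsmul {k : ℕ} {f : List X → B} (m : ℤ) (hf : Eqv π k f) :
    Eqv π k (fun l => m • f l) := by
  intro g l hl
  beta_reduce
  rw [hf g l hl, zsmul_act]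

variable {H : HM n X} {ξ : List X → ℤ} {D : X → LD X}
  (rk_smul : ∀ (g : π) (x : X), H.rk (g • x) = H.rk x)
  (hinv : ∀ (g : π), ∀ l ∈ cs (Set.univ : Set X) (n + 1), ξ (tg g l) = ξ l)
  (hD : ∀ x, LDx H ξ x (D x)) (hDg : ∀ (g : π) (x : X), D (g • x) = (D x).tr g)

include rk_smul hDg hD

theorem eqv_g0 (p : ℕ) {i : ℕ} {f : List X → B} (hf : Eqv π (i + 1) f) :
    Eqv π i (g0 H D p f) := by
  intro g l hl
  rcases List.eq_nil_or_concat' l with rfl | ⟨a, x, rfl⟩
  · simp [g0]
  · obtain ⟨k, rfl⟩ : ∃ k, i = k + 1 := ⟨a.length, by rw [← cs_length hl]; simp⟩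
    have ha := mem_cs_last.1 hl
    rw [tg_append, tg_cons, tg_nil]
    unfold g0
    rw [dnf_append, dnf_append, rk_smul]
    split_ifs with h
    · rw [hDg]
      show pr _ (tC g ((D x).Hm (tg g⁻¹ (tg g a)))) = _
      rw [tg_inv_tg, pr_tC, ← pr_act]
      refine pr_congr ((hD x).ctm.H_mem k a ha) fun l hl => ?_
      rw [← hf g _ (mem_cs_last.2 hl)]
      simp
    · simp

include hinv

theorem eqv_F1 (p : ℕ) {i j : ℕ} (hij : i + j = n + 1) {f F : List X → B}
    (hf : Eqv π (i + 1) f) (hF : Eqv π (j + 1) F) : Eqv π (j + 1) (F1 H ξ D p i f F) := by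
  unfold F1
  refine hF.sub (Eqv.zsmul _ ?_)
  cases i with
  | zero =>
    intro g l hl
    have := H.univ_le hl
    omega
  | succ k =>
    exact Eqv.capF mono H hinv (by omega) (eqv_g0 mono rk_smul hD hDg p hf)

theorem beta_smul (p : ℕ) {i j : ℕ} (hij : i + j = n + 1) {f F : List X → B}
    (hf : Eqv π (i + 1) f) (hF : Eqv π (j + 1) F) (g : π) (x : X) :
    beta H ξ D p i j f F (g • x) = g • beta H ξ D p i j f F x := by
  unfold beta
  rw [sum_chn_tg mono (H.fin_Ioi x) (H.fin_Ioi (g • x)) (Ioi_smul mono g x)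
    (Ioi_smul' mono g x), Finset.smul_sum]
  refine Finset.sum_congr rfl fun b hb => ?_
  rw [mem_chn (H.fin_Ioi x)] at hb
  have h1 := eqv_F1 mono rk_smul hinv hD hDg p hij hf hF g (x :: b) (mem_cs_first.2 hb)
  rw [tg_cons] at h1
  rw [h1, hDg, ← zsmul_act]
  show (D x).cp (tg g⁻¹ (tg g b)) • _ = _
  rw [tg_inv_tg]

theorem eqv_g1 (p : ℕ) {i j : ℕ} (hij : i + j = n + 1) {f F : List X → B}
    (hf : Eqv π (i + 1) f) (hF : Eqv π (j + 1) F) : Eqv π i (g1 H ξ D p i j f F) := by
  intro g l hl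
  rcases List.eq_nil_or_concat' l with rfl | ⟨a, x, rfl⟩
  · simp [g1]
  · rw [tg_append, tg_cons, tg_nil]
    unfold g1
    rw [dnf_append, dnf_append, rk_smul]
    split_ifs with h
    · rw [beta_smul mono rk_smul hinv hD hDg p hij hf hF, hDg, ← zsmul_act, ← zsmul_act]
      show _ • (D x).cm (tg g⁻¹ (tg g a)) • _ = _
      rw [tg_inv_tg]
    · simp

theorem eqv_G1 (p : ℕ) {i j : ℕ} (hij : i + j = n + 1) {f F : List X → B}
    (hf : Eqv π (i + 1) f) (hF : Eqv π (j + 1) F) : Eqv π (j + 2) (G1 H ξ D p i j f F) := by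
  intro g l hl
  cases l with
  | nil => simp [G1, upf]
  | cons x b' =>
    rw [tg_cons]
    unfold G1
    rw [upf_cons, upf_cons, rk_smul]
    split_ifs with h
    · rw [smul_neg, sum_chn_tg mono (H.fin_Ioi x) (H.fin_Ioi (g • x)) (Ioi_smul mono g x)
        (Ioi_smul' mono g x), Finset.smul_sum]
      congr 1
      refine Finset.sum_congr rfl fun b hb => ?_
      rw [mem_chn (H.fin_Ioi x)] at hb
      have h1 := eqv_F1 mono rk_smul hinv hD hDg p hij hf hF g (x :: b) (mem_cs_first.2 hb)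
      rw [tg_cons] at h1
      rw [h1, hDg, ← zsmul_act]
      show (tC g ((D x).Hp (tg g⁻¹ (tg g b)))) (tg g b') • _ = _
      rw [tg_inv_tg, tC_apply_tg]
    · simp

omit rk_smul hinv hD hDg in
theorem pr_zero_fun : pr (fun _ : List X => (0 : B)) = 0 := by
  ext l
  simp

/-- acyclicity of the mapping cone of the cap product, up to rank `p` -/
theorem cone_acyclic_aux (hξ : IsOri H ξ) {i j : ℕ} (hij : i + j = n + 1) {f F : List X → B}
    (h : Cone n ξ i j f F) (hf : Eqv π (i + 1) f) (hF : Eqv π (j + 1) F) (p : ℕ) :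
    ∃ g G : List X → B, g [] = 0 ∧ Eqv π i g ∧ Eqv π (j + 2) G ∧
      VanD H p i (fun l => f l - pr g (dl l)) ∧
      VanU H p j (fun l => F l - (-1 : ℤ) ^ i • capF n ξ g l - PD.bd G l) := by
  induction p with
  | zero =>
    refine ⟨fun _ => 0, fun _ => 0, rfl, fun g l _ => by simp, fun g l _ => by simp, ?_, ?_⟩
    · intro a x _ hx
      omega
    · intro a x _ hx
      omega
  | succ p ih =>
    obtain ⟨g, G, hg, hge, hGe, hv, hV⟩ := ih
    have hc := h.sub H hξ hij (g := g) (G := G) hg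
    have hf' : Eqv π (i + 1) (fun l => f l - pr g (dl l)) := hf.sub (Eqv.cob mono hge)
    have hF' : Eqv π (j + 1) (fun l => F l - (-1 : ℤ) ^ i • capF n ξ g l - PD.bd G l) := by
      refine (hF.sub (Eqv.zsmul _ ?_)).sub (Eqv.bd mono H hGe)
      cases i with
      | zero =>
        intro g l hl
        have := H.univ_le hl
        omega
      | succ k => exact Eqv.capF mono H hinv (by omega) hge
    set f' := fun l => f l - pr g (dl l) with hf'def
    set F' := fun l => F l - (-1 : ℤ) ^ i • capF n ξ g l - PD.bd G l with hF'def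
    refine ⟨fun l => g l + (g0 H D p f' l + g1 H ξ D p i j f' F' l),
      fun l => G l + G1 H ξ D p i j f' F' l, ?_, ?_, ?_, ?_, ?_⟩
    · beta_reduce
      rw [hg]
      simp [g0, g1]
    · exact hge.add ((eqv_g0 mono rk_smul hD hDg p hf').add
        (eqv_g1 mono rk_smul hinv hD hDg p hij hf' hF'))
    · exact hGe.add (eqv_G1 mono rk_smul hinv hD hDg p hij hf' hF')
    · have h1 := step_f H hD hij hc hv hV
      intro a x ha hx
      have h2 := h1 a x ha hx
      simp only [hf'def] at h2 ⊢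
      rw [pr_add, ← sub_sub]
      exact h2
    · have h1 := step_F H hξ hD hij hc hv hV
      intro x b hb hx
      have h2 := h1 x b hb hx
      simp only [hF'def] at h2 ⊢
      rw [capF_add, bd_add, smul_add, ← h2]
      abel

/-- acyclicity of the mapping cone of the cap product -/
theorem cone_acyclic (hξ : IsOri H ξ) {i j : ℕ} (hij : i + j = n + 1) {f F : List X → B}
    (h : Cone n ξ i j f F) (hf : Eqv π (i + 1) f) (hF : Eqv π (j + 1) F) :
    ∃ g G : List X → B, g [] = 0 ∧ Eqv π i g ∧ Eqv π (j + 2) G ∧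
      (∀ l ∈ cs (Set.univ : Set X) (i + 1), f l = pr g (dl l)) ∧
      ∀ l ∈ cs (Set.univ : Set X) (j + 1), F l = (-1 : ℤ) ^ i • capF n ξ g l + PD.bd G l := by
  obtain ⟨g, G, hg, hge, hGe, hv, hV⟩ :=
    cone_acyclic_aux mono rk_smul hinv hD hDg hξ hij h hf hF (n + 1)
  refine ⟨g, G, hg, hge, hGe, ?_, ?_⟩
  · intro l hl
    rcases List.eq_nil_or_concat' l with rfl | ⟨a, x, rfl⟩
    · exact absurd (cs_length hl) (by simp)
    · have h1 := hv a x (mem_cs_last.1 hl) (Nat.lt_succ_of_le (H.rk_le x))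
      exact sub_eq_zero.1 h1
  · intro l hl
    cases l with
    | nil => exact absurd (cs_length hl) (by simp)
    | cons x b =>
      have h1 := hV x b (mem_cs_first.1 hl) (Nat.lt_succ_of_le (H.rk_le x))
      have h2 : F (x :: b) - (-1 : ℤ) ^ i • PD.capF n ξ g (x :: b) - PD.bd G (x :: b) = 0 := h1
      rw [sub_sub, sub_eq_zero] at h2
      exact h2

end

end

end Pool.Agent.Helper59.PD
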