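import Pool.Agent.Helper59.PD.Pdt_E

/-! Poincare duality, part F: chains modulo relations and equivariant functions. -/

set_option autoImplicit false
set_option linter.unusedSectionVars false

namespace Pool.Agent.Helper59.PD

open Pool.Agent.Helper59.PDC

universe u

noncomputable section

variable {n : ℕ} {X : Type} [PartialOrder X] {B : Type u} [AddCommGroup B]
  {π : Type} [Group π] [MulAction π X] [DistribMulAction π B]

open Classical in
/-- the norm of a chain: the sum of all its translates -/
def ev (π : Type) [Group π] [MulAction π X] [DistribMulAction π B] (c : List X →₀ B)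
    (l : List X) : B :=
  if l = [] then 0 else ∑ᶠ g : π, g • c (tg g⁻¹ l)

theorem ev_nil (c : List X →₀ B) : ev π c [] = 0 := by simp [ev]

theorem ev_of_ne (c : List X →₀ B) {l : List X} (hl : l ≠ []) :
    ev π c l = ∑ᶠ g : π, g • c (tg g⁻¹ l) := by simp [ev, hl]

section

variable (free : ∀ (g : π) (x : X), g • x = x → g = 1)

include free

theorem tg_inj {l : List X} (hl : l ≠ []) {g h : π} (hgh : tg g l = tg h l) : g = h := by
  cases l with
  | nil => exact absurd rfl hl
  | cons x b =>
    simp only [tg_cons, List.cons.injEq] at hgh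
    have h1 : (h⁻¹ * g) • x = x := by
      rw [mul_smul, hgh.1, inv_smul_smul]
    have h2 := free _ _ h1
    exact (inv_mul_eq_one.1 h2).symm

theorem ev_finite (c : List X →₀ B) {l : List X} (hl : l ≠ []) :
    (Function.support fun g : π => g • c (tg g⁻¹ l)).Finite := by
  have hinj : Function.Injective (fun g : π => tg g⁻¹ l) := by
    intro g h hgh
    exact inv_injective (tg_inj free hl hgh)
  refine (c.support.finite_toSet.preimage hinj.injOn).subset ?_
  intro g hg
  rw [Function.mem_support] at hg
  show tg g⁻¹ l ∈ (c.support : Set (List X))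
  rw [Finset.mem_coe, Finsupp.mem_support_iff]
  intro h0
  rw [h0, smul_zero] at hg
  exact hg rfl

/-- `ev` as a homomorphism -/
def evHom (l : List X) : (List X →₀ B) →+ B where
  toFun c := ev π c l
  map_zero' := by
    by_cases hl : l = []
    · rw [hl, ev_nil]
    · rw [ev_of_ne _ hl]
      simp
  map_add' c₁ c₂ := by
    by_cases hl : l = []
    · rw [hl, ev_nil, ev_nil, ev_nil, add_zero]
    · rw [ev_of_ne _ hl, ev_of_ne _ hl, ev_of_ne _ hl,
        ← finsum_add_distrib (ev_finite free c₁ hl) (ev_finite free c₂ hl)]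
      simp

theorem evHom_apply (l : List X) (c : List X →₀ B) : evHom free l c = ev π c l := rfl

theorem ev_single_tg {l : List X} (hl : l ≠ []) (v : B) (g : π) :
    ev π (Finsupp.single l v) (tg g l) = g • v := by
  have hl' : tg g l ≠ [] := by
    intro h
    apply hl
    have := congrArg List.length h
    rw [tg_length] at this
    exact List.length_eq_zero_iff.1 this
  rw [ev_of_ne _ hl', finsum_eq_single _ g]
  · rw [tg_inv_tg, Finsupp.single_eq_same]
  · intro h hh
    rw [Finsupp.single_eq_of_ne, smul_zero]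
    intro h1
    apply hh
    rw [← tg_mul] at h1
    have h2 : tg (h⁻¹ * g) l = tg (1 : π) l := by rw [h1, tg_one]
    exact inv_mul_eq_one.1 (tg_inj free hl h2)

omit free in
theorem ev_single_ne {l l' : List X} (v : B) (h : ∀ g : π, tg g l ≠ l') :
    ev π (Finsupp.single l v) l' = 0 := by
  by_cases hl : l' = []
  · rw [hl, ev_nil]
  · rw [ev_of_ne _ hl]
    have h1 : (fun g : π => g • (Finsupp.single l v) (tg g⁻¹ l')) = fun _ => 0 := by
      funext g
      rw [Finsupp.single_eq_of_ne, smul_zero]
      intro h1
      apply h g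
      rw [← h1, tg_tg_inv]
    rw [h1, finsum_zero]

omit free in
theorem hom_congr {M : Type u} [AddCommGroup M] {A₁ A₂ : (List X →₀ B) →+ M}
    {c : List X →₀ B} (h : ∀ l, c l ≠ 0 → ∀ v, A₁ (Finsupp.single l v) = A₂ (Finsupp.single l v)) :
    A₁ c = A₂ c := by
  rw [← Finsupp.sum_single c, Finsupp.sum, map_sum, map_sum]
  exact Finset.sum_congr rfl fun l hl => h l (Finsupp.mem_support_iff.1 hl) _

theorem ev_eqv (c : List X →₀ B) (g : π) (l : List X) : ev π c (tg g l) = g • ev π c l := by
  have := hom_congr (B := B) (M := B) (A₁ := evHom (B := B) free (tg g l))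
    (A₂ := (DistribSMul.toAddMonoidHom B g).comp (evHom (B := B) free l)) (c := c) (by
      intro l' _ v
      show ev π (Finsupp.single l' v) (tg g l) = g • ev π (Finsupp.single l' v) l
      by_cases hl' : l' = []
      · subst hl'
        by_cases hl : l = []
        · subst hl
          rw [tg_nil, ev_nil, smul_zero]
        · have h1 : ∀ h : π, tg h ([] : List X) ≠ l := fun h hh => hl hh.symm
          have h2 : ∀ h : π, tg h ([] : List X) ≠ tg g l := fun h hh => by
            apply hl
            have := congrArg List.length hh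
            simp only [tg_length, List.length_nil] at this
            exact List.length_eq_zero_iff.1 this.symm
          rw [ev_single_ne v h1, ev_single_ne v h2, smul_zero]
      · by_cases hex : ∃ h : π, tg h l' = l
        · obtain ⟨h, rfl⟩ := hex
          rw [← tg_mul, ev_single_tg free hl', ev_single_tg free hl', mul_smul]
        · push Not at hex
          rw [ev_single_ne v hex, ev_single_ne v, smul_zero]
          intro h hh
          apply hex (g⁻¹ * h)
          rw [tg_mul, hh, tg_inv_tg])
  exact this

omit free in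
theorem isSimplex_iff {k : ℕ} {l : List X} : IsSimplex k l ↔ l ∈ cs (Set.univ : Set X) (k + 1) := by
  constructor
  · rintro ⟨h1, h2⟩
    exact ⟨h1, fun _ _ => Set.mem_univ _, h2⟩
  · rintro ⟨h1, -, h2⟩
    exact ⟨h1, h2⟩

theorem ev_relations {k : ℕ} {c : List X →₀ B}
    (hc : c ∈ relations π (fun (g : π) (b : B) => g • b) k) (l : List X) : ev π c l = 0 := by
  have h1 : relations π (fun (g : π) (b : B) => g • b) k ≤ (evHom (B := B) free l).ker := by
    unfold relations
    rw [AddSubgroup.closure_le]
    rintro c ⟨g, l', v, hl', rfl⟩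
    show evHom free l _ = 0
    rw [map_sub, evHom_apply, evHom_apply]
    have hne : l' ≠ [] := by
      rintro rfl
      exact absurd hl'.2 (by simp)
    have hne' : tg g l' ≠ [] := by
      intro h
      apply hne
      have := congrArg List.length h
      rw [tg_length] at this
      exact List.length_eq_zero_iff.1 this
    show ev π (Finsupp.single (tg g l') (g • v)) l - ev π (Finsupp.single l' v) l = 0
    by_cases hex : ∃ h : π, tg h l' = l
    · obtain ⟨h, rfl⟩ := hex
      have h2 : tg h l' = tg (h * g⁻¹) (tg g l') := by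
        rw [tg_mul, tg_inv_tg]
      rw [ev_single_tg free hne]
      rw [h2, ev_single_tg free hne', ← mul_smul, inv_mul_cancel_right, sub_self]
    · push Not at hex
      rw [ev_single_ne v hex, ev_single_ne, sub_zero]
      intro h hh
      apply hex (h * g)
      rw [tg_mul, hh]
  exact h1 hc

/-- representatives of the orbits of simplices -/
theorem exists_reps (mono : ∀ (g : π) (x y : X), x < y → g • x < g • y)
    (cofin : ∃ T : Set (List X), T.Finite ∧ ∀ k l, IsSimplex k l → ∃ g : π,
      l.map (g • ·) ∈ T) (k : ℕ) :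
    ∃ (R : Finset (List X)) (r : List X → List X) (γ : List X → π),
      (∀ l, tg (γ l) (r l) = l) ∧ (∀ (g : π) l, r (tg g l) = r l) ∧
      (∀ l ∈ cs (Set.univ : Set X) (k + 1), r l ∈ R) ∧
      (∀ q ∈ R, q ∈ cs (Set.univ : Set X) (k + 1) ∧ r q = q) := by
  classical
  obtain ⟨T, hT, hT2⟩ := cofin
  let act : MulAction π (List X) :=
    { smul := fun g l => tg g l
      one_smul := fun l => tg_one l
      mul_smul := fun g h l => tg_mul g h l }
  let S := @MulAction.orbitRel π (List X) _ act
  let r : List X → List X := fun l => Quotient.out (Quotient.mk S l)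
  have hr : ∀ l, ∃ g : π, tg g (r l) = l := by
    intro l
    have h : S l (r l) := S.symm (Quotient.mk_out (s := S) l)
    exact h
  choose γ hγ using hr
  have hr2 : ∀ (g : π) l, r (tg g l) = r l := by
    intro g l
    have h1 : Quotient.mk S (tg g l) = Quotient.mk S l :=
      Quotient.sound (s := S) ⟨g, rfl⟩
    show Quotient.out (Quotient.mk S (tg g l)) = _
    rw [h1]
  have hcs : ∀ l ∈ cs (Set.univ : Set X) (k + 1), r l ∈ cs (Set.univ : Set X) (k + 1) := by
    intro l hl
    have h1 : r l = tg (γ l)⁻¹ l := by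
      have := congrArg (tg (γ l)⁻¹) (hγ l)
      rwa [tg_inv_tg] at this
    rw [h1]
    exact tg_mem_cs mono (fun _ _ => Set.mem_univ _) hl
  have hfin : {q | ∃ l ∈ cs (Set.univ : Set X) (k + 1), r l = q}.Finite := by
    refine (hT.image r).subset ?_
    rintro q ⟨l, hl, rfl⟩
    obtain ⟨g, hg⟩ := hT2 k l (isSimplex_iff.2 hl)
    exact ⟨tg g l, hg, hr2 g l⟩
  refine ⟨hfin.toFinset, r, γ, hγ, hr2, ?_, ?_⟩
  · intro l hl
    rw [Set.Finite.mem_toFinset]
    exact ⟨l, hl, rfl⟩
  · intro q hq
    rw [Set.Finite.mem_toFinset] at hq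
    obtain ⟨l, hl, rfl⟩ := hq
    refine ⟨hcs l hl, ?_⟩
    have h2 : r (r l) = r (tg (γ l) (r l)) := (hr2 _ _).symm
    rw [h2, hγ l]

theorem ne_nil_of_mem_cs {k : ℕ} {l : List X} (hl : l ∈ cs (Set.univ : Set X) (k + 1)) :
    l ≠ [] := by
  rintro rfl
  exact absurd (cs_length hl) (by simp)

theorem exists_chain_of_eqv (mono : ∀ (g : π) (x y : X), x < y → g • x < g • y)
    (cofin : ∃ T : Set (List X), T.Finite ∧ ∀ k l, IsSimplex k l → ∃ g : π,
      l.map (g • ·) ∈ T) {k : ℕ} {F : List X → B} (hF : Eqv π (k + 1) F) :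
    ∃ c : List X →₀ B, IsChainOf k c ∧ ∀ l ∈ cs (Set.univ : Set X) (k + 1), ev π c l = F l := by
  classical
  obtain ⟨R, r, γ, h1, h2, h3, h4⟩ := exists_reps free mono cofin k
  refine ⟨∑ q ∈ R, Finsupp.single q (F q), ?_, ?_⟩
  · intro l hl
    rw [Finsupp.finsetSum_apply] at hl
    obtain ⟨q, hq, hq2⟩ := Finset.exists_ne_zero_of_sum_ne_zero hl
    have : q = l := by
      by_contra hne
      exact hq2 (Finsupp.single_eq_of_ne (Ne.symm hne))
    rw [← this]
    exact isSimplex_iff.2 (h4 q hq).1
  · intro l hl
    rw [← evHom_apply free, map_sum, Finset.sum_eq_single (r l)]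
    · rw [evHom_apply]
      have hrl := (h4 _ (h3 l hl)).1
      have h5 := ev_single_tg free (ne_nil_of_mem_cs free hrl) (F (r l)) (γ l)
      rw [h1 l] at h5
      rw [h5, ← hF (γ l) (r l) hrl, h1 l]
    · intro q hq hne
      rw [evHom_apply]
      refine ev_single_ne _ fun g hg => hne ?_
      rw [← hg, h2, (h4 q hq).2]
    · intro h
      exact absurd (h3 l hl) h

theorem mem_relations_of_ev (mono : ∀ (g : π) (x y : X), x < y → g • x < g • y)
    (cofin : ∃ T : Set (List X), T.Finite ∧ ∀ k l, IsSimplex k l → ∃ g : π,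
      l.map (g • ·) ∈ T) {k : ℕ} {c : List X →₀ B} (hc : IsChainOf k c)
    (h0 : ∀ l ∈ cs (Set.univ : Set X) (k + 1), ev π c l = 0) :
    c ∈ relations π (fun (g : π) (b : B) => g • b) k := by
  classical
  obtain ⟨R, r, γ, h1, h2, h3, h4⟩ := exists_reps free mono cofin k
  let N : (List X →₀ B) →+ (List X →₀ B) :=
    ∑ q ∈ R, (Finsupp.singleAddHom q).comp (evHom free q)
  have hN0 : N c = 0 := by
    simp only [N, AddMonoidHom.finsetSum_apply, AddMonoidHom.comp_apply, evHom_apply]
    refine Finset.sum_eq_zero fun q hq => ?_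
    rw [h0 q (h4 q hq).1, map_zero]
  have hmem : ∀ l ∈ cs (Set.univ : Set X) (k + 1), ∀ v : B,
      Finsupp.single l v - N (Finsupp.single l v) ∈
        relations π (fun (g : π) (b : B) => g • b) k := by
    intro l hl v
    have hrl := (h4 _ (h3 l hl)).1
    have h5 : N (Finsupp.single l v) = Finsupp.single (r l) ((γ l)⁻¹ • v) := by
      simp only [N, AddMonoidHom.finsetSum_apply, AddMonoidHom.comp_apply, evHom_apply]
      rw [Finset.sum_eq_single (r l)]
      · have h6 : r l = tg (γ l)⁻¹ l := by
          have := congrArg (tg (γ l)⁻¹) (h1 l)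
          rwa [tg_inv_tg] at this
        have h7 : ev π (Finsupp.single l v) (r l) = (γ l)⁻¹ • v := by
          rw [h6]
          exact ev_single_tg free (ne_nil_of_mem_cs free hl) v _
        rw [h7]
        rfl
      · intro q hq hne
        rw [ev_single_ne, map_zero]
        intro g hg
        apply hne
        rw [← (h4 q hq).2, ← hg, h2]
      · intro h
        exact absurd (h3 l hl) h
    rw [h5]
    refine AddSubgroup.subset_closure ⟨γ l, r l, (γ l)⁻¹ • v, isSimplex_iff.2 hrl, ?_⟩
    beta_reduce
    rw [smul_inv_smul]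
    have h8 : (r l).map (γ l • ·) = l := h1 l
    rw [h8]
  have h9 : c - N c = ∑ l ∈ c.support, (Finsupp.single l (c l) - N (Finsupp.single l (c l))) := by
    rw [Finset.sum_sub_distrib, ← map_sum]
    have h10 : ∑ l ∈ c.support, Finsupp.single l (c l) = c := Finsupp.sum_single c
    rw [h10]
  rw [hN0, sub_zero] at h9
  rw [h9]
  exact AddSubgroup.sum_mem _ fun l hl =>
    hmem l (isSimplex_iff.1 (hc l (Finsupp.mem_support_iff.1 hl))) _

end

end

end Pool.Agent.Helper59.PD
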