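import Pool.Agent.Helper59.PD.YP

/-! The labelled complex of a walk. -/

set_option autoImplicit false

open scoped Classical

namespace Pool.Agent.Helper59.PD

variable {q : ℕ} {G : Type} [Group G] {s : G} {N : ℕ}

namespace WA

variable (P : YPack q G s N)

lemma fv_mem {y : ZMod (q + 2) → Finset P.Y} {v : Vx q G} {x : P.Y} :
    x ∈ P.fv y v ↔ ∃ x' ∈ y v.2, v.1 • x' = x := by
  simp [YPack.fv]

lemma fv_trl (y : ZMod (q + 2) → Finset P.Y) (g : G) (v : Vx q G) :
    P.fv y (trl g v) = (P.fv y v).image (g • ·) := by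
  ext x
  simp only [fv_mem, Finset.mem_image, trl]
  constructor
  · rintro ⟨x', h, rfl⟩
    exact ⟨_, ⟨x', h, rfl⟩, by rw [mul_smul]⟩
  · rintro ⟨_, ⟨x', h, rfl⟩, rfl⟩
    exact ⟨x', h, by rw [mul_smul]⟩

/-- the type determines the elements of a chain -/
lemma chain_typ {z : Set P.Y} (hz : IsChain (· ≤ ·) z) {a b : P.Y} (ha : a ∈ z) (hb : b ∈ z)
    (h : P.typ a = P.typ b) : a = b := by
  by_contra hab
  rcases hz ha hb hab with h1 | h1
  · have := P.typ_lt a b (lt_of_le_of_ne h1 hab)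
    omega
  · have := P.typ_lt b a (lt_of_le_of_ne h1 (Ne.symm hab))
    omega

lemma smul_inj {a b : P.Y} (g : G) (h : g • a = g • b) : a = b := by
  have := congrArg (g⁻¹ • ·) h
  simpa using this

/-- translates of a regular point are different -/
lemma free' {a : P.Y} (ha : a ∈ P.Reg) {g g' : G} (h : g • a = g' • a) : g = g' := by
  have h1 : (g'⁻¹ * g) • a = a := by rw [mul_smul, h, inv_smul_smul]
  have h2 := P.free _ a ha h1
  exact (inv_mul_eq_one.1 h2).symm

lemma reg_of_lt_p {a : P.Y} (ha : a < P.p) : a ∈ P.Reg := by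
  intro h hh
  have h1 : h⁻¹ • a < h⁻¹ • P.p := P.lt _ _ _ ha
  rw [hh, inv_smul_smul] at h1
  exact P.pmax _ h1

lemma lk_reg (i : ℤ) : P.lk i ∈ P.Reg := reg_of_lt_p P ((P.lk_below _).2 ⟨i, rfl⟩)

end WA

open WA in
theorem YPack.exists_LCx (P : YPack q G s N) (hq : q.Prime) (q5 : 5 ≤ q) (hs : s ^ q = 1)
    (hs1 : s ≠ 1) (y : ZMod (q + 2) → Finset P.Y) (hy : P.IsWalk y) (hc : P.Covers y) :
    ∃ L : LCx q G s, L.K = P.KK y := by
  have hchain : ∀ v : Vx q G, IsChain (· ≤ ·) (P.fv y v : Set P.Y) := by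
    intro v a ha b hb hab
    obtain ⟨a', ha', rfl⟩ := (fv_mem P).1 ha
    obtain ⟨b', hb', rfl⟩ := (fv_mem P).1 hb
    have hab' : a' ≠ b' := fun h => hab (by rw [h])
    have hle : ∀ x x' : P.Y, x ≤ x' → v.1 • x ≤ v.1 • x' := by
      intro x x' h
      rcases h.eq_or_lt with rfl | h
      · exact le_rfl
      · exact (P.lt _ _ _ h).le
    rcases (hy.mem v.2).2.1 ha' hb' hab' with h | h
    · exact Or.inl (hle _ _ h)
    · exact Or.inr (hle _ _ h)
  have hreg : ∀ (v : Vx q G), ∀ x ∈ y v.2, x ∈ P.Reg := fun v x hx => (hy.mem v.2).2.2 hx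
  have hne : ∀ i, (y i).Nonempty := fun i => (hy.mem i).1
  -- two vertices with the same label whose chains meet the same chain are equal
  have key : ∀ (g g' : G) (i : ZMod (q + 2)) (a b : P.Y), a ∈ y i → b ∈ y i → g • a = g' • b →
      g = g' := by
    intro g g' i a b ha hb h
    have h1 : P.typ a = P.typ b := by
      rw [← P.typ_smul g a, h, P.typ_smul]
    have h2 := chain_typ P (hy.mem i).2.1 ha hb h1
    rw [← h2] at h
    exact free' P ((hy.mem i).2.2 ha) h
  refine ⟨{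
    hq := hq
    q5 := q5
    hs := hs
    hs1 := hs1
    K := P.KK y
    ne := fun σ h => h.1
    down := fun σ h τ hτ hne => ⟨hne, fun v hv w hw => h.2 v (hτ hv) w (hτ hw)⟩
    smul := ?_
    inj := fun σ h v hv w hw => (h.2 v hv w hw).2
    uniq := ?_
    edge := ?_
    notall := ?_ }, rfl⟩
  · rintro g σ ⟨h1, h2⟩
    refine ⟨h1.image _, ?_⟩
    intro v hv w hw
    obtain ⟨v', hv', rfl⟩ := Finset.mem_image.1 hv
    obtain ⟨w', hw', rfl⟩ := Finset.mem_image.1 hw
    obtain ⟨h3, h4⟩ := h2 v' hv' w' hw'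
    refine ⟨?_, fun h => by rw [h4 h]⟩
    rw [fv_trl, fv_trl]
    exact h3.imp (Finset.image_subset_image) (Finset.image_subset_image)
  · rintro v ⟨g, i⟩ ⟨g', i'⟩ h h' hii
    obtain rfl : i = i' := hii
    have hgg : g = g' := by
      have c1 := (h.2 v (by simp) (g, i) (by simp)).1
      have c2 := (h'.2 v (by simp) (g', i) (by simp)).1
      rcases c1 with c1 | c1 <;> rcases c2 with c2 | c2
      · -- the chain of `v` is contained in both
        obtain ⟨x, hx⟩ := hne v.2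
        have hx' : v.1 • x ∈ P.fv y v := (fv_mem P).2 ⟨x, hx, rfl⟩
        obtain ⟨a, ha, ha'⟩ := (fv_mem P).1 (c1 hx')
        obtain ⟨b, hb, hb'⟩ := (fv_mem P).1 (c2 hx')
        exact key g g' i a b ha hb (ha'.trans hb'.symm)
      · obtain ⟨x, hx⟩ := hne i
        have hx' : g' • x ∈ P.fv y (g', i) := (fv_mem P).2 ⟨x, hx, rfl⟩
        obtain ⟨a, ha, ha'⟩ := (fv_mem P).1 (c1 (c2 hx'))
        exact key g g' i a x ha hx ha'
      · obtain ⟨x, hx⟩ := hne i
        have hx' : g • x ∈ P.fv y (g, i) := (fv_mem P).2 ⟨x, hx, rfl⟩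
        obtain ⟨a, ha, ha'⟩ := (fv_mem P).1 (c2 (c1 hx'))
        exact (key g' g i a x ha hx ha').symm
      · obtain ⟨x, hx⟩ := hne i
        have h1 : g • x ∈ P.fv y v := c1 ((fv_mem P).2 ⟨x, hx, rfl⟩)
        have h2 : g' • x ∈ P.fv y v := c2 ((fv_mem P).2 ⟨x, hx, rfl⟩)
        have h3 := chain_typ P (hchain v) h1 h2 (by rw [P.typ_smul, P.typ_smul])
        exact free' P ((hy.mem i).2.2 hx) h3
    rw [hgg]
  · intro v
    have hlab : v.2 ≠ v.2 + 1 := by
      intro h
      have h1 : (1 : ZMod (q + 2)) = 0 := by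
        have := congrArg (· - v.2) h
        simpa using this.symm
      have : (q + 2) ∣ 1 := by
        rw [← ZMod.natCast_eq_zero_iff]
        simpa using h1
      have := Nat.le_of_dvd one_pos this
      omega
    refine ⟨⟨v, by simp⟩, ?_⟩
    intro a ha b hb
    simp only [Finset.mem_insert, Finset.mem_singleton] at ha hb
    rcases ha with rfl | rfl <;> rcases hb with rfl | rfl
    · exact ⟨Or.inl subset_rfl, fun _ => rfl⟩
    · exact ⟨hy.adj _, fun h => absurd h hlab⟩
    · exact ⟨(hy.adj _).symm, fun h => absurd h.symm hlab⟩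
    · exact ⟨Or.inl subset_rfl, fun _ => rfl⟩
  · rintro σ ⟨-, h⟩
    by_contra hcon
    push Not at hcon
    have hsd : ∀ i, ({P.lk i} : Finset P.Y) ∈ Sd P.Reg := by
      intro i
      refine ⟨by simp, ?_, ?_⟩
      · simp
      · simpa using lk_reg P i
    obtain ⟨v0, hv0⟩ := hc _ (hsd 0)
    obtain ⟨v1, hv1⟩ := hc _ (hsd 1)
    obtain ⟨v, hvσ, hv⟩ := hcon v0.2
    obtain ⟨w, hwσ, hw⟩ := hcon v1.2
    have hsing : ∀ (a b : Vx q G) (x : P.Y), a.2 = b.2 → P.fv y b = {x} →
        ∃ g : G, P.fv y a = {g • x} := by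
      intro a b x hab hb
      refine ⟨a.1 * b.1⁻¹, ?_⟩
      have h1 : a = trl (a.1 * b.1⁻¹) b := by
        apply Prod.ext
        · simp [trl]
        · exact hab
      have h2 := fv_trl P y (a.1 * b.1⁻¹) b
      rw [← h1, hb] at h2
      simpa using h2
    obtain ⟨g, hg⟩ := hsing v v0 _ hv hv0
    obtain ⟨g', hg'⟩ := hsing w v1 _ hw hv1
    have h2 := (h v hvσ w hwσ).1
    rw [hg, hg'] at h2
    have h3 : g • P.lk 0 = g' • P.lk 1 := by
      rcases h2 with h2 | h2
      · simpa using h2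
      · exact (by simpa using h2 : g' • P.lk 1 = g • P.lk 0).symm
    have h4 : P.typ (P.lk 0) = P.typ (P.lk 1) := by
      rw [← P.typ_smul g, h3, P.typ_smul]
    have h5 := P.typ_lt _ _ (P.lk_lt 1 odd_one).2
    norm_num at h5
    omega

end Pool.Agent.Helper59.PD
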