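import Pool.Agent.Helper59.PD.YP

/-! Auxiliary lemmas on walks (helper9). -/

set_option autoImplicit false

open scoped Classical

namespace Pool.Agent.Helper59.PD

namespace WB

noncomputable section

variable {q : ℕ} {G : Type} [Group G] {s : G} {N : ℕ}

section basic

variable (P : YPack q G s N)

theorem smul_le {g : G} {a b : P.Y} (h : a ≤ b) : g • a ≤ g • b := by
  rcases h.lt_or_eq with h | h
  · exact (P.lt g a b h).le
  · rw [h]

theorem chain_image {g : G} {z : Finset P.Y} (h : IsChain (· ≤ ·) (z : Set P.Y)) :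
    IsChain (· ≤ ·) ((z.image (g • ·) : Finset P.Y) : Set P.Y) := by
  intro a ha b hb _
  obtain ⟨a', ha', rfl⟩ := Finset.mem_image.1 (Finset.mem_coe.1 ha)
  obtain ⟨b', hb', rfl⟩ := Finset.mem_image.1 (Finset.mem_coe.1 hb)
  rcases h.total ha' hb' with h1 | h1
  · exact Or.inl (smul_le P h1)
  · exact Or.inr (smul_le P h1)

theorem reg_smul {g : G} {a : P.Y} (h : a ∈ P.Reg) : g • a ∈ P.Reg := by
  intro k hk
  apply h (g⁻¹ * k)
  rw [mul_smul, ← hk, inv_smul_smul]

theorem image_Sd {g : G} {z : Finset P.Y} (h : z ∈ Sd P.Reg) : z.image (g • ·) ∈ Sd P.Reg := by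
  refine ⟨h.1.image _, chain_image P h.2.1, ?_⟩
  intro a ha
  obtain ⟨a', ha', rfl⟩ := Finset.mem_image.1 (Finset.mem_coe.1 ha)
  exact reg_smul P (h.2.2 ha')

theorem typ_inj {z : Set P.Y} (h : IsChain (· ≤ ·) z) {a b : P.Y} (ha : a ∈ z) (hb : b ∈ z)
    (hab : P.typ a = P.typ b) : a = b := by
  rcases h.total ha hb with h1 | h1
  · rcases h1.lt_or_eq with h2 | h2
    · have := P.typ_lt _ _ h2; omega
    · exact h2
  · rcases h1.lt_or_eq with h2 | h2
    · have := P.typ_lt _ _ h2; omega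
    · exact h2.symm

theorem card_le {z : Finset P.Y} (h : IsChain (· ≤ ·) (z : Set P.Y)) : z.card ≤ P.T + 1 := by
  have h1 : (z.image P.typ).card = z.card :=
    Finset.card_image_of_injOn fun a ha b hb hab => typ_inj P h ha hb hab
  rw [← h1]
  have h2 : z.image P.typ ⊆ Finset.range (P.T + 1) := by
    intro n hn
    obtain ⟨a, _, rfl⟩ := Finset.mem_image.1 hn
    rw [Finset.mem_range]
    have := P.typ_le a
    omega
  simpa using Finset.card_le_card h2

end basic

variable {P : YPack q G s N} {y : ZMod (q + 2) → Finset P.Y}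

theorem fv_Sd (hy : ∀ i, y i ∈ Sd P.Reg) (v : Vx q G) : P.fv y v ∈ Sd P.Reg :=
  image_Sd P (hy v.2)

theorem fv_card (v : Vx q G) : (P.fv y v).card = (y v.2).card :=
  Finset.card_image_of_injective _ (MulAction.injective v.1)

/-- translates of a chain of regular points are determined by the group element -/
theorem fv_inj (hy : ∀ i, y i ∈ Sd P.Reg) {v w : Vx q G} (h2 : v.2 = w.2)
    (h : P.fv y v ⊆ P.fv y w) : v = w := by
  obtain ⟨a, ha⟩ := (hy v.2).1
  have h3 : v.1 • a ∈ P.fv y w := h (Finset.mem_image_of_mem _ ha)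
  obtain ⟨b, hb, hab⟩ := Finset.mem_image.1 h3
  rw [← h2] at hb
  have h4 : P.typ a = P.typ b := by
    rw [← P.typ_smul v.1 a, ← P.typ_smul w.1 b]
    exact congrArg P.typ hab.symm
  have h5 : a = b := typ_inj P (hy v.2).2.1 ha hb h4
  have h6 : (w.1⁻¹ * v.1) • a = a := by
    rw [mul_smul, ← hab, inv_smul_smul, h5]
  have h7 : w.1⁻¹ * v.1 = 1 := P.free _ a ((hy v.2).2.2 ha) h6
  have h8 : v.1 = w.1 := by
    have := congrArg (w.1 * ·) h7
    simpa using this
  exact Prod.ext h8 h2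

/-- the largest position of a simplex -/
theorem exists_max {σ : Finset (Vx q G)} (hσ : σ.Nonempty)
    (hc : ∀ v ∈ σ, ∀ w ∈ σ, P.fv y v ⊆ P.fv y w ∨ P.fv y w ⊆ P.fv y v) :
    ∃ v ∈ σ, ∀ w ∈ σ, P.fv y w ⊆ P.fv y v := by
  obtain ⟨v, hv, hmax⟩ := Finset.exists_max_image σ (fun v => (P.fv y v).card) hσ
  refine ⟨v, hv, fun w hw => ?_⟩
  rcases hc v hv w hw with h | h
  · rw [Finset.eq_of_subset_of_card_le h (hmax w hw)]
  · exact h

/-- the union of the positions -/
def UU (y : ZMod (q + 2) → Finset P.Y) (σ : Finset (Vx q G)) : Finset P.Y :=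
  σ.biUnion (P.fv y)

theorem UU_mono {σ σ' : Finset (Vx q G)} (h : σ ⊆ σ') : UU y σ ⊆ UU y σ' :=
  Finset.biUnion_subset_biUnion_of_subset_left _ h

theorem UU_subset {σ : Finset (Vx q G)} {z : Finset P.Y} :
    UU y σ ⊆ z ↔ ∀ v ∈ σ, P.fv y v ⊆ z := by
  simp [UU]

theorem fv_subset_UU {σ : Finset (Vx q G)} {v : Vx q G} (hv : v ∈ σ) : P.fv y v ⊆ UU y σ :=
  Finset.subset_biUnion_of_mem (P.fv y) hv

theorem exists_UU {σ : Finset (Vx q G)} (hσ : σ.Nonempty)
    (hc : ∀ v ∈ σ, ∀ w ∈ σ, P.fv y v ⊆ P.fv y w ∨ P.fv y w ⊆ P.fv y v) :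
    ∃ v ∈ σ, UU y σ = P.fv y v := by
  obtain ⟨v, hv, h⟩ := exists_max hσ hc
  exact ⟨v, hv, (UU_subset.2 h).antisymm (fv_subset_UU hv)⟩

theorem UU_pair (v w : Vx q G) : UU y {v, w} = P.fv y v ∪ P.fv y w := by
  simp [UU]

theorem UU_single (v : Vx q G) : UU y {v} = P.fv y v := by
  simp [UU]

theorem cone_comp (hadj : ∀ v : Vx q G, P.fv y v ⊆ P.fv y (nxt s v) ∨ P.fv y (nxt s v) ⊆ P.fv y v)
    {σ : Finset (Vx q G)} {c : G ⧸ Subgroup.zpowers s} (h : IsCone σ c) :
    ∀ v ∈ σ, ∀ w ∈ σ, P.fv y v ⊆ P.fv y w ∨ P.fv y w ⊆ P.fv y v := by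
  rcases h with rfl | ⟨u, -, rfl | rfl⟩
  · simp
  · intro v hv w hw
    rw [Finset.mem_singleton] at hv hw
    rw [hv, hw]
    exact Or.inl subset_rfl
  · intro v hv w hw
    simp only [Finset.mem_insert, Finset.mem_singleton] at hv hw
    rcases hv with rfl | rfl <;> rcases hw with rfl | rfl
    · exact Or.inl subset_rfl
    · exact hadj _
    · exact (hadj _).symm
    · exact Or.inl subset_rfl

theorem cone_card {σ : Finset (Vx q G)} {c : G ⧸ Subgroup.zpowers s} (h : IsCone σ c) :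
    σ.card ≤ 2 := by
  rcases h with rfl | ⟨u, -, rfl | rfl⟩
  · simp
  · simp
  · exact Finset.card_le_two

theorem Sd_finHt (S : Set P.Y) : FinHtOn (Sd S) := by
  refine ⟨P.T + 1, Finset.card, fun a _ b _ h => Finset.card_lt_card h, fun a ha => ?_⟩
  exact card_le P ha.2.1

theorem ZS_finHt : FinHtOn (ZS P y) := by
  refine ⟨P.T + 4, fun a => match a with
    | .bs z => z.card
    | .cn σ _ => P.T + 2 + σ.card, ?_, ?_⟩
  · intro a ha b hb hab
    cases a with
    | bs z =>
      cases b with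
      | bs z' =>
        have h1 : z ⊆ z' := hab.le
        have h2 : z ≠ z' := fun e => hab.ne (congrArg _ e)
        exact Finset.card_lt_card (Finset.ssubset_iff_subset_ne.2 ⟨h1, h2⟩)
      | cn σ c =>
        have h1 := card_le P (ha.1 z rfl).2.1
        change z.card < P.T + 2 + σ.card
        omega
    | cn σ c =>
      cases b with
      | bs z' => exact (ZT.not_cn_le_bs hab.le).elim
      | cn σ' c' =>
        have h1 := ZT.cn_le_cn.1 hab.le
        have h2 : σ ≠ σ' := by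
          rintro rfl
          exact hab.ne (by rw [h1.2])
        have h3 := Finset.card_lt_card (Finset.ssubset_iff_subset_ne.2 ⟨h1.1, h2⟩)
        change P.T + 2 + σ.card < P.T + 2 + σ'.card
        omega
  · intro a ha
    cases a with
    | bs z =>
      have h1 := card_le P (ha.1 z rfl).2.1
      change z.card ≤ P.T + 4
      omega
    | cn σ c =>
      have h1 := cone_card (ha.2 σ c rfl)
      change P.T + 2 + σ.card ≤ P.T + 4
      omega

theorem bs_mem {z : Finset P.Y} : ZT.bs z ∈ ZS P y ↔ z ∈ Sd P.Reg := by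
  constructor
  · intro h
    exact h.1 z rfl
  · intro h
    refine ⟨fun z' e => ?_, fun σ c e => by cases e⟩
    cases e
    exact h

theorem cn_mem {σ : Finset (Vx q G)} {c : G ⧸ Subgroup.zpowers s} :
    ZT.cn σ c ∈ ZS P y ↔ IsCone σ c := by
  constructor
  · intro h
    exact h.2 σ c rfl
  · intro h
    refine ⟨fun z' e => (by cases e), fun σ' c' e => ?_⟩
    cases e
    exact h

/-- restriction of the height -/
theorem FinHtOn.mono' {X : Type} [PartialOrder X] {S T : Set X} (h : FinHtOn T) (hST : S ⊆ T) :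
    FinHtOn S := by
  obtain ⟨N, ρ, h1, h2⟩ := h
  exact ⟨N, ρ, fun x hx y hy => h1 x (hST hx) y (hST hy), fun x hx => h2 x (hST hx)⟩

end

end WB

end Pool.Agent.Helper59.PD
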