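import Pool.Agent.Helper59.PD.WalkB_aux

/-! The standard walk: auxiliary lemmas (helper9). -/

set_option autoImplicit false

open scoped Classical

namespace Pool.Agent.Helper59.PD

namespace WD

noncomputable section

/-! ### paths -/

/-- vertices and edges of the path from `m` to `n` -/
def Pth (m n : ℤ) : Set (Finset ℤ) :=
  {t | ∃ k, m ≤ k ∧ k ≤ n ∧ (t = {k} ∨ (k + 1 ≤ n ∧ t = {k, k + 1}))}

theorem Pth_finHt (m n : ℤ) : FinHtOn (Pth m n) := by
  refine ⟨2, Finset.card, fun a _ b _ h => Finset.card_lt_card h, ?_⟩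
  rintro t ⟨k, -, -, rfl | ⟨-, rfl⟩⟩
  · simp
  · exact Finset.card_le_two

theorem path_wc_nat (m : ℤ) (j : ℕ) : WC (Pth m (m + j)) := by
  induction j with
  | zero =>
    refine WC.cone {m} ⟨m, le_refl _, by simp, Or.inl rfl⟩ ?_
    rintro t ⟨k, h1, h2, rfl | ⟨h3, rfl⟩⟩
    · left
      have : k = m := by simp at h2; omega
      rw [this]
    · exfalso
      simp at h3
      omega
  | succ j ih =>
    set n : ℤ := m + j with hn
    have hn1 : m + ((j + 1 : ℕ) : ℤ) = n + 1 := by rw [hn]; push_cast; ring
    rw [hn1]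
    have hmn : m ≤ n := by omega
    set S := Pth m n with hS
    obtain ⟨e, he⟩ : ∃ e : Finset ℤ, e = {n, n + 1} := ⟨_, rfl⟩
    obtain ⟨v, hv⟩ : ∃ v : Finset ℤ, v = {n + 1} := ⟨_, rfl⟩
    have hSub : ∀ t ∈ S, ∀ x ∈ t, m ≤ x ∧ x ≤ n := by
      rintro t ⟨k, h1, h2, rfl | ⟨h3, rfl⟩⟩ x hx
      · rw [Finset.mem_singleton] at hx; omega
      · simp only [Finset.mem_insert, Finset.mem_singleton] at hx
        omega
    have heS : e ∉ S := fun h => by
      have := hSub e h (n + 1) (by simp [he])
      omega
    have hvS : v ∉ S := fun h => by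
      have := hSub v h (n + 1) (by simp [hv])
      omega
    have hve : v ≠ e := by
      intro h
      have : n ∈ v := by rw [h, he]; simp
      rw [hv, Finset.mem_singleton] at this
      omega
    have hnS : ({n} : Finset ℤ) ∈ S := ⟨n, hmn, le_refl _, Or.inl rfl⟩
    have e1 : HEq' S (S ∪ {e}) := by
      refine HEq'.add_antichain ?_ ?_ ?_
      · rintro x rfl y rfl
        exact lt_irrefl _
      · rw [Set.disjoint_singleton_right]
        exact heS
      · intro x0 hx0
        rw [show x0 = e from hx0]
        refine WC.cone {n} ⟨hnS, Or.inl ?_⟩ ?_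
        · refine Finset.ssubset_iff_subset_ne.2 ⟨by simp [he], ?_⟩
          intro h
          exact heS (h ▸ hnS)
        · rintro t ⟨ht, h⟩
          left
          rcases h with h | h
          · intro x hx
            have h1 := hSub t ht x hx
            have h2 : x ∈ e := h.1 hx
            simp only [he, Finset.mem_insert, Finset.mem_singleton] at h2
            rw [Finset.mem_singleton]
            omega
          · exfalso
            have h1 : n + 1 ∈ t := h.1 (by simp [he])
            have := hSub t ht _ h1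
            omega
    have e2 : HEq' (S ∪ {e}) (S ∪ {e} ∪ {v}) := by
      refine HEq'.add_antichain ?_ ?_ ?_
      · rintro x rfl y rfl
        exact lt_irrefl _
      · rw [Set.disjoint_singleton_right]
        rintro (h | h)
        · exact hvS h
        · exact hve h
      · intro x0 hx0
        rw [show x0 = v from hx0]
        refine WC.cone e ⟨Or.inr rfl, Or.inr ?_⟩ ?_
        · exact Finset.ssubset_iff_subset_ne.2 ⟨by simp [he, hv], hve⟩
        · rintro t ⟨ht, h⟩
          left
          rcases ht with ht | ht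
          · exfalso
            rcases h with h | h
            · rw [hv] at h
              rcases Finset.subset_singleton_iff.1 h.1 with h1 | h1
              · obtain ⟨k, -, -, h2⟩ := ht
                rcases h2 with h2 | ⟨-, h2⟩
                · rw [h1] at h2
                  exact absurd h2.symm (Finset.singleton_ne_empty _)
                · rw [h1] at h2
                  exact absurd h2.symm (Finset.insert_ne_empty _ _)
              · apply hvS
                rw [hv, ← h1]
                exact ht
            · have h1 : n + 1 ∈ t := h.1 (by simp [hv])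
              have := hSub t ht _ h1
              omega
          · rw [Set.mem_singleton_iff.1 ht]
    have e3 : S ∪ {e} ∪ {v} = Pth m (n + 1) := by
      ext t
      constructor
      · rintro ((⟨k, h1, h2, h3⟩ | h) | h)
        · refine ⟨k, h1, by omega, ?_⟩
          rcases h3 with h3 | ⟨h3, h4⟩
          · exact Or.inl h3
          · exact Or.inr ⟨by omega, h4⟩
        · exact ⟨n, hmn, by omega, Or.inr ⟨le_refl _, he ▸ h⟩⟩
        · exact ⟨n + 1, by omega, le_refl _, Or.inl (hv ▸ h)⟩
      · rintro ⟨k, h1, h2, h3 | ⟨h3, h4⟩⟩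
        · by_cases hk : k ≤ n
          · exact Or.inl (Or.inl ⟨k, h1, hk, Or.inl h3⟩)
          · right
            have : k = n + 1 := by omega
            rw [h3, this, hv]; rfl
        · by_cases hk : k + 1 ≤ n
          · exact Or.inl (Or.inl ⟨k, h1, by omega, Or.inr ⟨hk, h4⟩⟩)
          · left; right
            have : k = n := by omega
            rw [h4, this, he]; rfl
    rw [← e3]
    exact e2.wc.1 (e1.wc.1 ih)

theorem path_wc {m n : ℤ} (h : m ≤ n) : WC (Pth m n) := by
  obtain ⟨j, hj⟩ := Int.eq_ofNat_of_zero_le (show 0 ≤ n - m by omega)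
  have : n = m + j := by omega
  rw [this]
  exact path_wc_nat m j

/-! ### monotone sequences -/

/-- an interval in the range of a monotone integer sequence with unit steps -/
theorem exists_interval {u : ℤ → ℤ} (h1 : ∀ k, u k ≤ u (k + 1)) (h2 : ∀ k, u (k + 1) ≤ u k + 1)
    {L c : ℤ} (hper : ∀ k, u (k + L) = u k + c) {e1 e2 : ℤ} (he : e1 ≤ e2)
    (hc : e2 - e1 + 1 < c) :
    ∃ m n : ℤ, m ≤ n ∧ n - m + 1 < L ∧ ∀ k, (e1 ≤ u k ∧ u k ≤ e2) ↔ (m ≤ k ∧ k ≤ n) := by
  have hmono : Monotone u := monotone_int_of_le_succ h1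
  have hc0 : 0 < c := by omega
  have hperN : ∀ (j : ℕ) (k : ℤ), u (k + j * L) = u k + j * c := by
    intro j
    induction j with
    | zero => intro k; simp
    | succ j ih =>
      intro k
      have : k + ((j + 1 : ℕ) : ℤ) * L = (k + j * L) + L := by push_cast; ring
      rw [this, hper, ih]
      push_cast
      ring
  have hup : ∀ e : ℤ, ∃ k, e ≤ u k := by
    intro e
    refine ⟨0 + (e - u 0).toNat * L, ?_⟩
    rw [hperN]
    have h3 : e - u 0 ≤ ((e - u 0).toNat : ℤ) := Int.self_le_toNat _
    have h4 : (0:ℤ) ≤ ((e - u 0).toNat : ℤ) := by positivity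
    nlinarith
  have hdn : ∀ e : ℤ, ∃ k, u k ≤ e := by
    intro e
    refine ⟨0 - (u 0 - e).toNat * L, ?_⟩
    have h3 := hperN (u 0 - e).toNat (0 - (u 0 - e).toNat * L)
    rw [sub_add_cancel] at h3
    have h4 : u 0 - e ≤ ((u 0 - e).toNat : ℤ) := Int.self_le_toNat _
    have h5 : (0:ℤ) ≤ ((u 0 - e).toNat : ℤ) := by positivity
    nlinarith
  obtain ⟨m, hm1, hm2⟩ := Int.exists_least_of_bdd (P := fun k => e1 ≤ u k) (by
    obtain ⟨b, hb⟩ := hdn (e1 - 1)
    refine ⟨b, fun z hz => ?_⟩
    by_contra hcon
    have := hmono (show z ≤ b by omega)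
    omega) (hup e1)
  obtain ⟨n, hn1, hn2⟩ := Int.exists_greatest_of_bdd (P := fun k => u k ≤ e2) (by
    obtain ⟨b, hb⟩ := hup (e2 + 1)
    refine ⟨b, fun z hz => ?_⟩
    by_contra hcon
    have := hmono (show b ≤ z by omega)
    omega) (hdn e2)
  have hm3 : u m ≤ e2 := by
    have h3 : ¬ e1 ≤ u (m - 1) := fun h => by
      have := hm2 _ h
      omega
    have h4 := h2 (m - 1)
    rw [sub_add_cancel] at h4
    omega
  refine ⟨m, n, hn2 m hm3, ?_, fun k => ⟨fun h => ⟨hm2 k h.1, hn2 k h.2⟩, fun h => ?_⟩⟩
  · by_contra hcon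
    have h3 := hmono (show m + L ≤ n + 1 by omega)
    rw [hper] at h3
    have h4 := h2 n
    omega
  · exact ⟨hm1.trans (hmono h.1), (hmono h.2).trans hn1⟩

end

end WD

end Pool.Agent.Helper59.PD
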