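import Pool.Agent.Helper59.PD.WalkD_aux

/-! The standard walk: coordinates (helper9). -/

set_option autoImplicit false

open scoped Classical

namespace Pool.Agent.Helper59.PD

namespace WD

open WB

noncomputable section

variable {q : ℕ} {G : Type} [Group G] {s : G} {N : ℕ} (P : YPack q G s N)

/-- the subdivided link -/
def wf (u : ℤ) : Finset P.Y :=
  if Even u then {P.lk (u / 2)} else {P.lk (u / 2), P.lk (u / 2 + 1)}

theorem lk_zpow (a i : ℤ) : P.lk (i + 4 * a) = s ^ a • P.lk i := by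
  induction a with
  | zero => simp
  | succ a ih =>
    have h1 : i + 4 * ((a : ℤ) + 1) = (i + 4 * a) + 4 := by ring
    rw [h1, P.lk_smul, ih, ← mul_smul, ← zpow_one_add, add_comm]
  | pred a ih =>
    have h1 : i + 4 * (-(a : ℤ) - 1) + 4 = i + 4 * (-a) := by ring
    have h2 := P.lk_smul (i + 4 * (-(a : ℤ) - 1))
    rw [h1, ih] at h2
    have h3 : P.lk (i + 4 * (-(a : ℤ) - 1)) = s⁻¹ • s ^ (-(a:ℤ)) • P.lk i := by
      rw [h2, inv_smul_smul]
    rw [h3, ← mul_smul, ← zpow_neg_one, ← zpow_add]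
    congr 2
    ring

variable {P}

theorem lk_eq_iff (hs : s ^ q = 1) {i j : ℤ} : P.lk i = P.lk j ↔ (4 * q : ℤ) ∣ i - j := by
  constructor
  · exact P.lk_inj i j
  · rintro ⟨c, hc⟩
    have h1 : i = j + 4 * (q * c) := by linarith
    rw [h1, lk_zpow, zpow_mul, zpow_natCast, hs, one_zpow, one_smul]

theorem wf_smul (a u : ℤ) : (wf P u).image (s ^ a • ·) = wf P (u + 8 * a) := by
  have h1 : (u + 8 * a) / 2 = u / 2 + 4 * a := by omega
  have h2 : Even (u + 8 * a) ↔ Even u := by
    constructor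
    · intro h
      have : Even (8 * a) := ⟨4 * a, by ring⟩
      have := h.sub this
      rwa [add_sub_cancel_right] at this
    · intro h
      exact h.add ⟨4 * a, by ring⟩
  unfold wf
  by_cases h : Even u
  · rw [if_pos h, if_pos (h2.2 h), h1, lk_zpow]
    simp
  · rw [if_neg h, if_neg (fun h' => h (h2.1 h')), h1, lk_zpow]
    have h3 : u / 2 + 4 * a + 1 = (u / 2 + 1) + 4 * a := by ring
    rw [h3, lk_zpow]
    simp [Finset.image_insert]

theorem wf_per (hs : s ^ q = 1) (j u : ℤ) : wf P (u + 8 * q * j) = wf P u := by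
  have h1 : u + 8 * q * j = u + 8 * (q * j) := by ring
  rw [h1, ← wf_smul, zpow_mul, zpow_natCast, hs, one_zpow]
  simp

theorem wf_mem (u : ℤ) : wf P u ∈ Sd P.Reg := by
  have hreg : ∀ i, P.lk i ∈ P.Reg := by
    intro i h hh
    have h1 : P.lk i < P.p := (P.lk_below _).2 ⟨i, rfl⟩
    rw [hh] at h1
    have h2 := P.lt h⁻¹ _ _ h1
    rw [inv_smul_smul] at h2
    exact P.pmax _ h2
  unfold wf
  by_cases h : Even u
  · rw [if_pos h]
    refine ⟨Finset.singleton_nonempty _, ?_, ?_⟩
    · rw [Finset.coe_singleton]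
      exact IsChain.singleton
    · intro x hx
      rw [Finset.coe_singleton, Set.mem_singleton_iff] at hx
      rw [hx]
      exact hreg _
  · rw [if_neg h]
    refine ⟨Finset.insert_nonempty _ _, ?_, ?_⟩
    · have h1 : P.lk (u / 2) ≤ P.lk (u / 2 + 1) ∨ P.lk (u / 2 + 1) ≤ P.lk (u / 2) := by
        rcases Int.even_or_odd (u / 2) with h2 | h2
        · right
          have h3 := (P.lk_lt (u / 2 + 1) (h2.add_odd odd_one)).2
          rw [add_sub_cancel_right] at h3
          exact h3.le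
        · left
          exact (P.lk_lt _ h2).1.le
      intro x hx z hz _
      simp only [Finset.coe_insert, Finset.coe_singleton, Set.mem_insert_iff,
        Set.mem_singleton_iff] at hx hz
      rcases hx with rfl | rfl <;> rcases hz with rfl | rfl
      · exact Or.inl le_rfl
      · exact h1
      · exact h1.symm
      · exact Or.inl le_rfl
    · intro x hx
      simp only [Finset.coe_insert, Finset.coe_singleton, Set.mem_insert_iff,
        Set.mem_singleton_iff] at hx
      rcases hx with rfl | rfl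
      · exact hreg _
      · exact hreg _

theorem wf_sub_succ (u : ℤ) : wf P u ⊆ wf P (u + 1) ∨ wf P (u + 1) ⊆ wf P u := by
  unfold wf
  by_cases h : Even u
  · left
    have h1 : ¬ Even (u + 1) := by rw [Int.not_even_iff_odd]; exact h.add_odd odd_one
    have h2 : (u + 1) / 2 = u / 2 := by obtain ⟨c, hc⟩ := h; omega
    rw [if_pos h, if_neg h1, h2]
    simp
  · right
    have h0 := Int.not_even_iff_odd.1 h
    have h1 : Even (u + 1) := h0.add_odd odd_one
    have h2 : (u + 1) / 2 = u / 2 + 1 := by obtain ⟨c, hc⟩ := h0; omega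
    rw [if_neg h, if_pos h1, h2]
    simp

/-- which positions are contained in a chain of the link -/
theorem wf_sub (hs : s ^ q = 1) (q7 : 7 ≤ q) {u e : ℤ} (h : wf P u ⊆ wf P e) :
    ∃ j : ℤ, (if Even e then e else e - 1) ≤ u + 8 * q * j ∧
      u + 8 * q * j ≤ (if Even e then e else e + 1) := by
  have hq : (7:ℤ) ≤ q := by exact_mod_cast q7
  unfold wf at h
  by_cases he : Even e
  · rw [if_pos he] at h
    rw [if_pos he, if_pos he]
    by_cases hu : Even u
    · rw [if_pos hu] at h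
      have h1 := h (Finset.mem_singleton_self _)
      rw [Finset.mem_singleton, lk_eq_iff hs] at h1
      obtain ⟨c, hc⟩ := h1
      refine ⟨-c, ?_⟩
      obtain ⟨a, ha⟩ := hu
      obtain ⟨b, hb⟩ := he
      have h2 : u / 2 = a := by omega
      have h3 : e / 2 = b := by omega
      rw [h2, h3] at hc
      have h4 : u + 8 * q * (-c) = e := by rw [ha, hb]; linarith
      rw [h4]
      exact ⟨le_rfl, le_rfl⟩
    · exfalso
      rw [if_neg hu] at h
      have h1 := h (Finset.mem_insert_self _ _)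
      have h2 := h (Finset.mem_insert_of_mem (Finset.mem_singleton_self _))
      rw [Finset.mem_singleton] at h1 h2
      have h3 := h2.trans h1.symm
      rw [lk_eq_iff hs] at h3
      have h4 : u / 2 + 1 - u / 2 = 1 := by ring
      rw [h4] at h3
      have := Int.le_of_dvd one_pos h3
      omega
  · rw [if_neg he] at h
    rw [if_neg he, if_neg he]
    obtain ⟨b, hb⟩ := Int.not_even_iff_odd.1 he
    have h3 : e / 2 = b := by omega
    rw [h3] at h
    by_cases hu : Even u
    · rw [if_pos hu] at h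
      have h1 := h (Finset.mem_singleton_self _)
      rw [Finset.mem_insert, Finset.mem_singleton, lk_eq_iff hs, lk_eq_iff hs] at h1
      obtain ⟨a, ha⟩ := hu
      have h2 : u / 2 = a := by omega
      rw [h2] at h1
      rcases h1 with ⟨c, hc⟩ | ⟨c, hc⟩
      · refine ⟨-c, ?_⟩
        have h4 : u + 8 * q * (-c) = e - 1 := by rw [ha, hb]; linarith
        rw [h4]
        omega
      · refine ⟨-c, ?_⟩
        have h4 : u + 8 * q * (-c) = e + 1 := by rw [ha, hb]; linarith
        rw [h4]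
        omega
    · rw [if_neg hu] at h
      have h1 := h (Finset.mem_insert_self _ _)
      have h2 := h (Finset.mem_insert_of_mem (Finset.mem_singleton_self _))
      rw [Finset.mem_insert, Finset.mem_singleton, lk_eq_iff hs, lk_eq_iff hs] at h1 h2
      obtain ⟨a, ha⟩ := Int.not_even_iff_odd.1 hu
      have h4 : u / 2 = a := by omega
      rw [h4] at h1 h2
      rcases h1 with ⟨c, hc⟩ | ⟨c, hc⟩
      · refine ⟨-c, ?_⟩
        have h5 : u + 8 * q * (-c) = e := by rw [ha, hb]; linarith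
        rw [h5]
        omega
      · exfalso
        rcases h2 with ⟨c', hc'⟩ | ⟨c', hc'⟩
        · have h5 : (4 * q : ℤ) ∣ 2 := ⟨c' - c, by linarith⟩
          have := Int.le_of_dvd (by norm_num) h5
          omega
        · have h5 : (4 * q : ℤ) ∣ 1 := ⟨c' - c, by linarith⟩
          have := Int.le_of_dvd (by norm_num) h5
          omega

theorem sub_wf {u e : ℤ} (h1 : (if Even e then e else e - 1) ≤ u)
    (h2 : u ≤ (if Even e then e else e + 1)) : wf P u ⊆ wf P e := by
  by_cases he : Even e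
  · rw [if_pos he] at h1 h2
    have : u = e := by omega
    rw [this]
  · rw [if_neg he] at h1 h2
    have h3 : u = e - 1 ∨ u = e ∨ u = e + 1 := by omega
    rcases h3 with rfl | rfl | rfl
    · have h5 : Even (e - 1) := (Int.not_even_iff_odd.1 he).sub_odd odd_one
      have h6 : (e - 1) / 2 = e / 2 := by
        obtain ⟨c, hc⟩ := Int.not_even_iff_odd.1 he; omega
      unfold wf
      rw [if_pos h5, if_neg he, h6]
      simp
    · exact subset_rfl
    · have h5 : Even (e + 1) := (Int.not_even_iff_odd.1 he).add_odd odd_one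
      have h6 : (e + 1) / 2 = e / 2 + 1 := by
        obtain ⟨c, hc⟩ := Int.not_even_iff_odd.1 he; omega
      unfold wf
      rw [if_pos h5, if_neg he, h6]
      simp

/-! ### coordinates on a coset -/

/-- the vertices over a coset -/
def VV (s h : G) (k : ℤ) : Vx q G := (h * s ^ (k / ((q : ℤ) + 2)), (k : ZMod (q + 2)))

/-- the position of a vertex -/
def UK (q : ℕ) (k : ℤ) : ℤ := 8 * (k / ((q : ℤ) + 2)) + max 0 (k % ((q : ℤ) + 2) - ((q : ℤ) - 6))

theorem std_eq (i : ZMod (q + 2)) : P.std i = wf P (max 0 (i.val - (q - 6 : ℤ))) := by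
  unfold YPack.std YPack.W0 wf
  by_cases h : (i.val - (q - 6 : ℤ)) ≤ 0
  · rw [if_pos h, max_eq_left h]
    simp
  · rw [if_neg h, max_eq_right (by omega)]

theorem fv_VV (h : G) (k : ℤ) : P.fv P.std (VV s h k) = (wf P (UK q k)).image (h • ·) := by
  unfold YPack.fv VV UK
  simp only
  rw [std_eq, ZMod.val_intCast]
  have h1 : 8 * (k / ((q : ℤ) + 2)) + max 0 (k % ((q : ℤ) + 2) - ((q : ℤ) - 6)) =
      max 0 (k % ((q : ℤ) + 2) - ((q : ℤ) - 6)) + 8 * (k / ((q : ℤ) + 2)) := by ring
  rw [h1, ← wf_smul, Finset.image_image]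
  push_cast
  congr 1
  funext x
  simp [mul_smul]

theorem succ_cases (k : ℤ) : (k % ((q : ℤ) + 2) < q + 1 ∧
      (k + 1) / ((q : ℤ) + 2) = k / ((q : ℤ) + 2) ∧
      (k + 1) % ((q : ℤ) + 2) = k % ((q : ℤ) + 2) + 1) ∨
    (k % ((q : ℤ) + 2) = q + 1 ∧ (k + 1) / ((q : ℤ) + 2) = k / ((q : ℤ) + 2) + 1 ∧
      (k + 1) % ((q : ℤ) + 2) = 0) := by
  have hQ : (0 : ℤ) < (q : ℤ) + 2 := by positivity
  have h1 := Int.emod_add_mul_ediv k ((q : ℤ) + 2)
  have h2 := Int.emod_nonneg k hQ.ne'
  have h3 := Int.emod_lt_of_pos k hQ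
  by_cases h : k % ((q : ℤ) + 2) < q + 1
  · left
    refine ⟨h, ?_⟩
    rw [Int.ediv_emod_unique hQ]
    refine ⟨?_, by omega, by omega⟩
    linarith
  · right
    have h4 : k % ((q : ℤ) + 2) = q + 1 := by omega
    refine ⟨h4, ?_⟩
    rw [Int.ediv_emod_unique hQ]
    refine ⟨?_, by omega, by omega⟩
    rw [h4] at h1
    linarith

theorem VV_succ (h : G) (k : ℤ) : (VV s h (k + 1) : Vx q G) = nxt s (VV s h k) := by
  have hQ : (0 : ℤ) < (q : ℤ) + 2 := by positivity
  have h0 : (((k : ℤ) : ZMod (q + 2)) = -1) ↔ (k + 1) % ((q : ℤ) + 2) = 0 := by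
    rw [eq_neg_iff_add_eq_zero]
    have h1 : ((k : ℤ) : ZMod (q + 2)) + 1 = ((k + 1 : ℤ) : ZMod (q + 2)) := by push_cast; ring
    rw [h1, ZMod.intCast_zmod_eq_zero_iff_dvd]
    push_cast
    exact Int.dvd_iff_emod_eq_zero
  unfold VV nxt
  simp only
  refine Prod.ext ?_ ?_
  · simp only
    rcases succ_cases (q := q) k with ⟨h1, h2, h3⟩ | ⟨h1, h2, h3⟩
    · rw [if_neg, h2]
      rw [h0, h3]
      have := Int.emod_nonneg k hQ.ne'
      omega
    · rw [if_pos (h0.2 h3), h2, zpow_add, zpow_one, mul_assoc]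
  · push_cast
    ring

theorem UK_succ (q7 : 7 ≤ q) (k : ℤ) : UK q k ≤ UK q (k + 1) ∧ UK q (k + 1) ≤ UK q k + 1 := by
  have hQ : (0 : ℤ) < (q : ℤ) + 2 := by positivity
  have hq : (7:ℤ) ≤ q := by exact_mod_cast q7
  have h4 := Int.emod_nonneg k hQ.ne'
  unfold UK
  rcases succ_cases (q := q) k with ⟨h1, h2, h3⟩ | ⟨h1, h2, h3⟩
  · rw [h2, h3]
    omega
  · rw [h2, h3, h1]
    omega

theorem UK_per (k : ℤ) : UK q (k + q * (q + 2)) = UK q k + 8 * q := by
  have hQ : ((q : ℤ) + 2) ≠ 0 := by positivity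
  unfold UK
  rw [Int.add_mul_ediv_right _ _ hQ, Int.add_mul_emod_self_right]
  ring

theorem VV_eq_iff (hq : q.Prime) (hs : s ^ q = 1) (hs1 : s ≠ 1) (h : G) {k l : ℤ} :
    (VV s h k : Vx q G) = VV s h l ↔ ((q : ℤ) * (q + 2)) ∣ k - l := by
  have hQ : (0 : ℤ) < (q : ℤ) + 2 := by positivity
  have := Fact.mk hq
  have hord : orderOf s = q := orderOf_eq_prime hs hs1
  constructor
  · intro hh
    have h1 : s ^ (k / ((q : ℤ) + 2)) = s ^ (l / ((q : ℤ) + 2)) := by
      have := congrArg Prod.fst hh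
      simpa [VV] using this
    have h2 : ((k : ℤ) : ZMod (q + 2)) = ((l : ℤ) : ZMod (q + 2)) := congrArg Prod.snd hh
    rw [zpow_eq_zpow_iff_modEq, hord] at h1
    rw [ZMod.intCast_eq_intCast_iff] at h2
    obtain ⟨c, hc⟩ := h1.symm.dvd
    have h3 : k % ((q : ℤ) + 2) = l % ((q : ℤ) + 2) := by
      have : k % (((q + 2 : ℕ)) : ℤ) = l % (((q + 2 : ℕ)) : ℤ) := h2
      push_cast at this
      exact this
    have h4 := Int.emod_add_mul_ediv k ((q : ℤ) + 2)
    have h5 := Int.emod_add_mul_ediv l ((q : ℤ) + 2)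
    refine ⟨c, ?_⟩
    have h6 : k - l = ((q : ℤ) + 2) * (k / ((q : ℤ) + 2) - l / ((q : ℤ) + 2)) := by
      rw [mul_sub]
      linarith
    rw [h6, hc]
    ring
  · rintro ⟨c, hc⟩
    have h1 : k = l + (q * c) * (q + 2) := by linarith
    have h2 : k / ((q : ℤ) + 2) = l / ((q : ℤ) + 2) + q * c := by
      rw [h1, Int.add_mul_ediv_right _ _ hQ.ne']
    unfold VV
    refine Prod.ext ?_ ?_
    · simp only
      rw [h2, zpow_add, zpow_mul, zpow_natCast, hs, one_zpow, mul_one]
    · simp only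
      rw [ZMod.intCast_eq_intCast_iff]
      refine (Int.modEq_iff_dvd.2 ⟨-(q * c), ?_⟩)
      push_cast
      rw [h1]
      ring

theorem VV_surj (h : G) (v : Vx q G)
    (hv : (QuotientGroup.mk v.1 : G ⧸ Subgroup.zpowers s) = QuotientGroup.mk h) :
    ∃ k : ℤ, v = VV s h k := by
  have hQ : (0 : ℤ) < (q : ℤ) + 2 := by positivity
  rw [eq_comm, QuotientGroup.eq] at hv
  obtain ⟨a, ha⟩ := Subgroup.mem_zpowers_iff.1 hv
  have h0 : ((v.2.val : ℕ) : ℤ) < (q : ℤ) + 2 := by
    have := ZMod.val_lt v.2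
    exact_mod_cast this
  refine ⟨v.2.val + (q + 2) * a, ?_⟩
  have h1 : ((v.2.val : ℤ) + (q + 2) * a) / ((q : ℤ) + 2) = a ∧
      ((v.2.val : ℤ) + (q + 2) * a) % ((q : ℤ) + 2) = v.2.val := by
    rw [Int.ediv_emod_unique hQ]
    exact ⟨rfl, by positivity, h0⟩
  unfold VV
  refine Prod.ext ?_ ?_
  · simp only
    rw [h1.1, ha, mul_inv_cancel_left]
  · simp only
    push_cast
    have h2 : ((q : ZMod (q + 2)) + 2) = 0 := by
      have := ZMod.natCast_self (q + 2)
      push_cast at this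
      exact this
    rw [h2, zero_mul, add_zero, ZMod.natCast_zmod_val]

theorem mk_VV (h : G) (k : ℤ) :
    (QuotientGroup.mk (VV s h k : Vx q G).1 : G ⧸ Subgroup.zpowers s) = QuotientGroup.mk h := by
  rw [eq_comm, QuotientGroup.eq]
  simp only [VV, inv_mul_cancel_left]
  exact Subgroup.zpow_mem _ (Subgroup.mem_zpowers s) _

theorem std_mem (i : ZMod (q + 2)) : P.std i ∈ Sd P.Reg := by
  rw [std_eq]
  exact wf_mem _

theorem std_adj (q7 : 7 ≤ q) (v : Vx q G) :
    P.fv P.std v ⊆ P.fv P.std (nxt s v) ∨ P.fv P.std (nxt s v) ⊆ P.fv P.std v := by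
  obtain ⟨k, hk⟩ := VV_surj (s := s) v.1 v rfl
  have h1 : nxt s v = VV s v.1 (k + 1) := by
    conv_lhs => rw [hk]
    rw [VV_succ]
  have h2 : P.fv P.std v = (wf P (UK q k)).image (v.1 • ·) := by
    conv_lhs => rw [hk]
    rw [fv_VV]
  rw [h1, fv_VV, h2]
  have h3 := UK_succ q7 k
  have h4 : UK q (k + 1) = UK q k ∨ UK q (k + 1) = UK q k + 1 := by omega
  rcases h4 with h4 | h4
  · rw [h4]; exact Or.inl subset_rfl
  · rw [h4]
    rcases wf_sub_succ (P := P) (UK q k) with h5 | h5
    · exact Or.inl (Finset.image_subset_image h5)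
    · exact Or.inr (Finset.image_subset_image h5)

theorem std_isWalk (q7 : 7 ≤ q) : P.IsWalk P.std := ⟨std_mem, std_adj q7⟩

end

end WD

end Pool.Agent.Helper59.PD
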