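import Pool.Agent.Helper59.PD.YP

/-! Towers of HNN extensions: definitions. -/

set_option autoImplicit false

open scoped Classical

namespace Pool.Agent.Helper59.PD

noncomputable section

/-- A weakly contractible poset with an action of `H`, free outside the orbit of a maximal point `p`
with stabiliser `⟨s⟩`, with at most `N` orbits, and with at most `M` regular elements above any
regular element. -/
structure YB (H : Type) [Group H] (s : H) (N M : ℕ) where
  /-- the poset -/
  Y : Type
  [po : PartialOrder Y]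
  [ac : MulAction H Y]
  lt : ∀ (g : H) (x y : Y), x < y → g • x < g • y
  /-- the type of an element -/
  typ : Y → ℕ
  typ_lt : ∀ x y, x < y → typ x < typ y
  typ_smul : ∀ (g : H) (x : Y), typ (g • x) = typ x
  /-- bound for the types -/
  T : ℕ
  typ_le : ∀ x, typ x ≤ T
  /-- the singular point -/
  p : Y
  stab : ∀ g : H, g • p = p ↔ g ∈ Subgroup.zpowers s
  free : ∀ (g : H) (y : Y), (∀ h : H, y ≠ h • p) → g • y = y → g = 1
  pmax : ∀ y, ¬ p < y
  wc : WC (Set.univ : Set Y)
  orb : ∃ O : Finset Y, O.card ≤ N ∧ ∀ y : Y, ∃ g : H, g • y ∈ O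
  upf : ∀ y : Y, (∀ h : H, y ≠ h • p) → ∃ U : Finset Y, U.card ≤ M ∧
    ∀ z : Y, y ≤ z → (∀ h : H, z ≠ h • p) → z ∈ U

attribute [instance] YB.po YB.ac

/-- additional data: a base vertex `v` and an edge `e` between `v` and `p`; the elements below `p`
are the translates of `e` by `⟨s⟩` -/
structure YD (H : Type) [Group H] (s : H) (N M : ℕ) extends YB H s N M where
  /-- base vertex -/
  v : Y
  /-- edge from `v` to `p` -/
  e : Y
  vreg : ∀ h : H, v ≠ h • p
  ep : e < p
  ev : e < v
  pdown : ∀ y, y < p ↔ ∃ k : ℤ, y = s ^ k • e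

section walks

variable {H : Type} [Group H] {s : H} {N M : ℕ}

/-- a zigzag walk `x ≥ · ≤ · ≥ ⋯ ≤ y` with `2 m` steps which avoids everything below the orbit
of `p` -/
def YB.Aw (P : YB H s N M) (x y : P.Y) (m : ℕ) : Prop :=
  ∃ w : ℕ → P.Y, w 0 = x ∧ w (2 * m) = y ∧
    (∀ i < m, w (2 * i + 1) ≤ w (2 * i) ∧ w (2 * i + 1) ≤ w (2 * i + 2)) ∧
    ∀ i, i ≤ 2 * m → ∀ h : H, ¬ w i ≤ h • P.p

end walks

/-! ### double mapping cylinders and trees -/

/-- the double mapping cylinder of two maps `Q → P` -/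
inductive DM {P Q : Type} (α β : Q → P) : Type
  | top (x : P) : DM α β
  | bot (x : Q) : DM α β

/-- order relation -/
def DM.Le {P Q : Type} [PartialOrder P] [PartialOrder Q] {α β : Q → P} : DM α β → DM α β → Prop
  | .top x, .top y => x ≤ y
  | .bot x, .bot y => x ≤ y
  | .bot x, .top y => α x ≤ y ∨ β x ≤ y
  | .top _, .bot _ => False

/-- `V` and `E` are the vertices and edges of a tree, `a e` and `b e` are the ends of `e` -/
def IsTree {V E : Type} (a b : E → V) : Prop :=
  ∃ (dep : V → ℕ) (root : V), (∀ v, dep v = 0 → v = root) ∧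
    (∀ e, dep (a e) = dep (b e) + 1 ∨ dep (b e) = dep (a e) + 1) ∧
    ∀ v, v ≠ root → ∃! e, (a e = v ∧ dep (b e) < dep v) ∨ (b e = v ∧ dep (a e) < dep v)

end

end Pool.Agent.Helper59.PD
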