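import Pool.Agent.Helper59.PD.LCf
import Pool.Agent.Helper59.PD.Lib

/-! Contractible posets with one orbit of singular points: definitions. -/

set_option autoImplicit false

open scoped Classical

namespace Pool.Agent.Helper59.PD

noncomputable section

/-- A weakly contractible poset `Y` with an action of `G` which is free outside the orbit of a point
`p` with stabiliser `⟨s⟩`; `p` is maximal, and the poset of elements below `p` is a cycle with `4 q`
elements `lk i`, `i` modulo `4 q`, where `lk i < lk (i ± 1)` for odd `i`, rotated by `s`; there are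
at most `N` orbits of nonempty chains outside the orbit of `p`. -/
structure YPack (q : ℕ) (G : Type) [Group G] (s : G) (N : ℕ) where
  /-- the poset -/
  Y : Type
  [po : PartialOrder Y]
  [ac : MulAction G Y]
  lt : ∀ (g : G) (x y : Y), x < y → g • x < g • y
  /-- the type of an element -/
  typ : Y → ℕ
  typ_lt : ∀ x y, x < y → typ x < typ y
  typ_smul : ∀ (g : G) (x : Y), typ (g • x) = typ x
  /-- bound for the types -/
  T : ℕ
  typ_le : ∀ x, typ x ≤ T
  /-- the singular point -/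
  p : Y
  stab : ∀ g : G, g • p = p ↔ g ∈ Subgroup.zpowers s
  free : ∀ (g : G) (y : Y), (∀ h : G, y ≠ h • p) → g • y = y → g = 1
  pmax : ∀ y, ¬ p < y
  /-- the link of the singular point -/
  lk : ℤ → Y
  lk_below : ∀ y, y < p ↔ ∃ i, y = lk i
  lk_smul : ∀ i, lk (i + 4) = s • lk i
  lk_inj : ∀ i j, lk i = lk j → (4 * q : ℤ) ∣ i - j
  lk_lt : ∀ i, Odd i → lk i < lk (i + 1) ∧ lk i < lk (i - 1)
  lk_of_lt : ∀ i j, lk i < lk j → Odd i ∧ ((4 * q : ℤ) ∣ j - (i + 1) ∨ (4 * q : ℤ) ∣ j - (i - 1))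
  wc : WC (Set.univ : Set Y)
  orb : ∃ O : Finset (Finset Y), O.card ≤ N ∧
    ∀ z : Finset Y, z.Nonempty → IsChain (· ≤ ·) (z : Set Y) → (∀ y ∈ z, ∀ h : G, y ≠ h • p) →
      ∃ g : G, z.image (g • ·) ∈ O

attribute [instance] YPack.po YPack.ac

section walks

variable {q : ℕ} {G : Type} [Group G] {s : G} {N : ℕ} (P : YPack q G s N)

/-- the regular points -/
def YPack.Reg : Set P.Y := {y | ∀ h : G, y ≠ h • P.p}

/-- the position of the vertex `v` under the labelling `y` -/
def YPack.fv (y : ZMod (q + 2) → Finset P.Y) (v : Vx q G) : Finset P.Y := (y v.2).image (v.1 • ·)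

/-- labelled closed walks -/
structure YPack.IsWalk (y : ZMod (q + 2) → Finset P.Y) : Prop where
  mem : ∀ i, y i ∈ Sd P.Reg
  adj : ∀ v : Vx q G, P.fv y v ⊆ P.fv y (nxt s v) ∨ P.fv y (nxt s v) ⊆ P.fv y v

/-- a walk which meets every orbit -/
def YPack.Covers (y : ZMod (q + 2) → Finset P.Y) : Prop :=
  ∀ z ∈ Sd P.Reg, ∃ v : Vx q G, P.fv y v = z

/-- the simplices of the labelled complex of a walk -/
def YPack.KK (y : ZMod (q + 2) → Finset P.Y) : Set (Finset (Vx q G)) :=
  {σ | σ.Nonempty ∧ ∀ v ∈ σ, ∀ w ∈ σ, (P.fv y v ⊆ P.fv y w ∨ P.fv y w ⊆ P.fv y v) ∧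
    (v.2 = w.2 → v = w)}

/-- simplices of the cones -/
def IsCone {s : G} (σ : Finset (Vx q G)) (c : G ⧸ Subgroup.zpowers s) : Prop :=
  σ = ∅ ∨ ∃ v : Vx q G, (QuotientGroup.mk v.1 : G ⧸ Subgroup.zpowers s) = c ∧
      (σ = {v} ∨ σ = {v, nxt s v})

/-- the poset obtained from the chains of regular points by attaching cones along the walk `y` -/
inductive ZT (P : YPack q G s N) (y : ZMod (q + 2) → Finset P.Y) : Type
  | bs (z : Finset P.Y) : ZT P y
  | cn (σ : Finset (Vx q G)) (c : G ⧸ Subgroup.zpowers s) : ZT P y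

variable {P}

/-- the order relation -/
def ZT.Le {y : ZMod (q + 2) → Finset P.Y} : ZT P y → ZT P y → Prop
  | .bs z, .bs z' => z ⊆ z'
  | .bs z, .cn σ _ => ∃ v ∈ σ, z ⊆ P.fv y v
  | .cn σ c, .cn σ' c' => σ ⊆ σ' ∧ c = c'
  | .cn _ _, .bs _ => False

instance {y : ZMod (q + 2) → Finset P.Y} : PartialOrder (ZT P y) where
  le := ZT.Le
  le_refl a := by
    cases a with
    | bs z => exact subset_refl _
    | cn σ c => exact ⟨subset_refl _, rfl⟩
  le_trans a b d h h' := by
    cases a with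
    | bs z =>
      cases b with
      | bs z' =>
        cases d with
        | bs z'' => exact subset_trans h h'
        | cn σ c =>
          obtain ⟨v, hv, h1⟩ := h'
          exact ⟨v, hv, subset_trans h h1⟩
      | cn σ c =>
        cases d with
        | bs z'' => exact h'.elim
        | cn σ' c' =>
          obtain ⟨v, hv, h1⟩ := h
          exact ⟨v, h'.1 hv, h1⟩
    | cn σ c1 =>
      cases b with
      | bs z' => exact h.elim
      | cn σ' c' =>
        cases d with
        | bs z'' => exact h'.elim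
        | cn σ'' c'' => exact ⟨h.1.trans h'.1, h.2.trans h'.2⟩
  le_antisymm a b h h' := by
    cases a with
    | bs z =>
      cases b with
      | bs z' => exact congrArg _ (subset_antisymm h h')
      | cn σ c => exact h'.elim
    | cn σ c =>
      cases b with
      | bs z' => exact h.elim
      | cn σ' c' =>
        have h1 := h.1.antisymm h'.1
        have h2 := h.2
        subst h1; subst h2; rfl

theorem ZT.bs_le_bs {y : ZMod (q + 2) → Finset P.Y} {z z' : Finset P.Y} :
    (ZT.bs z : ZT P y) ≤ ZT.bs z' ↔ z ⊆ z' := Iff.rfl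

theorem ZT.bs_le_cn {y : ZMod (q + 2) → Finset P.Y} {z : Finset P.Y} {σ : Finset (Vx q G)}
    {c : G ⧸ Subgroup.zpowers s} :
    (ZT.bs z : ZT P y) ≤ ZT.cn σ c ↔ ∃ v ∈ σ, z ⊆ P.fv y v := Iff.rfl

theorem ZT.cn_le_cn {y : ZMod (q + 2) → Finset P.Y} {σ σ' : Finset (Vx q G)}
    {c c' : G ⧸ Subgroup.zpowers s} :
    (ZT.cn σ c : ZT P y) ≤ ZT.cn σ' c' ↔ σ ⊆ σ' ∧ c = c' := Iff.rfl

theorem ZT.not_cn_le_bs {y : ZMod (q + 2) → Finset P.Y} {z : Finset P.Y} {σ : Finset (Vx q G)}
    {c : G ⧸ Subgroup.zpowers s} :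
    ¬ (ZT.cn σ c : ZT P y) ≤ ZT.bs z := fun h => h

/-- the set of valid elements -/
def ZS (P : YPack q G s N) (y : ZMod (q + 2) → Finset P.Y) : Set (ZT P y) :=
  {a | (∀ z, a = .bs z → z ∈ Sd P.Reg) ∧ ∀ σ c, a = .cn σ c → IsCone σ c}

/-- the values of the standard walk: constant `{lk 0}`, then once around the link -/
def YPack.W0 (P : YPack q G s N) (j : ℤ) : Finset P.Y :=
  if j ≤ 0 then {P.lk 0} else if Even j then {P.lk (j / 2)} else {P.lk (j / 2), P.lk (j / 2 + 1)}

/-- the standard walk -/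
def YPack.std (P : YPack q G s N) (i : ZMod (q + 2)) : Finset P.Y := P.W0 (i.val - (q - 6 : ℤ))

/-- the equivalence relation on walks generated by pointwise inclusion -/
def YPack.Homot (P : YPack q G s N) : (ZMod (q + 2) → Finset P.Y) → (ZMod (q + 2) → Finset P.Y) →
    Prop :=
  Relation.EqvGen fun y y' => P.IsWalk y ∧ P.IsWalk y' ∧ ∀ i, y i ⊆ y' i

end walks

end

end Pool.Agent.Helper59.PD
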